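import Pool.Agent.H90.D2.Hga
import Pool.Agent.H64.F5.Lvd

/-!
# The label and the covectors at a deep window

`WFr`: a frame of four coordinates at a window, near the covectors `Sv`. `Dpw`: a deep window with
natural ball charts, the row of a label closed on a long window. `Dpw.dd`, `Dpw.hs`, `Dpw.vel`: the
label, its second derivative and the velocities against the covectors.
-/

set_option autoImplicit false

namespace Pool.D2N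

open Finset Real MvPolynomial
open Pool.Agent.H49.Ent Pool.Agent.H32.Dense Pool.STK Pool.KA Pool.KSAT Pool.K2S Pool.PB Pool.S6C
open Pool.GEN Pool.CHT Pool.CHX Pool.LA91
open Pool.D2F Pool.D2Z Pool.D2F2
open Pool.D2R (dd hs co nrm nrm_nonneg ROut1)
open Pool.OWN68 (opl tw uw mid dirv natDegree_opl opl_jet uw_abs)
open Pool.F5 (NatH)

variable {m J : ℕ}

/-- **A frame of a window**, near the covectors `Sv`. -/
structure WFr (F : Fam m J) (c : ℕ → Fin m) (n a k e : ℕ) (g : ℕ → ℕ) (B : F.Ω → Prop)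
    (ψ : PtT F → ℕ → Option (Fin m) → ℝ) (ψH : LnT F → ℕ → Option (Fin m) → ℝ)
    (Sv : PtT F → ℕ → Option (Fin m) → ℝ) : Prop where
  fr : FrOK F c n a k e g B ψ ψH
  nr : ∀ ω, B ω → Nc c g a n (2 ^ k) (ψ (ptr F J ω)) (Sv (ptr F J ω))

/-- **A deep window.** -/
structure Dpw (F : Fam m J) (c : ℕ → Fin m) (D w a v v' e X p : ℕ) (g gT : ℕ → ℕ) (U : ℝ)
    (B : F.Ω → Prop) (G : PtT F → ℕ → MvPolynomial (Option (Fin m)) ℝ)
    (H : LnT F → ℕ → MvPolynomial (Option (Fin m)) ℝ)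
    (T : PtT F → ℕ → MvPolynomial (Option (Fin m)) ℝ)
    (TH : LnT F → ℕ → MvPolynomial (Option (Fin m)) ℝ)
    (Ht : LnT F → MvPolynomial (Option (Fin m)) ℝ)
    (Sv : PtT F → ℕ → Option (Fin m) → ℝ) : Prop where
  aJ : a ≤ J
  ch : ChOK F c 4 (fun _ => D) a a e g B G H
  row : ROut1 F c 3 w a v g gT p U B G H T TH Ht
  U0 : 0 ≤ U
  Uk : U ≤ 2 ^ X
  vv : v ≤ v'
  gv : ∀ l < 3, gT l ≤ g l + v'
  rg : ∀ s, ∀ l < 3, TH s l = Hno (c l) (fun s => H s l) s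
  pr : g 3 + v' ≤ p + X
  dep : ∀ y l, CvC c l (Sv y l)
  nr : ∀ ω, B ω → Nc c g a 4 (2 ^ X) (Sv (ptr F J ω)) (fun l => grd (G (ptr F J ω) l) (bt F ω))
  nat : ∀ l ≤ 3, NatH F c a g B G X l

variable {F : Fam m J} {c : ℕ → Fin m} {D w a v v' e X p : ℕ} {g gT : ℕ → ℕ} {U : ℝ}
    {B : F.Ω → Prop} {G : PtT F → ℕ → MvPolynomial (Option (Fin m)) ℝ}
    {H : LnT F → ℕ → MvPolynomial (Option (Fin m)) ℝ}
    {T : PtT F → ℕ → MvPolynomial (Option (Fin m)) ℝ}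
    {TH : LnT F → ℕ → MvPolynomial (Option (Fin m)) ℝ}
    {Ht : LnT F → MvPolynomial (Option (Fin m)) ℝ} {Sv : PtT F → ℕ → Option (Fin m) → ℝ}

/-- The norm of the charts and of the covectors. -/
theorem Dpw.nrm_sv (h : Dpw F c D w a v v' e X p g gT U B G H T TH Ht Sv) {ω : F.Ω} (hω : B ω)
    {l : ℕ} (hl : l ≤ 3) (V : Option (Fin m) → ℝ) :
    nrm c (G (ptr F J ω)) g a l (bt F ω) V ≤
      2 ^ (4 * X + 4) * en c g a (Sv (ptr F J ω)) l V := by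
  rw [nrm_en]
  refine ((h.nr ω hω).en_le (by positivity) (by omega) V).trans
    (mul_le_mul_of_nonneg_right ?_ (en_nonneg _ _ _ _ _ _))
  have h1 : (1 : ℝ) ≤ 2 ^ X := one_le_pow₀ (by norm_num)
  calc (1 + (2 : ℝ) ^ X) ^ 4 ≤ (2 ^ (X + 1)) ^ 4 :=
        pow_le_pow_left₀ (by positivity) (by rw [pow_succ]; linarith) 4
    _ = 2 ^ (4 * X + 4) := by
        rw [← pow_mul]
        congr 1
        ring

/-- The norm of the own direction. -/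
theorem Dpw.nrm_bd (h : Dpw F c D w a v v' e X p g gT U B G H T TH Ht Sv) {ω : F.Ω} (hω : B ω)
    {l : ℕ} (hl : l ≤ 3) :
    nrm c (G (ptr F J ω)) g a l (bt F ω) (bd F ω) ≤ 2 ^ (X + 2) * 2 ^ a := by
  unfold nrm
  have e0 : bd F ω none = 1 := rfl
  have hk : (1 : ℝ) ≤ 2 ^ X := one_le_pow₀ (by norm_num)
  have e1 : ∀ j ∈ range l, (2 : ℝ) ^ g j * |bd F ω (some (c j)) -
      dd (G (ptr F J ω) j) (bt F ω) (bd F ω)| ≤ 2 ^ X * 2 ^ a := by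
    intro j hj
    have hj' := Finset.mem_range.1 hj
    have h4 := h.row.vel ω ω hω hω rfl j (by omega)
    rw [le_div_iff₀ (by positivity)] at h4
    have h5 := mul_le_mul_of_nonneg_right h.Uk (show (0 : ℝ) ≤ 2 ^ a by positivity)
    linarith
  have e2 : (l : ℝ) ≤ 3 := by exact_mod_cast hl
  rw [e0, abs_one, mul_one]
  have e4 := Finset.sum_le_sum e1
  rw [Finset.sum_const, Finset.card_range, nsmul_eq_mul] at e4
  have e5 : (0 : ℝ) < 2 ^ a := by positivity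
  have e6 : (2 : ℝ) ^ a ≤ 2 ^ X * 2 ^ a := le_mul_of_one_le_left e5.le hk
  have e7 : (l : ℝ) * (2 ^ X * 2 ^ a) ≤ 3 * (2 ^ X * 2 ^ a) :=
    mul_le_mul_of_nonneg_right e2 (by positivity)
  have e8 : (2 : ℝ) ^ (X + 2) * 2 ^ a = 4 * (2 ^ X * 2 ^ a) := by
    rw [pow_add]
    ring
  rw [e8]
  linarith

/-- The powers of two. -/
theorem two_le {a b : ℕ} (h : a ≤ b) : (2 : ℝ) ^ a ≤ 2 ^ b := pow_le_pow_right₀ (by norm_num) h

/-- **The gradient of the label against the covector.** -/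
theorem Dpw.ddn (h : Dpw F c D w a v v' e X p g gT U B G H T TH Ht Sv) {ω : F.Ω} (hω : B ω)
    (V : Option (Fin m) → ℝ) :
    |dd (Ht (slam F w ω)) (bt F ω) V - cv (Sv (ptr F J ω) 3) V| ≤
      2 ^ (9 * X + 8) / 2 ^ g 3 * en c g a (Sv (ptr F J ω)) 3 V := by
  obtain ⟨E, hE⟩ : ∃ E, E = en c g a (Sv (ptr F J ω)) 3 V := ⟨_, rfl⟩
  obtain ⟨N, hN⟩ : ∃ N, N = nrm c (G (ptr F J ω)) g a 3 (bt F ω) V := ⟨_, rfl⟩
  obtain ⟨Q, hQ⟩ : ∃ Q : ℝ, Q = 2 ^ X := ⟨_, rfl⟩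
  have hE0 : 0 ≤ E := by
    rw [hE]
    exact en_nonneg _ _ _ _ _ _
  have hN0 : 0 ≤ N := by
    rw [hN]
    exact nrm_nonneg _ _ _ _ _ _ _
  have hQ1 : 1 ≤ Q := by
    rw [hQ]
    exact one_le_pow₀ (by norm_num)
  have hNE : N ≤ 16 * Q ^ 4 * E := by
    have h1 := h.nrm_sv hω (le_refl 3) V
    rw [← hN, ← hE] at h1
    refine h1.trans (le_of_eq ?_)
    rw [hQ, ← pow_mul, pow_add]
    ring
  have hU0 := h.U0
  have hUQ : U ≤ Q := by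
    rw [hQ]
    exact h.Uk
  have h1 := Pool.RCV.rel1 h.row h.aJ hω V
  have h2 := Pool.RCV.nrm_thin h.row h.U0 h.vv h.gv h.rg hω V
  have h3 := h.nr ω hω 3 (by norm_num) V
  rw [cv_subl, cv_grd] at h3
  rw [← hN] at h1 h2
  rw [← hE, ← hQ] at h3
  have hp : U / 2 ^ p * nrm c (TH (slam F a ω)) gT (a + v) 3 (bt F ω) V ≤
      Q * (8 * Q ^ 3) * Q / 2 ^ g 3 * N := by
    have e1 : U / 2 ^ p * nrm c (TH (slam F a ω)) gT (a + v) 3 (bt F ω) V ≤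
        U / 2 ^ p * ((1 + U) ^ 3 * 2 ^ v' * N) := mul_le_mul_of_nonneg_left h2 (by positivity)
    have e2 : (2 : ℝ) ^ v' / 2 ^ p ≤ Q / 2 ^ g 3 := by
      rw [hQ, div_le_div_iff₀ (by positivity) (by positivity), ← pow_add, ← pow_add]
      exact two_le (by have := h.pr; omega)
    have e3 : (1 + U) ^ 3 ≤ 8 * Q ^ 3 := by
      have : (1 + U) ^ 3 ≤ (2 * Q) ^ 3 := pow_le_pow_left₀ (by linarith) (by linarith) 3
      rw [mul_pow] at this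
      linarith
    calc U / 2 ^ p * nrm c (TH (slam F a ω)) gT (a + v) 3 (bt F ω) V ≤
        U / 2 ^ p * ((1 + U) ^ 3 * 2 ^ v' * N) := e1
      _ = U * (1 + U) ^ 3 * (2 ^ v' / 2 ^ p) * N := by ring
      _ ≤ Q * (8 * Q ^ 3) * (Q / 2 ^ g 3) * N := by gcongr
      _ = _ := by ring
  have hg : U / 2 ^ g 3 * N ≤ Q / 2 ^ g 3 * N := by gcongr
  have h4 : |dd (Ht (slam F w ω)) (bt F ω) V - cv (Sv (ptr F J ω) 3) V| ≤
      Q * (8 * Q ^ 3) * Q / 2 ^ g 3 * N + Q / 2 ^ g 3 * N + Q / 2 ^ g 3 * E := by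
    have e1 : dd (Ht (slam F w ω)) (bt F ω) V - cv (Sv (ptr F J ω) 3) V =
        (dd (Ht (slam F w ω)) (bt F ω) V - dd (G (ptr F J ω) 3) (bt F ω) V) +
        (dd (G (ptr F J ω) 3) (bt F ω) V - cv (Sv (ptr F J ω) 3) V) := by ring
    rw [e1]
    refine (abs_add_le _ _).trans ?_
    linarith
  refine h4.trans ?_
  rw [← hE]
  have e1 : (2 : ℝ) ^ (9 * X + 8) = 256 * Q ^ 9 := by
    rw [hQ, ← pow_mul, pow_add]
    ring
  rw [e1]
  have hd : (0 : ℝ) < 1 / 2 ^ g 3 := by positivity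
  have e2 : Q * (8 * Q ^ 3) * Q / 2 ^ g 3 * N + Q / 2 ^ g 3 * N + Q / 2 ^ g 3 * E =
      1 / 2 ^ g 3 * ((8 * Q ^ 5 + Q) * N + Q * E) := by ring
  have e3 : 256 * Q ^ 9 / 2 ^ g 3 * E = 1 / 2 ^ g 3 * (256 * Q ^ 9 * E) := by ring
  rw [e2, e3]
  refine mul_le_mul_of_nonneg_left ?_ hd.le
  have q1 : Q ≤ Q ^ 5 := le_self_pow₀ hQ1 (by norm_num)
  have q2 : Q ≤ Q ^ 9 := le_self_pow₀ hQ1 (by norm_num)
  calc (8 * Q ^ 5 + Q) * N + Q * E ≤ (9 * Q ^ 5) * (16 * Q ^ 4 * E) + Q ^ 9 * E := by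
        gcongr
        linarith
    _ = 145 * Q ^ 9 * E := by ring
    _ ≤ 256 * Q ^ 9 * E := by
        have : 0 ≤ Q ^ 9 * E := by positivity
        linarith

/-- The constant of `cov_rough`. -/
theorem kc_num {Q U : ℝ} (hQ : 1 ≤ Q) (hU0 : 0 ≤ U) (hU : U ≤ Q) :
    3 * U * Pool.RCV.kc 3 U (4 * Q ^ 2) + U * (1 + 3 * U) + Pool.RCV.kc 3 U (4 * Q ^ 2) ≤
      2 ^ 16 * Q ^ 10 := by
  have hkc : Pool.RCV.kc 3 U (4 * Q ^ 2) ≤ 2 ^ 13 * Q ^ 9 := by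
    unfold Pool.RCV.kc
    have e1 : (1 + U) ^ 3 ≤ 8 * Q ^ 3 := by
      have : (1 + U) ^ 3 ≤ (2 * Q) ^ 3 := pow_le_pow_left₀ (by linarith) (by linarith) 3
      rw [mul_pow] at this
      linarith
    have e2 : 4 * Q ^ 2 + U * (1 + 3 * U) + U * (3 * (4 * Q ^ 2)) ≤ 20 * Q ^ 3 := by
      have q1 : Q ^ 2 ≤ Q ^ 3 := pow_le_pow_right₀ hQ (by norm_num)
      have q2 : Q ≤ Q ^ 2 := le_self_pow₀ hQ (by norm_num)
      have q3 : U * (1 + 3 * U) ≤ Q * (1 + 3 * Q) := by gcongr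
      have q4 : U * (3 * (4 * Q ^ 2)) ≤ Q * (3 * (4 * Q ^ 2)) := by gcongr
      nlinarith
    have e3 : 0 ≤ 4 * Q ^ 2 + U * (1 + 3 * U) + U * (3 * (4 * Q ^ 2)) := by positivity
    have q3 : Q ^ 3 ≤ Q ^ 9 := pow_le_pow_right₀ hQ (by norm_num)
    have q2 : Q ^ 2 ≤ Q ^ 9 := pow_le_pow_right₀ hQ (by norm_num)
    push_cast
    calc (1 + U) ^ 3 + 3 * ((4 * Q ^ 2 + U * (1 + 3 * U) + U * (3 * (4 * Q ^ 2))) *
          (1 + U) ^ 3 * (1 + U) ^ 3) + (3 + 1) * (4 * Q ^ 2) ≤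
          8 * Q ^ 3 + 3 * ((20 * Q ^ 3) * (8 * Q ^ 3) * (8 * Q ^ 3)) + (3 + 1) * (4 * Q ^ 2) := by
          gcongr
      _ = 8 * Q ^ 3 + 3840 * Q ^ 9 + 16 * Q ^ 2 := by ring
      _ ≤ 2 ^ 13 * Q ^ 9 := by
          have : (0 : ℝ) ≤ Q ^ 9 := by positivity
          norm_num
          linarith
  have hk0 : 0 ≤ Pool.RCV.kc 3 U (4 * Q ^ 2) := Pool.RCV.kc_nonneg 3 hU0 (by positivity)
  have q9 : Q ^ 9 ≤ Q ^ 10 := pow_le_pow_right₀ hQ (by norm_num)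
  have q2 : Q ^ 2 ≤ Q ^ 10 := pow_le_pow_right₀ hQ (by norm_num)
  have q1 : Q ≤ Q ^ 10 := le_self_pow₀ hQ (by norm_num)
  have e4 : 3 * U * Pool.RCV.kc 3 U (4 * Q ^ 2) ≤ 3 * Q * (2 ^ 13 * Q ^ 9) := by gcongr
  have e5 : U * (1 + 3 * U) ≤ Q * (1 + 3 * Q) := by gcongr
  have e6 : 3 * Q * (2 ^ 13 * Q ^ 9) = 3 * 2 ^ 13 * Q ^ 10 := by ring
  norm_num at e4 e5 e6 hkc ⊢
  nlinarith

/-- **The second derivative of the label.** -/
theorem Dpw.hsn (h : Dpw F c D w a v v' e X p g gT U B G H T TH Ht Sv) {ω : F.Ω} (hω : B ω)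
    (V : Option (Fin m) → ℝ) :
    |hs (Ht (slam F w ω)) (bt F ω) (bd F ω) V| ≤
      2 ^ (15 * X + 21) * (2 ^ a / 2 ^ g 3) * en c g a (Sv (ptr F J ω)) 3 V := by
  obtain ⟨Q, hQ⟩ : ∃ Q : ℝ, Q = 2 ^ X := ⟨_, rfl⟩
  have hQ1 : 1 ≤ Q := by
    rw [hQ]
    exact one_le_pow₀ (by norm_num)
  have hvc : ∀ l ≤ 3, ∀ V : Option (Fin m) → ℝ, |hs (G (ptr F J ω) l) (bt F ω) (bd F ω) V| ≤
      (4 * Q ^ 2) * (2 ^ a / 2 ^ g l) * nrm c (G (ptr F J ω)) g a l (bt F ω) V := by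
    intro l hl V
    have h1 := h.nat l hl ω hω (bt F ω) (h.ch.self hω (by omega)) (bd F ω) V
    refine h1.trans ?_
    have h2 := h.nrm_bd hω hl
    have h3 := nrm_nonneg c (G (ptr F J ω)) g a l (bt F ω) V
    calc (2 : ℝ) ^ X / 2 ^ g l * (nrm c (G (ptr F J ω)) g a l (bt F ω) (bd F ω) *
          nrm c (G (ptr F J ω)) g a l (bt F ω) V) ≤ 2 ^ X / 2 ^ g l *
          ((2 ^ (X + 2) * 2 ^ a) * nrm c (G (ptr F J ω)) g a l (bt F ω) V) :=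
          mul_le_mul_of_nonneg_left (mul_le_mul_of_nonneg_right h2 h3) (by positivity)
      _ = _ := by
          rw [pow_add, ← hQ]
          ring
  have h1 := Pool.RCV.cov_rough h.row h.aJ h.U0 (by positivity) h.vv h.gv h.rg hω hvc V
  have h2 := kc_num hQ1 h.U0 (by rw [hQ]; exact h.Uk)
  have h3 := h.nrm_sv hω (le_refl 3) V
  have h4 : (2 : ℝ) ^ (a + v') / 2 ^ p + 2 ^ a / 2 ^ g 3 ≤ 2 * (Q * (2 ^ a / 2 ^ g 3)) := by
    have e1 : (2 : ℝ) ^ (a + v') / 2 ^ p ≤ Q * (2 ^ a / 2 ^ g 3) := by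
      rw [hQ, ← mul_div_assoc, div_le_div_iff₀ (by positivity) (by positivity), ← pow_add,
        ← pow_add, ← pow_add]
      exact two_le (by have := h.pr; omega)
    have e2 : (2 : ℝ) ^ a / 2 ^ g 3 ≤ Q * (2 ^ a / 2 ^ g 3) :=
      le_mul_of_one_le_left (by positivity) hQ1
    linarith
  have h0 := nrm_nonneg c (G (ptr F J ω)) g a 3 (bt F ω) V
  have hk0 : 0 ≤ Pool.RCV.kc 3 U (4 * Q ^ 2) := Pool.RCV.kc_nonneg 3 h.U0 (by positivity)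
  have hE0 := en_nonneg c g a (Sv (ptr F J ω)) 3 V
  have hU0 := h.U0
  push_cast at h1
  calc |hs (Ht (slam F w ω)) (bt F ω) (bd F ω) V| ≤
      (3 * U * Pool.RCV.kc 3 U (4 * Q ^ 2) + U * (1 + 3 * U) + Pool.RCV.kc 3 U (4 * Q ^ 2)) *
        (2 ^ (a + v') / 2 ^ p + 2 ^ a / 2 ^ g 3) * nrm c (G (ptr F J ω)) g a 3 (bt F ω) V := h1
    _ ≤ (2 ^ 16 * Q ^ 10) * (2 * (Q * (2 ^ a / 2 ^ g 3))) *
        (2 ^ (4 * X + 4) * en c g a (Sv (ptr F J ω)) 3 V) := by gcongr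
    _ = _ := by
        have e1 : (2 : ℝ) ^ (15 * X + 21) = 2 ^ 17 * Q ^ 11 * 2 ^ (4 * X + 4) := by
          rw [hQ, ← pow_mul, ← pow_add, ← pow_add]
          congr 1
          ring
        rw [e1]
        ring

/-- **The velocities against the covectors.** -/
theorem Dpw.velo (h : Dpw F c D w a v v' e X p g gT U B G H T TH Ht Sv) {ω : F.Ω} (hω : B ω)
    {l : ℕ} (hl : l ≤ 3) :
    |bd F ω (some (c l)) - cv (Sv (ptr F J ω) l) (bd F ω)| ≤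
      2 ^ (6 * X + 7) * 2 ^ a / 2 ^ g l := by
  obtain ⟨Q, hQ⟩ : ∃ Q : ℝ, Q = 2 ^ X := ⟨_, rfl⟩
  have hQ1 : 1 ≤ Q := by
    rw [hQ]
    exact one_le_pow₀ (by norm_num)
  have h1 := h.row.vel ω ω hω hω rfl l hl
  have h2 := h.nr ω hω l (by omega) (bd F ω)
  rw [cv_subl, cv_grd] at h2
  have h3 : en c g a (Sv (ptr F J ω)) l (bd F ω) ≤ 2 ^ (4 * X + 4) * (2 ^ (X + 2) * 2 ^ a) := by
    have e1 := (h.nr ω hω).en_ge (by positivity) (show l ≤ 4 by omega) (bd F ω)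
    have e2 := h.nrm_bd hω hl
    rw [nrm_en] at e2
    refine e1.trans ?_
    have h1 : (1 : ℝ) ≤ 2 ^ X := one_le_pow₀ (by norm_num)
    have e3 : (1 + (2 : ℝ) ^ X) ^ 4 ≤ 2 ^ (4 * X + 4) := by
      calc (1 + (2 : ℝ) ^ X) ^ 4 ≤ (2 ^ (X + 1)) ^ 4 :=
            pow_le_pow_left₀ (by positivity) (by rw [pow_succ]; linarith) 4
        _ = 2 ^ (4 * X + 4) := by
            rw [← pow_mul]
            congr 1
            ring
    exact mul_le_mul e3 e2 (en_nonneg _ _ _ _ _ _) (by positivity)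
  have e1 : bd F ω (some (c l)) - cv (Sv (ptr F J ω) l) (bd F ω) =
      (bd F ω (some (c l)) - dd (G (ptr F J ω) l) (bt F ω) (bd F ω)) +
      (dd (G (ptr F J ω) l) (bt F ω) (bd F ω) - cv (Sv (ptr F J ω) l) (bd F ω)) := by ring
  rw [e1]
  have h4 : U * 2 ^ a / 2 ^ g l ≤ Q * 2 ^ a / 2 ^ g l := by
    have := h.Uk
    rw [← hQ] at this
    gcongr
  have h5 : (2 : ℝ) ^ X / 2 ^ g l * en c g a (Sv (ptr F J ω)) l (bd F ω) ≤
      2 ^ X / 2 ^ g l * (2 ^ (4 * X + 4) * (2 ^ (X + 2) * 2 ^ a)) :=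
    mul_le_mul_of_nonneg_left h3 (by positivity)
  refine (abs_add_le _ _).trans ((add_le_add (h1.trans h4) (h2.trans h5)).trans ?_)
  have e2 : (2 : ℝ) ^ X / 2 ^ g l * (2 ^ (4 * X + 4) * (2 ^ (X + 2) * 2 ^ a)) =
      64 * Q ^ 6 * 2 ^ a / 2 ^ g l := by
    rw [hQ, ← pow_mul, pow_add, pow_add]
    ring
  have e3 : (2 : ℝ) ^ (6 * X + 7) = 128 * Q ^ 6 := by
    rw [hQ, ← pow_mul, pow_add]
    ring
  rw [e2, e3, ← add_div]
  refine div_le_div_of_nonneg_right ?_ (by positivity)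
  have q1 : Q ≤ Q ^ 6 := le_self_pow₀ hQ1 (by norm_num)
  have h6 : Q * 2 ^ a ≤ Q ^ 6 * 2 ^ a := by gcongr
  have h7 : 0 ≤ Q ^ 6 * 2 ^ a := by positivity
  linarith

end Pool.D2N
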