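import Pool.Agent.H90.D2.Cas

/-!
# D2, `(1,2,2;3)`, both rough: from real data to `PrD`

`PrR`: the natural velocities, positions, slopes of one law as real functions. `PrR.prd`: the cells
of these functions satisfy `PrD`; the data of the own line are those of a reference sample with the
same records.
-/

set_option autoImplicit false

namespace Pool.D2N

open Finset Real
open Pool.Agent.H49.Ent Pool.Agent.H32.Dense Pool.STK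
open Pool.K2S
open Pool.KM7 (P2 P2_isLaw P2_pos)
open Pool.D2A Pool.D2T Pool.D2G Pool.D2JA

variable {Ω σ ζ ζ' ε : Type} [Fintype Ω]

/-- **The real data of one law.** `E` = natural velocity of `V0`, `t`, `y` = natural positions,
`A`, `T` = the coefficients of the target along the own line, `V` = natural velocities of the two
rough functions, `M` = their slopes. -/
structure PrR (p : Ω → ℝ) (S : Ω → σ) (z : Ω → ζ) (z' : Ω → ζ') (e : Ω → ε) (E t y T : Ω → ℝ)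
    (A V : Ω → Fin 2 → ℝ) (M : Ω → Fin 2 → Fin 2 → ℝ) (s : ℕ) (B L K : ℝ) : Prop where
  isLaw : IsLaw p
  dz : Det p z' z
  dS : Det p S z
  dt : Det p z' (fun ω => (⌊2 ^ s * t ω⌋, ⌊2 ^ s * y ω⌋))
  dM : Det p z' M
  de : Det p S e
  hL : 1 ≤ L
  hK : 0 ≤ K
  bt : ∀ ω, 0 < p ω → |t ω| ≤ B ∧ |y ω| ≤ B
  bM : ∀ ω, 0 < p ω → ∀ i j, |M ω i j| ≤ L
  bE : ∀ ω, 0 < p ω → |E ω| ≤ L
  bA : ∀ ω, 0 < p ω → ∀ i, |A ω i| ≤ L
  bT : ∀ ω, 0 < p ω → |T ω| ≤ L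
  nE : ∀ ω ω', 0 < p ω → 0 < p ω' → z ω = z ω' → e ω = e ω' → |E ω - E ω'| ≤ K / 2 ^ s
  nA : ∀ ω ω', 0 < p ω → 0 < p ω' → z ω = z ω' → e ω = e ω' → ∀ i, |A ω i - A ω' i| ≤ K / 2 ^ s
  nT : ∀ ω ω', 0 < p ω → 0 < p ω' → z ω = z ω' → e ω = e ω' → |T ω - T ω'| ≤ K / 2 ^ s
  vV : ∀ ω, 0 < p ω → ∀ i, |V ω i - (M ω i 0 + E ω * M ω i 1)| ≤ K / 2 ^ s
  mov : ∀ ω ω', 0 < p ω → 0 < p ω' → S ω = S ω' → |y ω' - y ω - (t ω' - t ω) * E ω| ≤ K / 2 ^ s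
  lin : ∀ ω ω', 0 < p ω → 0 < p ω' → S ω = S ω' → ∀ i, |V ω' i - V ω i| ≤ K / 2 ^ s
  rel : ∀ ω ω', 0 < p ω → 0 < p ω' → S ω = S ω' →
    |2 * (t ω' - t ω) * T ω + ∑ i, A ω i * (M ω' i 1 - M ω i 1)| ≤ K / 2 ^ s

open Classical in
/-- The value of a function at a reference sample. -/
noncomputable def rfv {R : Type} [Inhabited R] (p : Ω → ℝ) (z : Ω → ζ) (e : Ω → ε) (f : Ω → R)
    (y : ζ) (x : ε) : R :=
  if h : ∃ ω, 0 < p ω ∧ z ω = y ∧ e ω = x then f h.choose else default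

theorem rfv_spec {R : Type} [Inhabited R] {p : Ω → ℝ} {z : Ω → ζ} {e : Ω → ε} {ω : Ω}
    (hω : 0 < p ω) : ∃ ω₀, 0 < p ω₀ ∧ z ω₀ = z ω ∧ e ω₀ = e ω ∧
      ∀ f : Ω → R, rfv p z e f (z ω) (e ω) = f ω₀ := by
  classical
  have h : ∃ ω', 0 < p ω' ∧ z ω' = z ω ∧ e ω' = e ω := ⟨ω, hω, rfl, rfl⟩
  refine ⟨h.choose, h.choose_spec.1, h.choose_spec.2.1, h.choose_spec.2.2, fun f => ?_⟩
  unfold rfv
  rw [dif_pos h]

/-! ### Real estimates -/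

theorem m2_le {x y X Y : ℝ} (hx : |x| ≤ X) (hy : |y| ≤ Y) : |x * y| ≤ X * Y := by
  rw [abs_mul]
  exact mul_le_mul hx hy (abs_nonneg _) ((abs_nonneg _).trans hx)

theorem flr1 (x : ℝ) : |((⌊x⌋ : ℤ) : ℝ) - x| ≤ 1 := by
  rw [abs_le]
  constructor
  · linarith [Int.lt_floor_add_one x]
  · linarith [Int.floor_le x]

/-- One term of the sum. -/
theorem term_le {c L K A A₀ E E₀ V m₀ m₁ n₀ n₁ : ℝ} (hc : 0 < c) (hL : 1 ≤ L) (hK : 0 ≤ K)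
    (hA : |A| ≤ L) (hA₀ : |A₀| ≤ L) (hE₀ : |E₀| ≤ L) (dA : |A₀ - A| ≤ K / c)
    (dE : |E₀ - E| ≤ K / c) (hV : |V - (m₀ + E * m₁)| ≤ K / c) (hm₀ : |m₀| ≤ L) (hm₁ : |m₁| ≤ L)
    (hn₀ : |n₀ - c * m₀| ≤ 1) (hn₁ : |n₁ - c * m₁| ≤ 1) :
    |c * (A * V) - A₀ * (n₀ + E₀ * n₁)| ≤ 2 * L ^ 2 + 4 * L ^ 2 * K := by
  have hcK : c * (K / c) = K := by field_simp
  have hL0 : 0 ≤ L := by linarith
  have e : c * (A * V) - A₀ * (n₀ + E₀ * n₁) =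
      A * (c * (V - (m₀ + E * m₁))) - (c * (A₀ - A)) * (m₀ + E₀ * m₁) -
        A * ((c * (E₀ - E)) * m₁) - A₀ * (n₀ - c * m₀) - A₀ * (E₀ * (n₁ - c * m₁)) := by
    ring
  have t1 : |A * (c * (V - (m₀ + E * m₁)))| ≤ L * K := by
    refine m2_le hA ?_
    rw [abs_mul, abs_of_pos hc, ← hcK]
    exact mul_le_mul_of_nonneg_left hV hc.le
  have b2 : |m₀ + E₀ * m₁| ≤ 2 * L ^ 2 := by
    have h1 := abs_add_le m₀ (E₀ * m₁)
    have h2 := m2_le hE₀ hm₁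
    nlinarith
  have t2 : |(c * (A₀ - A)) * (m₀ + E₀ * m₁)| ≤ K * (2 * L ^ 2) := by
    refine m2_le ?_ b2
    rw [abs_mul, abs_of_pos hc, ← hcK]
    exact mul_le_mul_of_nonneg_left dA hc.le
  have t3 : |A * ((c * (E₀ - E)) * m₁)| ≤ L * (K * L) := by
    refine m2_le hA (m2_le ?_ hm₁)
    rw [abs_mul, abs_of_pos hc, ← hcK]
    exact mul_le_mul_of_nonneg_left dE hc.le
  have t4 : |A₀ * (n₀ - c * m₀)| ≤ L * 1 := m2_le hA₀ hn₀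
  have t5 : |A₀ * (E₀ * (n₁ - c * m₁))| ≤ L * (L * 1) := m2_le hA₀ (m2_le hE₀ hn₁)
  have s1 := abs_sub (A * (c * (V - (m₀ + E * m₁)))) ((c * (A₀ - A)) * (m₀ + E₀ * m₁))
  have s2 := abs_sub (A * (c * (V - (m₀ + E * m₁))) - (c * (A₀ - A)) * (m₀ + E₀ * m₁))
    (A * ((c * (E₀ - E)) * m₁))
  have s3 := abs_sub (A * (c * (V - (m₀ + E * m₁))) - (c * (A₀ - A)) * (m₀ + E₀ * m₁) -
    A * ((c * (E₀ - E)) * m₁)) (A₀ * (n₀ - c * m₀))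
  have s4 := abs_sub (A * (c * (V - (m₀ + E * m₁))) - (c * (A₀ - A)) * (m₀ + E₀ * m₁) -
    A * ((c * (E₀ - E)) * m₁) - A₀ * (n₀ - c * m₀)) (A₀ * (E₀ * (n₁ - c * m₁)))
  rw [e]
  have hLL : L ≤ L ^ 2 := by nlinarith
  have hLK : L * K ≤ L ^ 2 * K := mul_le_mul_of_nonneg_right hLL hK
  nlinarith

/-- The relation of the own number. -/
theorem num_le {c L K B E E₀ T T₀ t y nt ny nb : ℝ} {A A₀ V m₀ m₁ n₀ n₁ : Fin 2 → ℝ} (hc : 0 < c)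
    (hL : 1 ≤ L) (hK : 0 ≤ K) (hB : 0 ≤ B) (hA : ∀ i, |A i| ≤ L) (hA₀ : ∀ i, |A₀ i| ≤ L)
    (hE₀ : |E₀| ≤ L) (hT : |T| ≤ L) (hT₀ : |T₀| ≤ L)
    (ht : |t| ≤ B) (hy : |y| ≤ B) (dA : ∀ i, |A₀ i - A i| ≤ K / c)
    (dE : |E₀ - E| ≤ K / c) (dT : |T₀ - T| ≤ K / c)
    (hV : ∀ i, |V i - (m₀ i + E * m₁ i)| ≤ K / c) (hm₀ : ∀ i, |m₀ i| ≤ L) (hm₁ : ∀ i, |m₁ i| ≤ L)
    (hn₀ : ∀ i, |n₀ i - c * m₀ i| ≤ 1) (hn₁ : ∀ i, |n₁ i - c * m₁ i| ≤ 1)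
    (hnt : |nt - c * t| ≤ 1) (hny : |ny - c * y| ≤ 1)
    (hnb : |nb - c * (∑ i, A i * V i + T * (y - E * t))| ≤ 1) :
    |nb - (-(T₀ * E₀) * nt + T₀ * ny) - ∑ i, A₀ i * (n₀ i + E₀ * n₁ i)| ≤
      16 * L ^ 2 * (K + 1) * (B + 1) := by
  have hcK : c * (K / c) = K := by field_simp
  have hL0 : 0 ≤ L := by linarith
  have k0 := term_le hc hL hK (hA 0) (hA₀ 0) hE₀ (dA 0) dE (hV 0) (hm₀ 0) (hm₁ 0) (hn₀ 0) (hn₁ 0)
  have k1 := term_le hc hL hK (hA 1) (hA₀ 1) hE₀ (dA 1) dE (hV 1) (hm₀ 1) (hm₁ 1) (hn₀ 1) (hn₁ 1)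
  rw [Fin.sum_univ_two] at hnb ⊢
  have e : nb - (-(T₀ * E₀) * nt + T₀ * ny) - (A₀ 0 * (n₀ 0 + E₀ * n₁ 0) +
      A₀ 1 * (n₀ 1 + E₀ * n₁ 1)) =
      (nb - c * (A 0 * V 0 + A 1 * V 1 + T * (y - E * t))) +
      (c * (A 0 * V 0) - A₀ 0 * (n₀ 0 + E₀ * n₁ 0)) +
      (c * (A 1 * V 1) - A₀ 1 * (n₀ 1 + E₀ * n₁ 1)) +
      (T₀ * E₀) * (nt - c * t) - T₀ * (ny - c * y) +
      ((c * (T₀ - T)) * (E₀ * t) + T * ((c * (E₀ - E)) * t)) - (c * (T₀ - T)) * y := by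
    ring
  have cT : |c * (T₀ - T)| ≤ K := by
    rw [abs_mul, abs_of_pos hc, ← hcK]
    exact mul_le_mul_of_nonneg_left dT hc.le
  have cE : |c * (E₀ - E)| ≤ K := by
    rw [abs_mul, abs_of_pos hc, ← hcK]
    exact mul_le_mul_of_nonneg_left dE hc.le
  have t1 : |(T₀ * E₀) * (nt - c * t)| ≤ L * L * 1 := m2_le (m2_le hT₀ hE₀) hnt
  have t2 : |T₀ * (ny - c * y)| ≤ L * 1 := m2_le hT₀ hny
  have t3 : |(c * (T₀ - T)) * (E₀ * t)| ≤ K * (L * B) := m2_le cT (m2_le hE₀ ht)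
  have t4 : |T * ((c * (E₀ - E)) * t)| ≤ L * (K * B) := m2_le hT (m2_le cE ht)
  have t5 : |(c * (T₀ - T)) * y| ≤ K * B := m2_le cT hy
  have hLL : L ≤ L ^ 2 := by nlinarith
  have h1L : 1 ≤ L ^ 2 := one_le_pow₀ hL
  have hKB : 0 ≤ K * B := mul_nonneg hK hB
  have q1 : L * (K * B) ≤ L ^ 2 * (K * B) := mul_le_mul_of_nonneg_right hLL hKB
  have q2 : 1 * (K * B) ≤ L ^ 2 * (K * B) := mul_le_mul_of_nonneg_right h1L hKB
  have q3 : 0 ≤ L ^ 2 * K := by positivity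
  have q4 : 0 ≤ L ^ 2 * B := by positivity
  rw [e]
  have s0 := abs_add_le ((nb - c * (A 0 * V 0 + A 1 * V 1 + T * (y - E * t))) +
      (c * (A 0 * V 0) - A₀ 0 * (n₀ 0 + E₀ * n₁ 0)))
      (c * (A 1 * V 1) - A₀ 1 * (n₀ 1 + E₀ * n₁ 1))
  have s0' := abs_add_le (nb - c * (A 0 * V 0 + A 1 * V 1 + T * (y - E * t)))
      (c * (A 0 * V 0) - A₀ 0 * (n₀ 0 + E₀ * n₁ 0))
  have s1 := abs_add_le ((nb - c * (A 0 * V 0 + A 1 * V 1 + T * (y - E * t))) +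
      (c * (A 0 * V 0) - A₀ 0 * (n₀ 0 + E₀ * n₁ 0)) +
      (c * (A 1 * V 1) - A₀ 1 * (n₀ 1 + E₀ * n₁ 1))) ((T₀ * E₀) * (nt - c * t))
  have s2 := abs_sub ((nb - c * (A 0 * V 0 + A 1 * V 1 + T * (y - E * t))) +
      (c * (A 0 * V 0) - A₀ 0 * (n₀ 0 + E₀ * n₁ 0)) +
      (c * (A 1 * V 1) - A₀ 1 * (n₀ 1 + E₀ * n₁ 1)) + (T₀ * E₀) * (nt - c * t))
      (T₀ * (ny - c * y))
  have s3 := abs_add_le ((nb - c * (A 0 * V 0 + A 1 * V 1 + T * (y - E * t))) +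
      (c * (A 0 * V 0) - A₀ 0 * (n₀ 0 + E₀ * n₁ 0)) +
      (c * (A 1 * V 1) - A₀ 1 * (n₀ 1 + E₀ * n₁ 1)) + (T₀ * E₀) * (nt - c * t) -
      T₀ * (ny - c * y)) ((c * (T₀ - T)) * (E₀ * t) + T * ((c * (E₀ - E)) * t))
  have s3' := abs_add_le ((c * (T₀ - T)) * (E₀ * t)) (T * ((c * (E₀ - E)) * t))
  have s4 := abs_sub ((nb - c * (A 0 * V 0 + A 1 * V 1 + T * (y - E * t))) +
      (c * (A 0 * V 0) - A₀ 0 * (n₀ 0 + E₀ * n₁ 0)) +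
      (c * (A 1 * V 1) - A₀ 1 * (n₀ 1 + E₀ * n₁ 1)) + (T₀ * E₀) * (nt - c * t) -
      T₀ * (ny - c * y) + ((c * (T₀ - T)) * (E₀ * t) + T * ((c * (E₀ - E)) * t)))
      ((c * (T₀ - T)) * y)
  nlinarith

/-- The motion. -/
theorem mov_le {c L K B E E₀ t t' y y' nt nt' ny ny' : ℝ} (hc : 0 < c)
    (hL : 1 ≤ L) (hK : 0 ≤ K) (hB : 0 ≤ B) (hE₀ : |E₀| ≤ L) (ht : |t| ≤ B) (ht' : |t'| ≤ B)
    (dE : |E₀ - E| ≤ K / c) (hm : |y' - y - (t' - t) * E| ≤ K / c)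
    (hnt : |nt - c * t| ≤ 1) (hnt' : |nt' - c * t'| ≤ 1) (hny : |ny - c * y| ≤ 1)
    (hny' : |ny' - c * y'| ≤ 1) :
    |ny' - ny - (nt' - nt) * E₀| ≤ 16 * L ^ 2 * (K + 1) * (B + 1) := by
  have hcK : c * (K / c) = K := by field_simp
  have e : ny' - ny - (nt' - nt) * E₀ = c * (y' - y - (t' - t) * E) + (ny' - c * y') -
      (ny - c * y) - ((nt' - c * t') * E₀ - (nt - c * t) * E₀) -
      ((t' - t) * (c * (E₀ - E))) := by ring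
  have cE : |c * (E₀ - E)| ≤ K := by
    rw [abs_mul, abs_of_pos hc, ← hcK]
    exact mul_le_mul_of_nonneg_left dE hc.le
  have cm : |c * (y' - y - (t' - t) * E)| ≤ K := by
    rw [abs_mul, abs_of_pos hc, ← hcK]
    exact mul_le_mul_of_nonneg_left hm hc.le
  have t1 : |(nt' - c * t') * E₀| ≤ 1 * L := m2_le hnt' hE₀
  have t2 : |(nt - c * t) * E₀| ≤ 1 * L := m2_le hnt hE₀
  have t3 : |(t' - t) * (c * (E₀ - E))| ≤ (B + B) * K :=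
    m2_le ((abs_sub _ _).trans (add_le_add ht' ht)) cE
  have s1 := abs_add_le (c * (y' - y - (t' - t) * E)) (ny' - c * y')
  have s2 := abs_sub (c * (y' - y - (t' - t) * E) + (ny' - c * y')) (ny - c * y)
  have s3 := abs_sub (c * (y' - y - (t' - t) * E) + (ny' - c * y') - (ny - c * y))
    ((nt' - c * t') * E₀ - (nt - c * t) * E₀)
  have s3' := abs_sub ((nt' - c * t') * E₀) ((nt - c * t) * E₀)
  have s4 := abs_sub (c * (y' - y - (t' - t) * E) + (ny' - c * y') - (ny - c * y) -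
    ((nt' - c * t') * E₀ - (nt - c * t) * E₀)) ((t' - t) * (c * (E₀ - E)))
  have hLL : L ≤ L ^ 2 := by nlinarith
  have h1L : 1 ≤ L ^ 2 := one_le_pow₀ hL
  have hKB : 0 ≤ K * B := mul_nonneg hK hB
  have q1 : 1 * (K * B) ≤ L ^ 2 * (K * B) := mul_le_mul_of_nonneg_right h1L hKB
  have q2 : 1 * K ≤ L ^ 2 * K := mul_le_mul_of_nonneg_right h1L hK
  have q4 : 0 ≤ L ^ 2 * B := by positivity
  rw [e]
  nlinarith

/-- The velocities of the slopes. -/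
theorem vel_le {c L K E E' E₀ V V' m₀ m₁ m₀' m₁' n₀ n₁ n₀' n₁' : ℝ} (hc : 0 < c)
    (hL : 1 ≤ L) (hK : 0 ≤ K) (hE₀ : |E₀| ≤ L) (hm₁ : |m₁| ≤ L) (hm₁' : |m₁'| ≤ L)
    (dE : |E₀ - E| ≤ K / c) (dE' : |E₀ - E'| ≤ K / c)
    (hV : |V - (m₀ + E * m₁)| ≤ K / c) (hV' : |V' - (m₀' + E' * m₁')| ≤ K / c)
    (hVV : |V' - V| ≤ K / c) (hn₀ : |n₀ - c * m₀| ≤ 1) (hn₁ : |n₁ - c * m₁| ≤ 1)
    (hn₀' : |n₀' - c * m₀'| ≤ 1) (hn₁' : |n₁' - c * m₁'| ≤ 1) :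
    |(n₀' - n₀) + E₀ * (n₁' - n₁)| ≤ 4 * L + 5 * L * K := by
  have hcK : c * (K / c) = K := by field_simp
  have hL0 : 0 ≤ L := by linarith
  have sc : ∀ x : ℝ, |x| ≤ K / c → |c * x| ≤ K := by
    intro x hx
    rw [abs_mul, abs_of_pos hc, ← hcK]
    exact mul_le_mul_of_nonneg_left hx hc.le
  have e : (n₀' - n₀) + E₀ * (n₁' - n₁) = (n₀' - c * m₀') - (n₀ - c * m₀) +
      (E₀ * (n₁' - c * m₁') - E₀ * (n₁ - c * m₁)) + (c * (V' - V) - c * (V' - (m₀' + E' * m₁')) +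
      c * (V - (m₀ + E * m₁))) + (c * (E₀ - E') * m₁' - c * (E₀ - E) * m₁) := by ring
  have t1 : |E₀ * (n₁' - c * m₁')| ≤ L * 1 := m2_le hE₀ hn₁'
  have t2 : |E₀ * (n₁ - c * m₁)| ≤ L * 1 := m2_le hE₀ hn₁
  have t3 := sc _ hVV
  have t4 := sc _ hV'
  have t5 := sc _ hV
  have t6 : |c * (E₀ - E') * m₁'| ≤ K * L := m2_le (sc _ dE') hm₁'
  have t7 : |c * (E₀ - E) * m₁| ≤ K * L := m2_le (sc _ dE) hm₁
  have s1 := abs_add_le ((n₀' - c * m₀') - (n₀ - c * m₀) +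
      (E₀ * (n₁' - c * m₁') - E₀ * (n₁ - c * m₁)) + (c * (V' - V) - c * (V' - (m₀' + E' * m₁')) +
      c * (V - (m₀ + E * m₁)))) (c * (E₀ - E') * m₁' - c * (E₀ - E) * m₁)
  have s2 := abs_add_le ((n₀' - c * m₀') - (n₀ - c * m₀) +
      (E₀ * (n₁' - c * m₁') - E₀ * (n₁ - c * m₁))) (c * (V' - V) -
      c * (V' - (m₀' + E' * m₁')) + c * (V - (m₀ + E * m₁)))
  have s3 := abs_add_le ((n₀' - c * m₀') - (n₀ - c * m₀))
      (E₀ * (n₁' - c * m₁') - E₀ * (n₁ - c * m₁))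
  have s4 := abs_sub (n₀' - c * m₀') (n₀ - c * m₀)
  have s5 := abs_sub (E₀ * (n₁' - c * m₁')) (E₀ * (n₁ - c * m₁))
  have s6 := abs_add_le (c * (V' - V) - c * (V' - (m₀' + E' * m₁'))) (c * (V - (m₀ + E * m₁)))
  have s7 := abs_sub (c * (V' - V)) (c * (V' - (m₀' + E' * m₁')))
  have s8 := abs_sub (c * (E₀ - E') * m₁') (c * (E₀ - E) * m₁)
  have q : K ≤ L * K := by nlinarith
  rw [e]
  linarith

/-- The relation. -/
theorem rel_le {c L K B T T₀ t t' nt nt' : ℝ} {A A₀ m m' n n' : Fin 2 → ℝ} (hc : 0 < c)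
    (hL : 1 ≤ L) (hK : 0 ≤ K) (hA₀ : ∀ i, |A₀ i| ≤ L) (hT₀ : |T₀| ≤ L)
    (ht : |t| ≤ B) (ht' : |t'| ≤ B) (dA : ∀ i, |A₀ i - A i| ≤ K / c) (dT : |T₀ - T| ≤ K / c)
    (hm : ∀ i, |m i| ≤ L) (hm' : ∀ i, |m' i| ≤ L)
    (hr : |2 * (t' - t) * T + ∑ i, A i * (m' i - m i)| ≤ K / c)
    (hn : ∀ i, |n i - c * m i| ≤ 1) (hn' : ∀ i, |n' i - c * m' i| ≤ 1)
    (hnt : |nt - c * t| ≤ 1) (hnt' : |nt' - c * t'| ≤ 1) :
    |2 * (nt' - nt) * T₀ + ∑ i, A₀ i * (n' i - n i)| ≤ 8 * L + 5 * L * K + 4 * B * K := by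
  have hcK : c * (K / c) = K := by field_simp
  have hL0 : 0 ≤ L := by linarith
  have sc : ∀ x : ℝ, |x| ≤ K / c → |c * x| ≤ K := by
    intro x hx
    rw [abs_mul, abs_of_pos hc, ← hcK]
    exact mul_le_mul_of_nonneg_left hx hc.le
  rw [Fin.sum_univ_two] at hr ⊢
  have e : 2 * (nt' - nt) * T₀ + (A₀ 0 * (n' 0 - n 0) + A₀ 1 * (n' 1 - n 1)) =
      c * (2 * (t' - t) * T + (A 0 * (m' 0 - m 0) + A 1 * (m' 1 - m 1))) +
      2 * ((t' - t) * (c * (T₀ - T))) +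
      (2 * ((nt' - c * t') * T₀) - 2 * ((nt - c * t) * T₀)) +
      ((c * (A₀ 0 - A 0)) * (m' 0 - m 0) + (c * (A₀ 1 - A 1)) * (m' 1 - m 1)) +
      ((A₀ 0 * (n' 0 - c * m' 0) - A₀ 0 * (n 0 - c * m 0)) +
      (A₀ 1 * (n' 1 - c * m' 1) - A₀ 1 * (n 1 - c * m 1))) := by ring
  have t1 := sc _ hr
  have t2 : |(t' - t) * (c * (T₀ - T))| ≤ (B + B) * K :=
    m2_le ((abs_sub _ _).trans (add_le_add ht' ht)) (sc _ dT)
  have t3 : |(nt' - c * t') * T₀| ≤ 1 * L := m2_le hnt' hT₀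
  have t4 : |(nt - c * t) * T₀| ≤ 1 * L := m2_le hnt hT₀
  have t5 : ∀ i, |(c * (A₀ i - A i)) * (m' i - m i)| ≤ K * (L + L) := fun i =>
    m2_le (sc _ (dA i)) ((abs_sub _ _).trans (add_le_add (hm' i) (hm i)))
  have t6 : ∀ i, |A₀ i * (n' i - c * m' i)| ≤ L * 1 := fun i => m2_le (hA₀ i) (hn' i)
  have t7 : ∀ i, |A₀ i * (n i - c * m i)| ≤ L * 1 := fun i => m2_le (hA₀ i) (hn i)
  have t50 := t5 0
  have t51 := t5 1
  have t60 := t6 0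
  have t61 := t6 1
  have t70 := t7 0
  have t71 := t7 1
  have s1 := abs_add_le (c * (2 * (t' - t) * T + (A 0 * (m' 0 - m 0) + A 1 * (m' 1 - m 1))) +
      2 * ((t' - t) * (c * (T₀ - T))) +
      (2 * ((nt' - c * t') * T₀) - 2 * ((nt - c * t) * T₀)) +
      ((c * (A₀ 0 - A 0)) * (m' 0 - m 0) + (c * (A₀ 1 - A 1)) * (m' 1 - m 1)))
      ((A₀ 0 * (n' 0 - c * m' 0) - A₀ 0 * (n 0 - c * m 0)) +
      (A₀ 1 * (n' 1 - c * m' 1) - A₀ 1 * (n 1 - c * m 1)))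
  have s2 := abs_add_le (c * (2 * (t' - t) * T + (A 0 * (m' 0 - m 0) + A 1 * (m' 1 - m 1))) +
      2 * ((t' - t) * (c * (T₀ - T))) +
      (2 * ((nt' - c * t') * T₀) - 2 * ((nt - c * t) * T₀)))
      ((c * (A₀ 0 - A 0)) * (m' 0 - m 0) + (c * (A₀ 1 - A 1)) * (m' 1 - m 1))
  have s3 := abs_add_le (c * (2 * (t' - t) * T + (A 0 * (m' 0 - m 0) + A 1 * (m' 1 - m 1))) +
      2 * ((t' - t) * (c * (T₀ - T))))
      (2 * ((nt' - c * t') * T₀) - 2 * ((nt - c * t) * T₀))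
  have s4 := abs_add_le (c * (2 * (t' - t) * T + (A 0 * (m' 0 - m 0) + A 1 * (m' 1 - m 1))))
      (2 * ((t' - t) * (c * (T₀ - T))))
  have s5 := abs_sub (2 * ((nt' - c * t') * T₀)) (2 * ((nt - c * t) * T₀))
  have s6 := abs_add_le ((c * (A₀ 0 - A 0)) * (m' 0 - m 0)) ((c * (A₀ 1 - A 1)) * (m' 1 - m 1))
  have s7 := abs_add_le (A₀ 0 * (n' 0 - c * m' 0) - A₀ 0 * (n 0 - c * m 0))
      (A₀ 1 * (n' 1 - c * m' 1) - A₀ 1 * (n 1 - c * m 1))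
  have s8 := abs_sub (A₀ 0 * (n' 0 - c * m' 0)) (A₀ 0 * (n 0 - c * m 0))
  have s9 := abs_sub (A₀ 1 * (n' 1 - c * m' 1)) (A₀ 1 * (n 1 - c * m 1))
  have u2 : ∀ x : ℝ, |2 * x| = 2 * |x| := fun x => by rw [abs_mul, abs_of_pos (by norm_num)]
  rw [u2] at s4 s5
  rw [u2] at s5
  have q : K ≤ L * K := by nlinarith
  rw [e]
  linarith

/-! ### The conversion -/

/-- The cells of the positions. -/
noncomputable def cP (s : ℕ) (t y : Ω → ℝ) (ω : Ω) (j : Fin 2) : ℤ :=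
  if j = 0 then ⌊2 ^ s * t ω⌋ else ⌊2 ^ s * y ω⌋

/-- The cells of the slopes. -/
noncomputable def cU (s : ℕ) (M : Ω → Fin 2 → Fin 2 → ℝ) (ω : Ω) (i j : Fin 2) : ℤ :=
  ⌊2 ^ s * M ω i j⌋

/-- The real number of the own line. -/
def bR (E t y T : Ω → ℝ) (A V : Ω → Fin 2 → ℝ) (ω : Ω) : ℝ :=
  ∑ i, A ω i * V ω i + T ω * (y ω - E ω * t ω)

/-- The vector of `T`. -/
def Tv (T E : ℝ) (j : Fin 2) : ℝ := if j = 0 then -(T * E) else T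

variable {p : Ω → ℝ} {S : Ω → σ} {z : Ω → ζ} {z' : Ω → ζ'} {e : Ω → ε} {E t y T : Ω → ℝ}
  {A V : Ω → Fin 2 → ℝ} {M : Ω → Fin 2 → Fin 2 → ℝ} {s : ℕ} {B L K : ℝ}

omit [Fintype Ω] in
theorem cU_flr (ω : Ω) (i j : Fin 2) : |((cU s M ω i j : ℤ) : ℝ) - 2 ^ s * M ω i j| ≤ 1 :=
  flr1 _

omit [Fintype Ω] in
theorem cP_flr0 (ω : Ω) : |((cP s t y ω 0 : ℤ) : ℝ) - 2 ^ s * t ω| ≤ 1 := flr1 _

omit [Fintype Ω] in
theorem cP_flr1 (ω : Ω) : |((cP s t y ω 1 : ℤ) : ℝ) - 2 ^ s * y ω| ≤ 1 := flr1 _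

/-- **From real data to `PrD`.** -/
theorem PrR.prd (R : PrR p S z z' e E t y T A V M s B L K) {Aa k K₀ : ℕ} {cE eF eH eP : ℝ}
    (hB0 : 0 ≤ B) (hB : B + 1 ≤ Aa) (hK₀ : 1 ≤ K₀) (hcE : 0 ≤ cE)
    (few : CH p (fun ω => ⌊2 ^ s * bR E t y T A V ω⌋) (fun ω => (e ω, z ω)) ≤ eH)
    (free : CH p e z ≤ CH p e z' + eF)
    (fullP : 2 * (s * Real.log 2) - eP ≤ CH p (cP s t y) z)
    (fullT : s * Real.log 2 - eP ≤ CH p (fun ω => cP s t y ω 0) S)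
    (rate : NoCov p (fun ω => ⌊2 ^ k * rfv p z e E (z ω) (e ω)⌋) z' K₀ cE) :
    PrD p S z z' e (rfv p z e E) (rfv p z e A) (fun a x => Tv (rfv p z e T a x) (rfv p z e E a x))
      (fun ω => ⌊2 ^ s * bR E t y T A V ω⌋) (fun ω => ⌊2 ^ k * rfv p z e E (z ω) (e ω)⌋)
      (cP s t y) (cU s M) Aa s k K₀ (2 * L ^ 2) (16 * L ^ 2 * (K + 1) * (B + 1)) cE eF eH eP := by
  have hL := R.hL
  have hK := R.hK
  have hL0 : 0 ≤ L := by linarith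
  have hLL : L ≤ L ^ 2 := by nlinarith
  have h1L : 1 ≤ L ^ 2 := one_le_pow₀ hL
  have hc : (0 : ℝ) < 2 ^ s := by positivity
  have hc1 : (1 : ℝ) ≤ 2 ^ s := one_le_pow₀ (by norm_num)
  have hKB : 0 ≤ K * B := mul_nonneg hK hB0
  -- the reference sample
  have hrf : ∀ ω, 0 < p ω → ∃ ω₀, 0 < p ω₀ ∧ z ω₀ = z ω ∧ e ω₀ = e ω ∧
      rfv p z e E (z ω) (e ω) = E ω₀ ∧ rfv p z e A (z ω) (e ω) = A ω₀ ∧
      rfv p z e T (z ω) (e ω) = T ω₀ := by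
    intro ω hω
    obtain ⟨ω₀, h1, h2, h3, h4⟩ := rfv_spec (z := z) (e := e) hω (R := ℝ)
    obtain ⟨ω₁, g1, g2, g3, g4⟩ := rfv_spec (z := z) (e := e) hω (R := Fin 2 → ℝ)
    classical
    have h : ∃ ω', 0 < p ω' ∧ z ω' = z ω ∧ e ω' = e ω := ⟨ω, hω, rfl, rfl⟩
    refine ⟨h.choose, h.choose_spec.1, h.choose_spec.2.1, h.choose_spec.2.2, ?_, ?_, ?_⟩
    all_goals
      unfold rfv
      rw [dif_pos h]
  have hE0 : ∀ ω, 0 < p ω → |rfv p z e E (z ω) (e ω)| ≤ L := by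
    intro ω hω
    obtain ⟨ω₀, h1, -, -, h4, -, -⟩ := hrf ω hω
    rw [h4]
    exact R.bE _ h1
  have hA0 : ∀ ω, 0 < p ω → ∀ i, |rfv p z e A (z ω) (e ω) i| ≤ L := by
    intro ω hω i
    obtain ⟨ω₀, h1, -, -, -, h4, -⟩ := hrf ω hω
    rw [h4]
    exact R.bA _ h1 i
  have hT0 : ∀ ω, 0 < p ω → |rfv p z e T (z ω) (e ω)| ≤ L := by
    intro ω hω
    obtain ⟨ω₀, h1, -, -, -, -, h4⟩ := hrf ω hω
    rw [h4]
    exact R.bT _ h1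
  have dE : ∀ ω, 0 < p ω → |rfv p z e E (z ω) (e ω) - E ω| ≤ K / 2 ^ s := by
    intro ω hω
    obtain ⟨ω₀, h1, h2, h3, h4, -, -⟩ := hrf ω hω
    rw [h4]
    exact R.nE _ _ h1 hω h2 h3
  have dA : ∀ ω, 0 < p ω → ∀ i, |rfv p z e A (z ω) (e ω) i - A ω i| ≤ K / 2 ^ s := by
    intro ω hω i
    obtain ⟨ω₀, h1, h2, h3, -, h4, -⟩ := hrf ω hω
    rw [h4]
    exact R.nA _ _ h1 hω h2 h3 i
  have dT : ∀ ω, 0 < p ω → |rfv p z e T (z ω) (e ω) - T ω| ≤ K / 2 ^ s := by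
    intro ω hω
    obtain ⟨ω₀, h1, h2, h3, -, -, h4⟩ := hrf ω hω
    rw [h4]
    exact R.nT _ _ h1 hω h2 h3
  -- two samples of one line
  have hse : ∀ ω ω', 0 < p ω → 0 < p ω' → S ω = S ω' → z ω = z ω' ∧ e ω = e ω' :=
    fun ω ω' h h' hS => ⟨R.dS ω ω' h h' hS, R.de ω ω' h h' hS⟩
  have dE' : ∀ ω ω', 0 < p ω → 0 < p ω' → S ω = S ω' →
      |rfv p z e E (z ω) (e ω) - E ω'| ≤ K / 2 ^ s := by
    intro ω ω' h h' hS
    obtain ⟨h1, h2⟩ := hse ω ω' h h' hS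
    rw [h1, h2]
    exact dE ω' h'
  have hvel : ∀ ω ω', 0 < p ω → 0 < p ω' → S ω = S ω' → ∀ i,
      |(((cU s M ω' i 0 : ℤ) : ℝ) - ((cU s M ω i 0 : ℤ) : ℝ)) + rfv p z e E (z ω) (e ω) *
        (((cU s M ω' i 1 : ℤ) : ℝ) - ((cU s M ω i 1 : ℤ) : ℝ))| ≤ 4 * L + 5 * L * K :=
    fun ω ω' h h' hS i => vel_le hc hL hK (hE0 ω h) (R.bM ω h i 1) (R.bM ω' h' i 1) (dE ω h)
      (dE' ω ω' h h' hS) (R.vV ω h i) (R.vV ω' h' i) (R.lin ω ω' h h' hS i) (cU_flr _ _ _)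
      (cU_flr _ _ _) (cU_flr _ _ _) (cU_flr _ _ _)
  have hrel : ∀ ω ω', 0 < p ω → 0 < p ω' → S ω = S ω' →
      |2 * (((cP s t y ω' 0 : ℤ) : ℝ) - ((cP s t y ω 0 : ℤ) : ℝ)) * rfv p z e T (z ω) (e ω) +
        ∑ i, rfv p z e A (z ω) (e ω) i *
          (((cU s M ω' i 1 : ℤ) : ℝ) - ((cU s M ω i 1 : ℤ) : ℝ))| ≤
        8 * L + 5 * L * K + 4 * B * K :=
    fun ω ω' h h' hS => rel_le hc hL hK (hA0 ω h) (hT0 ω h) (R.bt ω h).1 (R.bt ω' h').1 (dA ω h)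
      (dT ω h) (fun i => R.bM ω h i 1) (fun i => R.bM ω' h' i 1) (R.rel ω ω' h h' hS)
      (fun i => cU_flr _ _ _) (fun i => cU_flr _ _ _) (cP_flr0 _) (cP_flr0 _)
  have q1 : L * (K * B) ≤ L ^ 2 * (K * B) := mul_le_mul_of_nonneg_right hLL hKB
  have q2 : 1 * (K * B) ≤ L ^ 2 * (K * B) := mul_le_mul_of_nonneg_right h1L hKB
  have q3 : L * K ≤ L ^ 2 * K := mul_le_mul_of_nonneg_right hLL hK
  have q4 : 0 ≤ L ^ 2 * B := by positivity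
  have q5 : 0 ≤ L ^ 2 * K := by positivity
  refine
    { isLaw := R.isLaw
      dz := R.dz
      dS := R.dS
      dP := ?_
      dU := ?_
      de := R.de
      hA := ?_
      hL := by linarith
      hK := by positivity
      hK₀ := hK₀
      hcE := hcE
      bP := ?_
      bU := ?_
      bE := fun ω hω => (hE0 ω hω).trans (by linarith)
      bA := fun ω hω i => (hA0 ω hω i).trans (by linarith)
      bT := ?_
      cell := ?_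
      num := ?_
      few := few
      free := free
      fullP := fullP
      fullT := fullT
      rate := rate
      mov := ?_
      vel := ?_
      rel := ?_ }
  · intro ω ω' h h' hz
    have h1 := R.dt ω ω' h h' hz
    funext j
    unfold cP
    have h2 := congrArg Prod.fst h1
    have h3 := congrArg Prod.snd h1
    dsimp only at h2 h3
    rw [h2, h3]
  · intro ω ω' h h' hz
    have h1 := R.dM ω ω' h h' hz
    funext i j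
    unfold cU
    rw [h1]
  · have : (1 : ℝ) ≤ Aa := by linarith
    exact_mod_cast this
  · intro ω hω j
    have h1 : ∀ x : ℝ, |x| ≤ B → |⌊2 ^ s * x⌋| ≤ ((Aa * 2 ^ s : ℕ) : ℤ) := by
      intro x hx
      have h2 := flr1 (2 ^ s * x)
      have h3 : |((⌊2 ^ s * x⌋ : ℤ) : ℝ)| ≤ 1 + 2 ^ s * B := by
        have h4 : |2 ^ s * x| ≤ 2 ^ s * B := by
          rw [abs_mul, abs_of_pos hc]
          exact mul_le_mul_of_nonneg_left hx hc.le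
        have h5 := abs_add_le (((⌊2 ^ s * x⌋ : ℤ) : ℝ) - 2 ^ s * x) (2 ^ s * x)
        rw [sub_add_cancel] at h5
        linarith
      have h6 : |((⌊2 ^ s * x⌋ : ℤ) : ℝ)| ≤ ((Aa * 2 ^ s : ℕ) : ℝ) := by
        push_cast
        nlinarith
      exact_mod_cast h6
    unfold cP
    split_ifs
    · exact h1 _ (R.bt ω hω).1
    · exact h1 _ (R.bt ω hω).2
  · intro ω hω i j
    have h2 := cU_flr (s := s) (M := M) ω i j
    have h4 : |2 ^ s * M ω i j| ≤ 2 ^ s * L := by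
      rw [abs_mul, abs_of_pos hc]
      exact mul_le_mul_of_nonneg_left (R.bM ω hω i j) hc.le
    have h5 := abs_add_le (((cU s M ω i j : ℤ) : ℝ) - 2 ^ s * M ω i j) (2 ^ s * M ω i j)
    rw [sub_add_cancel] at h5
    nlinarith
  · intro ω hω j
    unfold Tv
    have h1 := hT0 ω hω
    split_ifs
    · rw [abs_neg]
      have := m2_le h1 (hE0 ω hω)
      nlinarith
    · linarith
  · intro ω hω
    rw [abs_sub_comm]
    exact flr1 _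
  · intro ω hω
    have h1 := num_le hc hL hK hB0 (R.bA ω hω) (hA0 ω hω) (hE0 ω hω) (R.bT ω hω) (hT0 ω hω)
      (R.bt ω hω).1 (R.bt ω hω).2 (dA ω hω) (dE ω hω) (dT ω hω) (R.vV ω hω)
      (fun i => R.bM ω hω i 0) (fun i => R.bM ω hω i 1)
      (fun i => cU_flr (s := s) (M := M) ω i 0) (fun i => cU_flr (s := s) (M := M) ω i 1)
      (cP_flr0 (s := s) (t := t) (y := y) ω) (cP_flr1 (s := s) (t := t) (y := y) ω)
      (flr1 (2 ^ s * (∑ i, A ω i * V ω i + T ω * (y ω - E ω * t ω))))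
    rw [Fin.sum_univ_two (f := fun j => Tv (rfv p z e T (z ω) (e ω)) (rfv p z e E (z ω) (e ω)) j *
      ((cP s t y ω j : ℤ) : ℝ))]
    exact h1
  · intro ω ω' h h' hS
    exact mov_le hc hL hK hB0 (hE0 ω h) (R.bt ω h).1 (R.bt ω' h').1 (dE ω h)
      (R.mov ω ω' h h' hS) (cP_flr0 _) (cP_flr0 _) (cP_flr1 _) (cP_flr1 _)
  · intro ω ω' h h' hS i
    refine (hvel ω ω' h h' hS i).trans ?_
    nlinarith
  · intro ω ω' h h' hS j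
    have hr := hrel ω ω' h h' hS
    have hv0 := hvel ω ω' h h' hS 0
    have hv1 := hvel ω ω' h h' hS 1
    have hA00 := hA0 ω h 0
    have hA01 := hA0 ω h 1
    have hE00 := hE0 ω h
    unfold Tv
    split_ifs with hj
    · rw [hj]
      rw [Fin.sum_univ_two] at hr ⊢
      have e1 : 2 * (((cP s t y ω' 0 : ℤ) : ℝ) - ((cP s t y ω 0 : ℤ) : ℝ)) *
            -(rfv p z e T (z ω) (e ω) * rfv p z e E (z ω) (e ω)) +
          (rfv p z e A (z ω) (e ω) 0 * (((cU s M ω' 0 0 : ℤ) : ℝ) - ((cU s M ω 0 0 : ℤ) : ℝ)) +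
          rfv p z e A (z ω) (e ω) 1 * (((cU s M ω' 1 0 : ℤ) : ℝ) - ((cU s M ω 1 0 : ℤ) : ℝ))) =
          -(rfv p z e E (z ω) (e ω) *
            (2 * (((cP s t y ω' 0 : ℤ) : ℝ) - ((cP s t y ω 0 : ℤ) : ℝ)) *
              rfv p z e T (z ω) (e ω) +
            (rfv p z e A (z ω) (e ω) 0 * (((cU s M ω' 0 1 : ℤ) : ℝ) - ((cU s M ω 0 1 : ℤ) : ℝ)) +
            rfv p z e A (z ω) (e ω) 1 *
              (((cU s M ω' 1 1 : ℤ) : ℝ) - ((cU s M ω 1 1 : ℤ) : ℝ))))) +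
          rfv p z e A (z ω) (e ω) 0 * ((((cU s M ω' 0 0 : ℤ) : ℝ) - ((cU s M ω 0 0 : ℤ) : ℝ)) +
            rfv p z e E (z ω) (e ω) * (((cU s M ω' 0 1 : ℤ) : ℝ) - ((cU s M ω 0 1 : ℤ) : ℝ))) +
          rfv p z e A (z ω) (e ω) 1 * ((((cU s M ω' 1 0 : ℤ) : ℝ) - ((cU s M ω 1 0 : ℤ) : ℝ)) +
            rfv p z e E (z ω) (e ω) * (((cU s M ω' 1 1 : ℤ) : ℝ) - ((cU s M ω 1 1 : ℤ) : ℝ))) := by
        ring
      have t1 := m2_le hE00 hr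
      have t2 := m2_le hA00 hv0
      have t3 := m2_le hA01 hv1
      rw [e1]
      refine (abs_add_le _ _).trans ?_
      refine (add_le_add (abs_add_le _ _) le_rfl).trans ?_
      rw [abs_neg]
      refine (add_le_add (add_le_add t1 t2) t3).trans ?_
      nlinarith
    · have hj1 : j = 1 := by
        fin_cases j
        · exact absurd rfl hj
        · rfl
      rw [hj1]
      refine hr.trans ?_
      nlinarith

end Pool.D2N
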