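import Pool.Agent.H90.D2.Nrr

/-!
# D2: the label theorem of a frame, for classes

`Cl`: the labels with the coefficients `μ`, `κ` of two samples are close. `lab_cls`: two independent
samples of one line and window are not close, for every frame and every visible coefficients.
`cl_of`: the algebraic criterion.
-/

set_option autoImplicit false

namespace Pool.D2F

open Finset Real MvPolynomial
open Pool.Agent.H49.Ent Pool.Agent.H32.Dense Pool.STK Pool.KA Pool.KSAT Pool.K2S Pool.PB Pool.S6C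
open Pool.GEN Pool.CHT Pool.CHX
open Pool.LBT (ThrOf)
open Pool.KM7 (P2)
open Pool.VIS24 (VPol Nr)

variable {m J : ℕ}

/-- **The labels of two samples are close.** -/
def Cl (F : Fam m J) (c : ℕ → Fin m) (g : ℕ → ℕ) (a i k s : ℕ)
    (ψ : PtT F → ℕ → Option (Fin m) → ℝ) (μ : PtT F → ℕ → ℝ) (κ : PtT F → ℕ → ℕ → ℝ)
    (ω ω' : F.Ω) : Prop :=
  ∀ η : ℕ → ℝ, (∀ j ≤ i, |η j| ≤ 2 ^ (k + 1)) →
    |tu F a ω ω' * Xn F c g a ψ ω (i + 1) + qv i (μ (ptr F J ω')) (κ (ptr F J ω'))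
      (fun j => η j - tu F a ω ω' * Xn F c g a ψ ω j) -
      qv i (μ (ptr F J ω)) (κ (ptr F J ω)) η| ≤ 1 / 2 ^ (s + 1)

/-! ### The criterion -/

/-- The bilinear form. -/
noncomputable def bl (i : ℕ) (κ : ℕ → ℕ → ℝ) (η ζ : ℕ → ℝ) : ℝ :=
  ∑ j ∈ range (i + 1), ∑ k ∈ range (i + 1), κ j k * (η j * ζ k)

/-- The linear form. -/
noncomputable def ln (i : ℕ) (μ η : ℕ → ℝ) : ℝ := ∑ j ∈ range (i + 1), μ j * η j

theorem qv_eq (i : ℕ) (μ : ℕ → ℝ) (κ : ℕ → ℕ → ℝ) (η : ℕ → ℝ) :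
    qv i μ κ η = ln i μ η + 1 / 2 * bl i κ η η := rfl

theorem ln_sub (i : ℕ) (μ η ζ : ℕ → ℝ) (t : ℝ) :
    ln i μ (fun j => η j - t * ζ j) = ln i μ η - t * ln i μ ζ := by
  unfold ln
  rw [Finset.mul_sum, ← Finset.sum_sub_distrib]
  exact Finset.sum_congr rfl fun j _ => by ring

theorem bl_sub (i : ℕ) (κ : ℕ → ℕ → ℝ) (η ζ : ℕ → ℝ) (t : ℝ) :
    bl i κ (fun j => η j - t * ζ j) (fun j => η j - t * ζ j) =
      bl i κ η η - t * (bl i κ η ζ + bl i κ ζ η) + t ^ 2 * bl i κ ζ ζ := by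
  unfold bl
  rw [← Finset.sum_add_distrib, Finset.mul_sum, Finset.mul_sum, ← Finset.sum_sub_distrib,
    ← Finset.sum_add_distrib]
  refine Finset.sum_congr rfl fun j _ => ?_
  rw [← Finset.sum_add_distrib, Finset.mul_sum, Finset.mul_sum, ← Finset.sum_sub_distrib,
    ← Finset.sum_add_distrib]
  exact Finset.sum_congr rfl fun k _ => by ring

theorem bl_row (i : ℕ) (κ : ℕ → ℕ → ℝ) (η ζ : ℕ → ℝ) :
    bl i κ η ζ = ∑ j ∈ range (i + 1), (∑ k ∈ range (i + 1), κ j k * ζ k) * η j := by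
  unfold bl
  refine Finset.sum_congr rfl fun j _ => ?_
  rw [Finset.sum_mul]
  exact Finset.sum_congr rfl fun k _ => by ring

theorem bl_swap {i : ℕ} {κ : ℕ → ℕ → ℝ} (h : ∀ j ≤ i, ∀ k ≤ i, κ j k = κ k j) (η ζ : ℕ → ℝ) :
    bl i κ ζ η = bl i κ η ζ := by
  unfold bl
  rw [Finset.sum_comm]
  refine Finset.sum_congr rfl fun j hj => Finset.sum_congr rfl fun k hk => ?_
  rw [h k (Nat.lt_succ_iff.1 (Finset.mem_range.1 hk)) j
    (Nat.lt_succ_iff.1 (Finset.mem_range.1 hj))]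
  ring

theorem bl_le {i : ℕ} {κ : ℕ → ℕ → ℝ} {η : ℕ → ℝ} {M R : ℝ} (hM : 0 ≤ M) (hR : 0 ≤ R)
    (hκ : ∀ j ≤ i, ∀ k ≤ i, |κ j k| ≤ M) (hη : ∀ j ≤ i, |η j| ≤ R) :
    |bl i κ η η| ≤ ((i : ℝ) + 1) ^ 2 * (M * R ^ 2) := by
  unfold bl
  refine (Finset.abs_sum_le_sum_abs _ _).trans ?_
  have h1 : ∀ j ∈ range (i + 1), |∑ k ∈ range (i + 1), κ j k * (η j * η k)| ≤
      ((i : ℝ) + 1) * (M * R ^ 2) := by
    intro j hj
    have hj' := Nat.lt_succ_iff.1 (Finset.mem_range.1 hj)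
    refine (Finset.abs_sum_le_sum_abs _ _).trans ?_
    have h2 : ∀ k ∈ range (i + 1), |κ j k * (η j * η k)| ≤ M * R ^ 2 := by
      intro k hk
      have hk' := Nat.lt_succ_iff.1 (Finset.mem_range.1 hk)
      rw [abs_mul, abs_mul, sq]
      exact mul_le_mul (hκ j hj' k hk') (mul_le_mul (hη j hj') (hη k hk') (abs_nonneg _) hR)
        (by positivity) hM
    refine (Finset.sum_le_sum h2).trans (le_of_eq ?_)
    rw [Finset.sum_const, Finset.card_range, nsmul_eq_mul]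
    push_cast
    ring
  refine (Finset.sum_le_sum h1).trans (le_of_eq ?_)
  rw [Finset.sum_const, Finset.card_range, nsmul_eq_mul]
  push_cast
  ring

/-- **The criterion**, for real numbers. -/
theorem cl_alg {i : ℕ} {μ μ' : ℕ → ℝ} {κ κ' : ℕ → ℕ → ℝ} {η Y : ℕ → ℝ} {τ R ε : ℝ} (hR : 1 ≤ R)
    (hε : 0 ≤ ε) (hτ : |τ| ≤ 1) (hη : ∀ j ≤ i, |η j| ≤ R) (hY : ∀ j ≤ i, |Y j| ≤ R)
    (hs : ∀ j ≤ i, ∀ l ≤ i, κ j l = κ l j)
    (h1 : ∀ j ≤ i, |μ' j - μ j - τ * ∑ l ∈ range (i + 1), κ j l * Y l| ≤ ε)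
    (h2 : |Y (i + 1) - ln i μ' Y| ≤ ε) (h3 : ∀ j ≤ i, ∀ l ≤ i, |κ' j l - κ j l| ≤ ε)
    (h4 : |bl i κ Y Y| ≤ ε) :
    |τ * Y (i + 1) + qv i μ' κ' (fun j => η j - τ * Y j) - qv i μ κ η| ≤
      5 * ((i : ℝ) + 1) ^ 2 * R ^ 2 * ε := by
  have hi0 : (0 : ℝ) ≤ i := Nat.cast_nonneg i
  obtain ⟨d, hd⟩ : ∃ d : ℕ → ℕ → ℝ, d = fun j l => κ' j l - κ j l := ⟨_, rfl⟩
  have e0 : ∀ ζ : ℕ → ℝ, bl i κ' ζ ζ = bl i κ ζ ζ + bl i d ζ ζ := by
    intro ζ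
    unfold bl
    rw [← Finset.sum_add_distrib]
    refine Finset.sum_congr rfl fun j _ => ?_
    rw [← Finset.sum_add_distrib]
    refine Finset.sum_congr rfl fun k _ => ?_
    rw [hd]
    ring
  obtain ⟨f, hf⟩ : ∃ f : ℕ → ℝ, f = fun j => μ' j - μ j - τ * ∑ l ∈ range (i + 1), κ j l * Y l :=
    ⟨_, rfl⟩
  have e1 : ln i f η = ln i μ' η - ln i μ η - τ * bl i κ η Y := by
    rw [bl_row]
    unfold ln
    rw [Finset.mul_sum, ← Finset.sum_sub_distrib, ← Finset.sum_sub_distrib]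
    refine Finset.sum_congr rfl fun j _ => ?_
    rw [hf]
    ring
  have e2 : τ * Y (i + 1) + qv i μ' κ' (fun j => η j - τ * Y j) - qv i μ κ η =
      ln i f η + τ * (Y (i + 1) - ln i μ' Y) + 1 / 2 * bl i d (fun j => η j - τ * Y j)
        (fun j => η j - τ * Y j) + 1 / 2 * (τ ^ 2 * bl i κ Y Y) := by
    rw [qv_eq, qv_eq, e0, ln_sub, bl_sub i κ, e1, bl_swap hs η Y]
    ring
  rw [e2]
  have b1 : |ln i f η| ≤ ((i : ℝ) + 1) * (ε * R) := by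
    unfold ln
    refine (Finset.abs_sum_le_sum_abs _ _).trans ?_
    have h5 : ∀ j ∈ range (i + 1), |f j * η j| ≤ ε * R := by
      intro j hj
      have hj' := Nat.lt_succ_iff.1 (Finset.mem_range.1 hj)
      rw [abs_mul]
      refine mul_le_mul ?_ (hη j hj') (abs_nonneg _) hε
      rw [hf]
      exact h1 j hj'
    refine (Finset.sum_le_sum h5).trans (le_of_eq ?_)
    rw [Finset.sum_const, Finset.card_range, nsmul_eq_mul]
    push_cast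
    ring
  have b2 : |τ * (Y (i + 1) - ln i μ' Y)| ≤ ε := by
    rw [abs_mul]
    calc |τ| * |Y (i + 1) - ln i μ' Y| ≤ 1 * ε := mul_le_mul hτ h2 (abs_nonneg _) zero_le_one
      _ = ε := one_mul ε
  have b3 : |bl i d (fun j => η j - τ * Y j) (fun j => η j - τ * Y j)| ≤
      ((i : ℝ) + 1) ^ 2 * (ε * (2 * R) ^ 2) := by
    refine bl_le hε (by linarith) (fun j hj l hl => by rw [hd]; exact h3 j hj l hl)
      fun j hj => ?_
    refine (abs_sub _ _).trans ?_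
    rw [abs_mul]
    have h5 : |τ| * |Y j| ≤ 1 * R := mul_le_mul hτ (hY j hj) (abs_nonneg _) zero_le_one
    have := hη j hj
    linarith
  have b4 : |1 / 2 * (τ ^ 2 * bl i κ Y Y)| ≤ 1 / 2 * ε := by
    rw [abs_mul, abs_mul, abs_of_pos (by norm_num : (0 : ℝ) < 1 / 2), abs_pow]
    refine mul_le_mul_of_nonneg_left ?_ (by norm_num)
    have h5 : |τ| ^ 2 ≤ 1 := pow_le_one₀ (abs_nonneg _) hτ
    calc |τ| ^ 2 * |bl i κ Y Y| ≤ 1 * ε := mul_le_mul h5 h4 (abs_nonneg _) zero_le_one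
      _ = ε := one_mul ε
  have b5 : |1 / 2 * bl i d (fun j => η j - τ * Y j) (fun j => η j - τ * Y j)| ≤
      1 / 2 * (((i : ℝ) + 1) ^ 2 * (ε * (2 * R) ^ 2)) := by
    rw [abs_mul, abs_of_pos (by norm_num : (0 : ℝ) < 1 / 2)]
    exact mul_le_mul_of_nonneg_left b3 (by norm_num)
  have hA : (1 : ℝ) ≤ ((i : ℝ) + 1) ^ 2 * R ^ 2 := by
    have h5 : (1 : ℝ) ≤ ((i : ℝ) + 1) ^ 2 := by nlinarith
    have h6 : (1 : ℝ) ≤ R ^ 2 := by nlinarith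
    nlinarith
  have hB : ((i : ℝ) + 1) * R ≤ ((i : ℝ) + 1) ^ 2 * R ^ 2 := by
    have h5 : (1 : ℝ) ≤ ((i : ℝ) + 1) * R := by nlinarith
    nlinarith
  refine (abs_add_le _ _).trans ((add_le_add ((abs_add_le _ _).trans (add_le_add
    ((abs_add_le _ _).trans (add_le_add b1 b2)) b5)) b4).trans ?_)
  have h7 : ((i : ℝ) + 1) * (ε * R) ≤ ((i : ℝ) + 1) ^ 2 * R ^ 2 * ε := by
    calc ((i : ℝ) + 1) * (ε * R) = ((i : ℝ) + 1) * R * ε := by ring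
      _ ≤ _ := mul_le_mul_of_nonneg_right hB hε
  have h8 : ε ≤ ((i : ℝ) + 1) ^ 2 * R ^ 2 * ε := by
    calc ε = 1 * ε := (one_mul ε).symm
      _ ≤ _ := mul_le_mul_of_nonneg_right hA hε
  have h9 : 1 / 2 * (((i : ℝ) + 1) ^ 2 * (ε * (2 * R) ^ 2)) =
      2 * (((i : ℝ) + 1) ^ 2 * R ^ 2 * ε) := by ring
  rw [h9]
  nlinarith

/-- **The criterion**: when the labels are close. -/
theorem cl_of {F : Fam m J} {c : ℕ → Fin m} {g : ℕ → ℕ} {a i k s : ℕ}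
    {ψ : PtT F → ℕ → Option (Fin m) → ℝ} {μ : PtT F → ℕ → ℝ} {κ : PtT F → ℕ → ℕ → ℝ}
    {ω ω' : F.Ω} {ε : ℝ} (hε : 0 ≤ ε) (hτ : |tu F a ω ω'| ≤ 1)
    (hY : ∀ j ≤ i, |Xn F c g a ψ ω j| ≤ 2 ^ k)
    (hs : ∀ j ≤ i, ∀ l ≤ i, κ (ptr F J ω) j l = κ (ptr F J ω) l j)
    (h1 : ∀ j ≤ i, |μ (ptr F J ω') j - μ (ptr F J ω) j -
      tu F a ω ω' * ∑ l ∈ range (i + 1), κ (ptr F J ω) j l * Xn F c g a ψ ω l| ≤ ε)
    (h2 : |Xn F c g a ψ ω (i + 1) - ln i (μ (ptr F J ω')) (Xn F c g a ψ ω)| ≤ ε)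
    (h3 : ∀ j ≤ i, ∀ l ≤ i, |κ (ptr F J ω') j l - κ (ptr F J ω) j l| ≤ ε)
    (h4 : |bl i (κ (ptr F J ω)) (Xn F c g a ψ ω) (Xn F c g a ψ ω)| ≤ ε)
    (hn : ε * 2 ^ (2 * (i + 1) + 2 * k + 6 + s) ≤ 1) : Cl F c g a i k s ψ μ κ ω ω' := by
  intro η hη
  have hk : (2 : ℝ) ^ k ≤ 2 ^ (k + 1) := pow_le_pow_right₀ (by norm_num) (Nat.le_succ k)
  have h5 := cl_alg (R := 2 ^ (k + 1)) (one_le_pow₀ (by norm_num)) hε hτ hη
    (fun j hj => (hY j hj).trans hk) hs h1 h2 h3 h4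
  refine h5.trans ?_
  have hi2 : ((i : ℝ) + 1) ≤ 2 ^ (i + 1) := by
    have h1 : ((i + 1 : ℕ) : ℝ) ≤ ((2 ^ (i + 1) : ℕ) : ℝ) := by
      exact_mod_cast (Nat.lt_two_pow_self (n := i + 1)).le
    push_cast at h1
    exact h1
  have h6 : ((i : ℝ) + 1) ^ 2 ≤ (2 ^ (i + 1)) ^ 2 := pow_le_pow_left₀ (by positivity) hi2 2
  have h7 : 5 * ((i : ℝ) + 1) ^ 2 * (2 ^ (k + 1)) ^ 2 * ε ≤
      8 * (2 ^ (i + 1)) ^ 2 * (2 ^ (k + 1)) ^ 2 * ε := by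
    refine mul_le_mul_of_nonneg_right (mul_le_mul_of_nonneg_right ?_ (by positivity)) hε
    have : (0 : ℝ) ≤ (2 ^ (i + 1)) ^ 2 := by positivity
    linarith
  refine h7.trans ?_
  have h8 : 8 * ((2 : ℝ) ^ (i + 1)) ^ 2 * (2 ^ (k + 1)) ^ 2 * ε =
      ε * 2 ^ (2 * (i + 1) + 2 * k + 6 + s) / 2 ^ (s + 1) := by
    rw [← pow_mul, ← pow_mul, show 2 * (i + 1) + 2 * k + 6 + s =
      ((i + 1) * 2 + ((k + 1) * 2 + 3)) + (s + 1) by ring, pow_add 2 _ (s + 1), pow_add, pow_add]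
    field_simp
    ring
  rw [h8]
  exact div_le_div_of_nonneg_right hn (by positivity)

/-! ### The class theorem -/

/-- **Visible labels of a frame are not closed**: the labels of two independent samples of one line
and window are not close, with probability near one. -/
theorem lab_cls {θ : ℝ} {S : PCl m} {P : List (Fin m) × Fin m → ℝ → ℝ → ℝ}
    (hP : ThrOf (chsys m θ) S P) (c : ℕ → Fin m) (i : ℕ) (hc : Set.InjOn c (Set.Iio (i + 1)))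
    (a : ℚ) (e h : ℝ) (ha0 : 0 ≤ a) (ha : a ≤ 1) (he : e < θ * a) (hh : 0 < h)
    (h1 : bet P c i a a + h ≤ 1) :
    ∃ δ : ℝ, 0 < δ ∧ Bas S (fun J F A => ∀ (n a₀ e₀ e' k s V p : ℕ) (g : ℕ → ℕ)
      (ψ : PtT F → ℕ → Option (Fin m) → ℝ) (ψH : LnT F → ℕ → Option (Fin m) → ℝ)
      (μ : PtT F → ℕ → ℝ) (κ : PtT F → ℕ → ℕ → ℝ), i < n → a₀ ≤ J → a₀ ≤ ⌊(a : ℝ) * J⌋₊ →
      e₀ + e' + 2 * k + s + 2 * (i + 1) + 4 ≤ ⌊e * J⌋₊ →
      s + e' + k + 3 * (i + 1) + 6 ≤ V → (∀ j ≤ i, e₀ + g j + V ≤ J) →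
      (∀ l < i, k + 1 ≤ g l) → p ≤ g i + s → p ≤ J →
      ⌊(bet P c i a a + h) * J⌋₊ + a₀ ≤ p + ⌊(a : ℝ) * J⌋₊ → ∀ B : F.Ω → Prop, Sub B A →
      FrOK F c n a₀ k e₀ g B ψ ψH → (∀ ω, B ω → ∀ j ≤ i, |μ (ptr F J ω) j| ≤ 2 ^ e') →
      (∀ ω, B ω → ∀ j ≤ i, ∀ l ≤ i, |κ (ptr F J ω) j l| ≤ 2 ^ e') →
      ∀ (q : F.Ω → ℝ) (M : ℝ), IsLaw q → 0 ≤ M → (∀ ω, 0 < q ω → B ω) →
      (∀ ω, q ω * Pe F.p A ≤ M * F.p ω) →
      Pe (P2 q (slam F a₀)) (fun x => Cl F c g a₀ i k s ψ μ κ x.1 x.2) ≤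
        M * Real.exp (-(δ * J))) := by
  classical
  obtain ⟨δ, hδ, τ, hτ, J₁, hv⟩ := Pool.VIS24.vis_cls hP c i 2 a a e h ha0 le_rfl ha he hh h1
  refine ⟨δ, hδ, τ, hτ, J₁, ?_⟩
  intro J hJ F A hA n a₀ e₀ e' k s V p g ψ ψH μ κ hin haJ haa hee hV hJg hgk hpg hpJ hbet B hBA hfr
    hμ hκ q M hq hM hqB hqM
  have hc' : Set.InjOn c (Set.Iio i) := hc.mono (Set.Iio_subset_Iio (Nat.le_succ i))
  have hfr' : FrOK F c i a₀ k e₀ g B ψ ψH := ⟨hfr.cls, hfr.dep, hfr.depH,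
    fun ω hω l hl => hfr.nat ω hω l (hl.trans hin), fun ω hω x hx l hl =>
      hfr.lip ω hω x (hx.trans hin) l hl⟩
  have hiV : i ≤ 2 ^ V := by
    have h2 : i < 2 ^ i := Nat.lt_two_pow_self
    exact h2.le.trans (Nat.pow_le_pow_right (by norm_num) (by omega))
  have hch := aff_ch (V := V) hc' hfr' hiV (fun j hj => hJg j hj.le) hgk
  have hch' := hch.mono le_rfl (fun _ => le_rfl) le_rfl (e' := e₀ + e' + 2 * k + s + 2 * (i + 1) + 4)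
    (by omega)
  have hok := lab_ok (μ := μ) (κ := κ) (V := V) (s := s) (p := p) (e' := e') hc hin hfr hμ hκ
    (by omega) hJg hgk hpg
  have h2 := hv J hJ F A hA a₀ a₀ (e₀ + e' + 2 * k + s + 2 * (i + 1) + 4) p (fun _ => 1)
    (fun j => g j - (k + 1)) (GA c ψ) (HA c ψH) (LA c g a₀ i ψ μ κ) le_rfl haa haa hee
    (fun _ => by norm_num) (fun l hl => by
      have := hJg l hl.le
      omega) hpJ hbet B hBA hch' hok q M hq hM hqB hqM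
  refine le_trans ?_ h2
  have hP2 := Pool.KM7.P2_isLaw hq (slam F a₀)
  rw [Pool.JVE.pe_sum, Pool.JVE.pe_sum]
  refine Finset.sum_le_sum fun x _ => ?_
  rcases (hP2.nonneg x).eq_or_lt with h0 | h0
  · rw [← h0]
    simp
  · obtain ⟨x1, x2, x3⟩ := (Pool.KM7.P2_pos hq x).mp h0
    by_cases h4 : Cl F c g a₀ i k s ψ μ κ x.1 x.2
    · rw [if_pos h4, if_pos]
      exact lab_nr hc hin hfr hμ hκ haJ hV hJg hgk hpg (hqB _ x1) (hqB _ x2) x3 h4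
    · rw [if_neg h4]
      split_ifs
      exacts [h0.le, le_rfl]

end Pool.D2F
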