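import Pool.Agent.H46.F5.Un
import Pool.Agent.H60.D2.Rnd
import Pool.Agent.H64.F5.End

/-!
# The slopes of the deep frame in the natural coordinates of a frame

`eta_mix`: change of the natural coordinates. `Ms`: the slopes of the coordinates `c 1`, `c 2` over
`(t, c 0)` in the natural coordinates of a frame `ψ`, read from a deep frame `ψ'`. `vdat_mix`: they
are visible data.
-/

set_option autoImplicit false

namespace Pool.D2N

open Finset Real MvPolynomial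
open Pool.Agent.H49.Ent Pool.Agent.H32.Dense Pool.STK Pool.KA Pool.KSAT Pool.K2S Pool.PB Pool.S6C
open Pool.GEN Pool.CHT Pool.CHX
open Pool.D2F Pool.D2Z
open Pool.HP46 (unr eta_unr eta_inj)
open Pool.F5 (VDat)

variable {m J : ℕ}

theorem eta_sum (c : ℕ → Fin m) (g : ℕ → ℕ) (a : ℕ) (ψ : ℕ → Option (Fin m) → ℝ)
    (s : Finset ℕ) (r : ℕ → ℝ) (W : ℕ → Option (Fin m) → ℝ) (j : ℕ) :
    eta c g a ψ (∑ i ∈ s, r i • W i) j = ∑ i ∈ s, r i * eta c g a ψ (W i) j := by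
  classical
  induction s using Finset.induction_on with
  | empty =>
    have h := eta_smul c g a ψ (0 : Option (Fin m) → ℝ) 0 j
    rw [zero_smul, zero_mul] at h
    rw [Finset.sum_empty, Finset.sum_empty]
    exact h
  | insert i s hi ih =>
    rw [Finset.sum_insert hi, Finset.sum_insert hi, eta_add, eta_smul, ih]

/-- **Change of the natural coordinates.** -/
theorem eta_mix {c : ℕ → Fin m} {n : ℕ} (hc : Set.InjOn c (Set.Iio n)) (g : ℕ → ℕ) (a : ℕ)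
    {ψ χ : ℕ → Option (Fin m) → ℝ} (hψ : ∀ l, CvC c l (ψ l)) (hχ : ∀ l, CvC c l (χ l))
    (V : Option (Fin m) → ℝ) {j : ℕ} (hj : j ≤ n) :
    eta c g a ψ V j =
      ∑ i ∈ range (n + 1), eta c g a χ V i * eta c g a ψ (unr c g a χ (HP46.bs i) n) j := by
  have h1 : ∀ j ≤ n, eta c g a χ V j = eta c g a χ
      (∑ i ∈ range (n + 1), eta c g a χ V i • unr c g a χ (HP46.bs i) n) j := by
    intro j hj
    rw [eta_sum, Finset.sum_eq_single j]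
    · rw [eta_unr (c := c) g a χ (HP46.bs j) hc hχ hj]
      unfold HP46.bs
      rw [if_pos rfl, mul_one]
    · intro i hi hij
      rw [eta_unr (c := c) g a χ (HP46.bs i) hc hχ hj]
      unfold HP46.bs
      rw [if_neg (Ne.symm hij), mul_zero]
    · intro h
      exact absurd (Finset.mem_range.mpr (by omega)) h
  obtain ⟨h2, h3⟩ := eta_inj (c := c) (g := g) (a := a) (χ := χ) (i := n) hχ h1
  rw [eta_congr (c := c) g a (i := n) (fun l _ => hψ l) h2 h3 hj, eta_sum]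

/-- The mixed frame: the first covector from `ψ`, the others from `ψ'`. -/
def mx (ψ ψ' : ℕ → Option (Fin m) → ℝ) (l : ℕ) : Option (Fin m) → ℝ := if l = 0 then ψ 0 else ψ' l

/-- **The slopes** of `c (i + 1)` over `(t, c 0)` in the natural coordinates of `ψ`. -/
noncomputable def Ms (c : ℕ → Fin m) (g : ℕ → ℕ) (a : ℕ) (ψ ψ' : ℕ → Option (Fin m) → ℝ)
    (i : ℕ) (j : Fin 2) : ℝ := eta c g a ψ (unr c g a (mx ψ ψ') (HP46.bs j.1) 3) (i + 2)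

theorem mx_dep {c : ℕ → Fin m} {ψ ψ' : ℕ → Option (Fin m) → ℝ} (h : ∀ l, CvC c l (ψ l))
    (h' : ∀ l, CvC c l (ψ' l)) (l : ℕ) : CvC c l (mx ψ ψ' l) := by
  unfold mx
  split_ifs with h0
  · rw [h0]
    exact h 0
  · exact h' l

/-- The size of the dual vectors. -/
theorem dual_le {c : ℕ → Fin m} (hc : Set.InjOn c (Set.Iio 3)) {g : ℕ → ℕ} {a : ℕ}
    {ψ χ : ℕ → Option (Fin m) → ℝ} (hχ : ∀ l, CvC c l (χ l))
    {K : ℝ} (hK : 0 ≤ K) (hN : Nc c g a 3 K ψ χ) {i j : ℕ} (hi : i ≤ 3) (hj : j ≤ 3) :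
    |eta c g a ψ (unr c g a χ (HP46.bs i) 3) j| ≤ (1 + K) ^ 3 := by
  have h1 : |eta c g a ψ (unr c g a χ (HP46.bs i) 3) j| ≤ en c g a ψ 3 (unr c g a χ (HP46.bs i) 3) := by
    unfold en
    exact Finset.single_le_sum (f := fun j => |eta c g a ψ (unr c g a χ (HP46.bs i) 3) j|)
      (fun _ _ => abs_nonneg _) (Finset.mem_range.mpr (by omega))
  have h2 := hN.en_ge hK le_rfl (unr c g a χ (HP46.bs i) 3)
  have h3 : en c g a χ 3 (unr c g a χ (HP46.bs i) 3) = 1 := by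
    unfold en
    rw [Finset.sum_eq_single i]
    · rw [eta_unr (c := c) g a χ (HP46.bs i) hc hχ hi]
      unfold HP46.bs
      rw [if_pos rfl, abs_one]
    · intro j' hj' hne
      rw [eta_unr (c := c) g a χ (HP46.bs i) hc hχ (by
        have := Finset.mem_range.mp hj'
        omega)]
      unfold HP46.bs
      rw [if_neg hne, abs_zero]
    · intro h
      exact absurd (Finset.mem_range.mpr (by omega)) h
  rw [h3, mul_one] at h2
  exact h1.trans h2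

theorem nc_mx {c : ℕ → Fin m} {g : ℕ → ℕ} {a n : ℕ} {K : ℝ} {ψ ψ' : ℕ → Option (Fin m) → ℝ}
    (hK : 0 ≤ K) (h : Nc c g a n K ψ ψ') : Nc c g a n K ψ (mx ψ ψ') := by
  intro l hl V
  unfold mx
  split_ifs with h0
  · rw [h0, sub_self]
    have h1 : cv (0 : Option (Fin m) → ℝ) V = 0 := by
      unfold cv
      exact Finset.sum_eq_zero fun o _ => by rw [Pi.zero_apply, zero_mul]
    rw [h1, abs_zero]
    exact mul_nonneg (by positivity) (en_nonneg _ _ _ _ _ _)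
  · exact h l hl V

/-- The own velocity in the mixed frame. -/
theorem mix_small {F : Fam m J} {c : ℕ → Fin m} {a n' a' k' e' : ℕ} {g g' : ℕ → ℕ}
    {B : F.Ω → Prop} {ψ ψ' : PtT F → ℕ → Option (Fin m) → ℝ}
    {ψH' : LnT F → ℕ → Option (Fin m) → ℝ}
    (h' : FrOK F c n' a' k' e' g' B ψ' ψH') (hn' : 3 ≤ n') {δ : ℝ}
    (hδ : ∀ i, 1 ≤ i → i ≤ 2 → 2 ^ g i * (1 / 2 ^ a * (2 ^ (a' + k') / 2 ^ g' i)) ≤ δ) {ω : F.Ω}
    (hω : B ω) {i : ℕ} (hi1 : 1 ≤ i) (hi2 : i ≤ 2) :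
    |eta c g a (mx (ψ (ptr F J ω)) (ψ' (ptr F J ω))) ((1 / 2 ^ a : ℝ) • bd F ω) (i + 1)| ≤ δ := by
  rw [eta_smul]
  show |1 / 2 ^ a * (2 ^ g i * (bd F ω (some (c i)) -
    cv (mx (ψ (ptr F J ω)) (ψ' (ptr F J ω)) i) (bd F ω)))| ≤ δ
  have h0 : mx (ψ (ptr F J ω)) (ψ' (ptr F J ω)) i = ψ' (ptr F J ω) i := by
    unfold mx
    rw [if_neg (by omega)]
  rw [h0, abs_mul, abs_mul, abs_of_pos (by positivity), abs_of_pos (by positivity)]
  refine le_trans ?_ (hδ i hi1 hi2)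
  have h1 := h'.nat ω hω i (by omega)
  rw [mul_left_comm]
  exact mul_le_mul_of_nonneg_left (mul_le_mul_of_nonneg_left h1 (by positivity)) (by positivity)

/-- **The own velocities of the rough coordinates.** -/
theorem ms_own {F : Fam m J} {c : ℕ → Fin m} {n a k e n' a' k' e' : ℕ} {g g' : ℕ → ℕ}
    {B : F.Ω → Prop} {ψ ψ' : PtT F → ℕ → Option (Fin m) → ℝ}
    {ψH ψH' : LnT F → ℕ → Option (Fin m) → ℝ} (hc : Set.InjOn c (Set.Iio 3))
    (h : FrOK F c n a k e g B ψ ψH)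
    (h' : FrOK F c n' a' k' e' g' B ψ' ψH') (hn' : 3 ≤ n') {δ K : ℝ} (hK : 0 ≤ K)
    (hδ : ∀ i, 1 ≤ i → i ≤ 2 → 2 ^ g i * (1 / 2 ^ a * (2 ^ (a' + k') / 2 ^ g' i)) ≤ δ) {ω : F.Ω}
    (hω : B ω) (hN : Nc c g a 3 K (ψ (ptr F J ω)) (ψ' (ptr F J ω))) {i : ℕ} (hi : i ≤ 1) :
    |Xn F c g a ψ ω (i + 2) - (Ms c g a (ψ (ptr F J ω)) (ψ' (ptr F J ω)) i 0 +
      Ms c g a (ψ (ptr F J ω)) (ψ' (ptr F J ω)) i 1 * Xn F c g a ψ ω 1)| ≤
      2 * (δ * (1 + K) ^ 3) := by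
  have hχ := mx_dep (ψ := ψ (ptr F J ω)) (ψ' := ψ' (ptr F J ω)) (h.dep _) (h'.dep _)
  have hN' := nc_mx hK hN
  have e1 := eta_mix hc g a (h.dep (ptr F J ω)) hχ ((1 / 2 ^ a : ℝ) • bd F ω)
    (j := i + 2) (by omega)
  rw [Finset.sum_range_succ, Finset.sum_range_succ, Finset.sum_range_succ,
    Finset.sum_range_one] at e1
  have x0 : eta c g a (mx (ψ (ptr F J ω)) (ψ' (ptr F J ω))) ((1 / 2 ^ a : ℝ) • bd F ω) 0 = 1 :=
    Xn_zero F c g a ψ ω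
  have x1 : eta c g a (mx (ψ (ptr F J ω)) (ψ' (ptr F J ω))) ((1 / 2 ^ a : ℝ) • bd F ω) 1 =
      Xn F c g a ψ ω 1 := rfl
  have s2 := mix_small (ψ := ψ) h' hn' hδ hω (i := 1) le_rfl (by norm_num)
  have s3 := mix_small (ψ := ψ) h' hn' hδ hω (i := 2) (by norm_num) le_rfl
  have d2 := dual_le hc hχ hK hN' (i := 2) (j := i + 2) (by norm_num) (by omega)
  have d3 := dual_le hc hχ hK hN' (i := 3) (j := i + 2) (by norm_num) (by omega)
  have t2 := mul_le_mul s2 d2 (abs_nonneg _) ((abs_nonneg _).trans s2)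
  have t3 := mul_le_mul s3 d3 (abs_nonneg _) ((abs_nonneg _).trans s3)
  rw [← abs_mul] at t2 t3
  rw [x0, x1, one_mul] at e1
  have e2 : Xn F c g a ψ ω (i + 2) - (Ms c g a (ψ (ptr F J ω)) (ψ' (ptr F J ω)) i 0 +
      Ms c g a (ψ (ptr F J ω)) (ψ' (ptr F J ω)) i 1 * Xn F c g a ψ ω 1) =
      eta c g a (mx (ψ (ptr F J ω)) (ψ' (ptr F J ω))) ((1 / 2 ^ a : ℝ) • bd F ω) (1 + 1) *
        eta c g a (ψ (ptr F J ω))
          (unr c g a (mx (ψ (ptr F J ω)) (ψ' (ptr F J ω))) (HP46.bs 2) 3) (i + 2) +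
      eta c g a (mx (ψ (ptr F J ω)) (ψ' (ptr F J ω))) ((1 / 2 ^ a : ℝ) • bd F ω) (2 + 1) *
        eta c g a (ψ (ptr F J ω))
          (unr c g a (mx (ψ (ptr F J ω)) (ψ' (ptr F J ω))) (HP46.bs 3) 3) (i + 2) := by
    have e3 : Xn F c g a ψ ω (i + 2) =
      eta c g a (ψ (ptr F J ω)) ((1 / 2 ^ a : ℝ) • bd F ω) (i + 2) := rfl
    rw [e3, e1]
    unfold Ms
    have f0 : ((0 : Fin 2) : ℕ) = 0 := rfl
    have f1 : ((1 : Fin 2) : ℕ) = 1 := rfl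
    rw [f0, f1]
    ring
  rw [e2]
  refine (abs_add_le _ _).trans ?_
  linarith

/-- The slopes are bounded. -/
theorem ms_le {F : Fam m J} {c : ℕ → Fin m} {n a k e n' a' k' e' : ℕ} {g g' : ℕ → ℕ}
    {B : F.Ω → Prop} {ψ ψ' : PtT F → ℕ → Option (Fin m) → ℝ}
    {ψH ψH' : LnT F → ℕ → Option (Fin m) → ℝ} (hc : Set.InjOn c (Set.Iio 3))
    (h : FrOK F c n a k e g B ψ ψH) (h' : FrOK F c n' a' k' e' g' B ψ' ψH') {K : ℝ} (hK : 0 ≤ K)
    {ω : F.Ω} (hN : Nc c g a 3 K (ψ (ptr F J ω)) (ψ' (ptr F J ω))) {i : ℕ} (hi : i ≤ 1)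
    (j : Fin 2) : |Ms c g a (ψ (ptr F J ω)) (ψ' (ptr F J ω)) i j| ≤ (1 + K) ^ 3 :=
  dual_le hc (mx_dep (h.dep _) (h'.dep _)) hK (nc_mx hK hN) (by omega) (by omega)

/-- **The visible data** from two frames. -/
theorem vdat_mix {F : Fam m J} {c : ℕ → Fin m} {n a k e n' a' k' e' : ℕ} {g g' : ℕ → ℕ}
    {B : F.Ω → Prop} {ψ ψ' : PtT F → ℕ → Option (Fin m) → ℝ}
    {ψH ψH' : LnT F → ℕ → Option (Fin m) → ℝ} (hc : Set.InjOn c (Set.Iio 3))
    (h : FrOK F c n a k e g B ψ ψH)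
    (h' : FrOK F c n' a' k' e' g' B ψ' ψH') (hn' : 3 ≤ n') {δ K : ℝ} (hK : 0 ≤ K)
    (hδ : ∀ i, 1 ≤ i → i ≤ 2 → 2 ^ g i * (1 / 2 ^ a * (2 ^ (a' + k') / 2 ^ g' i)) ≤ δ)
    (hN : ∀ ω, B ω → Nc c g a 3 K (ψ (ptr F J ω)) (ψ' (ptr F J ω)))
    {al : PtT F → Fin 2 → ℝ} {Ka μ : ℝ} (hal : ∀ ω, B ω → ∀ j, |al (ptr F J ω) j| ≤ Ka)
    (lal : ∀ ω, B ω → μ ≤ |al (ptr F J ω) 0| ∨ μ ≤ |al (ptr F J ω) 1|) :
    VDat F c g a ψ B (fun y => Ms c g a (ψ y) (ψ' y) 0) (fun y => Ms c g a (ψ y) (ψ' y) 1) al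
      (2 * (δ * (1 + K) ^ 3)) ((1 + K) ^ 3) Ka μ where
  ownv := fun ω hω => ms_own hc h h' hn' hK hδ hω (hN ω hω) (i := 0) (by norm_num)
  ownu := fun ω hω => ms_own hc h h' hn' hK hδ hω (hN ω hω) (i := 1) le_rfl
  bv := fun ω hω j => ms_le hc h h' hK (hN ω hω) (by norm_num) j
  bu := fun ω hω j => ms_le hc h h' hK (hN ω hω) le_rfl j
  bal := hal
  lal := lal

end Pool.D2N
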