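import Pool.Agent.H28.D2.Inst
import Pool.Agent.H60.D2.Box
import Pool.Agent.H31.D2.Drp
import Pool.Agent.H90.D2.Mix
import Pool.Agent.H90.D2.Ins

/-!
# The real data of the hop cell

The context of `H28/D2/Inst` (`fdat`), target `c 3`, `c 0` = `V0`, `c 1`, `c 2` = the two rough
functions. `Ac`, `Tc`: the coefficients of the label of the target along the own line, in natural
units. `rel_own`: the relation of two samples of one line.
-/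

set_option autoImplicit false

namespace Pool.D2N

open Finset Real MvPolynomial
open Pool.Agent.H49.Ent Pool.Agent.H32.Dense Pool.STK Pool.KA Pool.KSAT Pool.K2S Pool.PB Pool.S6C
open Pool.GEN Pool.CHT Pool.CHX Pool.LA91
open Pool.D2F Pool.D2Z Pool.D2F2
open Pool.D2R (dd hs co)
open Pool.OWN68 (opl tw uw mid dirv natDegree_opl opl_jet uw_abs)
open Pool.HP46 (unr eta_unr eta_inj)
open Pool.F5 (VDat)

variable {m J : ℕ}

/-- **The second derivative in frame components.** -/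
theorem hs_fv {c : ℕ → Fin m} {r : ℕ} (hc : Set.InjOn c (Set.Iio r)) (g : ℕ → ℕ) (W : ℕ)
    {ψ : ℕ → Option (Fin m) → ℝ} (hψ : ∀ l, CvC c l (ψ l)) {Q : MvPolynomial (Option (Fin m)) ℝ}
    (hQ : DepC c r Q) (x Z : Option (Fin m) → ℝ) {V : Option (Fin m) → ℝ} (h0 : V none = 0) :
    hs Q x Z V = ∑ l ∈ range r, hs Q x Z (fv c g W r ψ l) * (V (some (c l)) - cv (ψ l) V) := by
  obtain ⟨φ, hφ⟩ : ∃ φ : Option (Fin m) → ℝ, φ = fun o => dd (pderiv o Q) x Z := ⟨_, rfl⟩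
  have hcv : ∀ V, hs Q x Z V = cv φ V := by
    intro V
    rw [hφ]
    rfl
  have hd : CvC c r φ := by
    intro k hk
    rw [hφ]
    show ∑ o, eval x (pderiv o (pderiv (some k) Q)) * Z o = 0
    refine Finset.sum_eq_zero fun o _ => ?_
    rw [Pool.D2R.pd_comm]
    rw [Pool.D2R.pd_zero (Pool.D2R.depC_pderiv hQ o) (fun l hl h => hk l hl h.symm) x, zero_mul]
  simp only [hcv]
  rw [cv_nc hc g W hψ hd, Finset.sum_range_succ']
  have e0 : eta c g W ψ V 0 = 0 := by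
    simp only [eta]
    rw [h0, mul_zero]
  rw [e0, mul_zero, add_zero]
  refine Finset.sum_congr rfl fun l _ => ?_
  rw [cv_fv]
  simp only [eta]
  ring

variable {F : Fam m J} {c : ℕ → Fin m} {g : ℕ → ℕ} {W n r D : ℕ}
  {ψH : LnT F → ℕ → Option (Fin m) → ℝ} {Ht : LnT F → MvPolynomial (Option (Fin m)) ℝ}
  {hD : ∀ s, (Ht s).totalDegree ≤ D} {SV SE SG : ℕ → ℝ}

/-- **The derivative of the gradient along the own line.** -/
theorem fdat_gd (hW : W ≤ J) (l : ℕ) (ω : F.Ω) :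
    ((fdat F c g W n r D ψH Ht hD SV SE SG).gp l (slam F W ω)).derivative.eval (uw F W ω) =
      1 / 2 ^ (W + 1) * hs (Ht (co n (slam F W ω))) (bt F ω) (bd F ω)
        (fv c g W r (ψH (slam F W ω)) l) := by
  have h := opl_jet F hW (gpo c g W r (ψH (slam F W ω)) (Ht (co n (slam F W ω))) l) ω 1
  rw [Function.iterate_one, pow_one, jet_one] at h
  refine h.trans ?_
  congr 1
  unfold gpo hs dd
  simp only [map_sum, pderiv_C_mul, Finset.mul_sum, Finset.sum_mul, map_mul, eval_C]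
  rw [Finset.sum_comm]
  refine Finset.sum_congr rfl fun o _ => Finset.sum_congr rfl fun o' _ => ?_
  ring

/-! ### The relation of one sample -/

/-- The derivative as a sum. -/
theorem der_sum {P : Polynomial ℝ} {D : ℕ} (h : P.natDegree ≤ D) (u : ℝ) :
    P.derivative.eval u = ∑ j ∈ range (D + 1), P.coeff j * j * u ^ (j - 1) := by
  rw [Polynomial.derivative_eval, Polynomial.sum_over_range' P (fun n => by simp) (D + 1)
    (Nat.lt_succ_of_le h)]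

/-- The derivative, up to the coefficients of order at least `k`. -/
theorem der_cut {P : Polynomial ℝ} {D k : ℕ} (h : P.natDegree ≤ D) {u δ : ℝ} (hu : |u| ≤ 1)
    (hδ : 0 ≤ δ) (hk : k ≤ D + 1) (hc : ∀ j, k ≤ j → |P.coeff j| ≤ δ) :
    |P.derivative.eval u - ∑ j ∈ range k, P.coeff j * j * u ^ (j - 1)| ≤ (D + 1) ^ 2 * δ := by
  rw [der_sum h, ← Finset.sum_range_add_sum_Ico _ hk, add_sub_cancel_left]
  refine (Finset.abs_sum_le_sum_abs _ _).trans ?_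
  have h1 : ∀ j ∈ Ico k (D + 1), |P.coeff j * j * u ^ (j - 1)| ≤ (D + 1) * δ := by
    intro j hj
    obtain ⟨h2, h3⟩ := Finset.mem_Ico.mp hj
    rw [abs_mul, abs_mul, abs_pow, Nat.abs_cast]
    have h4 : |u| ^ (j - 1) ≤ 1 := pow_le_one₀ (abs_nonneg _) hu
    have h5 : (j : ℝ) ≤ D + 1 := by
      have : j ≤ D + 1 := by omega
      exact_mod_cast this
    have h6 : |P.coeff j| * (j : ℝ) ≤ δ * (D + 1) :=
      mul_le_mul (hc j h2) h5 (Nat.cast_nonneg _) hδ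
    have h7 : |P.coeff j| * (j : ℝ) * |u| ^ (j - 1) ≤ δ * (D + 1) * 1 :=
      mul_le_mul h6 h4 (by positivity) (by positivity)
    linarith
  refine (Finset.sum_le_sum h1).trans ?_
  rw [Finset.sum_const, nsmul_eq_mul, Nat.card_Ico]
  have h8 : ((D + 1 - k : ℕ) : ℝ) ≤ D + 1 := by
    have : D + 1 - k ≤ D + 1 := Nat.sub_le _ _
    exact_mod_cast this
  have h9 : 0 ≤ ((D : ℝ) + 1) * δ := by positivity
  nlinarith

/-- The coefficient of the label in the direction of a rough function, natural units. -/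
noncomputable def Ac (g : ℕ → ℕ) (G : ℕ → Polynomial ℝ) (i : Fin 2) : ℝ :=
  2 ^ g 3 / 2 ^ g (i.1 + 1) * (2 * (G (i.1 + 1)).coeff 1)

/-- The second coefficient of the label in the direction of `c 0`, natural units. -/
noncomputable def Tc (g : ℕ → ℕ) (G : ℕ → Polynomial ℝ) : ℝ :=
  2 ^ g 3 / 2 ^ g 0 * (4 * (G 0).coeff 2)

/-- The first coefficient in the direction of `c 0`. -/
noncomputable def Yc (g : ℕ → ℕ) (G : ℕ → Polynomial ℝ) : ℝ :=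
  2 ^ g 3 / 2 ^ g 0 * (2 * (G 0).coeff 1)

/-- **The relation of one sample**, pure. `h l` = the derivatives at the own time. -/
theorem rel_pure {g : ℕ → ℕ} {G : ℕ → Polynomial ℝ} {D : ℕ} (hD : 2 ≤ D)
    (hG : ∀ l, (G l).natDegree ≤ D) {u δ δ' Lm : ℝ} {M : Fin 2 → ℝ} (hu : |u| ≤ 1) (hδ' : 0 ≤ δ')
    (hM : ∀ i, |M i| ≤ Lm)
    (h0 : ∀ j, 3 ≤ j → |2 ^ g 3 / 2 ^ g 0 * (G 0).coeff j| ≤ δ')
    (h1 : ∀ i : Fin 2, ∀ j, 2 ≤ j → |2 ^ g 3 / 2 ^ g (i.1 + 1) * (G (i.1 + 1)).coeff j| ≤ δ')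
    (hnul : |2 * (2 ^ g 3 / 2 ^ g 0) * (G 0).derivative.eval u +
      ∑ i : Fin 2, 2 * (2 ^ g 3 / 2 ^ g (i.1 + 1)) * (G (i.1 + 1)).derivative.eval u * M i| ≤ δ) :
    |Yc g G + Tc g G * u + ∑ i, Ac g G i * M i| ≤ δ + 2 * (D + 1) ^ 2 * δ' * (1 + 2 * Lm) := by
  have c0 : |2 ^ g 3 / 2 ^ g 0 * (G 0).derivative.eval u -
      (2 ^ g 3 / 2 ^ g 0 * (G 0).coeff 1 + 2 ^ g 3 / 2 ^ g 0 * (G 0).coeff 2 * 2 * u)| ≤
      (D + 1) ^ 2 * δ' := by
    have h2 := der_cut (P := Polynomial.C ((2 : ℝ) ^ g 3 / 2 ^ g 0) * G 0) (D := D) (k := 3)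
      ((Polynomial.natDegree_C_mul_le _ _).trans (hG 0)) hu hδ' (by omega) (fun j hj => by
        rw [Polynomial.coeff_C_mul]
        exact h0 j hj)
    rw [Polynomial.derivative_C_mul, Polynomial.eval_C_mul] at h2
    simp only [Polynomial.coeff_C_mul, Finset.sum_range_succ, Finset.sum_range_zero] at h2
    refine le_trans (le_of_eq ?_) h2
    congr 1
    push_cast
    ring
  have c1 : ∀ i : Fin 2, |2 ^ g 3 / 2 ^ g (i.1 + 1) * (G (i.1 + 1)).derivative.eval u -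
      2 ^ g 3 / 2 ^ g (i.1 + 1) * (G (i.1 + 1)).coeff 1| ≤ (D + 1) ^ 2 * δ' := by
    intro i
    have h2 := der_cut (P := Polynomial.C ((2 : ℝ) ^ g 3 / 2 ^ g (i.1 + 1)) * G (i.1 + 1)) (D := D)
      (k := 2) ((Polynomial.natDegree_C_mul_le _ _).trans (hG _)) hu hδ' (by omega) (fun j hj => by
        rw [Polynomial.coeff_C_mul]
        exact h1 i j hj)
    rw [Polynomial.derivative_C_mul, Polynomial.eval_C_mul] at h2
    simp only [Polynomial.coeff_C_mul, Finset.sum_range_succ, Finset.sum_range_zero] at h2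
    refine le_trans (le_of_eq ?_) h2
    congr 1
    push_cast
    ring
  have e : Yc g G + Tc g G * u + ∑ i, Ac g G i * M i =
      (2 * (2 ^ g 3 / 2 ^ g 0) * (G 0).derivative.eval u +
        ∑ i : Fin 2, 2 * (2 ^ g 3 / 2 ^ g (i.1 + 1)) * (G (i.1 + 1)).derivative.eval u * M i) -
      2 * (2 ^ g 3 / 2 ^ g 0 * (G 0).derivative.eval u -
        (2 ^ g 3 / 2 ^ g 0 * (G 0).coeff 1 + 2 ^ g 3 / 2 ^ g 0 * (G 0).coeff 2 * 2 * u)) -
      (2 * (2 ^ g 3 / 2 ^ g ((0 : Fin 2).1 + 1) * (G ((0 : Fin 2).1 + 1)).derivative.eval u -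
        2 ^ g 3 / 2 ^ g ((0 : Fin 2).1 + 1) * (G ((0 : Fin 2).1 + 1)).coeff 1) * M 0) -
      (2 * (2 ^ g 3 / 2 ^ g ((1 : Fin 2).1 + 1) * (G ((1 : Fin 2).1 + 1)).derivative.eval u -
        2 ^ g 3 / 2 ^ g ((1 : Fin 2).1 + 1) * (G ((1 : Fin 2).1 + 1)).coeff 1) * M 1) := by
    unfold Yc Tc Ac
    rw [Fin.sum_univ_two, Fin.sum_univ_two]
    ring
  have t0 : |2 * (2 ^ g 3 / 2 ^ g 0 * (G 0).derivative.eval u -
        (2 ^ g 3 / 2 ^ g 0 * (G 0).coeff 1 + 2 ^ g 3 / 2 ^ g 0 * (G 0).coeff 2 * 2 * u))| ≤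
      2 * ((D + 1) ^ 2 * δ') := by
    rw [abs_mul, abs_of_pos (by norm_num : (0 : ℝ) < 2)]
    linarith
  have t1 : ∀ i : Fin 2, |2 * (2 ^ g 3 / 2 ^ g (i.1 + 1) * (G (i.1 + 1)).derivative.eval u -
        2 ^ g 3 / 2 ^ g (i.1 + 1) * (G (i.1 + 1)).coeff 1) * M i| ≤
      2 * ((D + 1) ^ 2 * δ') * Lm := by
    intro i
    refine m2_le ?_ (hM i)
    rw [abs_mul, abs_of_pos (by norm_num : (0 : ℝ) < 2)]
    linarith [c1 i]
  have t10 := t1 0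
  have t11 := t1 1
  rw [e]
  refine (abs_sub _ _).trans ((add_le_add (abs_sub _ _) le_rfl).trans
    ((add_le_add (add_le_add (abs_sub _ _) le_rfl) le_rfl).trans ?_))
  linarith

/-! ### The relation in a frame -/

/-- The vector of the deep chart in the direction of `c 0`. -/
noncomputable def Vy (c : ℕ → Fin m) (g : ℕ → ℕ) (W : ℕ) (ψ ψ' : ℕ → Option (Fin m) → ℝ) :
    Option (Fin m) → ℝ := unr c g W (mx ψ ψ') (HP46.bs 1) 3

theorem Vy_none (c : ℕ → Fin m) (g : ℕ → ℕ) (W : ℕ) (ψ ψ' : ℕ → Option (Fin m) → ℝ) :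
    Vy c g W ψ ψ' none = 0 := by
  unfold Vy
  rw [HP46.unr_none]
  unfold HP46.bs
  rw [if_neg (by norm_num), zero_div]

theorem Vy_one {c : ℕ → Fin m} (hc : Set.InjOn c (Set.Iio 3)) (g : ℕ → ℕ) (W : ℕ)
    {ψ ψ' : ℕ → Option (Fin m) → ℝ} (hψ : ∀ l, CvC c l (ψ l)) (hψ' : ∀ l, CvC c l (ψ' l)) :
    eta c g W ψ (Vy c g W ψ ψ') 1 = 1 := by
  have h := eta_unr (c := c) g W (mx ψ ψ') (HP46.bs 1) hc (mx_dep hψ hψ') (j := 1) (by norm_num)
  have e : HP46.bs 1 1 = 1 := by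
    unfold HP46.bs
    rw [if_pos rfl]
  rw [e] at h
  have e2 : eta c g W ψ (Vy c g W ψ ψ') 1 = eta c g W (mx ψ ψ') (Vy c g W ψ ψ') 1 := by
    simp only [eta]
    have : mx ψ ψ' 0 = ψ 0 := by
      unfold mx
      rw [if_pos rfl]
    rw [this]
  rw [e2]
  exact h

/-- The gradients of the label along the own line, in the frame `ψH`. -/
noncomputable def gq (F : Fam m J) (c : ℕ → Fin m) (g : ℕ → ℕ) (W n : ℕ)
    (ψH : LnT F → ℕ → Option (Fin m) → ℝ) (Ht : LnT F → MvPolynomial (Option (Fin m)) ℝ)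
    (s : LnT F) (l : ℕ) : Polynomial ℝ := opl F W (gpo c g W 3 (ψH s) (Ht (co n s)) l) s

/-- **The relation of one sample in a frame.** -/
theorem hs_own {F : Fam m J} {c : ℕ → Fin m} (hc : Set.InjOn c (Set.Iio 3)) {g : ℕ → ℕ} {W n : ℕ}
    (hW : W ≤ J) {ψH : LnT F → ℕ → Option (Fin m) → ℝ}
    {Ht : LnT F → MvPolynomial (Option (Fin m)) ℝ} (hQ : ∀ s, DepC c 3 (Ht s)) {ω : F.Ω}
    {χ : ℕ → Option (Fin m) → ℝ} (hψ : ∀ l, CvC c l (ψH (slam F W ω) l))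
    (hχ : ∀ l, CvC c l (χ l)) :
    2 ^ g 3 * (1 / 2 ^ W) * hs (Ht (co n (slam F W ω))) (bt F ω) (bd F ω)
      (Vy c g W (ψH (slam F W ω)) χ) =
    2 * (2 ^ g 3 / 2 ^ g 0) * (gq F c g W n ψH Ht (slam F W ω) 0).derivative.eval (uw F W ω) +
      ∑ i : Fin 2, 2 * (2 ^ g 3 / 2 ^ g (i.1 + 1)) *
        (gq F c g W n ψH Ht (slam F W ω) (i.1 + 1)).derivative.eval (uw F W ω) *
        Ms c g W (ψH (slam F W ω)) χ i.1 1 := by
  have key := hs_fv hc g W hψ (hQ (co n (slam F W ω))) (bt F ω) (bd F ω)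
    (Vy_none c g W (ψH (slam F W ω)) χ)
  rw [key, Finset.sum_range_succ, Finset.sum_range_succ, Finset.sum_range_one, Fin.sum_univ_two]
  have hd : ∀ l, hs (Ht (co n (slam F W ω))) (bt F ω) (bd F ω)
      (fv c g W 3 (ψH (slam F W ω)) l) = 2 ^ (W + 1) *
        (gq F c g W n ψH Ht (slam F W ω) l).derivative.eval (uw F W ω) := by
    intro l
    have h := opl_jet F hW (gpo c g W 3 (ψH (slam F W ω)) (Ht (co n (slam F W ω))) l) ω 1
    rw [Function.iterate_one, pow_one, jet_one] at h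
    unfold gq
    rw [h]
    have e : ∑ o, bd F ω o * eval (bt F ω) (pderiv o
        (gpo c g W 3 (ψH (slam F W ω)) (Ht (co n (slam F W ω))) l)) =
        hs (Ht (co n (slam F W ω))) (bt F ω) (bd F ω) (fv c g W 3 (ψH (slam F W ω)) l) := by
      unfold gpo hs dd
      simp only [map_sum, pderiv_C_mul, Finset.mul_sum, Finset.sum_mul, map_mul, eval_C]
      rw [Finset.sum_comm]
      refine Finset.sum_congr rfl fun o _ => Finset.sum_congr rfl fun o' _ => ?_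
      ring
    rw [e]
    field_simp
  have hv : ∀ l, Vy c g W (ψH (slam F W ω)) χ (some (c l)) -
      cv (ψH (slam F W ω) l) (Vy c g W (ψH (slam F W ω)) χ) =
      eta c g W (ψH (slam F W ω)) (Vy c g W (ψH (slam F W ω)) χ) (l + 1) / 2 ^ g l := by
    intro l
    simp only [eta]
    field_simp
  have v0 := Vy_one hc g W hψ hχ
  rw [hd, hd, hd, hv, hv, hv, v0]
  have f0 : ((0 : Fin 2) : ℕ) = 0 := rfl
  have f1 : ((1 : Fin 2) : ℕ) = 1 := rfl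
  rw [f0, f1]
  have m0 : Ms c g W (ψH (slam F W ω)) χ 0 1 =
      eta c g W (ψH (slam F W ω)) (Vy c g W (ψH (slam F W ω)) χ) (1 + 1) := rfl
  have m1 : Ms c g W (ψH (slam F W ω)) χ 1 1 =
      eta c g W (ψH (slam F W ω)) (Vy c g W (ψH (slam F W ω)) χ) (2 + 1) := rfl
  rw [m0, m1]
  have h2 : (2 : ℝ) ^ (W + 1) = 2 * 2 ^ W := by rw [pow_succ]; ring
  rw [h2]
  have hW0 : (2 : ℝ) ^ W ≠ 0 := by positivity
  have g0 : (2 : ℝ) ^ g 0 ≠ 0 := by positivity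
  have g1 : (2 : ℝ) ^ g 1 ≠ 0 := by positivity
  have g2 : (2 : ℝ) ^ g 2 ≠ 0 := by positivity
  simp only [zero_add]
  norm_num only
  field_simp
  ring

/-! ### The time and the position -/

/-- The natural time. -/
noncomputable def tn (F : Fam m J) (W : ℕ) (ω : F.Ω) : ℝ := uw F W ω / 2

/-- The natural position. -/
noncomputable def yn (F : Fam m J) (c : ℕ → Fin m) (g : ℕ → ℕ) (W : ℕ)
    (ψ : PtT F → ℕ → Option (Fin m) → ℝ) (ω : F.Ω) : ℝ :=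
  eta c g W (ψ (ptr F J ω)) (hx F ω) 1

theorem tn_abs (F : Fam m J) (W : ℕ) (ω : F.Ω) : |tn F W ω| ≤ 1 / 2 := by
  unfold tn
  rw [abs_div, abs_of_pos (by norm_num : (0 : ℝ) < 2)]
  linarith [uw_abs F W ω]

/-- The natural times of two samples of one window. -/
theorem tn_sub {F : Fam m J} {W : ℕ} (hW : W ≤ J) {ω ω' : F.Ω}
    (hs : slam F W ω = slam F W ω') : tn F W ω' - tn F W ω = tu F W ω ω' := by
  have h1 := Pool.OWN68.t_mid F hW ω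
  have h2 := Pool.OWN68.t_mid F hW ω'
  rw [← hs] at h2
  unfold tn tu
  rw [h1, h2]
  have h3 : (2 : ℝ) ^ (W + 1) = 2 * 2 ^ W := by rw [pow_succ]; ring
  rw [h3]
  have hW0 : (2 : ℝ) ^ W ≠ 0 := by positivity
  field_simp
  ring

/-- The natural coordinates of the rounding error. -/
theorem hx_eta {F : Fam m J} {c : ℕ → Fin m} {n k e V : ℕ} {g : ℕ → ℕ} {W : ℕ}
    (hc : Set.InjOn c (Set.Iio n)) {A : F.Ω → Prop} {ψ : PtT F → ℕ → Option (Fin m) → ℝ}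
    {ψH : LnT F → ℕ → Option (Fin m) → ℝ} (h : FrOK F c n W k e g A ψ ψH)
    (hJ : ∀ j < n, e + g j + V ≤ J) {ω : F.Ω} (hω : A ω) {j : ℕ} (hj : j ≤ n) :
    |eta c g W (ψ (ptr F J ω)) (hx F ω) j - eta c g W (ψ (ptr F J ω)) (bt F ω) j| ≤
      n / 2 ^ V := by
  rw [← eta_sub]
  refine eta_small W hc (h.dep _) (h.lip ω hω) ?_ ?_ hJ hj
  · rw [Pi.sub_apply, hx_none, sub_self]
  · intro k'
    rw [Pi.sub_apply]
    exact hx_some F ω k'

/-- **The motion of the position.** -/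
theorem yn_mov {F : Fam m J} {c : ℕ → Fin m} {n k e V : ℕ} {g : ℕ → ℕ} {W : ℕ}
    (hc : Set.InjOn c (Set.Iio n)) {A : F.Ω → Prop} {ψ : PtT F → ℕ → Option (Fin m) → ℝ}
    {ψH : LnT F → ℕ → Option (Fin m) → ℝ} (h : FrOK F c n W k e g A ψ ψH) (hn : 1 ≤ n)
    (hW : W ≤ J) (hJ : ∀ j < n, e + g j + V ≤ J) {ω ω' : F.Ω} (hω : A ω) (hω' : A ω')
    (hs : slam F W ω = slam F W ω') :
    |yn F c g W ψ ω' - yn F c g W ψ ω - (tn F W ω' - tn F W ω) * Xn F c g W ψ ω 1| ≤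
      2 * (n / 2 ^ V) := by
  have h1 := hx_eta hc h hJ hω (j := 1) hn
  have h2 := hx_eta hc h hJ hω' (j := 1) hn
  have e0 : ψ (ptr F J ω') = ψ (ptr F J ω) := by
    rw [h.cls ω hω, h.cls ω' hω', hs]
  have e1 : eta c g W (ψ (ptr F J ω)) (bt F ω') 1 =
      eta c g W (ψ (ptr F J ω)) (bt F ω) 1 + tu F W ω ω' * Xn F c g W ψ ω 1 := by
    rw [(slam_eq hs).2, eta_add, eta_smul]
    congr 1
    unfold Xn tu
    rw [eta_smul]
    have hW0 : (2 : ℝ) ^ W ≠ 0 := by positivity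
    field_simp
  rw [tn_sub hW hs]
  unfold yn
  rw [e0] at h2 ⊢
  rw [e1] at h2
  have e2 : eta c g W (ψ (ptr F J ω)) (hx F ω') 1 - eta c g W (ψ (ptr F J ω)) (hx F ω) 1 -
      tu F W ω ω' * Xn F c g W ψ ω 1 =
      (eta c g W (ψ (ptr F J ω)) (hx F ω') 1 -
        (eta c g W (ψ (ptr F J ω)) (bt F ω) 1 + tu F W ω ω' * Xn F c g W ψ ω 1)) -
      (eta c g W (ψ (ptr F J ω)) (hx F ω) 1 - eta c g W (ψ (ptr F J ω)) (bt F ω) 1) := by ring
  rw [e2]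
  refine (abs_sub _ _).trans ?_
  linarith

/-! ### The real hypotheses -/

/-- **The hypotheses of the cell** on an event `B`, for the records `z`, `e` of the line. -/
structure ReH (F : Fam m J) (c : ℕ → Fin m) (g g' : ℕ → ℕ) (W n D a' k k' e₀ e₁ n' s V : ℕ)
    (ψ ψ' : PtT F → ℕ → Option (Fin m) → ℝ) (ψH ψH' : LnT F → ℕ → Option (Fin m) → ℝ)
    (Ht : LnT F → MvPolynomial (Option (Fin m)) ℝ) (B : F.Ω → Prop) {ζ ε : Type}
    (z : LnT F → ζ) (e : LnT F → ε) (δ δ₁ δ' Kn L K B₀ : ℝ) : Prop where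
  hc : Set.InjOn c (Set.Iio 3)
  hW : W ≤ J
  hD : 2 ≤ D
  hL : 1 ≤ L
  hK : 1 ≤ K
  hB₀ : 1 ≤ B₀
  hKn : 0 ≤ Kn
  hδ' : 0 ≤ δ'
  fr : FrOK F c 3 W k e₀ g B ψ ψH
  fr' : FrOK F c n' a' k' e₁ g' B ψ' ψH'
  hn' : 3 ≤ n'
  hV : ∀ j < 3, e₀ + g j + V ≤ J
  vV : (6 : ℝ) * 2 ^ s ≤ 2 ^ V
  near : ∀ ω, B ω → Nc c g W 3 Kn (ψ (ptr F J ω)) (ψ' (ptr F J ω))
  kL : (2 : ℝ) ^ k ≤ L
  KL : (1 + Kn) ^ 3 ≤ L
  deep : ∀ i, 1 ≤ i → i ≤ 2 → (2 : ℝ) ^ g i * (1 / 2 ^ W * (2 ^ (a' + k') / 2 ^ g' i)) ≤ δ₁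
  small₁ : 2 * (δ₁ * (1 + Kn) ^ 3) ≤ K / 2 ^ s
  deg : ∀ s', (Ht s').totalDegree ≤ D
  dep : ∀ s', DepC c 3 (Ht s')
  zy : ∀ ω ω', B ω → B ω' → z (slam F W ω) = z (slam F W ω') → ∀ j, 1 ≤ j → j ≤ 3 →
    |eta c g W (ψ (ptr F J ω')) (hx F ω') j - eta c g W (ψ (ptr F J ω)) (hx F ω) j| ≤ B₀
  zv : ∀ ω ω', B ω → B ω' → z (slam F W ω) = z (slam F W ω') → ψ (ptr F J ω) = ψ (ptr F J ω') ∧
    (slam F W ω).2.2 = (slam F W ω').2.2
  big : ∀ ω, B ω → ∀ l < 3, ∀ j, j = 1 ∨ (j = 2 ∧ l = 0) →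
    |2 ^ g 3 / 2 ^ g l * (4 * (gq F c g W n ψH Ht (slam F W ω) l).coeff j)| ≤ L
  sml0 : ∀ ω, B ω → ∀ j, 3 ≤ j →
    |2 ^ g 3 / 2 ^ g 0 * (gq F c g W n ψH Ht (slam F W ω) 0).coeff j| ≤ δ'
  sml1 : ∀ ω, B ω → ∀ i : Fin 2, ∀ j, 2 ≤ j →
    |2 ^ g 3 / 2 ^ g (i.1 + 1) * (gq F c g W n ψH Ht (slam F W ω) (i.1 + 1)).coeff j| ≤ δ'
  nul : ∀ ω, B ω → |2 ^ g 3 * (1 / 2 ^ W) * hs (Ht (co n (slam F W ω))) (bt F ω) (bd F ω)
    (Vy c g W (ψ (ptr F J ω)) (ψ' (ptr F J ω)))| ≤ δ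
  small₂ : 2 * (δ + 2 * (D + 1) ^ 2 * δ' * (1 + 2 * L)) ≤ K / 2 ^ s
  nE : ∀ ω ω', B ω → B ω' → z (slam F W ω) = z (slam F W ω') →
    e (slam F W ω) = e (slam F W ω') →
    |Xn F c g W ψ ω 1 - Xn F c g W ψ ω' 1| ≤ K / 2 ^ s
  nG : ∀ ω ω', B ω → B ω' → z (slam F W ω) = z (slam F W ω') →
    e (slam F W ω) = e (slam F W ω') → ∀ l < 3, ∀ j, (j = 1 ∧ 1 ≤ l) ∨ (j = 2 ∧ l = 0) →
    |2 ^ g 3 / 2 ^ g l * (4 * ((gq F c g W n ψH Ht (slam F W ω) l).coeff j -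
      (gq F c g W n ψH Ht (slam F W ω') l).coeff j))| ≤ K / 2 ^ s

section prr

variable {g' : ℕ → ℕ} {a' k k' e₀ e₁ n' s V : ℕ} {ψ ψ' : PtT F → ℕ → Option (Fin m) → ℝ}
  {ψH' : LnT F → ℕ → Option (Fin m) → ℝ} {B : F.Ω → Prop} {ζ ζ' ε : Type}
  {z : LnT F → ζ} {e : LnT F → ε} {f : PtT F → ζ'} {δ δ₁ δ' Kn L K B₀ : ℝ}

/-- The natural velocity of `V0`. -/
noncomputable def En (F : Fam m J) (c : ℕ → Fin m) (g : ℕ → ℕ) (W : ℕ)
    (ψ : PtT F → ℕ → Option (Fin m) → ℝ) (ω : F.Ω) : ℝ := Xn F c g W ψ ω 1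

/-- The natural velocities of the rough coordinates. -/
noncomputable def Vn (F : Fam m J) (c : ℕ → Fin m) (g : ℕ → ℕ) (W : ℕ)
    (ψ : PtT F → ℕ → Option (Fin m) → ℝ) (ω : F.Ω) (i : Fin 2) : ℝ := Xn F c g W ψ ω (i.1 + 2)

/-- The slopes. -/
noncomputable def Mn (F : Fam m J) (c : ℕ → Fin m) (g : ℕ → ℕ) (W : ℕ)
    (ψ ψ' : PtT F → ℕ → Option (Fin m) → ℝ) (ω : F.Ω) (i j : Fin 2) : ℝ :=
  Ms c g W (ψ (ptr F J ω)) (ψ' (ptr F J ω)) i.1 j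

/-- The coefficients of the target in the directions of the rough coordinates. -/
noncomputable def An (F : Fam m J) (c : ℕ → Fin m) (g : ℕ → ℕ) (W n : ℕ)
    (ψH : LnT F → ℕ → Option (Fin m) → ℝ) (Ht : LnT F → MvPolynomial (Option (Fin m)) ℝ)
    (ω : F.Ω) (i : Fin 2) : ℝ := Ac g (gq F c g W n ψH Ht (slam F W ω)) i

/-- The coefficient of the target in the direction of `V0`. -/
noncomputable def Tn (F : Fam m J) (c : ℕ → Fin m) (g : ℕ → ℕ) (W n : ℕ)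
    (ψH : LnT F → ℕ → Option (Fin m) → ℝ) (Ht : LnT F → MvPolynomial (Option (Fin m)) ℝ)
    (ω : F.Ω) : ℝ := Tc g (gq F c g W n ψH Ht (slam F W ω))

/-- The position relative to a reference sample of `z`. -/
noncomputable def yr (F : Fam m J) (c : ℕ → Fin m) (g : ℕ → ℕ) (W : ℕ)
    (ψ : PtT F → ℕ → Option (Fin m) → ℝ) (p : F.Ω → ℝ) (z : LnT F → ζ) (ω : F.Ω) : ℝ :=
  yn F c g W ψ ω - rfv p (fun ω => z (slam F W ω)) (fun _ => ()) (yn F c g W ψ)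
    (z (slam F W ω)) ()

theorem yr_abs (H : ReH F c g g' W n D a' k k' e₀ e₁ n' s V ψ ψ' ψH ψH' Ht B z e δ δ₁ δ' Kn L K B₀)
    {p : F.Ω → ℝ} (hB : ∀ ω, 0 < p ω → B ω) {ω : F.Ω} (hω : 0 < p ω) :
    |yr F c g W ψ p z ω| ≤ B₀ := by
  obtain ⟨ω₀, h1, h2, -, h3⟩ := rfv_spec (z := fun ω => z (slam F W ω)) (e := fun _ => ())
    hω (R := ℝ)
  unfold yr
  rw [h3 (yn F c g W ψ)]
  exact H.zy ω₀ ω (hB _ h1) (hB _ hω) h2 1 le_rfl (by norm_num)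

/-- **The real data of one law.** -/
theorem prr_of (H : ReH F c g g' W n D a' k k' e₀ e₁ n' s V ψ ψ' ψH ψH' Ht B z e δ δ₁ δ' Kn L K B₀)
    {p : F.Ω → ℝ} (hp : IsLaw p) (hB : ∀ ω, 0 < p ω → B ω)
    (dz : Det p (fun ω => f (ptr F J ω)) (fun ω => z (slam F W ω)))
    (dt : Det p (fun ω => f (ptr F J ω)) (fun ω => (⌊2 ^ s * tn F W ω⌋,
      ⌊2 ^ s * yr F c g W ψ p z ω⌋)))
    (dM : Det p (fun ω => f (ptr F J ω)) (Mn F c g W ψ ψ')) :
    PrR p (slam F W) (fun ω => z (slam F W ω)) (fun ω => f (ptr F J ω))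
      (fun ω => e (slam F W ω)) (En F c g W ψ) (tn F W) (yr F c g W ψ p z)
      (Tn F c g W n ψH Ht) (An F c g W n ψH Ht) (Vn F c g W ψ) (Mn F c g W ψ ψ') s B₀ L K := by
  have h1L := H.hL
  have hcls : ∀ ω, B ω → ψ (ptr F J ω) = ψH (slam F W ω) := H.fr.cls
  have hrel : ∀ ω, B ω → |Yc g (gq F c g W n ψH Ht (slam F W ω)) +
      Tc g (gq F c g W n ψH Ht (slam F W ω)) * uw F W ω +
      ∑ i, Ac g (gq F c g W n ψH Ht (slam F W ω)) i * Mn F c g W ψ ψ' ω i 1| ≤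
        δ + 2 * (D + 1) ^ 2 * δ' * (1 + 2 * L) := by
    intro ω hω
    refine rel_pure (D := D) (δ' := δ') (Lm := L) H.hD ?_ (uw_abs F W ω) H.hδ' ?_
      (H.sml0 ω hω) (H.sml1 ω hω) ?_
    · intro l
      exact natDegree_opl F W (deg_gpo c g W 3 (ψH (slam F W ω)) (H.deg _) l) _
    · intro i
      exact (ms_le H.hc H.fr H.fr' H.hKn (H.near ω hω) (by omega) 1).trans H.KL
    · have h := H.nul ω hω
      rw [hcls ω hω] at h
      rw [hs_own H.hc H.hW H.dep (H.fr.depH _) (H.fr'.dep _)] at h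
      unfold Mn
      rw [hcls ω hω]
      exact h
  refine
    { isLaw := hp
      dz := dz
      dS := fun ω ω' _ _ h => by
        show z (slam F W ω) = z (slam F W ω')
        rw [h]
      dt := dt
      dM := dM
      de := fun ω ω' _ _ h => by
        show e (slam F W ω) = e (slam F W ω')
        rw [h]
      hL := H.hL
      hK := by linarith [H.hK]
      bt := fun ω hω => ⟨(tn_abs F W ω).trans (by linarith [H.hB₀]), yr_abs H hB hω⟩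
      bM := fun ω hω i j => (ms_le H.hc H.fr H.fr' H.hKn (H.near ω (hB _ hω)) (by omega) j).trans
        H.KL
      bE := fun ω hω => (Xn_le H.fr (hB _ hω) (by norm_num)).trans H.kL
      bA := ?_
      bT := ?_
      nE := fun ω ω' hω hω' h1 h2 => H.nE ω ω' (hB _ hω) (hB _ hω') h1 h2
      nA := ?_
      nT := ?_
      vV := ?_
      mov := ?_
      lin := ?_
      rel := ?_ }
  · intro ω hω i
    have h := H.big ω (hB _ hω) (i.1 + 1) (by omega) 1 (Or.inl rfl)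
    unfold An Ac
    rw [abs_mul] at h ⊢
    rw [abs_mul] at h ⊢
    rw [abs_of_pos (by norm_num : (0 : ℝ) < 4)] at h
    rw [abs_of_pos (by norm_num : (0 : ℝ) < 2)]
    have h0 := mul_nonneg (abs_nonneg ((2 : ℝ) ^ g 3 / 2 ^ g (i.1 + 1)))
      (abs_nonneg ((gq F c g W n ψH Ht (slam F W ω) (i.1 + 1)).coeff 1))
    linarith
  · intro ω hω
    exact H.big ω (hB _ hω) 0 (by norm_num) 2 (Or.inr ⟨rfl, rfl⟩)
  · intro ω ω' hω hω' h1 h2 i
    have h := H.nG ω ω' (hB _ hω) (hB _ hω') h1 h2 (i.1 + 1) (by omega) 1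
      (Or.inl ⟨rfl, by omega⟩)
    unfold An Ac
    rw [← mul_sub, ← mul_sub]
    rw [abs_mul] at h ⊢
    rw [abs_mul] at h ⊢
    rw [abs_of_pos (by norm_num : (0 : ℝ) < 4)] at h
    rw [abs_of_pos (by norm_num : (0 : ℝ) < 2)]
    have h0 := mul_nonneg (abs_nonneg ((2 : ℝ) ^ g 3 / 2 ^ g (i.1 + 1)))
      (abs_nonneg ((gq F c g W n ψH Ht (slam F W ω) (i.1 + 1)).coeff 1 -
        (gq F c g W n ψH Ht (slam F W ω') (i.1 + 1)).coeff 1))
    linarith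
  · intro ω ω' hω hω' h1 h2
    have h := H.nG ω ω' (hB _ hω) (hB _ hω') h1 h2 0 (by norm_num) 2 (Or.inr ⟨rfl, rfl⟩)
    unfold Tn Tc
    rw [← mul_sub, ← mul_sub]
    exact h
  · intro ω hω i
    have h := ms_own H.hc H.fr H.fr' H.hn' H.hKn H.deep (hB _ hω) (H.near ω (hB _ hω))
      (i := i.1) (by omega)
    unfold Vn Mn En
    refine le_trans (le_of_eq ?_) (h.trans H.small₁)
    congr 1
    ring
  · intro ω ω' hω hω' hs
    have h := yn_mov H.hc H.fr (by norm_num) H.hW H.hV (hB _ hω) (hB _ hω') hs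
    have e1 : yr F c g W ψ p z ω' - yr F c g W ψ p z ω = yn F c g W ψ ω' - yn F c g W ψ ω := by
      unfold yr
      rw [hs]
      ring
    unfold En
    rw [e1]
    refine h.trans ?_
    have h2 := H.vV
    rw [le_div_iff₀ (by positivity : (0 : ℝ) < 2 ^ s)]
    have hV0 : (0 : ℝ) < 2 ^ V := by positivity
    push_cast
    have e2 : 2 * ((3 : ℝ) / 2 ^ V) * 2 ^ s = 6 * 2 ^ s / 2 ^ V := by ring
    rw [e2, div_le_iff₀ hV0]
    have h3 := mul_le_mul_of_nonneg_right H.hK hV0.le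
    linarith
  · intro ω ω' hω hω' hs i
    have h := Pool.D2F.Xn_slam H.fr (hB _ hω) (hB _ hω') hs (i.1 + 2)
    unfold Vn
    rw [h, sub_self, abs_zero]
    have := H.hK
    positivity
  · intro ω ω' hω hω' hs
    have h1 := hrel ω (hB _ hω)
    have h2 := hrel ω' (hB _ hω')
    rw [← hs] at h2
    refine le_trans ?_ H.small₂
    have e1 : 2 * (tn F W ω' - tn F W ω) * Tn F c g W n ψH Ht ω +
        ∑ i, An F c g W n ψH Ht ω i * (Mn F c g W ψ ψ' ω' i 1 - Mn F c g W ψ ψ' ω i 1) =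
        (Yc g (gq F c g W n ψH Ht (slam F W ω)) +
          Tc g (gq F c g W n ψH Ht (slam F W ω)) * uw F W ω' +
          ∑ i, Ac g (gq F c g W n ψH Ht (slam F W ω)) i * Mn F c g W ψ ψ' ω' i 1) -
        (Yc g (gq F c g W n ψH Ht (slam F W ω)) +
          Tc g (gq F c g W n ψH Ht (slam F W ω)) * uw F W ω +
          ∑ i, Ac g (gq F c g W n ψH Ht (slam F W ω)) i * Mn F c g W ψ ψ' ω i 1) := by
      unfold Tn An tn
      rw [Fin.sum_univ_two, Fin.sum_univ_two, Fin.sum_univ_two]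
      ring
    rw [e1]
    refine (abs_sub _ _).trans ?_
    linarith

/-! ### The number of the own line -/

/-- The conversion of the number, pure. -/
theorem cnv_pure {E E₀ t t₀ y y₀ w w₀ T T₀ Y L κ ρ δ' B₁ B₀ : ℝ} {A A₀ V V₀ q d2 : Fin 2 → ℝ}
    (hL : 0 ≤ L) (hT : |T| ≤ L) (hY : |Y| ≤ L)
    (hV₀ : ∀ i, |V₀ i| ≤ L) (dA : ∀ i, |A i - A₀ i| ≤ κ) (dT : |T - T₀| ≤ κ)
    (dE : |E - E₀| ≤ κ) (hy₀ : |y₀| ≤ B₀) (hE₀ : |E₀| ≤ L) (ht₀ : |t₀| ≤ 1 / 2)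
    (hw : |(y - y₀) - (w - w₀)| ≤ ρ) (hq : ∀ i, |q i| ≤ B₁) (hd : ∀ i, |d2 i| ≤ δ') :
    |(∑ i, A i * V i + T * (y - E * t)) - (∑ i, A₀ i * V₀ i + T₀ * (y₀ - E₀ * t₀)) -
      (T * ((w - E * t) - (w₀ - E₀ * t₀)) + Y * (E - E₀) +
        ∑ i, (4 * d2 i * q i + A i * (V i - V₀ i)))| ≤
      κ * (4 * L + B₀) + L * ρ + 8 * δ' * B₁ := by
  have hκ : 0 ≤ κ := (abs_nonneg _).trans dT
  have e : (∑ i, A i * V i + T * (y - E * t)) - (∑ i, A₀ i * V₀ i + T₀ * (y₀ - E₀ * t₀)) -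
      (T * ((w - E * t) - (w₀ - E₀ * t₀)) + Y * (E - E₀) +
        ∑ i, (4 * d2 i * q i + A i * (V i - V₀ i))) =
      (A 0 - A₀ 0) * V₀ 0 + (A 1 - A₀ 1) * V₀ 1 + T * ((y - y₀) - (w - w₀)) +
      (T - T₀) * (y₀ - E₀ * t₀) - Y * (E - E₀) - 4 * (d2 0 * q 0) - 4 * (d2 1 * q 1) := by
    rw [Fin.sum_univ_two, Fin.sum_univ_two, Fin.sum_univ_two]
    ring
  have t1 := m2_le (dA 0) (hV₀ 0)
  have t2 := m2_le (dA 1) (hV₀ 1)
  have t3 := m2_le hT hw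
  have t4 : |(T - T₀) * (y₀ - E₀ * t₀)| ≤ κ * (B₀ + L * (1 / 2)) :=
    m2_le dT ((abs_sub _ _).trans (add_le_add hy₀ (m2_le hE₀ ht₀)))
  have t5 := m2_le hY dE
  have t6 := m2_le (hd 0) (hq 0)
  have t7 := m2_le (hd 1) (hq 1)
  have f4 : ∀ x : ℝ, |4 * x| = 4 * |x| := fun x => by rw [abs_mul, abs_of_pos (by norm_num)]
  have s1 := abs_sub ((A 0 - A₀ 0) * V₀ 0 + (A 1 - A₀ 1) * V₀ 1 + T * ((y - y₀) - (w - w₀)) +
      (T - T₀) * (y₀ - E₀ * t₀) - Y * (E - E₀) - 4 * (d2 0 * q 0)) (4 * (d2 1 * q 1))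
  have s2 := abs_sub ((A 0 - A₀ 0) * V₀ 0 + (A 1 - A₀ 1) * V₀ 1 + T * ((y - y₀) - (w - w₀)) +
      (T - T₀) * (y₀ - E₀ * t₀) - Y * (E - E₀)) (4 * (d2 0 * q 0))
  have s3 := abs_sub ((A 0 - A₀ 0) * V₀ 0 + (A 1 - A₀ 1) * V₀ 1 + T * ((y - y₀) - (w - w₀)) +
      (T - T₀) * (y₀ - E₀ * t₀)) (Y * (E - E₀))
  have s4 := abs_add_le ((A 0 - A₀ 0) * V₀ 0 + (A 1 - A₀ 1) * V₀ 1 + T * ((y - y₀) - (w - w₀)))
      ((T - T₀) * (y₀ - E₀ * t₀))
  have s5 := abs_add_le ((A 0 - A₀ 0) * V₀ 0 + (A 1 - A₀ 1) * V₀ 1) (T * ((y - y₀) - (w - w₀)))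
  have s6 := abs_add_le ((A 0 - A₀ 0) * V₀ 0) ((A 1 - A₀ 1) * V₀ 1)
  rw [f4] at s1 s2
  have hLκ : 0 ≤ κ * L := mul_nonneg hκ hL
  rw [e]
  nlinarith

/-- The coefficients of the own path in a frame, in natural units. -/
theorem P_nat (hW : W ≤ J) (l : ℕ) (hl : l < r) (ω : F.Ω) {χ : ℕ → Option (Fin m) → ℝ}
    (hχ : χ = ψH (slam F W ω)) :
    2 ^ g l * ((fdat F c g W n r D ψH Ht hD SV SE SG).P l (slam F W ω)).coeff 1 =
      eta c g W χ ((1 / 2 ^ W : ℝ) • bd F ω) (l + 1) / 2 ∧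
    2 ^ g l * ((fdat F c g W n r D ψH Ht hD SV SE SG).P l (slam F W ω)).coeff 0 =
      eta c g W χ (bt F ω) (l + 1) -
        eta c g W χ ((1 / 2 ^ W : ℝ) • bd F ω) (l + 1) * tn F W ω := by
  have h1 := fdat_e (F := F) (c := c) (g := g) (n := n) (r := r) (D := D) (ψH := ψH) (Ht := Ht)
    (hD := hD) (SV := SV) (SE := SE) (SG := SG) hW l ω
  have h2 := fdat_v (F := F) (c := c) (g := g) (n := n) (r := r) (D := D) (ψH := ψH) (Ht := Ht)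
    (hD := hD) (SV := SV) (SE := SE) (SG := SG) hW l ω
  rw [if_pos hl] at h1 h2
  have h3 := (fdat F c g W n r D ψH Ht hD SV SE SG).zero (W := W) l ω
  have c1 : 2 ^ g l * ((fdat F c g W n r D ψH Ht hD SV SE SG).P l (slam F W ω)).coeff 1 =
      eta c g W χ ((1 / 2 ^ W : ℝ) • bd F ω) (l + 1) / 2 := by
    have h4 : ((fdat F c g W n r D ψH Ht hD SV SE SG).P l (slam F W ω)).coeff 1 =
        (fdat F c g W n r D ψH Ht hD SV SE SG).e W l ω := rfl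
    rw [h4, h1, eta_smul, hχ]
    simp only [eta]
    have h5 : (2 : ℝ) ^ (W + 1) = 2 * 2 ^ W := by rw [pow_succ]; ring
    rw [h5]
    have hW0 : (2 : ℝ) ^ W ≠ 0 := by positivity
    field_simp
  refine ⟨c1, ?_⟩
  rw [h3, mul_sub, h2]
  have h4 : 2 ^ g l * ((fdat F c g W n r D ψH Ht hD SV SE SG).e W l ω * uw F W ω) =
      2 ^ g l * ((fdat F c g W n r D ψH Ht hD SV SE SG).P l (slam F W ω)).coeff 1 *
        uw F W ω := by
    rw [mul_assoc]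
    rfl
  rw [h4, c1, hχ]
  unfold tn
  simp only [eta]
  ring

/-- **The conversion of the number of the own line.** -/
theorem cnv_re {hD : ∀ s, (Ht s).totalDegree ≤ D}
    (H : ReH F c g g' W n D a' k k' e₀ e₁ n' s V ψ ψ' ψH ψH' Ht B z e δ δ₁ δ' Kn L K B₀)
    {p : F.Ω → ℝ} (hB : ∀ ω, 0 < p ω → B ω) {ω ω₀ : F.Ω} (hω : 0 < p ω) (hω₀ : 0 < p ω₀)
    (hz : z (slam F W ω) = z (slam F W ω₀)) (he : e (slam F W ω) = e (slam F W ω₀)) :
    |2 ^ s * bR (En F c g W ψ) (tn F W) (yr F c g W ψ p z) (Tn F c g W n ψH Ht)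
        (An F c g W n ψH Ht) (Vn F c g W ψ) ω -
      (2 ^ (s + g 3 + 2) * Pool.X31.nw (fdat F c g W n 3 D ψH Ht hD SV SE SG) W
        (fun l => (fdat F c g W n 3 D ψH Ht hD SV SE SG).P l (slam F W ω₀)) ω +
      2 ^ s * bR (En F c g W ψ) (tn F W) (yr F c g W ψ p z) (Tn F c g W n ψH Ht)
        (An F c g W n ψH Ht) (Vn F c g W ψ) ω₀)| ≤ 12 * K * (L + B₀) := by
  obtain ⟨d, hd⟩ : ∃ d, d = fdat F c g W n 3 D ψH Ht hD SV SE SG := ⟨_, rfl⟩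
  have b := hB _ hω
  have b₀ := hB _ hω₀
  have hL := H.hL
  have hK := H.hK
  have hB₀ := H.hB₀
  have e0 : ψ (ptr F J ω) = ψ (ptr F J ω₀) := (H.zv ω ω₀ b b₀ hz).1
  have hc1 := H.fr.cls ω b
  have hc0 := H.fr.cls ω₀ b₀
  have hs0 : (0 : ℝ) < 2 ^ s := by positivity
  -- the natural quantities
  obtain ⟨X, hX⟩ : ∃ X : ℕ → ℝ, X = fun l => Xn F c g W ψ ω (l + 1) := ⟨_, rfl⟩
  obtain ⟨X₀, hX₀⟩ : ∃ X : ℕ → ℝ, X = fun l => Xn F c g W ψ ω₀ (l + 1) := ⟨_, rfl⟩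
  obtain ⟨w, hw⟩ : ∃ w : ℕ → ℝ, w = fun l => eta c g W (ψ (ptr F J ω)) (bt F ω) (l + 1) :=
    ⟨_, rfl⟩
  obtain ⟨w₀, hw₀⟩ : ∃ w : ℕ → ℝ, w = fun l => eta c g W (ψ (ptr F J ω₀)) (bt F ω₀) (l + 1) :=
    ⟨_, rfl⟩
  have p1 : ∀ l < 3, 2 ^ g l * (d.P l (slam F W ω)).coeff 1 = X l / 2 ∧
      2 ^ g l * (d.P l (slam F W ω)).coeff 0 = w l - X l * tn F W ω := by
    intro l hl
    rw [hd, hX, hw]
    exact P_nat H.hW l hl ω hc1
  have p0 : ∀ l < 3, 2 ^ g l * (d.P l (slam F W ω₀)).coeff 1 = X₀ l / 2 ∧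
      2 ^ g l * (d.P l (slam F W ω₀)).coeff 0 = w₀ l - X₀ l * tn F W ω₀ := by
    intro l hl
    rw [hd, hX₀, hw₀]
    exact P_nat H.hW l hl ω₀ hc0
  have bX : ∀ l < 3, |X l| ≤ L := by
    intro l hl
    rw [hX]
    exact (Xn_le H.fr b (by omega)).trans H.kL
  have bX₀ : ∀ l < 3, |X₀ l| ≤ L := by
    intro l hl
    rw [hX₀]
    exact (Xn_le H.fr b₀ (by omega)).trans H.kL
  -- the rounding
  have hr : ∀ j ≤ 3, |(eta c g W (ψ (ptr F J ω)) (hx F ω) j -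
      eta c g W (ψ (ptr F J ω₀)) (hx F ω₀) j) - (eta c g W (ψ (ptr F J ω)) (bt F ω) j -
      eta c g W (ψ (ptr F J ω₀)) (bt F ω₀) j)| ≤ 6 / 2 ^ V := by
    intro j hj
    have h1 := hx_eta H.hc H.fr H.hV b hj
    have h2 := hx_eta H.hc H.fr H.hV b₀ hj
    have e1 : (eta c g W (ψ (ptr F J ω)) (hx F ω) j -
      eta c g W (ψ (ptr F J ω₀)) (hx F ω₀) j) - (eta c g W (ψ (ptr F J ω)) (bt F ω) j -
      eta c g W (ψ (ptr F J ω₀)) (bt F ω₀) j) = (eta c g W (ψ (ptr F J ω)) (hx F ω) j -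
      eta c g W (ψ (ptr F J ω)) (bt F ω) j) - (eta c g W (ψ (ptr F J ω₀)) (hx F ω₀) j -
      eta c g W (ψ (ptr F J ω₀)) (bt F ω₀) j) := by ring
    rw [e1]
    refine (abs_sub _ _).trans ?_
    push_cast at h1 h2
    have e2 : (6 : ℝ) / 2 ^ V = 3 / 2 ^ V + 3 / 2 ^ V := by ring
    rw [e2]
    exact add_le_add h1 h2
  have hρ : (2 : ℝ) ^ s * (6 / 2 ^ V) ≤ 1 := by
    have h1 := H.vV
    have hV0 : (0 : ℝ) < 2 ^ V := by positivity
    rw [← mul_div_assoc, div_le_iff₀ hV0]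
    linarith
  have hρ1 : (6 : ℝ) / 2 ^ V ≤ 1 := by
    have h1 : (1 : ℝ) ≤ 2 ^ s := one_le_pow₀ (by norm_num)
    have h2 : (0 : ℝ) ≤ 6 / 2 ^ V := by positivity
    nlinarith
  have hδ : 2 ^ s * (8 * δ' * (1 + 2 * L)) ≤ K := by
    have h1 := H.small₂
    rw [le_div_iff₀ hs0] at h1
    have hδ0 : 0 ≤ δ := (abs_nonneg _).trans (H.nul ω b)
    have hδ' := H.hδ'
    have h2 : (3 : ℝ) ≤ D + 1 := by
      have : (2 : ℝ) ≤ D := by exact_mod_cast H.hD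
      linarith
    have h3 : (9 : ℝ) ≤ (D + 1) ^ 2 := by nlinarith
    have h4 : 0 ≤ δ' * (1 + 2 * L) := by positivity
    have h5 : 9 * (δ' * (1 + 2 * L)) ≤ (D + 1) ^ 2 * (δ' * (1 + 2 * L)) :=
      mul_le_mul_of_nonneg_right h3 h4
    have h6 : 8 * (δ' * (1 + 2 * L)) ≤ 2 * (δ + 2 * (D + 1) ^ 2 * δ' * (1 + 2 * L)) := by
      nlinarith
    calc 2 ^ s * (8 * δ' * (1 + 2 * L)) = 2 ^ s * (8 * (δ' * (1 + 2 * L))) := by ring
      _ ≤ 2 ^ s * (2 * (δ + 2 * (D + 1) ^ 2 * δ' * (1 + 2 * L))) :=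
        mul_le_mul_of_nonneg_left h6 hs0.le
      _ ≤ K := by linarith
  -- the differences of the constant coefficients
  have hq : ∀ i : Fin 2, |(w (i.1 + 1) - X (i.1 + 1) * tn F W ω) -
      (w₀ (i.1 + 1) - X₀ (i.1 + 1) * tn F W ω₀)| ≤ B₀ + 1 + L := by
    intro i
    have h1 := hr (i.1 + 2) (by omega)
    have h2 := H.zy ω₀ ω b₀ b hz.symm (i.1 + 2) (by omega) (by omega)
    have h3 := m2_le (bX (i.1 + 1) (by omega)) (tn_abs F W ω)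
    have h4 := m2_le (bX₀ (i.1 + 1) (by omega)) (tn_abs F W ω₀)
    have e1 : w (i.1 + 1) = eta c g W (ψ (ptr F J ω)) (bt F ω) (i.1 + 2) := by rw [hw]
    have e2 : w₀ (i.1 + 1) = eta c g W (ψ (ptr F J ω₀)) (bt F ω₀) (i.1 + 2) := by rw [hw₀]
    rw [e1, e2]
    rw [abs_le] at h1 h2 h3 h4 ⊢
    constructor <;> linarith [h1.1, h1.2, h2.1, h2.2, h3.1, h3.2, h4.1, h4.2]
  have dE := H.nE ω ω₀ b b₀ hz he
  have dG := H.nG ω ω₀ b b₀ hz he
  have hgq : ∀ (ν : F.Ω) (l : ℕ), d.gp l (slam F W ν) = gq F c g W n ψH Ht (slam F W ν) l := by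
    intro ν l
    rw [hd]
    rfl
  obtain ⟨G, hG⟩ : ∃ G, G = gq F c g W n ψH Ht (slam F W ω) := ⟨_, rfl⟩
  obtain ⟨G₀, hG₀⟩ : ∃ G, G = gq F c g W n ψH Ht (slam F W ω₀) := ⟨_, rfl⟩
  rw [← hG, ← hG₀] at dG
  have bG := H.big ω b
  have sG := H.sml1 ω b
  rw [← hG] at bG sG
  have eA : ∀ i, An F c g W n ψH Ht ω i = Ac g G i := fun i => by rw [hG]; rfl
  have eA₀ : ∀ i, An F c g W n ψH Ht ω₀ i = Ac g G₀ i := fun i => by rw [hG₀]; rfl
  have eT : Tn F c g W n ψH Ht ω = Tc g G := by rw [hG]; rfl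
  have eT₀ : Tn F c g W n ψH Ht ω₀ = Tc g G₀ := by rw [hG₀]; rfl
  have key := cnv_pure (E := X 0) (E₀ := X₀ 0) (t := tn F W ω) (t₀ := tn F W ω₀)
    (y := yr F c g W ψ p z ω) (y₀ := yr F c g W ψ p z ω₀) (w := w 0) (w₀ := w₀ 0)
    (T := Tc g G) (T₀ := Tc g G₀) (Y := Yc g G) (L := L) (κ := K / 2 ^ s) (ρ := 6 / 2 ^ V)
    (δ' := δ') (B₁ := B₀ + 1 + L) (B₀ := B₀) (A := fun i => Ac g G i) (A₀ := fun i => Ac g G₀ i)
    (V := fun i => X (i.1 + 1)) (V₀ := fun i => X₀ (i.1 + 1))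
    (q := fun i => (w (i.1 + 1) - X (i.1 + 1) * tn F W ω) -
      (w₀ (i.1 + 1) - X₀ (i.1 + 1) * tn F W ω₀))
    (d2 := fun i => 2 ^ g 3 / 2 ^ g (i.1 + 1) * (G (i.1 + 1)).coeff 2)
    (by linarith) (bG 0 (by norm_num) 2 (Or.inr ⟨rfl, rfl⟩)) ?_ (fun i => bX₀ _ (by omega)) ?_ ?_
    ?_ (yr_abs H hB hω₀) (bX₀ 0 (by norm_num)) (tn_abs F W ω₀) ?_ hq (fun i => sG i 2 le_rfl)
  · have e3 : 2 ^ (s + g 3 + 2) * Pool.X31.nw (fdat F c g W n 3 D ψH Ht hD SV SE SG) W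
        (fun l => (fdat F c g W n 3 D ψH Ht hD SV SE SG).P l (slam F W ω₀)) ω =
        2 ^ s * (Tc g G * ((w 0 - X 0 * tn F W ω) - (w₀ 0 - X₀ 0 * tn F W ω₀)) +
          Yc g G * (X 0 - X₀ 0) + ∑ i : Fin 2, (4 * (2 ^ g 3 / 2 ^ g (i.1 + 1) *
            (G (i.1 + 1)).coeff 2) * ((w (i.1 + 1) - X (i.1 + 1) * tn F W ω) -
            (w₀ (i.1 + 1) - X₀ (i.1 + 1) * tn F W ω₀)) +
            Ac g G i * (X (i.1 + 1) - X₀ (i.1 + 1)))) := by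
      rw [← hd]
      unfold Pool.X31.nw Tc Yc Ac
      rw [Finset.sum_range_succ, Finset.sum_range_succ, Finset.sum_range_one, Fin.sum_univ_two]
      simp only [hgq, ← hG, Polynomial.coeff_sub]
      obtain ⟨a1, a2⟩ := p1 0 (by norm_num)
      obtain ⟨a3, a4⟩ := p1 1 (by norm_num)
      obtain ⟨a5, a6⟩ := p1 2 (by norm_num)
      obtain ⟨c1, c2⟩ := p0 0 (by norm_num)
      obtain ⟨c3, c4⟩ := p0 1 (by norm_num)
      obtain ⟨c5, c6⟩ := p0 2 (by norm_num)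
      have f0 : ((0 : Fin 2) : ℕ) = 0 := rfl
      have f1 : ((1 : Fin 2) : ℕ) = 1 := rfl
      rw [f0, f1]
      simp only [zero_add]
      rw [show (1 : ℕ) + 1 = 2 from rfl]
      have x0 : X 0 = 2 * (2 ^ g 0 * (d.P 0 (slam F W ω)).coeff 1) := by linarith
      have x1 : X 1 = 2 * (2 ^ g 1 * (d.P 1 (slam F W ω)).coeff 1) := by linarith
      have x2 : X 2 = 2 * (2 ^ g 2 * (d.P 2 (slam F W ω)).coeff 1) := by linarith
      have z0 : X₀ 0 = 2 * (2 ^ g 0 * (d.P 0 (slam F W ω₀)).coeff 1) := by linarith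
      have z1 : X₀ 1 = 2 * (2 ^ g 1 * (d.P 1 (slam F W ω₀)).coeff 1) := by linarith
      have z2 : X₀ 2 = 2 * (2 ^ g 2 * (d.P 2 (slam F W ω₀)).coeff 1) := by linarith
      rw [← a2, ← a4, ← a6, ← c2, ← c4, ← c6, x0, x1, x2, z0, z1, z2]
      have h4 : (2 : ℝ) ^ (s + g 3 + 2) = 2 ^ s * 2 ^ g 3 * 4 := by
        rw [pow_add, pow_add]
        norm_num
      rw [h4]
      have g0 : (2 : ℝ) ^ g 0 ≠ 0 := by positivity
      have g1 : (2 : ℝ) ^ g 1 ≠ 0 := by positivity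
      have g2 : (2 : ℝ) ^ g 2 ≠ 0 := by positivity
      field_simp
      ring
    have e4 : bR (En F c g W ψ) (tn F W) (yr F c g W ψ p z) (Tn F c g W n ψH Ht)
        (An F c g W n ψH Ht) (Vn F c g W ψ) ω = ∑ i : Fin 2, Ac g G i * X (i.1 + 1) +
        Tc g G * (yr F c g W ψ p z ω - X 0 * tn F W ω) := by
      unfold bR
      rw [eT]
      have : ∀ i : Fin 2, Vn F c g W ψ ω i = X (i.1 + 1) := fun i => by rw [hX]; rfl
      simp only [this, eA]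
      rw [hX]
      rfl
    have e5 : bR (En F c g W ψ) (tn F W) (yr F c g W ψ p z) (Tn F c g W n ψH Ht)
        (An F c g W n ψH Ht) (Vn F c g W ψ) ω₀ = ∑ i : Fin 2, Ac g G₀ i * X₀ (i.1 + 1) +
        Tc g G₀ * (yr F c g W ψ p z ω₀ - X₀ 0 * tn F W ω₀) := by
      unfold bR
      rw [eT₀]
      have : ∀ i : Fin 2, Vn F c g W ψ ω₀ i = X₀ (i.1 + 1) := fun i => by rw [hX₀]; rfl
      simp only [this, eA₀]
      rw [hX₀]
      rfl
    rw [e3, e4, e5]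
    have e6 : ∀ a b c : ℝ, 2 ^ s * a - (2 ^ s * b + 2 ^ s * c) = 2 ^ s * (a - c - b) := by
      intro a b c
      ring
    rw [e6, abs_mul, abs_of_pos hs0]
    refine (mul_le_mul_of_nonneg_left key hs0.le).trans ?_
    have e7 : 2 ^ s * (K / 2 ^ s * (4 * L + B₀) + L * (6 / 2 ^ V) + 8 * δ' * (B₀ + 1 + L)) =
        K * (4 * L + B₀) + L * (2 ^ s * (6 / 2 ^ V)) + 2 ^ s * (8 * δ') * (B₀ + 1 + L) := by
      field_simp
    rw [e7]
    have e8 : L * (2 ^ s * (6 / 2 ^ V)) ≤ L * 1 := mul_le_mul_of_nonneg_left hρ (by linarith)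
    have e9 : 2 ^ s * (8 * δ') ≤ K := by
      have h1 : 2 ^ s * (8 * δ') * 1 ≤ 2 ^ s * (8 * δ') * (1 + 2 * L) :=
        mul_le_mul_of_nonneg_left (by linarith) (by have := H.hδ'; positivity)
      nlinarith
    have e10 : 2 ^ s * (8 * δ') * (B₀ + 1 + L) ≤ K * (B₀ + 1 + L) :=
      mul_le_mul_of_nonneg_right e9 (by linarith)
    have e11 : L * 1 ≤ L * K := mul_le_mul_of_nonneg_left hK (by linarith)
    have e12 : K * 1 ≤ K * L := mul_le_mul_of_nonneg_left hL (by linarith)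
    have e13 : 0 ≤ K * B₀ := by positivity
    nlinarith
  · have h := bG 0 (by norm_num) 1 (Or.inl rfl)
    unfold Yc
    rw [abs_mul] at h ⊢
    rw [abs_mul] at h ⊢
    rw [abs_of_pos (by norm_num : (0 : ℝ) < 4)] at h
    rw [abs_of_pos (by norm_num : (0 : ℝ) < 2)]
    have h0 := mul_nonneg (abs_nonneg ((2 : ℝ) ^ g 3 / 2 ^ g 0)) (abs_nonneg ((G 0).coeff 1))
    linarith
  · intro i
    have h := dG (i.1 + 1) (by omega) 1 (Or.inl ⟨rfl, by omega⟩)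
    unfold Ac
    rw [← mul_sub, ← mul_sub]
    rw [abs_mul] at h ⊢
    rw [abs_mul] at h ⊢
    rw [abs_of_pos (by norm_num : (0 : ℝ) < 4)] at h
    rw [abs_of_pos (by norm_num : (0 : ℝ) < 2)]
    have h0 := mul_nonneg (abs_nonneg ((2 : ℝ) ^ g 3 / 2 ^ g (i.1 + 1)))
      (abs_nonneg ((G (i.1 + 1)).coeff 1 - (G₀ (i.1 + 1)).coeff 1))
    linarith
  · have h := dG 0 (by norm_num) 2 (Or.inr ⟨rfl, rfl⟩)
    unfold Tc
    rw [← mul_sub, ← mul_sub]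
    exact h
  · rw [hX, hX₀]
    exact dE
  · have h1 := hr 1 (by norm_num)
    have e1 : yr F c g W ψ p z ω - yr F c g W ψ p z ω₀ = yn F c g W ψ ω - yn F c g W ψ ω₀ := by
      unfold yr
      rw [hz]
      ring
    rw [e1, hw, hw₀]
    exact h1

/-- A cell of a number which is near another number, up to a function of the condition. -/
theorem CH_near {Ω T : Type} [Fintype Ω] {p : Ω → ℝ} (hp : IsLaw p) (x x₁ : Ω → ℝ) (Z : Ω → T)
    (φ : T → ℝ) {K : ℕ} (h : ∀ ω, 0 < p ω → |x ω - (x₁ ω + φ (Z ω))| ≤ K) :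
    CH p (fun ω => ⌊x ω⌋) Z ≤ CH p (fun ω => ⌊x₁ ω⌋) Z + Real.log (2 * (2 * K + 2 : ℕ) + 1) := by
  have h0 := hp.nonneg
  have a1 := CH_le_add h0 (fun ω => ⌊x ω⌋) (fun ω => ⌊x₁ ω⌋) Z
  have a2 : CH p (fun ω => ⌊x ω⌋) (fun ω => (⌊x₁ ω⌋, Z ω)) ≤
      Real.log (2 * (2 * K + 2 : ℕ) + 1) := by
    refine Pool.OWN68.CH_pair hp _ _ fun ω ω' hω hω' hZ => ?_
    simp only [Prod.mk.injEq] at hZ
    have h1 := h ω hω
    have h2 := h ω' hω'
    rw [← hZ.2] at h2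
    have h3 := (Int.abs_sub_lt_one_of_floor_eq_floor hZ.1).le
    have h4 := flr1 (x ω)
    have h5 := flr1 (x ω')
    have h6 : |((⌊x ω⌋ - ⌊x ω'⌋ : ℤ) : ℝ)| ≤ ((2 * K + 3 : ℕ) : ℝ) := by
      push_cast
      rw [abs_le] at h1 h2 h3 h4 h5 ⊢
      constructor <;> linarith [h1.1, h1.2, h2.1, h2.2, h3.1, h3.2, h4.1, h4.2, h5.1, h5.2]
    have h7 : |((⌊x ω⌋ - ⌊x ω'⌋ : ℤ) : ℝ)| < ((2 * K + 3 : ℕ) : ℝ) := by
      push_cast
      have g1 := Int.lt_floor_add_one (x ω)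
      have g2 := Int.floor_le (x ω)
      have g3 := Int.lt_floor_add_one (x ω')
      have g4 := Int.floor_le (x ω')
      rw [abs_le] at h1 h2 h3
      rw [abs_lt]
      constructor <;> linarith [h1.1, h1.2, h2.1, h2.2, h3.1, h3.2]
    have h8 : |⌊x ω⌋ - ⌊x ω'⌋| < ((2 * K + 3 : ℕ) : ℤ) := by exact_mod_cast h7
    have h9 : ((2 * K + 3 : ℕ) : ℤ) = ((2 * K + 2 : ℕ) : ℤ) + 1 := by push_cast; ring
    rw [h9] at h8
    exact Int.lt_add_one_iff.1 h8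
  linarith

/-- **Few**: the number of the own line is few given `z`, `e`. -/
theorem few_re {hD : ∀ s, (Ht s).totalDegree ≤ D}
    (H : ReH F c g g' W n D a' k k' e₀ e₁ n' s V ψ ψ' ψH ψH' Ht B z e δ δ₁ δ' Kn L K B₀)
    {p : F.Ω → ℝ} (hp : IsLaw p) (hB : ∀ ω, 0 < p ω → B ω) {N : ℕ}
    (hN : 12 * K * (L + B₀) ≤ N) {e1 : ℝ}
    (few : CH p (fun ω => ⌊2 ^ (s + g 3 + 2) * Pool.X31.nw (fdat F c g W n 3 D ψH Ht hD SV SE SG) W
      (rfv p (fun ω => z (slam F W ω)) (fun ω => e (slam F W ω))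
        (fun ω l => (fdat F c g W n 3 D ψH Ht hD SV SE SG).P l (slam F W ω))
        (z (slam F W ω)) (e (slam F W ω))) ω⌋)
      (fun ω => (e (slam F W ω), z (slam F W ω))) ≤ e1) :
    CH p (fun ω => ⌊2 ^ s * bR (En F c g W ψ) (tn F W) (yr F c g W ψ p z) (Tn F c g W n ψH Ht)
      (An F c g W n ψH Ht) (Vn F c g W ψ) ω⌋) (fun ω => (e (slam F W ω), z (slam F W ω))) ≤
      e1 + Real.log (2 * (2 * N + 2 : ℕ) + 1) := by
  classical
  have h1 := CH_near hp (fun ω => 2 ^ s * bR (En F c g W ψ) (tn F W) (yr F c g W ψ p z)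
      (Tn F c g W n ψH Ht) (An F c g W n ψH Ht) (Vn F c g W ψ) ω)
    (fun ω => 2 ^ (s + g 3 + 2) * Pool.X31.nw (fdat F c g W n 3 D ψH Ht hD SV SE SG) W
      (rfv p (fun ω => z (slam F W ω)) (fun ω => e (slam F W ω))
        (fun ω l => (fdat F c g W n 3 D ψH Ht hD SV SE SG).P l (slam F W ω))
        (z (slam F W ω)) (e (slam F W ω))) ω)
    (fun ω => (e (slam F W ω), z (slam F W ω)))
    (fun y => 2 ^ s * rfv p (fun ω => z (slam F W ω)) (fun ω => e (slam F W ω))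
      (bR (En F c g W ψ) (tn F W) (yr F c g W ψ p z) (Tn F c g W n ψH Ht)
      (An F c g W n ψH Ht) (Vn F c g W ψ)) y.2 y.1) (K := N) ?_
  · linarith
  · intro ω hω
    have h : ∃ ω', 0 < p ω' ∧ z (slam F W ω') = z (slam F W ω) ∧
      e (slam F W ω') = e (slam F W ω) := ⟨ω, hω, rfl, rfl⟩
    have key := cnv_re (SV := SV) (SE := SE) (SG := SG) (hD := hD) H hB hω h.choose_spec.1
      h.choose_spec.2.1.symm h.choose_spec.2.2.symm
    have e1 : rfv p (fun ω => z (slam F W ω)) (fun ω => e (slam F W ω))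
        (fun ω l => (fdat F c g W n 3 D ψH Ht hD SV SE SG).P l (slam F W ω))
        (z (slam F W ω)) (e (slam F W ω)) = fun l =>
          (fdat F c g W n 3 D ψH Ht hD SV SE SG).P l (slam F W h.choose) := by
      unfold rfv
      rw [dif_pos h]
    have e2 : rfv p (fun ω => z (slam F W ω)) (fun ω => e (slam F W ω))
        (bR (En F c g W ψ) (tn F W) (yr F c g W ψ p z) (Tn F c g W n ψH Ht)
          (An F c g W n ψH Ht) (Vn F c g W ψ)) (z (slam F W ω)) (e (slam F W ω)) =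
        bR (En F c g W ψ) (tn F W) (yr F c g W ψ p z) (Tn F c g W n ψH Ht)
          (An F c g W n ψH Ht) (Vn F c g W ψ) h.choose := by
      unfold rfv
      rw [dif_pos h]
    rw [e1, e2]
    exact key.trans hN

end prr

end Pool.D2N
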