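import Pool.Agent.H90.D2.Hhg

/-!
# The hop cell: one block from the data of the windows

`WnD`: a chain window with its frame and its ball. `HbM`: the numbers of a block. `hop_win`: one
block, from the data of the windows.
-/

set_option autoImplicit false

namespace Pool.D2N

open Finset Real MvPolynomial
open Pool.Agent.H49.Ent Pool.Agent.H32.Dense Pool.STK Pool.KA Pool.KSAT Pool.K2S Pool.PB Pool.S6C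
open Pool.GEN Pool.CHT Pool.CHX Pool.LA91
open Pool.LBT (ThrOf)
open Pool.ALL (RateOf)
open Pool.D2F Pool.D2Z Pool.D2F2
open Pool.D2R (dd hs co co_slam ROutB)
open Pool.F5 (NatH)
open Pool.ISO (Clsd)
open Pool.X31 (nw)
open Pool.M3F (ExvY)

variable {m J : ℕ}

/-- **A chain window** with its frame and its ball. -/
structure WnD (F : Fam m J) (c : ℕ → Fin m) (D a x e : ℕ) (g : ℕ → ℕ) (B : F.Ω → Prop)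
    (ψ : PtT F → ℕ → Option (Fin m) → ℝ) (ψH : LnT F → ℕ → Option (Fin m) → ℝ)
    (Sv : PtT F → ℕ → Option (Fin m) → ℝ)
    (G : PtT F → ℕ → MvPolynomial (Option (Fin m)) ℝ)
    (H : LnT F → ℕ → MvPolynomial (Option (Fin m)) ℝ) : Prop where
  bl : Blw F c a x e g B ψ ψH Sv G H
  ch : ChOK F c 4 (fun _ => D) a a e g B G H
  cl : Clsd F 4 a B G H
  vel : ROutB F c 3 a x g B G H

variable {F : Fam m J} {c : ℕ → Fin m} {D a x e : ℕ} {g : ℕ → ℕ} {B : F.Ω → Prop}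
    {ψ : PtT F → ℕ → Option (Fin m) → ℝ} {ψH : LnT F → ℕ → Option (Fin m) → ℝ}
    {Sv : PtT F → ℕ → Option (Fin m) → ℝ}
    {G : PtT F → ℕ → MvPolynomial (Option (Fin m)) ℝ}
    {H : LnT F → ℕ → MvPolynomial (Option (Fin m)) ℝ}

/-- The structure `Cw` relative to a base window. -/
theorem WnD.cw (h : WnD F c D a x e g B ψ ψH Sv G H) {w : ℕ} {g₂ : ℕ → ℕ} (wa : w ≤ a)
    (l0 : ∀ l ≤ 3, a + g₂ l ≤ g l + w + x) (l1 : ∀ l ≤ 3, ∀ j < l, g j + g₂ l ≤ g l + g₂ j + x) :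
    Cw F c D w a e x g₂ g B G H Sv where
  Wa := wa
  aJ := h.bl.aJ
  nr := h.bl.ng
  ch := h.ch
  cl := h.cl
  vel := h.vel
  nat := h.bl.nat
  l0 := l0
  l1 := l1

/-- **The numbers of one block**, all of them. -/
structure HbM (J x K e₀ s sg q q₀ q₁ Q Mg Mg₀ Mo Ma Mb Md w₀ w o W b a₂ a' : ℕ)
    (g₁ g₂ go g gb gd g' : ℕ → ℕ) : Prop where
  nm : HbN J x K e₀ s sg q q₀ q₁ Q Mg w₀ w o W b a₂ a' g₁ g₂ go g gb gd g'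
  hp0 : HpN x 0 Mg₀ w₀ w b a' g₁ g₂ gb g'
  lo : ∀ l ≤ 3, o + g₂ l ≤ go l + w + x
  lo' : ∀ l ≤ 3, ∀ j < l, go j + g₂ l ≤ go l + g₂ j + x
  lW : ∀ l ≤ 3, W + g₂ l ≤ g l + w + x
  lW' : ∀ l ≤ 3, ∀ j < l, g j + g₂ l ≤ g l + g₂ j + x
  lb : ∀ l ≤ 3, b + g₂ l ≤ gb l + w + x
  lb' : ∀ l ≤ 3, ∀ j < l, gb j + g₂ l ≤ gb l + g₂ j + x
  ld : ∀ l ≤ 3, a₂ + g₂ l ≤ gd l + w + x
  ld' : ∀ l ≤ 3, ∀ j < l, gd j + g₂ l ≤ gd l + g₂ j + x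
  Mo1 : ∀ j < 3, go j ≤ g₂ j + Mo
  Mo2 : g₂ 3 + sg + Mo ≤ go 3
  Ma1 : ∀ j < 3, g j ≤ g₂ j + Ma
  Ma2 : g₂ 3 + sg + Ma ≤ g 3
  Mb1 : ∀ j < 3, gb j ≤ g₂ j + Mb
  Mb2 : g₂ 3 + sg + Mb ≤ gb 3
  Md1 : ∀ j < 3, g' j ≤ g₂ j + Md
  Md2 : g₂ 3 + sg + Md ≤ g' 3
  j1 : ∀ l < 3, e₀ + g₂ l + (Q + 3) ≤ J
  j2 : e₀ + g₂ 3 + (q + sg) ≤ J
  kx : 150 * x ≤ K
  kx' : 13 * (x + 1) ≤ K

/-- **The numbers for slopes at most two** of the rough coordinates. -/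
structure HbN2 (x s sg w₀ w W : ℕ) (g₁ g₂ g : ℕ → ℕ) : Prop where
  b2 : g 3 + g₁ 0 ≤ g₁ 3 + g 0 + 2 * (W - w₀) + x
  s0 : g 3 + g₁ 0 + (s + 300 * x) ≤ g₁ 3 + g 0 + 3 * (W - w₀)
  c2 : g₂ 3 + g₁ 0 + (sg + 300 * x) ≤ g₁ 3 + g₂ 0 + 3 * (w - w₀)
  c3 : g₂ 3 + g₁ 0 ≤ g₁ 3 + g₂ 0 + 2 * (w - w₀) + x
  d2 : g 3 + g₂ 0 + s ≤ g₂ 3 + g 0 + sg + 2 * (W - w) + x

section blk

variable {K e₀ s sg q q₀ q₁ Q Mg Mg₀ Mo Ma Mb Md w₀ w o W b a₂ a' : ℕ}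
    {g₁ g₂ go gb gd g' gT : ℕ → ℕ} {v v' p e' : ℕ} {U : ℝ}
    {ψ₁ ψ₂ ψo ψ' ψd : PtT F → ℕ → Option (Fin m) → ℝ}
    {ψH₁ ψH₂ ψHo ψH' ψHd : LnT F → ℕ → Option (Fin m) → ℝ}
    {Go Ga Gc Gd G' : PtT F → ℕ → MvPolynomial (Option (Fin m)) ℝ}
    {Ho Ha Hc Hd H' : LnT F → ℕ → MvPolynomial (Option (Fin m)) ℝ}
    {T : PtT F → ℕ → MvPolynomial (Option (Fin m)) ℝ}
    {TH : LnT F → ℕ → MvPolynomial (Option (Fin m)) ℝ}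
    {Ht : LnT F → MvPolynomial (Option (Fin m)) ℝ}

/-- **The coefficients of order at least two**, slopes at most two. -/
theorem coh_of (N : HbM J x K e₀ s sg q q₀ q₁ Q Mg Mg₀ Mo Ma Mb Md w₀ w o W b a₂ a' g₁ g₂ go g
      gb gd g') (N2 : HbN2 x s sg w₀ w W g₁ g₂ g) (hc : Set.InjOn c (Set.Iio 3)) (hW : W ≤ J)
    (hDx : ((D : ℝ) + 1) * 2 ^ D ≤ 2 ^ x) (h₁ : WFr F c 4 w₀ x e₀ g₁ B ψ₁ ψH₁ Sv)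
    (h₂ : WFr F c 4 w x e₀ g₂ B ψ₂ ψH₂ Sv) (hA : WFr F c 4 W x e₀ g B ψ ψH Sv)
    (hQ : ∀ s, DepC c 3 (Ht s)) (hdeg : ∀ s, (Ht s).totalDegree ≤ D)
    (hM : ∀ ω, B ω → ∀ i < 3, ∀ j, |(gq F c g₁ w₀ 0 ψH₁ Ht (slam F w₀ ω) i).coeff (j + 1)| ≤
      2 ^ x / 2 ^ g₁ 3 * 2 ^ g₁ i) : CoH F c s x sg w₀ w W g₂ g ψH₂ ψH Ht B where
  bw := co0_of N.nm.bs.x1 N.nm.bs.wB N.nm.bs.up N.nm.bs.upj N2.c3 N2.c2 hc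
    (N.nm.bk.wW.trans hW) hDx h₁ h₂ le_rfl le_rfl hQ hdeg hM
  bW := co0_of N.nm.hp.x1 N.nm.hp.wW N.nm.hp.up N.nm.hp.upj N2.b2 N2.s0 hc hW hDx h₁ hA le_rfl
    le_rfl hQ hdeg hM
  d2 := Or.inl N2.d2

/-- **The structures of the block**, from the data of the windows. -/
theorem blk_of (N : HbM J x K e₀ s sg q q₀ q₁ Q Mg Mg₀ Mo Ma Mb Md w₀ w o W b a₂ a' g₁ g₂ go g
      gb gd g') (hc : Set.InjOn c (Set.Iio 3)) (hD2 : 2 ≤ D)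
    (hDx : ((D : ℝ) + 1) * 2 ^ D ≤ 2 ^ x) (h₁ : WFr F c 4 w₀ x e₀ g₁ B ψ₁ ψH₁ Sv)
    (h₂ : WFr F c 4 w x e₀ g₂ B ψ₂ ψH₂ Sv) (ho : WnD F c D o x e₀ go B ψo ψHo Sv Go Ho)
    (hA : WnD F c D W x e₀ g B ψ ψH Sv Ga Ha) (hb : WnD F c D b x e₀ gb B ψ' ψH' Sv Gc Hc)
    (hd : WnD F c D a₂ x e₀ gd B ψd ψHd Sv Gd Hd)
    (hdp : Dpw F c D w₀ a' v v' e' x p g' gT U B G' H' T TH Ht Sv)
    (hQ : ∀ s, DepC c 3 (Ht s)) (hdeg : ∀ s, (Ht s).totalDegree ≤ D)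
    (hM : ∀ ω, B ω → ∀ i < 3, ∀ j, |(gq F c g₁ w₀ 0 ψH₁ Ht (slam F w₀ ω) i).coeff (j + 1)| ≤
      2 ^ x / 2 ^ g₁ 3 * 2 ^ g₁ i) (hC : CoH F c s x sg w₀ w W g₂ g ψH₂ ψH Ht B) :
    P8G F c 3 D w (w - w₀) o W b a₂ K q₀ q sg Mo Ma Mb 1 g₂ go g gb gd ψH₂ ψ₂ Ht hdeg Go Ga Gc
      Gd Hd B ∧
    HbG F c D x e₀ sg w₀ w W b a' g₁ g₂ g gb g' gT K Ma v v' e' p U B ψ₁ ψ₂ ψ ψ'
        Sv ψH₁ ψH₂ ψH ψH' Ga Gc G' Ha Hc H' T TH Ht := by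
  have hwJ : w ≤ J := N.nm.bk.wW.trans hA.bl.aJ
  have hwW := N.nm.bk.wW
  have hWb := N.nm.Wb
  have hQ1 : q₀ ≤ Q := N.nm.p8.Q1
  have hQ2 : q + sg ≤ Q := N.nm.p8.Q2
  have hsz0 := siz_of N.hp0 hc hwJ hD2 hDx h₁ h₂ hb.bl.wf hdp le_rfl le_rfl le_rfl le_rfl hQ hdeg hM
    (hC.bw.le (Nat.zero_le sg)) (fun j hj => by have := N.j1 j hj; omega)
  have hsz : ∀ ω, B ω → ∀ l < 3, ∀ j, 1 ≤ j →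
      |(gq F c g₂ w (w - w₀) ψH₂ Ht (slam F w ω) l).coeff j| ≤ 2 ^ K * (2 ^ g₂ l / 2 ^ g₂ 3) :=
    fun ω hω l hl j hj => (hsz0 ω hω l hl j hj).trans (mul_le_mul_of_nonneg_right
      (pow_le_pow_right₀ (by norm_num) N.kx) (by positivity))
  have hP := p8g_gen (hD := hdeg) N.nm.bs.wB hc h₂ (ho.cw N.nm.wo N.lo N.lo') (hA.cw hwW N.lW N.lW')
    (hb.cw (by omega) N.lb N.lb') (hd.cw N.nm.wa N.ld N.ld') hQ hdp hsz N.Mo1 N.Mo2 N.Ma1 N.Ma2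
    N.Mb1 N.Mb2 N.Md1 N.Md2 N.nm.bk.q0 hQ1 hQ2 (fun l hl => by have := N.j1 l hl; omega) N.j2 N.kx'
  exact ⟨hP, hc, hD2, hDx, h₁, h₂, hA.bl, hb.bl, hdp, hQ, hM, hP.ha⟩

end blk

/-- **One block of the hop cell**, from the data of the windows. -/
theorem hop_win {m : ℕ} {D : ℕ} (hD2 : 2 ≤ D) {h r₀ : ℝ} (hh : 0 < h)
    (hh1 : h ≤ 1) (hr₀ : 0 < r₀) :
    ∃ η₀ : ℝ, 0 < η₀ ∧ ∃ c₀ : ℝ, 0 < c₀ ∧ ∀ {c : ℕ → Fin m}, Set.InjOn c (Set.Iio 4) →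
    (∀ j, j ≠ c 3 → ∃ l < 3, c l = j) → ∀ {θc : ℝ} {S : PCl m}
    {P : List (Fin m) × Fin m → ℝ → ℝ → ℝ}, ThrOf (chsys m θc) S P → TmH S →
    ∀ {w μ η : ℝ}, 0 ≤ w → 0 < μ → w + μ ≤ 1 → 0 < η → η ≤ η₀ * μ →
    ∀ {rt : ℝ → ℝ}, RateOf S (c 3) rt → ∀ {α β : ℝ},
    (∀ y₁ y₃ : ℝ, α ≤ y₁ → y₁ ≤ y₃ → y₃ ≤ β → rt y₃ - rt y₁ ≤ (1 - h) * (y₃ - y₁) + η) →
    ∀ {aR a₂ : ℝ} {I : Finset (Fin m)}, (∀ i ∈ I, ∃ l < 3, c l = i) → ∀ {xV cy : ℝ},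
    ExvY S a₂ (fun J F ω (i : {x // x ∈ I}) => F.X J ω i) xV →
    ExvY S aR (fun J F ω => F.X J ω (c 0)) cy →
    ∀ (a : ℚ) (er : ℝ), 0 ≤ a → a < 1 → aR ≤ a → er < θc * a →
    (∀ j < 4, bet P c j a a + μ / 2 ≤ 1) → ∀ {c₁ : ℝ}, 0 < c₁ →
    Bas S (fun J F A => ∀ B : F.Ω → Prop, Sub B A → c₁ * Pe F.p A ≤ Pe F.p B →
      (∀ G : F.Ω → Prop, Sub G B → Pe F.p B ≤ 2 ^ 40 * Pe F.p G → r₀ * μ * J ≤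
        CH (cond F.p G True) (fun ω => F.D ⌊μ / 2 / 10 ^ 7 * J⌋₊ ω (c 0)) (fun ω => ptr F J ω)) →
      ∀ (x K e₀ s sg q q₀ q₁ Q Mg Mg₀ Mo Ma Mb Md w₀ o b a' v v' e' p : ℕ)
      (g₁ g₂ go g gb gd g' gT : ℕ → ℕ) (U : ℝ)
      (ψ₁ ψ₂ ψo ψ ψ' ψd Sv : PtT F → ℕ → Option (Fin m) → ℝ)
      (ψH₁ ψH₂ ψHo ψH ψH' ψHd : LnT F → ℕ → Option (Fin m) → ℝ)
      (Go Ga Gc Gd G' : PtT F → ℕ → MvPolynomial (Option (Fin m)) ℝ)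
      (Ho Ha Hc Hd H' : LnT F → ℕ → MvPolynomial (Option (Fin m)) ℝ)
      (T : PtT F → ℕ → MvPolynomial (Option (Fin m)) ℝ)
      (TH : LnT F → ℕ → MvPolynomial (Option (Fin m)) ℝ)
      (Ht : LnT F → MvPolynomial (Option (Fin m)) ℝ) (hD : ∀ s, (Ht s).totalDegree ≤ D),
      HbM J x K e₀ s sg q q₀ q₁ Q Mg Mg₀ Mo Ma Mb Md w₀ ⌊w * J⌋₊ o ⌊aR * J⌋₊ b ⌊a₂ * J⌋₊ a' g₁
        g₂ go g gb gd g' →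
      ((D : ℝ) + 1) * 2 ^ D ≤ 2 ^ x →
      WFr F c 4 w₀ x e₀ g₁ B ψ₁ ψH₁ Sv → WFr F c 4 ⌊w * J⌋₊ x e₀ g₂ B ψ₂ ψH₂ Sv →
      WnD F c D o x e₀ go B ψo ψHo Sv Go Ho → WnD F c D ⌊aR * J⌋₊ x e₀ g B ψ ψH Sv Ga Ha →
      WnD F c D b x e₀ gb B ψ' ψH' Sv Gc Hc → WnD F c D ⌊a₂ * J⌋₊ x e₀ gd B ψd ψHd Sv Gd Hd →
      Dpw F c D w₀ a' v v' e' x p g' gT U B G' H' T TH Ht Sv → (∀ s, DepC c 3 (Ht s)) →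
      (∀ ω, B ω → ∀ i < 3, ∀ j, |(gq F c g₁ w₀ 0 ψH₁ Ht (slam F w₀ ω) i).coeff (j + 1)| ≤
        2 ^ x / 2 ^ g₁ 3 * 2 ^ g₁ i) →
      CoH F c s x sg w₀ ⌊w * J⌋₊ ⌊aR * J⌋₊ g₂ g ψH₂ ψH Ht B →
      -- sizes
      ((2000 * (x + K + 1) : ℕ) : ℝ) ≤ η * J → μ / 2 * J ≤ s → (sg : ℝ) ≤ μ * J →
      μ * J ≤ g₂ 3 + (q + sg) → α * J ≤ g₂ 3 + (q + sg) - (μ * J + 1) →
      g₂ 3 + (q + sg) ≤ β * J →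
      (∀ j < 4, bet P c j a a * J + ⌊aR * J⌋₊ ≤ g j + a * J + η * J) →
      e₀ + μ / 2 * J ≤ er * J →
      ∑ l ∈ range 3, ((J - gd l : ℕ) : ℝ) * Real.log 2 ≤ xV * Real.log 2 * J + η * J →
      ((J - (g₂ 0 + q₀) : ℕ) : ℝ) * Real.log 2 ≤ cy * Real.log 2 * J + η * J →
      -- the records
      ∀ (Vo Va Vb : Type) (zo : PtT F → Vo) (zoH : LnT F → Vo) (za : PtT F → Va)
        (zaH : LnT F → Va) (zb : PtT F → Vb) (zbH : LnT F → Vb), Rcd F B o zo zoH →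
      Rcd F B ⌊aR * J⌋₊ za zaH → Rcd F B b zb zbH →
      CH (cond F.p B True)
          (fun ω => (eC (hdt2 F c g₂ ⌊w * J⌋₊ (⌊w * J⌋₊ - w₀) 3 D q₀ q sg ψH₂ Ht hD) ⌊w * J⌋₊
            (g₂ 0 + q₁) ω,
          cG (hdt2 F c g₂ ⌊w * J⌋₊ (⌊w * J⌋₊ - w₀) 3 D q₀ q sg ψH₂ Ht hD) ⌊w * J⌋₊ ω))
          (fun ω => (zo (ptr F J ω), F.W ω)) ≤
        CH (cond F.p B True)
          (fun ω => (eC (hdt2 F c g₂ ⌊w * J⌋₊ (⌊w * J⌋₊ - w₀) 3 D q₀ q sg ψH₂ Ht hD) ⌊w * J⌋₊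
            (g₂ 0 + q₁) ω,
          cG (hdt2 F c g₂ ⌊w * J⌋₊ (⌊w * J⌋₊ - w₀) 3 D q₀ q sg ψH₂ Ht hD) ⌊w * J⌋₊ ω))
          (fun ω => (zb (ptr F J ω), F.W ω)) + η * J →
      (∀ B' : F.Ω → Prop, Sub B' B → c₀ * Pe F.p B ≤ Pe F.p B' →
        ∑ l ∈ Finset.Ico 1 3, ((uu g₂ q₀ q sg l - (g₂ l + D2F2.qv q₀ q l) : ℕ) : ℝ) * Real.log 2 -
            η * J ≤
          CH (cond F.p B' True) (fun ω (l : Fin (3 - 1)) =>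
              Nfd (hdt2 F c g₂ ⌊w * J⌋₊ (⌊w * J⌋₊ - w₀) 3 D q₀ q sg ψH₂ Ht hD) ⌊w * J⌋₊
                (uu g₂ q₀ q sg) (fun l => g₂ l + D2F2.qv q₀ q l) (1 + l) ω)
            (fun ω => (zo (ptr F J ω), (F.W ω, (F.X J ω (c 0),
              cE (hdt2 F c g₂ ⌊w * J⌋₊ (⌊w * J⌋₊ - w₀) 3 D q₀ q sg ψH₂ Ht hD) ⌊w * J⌋₊ ω))))) →
      False) := by
  obtain ⟨η₀, hη₀, c₀, hc₀, hn⟩ := hop_num (m := m) hD2 hh hh1 hr₀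
  refine ⟨η₀, hη₀, c₀, hc₀, ?_⟩
  intro c hc hcc θc S P hP hT w μ η hw hμ hwμ hη hηle rt hrt α β hrow aR a₂ I hI xV cy hxV hcy a
    er ha0 ha1 haR her hbet c₁ hc₁
  refine Bas.mono 0 (hn hc hcc hP hT hw hμ hwμ hη hηle hrt hrow hI hxV hcy a er ha0 ha1 haR her hbet hc₁) ?_
  intro J _ F A hN B hBA hcB act x K e₀ s sg q q₀ q₁ Q Mg Mg₀ Mo Ma Mb Md w₀ o b a' v v' e' p g₁ g₂
    go g gb gd g' gT U ψ₁ ψ₂ ψo ψ ψ' ψd Sv ψH₁ ψH₂ ψHo ψH ψH' ψHd Go Ga Gc Gd G' Ho Ha Hc Hd H' T TH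
    Ht hD N hDx h₁ h₂ ho hA hb hd hdp hQ hM C n1 n2 n3 n4 n5 n6 n7 n8 n9 n10 Vo Va Vb zo zoH za zaH
    zb zbH hzo hza hzb free hnv
  have hc3 : Set.InjOn c (Set.Iio 3) := hc.mono fun i hi => by
    have : i < 3 := hi
    exact Set.mem_Iio.2 (by omega)
  obtain ⟨HP, HG⟩ := blk_of N hc3 hD2 hDx h₁ h₂ ho hA hb hd hdp hQ hD hM C
  exact hN B hBA hcB act x K e₀ s sg q q₀ q₁ Q Mg Mo Ma Mb w₀ o b a' v v' e' p g₁ g₂ go g gb gd g' gT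
    U ψ₁ ψ₂ ψ ψ' Sv ψH₁ ψH₂ ψH ψH' Go Ga Gc Gd G' Ho Ha Hc Hd H' T TH Ht hD N.nm C HG HP n1 n2 n3 n4
    n5 n6 n7 n8 n9 n10 Vo Va Vb zo zoH za zaH zb zbH hzo ho.bl.cls hza hzb free hnv

end Pool.D2N
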