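import Pool.Agent.H90.D2.Hid

/-!
# The block theorem on the grid, slopes at most two

`surj4`, `exvy_mono`, `lvh_of`, `room_of`: small facts. `blkG_le`: the block theorem on the grid for
`1 < κ ≤ 2`, from `hop_win`.
-/

set_option autoImplicit false

namespace Pool.D2N

open Finset Real MvPolynomial
open Pool.Agent.H49.Ent Pool.Agent.H32.Dense Pool.STK Pool.KA Pool.KSAT Pool.K2S Pool.PB Pool.S6C
open Pool.GEN Pool.CHT Pool.CHX Pool.LA91
open Pool.LBT (ThrOf)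
open Pool.ALL (RateOf)
open Pool.D2F Pool.D2Z Pool.D2F2
open Pool.D2R (dd hs co co_slam ROutB ROut1)
open Pool.PKG (RecG Kg kgL)
open Pool.M3F (ExvY)

/-- Four different coordinates are all coordinates. -/
theorem surj4 {c : ℕ → Fin 4} (hc : Set.InjOn c (Set.Iio 4)) (j : Fin 4) : ∃ l < 4, c l = j := by
  have h1 : ((range 4).image c).card = 4 := by
    rw [card_image_of_injOn, card_range]
    intro a ha b hb
    exact hc (by simpa using ha) (by simpa using hb)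
  have h2 : (range 4).image c = univ := (card_eq_iff_eq_univ _).1 (by rw [h1, Fintype.card_fin])
  have h3 : j ∈ (range 4).image c := by rw [h2]; exact mem_univ j
  obtain ⟨l, hl, e⟩ := mem_image.1 h3
  exact ⟨l, mem_range.1 hl, e⟩

/-- The coordinates other than the last one. -/
theorem surj3 {c : ℕ → Fin 4} (hc : Set.InjOn c (Set.Iio 4)) (j : Fin 4) (hj : j ≠ c 3) :
    ∃ l < 3, c l = j := by
  obtain ⟨l, hl, e⟩ := surj4 hc j
  refine ⟨l, ?_, e⟩
  rcases Nat.lt_or_ge l 3 with h | h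
  · exact h
  · have : l = 3 := by omega
    rw [this] at e
    exact absurd e.symm hj

/-- An event of positive probability has a point. -/
theorem ex_of_pe {Ω : Type} [Fintype Ω] {p : Ω → ℝ} {B : Ω → Prop} (h : 0 < Pe p B) : ∃ ω, B ω := by
  classical
  by_contra hcon
  push Not at hcon
  rw [Pe_eq] at h
  rw [Finset.sum_eq_zero fun ω _ => if_neg (hcon ω)] at h
  exact lt_irrefl _ h

/-- Exactness of a finer function. -/
theorem exvy_mono {m : ℕ} {S : PCl m}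
    (hpos : ∀ (τ : ℝ) (J : ℕ) (F : Fam m J) (A : F.Ω → Prop), S.St τ J F A → 0 < Pe F.p A)
    {w : ℝ} {β β' : Type} {Y : ∀ (J : ℕ) (F : Fam m J), F.Ω → β}
    {Y' : ∀ (J : ℕ) (F : Fam m J), F.Ω → β'} {c : ℝ} (h : ExvY S w Y c)
    (hd : ∀ (J : ℕ) (F : Fam m J) (ω ω' : F.Ω), Y' J F ω = Y' J F ω' → Y J F ω = Y J F ω') :
    ExvY S w Y' c := by
  have hp : Bas S (fun _ F A => 0 < Pe F.p A) := ⟨1, one_pos, 0, fun J _ F A h => hpos _ _ _ _ h⟩
  refine Bas.mono 0 (h.and hp) fun J _ F A hA V z z' hz => ?_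
  exact (hA.1 V z z' hz).trans (CH_mono_left (isLaw_cond F.isLaw hA.2).nonneg
    fun ω ω' _ _ e => hd J F ω ω' (Prod.ext_iff.1 e).1)

/-- The levels of the grid, as functions of the windows. -/
theorem lvh_of {Sl : ℕ → ℝ} {κ t q : ℝ} {L : ℕ → ℝ → ℝ → ℝ} {nd J x k : ℕ} {g : ℕ → ℕ}
    (h0 : Sl 0 = 1) (h1 : Sl 1 = κ) (h2 : Sl 2 = κ) (h3 : Sl 3 = κ + 1) (hκ : 1 < κ) (hq : 0 < q)
    (ht : 0 ≤ t)
    (h : ∀ l ≤ 3, 16 * |(g l : ℝ) - (L l t t + Sl l * (k / nd * q)) * J| ≤ x) :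
    LvH Sl (x / 16 + (κ + 1)) (fun l => L l t t * J - Sl l * (t * J)) (wG t q nd J k) g := by
  intro l hl
  have hJ : (0 : ℝ) ≤ J := Nat.cast_nonneg J
  have e1 := h l hl
  have e2 : (wG t q nd J k : ℝ) ≤ (t + k / nd * q) * J := Nat.floor_le (by positivity)
  have e3 : (t + k / nd * q) * J ≤ wG t q nd J k + 1 := (Nat.lt_floor_add_one _).le
  have s : 0 ≤ Sl l ∧ Sl l ≤ κ + 1 := by
    interval_cases l
    · rw [h0]; constructor <;> linarith
    · rw [h1]; constructor <;> linarith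
    · rw [h2]; constructor <;> linarith
    · rw [h3]; constructor <;> linarith
  have e4 := mul_le_mul_of_nonneg_left e2 s.1
  have e5 := mul_le_mul_of_nonneg_left e3 s.1
  have e6 : |(g l : ℝ) - (L l t t + Sl l * (k / nd * q)) * J| ≤ x / 16 := by linarith
  rw [abs_le] at e6 ⊢
  constructor <;> linarith [e6.1, e6.2]

/-- The windows of the grid. -/
theorem wG_near {t q : ℝ} (ht : 0 ≤ t) (hq : 0 ≤ q) (nd J k : ℕ) :
    |(wG t q nd J k : ℝ) - (t + k / nd * q) * J| ≤ 1 := by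
  have hJ : (0 : ℝ) ≤ J := Nat.cast_nonneg J
  have e2 : (wG t q nd J k : ℝ) ≤ (t + k / nd * q) * J := Nat.floor_le (by positivity)
  have e3 : (t + k / nd * q) * J ≤ wG t q nd J k + 1 := (Nat.lt_floor_add_one _).le
  rw [abs_le]
  constructor <;> linarith

/-- The windows of the grid are at most `J`. -/
theorem wG_le {t q : ℝ} {nd J k : ℕ} (hnd : 0 < nd) (hq : 0 ≤ q) (h1 : t + q ≤ 1) (hk : k ≤ nd) :
    wG t q nd J k ≤ J := by
  have hndR : (0 : ℝ) < nd := by exact_mod_cast hnd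
  have h2 : (k : ℝ) / nd ≤ 1 := by
    rw [div_le_one hndR]
    exact_mod_cast hk
  have h3 := mul_le_mul_of_nonneg_right h2 hq
  have h5 : ⌊(t + k / nd * q) * J⌋₊ ≤ ⌊(J : ℝ)⌋₊ := Nat.floor_le_floor
    (mul_le_of_le_one_left (Nat.cast_nonneg J) (by linarith))
  rwa [Nat.floor_natCast] at h5


/-- **The block theorem on the grid**, slopes at most two. -/
theorem blkG_le {κ : ℝ} (hκ : 1 < κ) (hκ2 : κ ≤ 2) : BlkG κ := by
  intro D hD2 h al hh hh1 hal
  obtain ⟨η₀, hη₀, c₀, hc₀, hw⟩ := hop_win (m := 4) hD2 hh hh1 (rAc_pos hal)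
  refine ⟨η₀, hη₀, c₀, hc₀, fun n => ?_⟩
  have hu0 := uP_pos hκ n
  have hu1 := uP_mul hκ n
  obtain ⟨u, hu⟩ : ∃ u, u = uP κ n := ⟨_, rfl⟩
  rw [← hu] at hu0 hu1
  have hu4 : u ≤ 1 / 4 := by
    have := mul_le_mul_of_nonneg_right (oO_ge hκ n) hu0.le
    linarith
  obtain ⟨y₀, hy₀⟩ : ∃ y₀ : ℝ, y₀ = min (η₀ * u) u / 400000 := ⟨_, rfl⟩
  have hy₀0 : 0 < y₀ := by
    rw [hy₀]
    have : 0 < min (η₀ * u) u := lt_min (by positivity) hu0
    positivity
  have hy₀1 : 400000 * y₀ ≤ η₀ * u := by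
    rw [hy₀]
    have := min_le_left (η₀ * u) u
    linarith
  have hy₀2 : 400000 * y₀ ≤ u := by
    rw [hy₀]
    have := min_le_right (η₀ * u) u
    linarith
  refine ⟨u, hu0, y₀, hy₀0, (D + 1) * 2 ^ D + 64, 0, ?_⟩
  intro y A' K' ε nd hy hyy hAK hK8 hε hεy _ hnd S g₀ P θ P₂ θ₂ Eb e₂ c Pt r L T Sl G gg s0 s1 s2 s3
    EX
  refine ⟨if 0 < g₀ (min (al / 2) (1 / 2)) then min 1 (g₀ (min (al / 2) (1 / 2))) else 1, ?_, ?_⟩
  · split_ifs with h1
    · exact lt_min one_pos h1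
    · exact one_pos
  intro K₀ S₀ N A V S₂ N' V' q t hq2 R RL hG
  have hg₀ : 0 < g₀ (min (al / 2) (1 / 2)) := R.g₀pos _ (lt_min (by linarith) (by norm_num))
  rw [if_pos hg₀] at hq2
  have hq := R.q0
  have hq1 : q < 1 := hq2.trans_le (min_le_left _ _)
  have hqg : q ≤ g₀ (min (al / 2) (1 / 2)) := (hq2.trans_le (min_le_right _ _)).le
  refine ⟨u, le_rfl, hu1.le, fun {c₁} hc₁ => ?_⟩
  have hndR : (0 : ℝ) < nd := by exact_mod_cast hnd
  have hc4 : Set.InjOn c (Set.Iio 4) := R.inj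
  have hoff := fun (i : ℕ) (hi : i < n) => off_le hκ hu0.le hi hu1.le
  obtain ⟨μ, hμ⟩ : ∃ μ : ℝ, μ = u * q := ⟨_, rfl⟩
  have hμ0 : 0 < μ := by rw [hμ]; positivity
  have hμq : μ ≤ q := by
    rw [hμ]
    exact mul_le_of_le_one_left hq.le (by linarith)
  have hyq : y * q * 400000 ≤ η₀ * μ := by
    have := mul_le_mul_of_nonneg_right (show y * 400000 ≤ η₀ * u by linarith) hq.le
    rw [hμ]
    linarith
  have hyu : y * q * 400000 ≤ μ := by
    have := mul_le_mul_of_nonneg_right (show y * 400000 ≤ u by linarith) hq.le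
    rw [hμ]
    linarith
  have hεq : ε * q ≤ y * q := mul_le_mul_of_nonneg_right hεy hq.le
  have hyq0 : 0 < y * q := by positivity
  have hW3 := R.tg 3 (by norm_num) (by norm_num)
  -- the grid points
  have hfr : ∀ k ≤ nd, (k : ℝ) / nd ≤ 1 := fun k hk => by
    rw [div_le_one hndR]
    exact_mod_cast hk
  have hfq : ∀ k ≤ nd, 0 ≤ (k : ℝ) / nd * q ∧ (k : ℝ) / nd * q ≤ q := fun k hk =>
    ⟨by positivity, by
      have := mul_le_mul_of_nonneg_right (hfr k hk) hq.le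
      linarith⟩
  -- the blocks
  have hgw : gP u nd 0 ≤ nd := gP_le1 (by linarith)
  have hgA : ∀ i < n, gP u nd (oA κ i) ≤ nd := fun i hi => gP_le1 (by linarith [(hoff i hi).2.1])
  have hgD : ∀ i < n, gP u nd (oD κ i) ≤ nd := fun i hi =>
    gP_le1 (by linarith [(hoff i hi).2.2.2])
  have ht0 : 0 < t := by linarith [RL.qt]
  have htq : t + 2 * q < 1 := by
    have h1 := RL.At
    have h2 := mul_le_mul_of_nonneg_right RL.A3 hq.le
    linarith
  have hrat := fun k (hk : k ≤ 2 * nd) => RL.rat k hk (y * q) hyq0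
  have hW : ∃ W : ℕ → ℚ, ∀ k ≤ 2 * nd, t + k / nd * q ≤ W k ∧ (W k : ℝ) ≤ t + A' * q ∧
      ∀ l ≤ 3, bet (P₂ 3) c l (W k) (W k) ≤ L l (t + k / nd * q) (t + k / nd * q) + y * q := by
    refine ⟨fun k => if hk : k ≤ 2 * nd then Classical.choose (hrat k hk) else 0, fun k hk => ?_⟩
    beta_reduce
    rw [dif_pos hk]
    exact Classical.choose_spec (hrat k hk)
  obtain ⟨W, hW⟩ := hW
  have hall := Bas.all n (fun i hi => hw hc4 (surj3 hc4) hW3.thr₂ R.tmh
    (w := t + (gP u nd 0 : ℕ) / nd * q) (μ := μ) (η := η₀ * μ) (by linarith [(hfq _ hgw).1]) hμ0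
    (by linarith [(hfq _ hgw).2]) (by positivity) le_rfl (rt := r) R.rate
    (α := L 3 t t - K' * q) (β := L 3 t t + K' * q) (fun y₁ y₃ h1 h2 h3 => by
      have h4 := R.row y₁ y₃ (by
        show |y₁ - L 3 t t| ≤ K' * q
        rw [abs_le]
        constructor <;> linarith) (by
        show |y₃ - L 3 t t| ≤ K' * q
        rw [abs_le]
        constructor <;> linarith) h2
      linarith)
    (aR := t + (gP u nd (oA κ i) : ℕ) / nd * q) (a₂ := t + (gP u nd (oD κ i) : ℕ) / nd * q)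
    (I := (range 3).image c) (fun j hj => by
      obtain ⟨l, hl, e⟩ := mem_image.1 hj
      exact ⟨l, mem_range.1 hl, e⟩)
    (xV := (∑ j : Fin 3, (1 - L j (t + (gP u nd (oD κ i) : ℕ) / nd * q)
      (t + (gP u nd (oD κ i) : ℕ) / nd * q))) - y * q)
    (cy := (1 - L 0 (t + (gP u nd (oA κ i) : ℕ) / nd * q)
      (t + (gP u nd (oA κ i) : ℕ) / nd * q)) - y * q)
    (exvy_mono R.pos (EX.all _ (hG _ (hgD i hi)) _ hyq0) fun J F ω ω' e => by
      funext l
      have := congrFun e ⟨c l, mem_image_of_mem c (mem_range.2 l.2)⟩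
      exact this)
    (EX.fst _ (hG _ (hgA i hi)) _ hyq0)
    (W (gP u nd (oA κ i))) (e₂ 3) (by
      have h1 := (hW _ (show gP u nd (oA κ i) ≤ 2 * nd by linarith [hgA i hi])).1
      have h2 : (0 : ℝ) ≤ W (gP u nd (oA κ i)) := by linarith [(hfq _ (hgA i hi)).1]
      exact_mod_cast h2) (by
      have h1 := (hW _ (show gP u nd (oA κ i) ≤ 2 * nd by linarith [hgA i hi])).2.1
      have h2 : (W (gP u nd (oA κ i)) : ℝ) < 1 := by linarith [RL.At]
      exact_mod_cast h2)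
    (hW _ (show gP u nd (oA κ i) ≤ 2 * nd by linarith [hgA i hi])).1 (by
      have h1 := hW _ (show gP u nd (oA κ i) ≤ 2 * nd by linarith [hgA i hi])
      exact RL.eθ _ (by linarith [(hfq _ (hgA i hi)).1, h1.1]) h1.2.1)
    (fun j hj => by
      have h1 := (hW _ (show gP u nd (oA κ i) ≤ 2 * nd by linarith [hgA i hi])).2.2 j (by omega)
      have h2 := (RL.lo j (by omega) _ (show gP u nd (oA κ i) ≤ 2 * nd by linarith [hgA i hi])).2
      have h3 := RL.Eb0
      linarith) hc₁)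
  obtain ⟨s', d', e', K₁, N₁, hX⟩ := R.clx
  have hact := act_lin hX hal R.c0 hμ0 (by linarith) (by linarith)
    (c₁ := c₁ / 2 ^ 40) (by positivity)
  have hpos : Bas S (fun _ F A => 0 < Pe F.p A) := ⟨1, one_pos, 0, fun J _ F A h => R.pos _ _ _ _ h⟩
  refine Bas.mono 0 ((hall.and hact).and hpos) ?_
  rintro J - F A ⟨⟨hall, hact⟩, hA0⟩ B hBA hcB x e₀ g ψ ψH Sv G' H Ht hD hX₀ hx hmesh he₀ hlv' - HD
  have hlv : ∀ k ≤ nd, ∀ l ≤ 3, 16 * |(g k l : ℝ) - (L l t t + Sl l * (k / nd * q)) * J| ≤ x :=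
    fun k hk l hl => by
      have h1 := hlv' k hk l hl
      have h2 : 0 ≤ κ * |(g k l : ℝ) - (L l t t + Sl l * (k / nd * q)) * J| := by positivity
      linarith
  have hJ0 : (0 : ℝ) ≤ J := Nat.cast_nonneg J
  have hJ1 : (1 : ℝ) ≤ x := by
    have : 1 ≤ x := by omega
    exact_mod_cast this
  have hx64 : (64 : ℝ) ≤ x := by
    have : 64 ≤ x := by omega
    exact_mod_cast this
  have hM : 1300 * (x : ℝ) ≤ u * q * J := by
    have h1 := mul_le_mul_of_nonneg_right hyu hJ0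
    rw [hμ] at h1
    have : 0 ≤ y * q * J := by positivity
    linarith
  have hx₀ : 8 * ((x : ℝ) / 16 + (κ + 1)) ≤ x := by linarith
  have hLv := fun k (hk : k ≤ nd) => lvh_of (x := x) s0 s1 s2 s3 hκ hq ht0.le (hlv k hk)
  have hSl : ∀ l ≤ 3, 0 ≤ Sl l ∧ Sl l ≤ κ + 1 := fun l hl => by
    interval_cases l
    · rw [s0]; constructor <;> linarith
    · rw [s1]; constructor <;> linarith
    · rw [s2]; constructor <;> linarith
    · rw [s3]; constructor <;> linarith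
  have hlv1 : ∀ k ≤ nd, ∀ l ≤ 3, (L l t t + Sl l * (k / nd * q)) * J - x / 16 ≤ g k l ∧
      (g k l : ℝ) ≤ (L l t t + Sl l * (k / nd * q)) * J + x / 16 := fun k hk l hl => by
    have h1 := hlv k hk l hl
    have h2 : |(g k l : ℝ) - (L l t t + Sl l * (k / nd * q)) * J| ≤ x / 16 := by linarith
    have := abs_le.1 h2
    constructor <;> linarith
  have hroom : ∀ k ≤ nd, ∀ l ≤ 3, e₀ + g k l + (⌊u * q * J⌋₊ + x + 5) ≤ J := by
    intro k hk l hl
    have h1 := (hlv1 k hk l hl).2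
    have h2 := hW3.room l hl t (by
      rw [sub_self, abs_zero]
      have : 0 ≤ K' := by linarith
      positivity)
    have h3 : Sl l * (k / nd * q) ≤ (κ + 1) * q :=
      mul_le_mul (hSl l hl).2 (hfq k hk).2 (hfq k hk).1 (by linarith)
    have h4 : (⌊u * q * J⌋₊ : ℝ) ≤ u * q * J := Nat.floor_le (by positivity)
    have h5 := mul_le_mul_of_nonneg_right hK8 hq.le
    have h6 : (Eb 3 + 2 * y * q + (L l t t + Sl l * (k / nd * q)) + u * q + 2 * (y * q)) * J ≤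
        1 * J := by
      refine mul_le_mul_of_nonneg_right ?_ hJ0
      rw [← hμ]
      have : 0 < κ * q := by positivity
      linarith
    have h7 : ((e₀ + g k l + (⌊u * q * J⌋₊ + x + 5) : ℕ) : ℝ) ≤ (J : ℕ) := by
      push_cast
      linarith
    exact_mod_cast h7
  have hnum := fun {i : ℕ} (hi : i < n) {q₁ : ℕ} (hq₁ : q * J / 2 ≤ q₁) =>
    hbm_grid s0 s1 s2 s3 hκ hκ2 (n := n) hu0 hu1.le hi hnd
    hq.le (v := wG t q nd J) (fun k _ => wG_near ht0.le hq.le nd J k) hLv (by positivity) hx₀ hmesh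
    hM hq₁ (fun k hk => wG_le hnd hq.le (by linarith) hk) hroom
  have hc3 : Set.InjOn c (Set.Iio 3) := hc4.mono fun j hj => by
    rw [Set.mem_Iio] at hj ⊢
    omega
  have hDx : ((D : ℝ) + 1) * 2 ^ D ≤ 2 ^ x := by
    have h1 : (D + 1) * 2 ^ D ≤ 2 ^ x :=
      (show (D + 1) * 2 ^ D ≤ x by omega).trans Nat.lt_two_pow_self.le
    exact_mod_cast h1
  refine ⟨B, fun _ h => h, ?_, fun hn => ?_, ?_⟩
  · exact le_mul_of_one_le_left (Pe_nonneg F.isLaw B) (one_le_pow₀ (by norm_num))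
  · obtain ⟨Mg, Mg₀, Mo, Ma, Mb, Md, Nm, N2⟩ := hnum hn (Nat.le_ceil (q * J / 2))
    exact (coh_of Nm N2 hc3 (wG_le hnd hq.le (by linarith) (hgA 0 hn)) hDx
      (HD.wn 0 (Nat.zero_le _)).bl.wf (HD.wn _ hgw).bl.wf (HD.wn _ (hgA 0 hn)).bl.wf HD.hQ hD
      HD.hM).bw.le (Nat.zero_le _)
  intro q₁ i hi hq₁ hq₁' Vo Vb zo zoH zb zbH hzo hzb fre hnv
  obtain ⟨Mg, Mg₀, Mo, Ma, Mb, Md, Nm, N2⟩ := hnum hi hq₁
  have hB0 : 0 < Pe F.p B := (mul_pos hc₁ hA0).trans_le hcB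
  obtain ⟨ω₀, hω₀⟩ := ex_of_pe hB0
  obtain ⟨Va, za, zaH, hza⟩ := rcd_ex F ⟨ω₀, hω₀⟩ (wG t q nd J (gP u nd (oA κ i)))
  obtain ⟨v, v', e'', p, gT, U, T', TH, hdp⟩ := HD.dp
  have hgO : gP u nd (oO κ i) ≤ nd := gP_le1 (by linarith [(hoff i hi).1])
  have hgB : gP u nd (oO κ (i + 1)) ≤ nd := gP_le1 (by linarith [(hoff i hi).2.2.1])
  have hco := coh_of Nm N2 hc3 (wG_le hnd hq.le (by linarith) (hgA i hi)) hDx
    (HD.wn 0 (Nat.zero_le _)).bl.wf (HD.wn _ hgw).bl.wf (HD.wn _ (hgA i hi)).bl.wf HD.hQ hD HD.hM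
  -- the numbers
  have hMJ : μ * J = u * q * J := by rw [hμ]
  have hsgM : (⌊u * q * J⌋₊ : ℝ) ≤ u * q * J := Nat.floor_le (by positivity)
  obtain ⟨-, hqs, -, -⟩ := nQ_bd (i := i) hκ hM (by omega : 1 ≤ x)
  have hqs2 : κ * oO κ i * (u * q * J) ≤ κ / 2 * q * J := by
    have h1 : κ * (oO κ i * u) ≤ κ * (1 / 2) :=
      mul_le_mul_of_nonneg_left (hoff i hi).1 (by linarith)
    have h2 := mul_le_mul_of_nonneg_right h1 (show 0 ≤ q * J by positivity)
    linarith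
  have hqJ0 : 0 ≤ q * J := by positivity
  have hκqJ : 0 ≤ κ * q * J := by positivity
  have hKqJ : (2 * κ + 8) * q * J ≤ K' * q * J := by
    have := mul_le_mul_of_nonneg_right (mul_le_mul_of_nonneg_right hK8 hq.le) hJ0
    exact this
  have hμJ : μ * J ≤ q * J := mul_le_mul_of_nonneg_right hμq hJ0
  have hL3 := hlv1 _ hgw 3 le_rfl
  rw [s3] at hL3
  have hkw := hfq _ hgw
  have hkw1 : 0 ≤ (κ + 1) * ((gP u nd 0 : ℕ) / nd * q) * J := by
    have := hkw.1
    positivity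
  have hkw2 : (κ + 1) * ((gP u nd 0 : ℕ) / nd * q) * J ≤ (κ + 1) * q * J :=
    mul_le_mul_of_nonneg_right (mul_le_mul_of_nonneg_left hkw.2 (by linarith)) hJ0
  have hL0 := (RL.lo 3 le_rfl 0 (Nat.zero_le _)).1
  simp only [Nat.cast_zero, zero_div, zero_mul, add_zero] at hL0
  have hL0J : t * J ≤ L 3 t t * J := mul_le_mul_of_nonneg_right hL0 hJ0
  have htJ : q * J ≤ t * J := mul_le_mul_of_nonneg_right RL.qt hJ0
  have hu4q : 4 * (u * q * J) ≤ q * J := by
    have := mul_le_mul_of_nonneg_right hu4 hqJ0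
    linarith
  refine hall i hi B hBA hcB (fun G₁ hG1 hG2 => ?_) x (150 * x) e₀ _ _ _ _ q₁ _ Mg Mg₀ Mo Ma Mb Md
    _ _ _ _ v v' e'' p (g 0) (g (gP u nd 0)) (g (gP u nd (oO κ i))) (g (gP u nd (oA κ i)))
    (g (gP u nd (oO κ (i + 1)))) (g (gP u nd (oD κ i))) (g nd) gT U (ψ 0) (ψ (gP u nd 0))
    (ψ (gP u nd (oO κ i))) (ψ (gP u nd (oA κ i))) (ψ (gP u nd (oO κ (i + 1))))
    (ψ (gP u nd (oD κ i))) Sv (ψH 0) (ψH (gP u nd 0)) (ψH (gP u nd (oO κ i)))
    (ψH (gP u nd (oA κ i))) (ψH (gP u nd (oO κ (i + 1)))) (ψH (gP u nd (oD κ i)))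
    (G' (gP u nd (oO κ i))) (G' (gP u nd (oA κ i))) (G' (gP u nd (oO κ (i + 1))))
    (G' (gP u nd (oD κ i))) (G' nd) (H (gP u nd (oO κ i))) (H (gP u nd (oA κ i)))
    (H (gP u nd (oO κ (i + 1)))) (H (gP u nd (oD κ i))) (H nd) T' TH Ht hD Nm hDx
    (HD.wn 0 (Nat.zero_le _)).bl.wf (HD.wn _ hgw).bl.wf (HD.wn _ hgO) (HD.wn _ (hgA i hi))
    (HD.wn _ hgB) (HD.wn _ (hgD i hi)) hdp HD.hQ HD.hM hco ?_ ?_ ?_ ?_ ?_ ?_ ?_ ?_ ?_ ?_ Vo Va Vb zo
    zoH za zaH zb zbH hzo hza hzb ?_ ?_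
  · refine hact G₁ (fun ω h => hBA ω (hG1 ω h)) ?_
    rw [div_mul_eq_mul_div, div_le_iff₀ (by positivity)]
    linarith
  · push_cast
    have h1 := mul_le_mul_of_nonneg_right hyq hJ0
    linarith
  · have h1 := nS_ge (x := x) hM (by omega)
    rw [hμ]
    linarith
  · rw [hμ]
    exact hsgM
  · linarith
  · linarith
  · linarith
  · intro j hj
    have h1 := (hW _ (show gP u nd (oA κ i) ≤ 2 * nd by linarith [hgA i hi])).2.2 j (by omega)
    have h2 := (RL.hlv (show j ≤ 3 by omega)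
      (show gP u nd (oA κ i) ≤ 2 * nd by linarith [hgA i hi])).2
    have h3 := (hlv1 _ (hgA i hi) j (by omega)).1
    have h4 : bet (P₂ 3) c j (W (gP u nd (oA κ i))) (W (gP u nd (oA κ i))) * J ≤
        (L j t t + Sl j * ((gP u nd (oA κ i) : ℕ) / nd * q) + 2 * (y * q)) * J :=
      mul_le_mul_of_nonneg_right (by linarith) hJ0
    have h5 : (⌊(t + (gP u nd (oA κ i) : ℕ) / nd * q) * J⌋₊ : ℝ) ≤ W (gP u nd (oA κ i)) * J := by
      refine (Nat.floor_le ?_).trans (mul_le_mul_of_nonneg_right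
        (hW _ (show gP u nd (oA κ i) ≤ 2 * nd by linarith [hgA i hi])).1 hJ0)
      have := (hfq _ (hgA i hi)).1
      have : 0 ≤ t + (gP u nd (oA κ i) : ℕ) / nd * q := by linarith
      positivity
    have h6 := mul_le_mul_of_nonneg_right hyq hJ0
    have h7 : 0 ≤ y * q * J := by positivity
    linarith
  · have h1 := mul_le_mul_of_nonneg_right RL.Ee hJ0
    have h2 := mul_le_mul_of_nonneg_right hyu hJ0
    have h7 : 0 ≤ y * q * J := by positivity
    linarith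
  · have hl2 : Real.log 2 ≤ 1 := by
      have := Real.log_two_lt_d9
      linarith
    have hl0 : 0 < Real.log 2 := Real.log_pos one_lt_two
    have h1 : ∀ l ∈ range 3, ((J - g (gP u nd (oD κ i)) l : ℕ) : ℝ) ≤
        (1 - L l (t + (gP u nd (oD κ i) : ℕ) / nd * q) (t + (gP u nd (oD κ i) : ℕ) / nd * q)) * J +
          2 * (y * q * J) := by
      intro l hl
      have hl3 := mem_range.1 hl
      have h2 := (hlv1 _ (hgD i hi) l (by omega)).1
      have h3 := (RL.hlv (show l ≤ 3 by omega)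
        (show gP u nd (oD κ i) ≤ 2 * nd by linarith [hgD i hi])).2
      have h4 := mul_le_mul_of_nonneg_right h3 hJ0
      have h5 := mul_le_mul_of_nonneg_right hεq hJ0
      have h6 : g (gP u nd (oD κ i)) l ≤ J := by
        have := hroom _ (hgD i hi) l (by omega)
        omega
      rw [Nat.cast_sub h6]
      linarith
    have h2 := Finset.sum_le_sum h1
    rw [Finset.sum_add_distrib, ← Finset.sum_mul, Finset.sum_const, card_range, nsmul_eq_mul,
      Finset.sum_range (fun l => 1 - L l (t + (gP u nd (oD κ i) : ℕ) / nd * q)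
        (t + (gP u nd (oD κ i) : ℕ) / nd * q))] at h2
    rw [← Finset.sum_mul]
    have h3 := mul_le_mul_of_nonneg_right h2 hl0.le
    have h6 := mul_le_mul_of_nonneg_right hyq hJ0
    have h7 : 0 ≤ y * q * J := by positivity
    have h8 : y * q * J * Real.log 2 ≤ y * q * J * 1 := mul_le_mul_of_nonneg_left hl2 h7
    refine h3.trans ?_
    push_cast
    linarith
  · have hl2 : Real.log 2 ≤ 1 := by
      have := Real.log_two_lt_d9
      linarith
    have hl0 : 0 < Real.log 2 := Real.log_pos one_lt_two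
    have hρ1 : 1 ≤ q * J / nd + 1 := by
      have : 0 ≤ q * J / nd := by positivity
      linarith
    have hwn := fun {r : ℝ} (hr : 0 ≤ r) => gP_win (u := u) (t := t) (q := q) (J := J) hu0.le
      (v := wG t q nd J (gP u nd r)) hr hnd hq.le hJ0 (wG_near ht0.le hq.le nd J (gP u nd r))
    have hoO0 : 0 ≤ oO κ i := by linarith [oO_ge hκ i]
    have e1 := hwn (le_refl (0 : ℝ))
    rw [zero_mul, add_zero] at e1
    have h1 := (grid_near s0 s1 s2 s3 hκ hx₀ hρ1 hmesh hM e1 (hwn hoO0)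
      (hwn (hoO0.trans (oA_ge hκ i))) (hLv _ hgw) (hLv _ hgO) (hLv _ (hgA i hi))).2
    have h1R : (g (gP u nd (oA κ i)) 0 : ℝ) ≤ g (gP u nd 0) 0 + nQ₀ κ x i (u * q * J) + 310 * x := by
      exact_mod_cast h1
    have h2 := (hlv1 _ (hgA i hi) 0 (by omega)).1
    have h3 := (RL.hlv (show 0 ≤ 3 by omega)
      (show gP u nd (oA κ i) ≤ 2 * nd by linarith [hgA i hi])).2
    have h4 := mul_le_mul_of_nonneg_right h3 hJ0
    have h5 := mul_le_mul_of_nonneg_right hεq hJ0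
    have h6 : g (gP u nd 0) 0 + nQ₀ κ x i (u * q * J) ≤ J := by
      have a1 := Nm.nm.p8.J1 0 (by norm_num)
      have a2 := Nm.nm.p8.Q1
      omega
    have h7 : ((J - (g (gP u nd 0) 0 + nQ₀ κ x i (u * q * J)) : ℕ) : ℝ) ≤
        (1 - L 0 (t + (gP u nd (oA κ i) : ℕ) / nd * q) (t + (gP u nd (oA κ i) : ℕ) / nd * q)) * J +
          320 * (y * q * J) := by
      rw [Nat.cast_sub h6]
      push_cast
      linarith
    have h8 := mul_le_mul_of_nonneg_right h7 hl0.le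
    have h9 := mul_le_mul_of_nonneg_right hyq hJ0
    have h10 : 0 ≤ y * q * J := by positivity
    have h11 : y * q * J * Real.log 2 ≤ y * q * J * 1 := mul_le_mul_of_nonneg_left hl2 h10
    refine h8.trans ?_
    linarith
  · have := fre
    unfold FreB at this
    rw [hμ, ← mul_assoc]
    exact this
  · have := hnv
    unfold HnvB at this
    rw [hμ, ← mul_assoc]
    exact this

end Pool.D2N
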