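import Pool.Agent.H72.KE.Nlw
import Pool.Agent.H91.FR.QpG

/-!
# Exactness as a property of the windows

`ExQ`: at every window of `G` the positions of the coordinates of the order are exact, and so are
the positions of the first one. `her_ex`, `aePG_ex`.
-/

set_option autoImplicit false

namespace Pool.D2N

open Finset Real MvPolynomial
open Pool.Agent.H49.Ent Pool.Agent.H32.Dense Pool.STK Pool.KA Pool.KSAT Pool.K2S Pool.PB Pool.GEN
open Pool.S6C Pool.RCD Pool.PKG Pool.CHT Pool.GRW Pool.LA91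
open Pool.TOP (TopS)
open Pool.M3F (ExvY)
open Pool.OWN72 (epo cc_epo gs_exa)

/-- **Exactness at the windows of** `G`. -/
structure ExQ {n : ℕ} (_ : Unit) (_ : ℕ) (S : PCl n) (_ : List (Fin n) × Fin n → ℝ → ℝ → ℝ)
    (_ : ℝ) (c : ℕ → Fin n) (_ : ℝ → ℝ → ℝ) (_ : ℝ → ℝ) (L _ : ℕ → ℝ → ℝ → ℝ) (_ : ℕ → Kg)
    (G : Set ℝ) (_ : ℝ) : Prop where
  all : ∀ a ∈ G, ∀ ρ : ℝ, 0 < ρ →
    ExvY S a (fun J F ω (l : Fin (n - 1)) => F.X J ω (c l))
      ((∑ j : Fin (n - 1), (1 - L j a a)) - ρ)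
  fst : ∀ a ∈ G, ∀ ρ : ℝ, 0 < ρ → ExvY S a (fun J F ω => F.X J ω (c 0)) ((1 - L 0 a a) - ρ)

theorem her_ex (n : ℕ) : HerQ (ExQ : PropG n Unit) :=
  fun _ _ _ _ _ _ _ _ _ _ _ _ _ _ hs h =>
    ⟨fun a ha ρ hρ => Bas.sub hs (h.all a ha ρ hρ), fun a ha ρ hρ => Bas.sub hs (h.fst a ha ρ hρ)⟩

/-- **Exactness at every window** of a closed set of good windows. -/
theorem aePG_ex {n : ℕ} (hn3 : 3 ≤ n) : AePG n (ExQ : PropG n Unit) := by
  intro hn S P r P' Λ PB PQ H hTop hF o G hG hGs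
  refine ⟨S, H.toPk.ne, fun _ _ _ _ h => h, Filter.Eventually.of_forall fun g hg κ _ p =>
    ⟨0, ?_, ?_⟩⟩
  · intro a ha ρ hρ
    refine Bas.mono 0 (gs_exa H.toPk hF (hGs ha) ρ hρ) fun J _ F A hA V z z' hz => ?_
    have h1 := hA V z z' hz
    have h2 : ∑ j : Fin (n - 1), (1 - vs Λ (epo hn o) a (j + 1)) =
        ∑ j : Fin (n - 1), (1 - LvL hn P P' o j a a) :=
      Finset.sum_congr rfl fun j _ => by rw [gs_lvl H.toPk hTop hF (hGs ha) j.2]
    have h4 : (fun (ω : F.Ω) (i : Fin (n - 1)) => F.X J ω (cc hn o.1.1 i)) =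
        fun ω j => F.X J ω (epo hn o j) := by
      funext ω i
      rw [cc_epo o i]
    rw [h2, ← h4] at h1
    exact h1
  · intro a ha ρ hρ
    have hW := (hGs ha).1
    have h1 := vst_crd (c := cc hn o.1.1) H.toPk.pos H.toPk.lam (cc_epo (hn := hn) o) hW.1.1
      hW.1.2.1 hW.1.2.2.1 hW.1.2.2.2 (gs_exa H.toPk hF (hGs ha)) hρ
    refine Bas.mono 0 (h1.and H.toPk.pos) fun J _ F A hA V z z' hz => ?_
    obtain ⟨hA, hp⟩ := hA
    have h2 := hA V z z' hz 0 (by omega)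
    have h3 : LvL hn P P' o 0 a a = vs Λ (epo hn o) a (0 + 1) :=
      gs_lvl H.toPk hTop hF (hGs ha) (by omega)
    rw [h3]
    refine h2.trans ?_
    refine CH_mono_cond (isLaw_cond F.isLaw hp).nonneg fun ω ω' _ _ hh => ?_
    exact (Prod.ext_iff.mp hh).2

end Pool.D2N
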