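import Pool.Agent.H90.D2.Hic
import Pool.Agent.H90.D2.Exq
import Pool.Agent.H28.D2.Hnum

/-!
# The hop cell: the block theorem on the grid

`wG`: the windows of the grid. `dG`: the data of the digits of a block. `FreB`, `HnvB`: the own data
are free, the near frame digits are full. `BlkS`, `BlkG κ`: **the block theorem on the grid**, for
the slopes `1, κ, κ, κ + 1`; it is the input of the class theorem of the tie.
-/

set_option autoImplicit false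

namespace Pool.D2N

open Finset Real MvPolynomial
open Pool.Agent.H49.Ent Pool.Agent.H32.Dense Pool.STK Pool.KA Pool.KSAT Pool.K2S Pool.PB Pool.S6C
open Pool.GEN Pool.CHT Pool.CHX Pool.LA91
open Pool.LBT (ThrOf)
open Pool.ALL (RateOf)
open Pool.D2F Pool.D2Z Pool.D2F2
open Pool.D2R (dd hs co co_slam ROutB ROut1)
open Pool.PKG (RecG Kg kgL)
open Pool.M3F (ExvY)

/-- The window `k` of the grid. -/
noncomputable def wG (t q : ℝ) (nd J k : ℕ) : ℕ := ⌊(t + k / nd * q) * J⌋₊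

section dat

variable {m J : ℕ} (F : Fam m J) (c : ℕ → Fin m) (κ u t q : ℝ) (nd D x i : ℕ) (g : ℕ → ℕ → ℕ)
  (ψH : ℕ → LnT F → ℕ → Option (Fin m) → ℝ) (Ht : LnT F → MvPolynomial (Option (Fin m)) ℝ)
  (hD : ∀ s, (Ht s).totalDegree ≤ D)

/-- The data of the digits of the block `i`: the base window is the grid point `gP u nd 0`. -/
noncomputable abbrev dG : Dat F (ℕ → Option (Fin m) → ℝ) 3 D :=
  hdt2 F c (g (gP u nd 0)) (wG t q nd J (gP u nd 0))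
    (wG t q nd J (gP u nd 0) - wG t q nd J 0) 3 D (nQ₀ κ x i (u * q * J))
    (nQ κ x i (u * q * J)) ⌊u * q * J⌋₊ (ψH (gP u nd 0)) Ht hD

/-- **The own data are free** of the later record: the cell of the velocity (`q₁` digits) and the
cells of the coefficients. -/
def FreB (q₁ : ℕ) (η : ℝ) (B : F.Ω → Prop) {Vo Vb : Type} (zo : PtT F → Vo) (zb : PtT F → Vb) :
    Prop :=
  CH (cond F.p B True) (fun ω =>
      (eC (dG F c κ u t q nd D x i g ψH Ht hD) (wG t q nd J (gP u nd 0)) (g (gP u nd 0) 0 + q₁) ω,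
        cG (dG F c κ u t q nd D x i g ψH Ht hD) (wG t q nd J (gP u nd 0)) ω))
      (fun ω => (zo (ptr F J ω), F.W ω)) ≤
    CH (cond F.p B True) (fun ω =>
      (eC (dG F c κ u t q nd D x i g ψH Ht hD) (wG t q nd J (gP u nd 0)) (g (gP u nd 0) 0 + q₁) ω,
        cG (dG F c κ u t q nd D x i g ψH Ht hD) (wG t q nd J (gP u nd 0)) ω))
      (fun ω => (zb (ptr F J ω), F.W ω)) + η * J

/-- **The near frame digits are full.** -/
def HnvB (η c₀ : ℝ) (B : F.Ω → Prop) {Vo : Type} (zo : PtT F → Vo) : Prop :=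
  ∀ B' : F.Ω → Prop, Sub B' B → c₀ * Pe F.p B ≤ Pe F.p B' →
    ∑ l ∈ Finset.Ico 1 3, ((uu (g (gP u nd 0)) (nQ₀ κ x i (u * q * J)) (nQ κ x i (u * q * J))
        ⌊u * q * J⌋₊ l - (g (gP u nd 0) l + D2F2.qv (nQ₀ κ x i (u * q * J))
          (nQ κ x i (u * q * J)) l) : ℕ) : ℝ) * Real.log 2 - η * J ≤
      CH (cond F.p B' True) (fun ω (l : Fin (3 - 1)) =>
          Nfd (dG F c κ u t q nd D x i g ψH Ht hD) (wG t q nd J (gP u nd 0))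
            (uu (g (gP u nd 0)) (nQ₀ κ x i (u * q * J)) (nQ κ x i (u * q * J)) ⌊u * q * J⌋₊)
            (fun l => g (gP u nd 0) l + D2F2.qv (nQ₀ κ x i (u * q * J))
              (nQ κ x i (u * q * J)) l) (1 + l) ω)
        (fun ω => (zo (ptr F J ω), (F.W ω, (F.X J ω (c 0),
          cE (dG F c κ u t q nd D x i g ψH Ht hD) (wG t q nd J (gP u nd 0)) ω))))

end dat

/-- **The statement of the blocks on the grid**: an event with the data of all windows has a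
subevent of positive share, where the coefficients of order at least two of the label at the base
window are small (`Co0`), which has no block `i < n` whose own data are free and whose near frame
digits are full. -/
def BlkS {m : ℕ} (κ y t q u E η c₀ c₁ : ℝ) (D n nd X₀ : ℕ) (c : ℕ → Fin m) (L : ℕ → ℝ → ℝ → ℝ)
    (Sl : ℕ → ℝ) : Stat m := fun J F A =>
  ∀ B : F.Ω → Prop, Sub B A → c₁ * Pe F.p A ≤ Pe F.p B →
    ∀ (x e₀ : ℕ) (g : ℕ → ℕ → ℕ) (ψ : ℕ → PtT F → ℕ → Option (Fin m) → ℝ)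
      (ψH : ℕ → LnT F → ℕ → Option (Fin m) → ℝ) (Sv : PtT F → ℕ → Option (Fin m) → ℝ)
      (G : ℕ → PtT F → ℕ → MvPolynomial (Option (Fin m)) ℝ)
      (H : ℕ → LnT F → ℕ → MvPolynomial (Option (Fin m)) ℝ)
      (Ht : LnT F → MvPolynomial (Option (Fin m)) ℝ) (hD : ∀ s, (Ht s).totalDegree ≤ D),
    X₀ ≤ x → (x : ℝ) ≤ y * q * J → κ * (q * J / nd + 1) ≤ x → (e₀ : ℝ) ≤ (E + 2 * y * q) * J →
    (∀ k ≤ nd, ∀ l ≤ 3,
      16 * (κ + 1) * |(g k l : ℝ) - (L l t t + Sl l * (k / nd * q)) * J| ≤ x) →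
    16 * (κ + 1) * (|L 0 t t - t| * J) ≤ x →
    HopD F c D nd x e₀ (wG t q nd J) B g ψ ψH Sv G H Ht →
    ∃ B' : F.Ω → Prop, Sub B' B ∧ Pe F.p B ≤ 4 ^ (n + 1) * Pe F.p B' ∧
    (0 < n → Co0 F c 0 x (wG t q nd J (gP u nd 0) - wG t q nd J 0) (wG t q nd J (gP u nd 0))
      (g (gP u nd 0)) (ψH (gP u nd 0)) Ht B') ∧
    ∀ (q₁ i : ℕ), i < n → q * J / 2 ≤ q₁ → (q₁ : ℝ) ≤ 2 * q * J →
    ∀ (Vo Vb : Type) (zo : PtT F → Vo) (zoH : LnT F → Vo) (zb : PtT F → Vb) (zbH : LnT F → Vb),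
    Rcd F B' (wG t q nd J (gP u nd (oO κ i))) zo zoH →
    Rcd F B' (wG t q nd J (gP u nd (oO κ (i + 1)))) zb zbH →
    FreB F c κ u t q nd D x i g ψH Ht hD q₁ η B' zo zb →
    HnvB F c κ u t q nd D x i g ψH Ht hD η c₀ B' zo → False

/-- **The block theorem on the grid**, slopes `1, κ, κ, κ + 1`. The constants `η₀`, `c₀`, then `u₀`
(lower bound of the unit), then `y₀` (loss), `X₀`, `N₀` do not depend on the class; the scales `q`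
are small in terms of the class; the unit `u` may depend on everything. -/
def BlkG (κ : ℝ) : Prop :=
  ∀ {D : ℕ}, 2 ≤ D → ∀ {h al : ℝ}, 0 < h → h ≤ 1 → 0 < al →
  ∃ η₀ : ℝ, 0 < η₀ ∧ ∃ c₀ : ℝ, 0 < c₀ ∧ ∀ n : ℕ, ∃ u₀ : ℝ, 0 < u₀ ∧ ∃ y₀ : ℝ, 0 < y₀ ∧
  ∃ X₀ N₀ : ℕ, ∀ {y A' K' ε : ℝ} {nd : ℕ}, 0 < y → y ≤ y₀ → A' ≤ K' → 2 * κ + 8 ≤ K' →
  0 ≤ ε → ε ≤ y → N₀ ≤ nd → 0 < nd →
  ∀ {S : PCl 4} {g₀ : ℝ → ℝ} {P : List (Fin 4) × Fin 4 → ℝ → ℝ → ℝ} {θ : ℝ}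
    {P₂ : ℕ → List (Fin 4) × Fin 4 → ℝ → ℝ → ℝ} {θ₂ Eb e₂ : ℕ → ℝ} {c : ℕ → Fin 4}
    {Pt : ℝ → ℝ → ℝ} {r : ℝ → ℝ} {L T : ℕ → ℝ → ℝ → ℝ} {Sl : ℕ → ℝ} {G : Set ℝ} {g : ℝ},
  Sl 0 = 1 → Sl 1 = κ → Sl 2 = κ → Sl 3 = κ + 1 →
  ExQ () 0 S P θ c Pt r L T (kgL [.one, .thin, .thin]) G g →
  ∃ q₂ : ℝ, 0 < q₂ ∧ ∀ {K₀ : ℝ} {S₀ N : ℕ} {A V : ℕ → ℝ} {S₂ N' : ℕ} {V' : ℕ → ℝ} {q t : ℝ},
  q < q₂ →
  RecG S al g₀ P θ P₂ θ₂ Eb e₂ c Pt r h K₀ g L T Sl (kgL [.one, .thin, .thin]) G S₀ N A V S₂ N' V'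
    K' ε q t →
  RcL (P₂ 3) (θ₂ 3) c L Sl κ t q A' (Eb 3) (e₂ 3) ε nd → (∀ k ≤ nd, t + k / nd * q ∈ G) →
  ∃ u : ℝ, u₀ ≤ u ∧ oO κ n * u ≤ 1 / 2 ∧ ∀ {c₁ : ℝ}, 0 < c₁ →
    Bas S (BlkS κ y t q u (Eb 3) (η₀ * u * q) c₀ c₁ D n nd X₀ c L Sl)

end Pool.D2N
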