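import Pool.Agent.H90.D2.Hif
import Pool.Agent.H4.D2.Hng
import Pool.Agent.H31.D2.Ry8
import Pool.Agent.H28.D2.Freg
import Pool.Agent.H4.D2.Nvj

/-!
# The class theorem of the tie

`QT`: the property of the windows: free velocities, near digits of the pair, exactness.
`celQ_tie`: the class theorem of the cell one, thin, thin with the slopes `1, κ, κ, κ + 1`, from the
block theorem on the grid.
-/

set_option autoImplicit false

namespace Pool.D2N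

open Finset Real MvPolynomial
open Pool.Agent.H49.Ent Pool.Agent.H32.Dense Pool.STK Pool.KA Pool.KSAT Pool.K2S Pool.PB Pool.S6C
open Pool.GEN Pool.CHT Pool.CHX Pool.LA91
open Pool.LBT (ThrOf bas_false)
open Pool.ALL (RateOf)
open Pool.D2F Pool.D2Z Pool.D2F2
open Pool.D2R (dd hs co co_slam ROutB ROut1)
open Pool.PKG (RecG Kg kgL PropG AePG CelQH)

/-- **The property of the tie**: free velocities, near digits of the pair, exactness. -/
def QT : PropG 4 (((ℕ × ℕ × ℚ × ℚ) ⊕ Unit) ⊕ Unit) := sumQ (sumQ FaQ NvQ) ExQ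

theorem aePG_qt (hZ : ∀ k, 1 ≤ k → k < 4 → FZX k) : AePG 4 QT :=
  aePG_sum (aePG_fa_nv le_rfl hZ) (her_fa_nv 4) (aePG_ex (by norm_num))

/-- The windows of the chain: the grid and the windows of the chart. -/
noncomputable def vT (nd j : ℕ) : ℝ :=
  if j ≤ 2 * nd then (j : ℝ) / nd else -(3 + ((j - (2 * nd + 1) : ℕ) : ℝ) / 2)

theorem vT_le {nd j : ℕ} (hj : j ≤ 2 * nd) : vT nd j = (j : ℝ) / nd := if_pos hj

theorem vT_ch {nd : ℕ} (j : ℕ) : vT nd (2 * nd + 1 + j) = -(3 + (j : ℝ) / 2) := by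
  unfold vT
  rw [if_neg (by omega), show 2 * nd + 1 + j - (2 * nd + 1) = j by omega]

theorem vT_bd {nd j : ℕ} (hnd : 0 < nd) (hj : j < 2 * nd + 10) : -7 ≤ vT nd j ∧ vT nd j ≤ 2 := by
  have hndR : (0 : ℝ) < nd := by exact_mod_cast hnd
  rcases Nat.lt_or_ge (2 * nd) j with h | h
  · obtain ⟨i, rfl⟩ : ∃ i, j = 2 * nd + 1 + i := ⟨j - (2 * nd + 1), by omega⟩
    rw [vT_ch]
    have h1 : (i : ℝ) ≤ 8 := by exact_mod_cast (show i ≤ 8 by omega)
    have h2 : (0 : ℝ) ≤ i := Nat.cast_nonneg _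
    constructor <;> linarith
  · rw [vT_le h]
    refine ⟨by have : (0 : ℝ) ≤ (j : ℝ) / nd := by positivity
               linarith, ?_⟩
    rw [div_le_iff₀ hndR]
    exact_mod_cast h

/-- **The class theorem of the tie**, from the block theorem on the grid. -/
theorem celQ_tie {κ h : ℝ} (hκ : 1 < κ) (hh : 0 < h) (hh1 : h ≤ 1) (hB : BlkG κ) {Sl : ℕ → ℝ}
    (s0 : Sl 0 = 1) (s1 : Sl 1 = κ) (s2 : Sl 2 = κ) (s3 : Sl 3 = κ + 1) :
    CelQH 4 3 h Sl (kgL [.one, .thin, .thin]) QT := by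
  intro al hal K₀ hK₀ del hdel S₀ hS₀
  refine ⟨κ + 3, 2, fun _ => κ + 3, fun k => k, by linarith, fun k hk => ?_, fun S₂ hS₂ => ?_⟩
  · have h1 : (0 : ℝ) ≤ k := Nat.cast_nonneg k
    have h2 : (k : ℝ) ≤ 2 := by exact_mod_cast hk.le
    refine ⟨?_, ?_, le_rfl⟩
    · show -(κ + 3) ≤ (k : ℝ)
      linarith
    · show (k : ℝ) ≤ κ + 3
      linarith
  obtain ⟨D, hD, Cw, CB, hCw, hCB, hrcw⟩ := rcw_of S₂ (hS₀.trans hS₂)
  obtain ⟨η₀, hη₀, c₀, hc₀, hblk⟩ := hB (D := D + 1) (by omega) hh hh1 hal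
  obtain ⟨n, hn, hfre⟩ := fre_grid hκ (D := D + 1) (by omega) hη₀
  obtain ⟨u₀, hu₀, y₀, hy₀, X₀, N₀, hblk⟩ := hblk n
  obtain ⟨κf, hκf, y₁', hy₁', X₁, hfre⟩ := hfre hu₀
  obtain ⟨y₂', hy₂', X₂, hnv⟩ := hnv_grid hκ (D := D + 1) hK₀ hη₀ hu₀ n
  obtain ⟨y, hy⟩ : ∃ y : ℝ, y = min (min y₀ y₁') (min y₂' (min (1 / 8) ((κ - 1) / 8))) := ⟨_, rfl⟩
  have hκ1 : 0 < (κ - 1) / 8 := by linarith
  have hy0 : 0 < y := by
    rw [hy]
    exact lt_min (lt_min hy₀ hy₁') (lt_min hy₂' (lt_min (by norm_num) hκ1))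
  have hyy₀ : y ≤ y₀ := by rw [hy]; exact (min_le_left _ _).trans (min_le_left _ _)
  have hyy₁ : y ≤ y₁' := by rw [hy]; exact (min_le_left _ _).trans (min_le_right _ _)
  have hyy₂ : y ≤ y₂' := by rw [hy]; exact (min_le_right _ _).trans (min_le_left _ _)
  have hy8 : y ≤ 1 / 8 := by
    rw [hy]
    exact (min_le_right _ _).trans ((min_le_right _ _).trans (min_le_left _ _))
  have hyκ : y ≤ (κ - 1) / 8 := by
    rw [hy]
    exact (min_le_right _ _).trans ((min_le_right _ _).trans (min_le_right _ _))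
  clear hy
  -- the factor of the loss
  obtain ⟨C, hC⟩ : ∃ C : ℕ, C = ⌈16 * (κ + 1)⌉₊ := ⟨_, rfl⟩
  have hC16 : 16 * (κ + 1) ≤ C := by rw [hC]; exact Nat.le_ceil _
  clear hC
  have hCR : (1 : ℝ) ≤ C := by linarith
  have hC0 : (0 : ℝ) < C := by linarith
  have hC1 : 1 ≤ C := by exact_mod_cast hCR
  obtain ⟨y', hy'⟩ : ∃ y' : ℝ, y' = y / C := ⟨_, rfl⟩
  have hy'0 : 0 < y' := by rw [hy']; positivity
  have hCy' : C * y' = y := by rw [hy']; field_simp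
  have hyy' : y' ≤ y := by
    rw [← hCy']
    exact le_mul_of_one_le_left hy'0.le hCR
  clear hy'
  obtain ⟨nd, y₁, ε₀, hNnd, hnd, hy₁, hy₁y, hCy, hε₀, hCε, hrec⟩ :=
    hop_rec 4 D hD hCw hCB hκ hy'0 (by linarith) (by linarith) N₀
  have hndR : (0 : ℝ) < nd := by exact_mod_cast hnd
  refine ⟨2 * κ + 8, 2 * nd + 10, vT nd, by linarith, fun k hk => ?_,
    min ε₀ (min y' (1 / nd)), lt_min hε₀ (lt_min hy'0 (by positivity)), ?_⟩
  · have := vT_bd hnd hk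
    constructor <;> linarith [this.1, this.2]
  intro S g₀ P θ P₂ θ₂ Eb e₂ c Pt r L T G g hG hg hder
  refine ⟨fun j => if j = 0 then Sum.inl (Sum.inl (1, 240, 1, κf)) else if j = 1 then
    Sum.inl (Sum.inr ()) else Sum.inr (), 3, fun _ => -2, fun _ => -1, fun _ _ => by norm_num,
    fun k₀ hQ => ?_⟩
  have hQ1 : NvQ () (k₀ 1) S P θ c Pt r L T (kgL [.one, .thin, .thin]) G g := hQ 1 (by norm_num)
  have hQ2 : ExQ () (k₀ 2) S P θ c Pt r L T (kgL [.one, .thin, .thin]) G g := hQ 2 (by norm_num)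
  have hNv : NvAt S (c 0) (c 1) (c 2) (fun x => L 1 x x) (fun x => L 2 x x) g :=
    hQ1 κ hκ (by
      have := hder 1 (by norm_num)
      rwa [s1] at this) (by
      have := hder 2 (by norm_num)
      rwa [s2] at this)
  obtain ⟨ε, hε⟩ : ∃ ε, ε = min ε₀ (min y' (1 / nd)) := ⟨_, rfl⟩
  rw [← hε]
  have hε0 : 0 < ε := by rw [hε]; exact lt_min hε₀ (lt_min hy'0 (by positivity))
  have hεε : ε ≤ ε₀ := by rw [hε]; exact min_le_left _ _
  have hεy : ε ≤ y := by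
    rw [hε]
    exact ((min_le_right _ _).trans (min_le_left _ _)).trans hyy'
  have hεn : ε ≤ 1 / nd := by rw [hε]; exact (min_le_right _ _).trans (min_le_right _ _)
  clear hε
  by_cases hcl : (∀ (τ : ℝ) (J : ℕ) (F : Fam 4 J) (A : F.Ω → Prop), S.St τ J F A →
      0 < Pe F.p A) ∧ Set.InjOn c (Set.Iio 4)
  swap
  · refine ⟨1, one_pos, fun q t x _ _ R => ?_⟩
    exact absurd ⟨R.pos, R.inj⟩ hcl
  obtain ⟨hpos, hinj⟩ := hcl
  obtain ⟨q₂, hq₂, hblk⟩ := hblk (A' := κ + 3) (K' := 2 * κ + 8) hy0 hyy₀ (by linarith) le_rfl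
    hε0.le hεy hNnd hnd s0 s1 s2 s3 ⟨hQ2.all, hQ2.fst⟩
  obtain ⟨q₃, hq₃, hfre⟩ := hfre (A' := κ + 3) (K' := 2 * κ + 8) hy0 hyy₁ (by linarith) le_rfl
    hε0.le hεy hnd (k₀ 0) s0 s1 s2 s3
  obtain ⟨q₄, hq₄, hnv⟩ := hnv hy0 hyy₂ hε0.le hεy hnd hpos hinj hNv
  refine ⟨min q₂ (min q₃ q₄), lt_min hq₂ (lt_min hq₃ hq₄), fun q t x hq hx R => ?_⟩
  have hqq₂ : q < q₂ := hq.trans_le (min_le_left _ _)
  have hqq₃ : q < q₃ := hq.trans_le ((min_le_right _ _).trans (min_le_left _ _))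
  have hqq₄ : q < q₄ := hq.trans_le ((min_le_right _ _).trans (min_le_right _ _))
  exfalso
  have hgr : ∀ i ≤ 2 * nd, ∃ j < 2 * nd + 10, vT nd j = (i : ℝ) / nd := fun i hi =>
    ⟨i, by omega, vT_le hi⟩
  have hRL := rcl_of (A' := κ + 3) (nd := nd) R s0 s1 s2 s3 (by linarith) (by linarith)
    (by linarith) hnd hε0.le (by linarith) ⟨0, by norm_num, rfl, Nat.cast_zero⟩
    fun i hi => Or.inr (hgr i hi)
  have hG1 : ∀ k ≤ nd, t + (k : ℝ) / nd * q ∈ G := fun k hk => by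
    have := R.memG.2 k (by omega)
    rwa [vT_le (by omega)] at this
  have hG2 : ∀ j : ℕ, j < 9 → t - (3 + (j : ℝ) / 2) * q ∈ G := fun j hj => by
    have := R.memG.2 (2 * nd + 1 + j) (by omega)
    rw [vT_ch] at this
    have e : t - (3 + (j : ℝ) / 2) * q = t + -(3 + (j : ℝ) / 2) * q := by ring
    rw [e]
    exact this
  obtain ⟨K₁, b, hK₁, hW⟩ := hrcw R hS₂ hε0.le (A' := κ + 3) (y₁ := y₁) (nd := nd)
    (by linarith) hy₁ hCy (le_trans (mul_le_mul_of_nonneg_left (mul_le_mul_of_nonneg_left hεε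
      (by linarith)) (by norm_num)) hCε) hnd (by linarith) (by linarith)
    ⟨0, by norm_num, rfl, Nat.cast_zero⟩ ⟨1, by norm_num, rfl, Nat.cast_one⟩ hgr
  have RQ := rq_of R
  obtain ⟨K₂, hK₂, hrec⟩ := hrec hRL hεε RQ.thr₂ R.tmh R.inj hK₁ hW
  have hrec := hrec (max X₀ (max X₁ X₂))
  obtain ⟨u, huu, hun, hblk⟩ := hblk hqq₂ R hRL hG1
  have hblk := hblk (c₁ := 1 / K₂) (by positivity)
  obtain ⟨c₁, hc₁⟩ : ∃ c₁ : ℝ, c₁ = 1 / K₂ / 4 ^ (n + 1) := ⟨_, rfl⟩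
  have hc₁0 : 0 < c₁ := by rw [hc₁]; positivity
  obtain ⟨hx0, hx1, hx2, hx3⟩ := hx 0 (by norm_num)
  have hfre := hfre hqq₃ R hRL hx0 (by linarith) (by linarith) hx3 hG2 hG1 huu hun hc₁0
  have hroom : ∀ l ≤ 3, L l t t + Eb 3 + 3 * (2 * κ + 8) * q < 1 := fun l hl =>
    RQ.room l hl t (by
      rw [sub_self, abs_zero]
      exact mul_nonneg (by linarith) R.q0.le)
  have hLq : L 0 t t ≤ t + q := by
    have h1 := R.l0 t (by
      rw [sub_self, abs_zero]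
      exact mul_nonneg (by linarith) R.q0.le)
    have h2 := (abs_le.1 h1).2
    have h3 : ε * q ≤ 1 * q := mul_le_mul_of_nonneg_right (by linarith) R.q0.le
    linarith
  have hnv := hnv hqq₄ R.near hRL hroom hLq huu hun hc₀ hc₁0
  refine bas_false R.ne hrec (Bas.mono 0 ((hblk.and hfre).and (hnv.and (show Bas S
    (fun J F A => 0 < Pe F.p A) from ⟨1, one_pos, 0, fun J _ F A hA => R.pos 1 J F A hA⟩))) ?_)
  rintro J - F A ⟨⟨hA1, hA2⟩, hA3, hA4⟩ ⟨B, x', e₀, gg, ψ, ψH, Sv, Gc, H, Ht, hs, hP, hX, hxy, hκx,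
    he, hgl, hop⟩
  have hq := R.q0
  have hJ0 : (0 : ℝ) ≤ J := Nat.cast_nonneg J
  have hqJ : 0 ≤ q * J := by positivity
  have hPB : 1 / K₂ * Pe F.p A ≤ Pe F.p B := by
    rw [one_div, inv_mul_le_iff₀ hK₂]
    exact hP
  -- the larger loss
  obtain ⟨X, hXx⟩ : ∃ X : ℕ, X = C * x' := ⟨_, rfl⟩
  have hx'0 : (0 : ℝ) ≤ x' := Nat.cast_nonneg x'
  have hXR : (X : ℝ) = C * x' := by rw [hXx]; push_cast; ring
  have hxX : x' ≤ X := by
    rw [hXx]
    exact Nat.le_mul_of_pos_left x' (by omega)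
  have hxXR : (x' : ℝ) ≤ X := by exact_mod_cast hxX
  have hkX : 16 * (κ + 1) * x' ≤ X := by
    rw [hXR]
    exact mul_le_mul_of_nonneg_right hC16 hx'0
  have hXm := hX.trans hxX
  have hXy : (X : ℝ) ≤ y * q * J := by
    have h1 := mul_le_mul_of_nonneg_left hxy hC0.le
    have h2 : (C : ℝ) * (y' * q * J) = y * q * J := by rw [← hCy']; ring
    rw [hXR]
    linarith
  have hκX : κ * (q * J / nd + 1) ≤ X := hκx.trans hxXR
  have heX : (e₀ : ℝ) ≤ (Eb 3 + 2 * y * q) * J := by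
    refine he.trans (mul_le_mul_of_nonneg_right ?_ hJ0)
    have := mul_le_mul_of_nonneg_right hyy' hq.le
    linarith
  have hgX : ∀ k ≤ nd, ∀ l ≤ 3,
      16 * |(gg k l : ℝ) - (L l t t + Sl l * (k / nd * q)) * J| ≤ X :=
    fun k hk l hl => (hgl k hk l hl).trans hxXR
  have hgκ : ∀ k ≤ nd, ∀ l ≤ 3,
      16 * (κ + 1) * |(gg k l : ℝ) - (L l t t + Sl l * (k / nd * q)) * J| ≤ X :=
    fun k hk l hl => by
      have h1 := mul_le_mul_of_nonneg_left (hgl k hk l hl) (show 0 ≤ κ + 1 by linarith)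
      have h2 : 0 ≤ κ * (x' : ℝ) := mul_nonneg (by linarith) hx'0
      linarith
  have hL0 : 16 * (κ + 1) * (|L 0 t t - t| * J) ≤ X := by
    have h1 := R.l0 t (by
      rw [sub_self, abs_zero]
      exact mul_nonneg (by linarith) hq.le)
    have h2 := mul_le_mul_of_nonneg_right h1 hJ0
    have h3 := mul_le_mul_of_nonneg_right hεn hqJ
    have h4 : 1 / (nd : ℝ) * (q * J) = q * J / nd := by ring
    have h5 : 0 ≤ q * J / nd := by positivity
    have h6 : q * J / nd ≤ κ * (q * J / nd + 1) := by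
      have := mul_nonneg (show 0 ≤ κ - 1 by linarith) h5
      linarith
    have h7 : |L 0 t t - t| * J ≤ x' := by linarith
    have h8 := mul_le_mul_of_nonneg_left h7 (show 0 ≤ 16 * (κ + 1) by linarith)
    linarith
  obtain ⟨B', hs', hP', hco, hA1⟩ := hA1 B hs hPB X e₀ gg ψ ψH Sv Gc H Ht hop.hD
    ((le_max_left _ _).trans hXm) hXy hκX heX hgκ hL0 (hop.mono hxX)
  have hop' := (hop.mono hxX).sub hs'
  have hPB' : c₁ * Pe F.p A ≤ Pe F.p B' := by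
    rw [hc₁, div_mul_eq_mul_div, div_le_iff₀ (by positivity)]
    linarith
  have hsA : Sub B' A := fun ω hω => hs ω (hs' ω hω)
  obtain ⟨q₁, hq1, hq1', hA2⟩ := hA2 B' hsA hPB' X e₀ gg ψ ψH Sv Gc H Ht hop'.hD
    (((le_max_left _ _).trans (le_max_right _ _)).trans hXm) hXy hκX heX hgX hop' (hco hn)
  have hB'0 : 0 < Pe F.p B' := lt_of_lt_of_le (mul_pos hc₁0 hA4) hPB'
  have hB'e : ∃ ω, B' ω := by
    by_contra hcon
    push Not at hcon
    have h1 : Pe F.p B' = 0 := Finset.sum_eq_zero fun ω _ => by simp [hcon ω]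
    linarith
  choose Vz z zH hz using fun k => rcd_ex F hB'e (wG t q nd J (gP u nd (oO κ k)))
  obtain ⟨i, hi, hfr⟩ := hA2 Vz z zH fun k _ => hz k
  have hn' := hA3 B' hsA hPB' X e₀ i gg ψ ψH Sv Gc H Ht hop'.hD
    (((le_max_right _ _).trans (le_max_right _ _)).trans hXm) hXy hκX heX hgX hop' hi (Vz i) (z i)
    (zH i) (hz i)
  exact hA1 q₁ i hi hq1 hq1' (Vz i) (Vz (i + 1)) (z i) (zH i) (z (i + 1)) (zH (i + 1)) (hz i)
    (hz (i + 1)) hfr hn'

end Pool.D2N
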