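import Pool.Agent.H90.D2.Hie
import Pool.Agent.H90.D2.Hig
import Pool.Agent.H31.D2.Rz1
import Pool.Agent.H3.D2G.RecC
import Pool.Agent.H60.ASM.GnM

/-!
# The cell one, thin, thin

`lCellA_ott`, `c1tt`: the cell, from the block theorem on the grid.
-/

set_option autoImplicit false

namespace Pool.D2N

open Pool.PKG Pool.STAT Pool.ASM

/-- **The cell one, thin, thin.** -/
theorem lCellA_ott : LCellA 4 [.one, .thin, .thin] := by
  refine lCellA_ott_of aePG_qt fun h h0 h1 Sl s0 s1 s2 s3 => ?_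
  rcases le_or_gt (Sl 1) 2 with h2 | h2
  · exact celQ_tie s1 h0 h1 (blkG_le s1 h2) s0 rfl s2 s3
  · exact celQ_tie s1 h0 h1 (blkG_gt h2) s0 rfl s2 s3

/-- **The cell one, thin, thin**, the middle form. -/
theorem c1tt : LCellM 4 [.one, .thin, .thin] := lCellA_ott.v.m

end Pool.D2N
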