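import Pool.Agent.H66.D2.Apa
import Pool.Agent.H23.D2.Crc

/-!
# The numbers of the cell with the static place `1` and the thin place `2`, closed gradient at the ball

The windows `0` (static charts), `1` (row label), `2` (label, and the line of the closed gradient), `3`
(ball, and the ball of the closed gradient), `4` (the far window).
-/

set_option autoImplicit false

namespace Pool.TNW

open Finset Real MvPolynomial Pool.TN

/-- **The numbers of the cell** `[one, sta, thin]`, with the closed gradient at the ball. -/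
theorem num_st0 {J A cl M : ℕ} {Sc : ℕ → Prop} {w e pp : ℕ → ℕ} {z g gc gT g₀ : ℕ → ℕ → ℕ}
    {U y τ Ee K A' : ℝ} {v Sl Λ : ℕ → ℝ}
    (h : ApN 3 4 J A cl Sc w e pp g gc gT g₀ U y τ Ee K A' v Sl Λ)
    (hSc : ∀ l < 3, Sc l ↔ l = 1) {s b : ℝ} (s0 : Sl 0 = 1) (s1 : Sl 1 = 2) (s2 : Sl 2 = s)
    (s3 : Sl 3 = b) (hs : 1 < s) (hb : 2 < b) (v2 : v 2 = 0) (v3 : v 3 = 1)
    (hz : ∃ a ≤ M, z 2 a = w 3 - w 2)
    (F3 : (b - 1) - (b - 2) * v 1 + 1 ≤ A')
    (F41 : v 1 ≤ 0) (F42 : v 1 ≤ v 4) (F43 : 2 ≤ A') (F44 : v 4 + 1 ≤ A')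
    (F51 : v 0 ≤ -A') (F52 : v 0 ≤ v 1)
    (F61 : (A' - v 1) + 2 * (b - 1) * (1 - v 1) + 2 ≤ 3 * K) (F62 : A' ≤ K)
    (F63 : 2 * (s - 1) + 3 ≤ 3 * K) (F64 : -v 0 + 3 ≤ K)
    (T5 : (s - 1) + 1 ≤ -v 1) (T6 : s ≤ K + 1)
    (hy : y ≤ 1 / 1000) {X X' Q Q' : ℕ} (hX1 : 20 * (y * U) ≤ X) (hXX : X ≤ X')
    (hX' : (X' : ℝ) ≤ U / 100) (hXs : 4 * (X' : ℝ) ≤ (s - 1) * U) (hQ : (Q : ℝ) ≤ U / 100)
    (hQ' : (Q' : ℝ) ≤ U / 100)
    {a₁ e₁ b0 b1 at' wt' eb' bt' : ℕ} (ha₁ : w 3 ≤ a₁) (he₁ : Ee + 3 * K * U - 1 ≤ e₁)
    (hb0 : (b0 : ℝ) ≤ Λ 0 + U + 5 * (y * U)) (hb1 : (b1 : ℝ) ≤ Λ 1 + 2 * U + 5 * (y * U))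
    (hat : w 3 ≤ at') (hwt : w 2 ≤ wt') (heb : Ee + 3 * K * U - 1 ≤ eb')
    (hbt : (bt' : ℝ) + Q' + 5 * (y * U) ≤ Λ 3 + b * U)
    {X₂ Q₂ Q₃ at₂ wt₂ eb₂ bt₂ : ℕ} (hX2 : 20 * (y * U) ≤ X₂) (hQ2 : (Q₂ : ℝ) ≤ U / 100)
    (hQ3 : (Q₃ : ℝ) ≤ U / 100) (hQX : 2 * (Q₃ : ℝ) + 100 * (y * U) ≤ X') (hat2 : w 3 ≤ at₂)
    (hwt2 : w 2 ≤ wt₂)
    (heb2 : Ee + 3 * K * U - 1 ≤ eb₂)
    (hbt2 : (bt₂ : ℝ) ≤ Λ 2 + U + 10 * (y * U)) :
    ∃ (g' : ℕ → ℕ) (p x d f : ℕ),
      NumW 3 4 M A cl J Sc w e pp z g gc gT g₀ 0 1 2 3 X' p x g' ∧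
      (∀ y < 3, g₀ 3 y ≤ g' y + d) ∧
      NumO J A X w e gT g₀ 0 2 3 f Q a₁ e₁ b0 b1 g' ∧
      NumF 3 J (w 2) (w 3) at' wt' eb' bt' (max (e 2) (e 3)) d Q' f p 1 (g₀ 3) g' (gT 2) ∧
      ∃ f₂ dd p₂ : ℕ, JNum 4 A cl X₂ f₂ dd w pp gc gT g₀ 0 1 2 3 p₂ 2 1 ∧
        f₂ + dd + Q₂ ≤ w 2 - w 1 ∧
        w 3 + g₀ 3 2 + g₀ 3 3 ≤ w 3 + g' 2 + g₀ 3 3 + dd + X' ∧
        g₀ 2 1 + (w 3 - w 2) ≤ g₀ 3 1 + X₂ ∧
        NumG 2 J (w 2) (w 3) at₂ wt₂ eb₂ bt₂ (e 3) dd Q₃ (g₀ 3) := by
  have hU := h.U0
  have hyU0 : 0 < y * U := mul_pos h.y0 hU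
  have hyU := h.yU
  have hyUs : y * U ≤ U / 1000 := by
    have := mul_le_mul_of_nonneg_right hy hU.le
    linarith
  have hXR : (X : ℝ) ≤ X' := by exact_mod_cast hXX
  have c1 := h.cl1
  have c2 := h.cl2
  have hsl := h.sl
  -- products
  have pr : ∀ {x : ℝ}, 0 ≤ x → 0 ≤ x * U := fun hx => mul_nonneg hx hU.le
  have U3 := mul_le_mul_of_nonneg_right F3 hU.le
  have U41 := mul_le_mul_of_nonneg_right F41 hU.le
  have U42 := mul_le_mul_of_nonneg_right F42 hU.le
  have U43 := mul_le_mul_of_nonneg_right F43 hU.le
  have U44 := mul_le_mul_of_nonneg_right F44 hU.le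
  have U51 := mul_le_mul_of_nonneg_right F51 hU.le
  have U52 := mul_le_mul_of_nonneg_right F52 hU.le
  have U61 := mul_le_mul_of_nonneg_right F61 hU.le
  have U62 := mul_le_mul_of_nonneg_right F62 hU.le
  have U63 := mul_le_mul_of_nonneg_right F63 hU.le
  have U64 := mul_le_mul_of_nonneg_right F64 hU.le
  have V5 := mul_le_mul_of_nonneg_right T5 hU.le
  have V6 := mul_le_mul_of_nonneg_right T6 hU.le
  -- the windows
  have W0 := h.w1 0 (by norm_num)
  have W1 := h.w1 1 (by norm_num)
  have W2 := h.w1 2 (by norm_num)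
  have W3 := h.w1 3 (by norm_num)
  have W4 := h.w1 4 (by norm_num)
  rw [v2] at W2
  rw [v3] at W3
  have A1 := h.A1
  have A2 := h.A2
  have m02 : w 0 ≤ w 2 := h.wm 0 (by norm_num) 2 (by norm_num) (by rw [v2]; linarith)
  have m12 : w 1 ≤ w 2 := h.wm 1 (by norm_num) 2 (by norm_num) (by rw [v2]; linarith)
  have m23 : w 2 ≤ w 3 := h.wm 2 (by norm_num) 3 (by norm_num) (by rw [v2, v3]; linarith)
  have hA : ∀ k ≤ 4, ((A - w k : ℕ) : ℝ) = A - w k := fun k hk => by
    rw [Nat.cast_sub (h.wA k hk)]
  have h23 : ((w 3 - w 2 : ℕ) : ℝ) = w 3 - w 2 := by rw [Nat.cast_sub m23]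
  have h20 : ((w 2 - w 0 : ℕ) : ℝ) = w 2 - w 0 := by rw [Nat.cast_sub m02]
  have h21 : ((w 2 - w 1 : ℕ) : ℝ) = w 2 - w 1 := by rw [Nat.cast_sub m12]
  -- rough and static
  have hr : ∀ l < 3, l ≠ 1 → ¬ Sc l := fun l hl hne hsc => hne ((hSc l hl).1 hsc)
  have hst : Sc 1 := (hSc 1 (by norm_num)).2 rfl
  have gTr : ∀ k ≤ 4, ∀ l < 3, l ≠ 1 → gT k l = gc k l := fun k hk l hl hne =>
    h.gr k hk l hl (hr l hl hne)
  have gTs : ∀ k ≤ 4, Λ 1 + 2 * A' * U - 4 * (y * U) ≤ gT k 1 ∧
      (gT k 1 : ℝ) ≤ Λ 1 + 2 * A' * U + 4 * (y * U) := fun k hk => by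
    have := h.gs k hk 1 (by norm_num) hst
    rw [s1] at this
    exact this
  -- levels of the ball `3` and of the label `2`
  have G3 : ∀ l ≤ 3, Λ l + Sl l * U - 2 * (y * U) ≤ g₀ 3 l ∧
      (g₀ 3 l : ℝ) ≤ Λ l + Sl l * U + 2 * (y * U) := fun l hl => by
    have := h.ga 3 (by norm_num) l hl
    rw [v3, mul_one] at this
    exact this
  have G2 : ∀ l ≤ 3, Λ l - 2 * (y * U) ≤ g 2 l ∧ (g 2 l : ℝ) ≤ Λ l + 2 * (y * U) :=
    fun l hl => by
    have := h.gb 2 (by norm_num) l hl
    rw [v2, mul_zero, zero_mul, add_zero] at this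
    exact this
  have C2 : ∀ l ≤ 3, Λ l + A' * U - 4 * (y * U) ≤ gc 2 l ∧
      (gc 2 l : ℝ) ≤ Λ l + A' * U + 4 * (y * U) := fun l hl => by
    have := h.gd 2 (by norm_num) l hl
    rw [v2, mul_zero, zero_mul, add_zero, sub_zero] at this
    exact this
  have C3 : ∀ l ≤ 3, Λ l + Sl l * U + (A' - 1) * U - 4 * (y * U) ≤ gc 3 l ∧
      (gc 3 l : ℝ) ≤ Λ l + Sl l * U + (A' - 1) * U + 4 * (y * U) := fun l hl => by
    have := h.gd 3 (by norm_num) l hl
    rw [v3, mul_one] at this
    exact this
  -- positivity
  have lo0 : ∀ l ≤ 3, U ≤ Λ l + Sl l * v 0 * U := fun l hl => by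
    have h1 := h.lo 0 (by norm_num) l hl
    linarith
  have lo2 : ∀ l ≤ 3, U ≤ Λ l := fun l hl => by
    have h1 := lo0 l hl
    have h2 : 0 ≤ Sl l * (-v 0) * U := by
      have := hsl l hl
      have : 0 ≤ -v 0 := by linarith
      positivity
    linarith
  have slU : ∀ l ≤ 3, U ≤ Sl l * U := fun l hl => by
    have := mul_le_mul_of_nonneg_right (hsl l hl) hU.le
    linarith
  have pos : ∀ k ≤ 4, ∀ l ≤ 3, U ≤ Λ l + Sl l * v k * U := fun k hk l hl => by
    have h1 := h.lo k hk l hl
    have h2 : v 0 ≤ v k := by
      have : k = 0 ∨ k = 1 ∨ k = 2 ∨ k = 3 ∨ k = 4 := by omega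
      rcases this with rfl | rfl | rfl | rfl | rfl
      · exact le_rfl
      · exact F52
      · rw [v2]; linarith
      · rw [v3]; linarith
      · linarith
    have h3 := mul_le_mul_of_nonneg_right h2 hU.le
    linarith
  have vA : ∀ k ≤ 4, v k ≤ A' - 1 := fun k hk => by
    have : k = 0 ∨ k = 1 ∨ k = 2 ∨ k = 3 ∨ k = 4 := by omega
    rcases this with rfl | rfl | rfl | rfl | rfl
    · linarith
    · linarith
    · rw [v2]; linarith
    · rw [v3]; linarith
    · linarith
  have vAU : ∀ k ≤ 4, U ≤ (A' - v k) * U := fun k hk => by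
    have := mul_le_mul_of_nonneg_right (vA k hk) hU.le
    linarith
  have gcp : ∀ k ≤ 4, ∀ l ≤ 3, U ≤ gc k l := fun k hk l hl => by
    have h1 := (h.gd k hk l hl).1
    have h2 := pos k hk l hl
    have h3 := vAU k hk
    linarith
  have ppp : ∀ k ≤ 4, U ≤ pp k := fun k hk => by
    have h1 := h.pa k hk
    have h2 := pos k hk 3 le_rfl
    have h3 := vAU k hk
    linarith
  -- the letters
  obtain ⟨g', hg'⟩ : ∃ g' : ℕ → ℕ, g' = fun l => if l = 1 then g₀ 3 1 else
      gT 2 l - (A - w 3) := ⟨_, rfl⟩
  have g'1 : g' 1 = g₀ 3 1 := by rw [hg']; simp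
  have hsub : ∀ l < 3, l ≠ 1 → A - w 3 ≤ gT 2 l := fun l hl hne => by
    rw [gTr 2 (by norm_num) l hl hne]
    refine nat_le_of_real ?_
    rw [hA 3 (by norm_num)]
    have h1 := (C2 l hl.le).1
    have h2 := lo2 l hl.le
    linarith
  have g'r : ∀ l < 3, l ≠ 1 → g' l + (A - w 3) = gT 2 l := fun l hl hne => by
    have h1 := hsub l hl hne
    rw [hg']
    simp only [hne, if_false]
    omega
  have g'R : ∀ l < 3, l ≠ 1 → Λ l + U - 5 * (y * U) ≤ g' l ∧
      (g' l : ℝ) ≤ Λ l + U + 5 * (y * U) := fun l hl hne => by
    have h1 : (g' l : ℝ) + ((A - w 3 : ℕ) : ℝ) = gT 2 l := by exact_mod_cast g'r l hl hne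
    rw [hA 3 (by norm_num), gTr 2 (by norm_num) l hl hne] at h1
    have h2 := C2 l hl.le
    constructor <;> linarith
  obtain ⟨p, hp⟩ : ∃ p, p = g₀ 3 3 + (A - w 3) - 5 * cl := ⟨_, rfl⟩
  have hpc : 5 * cl ≤ g₀ 3 3 + (A - w 3) := by
    refine nat_le_of_real ?_
    push_cast
    rw [hA 3 (by norm_num)]
    have h1 := (G3 3 le_rfl).1
    have h2 := lo2 3 le_rfl
    have h3 := slU 3 le_rfl
    linarith
  have hpe : p + 5 * cl = g₀ 3 3 + (A - w 3) := by omega
  have hpR : (p : ℝ) + 5 * cl = g₀ 3 3 + (A - w 3) := by
    have : ((p + 5 * cl : ℕ) : ℝ) = ((g₀ 3 3 + (A - w 3) : ℕ) : ℝ) := by rw [hpe]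
    push_cast at this
    rw [hA 3 (by norm_num)] at this
    exact this
  have G33 := G3 3 le_rfl
  rw [s3] at G33
  obtain ⟨xr, hxr⟩ : ∃ xr : ℝ, xr = (b - 1) * (1 - v 1) * U + 10 * (y * U) := ⟨_, rfl⟩
  have hxr0 : 0 ≤ (b - 1) * (1 - v 1) * U := by
    have : 0 ≤ (b - 1) := by linarith
    have : 0 ≤ 1 - v 1 := by linarith
    positivity
  obtain ⟨x, hx⟩ : ∃ x : ℕ, x = ⌈xr⌉₊ := ⟨_, rfl⟩
  have hx1 : xr ≤ x := by rw [hx]; exact Nat.le_ceil _
  have hx2 : (x : ℝ) ≤ xr + 1 := by
    rw [hx]
    exact (Nat.ceil_lt_add_one (by rw [hxr]; linarith)).le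
  obtain ⟨d, hd⟩ : ∃ d : ℕ, d = ⌈(s - 1) * U + 10 * (y * U)⌉₊ := ⟨_, rfl⟩
  have hs1U : 0 ≤ (s - 1) * U := pr (by linarith)
  have hd1 : (s - 1) * U + 10 * (y * U) ≤ d := by rw [hd]; exact Nat.le_ceil _
  have hd2 : (d : ℝ) ≤ (s - 1) * U + 10 * (y * U) + 1 := by
    rw [hd]
    exact (Nat.ceil_lt_add_one (by linarith)).le
  obtain ⟨f, hf⟩ : ∃ f : ℕ, f = ⌊-v 0 * U⌋₊ := ⟨_, rfl⟩
  have hf1 : (f : ℝ) ≤ -v 0 * U := by
    rw [hf]
    exact Nat.floor_le (pr (by linarith))
  have hf2 : -v 0 * U - 1 ≤ f := by
    rw [hf]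
    have := Nat.lt_floor_add_one (-v 0 * U)
    linarith
  have heM : ((max (e 2) (e 3) : ℕ) : ℝ) ≤ Ee + y * U := by
    rcases max_choice (e 2) (e 3) with h1 | h1
    · rw [h1]
      exact h.ee 2 (by norm_num)
    · rw [h1]
      exact h.ee 3 (by norm_num)
  have ro := h.ro
  have e1' := h.ee 1 (by norm_num)
  have G30 := G3 0 (by norm_num)
  have G31 := G3 1 (by norm_num)
  have G32 := G3 2 (by norm_num)
  rw [s0] at G30
  rw [s1] at G31
  rw [s2] at G32
  have g'0 := g'R 0 (by norm_num) (by norm_num)
  have g'2 := g'R 2 (by norm_num) (by norm_num)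
  have hroomg : ∀ l ≤ 3, ∀ t : ℝ, t ≤ K → Λ l + Sl l * t * U + Ee + 3 * K * U ≤
      J + y * U := fun l hl t ht => by
    have h1 := ro l hl
    have h2 : 0 ≤ Sl l * (K - t) * U := by
      have := hsl l hl
      have : 0 ≤ K - t := by linarith
      positivity
    linarith
  -- the second ball
  obtain ⟨dd, hdd⟩ : ∃ dd : ℕ, dd = ⌈(s - 1) * U - X' / 2⌉₊ := ⟨_, rfl⟩
  have hX0 : (0 : ℝ) ≤ X' := Nat.cast_nonneg _
  have hdd1 : (s - 1) * U - X' / 2 ≤ dd := by rw [hdd]; exact Nat.le_ceil _
  have hdd2 : (dd : ℝ) ≤ (s - 1) * U - X' / 2 + 1 := by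
    rw [hdd]
    exact (Nat.ceil_lt_add_one (by linarith)).le
  obtain ⟨ff, hff⟩ : ∃ ff : ℕ, ff = ⌈(s - 1) * U + 8 * (y * U)⌉₊ := ⟨_, rfl⟩
  have hff1 : (s - 1) * U + 8 * (y * U) ≤ ff := by rw [hff]; exact Nat.le_ceil _
  have hff2 : (ff : ℝ) ≤ (s - 1) * U + 8 * (y * U) + 1 := by
    rw [hff]
    exact (Nat.ceil_lt_add_one (by linarith)).le
  have hdf : dd ≤ ff := nat_le_of_real (by linarith)
  obtain ⟨f₂, hf₂⟩ : ∃ f₂, f₂ = ff - dd := ⟨_, rfl⟩
  have hf2e : f₂ + dd = ff := by omega
  have vA3 := vAU 3 (by norm_num)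
  rw [v3] at vA3
  have B2 : ∀ l ≤ 3, Λ l - 2 * (y * U) ≤ g₀ 2 l ∧ (g₀ 2 l : ℝ) ≤ Λ l + 2 * (y * U) :=
    fun l hl => by
    have := h.ga 2 (by norm_num) l hl
    rw [v2, mul_zero, zero_mul, add_zero] at this
    exact this
  have B21 := B2 1 (by norm_num)
  have B22 := B2 2 (by norm_num)
  refine ⟨g', p, x, d, f, ?_, ?_, ?_, ?_, f₂, dd, p, ?_, ?_, ?_, ?_, ?_⟩
  · exact
      { h0 := by norm_num
        h1 := by norm_num
        h2 := by norm_num
        h3 := by norm_num
        w0 := m02
        w1 := m12
        w2 := m23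
        jz := hz
        one := fun l hl hsl x hx => by
          have h1 := (hSc l hl).1 hsl
          exact hr x (by omega) (by omega)
        pos := fun k hk => ⟨fun l hl => nat_le_of_real (by
          push_cast
          by_cases hl1 : l = 1
          · subst hl1
            have h1 := (gTs k hk).1
            have h2 := lo2 1 (by norm_num)
            linarith
          · rw [gTr k hk l hl hl1]
            have h1 := gcp k hk l hl.le
            linarith), fun l hl => nat_le_of_real (by
          push_cast
          have h1 := gcp k hk l hl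
          linarith), nat_le_of_real (by
          have h1 := ppp k hk
          linarith)⟩
        mo0 := fun l hl => nat_le_of_real (by
          push_cast
          by_cases hl1 : l = 1
          · subst hl1
            have h1 := (gTs 0 (by norm_num)).2
            have h2 := (gTs 2 (by norm_num)).1
            linarith
          · rw [gTr 0 (by norm_num) l hl hl1, gTr 2 (by norm_num) l hl hl1]
            have h1 := (h.gd 0 (by norm_num) l hl.le).2
            have h2 := (C2 l hl.le).1
            have h3 : 0 ≤ (Sl l - 1) * (-v 0) * U := by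
              have := hsl l hl.le
              have : 0 ≤ Sl l - 1 := by linarith
              have : 0 ≤ -v 0 := by linarith
              positivity
            linarith)
        mo1 := fun l hl => nat_le_of_real (by
          push_cast
          by_cases hl1 : l = 1
          · subst hl1
            have h1 := (gTs 1 (by norm_num)).2
            have h2 := (gTs 2 (by norm_num)).1
            linarith
          · rw [gTr 1 (by norm_num) l hl hl1, gTr 2 (by norm_num) l hl hl1]
            have h1 := (h.gd 1 (by norm_num) l hl.le).2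
            have h2 := (C2 l hl.le).1
            have h3 : 0 ≤ (Sl l - 1) * (-v 1) * U := by
              have := hsl l hl.le
              have : 0 ≤ Sl l - 1 := by linarith
              have : 0 ≤ -v 1 := by linarith
              positivity
            linarith)
        st2 := fun l hl hsc => nat_le_of_real (by
          rw [(hSc l hl).1 hsc]
          push_cast
          have h1 := (gTs 2 (by norm_num)).2
          have h2 := (gTs 0 (by norm_num)).1
          linarith)
        st3 := fun l hl hsc => nat_le_of_real (by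
          rw [(hSc l hl).1 hsc]
          push_cast
          have h1 := (gTs 3 (by norm_num)).2
          have h2 := (gTs 0 (by norm_num)).1
          linarith)
        stK := fun l hl hsc => nat_le_of_real (by
          rw [(hSc l hl).1 hsc]
          push_cast
          rw [hA 3 (by norm_num)]
          have h2 := (gTs 0 (by norm_num)).1
          linarith)
        gr := fun k hk l hl hsc => nat_le_of_real (by
          rw [(hSc l hl).1 hsc]
          push_cast
          have h1 := (h.gd k hk 1 (by norm_num)).2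
          rw [s1] at h1
          have h2 := (gTs k hk).1
          have h3 := vAU k hk
          linarith)
        sp := fun l hl hsc => by
          rw [(hSc l hl).1 hsc]
          exact g'1
        rT := fun l hl hsc => (g'r l hl (fun h1 => hsc ((hSc l hl).2 h1))).symm
        up := fun l hl => nat_le_of_real (by
          push_cast
          rw [h23]
          have h1 := (G2 l hl).2
          have h2 := (G3 l hl).1
          have h3 := slU l hl
          linarith)
        hh := fun l hl hsc x hx hxc => nat_le_of_real (by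
          have h1 : l ≠ 1 := fun h1 => hsc ((hSc l hl).2 h1)
          have h2 : x ≠ 1 := fun h1 => hxc ((hSc x (by omega)).2 h1)
          have h3 : x = 0 := by omega
          rw [h3]
          push_cast
          linarith)
        vp := nat_le_of_real (by
          push_cast
          rw [hA 3 (by norm_num)]
          linarith)
        pq := nat_le_of_real (by
          push_cast
          have h1 := h.pa 1 (by norm_num)
          rw [s3] at h1
          linarith)
        pc := by
          have h1 := h.ng 3 (by norm_num) 3 le_rfl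
          omega
        px := nat_le_of_real (by
          push_cast
          have h1 := (h.gd 1 (by norm_num) 3 le_rfl).1
          rw [s3] at h1
          linarith)
        r0 := nat_le_of_real (by
          push_cast
          have h1 := hroomg 0 (by norm_num) 0 (by linarith)
          have h2 := lo2 0 (by norm_num)
          have h3 : (0 : ℝ) ≤ e 1 := Nat.cast_nonneg _
          linarith)
        r1 := fun l hl => nat_le_of_real (by
          push_cast
          by_cases hl1 : l = 1
          · subst hl1
            have h1 := (gTs 1 (by norm_num)).2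
            have h2 := hroomg 1 (by norm_num) A' F62
            rw [s1] at h2
            linarith
          · rw [gTr 1 (by norm_num) l hl hl1]
            have h1 := (h.gd 1 (by norm_num) l hl.le).2
            have h2 := hroomg l hl.le (v 1) (by linarith)
            linarith)
        r2 := fun l hl => nat_le_of_real (by
          push_cast
          have h1 := (h.gd 1 (by norm_num) l hl.le).2
          have h2 := hroomg l hl.le (v 1) (by linarith)
          linarith)
        r3 := nat_le_of_real (by
          push_cast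
          have h1 := (h.gd 1 (by norm_num) 3 le_rfl).2
          have h2 := hroomg 3 le_rfl (v 1) (by linarith)
          linarith) }
  · intro l hl
    have : l = 0 ∨ l = 1 ∨ l = 2 := by omega
    rcases this with rfl | rfl | rfl
    · refine nat_le_of_real ?_
      push_cast
      linarith
    · rw [g'1]
      omega
    · refine nat_le_of_real ?_
      push_cast
      linarith
  · exact
      { st := nat_le_of_real (by
          push_cast
          rw [hA 0 (by norm_num)]
          have h1 := (h.ga 0 (by norm_num) 1 (by norm_num)).2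
          rw [s1] at h1
          have h2 := (gTs 0 (by norm_num)).1
          have h3 := vAU 0 (by norm_num)
          linarith)
        K1 := ha₁
        l0 := nat_le_of_real (by
          push_cast
          rw [hA 3 (by norm_num)]
          have h2 := (gTs 0 (by norm_num)).1
          linarith)
        l3 := nat_le_of_real (by
          push_cast
          rw [hA 3 (by norm_num)]
          have h2 := (gTs 3 (by norm_num)).1
          linarith)
        g0 := nat_le_of_real (by
          have h1 := lo2 0 (by norm_num)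
          linarith)
        rm := fun l hl => nat_le_of_real (by
          push_cast
          have h1 := (G3 l (by omega)).2
          have h2 := hroomg l (by omega) 1 (by linarith)
          have h3 := h.ee 3 (by norm_num)
          linarith)
        ef := nat_le_of_real (by
          push_cast
          have h3 := h.ee 3 (by norm_num)
          linarith)
        f0 := nat_le_of_real (by
          have h1 : (w 3 : ℝ) ≤ a₁ := by exact_mod_cast ha₁
          push_cast
          linarith)
        f1 := nat_le_of_real (by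
          have h1 : (w 3 : ℝ) ≤ a₁ := by exact_mod_cast ha₁
          push_cast
          linarith)
        g1 := nat_le_of_real (by
          push_cast
          linarith)
        va := nat_le_of_real (by
          push_cast
          rw [h20]
          have h1 := (h.ga 0 (by norm_num) 0 (by norm_num)).2
          have h2 := (h.ga 0 (by norm_num) 1 (by norm_num)).1
          rw [s0] at h1
          rw [s1] at h2
          linarith) }
  · have k1 : (w 3 : ℝ) ≤ at' := by exact_mod_cast hat
    exact
      { K1 := hat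
        t1 := hwt
        f1 := nat_le_of_real (by linarith)
        f2 := nat_le_of_real (by
          push_cast
          have h1 := (gTs 2 (by norm_num)).2
          linarith)
        n1 := nat_le_of_real (by
          push_cast at heM ⊢
          linarith)
        n2 := fun l hl => nat_le_of_real (by
          have h2 := hroomg l hl.le 1 (by linarith)
          by_cases hl1 : l = 1
          · subst hl1
            rw [g'1]
            push_cast at heM ⊢
            rw [s1] at h2
            linarith
          · have h1 := (g'R l hl hl1).2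
            have h3 := slU l hl.le
            push_cast at heM ⊢
            linarith)
        n3 := nat_le_of_real (by
          have h2 := hroomg 3 le_rfl 1 (by linarith)
          rw [s3] at h2
          push_cast at heM ⊢
          linarith)
        n4 := fun l hl => nat_le_of_real (by
          have h3 := lo2 l hl.le
          by_cases hl1 : l = 1
          · subst hl1
            rw [g'1]
            linarith
          · have h1 := (g'R l hl hl1).1
            linarith)
        n5 := nat_le_of_real (by
          have h3 := lo2 3 le_rfl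
          have : 0 ≤ b * U := pr (by linarith)
          linarith)
        n6 := nat_le_of_real (by
          push_cast
          linarith) }
  · exact
      { iN := by norm_num
        i1N := by norm_num
        tN := by norm_num
        kN := by norm_num
        it := m02
        i1t := m12
        tk := m23
        cT := fun l hl => by
          have q : ∀ k ≤ 4, cl ≤ gT k l := fun k hk => nat_le_of_real (by
            by_cases hl1 : l = 1
            · subst hl1
              have h1 := (gTs k hk).1
              have h2 := lo2 1 (by norm_num)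
              linarith
            · rw [gTr k hk l hl hl1]
              have h1 := gcp k hk l hl.le
              linarith)
          exact ⟨q 0 (by norm_num), q 2 (by norm_num), q 3 (by norm_num), nat_le_of_real (by
            have h1 := gcp 3 (by norm_num) l hl.le
            linarith)⟩
        pk := nat_le_of_real (by
          have h1 := ppp 3 (by norm_num)
          linarith)
        ck := nat_le_of_real (by
          have h1 := gcp 3 (by norm_num) 3 le_rfl
          linarith)
        m1 := nat_le_of_real (by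
          push_cast
          have h1 := (gTs 3 (by norm_num)).2
          have h2 := (gTs 0 (by norm_num)).1
          linarith)
        lb := nat_le_of_real (by
          push_cast
          rw [hA 3 (by norm_num)]
          have h2 := (gTs 3 (by norm_num)).1
          linarith)
        P1 := nat_le_of_real (by
          push_cast
          have h1 := h.pa 1 (by norm_num)
          rw [s3] at h1
          linarith)
        P2 := by
          have h1 := h.ng 3 (by norm_num) 3 le_rfl
          omega
        vp := nat_le_of_real (by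
          push_cast
          rw [hA 3 (by norm_num)]
          linarith)
        mj := nat_le_of_real (by
          push_cast
          rw [h23]
          linarith)
        fz := by
          rw [hf2e]
          exact nat_le_of_real (by
            push_cast
            rw [h23]
            linarith) }
  · rw [hf2e]
    exact nat_le_of_real (by
      push_cast
      rw [h21]
      linarith)
  · exact nat_le_of_real (by
      push_cast
      linarith)
  · exact nat_le_of_real (by
      push_cast
      rw [h23]
      linarith)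
  · have k1 : (w 3 : ℝ) ≤ at₂ := by exact_mod_cast hat2
    have e5 := h.ee 3 (by norm_num)
    exact
      { K1 := hat2
        t1 := hwt2
        n1 := nat_le_of_real (by
          push_cast
          linarith)
        n2 := fun l hl => nat_le_of_real (by
          have h1 := (G3 l (by omega)).2
          have h2 := hroomg l (by omega) 1 (by linarith)
          push_cast
          linarith)
        n4 := fun l hl => nat_le_of_real (by
          have h1 := (G3 l (by omega)).1
          have h3 := pos 3 (by norm_num) l (by omega)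
          rw [v3, mul_one] at h3
          linarith)
        n5 := nat_le_of_real (by
          have h3 := h.lo 3 (by norm_num) 2 (by norm_num)
          rw [s2, v3] at h3
          push_cast
          linarith)
        n6 := nat_le_of_real (by
          push_cast
          linarith) }

end Pool.TNW
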