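import Pool.Agent.H90.D2.Num

/-!
# D2, `(1,2,2;3)`, both rough: the case split [2a] / [2b]

`c6_ab`: if the functionals are not small and two independent functionals are transversal then the
slopes of two samples of one line agree with probability at least `1 / 32`.
-/

set_option autoImplicit false

namespace Pool.D2N

open Finset Real
open Pool.Agent.H49.Ent Pool.Agent.H32.Dense Pool.STK
open Pool.K2S
open Pool.KM7 (P2 P2_isLaw P2_pos)
open Pool.D2A Pool.D2T Pool.D2G Pool.D2JA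

variable {Ω σ ζ ζ' ε : Type} [Fintype Ω]
  {p : Ω → ℝ} {S : Ω → σ} {z : Ω → ζ} {z' : Ω → ζ'} {e : Ω → ε} {E0 : ζ → ε → ℝ}
  {A0 T0 : ζ → ε → Fin 2 → ℝ} {b ek : Ω → ℤ} {P : Ω → Fin 2 → ℤ} {U : Ω → Fin 2 → Fin 2 → ℤ}
  {A s k K₀ : ℕ} {L K cE eF eH eP : ℝ}

open Classical in
/-- The own sample and copies of its side. -/
theorem PrD.xo (D : PrD p S z z' e E0 A0 T0 b ek P U A s k K₀ L K cE eF eH eP) {M : ℕ}
    (js : Fin M → Fin 5) (hjs : Function.Injective js) (B : ζ → (Fin M → ε) → ε → Prop) :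
    law (PL p S z' sd10) (fun w => B (z w.1.1) (fun a => (Wc e b w (ja (js a))).1) (e w.1.1))
      True = ∑ ω, p ω * ∑ g : Fin M → Ω, (∏ k, cond p z' (z' ω) (g k)) *
        (if B (z ω) (fun a => e (g a)) (e ω) then 1 else 0) :=
  Pool.D2Con.own_eq D.isLaw S z' sd10 true (fun a => ja (js a)) (fun _ _ h => hjs (ja_inj h))
    (fun _ => sd_ja _) (fun g ω => B (z ω) (fun a => e (g a)) (e ω))

open Classical in
/-- A copy in the place of the own sample. -/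
theorem PrD.xc (D : PrD p S z z' e E0 A0 T0 b ek P U A s k K₀ L K cE eF eH eP) {M : ℕ}
    (js : Fin M → Fin 5) (r : Fin 5)
    (hjs : Function.Injective (Fin.cons r js : Fin (M + 1) → Fin 5))
    (B : ζ → (Fin M → ε) → ε → Prop) :
    law (PL p S z' sd10) (fun w => B (z w.1.1) (fun a => (Wc e b w (ja (js a))).1)
      (Wc e b w (ja r)).1) True = ∑ ω, p ω * ∑ g : Fin M → Ω, (∏ k, cond p z' (z' ω) (g k)) *
        (if B (z ω) (fun a => e (g a)) (e ω) then 1 else 0) := by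
  have hq := (PL_isLaw D.isLaw S z' sd10).nonneg
  have h1 := Pool.D2Con.cop_eq D.isLaw S z' sd10 true (fun a => ja (js a)) (ja r) (by
      intro a a' h
      refine hjs ?_
      have h2 : ∀ a, (Fin.cons (ja r) (fun a => ja (js a)) : Fin (M + 1) → Fin 10) a =
          ja ((Fin.cons r js : Fin (M + 1) → Fin 5) a) := by
        intro a
        refine Fin.cases ?_ (fun i => ?_) a
        · rw [Fin.cons_zero, Fin.cons_zero]
        · rw [Fin.cons_succ, Fin.cons_succ]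
      rw [h2, h2] at h
      exact ja_inj h)
    (fun _ => sd_ja _) (sd_ja _) (fun g ω => B (z ω) (fun a => e (g a)) (e ω))
  rw [← h1]
  refine le_antisymm (law_le hq fun w hw h => ?_) (law_le hq fun w hw h => ?_)
  · obtain ⟨-, z2, -, -, -, -⟩ := D.cpz hw (ja r)
    show B (z (cp sd10 (ja r) w)) (fun a => e (cp sd10 (ja (js a)) w)) (e (cp sd10 (ja r) w))
    rw [z2]
    exact h
  · obtain ⟨-, z2, -, -, -, -⟩ := D.cpz hw (ja r)
    have h3 : B (z (cp sd10 (ja r) w)) (fun a => e (cp sd10 (ja (js a)) w))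
      (e (cp sd10 (ja r) w)) := h
    rw [z2] at h3
    exact h3

theorem f4_det (Aa : Fin 4 → Fin 2 → ℝ) (Ea : Fin 4 → ℝ) :
    (f4 Aa Ea).det = w2 (ap (gm (Aa 0) (xe (Ea 0)) (Aa 1) (xe (Ea 1)) (Aa 2) (xe (Ea 2)))
      (xe (Ea 3))) (Aa 3) := by
  rw [← gm_det4]
  congr 1
  ext a j
  fin_cases a <;> rfl

/-- The determinant of three copies and one more sample is small. -/
def B3 (E0 : ζ → ε → ℝ) (A0 : ζ → ε → Fin 2 → ℝ) (δ : ℝ) (y : ζ) (xs : Fin 3 → ε) (x : ε) : Prop :=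
  |w2 (ap (gm (A0 y (xs 0)) (xe (E0 y (xs 0))) (A0 y (xs 1)) (xe (E0 y (xs 1)))
    (A0 y (xs 2)) (xe (E0 y (xs 2)))) (xe (E0 y x))) (A0 y x)| < δ

/-- Two functionals are almost proportional. -/
def B1 (A0 : ζ → ε → Fin 2 → ℝ) (μ₁ : ℝ) (y : ζ) (xs : Fin 1 → ε) (x : ε) : Prop :=
  |w2 (A0 y x) (A0 y (xs 0))| < μ₁

theorem inj1 (a : Fin 5) : Function.Injective (fun _ : Fin 1 => a) := fun _ _ _ =>
  Subsingleton.elim _ _

theorem PrD.pair_own (D : PrD p S z z' e E0 A0 T0 b ek P U A s k K₀ L K cE eF eH eP) {μ₁ c : ℝ}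
    (h1 : law (PL p S z' sd10) (fun w => |w2 (A0 (z w.1.1) (e w.1.1))
      (A0 (z w.1.1) (Wc e b w (ja 0)).1)| < μ₁) True ≤ c) (r : Fin 5) :
    law (PL p S z' sd10) (fun w => |w2 (A0 (z w.1.1) (e w.1.1))
      (A0 (z w.1.1) (Wc e b w (ja r)).1)| < μ₁) True ≤ c := by
  have e1 := D.xo (fun _ : Fin 1 => (0 : Fin 5)) (inj1 _) (B1 A0 μ₁)
  have e2 := D.xo (fun _ : Fin 1 => r) (inj1 _) (B1 A0 μ₁)
  refine le_trans (le_of_eq ?_) h1
  exact e2.trans e1.symm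

theorem PrD.pair_cop (D : PrD p S z z' e E0 A0 T0 b ek P U A s k K₀ L K cE eF eH eP) {μ₁ c : ℝ}
    (h1 : law (PL p S z' sd10) (fun w => |w2 (A0 (z w.1.1) (e w.1.1))
      (A0 (z w.1.1) (Wc e b w (ja 0)).1)| < μ₁) True ≤ c) {r r' : Fin 5} (hr : r ≠ r') :
    law (PL p S z' sd10) (fun w => |w2 (A0 (z w.1.1) (Wc e b w (ja r)).1)
      (A0 (z w.1.1) (Wc e b w (ja r')).1)| < μ₁) True ≤ c := by
  have e1 := D.xo (fun _ : Fin 1 => (0 : Fin 5)) (inj1 _) (B1 A0 μ₁)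
  have e2 := D.xc (fun _ : Fin 1 => r') r (by
    intro a a' h
    revert h
    refine Fin.cases ?_ (fun i => ?_) a <;> refine Fin.cases ?_ (fun i' => ?_) a'
    · intro _
      rfl
    · intro h
      rw [Fin.cons_zero, Fin.cons_succ] at h
      exact absurd h hr
    · intro h
      rw [Fin.cons_zero, Fin.cons_succ] at h
      exact absurd h.symm hr
    · intro _
      rw [Subsingleton.elim i i']) (B1 A0 μ₁)
  refine le_trans (le_of_eq ?_) h1
  exact e2.trans e1.symm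

/-- **Four copies are transversal** if case [2a] has small probability. -/
theorem PrD.four (D : PrD p S z z' e E0 A0 T0 b ek P U A s k K₀ L K cE eF eH eP)
    {μA μ₁ δ c c₀ c₁ c₂ : ℝ} (hc : 0 < c)
    (hn : Real.log 2 / c + Real.log (5 : ℕ) < (1 - cE / c) * Real.log K₀)
    (h0 : law p (fun ω => ∀ i, |A0 (z ω) (e ω) i| < μA) True ≤ c₀)
    (h1 : law (PL p S z' sd10) (fun w => |w2 (A0 (z w.1.1) (e w.1.1))
      (A0 (z w.1.1) (Wc e b w (ja 0)).1)| < μ₁) True ≤ c₁)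
    (h2 : law (PL p S z' sd10) (fun w => B2a E0 A0 k μA μ₁ δ (z w.1.1)
      (Ws ja (Wc e b w)) (e w.1.1)) True ≤ c₂) :
    1 - (c₂ + c₀ + 3 * c₁ + 3 * c) ≤ law (PL p S z' sd10) (fun w => B2b E0 A0 δ (z w.1.1)
      (Ws ja (Wc e b w))) True := by
  have hp := D.isLaw
  have hQ := PL_isLaw hp S z' sd10
  have hq := hQ.nonneg
  -- the failing event has the probability of the event with the own sample
  have e1 := D.xo j3 (by decide) (B3 E0 A0 δ)
  have e2 := D.xc j3 3 (by decide) (B3 E0 A0 δ)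
  have e3 : law (PL p S z' sd10) (fun w => ¬ B2b E0 A0 δ (z w.1.1) (Ws ja (Wc e b w))) True ≤
      law (PL p S z' sd10) (fun w => B3 E0 A0 δ (z w.1.1)
        (fun a => (Wc e b w (ja (j3 a))).1) (e w.1.1)) True := by
    rw [e1, ← e2]
    refine law_le hq fun w _ h => ?_
    have h3 : |(f4 (cA4 A0 (z w.1.1) (Ws ja (Wc e b w)))
        (cE4 E0 (z w.1.1) (Ws ja (Wc e b w)))).det| < δ := not_le.mp h
    rw [f4_det] at h3
    exact h3
  -- the own event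
  have o0 : law (PL p S z' sd10) (fun w => ∀ i, |A0 (z w.1.1) (e w.1.1) i| < μA) True ≤ c₀ := by
    have h3 : law (PL p S z' sd10) (fun w => ∀ i, |A0 (z w.1.1) (e w.1.1) i| < μA) True =
        law p (fun ω => ∀ i, |A0 (z ω) (e ω) i| < μA) True := by
      have h4 := (PL_base hp S z' sd10).law (fun v => ∀ i, |A0 (z v.1) (e v.1) i| < μA) True
      have h5 := (Pool.D2Con.P2_side hp S true).law (fun ω => ∀ i, |A0 (z ω) (e ω) i| < μA) True
      exact h4.trans h5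
    rw [h3]
    exact h0
  have p01 := D.pair_cop h1 (r := 0) (r' := 1) (by decide)
  have p02 := D.pair_cop h1 (r := 0) (r' := 2) (by decide)
  have p12 := D.pair_cop h1 (r := 1) (r' := 2) (by decide)
  have s01 := (D.sepc hc hn (r := ja 0) (r' := ja 1) (by decide)).le
  have s02 := (D.sepc hc hn (r := ja 0) (r' := ja 2) (by decide)).le
  have s12 := (D.sepc hc hn (r := ja 1) (r' := ja 2) (by decide)).le
  obtain ⟨F0, hF0⟩ : ∃ F : (Ω × Ω) × (Fin 10 → Ω × Ω) → Prop, F = fun w =>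
    B2a E0 A0 k μA μ₁ δ (z w.1.1) (Ws ja (Wc e b w)) (e w.1.1) := ⟨_, rfl⟩
  obtain ⟨F1, hF1⟩ : ∃ F : (Ω × Ω) × (Fin 10 → Ω × Ω) → Prop, F = fun w =>
    ∀ i, |A0 (z w.1.1) (e w.1.1) i| < μA := ⟨_, rfl⟩
  obtain ⟨F2, hF2⟩ : ∃ F : (Ω × Ω) × (Fin 10 → Ω × Ω) → Prop, F = fun w =>
    |w2 (A0 (z w.1.1) (Wc e b w (ja 0)).1) (A0 (z w.1.1) (Wc e b w (ja 1)).1)| < μ₁ := ⟨_, rfl⟩
  obtain ⟨F3, hF3⟩ : ∃ F : (Ω × Ω) × (Fin 10 → Ω × Ω) → Prop, F = fun w =>
    |w2 (A0 (z w.1.1) (Wc e b w (ja 0)).1) (A0 (z w.1.1) (Wc e b w (ja 2)).1)| < μ₁ := ⟨_, rfl⟩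
  obtain ⟨F4, hF4⟩ : ∃ F : (Ω × Ω) × (Fin 10 → Ω × Ω) → Prop, F = fun w =>
    |w2 (A0 (z w.1.1) (Wc e b w (ja 1)).1) (A0 (z w.1.1) (Wc e b w (ja 2)).1)| < μ₁ := ⟨_, rfl⟩
  obtain ⟨F5, hF5⟩ : ∃ F : (Ω × Ω) × (Fin 10 → Ω × Ω) → Prop, F = fun w =>
    |E0 (z w.1.1) (e (cp sd10 (ja 0) w)) - E0 (z w.1.1) (e (cp sd10 (ja 1) w))| < 1 / 2 ^ k :=
    ⟨_, rfl⟩
  obtain ⟨F6, hF6⟩ : ∃ F : (Ω × Ω) × (Fin 10 → Ω × Ω) → Prop, F = fun w =>
    |E0 (z w.1.1) (e (cp sd10 (ja 0) w)) - E0 (z w.1.1) (e (cp sd10 (ja 2) w))| < 1 / 2 ^ k :=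
    ⟨_, rfl⟩
  obtain ⟨F7, hF7⟩ : ∃ F : (Ω × Ω) × (Fin 10 → Ω × Ω) → Prop, F = fun w =>
    |E0 (z w.1.1) (e (cp sd10 (ja 1) w)) - E0 (z w.1.1) (e (cp sd10 (ja 2) w))| < 1 / 2 ^ k :=
    ⟨_, rfl⟩
  rw [← hF0] at h2
  rw [← hF1] at o0
  rw [← hF2] at p01
  rw [← hF3] at p02
  rw [← hF4] at p12
  rw [← hF5] at s01
  rw [← hF6] at s02
  rw [← hF7] at s12
  have hcov := law_le hq (A := fun w => B3 E0 A0 δ (z w.1.1)
        (fun a => (Wc e b w (ja (j3 a))).1) (e w.1.1))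
    (B := fun w => ((F0 w ∨ F1 w) ∨ (F2 w ∨ F3 w)) ∨ ((F4 w ∨ F5 w) ∨ (F6 w ∨ F7 w)))
    (fun w _ h => by
      by_cases c1 : F1 w
      · exact Or.inl (Or.inl (Or.inr c1))
      by_cases c2 : F2 w
      · exact Or.inl (Or.inr (Or.inl c2))
      by_cases c3 : F3 w
      · exact Or.inl (Or.inr (Or.inr c3))
      by_cases c4 : F4 w
      · exact Or.inr (Or.inl (Or.inl c4))
      by_cases c5 : F5 w
      · exact Or.inr (Or.inl (Or.inr c5))
      by_cases c6 : F6 w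
      · exact Or.inr (Or.inr (Or.inl c6))
      by_cases c7 : F7 w
      · exact Or.inr (Or.inr (Or.inr c7))
      left
      left
      left
      rw [hF1] at c1
      rw [hF2] at c2
      rw [hF3] at c3
      rw [hF4] at c4
      rw [hF5] at c5
      rw [hF6] at c6
      rw [hF7] at c7
      rw [hF0]
      refine ⟨?_, not_lt.mp c2, not_lt.mp c3, not_lt.mp c4, not_lt.mp c5, not_lt.mp c6,
        not_lt.mp c7, ?_⟩
      · by_contra hcon
        exact c1 fun i => not_le.mp fun h' => hcon ⟨i, h'⟩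
      · have h3 := le_of_lt h
        refine le_trans (le_of_eq ?_) h3
        have h4 : ∀ u v : Fin 2 → ℝ, |w2 u v| = |w2 v u| := by
          intro u v
          unfold w2
          rw [← abs_neg]
          congr 1
          ring
        exact h4 _ _)
  have o1 := Pb_or hq (fun w => (F0 w ∨ F1 w) ∨ (F2 w ∨ F3 w))
    (fun w => (F4 w ∨ F5 w) ∨ (F6 w ∨ F7 w))
  have o2 := Pb_or hq (fun w => F0 w ∨ F1 w) (fun w => F2 w ∨ F3 w)
  have o3 := Pb_or hq (fun w => F4 w ∨ F5 w) (fun w => F6 w ∨ F7 w)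
  have o4 := Pb_or hq F0 F1
  have o5 := Pb_or hq F2 F3
  have o6 := Pb_or hq F4 F5
  have o7 := Pb_or hq F6 F7
  rw [← law_Pb, ← law_Pb, ← law_Pb] at o1 o2 o3 o4 o5 o6 o7
  -- the complement
  have hcomp : 1 ≤ law (PL p S z' sd10) (fun w => B2b E0 A0 δ (z w.1.1)
      (Ws ja (Wc e b w))) True +
      law (PL p S z' sd10) (fun w => ¬ B2b E0 A0 δ (z w.1.1) (Ws ja (Wc e b w))) True := by
    have h5 := Pb_or hq (fun w => B2b E0 A0 δ (z w.1.1) (Ws ja (Wc e b w)))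
      (fun w => ¬ B2b E0 A0 δ (z w.1.1) (Ws ja (Wc e b w)))
    have h6 := law_le hq (A := fun _ => True) (B := fun w =>
      B2b E0 A0 δ (z w.1.1) (Ws ja (Wc e b w)) ∨ ¬ B2b E0 A0 δ (z w.1.1) (Ws ja (Wc e b w)))
      (fun w _ _ => em _)
    have h7 : law (PL p S z' sd10) (fun _ => True) True = 1 := by
      unfold law
      simp only [if_true]
      exact hQ.sum_one
    rw [← law_Pb, ← law_Pb, ← law_Pb] at h5
    linarith
  linarith

/-- **Cases [2a] and [2b].** -/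
theorem c6_ab (D : PrD p S z z' e E0 A0 T0 b ek P U A s k K₀ L K cE eF eH eP)
    {μA μ₁ : ℝ} {v gt : ℕ} (hv : 1 ≤ v) (hL : L ≤ 2 ^ v) (hA : ((2 * A : ℕ) : ℝ) ≤ 2 ^ v)
    (hK : K ≤ 2 ^ v) (hk : k ≤ v) (hgt : gt ≤ v) (hμA : 1 / 2 ^ v ≤ μA) (hμ₁ : 1 / 2 ^ v ≤ μ₁)
    (hs : 600 * v ≤ s) (heF : 0 ≤ eF) (heH : 0 ≤ eH)
    (hτ0 : 0 < gt * Real.log 2 - Real.log 3)
    (hτ : eP + Real.log (2 * A + 1) + Real.log 2 ≤ 1 / 128 * (gt * Real.log 2 - Real.log 3))
    (hn : (10 * (eF + eH) + Real.log 2) * 1024 + Real.log 9 < (1 - cE * 1024) * Real.log K₀)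
    (hN : (2 * eP + eF + 10 * (eF + eH)) + eH + Real.log 4 +
      3 * Real.log (2 * ((2 * A : ℕ) : ℝ) + 1) ≤ 3 * v * Real.log 2 / 1024)
    (h0 : law p (fun ω => ∀ i, |A0 (z ω) (e ω) i| < μA) True ≤ 1 / 64)
    (h1 : law (PL p S z' sd10) (fun w => |w2 (A0 (z w.1.1) (e w.1.1))
      (A0 (z w.1.1) (Wc e b w (ja 0)).1)| < μ₁) True ≤ 1 / 64) :
    1 / 32 ≤ law (P2 p S) (fun v' => ∀ i j,
      |(U v'.2 i j : ℝ) - U v'.1 i j| ≤ 2 ^ s / 2 ^ v) True := by
  have hp := D.isLaw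
  have hQ := PL_isLaw hp S z' sd10
  have hq := hQ.nonneg
  obtain ⟨V, hVd⟩ : ∃ V : ℝ, V = 2 ^ v := ⟨_, rfl⟩
  have hV : 2 ≤ V := by
    rw [hVd]
    calc (2 : ℝ) = 2 ^ 1 := (pow_one 2).symm
      _ ≤ 2 ^ v := pow_le_pow_right₀ (by norm_num) hv
  have hV0 : 0 < V := by linarith
  have hS : V ^ 600 ≤ 2 ^ s := by
    rw [hVd, ← pow_mul]
    exact pow_le_pow_right₀ (by norm_num) (by omega)
  have hx : (2 : ℝ) ^ k ≤ V := by
    rw [hVd]
    exact pow_le_pow_right₀ (by norm_num) hk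
  have hxt : (2 : ℝ) ^ gt ≤ V := by
    rw [hVd]
    exact pow_le_pow_right₀ (by norm_num) hgt
  have hx0 : (0 : ℝ) ≤ 2 ^ k := by positivity
  have h3k : (2 : ℝ) ^ (3 * k) = (2 ^ k) ^ 3 := by
    rw [← pow_mul, mul_comm]
  have hL1 := D.hL
  have hK0 := D.hK
  have hL0 : 0 ≤ L := by linarith
  rw [← hVd] at hL hA hK hμA hμ₁
  have ha0 : (0 : ℝ) ≤ ((2 * A : ℕ) : ℝ) := Nat.cast_nonneg _
  have hμ₁0 : 0 < μ₁ := lt_of_lt_of_le (by positivity) hμ₁
  have hl59 : Real.log (5 : ℕ) ≤ Real.log 9 := Real.log_le_log (by norm_num) (by norm_num)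
  have hl69 : Real.log (3 * 2 : ℕ) ≤ Real.log 9 := Real.log_le_log (by norm_num) (by norm_num)
  have hl99 : Real.log (3 * 3 : ℕ) = Real.log 9 := by norm_num
  have hcE : (1 - cE / (1 / 1024)) = 1 - cE * 1024 := by ring
  have hnn : (10 * (eF + eH) + Real.log 2) / (1 / 1024) + Real.log 9 <
      (1 - cE / (1 / 1024)) * Real.log K₀ := by
    rw [hcE]
    refine lt_of_eq_of_lt ?_ hn
    ring
  have hn5 : Real.log 2 / (1 / 1024) + Real.log (5 : ℕ) < (1 - cE / (1 / 1024)) * Real.log K₀ := by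
    refine lt_of_le_of_lt ?_ hnn
    have h3 : Real.log 2 / (1 / 1024) ≤ (10 * (eF + eH) + Real.log 2) / (1 / 1024) := by
      rw [div_le_div_iff_of_pos_right (by norm_num)]
      linarith
    exact add_le_add h3 hl59
  have hl2 : 0 < Real.log 2 := Real.log_pos (by norm_num)
  have hvl : 0 < (v : ℝ) * Real.log 2 := by
    have : (1 : ℝ) ≤ v := by exact_mod_cast hv
    positivity
  -- the events of the two cases
  rcases le_or_gt (1 / 4 : ℝ) (law (PL p S z' sd10) (fun w => B2a E0 A0 k μA μ₁ (1 / V ^ 494)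
      (z w.1.1) (Ws ja (Wc e b w)) (e w.1.1)) True) with hm | hm
  · -- case [2a]
    have hX0 : 0 < 2 * (2 * (2 ^ s * eR (16 * V ^ 6) (1 / V ^ 8) (1 / V ^ 396) (1 / V ^ 424)) +
        3 * ((2 * A : ℕ) : ℝ) + 1) + 1 := by
      have h4 : 0 ≤ eR (16 * V ^ 6) (1 / V ^ 8) (1 / V ^ 396) (1 / V ^ 424) := by
        unfold eR eA
        positivity
      positivity
    have hX : 2 * (2 * (2 ^ s * eR (16 * V ^ 6) (1 / V ^ 8) (1 / V ^ 396) (1 / V ^ 424)) +
        3 * ((2 * A : ℕ) : ℝ) + 1) + 1 ≤ 2 ^ s * (1 / (2 ^ v) ^ 337) := by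
      rw [← hVd]
      exact nAl hV hA hS
    have hlg := lg_le (g := 334 * v) hX0 hX
    have hlg2 : ((337 : ℕ) * (v : ℝ) - ((334 * v : ℕ) : ℝ)) * Real.log 2 =
        3 * v * Real.log 2 := by
      push_cast
      ring
    rw [hlg2] at hlg
    have hA' := c6_a D (LL := 16 * V ^ 6) (μ := 1 / V ^ 8) (μA := μA) (μ₁ := μ₁)
      (δ := 1 / V ^ 494) (η := 1 / V ^ 396) (μa := 1 / V ^ 424) (μb := 1 / V ^ 280)
      (μc := 1 / V ^ 56) (c := 1 / 1024) (c₂ := 1 / 4) (cτ := 1 / 128) (g := 334 * v) (gt := gt)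
      hμ₁0 (by
        have h4 : L ^ 6 ≤ V ^ 6 := pow_le_pow_left₀ hL0 hL 6
        have h5 : 0 < V ^ 6 := by positivity
        linarith)
      (by
        have h4 : V ≤ V ^ 6 := by
          have := pw_le hV (show 1 ≤ 6 by norm_num)
          rwa [pow_one] at this
        push_cast at hA
        linarith)
      (by positivity) (by
        rw [div_le_one (by positivity)]
        exact one_le_pow₀ (by linarith))
      (le_trans (by
        have := iv_le hV (show 1 ≤ 8 by norm_num)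
        rwa [pow_one] at this) hμA)
      (by
        rw [h3k]
        have h4 : ((2 : ℝ) ^ k) ^ 3 ≤ V ^ (1 * 3) := pp_le hx0 (by rwa [pow_one]) 3
        have h5 := sm_le hV h4 (b := 8) (c := 3) (by norm_num)
        have h6 : 1 / V ^ 3 ≤ μ₁ ^ 3 := by
          have h7 : (1 / V) ^ 3 ≤ μ₁ ^ 3 := pow_le_pow_left₀ (by positivity) hμ₁ 3
          rwa [div_pow, one_pow] at h7
        rw [mul_comm]
        exact h5.trans h6)
      (by
        rw [mul_comm]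
        have h5 := sm_le hV (m := 1) (by rwa [pow_one]) (b := 8) (c := 0) (by norm_num)
          (a := 2 ^ gt)
        simpa using h5)
      (by positivity) (nAd hV)
      (by
        rw [h3k]
        exact nAh hV hL0 hL hK0 hK hx0 hx hS)
      (by omega) hτ0 hτ (by norm_num) (by
        rw [hl99]
        exact hnn)
      (nA1 hV hx0 hx) (nA11 hV) (nA2 hV hx0 hx (by
        rw [hVd, ← pow_mul, mul_comm])) (nA3 hV hx0 hx)
      (by
        refine lt_of_lt_of_le ?_ hlg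
        linarith)
      (by
        refine hN.trans ?_
        have h8 := mul_le_mul_of_nonneg_left hlg (show (0 : ℝ) ≤ 1 / 1024 by norm_num)
        refine le_trans (le_of_eq ?_) h8
        ring)
      (by norm_num) hm
    have h9 : law (P2 p S) (fun v => ∀ i j, |(U v.2 i j : ℝ) - U v.1 i j| ≤
        80 * (16 * V ^ 6) ^ 4 * (1 / V ^ 56) / (1 / V ^ 8) * 2 ^ s) True ≤
        law (P2 p S) (fun v' => ∀ i j,
          |(U v'.2 i j : ℝ) - U v'.1 i j| ≤ 2 ^ s / 2 ^ v) True :=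
      law_le (P2_isLaw hp S).nonneg fun w _ h i j => by
        rw [← hVd]
        exact (h i j).trans (nA0 hV (by positivity))
    norm_num at hA'
    norm_num at h9
    norm_num
    linarith
  · -- case [2b]
    have hX0 : 0 < 2 * (2 * (KB L K (1 / V ^ 494) * (3 + 2 * L) * (1 + 2 * L)) +
        3 * ((2 * A : ℕ) : ℝ) + 1) + 1 := by
      have h4 : 0 ≤ KB L K (1 / V ^ 494) := hK0.trans (KB_le hL1 hK0 (by positivity)).1
      positivity
    have hX : 2 * (2 * (KB L K (1 / V ^ 494) * (3 + 2 * L) * (1 + 2 * L)) +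
        3 * ((2 * A : ℕ) : ℝ) + 1) + 1 ≤ 2 ^ s * (1 / (2 ^ v) ^ 76) := by
      rw [← hVd]
      exact nBl hV hL1 hL hK0 hK hA hS
    have hlg := lg_le (g := 34 * v) hX0 hX
    have hlg2 : ((76 : ℕ) * (v : ℝ) - ((34 * v : ℕ) : ℝ)) * Real.log 2 =
        42 * (v * Real.log 2) := by
      push_cast
      ring
    rw [hlg2] at hlg
    have hfour := D.four (δ := 1 / V ^ 494) (c := 1 / 1024) (by norm_num) hn5 h0 h1 hm.le
    have hG : (2 : ℝ) ^ (34 * v) = V ^ 34 := by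
      rw [hVd, ← pow_mul, mul_comm]
    have hB' := c6_b D (μ₄ := 1 / V ^ 494) (μ₁ := μ₁) (μ := 1 / V ^ 18) (c := 1 / 1024)
      (c₃ := 1 / 2) (c₄ := 1 / 64) (g := 34 * v) (by positivity) hμ₁0 (by norm_num)
      (lt_of_le_of_lt (add_le_add le_rfl hl69) hnn)
      (nBm hV hL1 hL hK0 hK hx0 hx ha0 hA hS hG)
      (by
        refine lt_of_lt_of_le ?_ hlg
        linarith)
      (by
        refine hN.trans ?_
        have h8 := mul_le_mul_of_nonneg_left hlg (show (0 : ℝ) ≤ 1 / 1024 by norm_num)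
        refine le_trans ?_ h8
        linarith)
      (by norm_num) (le_trans (by norm_num) hfour) (D.pair_own h1 4)
    have h9 : law (P2 p S) (fun v' => ∀ i j, |(U v'.2 i j : ℝ) - U v'.1 i j| ≤
        thE (2 * A) s (34 * v) L L (KB L K (1 / V ^ 494)) (1 / V ^ 18) μ₁
          (thI (34 * v) L L (1 / V ^ 18))) True ≤
        law (P2 p S) (fun v' => ∀ i j,
          |(U v'.2 i j : ℝ) - U v'.1 i j| ≤ 2 ^ s / 2 ^ v) True :=
      law_le (P2_isLaw hp S).nonneg fun w _ h i j => by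
        rw [← hVd]
        exact (h i j).trans (nBo hV hL1 hL hK0 hK hA hS hG hμ₁)
    have hsq : Real.sqrt (2 * (1 / 1024)) ≤ 1 / 16 := by
      rw [show (1 / 16 : ℝ) = Real.sqrt ((1 / 16) ^ 2) from (Real.sqrt_sq (by norm_num)).symm]
      exact Real.sqrt_le_sqrt (by norm_num)
    have h10 : (1 : ℝ) / 32 ≤ (1 / 2) ^ 2 - 2 * (1 / 16) - 1 / 64 - 2 * (1 / 1024) := by norm_num
    linarith

end Pool.D2N
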