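import Pool.Agent.H90.D2.Hcl

/-!
# The hop cell: the class end with macroscopic errors

`hop_end_q`: as `hop_end`; the errors depend only, and linearly, on the length of the block and on
the rate of the velocity of the first coordinate (`epH`), not on the class.
-/

set_option autoImplicit false

namespace Pool.D2N

open Finset Real MvPolynomial
open Pool.Agent.H49.Ent Pool.Agent.H32.Dense Pool.STK Pool.KA Pool.KSAT Pool.K2S Pool.PB Pool.S6C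
open Pool.GEN Pool.CHT Pool.CHX Pool.LA91
open Pool.LBT (ThrOf)
open Pool.D2F Pool.D2Z Pool.D2F2
open Pool.D2R (dd hs co)
open Pool.OWN68 (opl tw uw mid dirv natDegree_opl opl_jet uw_abs)
open Pool.KM7 (P2 P2_isLaw P2_pos)
open Pool.D2A Pool.D2T
open Pool.F5 (VDat Kil dt dz)

variable {m J : ℕ}

/-- The velocity of the first coordinate and its natural value, over the visible data. -/
theorem vel_cell {F : Fam m J} {c : ℕ → Fin m} {g : ℕ → ℕ} {a k e n u : ℕ}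
    {ψ : PtT F → ℕ → Option (Fin m) → ℝ} {ψH : LnT F → ℕ → Option (Fin m) → ℝ} {B : F.Ω → Prop}
    (fr : FrOK F c n a k e g B ψ ψH) (ha : a ≤ g 0 + u) {ω ω' : F.Ω}
    (hp : ptr F J ω = ptr F J ω') :
    |2 ^ u * (F.d ω (c 0) - F.d ω' (c 0))| ≤
      2 ^ (2 * u) * |Xn F c g a ψ ω 1 - Xn F c g a ψ ω' 1| := by
  have e1 : ∀ ν : F.Ω, Xn F c g a ψ ν 1 = 2 ^ g 0 * (((1 / 2 ^ a : ℝ) • bd F ν) (some (c 0)) -
      cv (ψ (ptr F J ν) 0) ((1 / 2 ^ a : ℝ) • bd F ν)) := fun _ => rfl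
  have e2 : cv (ψ (ptr F J ω) 0) ((1 / 2 ^ a : ℝ) • bd F ω) =
      cv (ψ (ptr F J ω') 0) ((1 / 2 ^ a : ℝ) • bd F ω') := by
    rw [hp]
    exact cv_congr (fr.dep _ 0) rfl fun j hj => absurd hj (Nat.not_lt_zero j)
  have e3 : Xn F c g a ψ ω 1 - Xn F c g a ψ ω' 1 =
      2 ^ g 0 / 2 ^ a * (F.d ω (c 0) - F.d ω' (c 0)) := by
    rw [e1, e1, e2, ← mul_sub, sub_sub_sub_cancel_right]
    show 2 ^ g 0 * ((1 / 2 ^ a : ℝ) * F.d ω (c 0) - (1 / 2 ^ a : ℝ) * F.d ω' (c 0)) = _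
    ring
  rw [e3, abs_mul, abs_mul, abs_of_pos (by positivity : (0 : ℝ) < 2 ^ u),
    abs_of_pos (by positivity : (0 : ℝ) < 2 ^ g 0 / 2 ^ a), ← mul_assoc]
  refine mul_le_mul_of_nonneg_right ?_ (abs_nonneg _)
  rw [← mul_div_assoc, le_div_iff₀ (by positivity), ← pow_add, ← pow_add]
  exact pow_le_pow_right₀ (by norm_num) (by omega)

/-- **The rate of the own velocity** over the visible data, from the entropies on large events. -/
theorem nocov_act {F : Fam m J} {c : ℕ → Fin m} {g : ℕ → ℕ} {a k e n u : ℕ}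
    {ψ : PtT F → ℕ → Option (Fin m) → ℝ} {ψH : LnT F → ℕ → Option (Fin m) → ℝ} {B : F.Ω → Prop}
    (hB : 0 < Pe F.p B) (fr : FrOK F c n a k e g B ψ ψH) (ha : a ≤ g 0 + u) {E : F.Ω → ℝ}
    (hE : ∀ ω, 0 < cond F.p B True ω → |E ω - Xn F c g a ψ ω 1| ≤ 1 / 2 ^ (4 * u)) (hu : 2 ≤ u)
    {ζ' : Type} (f : PtT F → ζ') {r : ℝ}
    (act : ∀ G : F.Ω → Prop, Sub G B → Pe F.p B ≤ 2 ^ 40 * Pe F.p G →
      r ≤ CH (cond F.p G True) (fun ω => F.D u ω (c 0)) (fun ω => ptr F J ω)) {K : ℕ}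
    (hK : Real.log K + 2 < r) :
    NoCov (cond F.p B True) (fun ω => ⌊2 ^ (4 * u) * E ω⌋) (fun ω => f (ptr F J ω)) K
      (1 / 2 ^ 39) := by
  have hp := isLaw_cond F.isLaw hB
  refine nocov_of_ev hp _ _ (r := r - 2) (by positivity) (fun G hG => ?_) (by linarith)
  have hG' : 1 / 2 ^ 39 ≤ Pe (cond F.p B True) G := hG
  rw [Pe_cond, le_div_iff₀ hB] at hG'
  obtain ⟨G', hGG⟩ : ∃ G' : F.Ω → Prop, G' = fun ω => B ω ∧ G ω := ⟨_, rfl⟩
  have e1 : cond (cond F.p B True) G True = cond F.p G' True := by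
    rw [hGG]
    exact Piece.cond_inter hB.ne'
  have e2 : Pe F.p (fun ω => G ω ∧ B ω) = Pe F.p G' := by
    rw [hGG]
    congr 1
    funext ω
    exact propext ⟨fun h => ⟨h.2, h.1⟩, fun h => ⟨h.2, h.1⟩⟩
  have hPG : 1 / 2 ^ 39 * Pe F.p B ≤ Pe F.p G' := by
    rw [← e2]
    first
      | exact hG'
      | (rw [hGG] at e2; rw [e2]; exact hG')
  have hG0 : 0 < Pe F.p G' := lt_of_lt_of_le (by positivity) hPG
  have hsub : Sub G' B := fun ω hω => by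
    rw [hGG] at hω
    exact hω.1
  have h1 := act G' hsub (by linarith)
  rw [e1]
  have hq := isLaw_cond F.isLaw hG0
  have hsup : ∀ ω, 0 < cond F.p G' True ω → 0 < cond F.p B True ω := by
    intro ω hω
    have h2 := (cond_pos_iff F.isLaw.nonneg G' True ω).mp hω
    exact (cond_pos_iff F.isLaw.nonneg B True ω).mpr ⟨h2.1, eq_true (hsub ω (of_eq_true h2.2))⟩
  have h2 := CH_le_add hq.nonneg (fun ω => F.D u ω (c 0)) (fun ω => ⌊2 ^ (4 * u) * E ω⌋)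
    (fun ω => ptr F J ω)
  have h3 : CH (cond F.p G' True) (fun ω => F.D u ω (c 0))
      (fun ω => (⌊2 ^ (4 * u) * E ω⌋, ptr F J ω)) ≤ Real.log (2 * (2 : ℕ) + 1) := by
    refine Pool.OWN68.CH_pair hq _ _ fun ω ω' hω hω' hZ => ?_
    simp only [Prod.mk.injEq] at hZ
    have a1 := vel_cell fr ha hZ.2
    have a2 := hE ω (hsup ω hω)
    have a3 := hE ω' (hsup ω' hω')
    have a4 := (Int.abs_sub_lt_one_of_floor_eq_floor hZ.1).le
    rw [← mul_sub, abs_mul, abs_of_pos (by positivity : (0 : ℝ) < 2 ^ (4 * u))] at a4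
    have a5 : |E ω - E ω'| ≤ 1 / 2 ^ (4 * u) := by
      rw [le_div_iff₀ (by positivity)]
      linarith
    have a6 : |Xn F c g a ψ ω 1 - Xn F c g a ψ ω' 1| ≤ 3 * (1 / 2 ^ (4 * u)) := by
      have e3 : Xn F c g a ψ ω 1 - Xn F c g a ψ ω' 1 = -(E ω - Xn F c g a ψ ω 1) +
          (E ω - E ω') + (E ω' - Xn F c g a ψ ω' 1) := by ring
      rw [e3]
      refine (abs_add_le _ _).trans ?_
      have := abs_add_le (-(E ω - Xn F c g a ψ ω 1)) (E ω - E ω')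
      rw [abs_neg] at this
      linarith
    have a7 : |2 ^ u * (F.d ω (c 0) - F.d ω' (c 0))| ≤ 1 := by
      refine a1.trans ((mul_le_mul_of_nonneg_left a6 (by positivity)).trans ?_)
      have e4 : (2 : ℝ) ^ (4 * u) = 2 ^ (2 * u) * 2 ^ (2 * u) := by
        rw [← pow_add]
        congr 1
        ring
      have e5 : (2 : ℝ) ^ (2 * u) * (3 * (1 / 2 ^ (4 * u))) = 3 / 2 ^ (2 * u) := by
        rw [e4]
        field_simp
      rw [e5, div_le_one (by positivity)]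
      calc (3 : ℝ) ≤ 2 ^ 4 := by norm_num
        _ ≤ 2 ^ (2 * u) := pow_le_pow_right₀ (by norm_num) (by omega)
    have f1 : F.D u ω (c 0) = ⌊2 ^ u * F.d ω (c 0)⌋ := rfl
    have f2 : F.D u ω' (c 0) = ⌊2 ^ u * F.d ω' (c 0)⌋ := rfl
    show |F.D u ω (c 0) - F.D u ω' (c 0)| ≤ ((2 : ℕ) : ℤ)
    rw [f1, f2]
    have b1 := Int.floor_le (2 ^ u * F.d ω (c 0))
    have b2 := Int.lt_floor_add_one (2 ^ u * F.d ω (c 0))
    have b3 := Int.floor_le (2 ^ u * F.d ω' (c 0))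
    have b4 := Int.lt_floor_add_one (2 ^ u * F.d ω' (c 0))
    rw [mul_sub, abs_le] at a7
    have b5 : (⌊2 ^ u * F.d ω (c 0)⌋ : ℝ) < ⌊2 ^ u * F.d ω' (c 0)⌋ + 3 := by linarith
    have b6 : (⌊2 ^ u * F.d ω' (c 0)⌋ : ℝ) < ⌊2 ^ u * F.d ω (c 0)⌋ + 3 := by linarith
    have b7 : ⌊2 ^ u * F.d ω (c 0)⌋ < ⌊2 ^ u * F.d ω' (c 0)⌋ + 3 := by exact_mod_cast b5
    have b8 : ⌊2 ^ u * F.d ω' (c 0)⌋ < ⌊2 ^ u * F.d ω (c 0)⌋ + 3 := by exact_mod_cast b6
    rw [abs_le]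
    push_cast
    constructor <;> omega
  have h4 : Real.log (2 * (2 : ℕ) + 1) ≤ 2 := by
    have g2 := Real.log_two_lt_d9
    have h5 : Real.log (2 * ((2 : ℕ) : ℝ) + 1) ≤ Real.log 6 :=
      Real.log_le_log (by positivity) (by norm_num)
    have h6 : Real.log 6 ≤ 2 := by
      have : Real.log 6 ≤ Real.log (Real.exp 2) := Real.log_le_log (by norm_num) (by
        have h7 : (2.7 : ℝ) ≤ Real.exp 1 := by
          have := Real.exp_one_gt_d9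
          linarith
        have h8 : Real.exp 2 = Real.exp 1 * Real.exp 1 := by
          rw [← Real.exp_add]
          norm_num
        rw [h8]
        nlinarith)
      rwa [Real.log_exp] at this
    exact h5.trans h6
  have h5 : CH (cond F.p G' True) (fun ω => ⌊2 ^ (4 * u) * E ω⌋) (fun ω => ptr F J ω) ≤
      CH (cond F.p G' True) (fun ω => ⌊2 ^ (4 * u) * E ω⌋) (fun ω => f (ptr F J ω)) :=
    CH_mono_cond hq.nonneg fun ω ω' _ _ h => by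
      show f (ptr F J ω) = f (ptr F J ω')
      rw [show ptr F J ω = ptr F J ω' from h]
  linarith

/-- The unit. -/
theorem unit_num_q {υ er σ ε : ℝ} {J u l s e₀ k : ℕ} (hu : u = ⌊υ * J⌋₊)
    (hl : l = ⌊υ * J / 2 ^ 38⌋₊) (hJ : 2 ^ 50 ≤ υ * J) (hσ : υ = σ / 10 ^ 7) (hε0 : 0 < ε)
    (hε : ε ≤ υ / 2 ^ 44) (hs : σ * J ≤ s) (he : e₀ + σ * J ≤ er * J) (hk : (k : ℝ) ≤ ε * J) :
    2 ^ 40 ≤ u ∧ 28 * l + 72 ≤ 30 * u ∧ l ≤ u ∧ 192000 * u ≤ s ∧ e₀ + 40 * u ≤ ⌊er * J⌋₊ ∧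
      k ≤ u := by
  have hJ0 : (0 : ℝ) ≤ J := Nat.cast_nonneg J
  have h0 : υ * J = σ * J / 10 ^ 7 := by
    rw [hσ]
    ring
  obtain ⟨n1, n2, n3, n4, -, -, n7⟩ := unit_num (er := σ) (e₀ := 0) hu hl hJ hσ.le hσ.le hε0 hε hs
    (by push_cast; positivity) hk
  refine ⟨n1, n2, n3, n4, Nat.le_floor ?_, n7⟩
  have u2 : (u : ℝ) ≤ υ * J := by
    rw [hu]
    exact Nat.floor_le (le_trans (by norm_num) hJ)
  push_cast
  norm_num at h0
  linarith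

/-- The error of the end, for the length `σ` of the block and the rate `ρ` of the velocity. -/
noncomputable def epH (σ ρ : ℝ) : ℝ := min (σ / 10 ^ 7 / 2 ^ 44) (ρ / 2 ^ 46)

theorem epH_pos {σ ρ : ℝ} (hσ : 0 < σ) (hρ : 0 < ρ) : 0 < epH σ ρ :=
  lt_min (by positivity) (by positivity)

/-- **The class end of the hop cell**, macroscopic errors. -/
theorem hop_end_q {σ ρ ε : ℝ} (hσ : 0 < σ) (hρ : 0 < ρ) (hε0 : 0 < ε) (hε : ε ≤ epH σ ρ) :
    ∀ {m D : ℕ} {θc : ℝ}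
    {S : PCl m} {P : List (Fin m) × Fin m → ℝ → ℝ → ℝ} (_ : ThrOf (chsys m θc) S P) (_ : TmH S)
    (c : ℕ → Fin m) (_ : Set.InjOn c (Set.Iio 4)) (a : ℚ) (er c₁ : ℝ) (_ : 0 ≤ a) (_ : a < 1)
    (_ : er < θc * a) (_ : ∀ j < 4, bet P c j a a + σ ≤ 1) (_ : 0 < c₁),
    Bas S (fun J F A => ∀ (n a₀ a' k k' e₀ e₁ n' s V : ℕ) (g g' : ℕ → ℕ)
      (ψ ψ' γ : PtT F → ℕ → Option (Fin m) → ℝ) (ψH ψH' : LnT F → ℕ → Option (Fin m) → ℝ)
      (Ht : LnT F → MvPolynomial (Option (Fin m)) ℝ) (B : F.Ω → Prop) (ζ ζ' εt : Type)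
      (z : LnT F → ζ) (e : LnT F → εt) (f : PtT F → ζ') (δ δ₁ δ' δt Kn L K B₀ : ℝ)
      (SV SE SG : ℕ → ℝ) (hD : ∀ s, (Ht s).totalDegree ≤ D),
      a₀ ≤ J → a₀ ≤ ⌊(a : ℝ) * J⌋₊ → σ * J ≤ s → (∀ l < 3, s ≤ g l) →
      (∀ j < 4, e₀ + g j + s ≤ J) →
      (∀ j < 4, bet P c j a a * J + a₀ ≤ g j + a * J + ε * J) → e₀ + σ * J ≤ er * J →
      (k : ℝ) ≤ ε * J → L ≤ Real.exp (ε * J) → K ≤ Real.exp (ε * J) → B₀ ≤ Real.exp (ε * J) →
      δt ≤ K / 2 ^ s → Sub B A → c₁ * Pe F.p A ≤ Pe F.p B →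
      (∀ G : F.Ω → Prop, Sub G B → Pe F.p B ≤ 2 ^ 40 * Pe F.p G → ρ * J ≤
        CH (cond F.p G True) (fun ω => F.D ⌊σ / 10 ^ 7 * J⌋₊ ω (c 0)) (fun ω => ptr F J ω)) →
      ReH F c g g' a₀ n D a' k k' e₀ e₁ n' s V ψ ψ' ψH ψH' Ht B z e δ δ₁ δ' Kn L K B₀ →
      TgH F c g a₀ n k e₀ ψ γ ψH Ht B δt →
      Det (cond F.p B True) (fun ω => f (ptr F J ω)) (fun ω => z (slam F a₀ ω)) →
      Det (cond F.p B True) (fun ω => f (ptr F J ω)) (fun ω => (⌊2 ^ s * tn F a₀ ω⌋,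
        ⌊2 ^ s * yr F c g a₀ ψ (cond F.p B True) z ω⌋)) →
      Det (cond F.p B True) (fun ω => f (ptr F J ω)) (Mn F c g a₀ ψ ψ') →
      CH (cond F.p B True) (fun ω => ⌊2 ^ (s + g 3 + 2) *
        Pool.X31.nw (fdat F c g a₀ n 3 D ψH Ht hD SV SE SG) a₀
        (rfv (cond F.p B True) (fun ω => z (slam F a₀ ω)) (fun ω => e (slam F a₀ ω))
          (fun ω l => (fdat F c g a₀ n 3 D ψH Ht hD SV SE SG).P l (slam F a₀ ω))
          (z (slam F a₀ ω)) (e (slam F a₀ ω))) ω⌋)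
        (fun ω => (e (slam F a₀ ω), z (slam F a₀ ω))) ≤ ε * J →
      CH (cond F.p B True) (fun ω => e (slam F a₀ ω)) (fun ω => z (slam F a₀ ω)) ≤
        CH (cond F.p B True) (fun ω => e (slam F a₀ ω)) (fun ω => f (ptr F J ω)) + ε * J →
      2 * (s * Real.log 2) - ε * J ≤ CH (cond F.p B True)
        (cP s (tn F a₀) (yr F c g a₀ ψ (cond F.p B True) z)) (fun ω => z (slam F a₀ ω)) →
      s * Real.log 2 - ε * J ≤ CH (cond F.p B True)
        (fun ω => cP s (tn F a₀) (yr F c g a₀ ψ (cond F.p B True) z) ω 0) (slam F a₀) →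
      False) := by
  obtain ⟨υ, hυ⟩ : ∃ υ, υ = σ / 10 ^ 7 := ⟨_, rfl⟩
  have hυ0 : 0 < υ := by
    rw [hυ]
    positivity
  have ε1 : ε ≤ υ / 2 ^ 44 := by
    rw [hυ]
    exact hε.trans (min_le_left _ _)
  have ε2 : ε ≤ ρ / 2 ^ 46 := hε.trans (min_le_right _ _)
  intro m D θc S P hP hT c hc a er c₁ ha0 ha he hb hc₁
  have υ3 : υ ≤ σ := by
    rw [hυ]
    exact div_le_self hσ.le (by norm_num)
  have hυ2 : 0 < υ / 2 := by positivity
  have hb' : ∀ j < 4, bet P c j a a + υ / 2 ≤ 1 := fun j hj => by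
    have := hb j hj
    linarith
  have hc3 : Set.InjOn c (Set.Iio 3) := hc.mono (Set.Iio_subset_Iio (by norm_num))
  have hb1 := hb' 1 (by norm_num)
  have hb2 := hb' 2 (by norm_num)
  have hb3 := hb' 3 (by norm_num)
  obtain ⟨δb, hδb, B2⟩ := Pool.F5.kil_cls hP c hc3 a er (υ / 2) ha0 ha.le he hυ2 hb1 hb2
  have B3 := flat_cls hP hT c 3 D hc a er (υ / 2) (υ / 2) (c₁ / 512) ha0 ha he hυ2 hb3 hυ2
    (by positivity)
  have B4 : Bas S (fun J F A => 0 < Pe F.p A) :=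
    ⟨1, one_pos, 0, fun J _ F A h => hT.1 _ _ _ _ h⟩
  obtain ⟨J₁, hJ₁⟩ := exists_nat_ge (2 ^ 50 / υ)
  obtain ⟨J₂, hJ₂⟩ := exists_nat_ge (2 ^ 50 / ρ)
  obtain ⟨J₄, hJ₄⟩ := Pool.F5.exp_small hδb (K := c₁ / 2 ^ 36) (by positivity)
  refine Bas.mono (J₁ + J₂ + J₄) ((B2.and B3).and B4) ?_
  rintro J hJ F A ⟨⟨A2, A3⟩, A4⟩ n a₀ a' k k' e₀ e₁ n' s V g g' ψ ψ' γ ψH ψH' Ht B ζ ζ' εt
    z e f δ δ₁ δ' δt Kn L K B₀ SV SE SG hD haJ haa hs hsg hgJ hlev he₀ hk hL hK hB₀ hδt hBA hBc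
    act H Tg dz dt dM few free fullP fullT
  have hJ0 : (0 : ℝ) ≤ J := Nat.cast_nonneg _
  have j1 : 2 ^ 50 ≤ υ * J := by
    have h1 : 2 ^ 50 / υ ≤ J := hJ₁.trans (by exact_mod_cast (by omega))
    rw [div_le_iff₀ hυ0] at h1
    linarith
  have j2 : 2 ^ 50 ≤ ρ * J := by
    have h1 : 2 ^ 50 / ρ ≤ J := hJ₂.trans (by exact_mod_cast (by omega))
    rw [div_le_iff₀ hρ] at h1
    linarith
  have j4 := hJ₄ J (by omega)
  obtain ⟨u, hu⟩ : ∃ u, u = ⌊υ * J⌋₊ := ⟨_, rfl⟩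
  obtain ⟨l, hl⟩ : ∃ l, l = ⌊υ * J / 2 ^ 38⌋₊ := ⟨_, rfl⟩
  obtain ⟨n1, n2, n3, n4, n5, n7⟩ := unit_num_q hu hl j1 hυ hε0 ε1 hs he₀ hk
  have u1 : υ * J - 1 < u := by
    rw [hu]
    exact Nat.sub_one_lt_floor _
  have l1 : υ * J / 2 ^ 38 - 1 < l := by
    rw [hl]
    exact Nat.sub_one_lt_floor _
  have hX : (4096 : ℝ) ≤ υ * J / 2 ^ 38 := by
    rw [le_div_iff₀ (by positivity)]
    exact le_trans (by norm_num) j1
  have hεX : ε * J ≤ υ * J / 2 ^ 38 / 32 := by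
    have h3 : ε * J ≤ υ / 2 ^ 44 * J := mul_le_mul_of_nonneg_right ε1 hJ0
    have h4 : (0 : ℝ) ≤ υ * J := le_trans (by norm_num) j1
    norm_num at h3 ⊢
    linarith
  have hexp := Real.exp_le_exp.2 hεX
  obtain ⟨s1, s2, s3, s4, s5⟩ := size_num H.hL H.hK H.hB₀ hX l1 (hL.trans hexp) (hK.trans hexp)
    (hB₀.trans hexp)
  have hlu : (2 : ℝ) ^ l ≤ 2 ^ u := pow_le_pow_right₀ (by norm_num) n3
  obtain ⟨m1, m2, m3, m4, m5, m6, m7, m8, m9⟩ := small_num n1 n4 H.hL H.hK (s1.trans hlu)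
    (s5.trans hlu)
  have hBpos : 0 < Pe F.p B := (mul_pos hc₁ A4).trans_le hBc
  have hp := isLaw_cond F.isLaw hBpos
  have hsup : ∀ ω, 0 < cond F.p B True ω → B ω := fun ω hω =>
    of_eq_true ((cond_pos_iff F.isLaw.nonneg B True ω).mp hω).2
  have hM : ∀ ω, cond F.p B True ω * Pe F.p A ≤ 1 / c₁ * F.p ω := by
    intro ω
    have h1 := cond_dens (q := F.p) (r := F.p) B (A := 1) (M := 1) (c := Pe F.p B) (by norm_num)
      F.isLaw.nonneg (fun ω => by rw [mul_one, one_mul]) hBpos le_rfl ω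
    rw [mul_one] at h1
    have h2 : Pe F.p A ≤ Pe F.p B / c₁ := by
      rw [le_div_iff₀ hc₁]
      linarith
    have h3 : 0 ≤ F.p ω := F.isLaw.nonneg ω
    calc cond F.p B True ω * Pe F.p A ≤ (1 / Pe F.p B * F.p ω) * (Pe F.p B / c₁) :=
          mul_le_mul h1 h2 A4.le (by positivity)
      _ = 1 / c₁ * F.p ω := by
        field_simp
  have hc₁' : (0 : ℝ) ≤ 1 / c₁ := by positivity
  -- the levels
  have hε8 : ε ≤ υ / 8 := ε1.trans (div_le_div_of_nonneg_left hυ0.le (by norm_num) (by norm_num))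
  have haR : (0 : ℝ) ≤ a := by exact_mod_cast ha0
  have lv : ∀ j < 4, ∃ p : ℕ, p ≤ g j + u ∧ p ≤ J ∧
      ⌊(bet P c j a a + υ / 2) * J⌋₊ + a₀ ≤ p + ⌊(a : ℝ) * J⌋₊ := fun j hj =>
    lev_num hu hυ0 (le_trans (by norm_num) j1) hε8 haR (hlev j hj) (hb' j hj) haa
  obtain ⟨p0, p0g, p0J, p0b⟩ := lv 0 (by norm_num)
  obtain ⟨p1, p1g, p1J, p1b⟩ := lv 1 (by norm_num)
  obtain ⟨p2, p2g, p2J, p2b⟩ := lv 2 (by norm_num)
  obtain ⟨p3, p3g, p3J, p3b⟩ := lv 3 (by norm_num)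
  have hgV : ∀ j < 4, e₀ + g j + 31 * u ≤ J := fun j hj => by
    have := hgJ j hj
    omega
  have hgk : ∀ j < 3, u + 1 ≤ g j := fun j hj => by
    have := hsg j hj
    have : 0 < 2 ^ 40 := by norm_num
    omega
  have hu40 : 40 ≤ u := by
    have : 40 ≤ 2 ^ 40 := by norm_num
    omega
  have fr3 : FrOK F c 3 a₀ u e₀ g B ψ ψH := frok_mono H.fr n7 le_rfl
  have fr4 : FrOK F c 4 a₀ u e₀ g B ψ ψH := frok_mono Tg.fr n7 le_rfl
  -- the rate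
  have hag : a₀ ≤ g 0 + u := by
    have h1 : (a : ℝ) ≤ bet P c 0 a a := hP.low _ _ _ haR le_rfl (by exact_mod_cast ha.le)
    have h2 : ⌊(a : ℝ) * J⌋₊ ≤ ⌊(bet P c 0 a a + υ / 2) * J⌋₊ :=
      Nat.floor_le_floor (mul_le_mul_of_nonneg_right (by linarith) hJ0)
    omega
  have hrate : NoCov (cond F.p B True) (fun ω => ⌊2 ^ (4 * u) * rfv (cond F.p B True)
      (fun ω => z (slam F a₀ ω)) (fun ω => e (slam F a₀ ω)) (En F c g a₀ ψ) (z (slam F a₀ ω))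
      (e (slam F a₀ ω))⌋) (fun ω => f (ptr F J ω)) ⌊Real.exp (ρ * J / 2)⌋₊ (1 / 2 ^ 39) := by
    rw [← hυ, ← hu] at act
    refine nocov_act (r := ρ * J) hBpos fr3 hag (fun ω hω => ?_) (by omega) f act ?_
    · obtain ⟨ω₀, r1, r2, r3, r4⟩ := rfv_spec (z := fun ω => z (slam F a₀ ω))
        (e := fun ω => e (slam F a₀ ω)) hω (R := ℝ)
      rw [r4]
      exact (H.nE _ _ (hsup _ r1) (hsup _ hω) r2 r3).trans m4
    · have h2 := K0_num (t := ρ * J / 2) (by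
        have : (2 : ℝ) ≤ ρ * J := le_trans (by norm_num) j2
        linarith)
      have h3 : Real.log ⌊Real.exp (ρ * J / 2)⌋₊ ≤ ρ * J / 2 := by
        have h4 : (0 : ℝ) < ⌊Real.exp (ρ * J / 2)⌋₊ := by exact_mod_cast h2.1
        have := Real.log_le_log h4 h2.2.2
        rwa [Real.log_exp] at this
      have h5 : (8 : ℝ) ≤ ρ * J := le_trans (by norm_num) j2
      linarith
  -- the flat case
  have hflat : Pe F.p (fun ω => B ω ∧ ∀ i, |An F c g a₀ n ψH Ht ω i| ≤ 2 / 2 ^ (8 * u)) ≤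
      1 / 512 * Pe F.p B := by
    have hB'B : Sub (fun ω => B ω ∧ ∀ i, |An F c g a₀ n ψH Ht ω i| ≤ 2 / 2 ^ (8 * u)) B :=
      fun ω hω => hω.1
    have het : K / 2 ^ s ≤ 1 / 2 ^ (6 * u) := by
      refine m3.trans (one_div_le_one_div_of_le (by positivity) (pow_le_pow_right₀ (by norm_num)
        (by omega)))
    have h1 := A3 4 a₀ e₀ u u (31 * u) p3 g ψ γ ψH (fun s => Ht (co n s)) (1 / 2 ^ (6 * u))
      (by norm_num) haJ haa (by linarith) (by omega) (by omega)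
      (fun j hj => hgV j (by omega)) hgk p3g p3J p3b (by positivity) m9 (fun s => hD _)
      (fun s => H.dep _) _ (fun ω hω => hBA ω (hB'B ω hω)) (frok_sub fr4 hB'B) Tg.dep
      ?_ ?_ ?_ ?_
    · have h2 : c₁ / 512 * Pe F.p A ≤ 1 / 512 * Pe F.p B := by
        have : c₁ / 512 * Pe F.p A = 1 / 512 * (c₁ * Pe F.p A) := by ring
        rw [this]
        exact mul_le_mul_of_nonneg_left hBc (by norm_num)
      exact h1.le.trans h2
    · intro ω hω V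
      refine (Tg.near ω hω.1 V).trans ?_
      refine mul_le_mul_of_nonneg_right ?_ (en_nonneg _ _ _ _ _ _)
      exact div_le_div_of_nonneg_right (pow_le_pow_right₀ (by norm_num) n7) (by positivity)
    · intro ω hω
      refine (Tg.vel ω hω.1).trans ?_
      exact mul_le_mul_of_nonneg_right (hδt.trans het) (by positivity)
    · intro ω hω V hV
      refine (Tg.row ω hω.1 V hV).trans ?_
      refine mul_le_mul_of_nonneg_right ?_ (en_nonneg _ _ _ _ _ _)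
      exact div_le_div_of_nonneg_right (hδt.trans het) (by positivity)
    · intro ω hω V hV
      refine (flat_re H hω.1 hω.2 hV).trans ?_
      refine mul_le_mul_of_nonneg_right (mul_le_mul_of_nonneg_right ?_ (by positivity))
        (en_nonneg _ _ _ _ _ _)
      have h2 := H.small₂
      have h3 : 0 ≤ K / 2 ^ s := by
        have := H.hK
        positivity
      have h4 : δ + (2 * L + 1) * (2 / 2 ^ (8 * u) + 2 * (((D : ℝ) + 1) ^ 2 * δ')) =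
          (δ + 2 * (D + 1) ^ 2 * δ' * (1 + 2 * L)) + (2 * L + 1) * (2 / 2 ^ (8 * u)) := by ring
      rw [h4]
      linarith
  have h0 := sml_re H hBpos (x := 8 * u) m3 hflat
  -- one law
  have hK0 := K0_num (t := ρ * J / 2) (by
    have : (2 : ℝ) ≤ ρ * J := le_trans (by norm_num) j2
    linarith)
  have hfew := few_re (SV := SV) (SE := SE) (SG := SG) (hD := hD) H hp hsup
    (N := ⌈12 * K * (L + B₀)⌉₊) (Nat.le_ceil _) few
  have hlogN := logN_num (t := ε * J) (by positivity) H.hK H.hL H.hB₀ hK hL hB₀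
  obtain ⟨eH, heH⟩ : ∃ eH, eH = ε * J +
      Real.log (2 * (2 * ⌈12 * K * (L + B₀)⌉₊ + 2 : ℕ) + 1) := ⟨_, rfl⟩
  rw [← heH] at hfew
  have heH0 : 0 ≤ eH := by
    rw [heH]
    have h1 : 0 ≤ Real.log (2 * (2 * ⌈12 * K * (L + B₀)⌉₊ + 2 : ℕ) + 1) := by
      refine Real.log_nonneg ?_
      have : (0 : ℝ) ≤ (2 * ⌈12 * K * (L + B₀)⌉₊ + 2 : ℕ) := Nat.cast_nonneg _
      linarith
    positivity
  obtain ⟨q1, q2⟩ := ent_num (x₁ := 320 * u) hu hl j1 hε0 ε1 j2 ε2 rfl hlogN heH.le hK0.2.1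
  obtain ⟨al, al1, al2⟩ := hop_one (f := f) H hp hsup dz dt dM (Aa := ⌈B₀⌉₊ + 1) (l := l)
    (x := 8 * u) (kk := 4 * u) (x₁ := 320 * u) (y := 101 * u) hfew free fullP fullT hrate
    (by push_cast; linarith [Nat.le_ceil B₀]) hK0.1 s1 s3 s2 (by omega) (by omega)
    (by positivity) heH0 (by positivity) q1 q2 h0
  -- the end
  have hVD := vdat_mix hc3 fr3 H.fr' H.hn' H.hKn H.deep H.near (al := fun y => al (f y))
    (Ka := 2 * L ^ 2) (μ := 1 / 2 ^ (8 * u) / 2) (fun ω _ j => (al1 _).1 j) (fun ω _ => by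
      obtain ⟨i, hi⟩ := (al1 (f (ptr F J ω))).2
      fin_cases i
      · exact Or.inl hi
      · exact Or.inr hi)
  have hL0 := H.hL
  have hKn0 : 0 ≤ (1 + Kn) ^ 3 := by
    have := H.hKn
    positivity
  have hδ10 : 0 ≤ 2 * (δ₁ * (1 + Kn) ^ 3) := by
    have h1 : 0 ≤ δ₁ := le_trans (by positivity) (H.deep 1 le_rfl (by norm_num))
    positivity
  have hε₂0 : (0 : ℝ) ≤ 1 / 2 ^ (101 * u) + 4 * (2 * L ^ 2) / 2 ^ s := by positivity
  obtain ⟨k1, k2, k3, k4⟩ := kl_num (u := u) (x := 8 * u) (by omega) le_rfl hKn0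
    ((H.KL.trans s4).trans hlu) (by positivity : (0 : ℝ) ≤ 2 * L ^ 2) (s1.trans hlu) hδ10
    (H.small₁.trans m2) hε₂0 m5
  have hkil := A2 3 a₀ e₀ (28 * u) u u (31 * u) p1 p2 g ψ ψH
    (fun y => Ms c g a₀ (ψ y) (ψ' y) 0) (fun y => Ms c g a₀ (ψ y) (ψ' y) 1) (fun y => al (f y))
    (2 * (δ₁ * (1 + Kn) ^ 3)) ((1 + Kn) ^ 3) (2 * L ^ 2) (1 / 2 ^ (8 * u) / 2)
    (1 / 2 ^ (25 * u)) (1 / 2 ^ (20 * u)) (1 / 2 ^ (101 * u) + 4 * (2 * L ^ 2) / 2 ^ s)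
    le_rfl haJ haa (by omega) (by omega) (fun j hj => hgV j (by omega))
    (fun j hj => hgk j (by omega)) p1g p2g p1J p2J p1b p2b (by positivity) (by positivity) k2
    (by positivity) k3 k4 k1 B hBA fr3 hVD (cond F.p B True) (1 / c₁) hp hc₁' hsup hM
  have hfin : 2 * (1 / c₁) * Real.exp (-(δb * J)) ≤ 1 / 2 ^ 35 := by
    have h1 : 2 * (1 / c₁) * Real.exp (-(δb * J)) ≤ 2 * (1 / c₁) * (c₁ / 2 ^ 36) :=
      mul_le_mul_of_nonneg_left j4 (by positivity)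
    have h2 : 2 * (1 / c₁) * (c₁ / 2 ^ 36) = 1 / 2 ^ 35 := by
      field_simp
    rw [h2] at h1
    exact h1
  have h35 : (1 : ℝ) / 2 ^ 35 < 1 / 2 ^ 34 := by norm_num
  exact absurd (al2.trans (hkil.trans hfin)) (not_le.2 h35)

end Pool.D2N
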