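import Pool.Agent.H90.D2.Aff

/-!
# D2: two samples of one line and window in a frame
-/

set_option autoImplicit false

namespace Pool.D2F

open Finset Real MvPolynomial
open Pool.Agent.H49.Ent Pool.Agent.H32.Dense Pool.STK Pool.KA Pool.KSAT Pool.K2S Pool.PB Pool.S6C
open Pool.GEN Pool.CHT Pool.CHX
open Pool.VIS24 (VPol Nr)

variable {m J : ℕ}

/-- **The natural velocity** of the line of the sample. -/
noncomputable def Xn (F : Fam m J) (c : ℕ → Fin m) (g : ℕ → ℕ) (a : ℕ)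
    (ψ : PtT F → ℕ → Option (Fin m) → ℝ) (ω : F.Ω) (j : ℕ) : ℝ :=
  eta c g a (ψ (ptr F J ω)) ((1 / 2 ^ a : ℝ) • bd F ω) j

/-- **The difference of the natural times.** -/
noncomputable def tu (F : Fam m J) (a : ℕ) (ω ω' : F.Ω) : ℝ := 2 ^ a * (F.t ω' - F.t ω)

theorem Xn_zero (F : Fam m J) (c : ℕ → Fin m) (g : ℕ → ℕ) (a : ℕ)
    (ψ : PtT F → ℕ → Option (Fin m) → ℝ) (ω : F.Ω) : Xn F c g a ψ ω 0 = 1 := by
  show 2 ^ a * ((1 / 2 ^ a : ℝ) * 1) = 1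
  field_simp

theorem Xn_le {F : Fam m J} {c : ℕ → Fin m} {n a k e : ℕ} {g : ℕ → ℕ} {A : F.Ω → Prop}
    {ψ : PtT F → ℕ → Option (Fin m) → ℝ} {ψH : LnT F → ℕ → Option (Fin m) → ℝ}
    (h : FrOK F c n a k e g A ψ ψH) {ω : F.Ω} (hω : A ω) {j : ℕ} (hj : j ≤ n) :
    |Xn F c g a ψ ω j| ≤ 2 ^ k := by
  cases j with
  | zero =>
    rw [Xn_zero, abs_one]
    exact one_le_pow₀ (by norm_num)
  | succ l =>
    have h1 := h.nat ω hω l hj
    show |2 ^ g l * (((1 / 2 ^ a : ℝ) • bd F ω) (some (c l)) -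
      cv (ψ (ptr F J ω) l) ((1 / 2 ^ a : ℝ) • bd F ω))| ≤ 2 ^ k
    rw [cv_smul, Pi.smul_apply, smul_eq_mul, ← mul_sub, abs_mul, abs_mul,
      abs_of_pos (by positivity : (0 : ℝ) < 2 ^ g l),
      abs_of_pos (by positivity : (0 : ℝ) < 1 / 2 ^ a)]
    refine (mul_le_mul_of_nonneg_left (mul_le_mul_of_nonneg_left h1 (by positivity))
      (by positivity)).trans (le_of_eq ?_)
    rw [pow_add]
    field_simp

/-- Two samples of one line. -/
theorem slam_eq {F : Fam m J} {a : ℕ} {ω ω' : F.Ω} (hs : slam F a ω = slam F a ω') :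
    bd F ω' = bd F ω ∧ bt F ω' = bt F ω + (F.t ω' - F.t ω) • bd F ω := by
  have h1 : F.l ω = F.l ω' := congrArg Prod.fst hs
  have hu : F.u ω = F.u ω' := congrArg Prod.fst h1
  have hd : F.d ω = F.d ω' := congrArg Prod.snd h1
  constructor
  · funext o
    cases o with
    | none => rfl
    | some j =>
      show F.d ω' j = F.d ω j
      rw [hd]
  · funext o
    cases o with
    | none =>
      show F.t ω' = F.t ω + (F.t ω' - F.t ω) * 1
      ring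
    | some j =>
      show F.x ω' j = F.x ω j + (F.t ω' - F.t ω) * F.d ω j
      unfold Fam.x
      rw [hu, hd]
      ring

theorem tu_le {F : Fam m J} {a : ℕ} (ha : a ≤ J) {ω ω' : F.Ω}
    (hs : slam F a ω = slam F a ω') : |tu F a ω ω'| ≤ 1 := by
  have h1 := Pool.PB.Trl.t_rt F ha ω
  have h2 := Pool.PB.Trl.t_rt F ha ω'
  have h3 := Pool.PB.Trl.rt_mem F a ω
  have h4 := Pool.PB.Trl.rt_mem F a ω'
  have e1 : tu F a ω ω' = Pool.PB.Trl.rt F a ω' - Pool.PB.Trl.rt F a ω := by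
    unfold tu
    rw [h1, h2, hs]
    have : (2 : ℝ) ^ a ≠ 0 := by positivity
    field_simp
    ring
  rw [e1, abs_le]
  constructor <;> linarith [h3.1, h3.2, h4.1, h4.2]

/-- **The labels of two samples are near** on the natural box. -/
theorem lab_nr {F : Fam m J} {c : ℕ → Fin m} {n i a k e e' s p V : ℕ} {g : ℕ → ℕ}
    {A : F.Ω → Prop} {ψ : PtT F → ℕ → Option (Fin m) → ℝ}
    {ψH : LnT F → ℕ → Option (Fin m) → ℝ} {μ : PtT F → ℕ → ℝ} {κ : PtT F → ℕ → ℕ → ℝ}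
    (hc : Set.InjOn c (Set.Iio (i + 1))) (hin : i < n) (h : FrOK F c n a k e g A ψ ψH)
    (hμ : ∀ ω, A ω → ∀ j ≤ i, |μ (ptr F J ω) j| ≤ 2 ^ e')
    (hκ : ∀ ω, A ω → ∀ j ≤ i, ∀ l ≤ i, |κ (ptr F J ω) j l| ≤ 2 ^ e') (ha : a ≤ J)
    (hV : s + e' + k + 3 * (i + 1) + 6 ≤ V) (hJ : ∀ j ≤ i, e + g j + V ≤ J)
    (hg : ∀ l < i, k + 1 ≤ g l) (hp : p ≤ g i + s) {ω ω' : F.Ω} (hω : A ω) (hω' : A ω')
    (hs : slam F a ω = slam F a ω')
    (hq : ∀ η : ℕ → ℝ, (∀ j ≤ i, |η j| ≤ 2 ^ (k + 1)) →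
      |tu F a ω ω' * Xn F c g a ψ ω (i + 1) + qv i (μ (ptr F J ω')) (κ (ptr F J ω'))
        (fun j => η j - tu F a ω ω' * Xn F c g a ψ ω j) -
        qv i (μ (ptr F J ω)) (κ (ptr F J ω)) η| ≤ 1 / 2 ^ (s + 1)) :
    Nr F c i a p (fun j => g j - (k + 1)) (GA c ψ) ω (LA c g a i ψ μ κ (ptr F J ω))
      (LA c g a i ψ μ κ (ptr F J ω')) := by
  intro b hb
  have hc' : Set.InjOn c (Set.Iio i) := hc.mono (Set.Iio_subset_Iio (Nat.le_succ i))
  have hi2 : ((i : ℝ) + 1) ≤ 2 ^ (i + 1) := by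
    have h1 : ((i + 1 : ℕ) : ℝ) ≤ ((2 ^ (i + 1) : ℕ) : ℝ) := by
      exact_mod_cast (Nat.lt_two_pow_self (n := i + 1)).le
    push_cast at h1
    exact h1
  have hi0 : (0 : ℝ) ≤ i := Nat.cast_nonneg i
  obtain ⟨hbd, hbt⟩ := slam_eq hs
  obtain ⟨φ, hφ⟩ : ∃ φ, φ = ψ (ptr F J ω) := ⟨_, rfl⟩
  have hφ' : ψ (ptr F J ω') = φ := by rw [hφ, h.cls ω hω, h.cls ω' hω', hs]
  obtain ⟨τ, hτ⟩ : ∃ τ, τ = tu F a ω ω' := ⟨_, rfl⟩
  have hτ1 : |τ| ≤ 1 := by rw [hτ]; exact tu_le ha hs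
  obtain ⟨Y, hY⟩ : ∃ Y, Y = Xn F c g a ψ ω := ⟨_, rfl⟩
  have hYe : ∀ j, Y j = eta c g a φ ((1 / 2 ^ a : ℝ) • bd F ω) j := fun j => by
    rw [hY, hφ]
    rfl
  -- the errors of rounding
  obtain ⟨δ, hδ⟩ : ∃ δ, δ = hx F ω - bt F ω := ⟨_, rfl⟩
  obtain ⟨δ', hδ'⟩ : ∃ δ', δ' = hx F ω' - bt F ω' := ⟨_, rfl⟩
  have hδ0 : δ none = 0 := by rw [hδ, Pi.sub_apply, hx_none, sub_self]
  have hδ0' : δ' none = 0 := by rw [hδ', Pi.sub_apply, hx_none, sub_self]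
  have hδk : ∀ k, |δ (some k)| ≤ 1 / 2 ^ J := fun k => by rw [hδ]; exact hx_some F ω k
  have hδk' : ∀ k, |δ' (some k)| ≤ 1 / 2 ^ J := fun k => by rw [hδ']; exact hx_some F ω' k
  have hlip : ∀ l ≤ i, ∀ j < l, |φ l (some (c j))| ≤ 2 ^ (e + nlp g j l) := fun l hl j hj => by
    rw [hφ]
    exact h.lip ω hω l (lt_of_le_of_lt hl hin) j hj
  have hdep : ∀ l, CvC c l (φ l) := fun l => by rw [hφ]; exact h.dep _ l
  have hht := ht_small (V := V) hc' (hdep i) (hlip i le_rfl) hδ0 hδk hJ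
  have hht' := ht_small (V := V) hc' (hdep i) (hlip i le_rfl) hδ0' hδk' hJ
  have het : ∀ j ≤ i, |eta c g a φ δ j| ≤ i / 2 ^ V := fun j hj =>
    eta_small a hc' hdep (fun l hl => hlip l hl.le) hδ0 hδk (fun j hj => hJ j hj.le) hj
  have het' : ∀ j ≤ i, |eta c g a φ δ' j| ≤ i / 2 ^ V := fun j hj =>
    eta_small a hc' hdep (fun l hl => hlip l hl.le) hδ0' hδk' (fun j hj => hJ j hj.le) hj
  have hiV : (i : ℝ) / 2 ^ V ≤ 1 := by
    rw [div_le_one (by positivity)]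
    have : (2 : ℝ) ^ (i + 1) ≤ 2 ^ V := pow_le_pow_right₀ (by norm_num) (by omega)
    linarith
  -- the difference of the points
  have hD : hx F ω' - hx F ω = τ • ((1 / 2 ^ a : ℝ) • bd F ω) + δ' - δ := by
    funext o
    have e1 : bt F ω' o = bt F ω o + (F.t ω' - F.t ω) * bd F ω o := by
      rw [hbt]
      rfl
    simp only [hδ, hδ', Pi.sub_apply, Pi.add_apply, Pi.smul_apply, smul_eq_mul]
    rw [e1, hτ]
    unfold tu
    have : (2 : ℝ) ^ a ≠ 0 := by positivity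
    field_simp
    ring
  obtain ⟨β, hβ⟩ : ∃ β : ℕ → ℝ, β = eta c g a φ (b - hx F ω) := ⟨_, rfl⟩
  have hβ1 : ∀ j ≤ i, |β j| ≤ 2 ^ (k + 1) := fun j hj => by
    rw [hβ, hφ]
    exact eta_box hg ω hb hj
  have hβ' : ∀ j, eta c g a φ (b - hx F ω') j =
      (β j - τ * Y j) + (eta c g a φ δ j - eta c g a φ δ' j) := by
    intro j
    have e1 : b - hx F ω' = (b - hx F ω) - (τ • ((1 / 2 ^ a : ℝ) • bd F ω) + δ' - δ) := by
      rw [← hD]
      funext o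
      simp only [Pi.sub_apply]
      ring
    rw [e1, eta_sub c g a φ (b - hx F ω) (τ • ((1 / 2 ^ a : ℝ) • bd F ω) + δ' - δ),
      eta_sub c g a φ (τ • ((1 / 2 ^ a : ℝ) • bd F ω) + δ') δ, eta_add, eta_smul, ← hYe, hβ]
    ring
  -- the quadratic parts
  obtain ⟨q, hqe⟩ : ∃ q, q = qv i (μ (ptr F J ω')) (κ (ptr F J ω')) := ⟨_, rfl⟩
  have hYk : ∀ j ≤ i, |Y j| ≤ 2 ^ k := fun j hj => by
    rw [hY]
    exact Xn_le h hω (by omega)
  have hR1 : ∀ j ≤ i, |β j - τ * Y j| ≤ 2 ^ (k + 2) - 1 := by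
    intro j hj
    refine (abs_sub _ _).trans ?_
    rw [abs_mul]
    have h1 : |τ| * |Y j| ≤ 1 * 2 ^ k := mul_le_mul hτ1 (hYk j hj) (abs_nonneg _) zero_le_one
    have h2 := hβ1 j hj
    have h3 : (1 : ℝ) ≤ 2 ^ k := one_le_pow₀ (by norm_num)
    rw [pow_succ] at h2
    rw [pow_add]
    linarith
  have hdδ : ∀ j ≤ i, |eta c g a φ δ j - eta c g a φ δ' j| ≤ 2 * (i / 2 ^ V) := by
    intro j hj
    refine (abs_sub _ _).trans ?_
    have := het j hj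
    have := het' j hj
    linarith
  have hiV2 : 2 * ((i : ℝ) / 2 ^ V) ≤ 1 := by
    rw [mul_div_assoc', div_le_one (by positivity)]
    have h1 : (2 : ℝ) ^ (i + 1 + 1) ≤ 2 ^ V := pow_le_pow_right₀ (by norm_num) (by omega)
    rw [pow_succ] at h1
    linarith
  have h5 := qv_lip (i := i) (μ := μ (ptr F J ω')) (κ := κ (ptr F J ω'))
    (η := eta c g a φ (b - hx F ω')) (η' := fun j => β j - τ * Y j)
    (M := 2 ^ e') (R := 2 ^ (k + 2)) (δ := 2 * (i / 2 ^ V)) (by positivity) (by positivity)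
    (by positivity) (hμ ω' hω') (hκ ω' hω') (fun j hj => by
      rw [hβ' j]
      refine (abs_add_le _ _).trans ?_
      have := hR1 j hj
      have := hdδ j hj
      linarith) (fun j hj => by
      have := hR1 j hj
      linarith) (fun j hj => by
      rw [hβ' j, add_sub_cancel_left]
      exact hdδ j hj)
  have h6 := hq β hβ1
  rw [← hτ, ← hY] at h6
  -- the labels
  unfold LA
  rw [eval_lbp, eval_lbp, hφ', ← hφ]
  have e2 : bho J J (ptr F J ω) (some (c i)) + cv (φ i) (b - bho J J (ptr F J ω)) +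
      1 / 2 ^ g i * qv i (μ (ptr F J ω)) (κ (ptr F J ω))
        (eta c g a φ (b - bho J J (ptr F J ω))) -
      (bho J J (ptr F J ω') (some (c i)) + cv (φ i) (b - bho J J (ptr F J ω')) +
      1 / 2 ^ g i * qv i (μ (ptr F J ω')) (κ (ptr F J ω'))
        (eta c g a φ (b - bho J J (ptr F J ω')))) =
      -((hx F ω' - hx F ω) (some (c i)) - cv (φ i) (hx F ω' - hx F ω)) - 1 / 2 ^ g i *
        (qv i (μ (ptr F J ω')) (κ (ptr F J ω')) (eta c g a φ (b - hx F ω')) -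
          qv i (μ (ptr F J ω)) (κ (ptr F J ω)) β) := by
    rw [hβ]
    have e3 : cv (φ i) (hx F ω' - hx F ω) = cv (φ i) (b - hx F ω) - cv (φ i) (b - hx F ω') := by
      rw [← cv_sub]
      congr 1
      funext o
      simp only [Pi.sub_apply]
      ring
    rw [e3, Pi.sub_apply]
    show hx F ω (some (c i)) + cv (φ i) (b - hx F ω) + 1 / 2 ^ g i *
      qv i (μ (ptr F J ω)) (κ (ptr F J ω)) (eta c g a φ (b - hx F ω)) -
      (hx F ω' (some (c i)) + cv (φ i) (b - hx F ω') + 1 / 2 ^ g i *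
      qv i (μ (ptr F J ω')) (κ (ptr F J ω')) (eta c g a φ (b - hx F ω'))) = _
    ring
  rw [e2]
  have e4 : (hx F ω' - hx F ω) (some (c i)) - cv (φ i) (hx F ω' - hx F ω) =
      1 / 2 ^ g i * (τ * Y (i + 1)) + ((δ' (some (c i)) - cv (φ i) δ') -
        (δ (some (c i)) - cv (φ i) δ)) := by
    rw [hD, cv_sub, cv_add, cv_smul, hYe]
    simp only [eta, Pi.sub_apply, Pi.add_apply, Pi.smul_apply, smul_eq_mul]
    have : (2 : ℝ) ^ g i ≠ 0 := by positivity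
    field_simp
    ring
  rw [e4]
  have e5 : -(1 / 2 ^ g i * (τ * Y (i + 1)) + ((δ' (some (c i)) - cv (φ i) δ') -
        (δ (some (c i)) - cv (φ i) δ))) - 1 / 2 ^ g i *
        (qv i (μ (ptr F J ω')) (κ (ptr F J ω')) (eta c g a φ (b - hx F ω')) -
          qv i (μ (ptr F J ω)) (κ (ptr F J ω)) β) =
      -(1 / 2 ^ g i * (τ * Y (i + 1) + qv i (μ (ptr F J ω')) (κ (ptr F J ω'))
        (fun j => β j - τ * Y j) - qv i (μ (ptr F J ω)) (κ (ptr F J ω)) β)) -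
      1 / 2 ^ g i * (qv i (μ (ptr F J ω')) (κ (ptr F J ω')) (eta c g a φ (b - hx F ω')) -
        qv i (μ (ptr F J ω')) (κ (ptr F J ω')) (fun j => β j - τ * Y j)) -
      ((δ' (some (c i)) - cv (φ i) δ') - (δ (some (c i)) - cv (φ i) δ)) := by ring
  rw [e5]
  have hg0 : (0 : ℝ) < 1 / 2 ^ g i := by positivity
  have h7 : |-(1 / 2 ^ g i * (τ * Y (i + 1) + qv i (μ (ptr F J ω')) (κ (ptr F J ω'))
        (fun j => β j - τ * Y j) - qv i (μ (ptr F J ω)) (κ (ptr F J ω)) β))| ≤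
      1 / 2 ^ g i * (1 / 2 ^ (s + 1)) := by
    rw [abs_neg, abs_mul, abs_of_pos hg0]
    exact mul_le_mul_of_nonneg_left h6 hg0.le
  have h8 : |1 / 2 ^ g i * (qv i (μ (ptr F J ω')) (κ (ptr F J ω'))
        (eta c g a φ (b - hx F ω')) - qv i (μ (ptr F J ω')) (κ (ptr F J ω'))
          (fun j => β j - τ * Y j))| ≤
      1 / 2 ^ g i * (((i : ℝ) + 1) ^ 2 * 2 ^ e' * (1 + 2 ^ (k + 2)) * (2 * (i / 2 ^ V))) := by
    rw [abs_mul, abs_of_pos hg0]
    exact mul_le_mul_of_nonneg_left h5 hg0.le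
  have h9 : |(δ' (some (c i)) - cv (φ i) δ') - (δ (some (c i)) - cv (φ i) δ)| ≤
      2 * (((i : ℝ) + 1) * (1 / 2 ^ (g i + V))) := by
    refine (abs_sub _ _).trans ?_
    linarith
  refine (abs_sub _ _).trans ((add_le_add ((abs_sub _ _).trans (add_le_add h7 h8)) h9).trans ?_)
  -- the numbers
  have h10 : ((i : ℝ) + 1) ^ 2 * 2 ^ e' * (1 + 2 ^ (k + 2)) * (2 * i) + 2 * (i + 1) ≤
      2 ^ (e' + k + 3 * (i + 1) + 5) := by
    have he1 : (1 : ℝ) ≤ 2 ^ e' := one_le_pow₀ (by norm_num)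
    have hk1 : (1 : ℝ) ≤ 2 ^ k := one_le_pow₀ (by norm_num)
    have h11 : ((i : ℝ) + 1) ^ 3 ≤ (2 ^ (i + 1)) ^ 3 := pow_le_pow_left₀ (by positivity) hi2 3
    have h12 : (1 : ℝ) + 2 ^ (k + 2) ≤ 5 * 2 ^ k := by
      rw [pow_add]
      linarith
    have h13 : ((i : ℝ) + 1) ^ 2 * 2 ^ e' * (1 + 2 ^ (k + 2)) * (2 * i) ≤
        10 * (2 ^ e' * 2 ^ k) * ((i : ℝ) + 1) ^ 3 := by
      calc ((i : ℝ) + 1) ^ 2 * 2 ^ e' * (1 + 2 ^ (k + 2)) * (2 * i) ≤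
          ((i : ℝ) + 1) ^ 2 * 2 ^ e' * (5 * 2 ^ k) * (2 * (i + 1)) := by
            refine mul_le_mul (mul_le_mul_of_nonneg_left h12 (by positivity)) (by linarith)
              (by positivity) (by positivity)
        _ = _ := by ring
    have h14 : 2 * ((i : ℝ) + 1) ≤ 2 * (2 ^ e' * 2 ^ k) * ((i : ℝ) + 1) ^ 3 := by
      have h15 : (1 : ℝ) * (i + 1) ≤ (2 ^ e' * 2 ^ k) * ((i : ℝ) + 1) ^ 3 := by
        refine mul_le_mul ?_ ?_ (by positivity) (by positivity)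
        · calc (1 : ℝ) = 1 * 1 := by ring
            _ ≤ _ := mul_le_mul he1 hk1 zero_le_one (by positivity)
        · nlinarith [sq_nonneg ((i : ℝ))]
      linarith
    have h16 : (2 : ℝ) ^ (e' + k + 3 * (i + 1) + 5) =
        32 * (2 ^ e' * 2 ^ k) * (2 ^ (i + 1)) ^ 3 := by
      rw [← pow_mul, pow_add, pow_add, pow_add, mul_comm 3 (i + 1)]
      ring
    rw [h16]
    have h17 : (12 : ℝ) * (2 ^ e' * 2 ^ k) * ((i : ℝ) + 1) ^ 3 ≤
        32 * (2 ^ e' * 2 ^ k) * (2 ^ (i + 1)) ^ 3 := by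
      refine mul_le_mul (mul_le_mul_of_nonneg_right (by norm_num) (by positivity)) h11
        (by positivity) (by positivity)
    linarith
  have h18 : 1 / (2 : ℝ) ^ g i * (1 / 2 ^ (s + 1)) + 1 / 2 ^ g i *
      (((i : ℝ) + 1) ^ 2 * 2 ^ e' * (1 + 2 ^ (k + 2)) * (2 * (i / 2 ^ V))) +
      2 * (((i : ℝ) + 1) * (1 / 2 ^ (g i + V))) = 1 / 2 ^ (g i + s + 1) +
      (((i : ℝ) + 1) ^ 2 * 2 ^ e' * (1 + 2 ^ (k + 2)) * (2 * i) + 2 * (i + 1)) /
        2 ^ (g i + V) := by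
    rw [pow_add 2 (g i) V, add_assoc (g i) s 1, pow_add 2 (g i) (s + 1)]
    field_simp
    ring
  rw [h18]
  have h19 : (((i : ℝ) + 1) ^ 2 * 2 ^ e' * (1 + 2 ^ (k + 2)) * (2 * i) + 2 * (i + 1)) /
      2 ^ (g i + V) ≤ 1 / 2 ^ (g i + s + 1) := by
    rw [div_le_div_iff₀ (by positivity) (by positivity), one_mul]
    refine (mul_le_mul_of_nonneg_right h10 (by positivity)).trans ?_
    rw [← pow_add]
    exact pow_le_pow_right₀ (by norm_num) (by omega)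
  have h20 : (1 : ℝ) / 2 ^ (g i + s + 1) + 1 / 2 ^ (g i + s + 1) = 1 / 2 ^ (g i + s) := by
    rw [pow_succ]
    field_simp
    norm_num
  calc _ ≤ 1 / (2 : ℝ) ^ (g i + s + 1) + 1 / 2 ^ (g i + s + 1) := by linarith
    _ = 1 / 2 ^ (g i + s) := h20
    _ ≤ 1 / 2 ^ p := one_div_le_one_div_of_le (by positivity)
        (pow_le_pow_right₀ (by norm_num) hp)

end Pool.D2F
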