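import Pool.Agent.H66.D2.Pair
import Pool.Agent.H62.OWN.Jvc

/-!
# D2: the copies as functions of the record

`sel_copy`: in the law of a pair with copies, the copies can be replaced by functions of the record
`z'` of their samples (the same functions for both samples): an event on the pair and its copies has
no larger probability for a well chosen selection, up to the probability that the two records are
equal.
-/

set_option autoImplicit false

namespace Pool.D2S

open Finset Real
open Pool.Agent.H49.Ent Pool.Agent.H32.Dense Pool.STK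
open Pool.K2S
open Pool.KM7 (P2 P2_isLaw P2_pos)
open Pool.JVE (pe_sum)
open Pool.D2A

/-- Push-forward of a product of laws under a product of maps. -/
theorem sum_push {A B : Type} [Fintype A] [Fintype B] {N : ℕ} (ν : Fin N → A → ℝ)
    (φ : Fin N → A → B) (h : (Fin N → B) → ℝ) :
    ∑ w : Fin N → A, (∏ r, ν r (w r)) * h (fun r => φ r (w r)) =
      ∑ g : Fin N → B, (∏ r, law (ν r) (φ r) (g r)) * h g := by
  classical
  have h1 : ∀ w : Fin N → A, (∏ r, ν r (w r)) * h (fun r => φ r (w r)) =
      ∑ g : Fin N → B, (∏ r, if φ r (w r) = g r then ν r (w r) else 0) * h g := by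
    intro w
    rw [Finset.sum_eq_single (fun r => φ r (w r))]
    · congr 1
      refine Finset.prod_congr rfl fun r _ => ?_
      rw [if_pos rfl]
    · intro g _ hg
      have : ∃ r, φ r (w r) ≠ g r := by
        by_contra hcon
        push Not at hcon
        exact hg (funext fun r => (hcon r).symm)
      obtain ⟨r, hr⟩ := this
      rw [Finset.prod_eq_zero (Finset.mem_univ r) (if_neg hr), zero_mul]
    · intro h'
      exact absurd (Finset.mem_univ _) h'
  rw [Finset.sum_congr rfl fun w _ => h1 w, Finset.sum_comm]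
  refine Finset.sum_congr rfl fun g _ => ?_
  rw [← Finset.sum_mul]
  congr 1
  unfold law
  rw [Finset.prod_univ_sum, Fintype.piFinset_univ]

/-- Restriction of a product law to some of its coordinates. -/
theorem sum_inj {Ω ι : Type} [Fintype Ω] [Fintype ι] [DecidableEq ι] {N : ℕ} (μ : ι → Ω → ℝ)
    (hμ : ∀ i, ∑ ω, μ i ω = 1) (e : Fin N → ι) (he : Function.Injective e)
    (h : (Fin N → Ω) → ℝ) :
    ∑ f : ι → Ω, (∏ i, μ i (f i)) * h (fun r => f (e r)) =
      ∑ g : Fin N → Ω, (∏ r, μ (e r) (g r)) * h g := by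
  classical
  have h1 : ∀ f : ι → Ω, (∏ i, μ i (f i)) * h (fun r => f (e r)) =
      ∑ g : Fin N → Ω, (∏ i, if (∀ r, e r = i → f i = g r) then μ i (f i) else 0) * h g := by
    intro f
    rw [Finset.sum_eq_single (fun r => f (e r))]
    · congr 1
      refine Finset.prod_congr rfl fun i _ => ?_
      rw [if_pos]
      intro r hr
      rw [← hr]
    · intro g _ hg
      have : ∃ r, f (e r) ≠ g r := by
        by_contra hcon
        push Not at hcon
        exact hg (funext fun r => (hcon r).symm)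
      obtain ⟨r, hr⟩ := this
      rw [Finset.prod_eq_zero (Finset.mem_univ (e r)) (if_neg fun h' => hr (h' r rfl)), zero_mul]
    · intro h'
      exact absurd (Finset.mem_univ _) h'
  rw [Finset.sum_congr rfl fun w _ => h1 w, Finset.sum_comm]
  refine Finset.sum_congr rfl fun g _ => ?_
  rw [← Finset.sum_mul]
  congr 1
  have h2 : ∑ f : ι → Ω, ∏ i, (if (∀ r, e r = i → f i = g r) then μ i (f i) else 0) =
      ∏ i, ∑ ω, (if (∀ r, e r = i → ω = g r) then μ i ω else 0) := by
    rw [Finset.prod_univ_sum, Fintype.piFinset_univ]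
  rw [h2]
  have h3 : ∀ i, i ∉ Finset.univ.image e →
      ∑ ω, (if (∀ r, e r = i → ω = g r) then μ i ω else 0) = 1 := by
    intro i hi
    rw [← hμ i]
    refine Finset.sum_congr rfl fun ω _ => ?_
    rw [if_pos]
    intro r hr
    exact absurd (Finset.mem_image.2 ⟨r, Finset.mem_univ r, hr⟩) hi
  rw [← Finset.prod_subset (Finset.subset_univ (Finset.univ.image e)) fun i _ hi => h3 i hi,
    Finset.prod_image fun r _ r' _ h' => he h']
  refine Finset.prod_congr rfl fun r _ => ?_
  rw [Finset.sum_eq_single (g r)]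
  · rw [if_pos]
    intro r' hr'
    rw [he hr']
  · intro ω _ hω
    rw [if_neg]
    intro h'
    exact hω (h' r rfl)
  · intro h'
    exact absurd (Finset.mem_univ _) h'

variable {Ω σ ζ' : Type} [Fintype Ω] {N : ℕ}

/-- The law of one copy given the pair. -/
theorem law_copy {p : Ω → ℝ} (hp : IsLaw p) (S : Ω → σ) (z' : Ω → ζ') (sd : Fin N → Bool)
    (r : Fin N) (x : ζ') (ω : Ω) :
    law (Pool.Agent.H49.Ent.cond (P2 p S) (fun v => z' (sm sd r v)) x) (sm sd r) ω = Pool.Agent.H49.Ent.cond p z' x ω := by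
  classical
  have hM := P2_sm hp S sd r
  have h1 : law (P2 p S) (fun v => z' (sm sd r v)) x = law p z' x :=
    hM.law z' x
  rw [law_cond]
  unfold Pool.Agent.H49.Ent.cond
  by_cases h : z' ω = x
  · rw [if_pos h, h1]
    congr 1
    rw [← hM ω]
    unfold law
    refine Finset.sum_congr rfl fun v _ => ?_
    by_cases h2 : sm sd r v = ω
    · rw [if_pos h2, if_pos]
      rw [Prod.mk.injEq]
      exact ⟨h2, by rw [h2]; exact h⟩
    · rw [if_neg h2, if_neg]
      rw [Prod.mk.injEq]
      exact fun h' => h2 h'.1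
  · rw [if_neg h]
    have : law (P2 p S) (fun v => (sm sd r v, z' (sm sd r v))) (ω, x) = 0 := by
      unfold law
      refine Finset.sum_eq_zero fun v _ => ?_
      rw [if_neg]
      rw [Prod.mk.injEq]
      rintro ⟨h2, h3⟩
      rw [h2] at h3
      exact h h3
    rw [this, zero_div]

open Classical in
/-- The probability of an event on the pair and its copies. -/
theorem pe_PL {p : Ω → ℝ} (hp : IsLaw p) (S : Ω → σ) (z' : Ω → ζ') (sd : Fin N → Bool)
    (B : Ω × Ω → (Fin N → Ω) → Prop) :
    Pe (PL p S z' sd) (fun w => B w.1 (fun r => cp sd r w)) =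
      ∑ v, P2 p S v * ∑ g : Fin N → Ω, (∏ r, Pool.Agent.H49.Ent.cond p z' (z' (sm sd r v)) (g r)) *
        (if B v g then 1 else 0) := by
  classical
  rw [pe_sum, Fintype.sum_prod_type]
  refine Finset.sum_congr rfl fun v _ => ?_
  have h1 : ∀ g : Fin N → Ω × Ω, (if B (v, g).1 (fun r => cp sd r (v, g)) then
      PL p S z' sd (v, g) else 0) = P2 p S v *
      ((∏ r, Pool.Agent.H49.Ent.cond (P2 p S) (fun v => z' (sm sd r v)) (z' (sm sd r v)) (g r)) *
        (fun f : Fin N → Ω => if B v f then (1 : ℝ) else 0) (fun r => sm sd r (g r))) := by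
    intro g
    show (if B v (fun r => sm sd r (g r)) then _ else 0) = _
    by_cases h : B v (fun r => sm sd r (g r))
    · rw [if_pos h]
      simp only [h, if_true, mul_one]
      rfl
    · rw [if_neg h]
      simp only [h, if_false, mul_zero]
  rw [Finset.sum_congr rfl fun g _ => h1 g, ← Finset.mul_sum,
    sum_push (fun r => Pool.Agent.H49.Ent.cond (P2 p S) (fun v => z' (sm sd r v)) (z' (sm sd r v)))
      (fun r => sm sd r) (fun f : Fin N → Ω => if B v f then (1 : ℝ) else 0)]
  congr 1
  refine Finset.sum_congr rfl fun g _ => ?_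
  congr 1
  exact Finset.prod_congr rfl fun r _ => law_copy hp S z' sd r _ _

/-- **The copies as functions of the record.** -/
theorem sel_copy {κ : Type} [Finite κ] {p : Ω → ℝ} (hp : IsLaw p) (S : Ω → σ) (z' : Ω → ζ')
    (sd : Fin N → Bool) (j : Fin N → κ) (hj : ∀ r r', sd r = sd r' → j r = j r' → r = r')
    (B : Ω × Ω → (Fin N → Ω) → Prop) :
    ∃ f : κ → ζ' → Ω, (∀ k ω, 0 < p ω → 0 < p (f k (z' ω)) ∧ z' (f k (z' ω)) = z' ω) ∧
      Pe (P2 p S) (fun v => B v (fun r => f (j r) (z' (sm sd r v)))) ≤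
        Pe (PL p S z' sd) (fun w => B w.1 (fun r => cp sd r w)) +
          Pe (P2 p S) (fun v => z' v.1 = z' v.2) := by
  classical
  have := Fintype.ofFinite κ
  -- the classes of the record
  obtain ⟨R, hR⟩ : ∃ R : Type, R = {x : ζ' // ∃ ω, 0 < p ω ∧ z' ω = x} := ⟨_, rfl⟩
  have hRf : Finite {x : ζ' // ∃ ω, 0 < p ω ∧ z' ω = x} := by
    refine Finite.of_injective (fun x : {x : ζ' // ∃ ω, 0 < p ω ∧ z' ω = x} =>
      Classical.choose x.2) ?_
    intro x y h
    have hx := (Classical.choose_spec x.2).2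
    have hy := (Classical.choose_spec y.2).2
    have h' : Classical.choose x.2 = Classical.choose y.2 := h
    rw [h'] at hx
    exact Subtype.ext (hx.symm.trans hy)
  have := Fintype.ofFinite {x : ζ' // ∃ ω, 0 < p ω ∧ z' ω = x}
  obtain ⟨μ, hμ⟩ : ∃ μ : κ × {x : ζ' // ∃ ω, 0 < p ω ∧ z' ω = x} → Ω → ℝ,
    μ = fun i => Pool.Agent.H49.Ent.cond p z' i.2.1 := ⟨_, rfl⟩
  have hμ0 : ∀ i ω, 0 ≤ μ i ω := fun i ω => by
    rw [hμ]
    exact cond_nonneg hp.nonneg z' _ ω
  have hμ1 : ∀ i, ∑ ω, μ i ω = 1 := by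
    intro i
    rw [hμ]
    obtain ⟨ω, hω, hx⟩ := i.2.2
    refine sum_cond p z' ?_
    rw [← hx]
    exact (law_pos hp.nonneg z' hω).ne'
  have hne : Nonempty Ω := by
    by_contra hcon
    rw [not_nonempty_iff] at hcon
    have h2 := hp.sum_one
    rw [Finset.univ_eq_empty, Finset.sum_empty] at h2
    exact zero_ne_one h2
  obtain ⟨ω₀⟩ := hne
  -- the selection
  obtain ⟨ex, hex⟩ : ∃ ex : (κ × {x : ζ' // ∃ ω, 0 < p ω ∧ z' ω = x} → Ω) → κ → ζ' → Ω,
    ex = fun f k x => if h : ∃ ω, 0 < p ω ∧ z' ω = x then f (k, ⟨x, h⟩) else ω₀ := ⟨_, rfl⟩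
  have hexv : ∀ f k ω, 0 < p ω → ∀ h : ∃ ω', 0 < p ω' ∧ z' ω' = z' ω,
      ex f k (z' ω) = f (k, ⟨z' ω, h⟩) := by
    intro f k ω _ h
    rw [hex]
    exact dif_pos h
  -- the average
  obtain ⟨W, hW⟩ : ∃ W : (κ × {x : ζ' // ∃ ω, 0 < p ω ∧ z' ω = x} → Ω) → ℝ,
    W = fun f => ∏ i, μ i (f i) := ⟨_, rfl⟩
  have hW0 : ∀ f, 0 ≤ W f := fun f => by
    rw [hW]
    exact Finset.prod_nonneg fun i _ => hμ0 i _
  have hW1 : ∑ f, W f = 1 := by
    have h1 : ∏ i, ∑ ω, μ i ω = 1 := Finset.prod_eq_one fun i _ => hμ1 i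
    rw [Finset.prod_univ_sum, Fintype.piFinset_univ] at h1
    rw [hW]
    exact h1
  obtain ⟨V, hV⟩ : ∃ V : (κ × {x : ζ' // ∃ ω, 0 < p ω ∧ z' ω = x} → Ω) → ℝ,
    V = fun f => ∑ v, if (B v (fun r => ex f (j r) (z' (sm sd r v))) ∧ z' v.1 ≠ z' v.2) then
      P2 p S v else 0 := ⟨_, rfl⟩
  have h2p := P2_isLaw hp S
  have havg : ∑ f, W f * V f ≤ Pe (PL p S z' sd) (fun w => B w.1 (fun r => cp sd r w)) := by
    rw [pe_PL hp S z' sd B, hV]
    simp only [Finset.mul_sum]
    rw [Finset.sum_comm]
    refine Finset.sum_le_sum fun v _ => ?_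
    rw [← Finset.mul_sum]
    rcases (h2p.nonneg v).eq_or_lt with h0 | h0
    · rw [← h0, zero_mul]
      refine le_of_eq (Finset.sum_eq_zero fun f _ => ?_)
      split_ifs <;> simp
    · obtain ⟨a1, a2, -⟩ := (P2_pos hp v).mp h0
      by_cases hz : z' v.1 = z' v.2
      · refine le_trans (le_of_eq (Finset.sum_eq_zero fun f _ => ?_)) (mul_nonneg h0.le
          (Finset.sum_nonneg fun g _ => mul_nonneg (Finset.prod_nonneg fun r _ =>
            cond_nonneg hp.nonneg z' _ _) (by split_ifs <;> norm_num)))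
        rw [if_neg (fun h => h.2 hz), mul_zero]
      · have hsm : ∀ r, 0 < p (sm sd r v) := by
          intro r
          unfold sm
          cases sd r
          · exact a2
          · exact a1
        have hcl : ∀ r, ∃ ω, 0 < p ω ∧ z' ω = z' (sm sd r v) := fun r => ⟨_, hsm r, rfl⟩
        have hinj : Function.Injective (fun r => (j r,
            (⟨z' (sm sd r v), hcl r⟩ : {x : ζ' // ∃ ω, 0 < p ω ∧ z' ω = x}))) := by
          intro r r' h
          simp only [Prod.mk.injEq, Subtype.mk.injEq] at h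
          refine hj r r' ?_ h.1
          have h3 := h.2
          unfold sm at h3
          revert h3
          cases sd r <;> cases sd r' <;> intro h3
          · rfl
          · exact absurd h3.symm hz
          · exact absurd h3 hz
          · rfl
        have h4 := sum_inj μ hμ1 _ hinj (fun g => if B v g then (1 : ℝ) else 0)
        have h5 : ∀ f, W f * (if (B v (fun r => ex f (j r) (z' (sm sd r v))) ∧ z' v.1 ≠ z' v.2)
            then P2 p S v else 0) = P2 p S v * ((∏ i, μ i (f i)) *
              (fun g => if B v g then (1 : ℝ) else 0)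
                (fun r => f ((j r, (⟨z' (sm sd r v), hcl r⟩ :
                  {x : ζ' // ∃ ω, 0 < p ω ∧ z' ω = x}))))) := by
          intro f
          have e1 : (fun r => ex f (j r) (z' (sm sd r v))) =
              fun r => f ((j r, (⟨z' (sm sd r v), hcl r⟩ :
                {x : ζ' // ∃ ω, 0 < p ω ∧ z' ω = x}))) :=
            funext fun r => hexv f (j r) _ (hsm r) (hcl r)
          rw [e1, hW]
          by_cases hB : B v (fun r => f ((j r, (⟨z' (sm sd r v), hcl r⟩ :
                {x : ζ' // ∃ ω, 0 < p ω ∧ z' ω = x}))))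
          · rw [if_pos ⟨hB, hz⟩]
            simp only [hB, if_true]
            ring
          · rw [if_neg (fun h => hB h.1)]
            simp only [hB, if_false]
            ring
        rw [Finset.sum_congr rfl fun f _ => h5 f, ← Finset.mul_sum, h4]
        refine le_of_eq ?_
        congr 1
        refine Finset.sum_congr rfl fun g _ => ?_
        congr 1
        rw [hμ]
  -- the choice
  obtain ⟨f, -, hf⟩ : ∃ f ∈ (Finset.univ : Finset (κ × {x : ζ' // ∃ ω, 0 < p ω ∧ z' ω = x} → Ω)),
      0 < W f ∧ V f ≤ Pe (PL p S z' sd) (fun w => B w.1 (fun r => cp sd r w)) := by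
    by_contra hcon
    push Not at hcon
    have h6 : ∀ f, W f * Pe (PL p S z' sd) (fun w => B w.1 (fun r => cp sd r w)) ≤ W f * V f := by
      intro f
      rcases (hW0 f).eq_or_lt with h0 | h0
      · rw [← h0, zero_mul, zero_mul]
      · exact mul_le_mul_of_nonneg_left (hcon f (Finset.mem_univ f) h0).le h0.le
    have h7 : ∃ f, 0 < W f := by
      by_contra h8
      push Not at h8
      have : ∑ f, W f ≤ 0 := Finset.sum_nonpos fun f _ => h8 f
      rw [hW1] at this
      linarith
    obtain ⟨f₁, hf₁⟩ := h7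
    have h9 : ∑ f, W f * Pe (PL p S z' sd) (fun w => B w.1 (fun r => cp sd r w)) <
        ∑ f, W f * V f := Finset.sum_lt_sum (fun f _ => h6 f) ⟨f₁, Finset.mem_univ f₁,
      mul_lt_mul_of_pos_left (hcon f₁ (Finset.mem_univ f₁) hf₁) hf₁⟩
    rw [← Finset.sum_mul, hW1, one_mul] at h9
    exact absurd havg (not_le.2 h9)
  refine ⟨ex f, ?_, ?_⟩
  · intro k ω hω
    rw [hexv f k ω hω ⟨ω, hω, rfl⟩]
    have h1 : 0 < μ (k, ⟨z' ω, ω, hω, rfl⟩) (f (k, ⟨z' ω, ω, hω, rfl⟩)) := by
      refine lt_of_le_of_ne (hμ0 _ _) fun h => ?_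
      have h2 := hf.1
      rw [hW] at h2
      have h3 : ∏ i, μ i (f i) = 0 := Finset.prod_eq_zero
        (Finset.mem_univ (k, ⟨z' ω, ω, hω, rfl⟩)) h.symm
      simp only [h3] at h2
      exact lt_irrefl _ h2
    rw [hμ] at h1
    exact (cond_pos_iff hp.nonneg z' _ _).mp h1
  · have h1 := hf.2
    rw [hV] at h1
    refine le_trans ?_ (add_le_add_left h1 _)
    rw [pe_sum, pe_sum, ← Finset.sum_add_distrib]
    refine Finset.sum_le_sum fun v _ => ?_
    have h2 := h2p.nonneg v
    by_cases h3 : B v (fun r => ex f (j r) (z' (sm sd r v)))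
    · by_cases h4 : z' v.1 = z' v.2
      · rw [if_pos h3, if_pos h4, if_neg (fun h => h.2 h4)]
        linarith
      · rw [if_pos h3, if_neg h4, if_pos ⟨h3, h4⟩]
        linarith
    · rw [if_neg h3, if_neg (fun h => h3 h.1)]
      split_ifs <;> linarith

end Pool.D2S
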