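import Pool.Agent.H90.D2.Mub
import Pool.Agent.H31.D2.Mud
import Pool.Agent.H57.AVN.Cgs
import Pool.Agent.H66.D2.Apn
import Pool.Agent.H23.D2.Cra
import Pool.Agent.H23.D2.Mcz
import Pool.Agent.H88.D2.Nov

/-!
# The event of the critical cell with a static place under a thin place

`cevms`: one event of windows with the closed slope of the target in the direction of the static place
one, relative to the row, from `CGs`.
-/

set_option autoImplicit false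

namespace Pool.TN

open Finset Real MvPolynomial
open Pool.Agent.H49.Ent Pool.Agent.H32.Dense Pool.STK Pool.KA Pool.KSAT Pool.K2S Pool.PB Pool.S6C
open Pool.GEN Pool.CHT Pool.CHX Pool.ISO Pool.D2R Pool.D2Z Pool.D2F
open Pool.AVG57 (LbsE ClU CGs)
open Pool.FLF (Fam.sub)
open Pool.D2T (sh sh_rt sh_deg)
open Pool.PB.Trl (rt rt_mem t_rt)
open Pool.BFL (Pb)
open Pool.PKG (RecQ Kd)
open Pool.TNW (jA)

theorem grdE_monoU {m J : ℕ} {F : Fam m J} {c : ℕ → Fin m} {k₀ i ks n q X : ℕ} {γ : ℕ → ℕ}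
    {U U' : ℝ} {B : F.Ω → Prop} {G : ℕ → PtT F → ℕ → MvPolynomial (Option (Fin m)) ℝ}
    (h : GrdE F c k₀ i ks n q X γ U B G) (hU : U ≤ U') : GrdE F c k₀ i ks n q X γ U' B G := by
  have h1 : U / 2 ^ X ≤ U' / 2 ^ X := div_le_div_of_nonneg_right hU (by positivity)
  exact ⟨h.U0.trans hU, fun ω hω j hj hk => (h.bm ω hω j hj hk).trans hU,
    fun ω ν a1 a2 a3 a4 a5 a6 j hj hk => (h.bj ω ν a1 a2 a3 a4 a5 a6 j hj hk).trans h1,
    fun ω ν a1 a2 a3 a4 a5 a6 j hj hk => (h.bx ω ν a1 a2 a3 a4 a5 a6 j hj hk).trans h1,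
    fun ω ν a1 a2 a3 a4 a5 a6 => (h.nx ω ν a1 a2 a3 a4 a5 a6).trans h1⟩

theorem grdE_sub {m J : ℕ} {F : Fam m J} {c : ℕ → Fin m} {k₀ i ks n q X : ℕ} {γ : ℕ → ℕ}
    {U : ℝ} {B B' : F.Ω → Prop} {G : ℕ → PtT F → ℕ → MvPolynomial (Option (Fin m)) ℝ}
    (h : GrdE F c k₀ i ks n q X γ U B G) (hB : Sub B' B) : GrdE F c k₀ i ks n q X γ U B' G :=
  ⟨h.U0, fun ω hω => h.bm ω (hB ω hω), fun ω ν hω hν => h.bj ω ν (hB ω hω) (hB ν hν),
    fun ω ν hω hν => h.bx ω ν (hB ω hω) (hB ν hν),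
    fun ω ν hω hν => h.nx ω ν (hB ω hω) (hB ν hν)⟩

theorem ChF.res {u : ℕ → ℝ} {N₃ n p : ℕ} {u₀ K : ℝ} {f : ℕ → ℕ} (h : ChF u N₃ n p u₀ K f)
    {n' : ℕ} (hn : n' ≤ n) : ChF u N₃ n' p u₀ K f :=
  ⟨h.p1, fun k hk => h.fN k (hk.trans hn), fun k hk => h.fu k (hk.trans hn),
    fun k hk => h.fK k (hk.trans hn)⟩

theorem cv_single {m : ℕ} (W : Option (Fin m) → ℝ) (o : Option (Fin m)) :
    cv W (Pi.single o 1) = W o := by
  classical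
  unfold cv
  rw [Finset.sum_eq_single o (fun b _ hb => by rw [Pi.single_eq_of_ne hb, mul_zero])
    (fun h => absurd (Finset.mem_univ _) h), Pi.single_eq_same, mul_one]

theorem en_e2 {m : ℕ} {c : ℕ → Fin m} (hc : Set.InjOn c (Set.Iio 3)) (g : ℕ → ℕ) (a : ℕ)
    {χ : ℕ → Option (Fin m) → ℝ} (hχ : ∀ l, CvC c l (χ l)) :
    en c g a χ 3 (Pi.single (some (c 2)) 1) = 2 ^ g 2 := by
  have h0 : c 0 ≠ c 2 := fun h => by
    have := hc (show (0 : ℕ) ∈ Set.Iio 3 by simp) (show (2 : ℕ) ∈ Set.Iio 3 by simp) h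
    omega
  have h1 : c 1 ≠ c 2 := fun h => by
    have := hc (show (1 : ℕ) ∈ Set.Iio 3 by simp) (show (2 : ℕ) ∈ Set.Iio 3 by simp) h
    omega
  have e0 : (Pi.single (some (c 2)) 1 : Option (Fin m) → ℝ) (some (c 0)) = 0 :=
    Pi.single_eq_of_ne (fun h => h0 (Option.some_injective _ h)) _
  have e1 : (Pi.single (some (c 2)) 1 : Option (Fin m) → ℝ) (some (c 1)) = 0 :=
    Pi.single_eq_of_ne (fun h => h1 (Option.some_injective _ h)) _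
  have e2 : (Pi.single (some (c 2)) 1 : Option (Fin m) → ℝ) (some (c 2)) = 1 :=
    Pi.single_eq_same _ _
  have en : (Pi.single (some (c 2)) 1 : Option (Fin m) → ℝ) none = 0 :=
    Pi.single_eq_of_ne (by simp) _
  rw [enx3 hc g a hχ en, e0, e1, e2]
  simp

/-- **The row label in the thin direction two**: natural at the ball `j`. -/
theorem CEv.row2 {m J : ℕ} {F : Fam m J} {c : ℕ → Fin m} {D Dr N M A cl : ℕ} {Sc : ℕ → Prop}
    {w e h pp : ℕ → ℕ} {z g gc gT g₀ : ℕ → ℕ → ℕ} {κ : ℝ} {B : F.Ω → Prop}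
    {G : ℕ → PtT F → ℕ → MvPolynomial (Option (Fin m)) ℝ}
    {H : ℕ → LnT F → ℕ → MvPolynomial (Option (Fin m)) ℝ}
    {T : ℕ → PtT F → ℕ → MvPolynomial (Option (Fin m)) ℝ}
    {TH : ℕ → LnT F → ℕ → MvPolynomial (Option (Fin m)) ℝ}
    {Gt : ℕ → PtT F → MvPolynomial (Option (Fin m)) ℝ}
    {Ht : ℕ → LnT F → MvPolynomial (Option (Fin m)) ℝ}
    (E : CEv F c 3 D Dr N M A cl Sc w e h pp z g gc gT g₀ κ B G H T TH Gt Ht) {i j Y : ℕ}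
    (hi : i ≤ N) (hj : j ≤ N) (hw : w i ≤ w j) (hs : ¬ Sc 2) (h3 : 3 * cl ≤ g₀ j 3)
    (hpp : g₀ j 3 + (A - w j) ≤ pp i) (hY : 6 * cl + 1 ≤ Y) {ω : F.Ω} (hω : B ω) :
    |grd (G j (ptr F J ω) 3) (bt F ω) (some (c 2)) -
      grd (Ht i (slam F (w i) ω)) (bt F ω) (some (c 2))| ≤ 2 ^ Y * (2 ^ g₀ j 2 / 2 ^ g₀ j 3) := by
  have hc3 : Set.InjOn c (Set.Iio 3) := E.inj.mono (Set.Iio_subset_Iio (by norm_num))
  obtain ⟨q, hq⟩ : ∃ q, q = g₀ j 3 + (A - w j) - 3 * cl := ⟨_, rfl⟩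
  obtain ⟨n1, n2, n3, n4⟩ := E.ng j hj 3 le_rfl
  obtain ⟨m1, m2, m3, m4⟩ := E.ng j hj 2 (by norm_num)
  have hT : gT j 2 = gc j 2 := E.t_rg hj (by norm_num) hs
  have h1 := E.rb (q := q) hi hj hw (by omega) (by omega) hω (Pi.single (some (c 2)) 1)
  have hk : ∀ l, CvC c l (kT w TH ω j l) := fun l => cvc_grd ((E.evs j hj).thin.depH _ _) _
  have hg : ∀ l, CvC c l (gG G ω j l) := fun l => cvc_grd ((E.evs j hj).ball.depG _ _) _
  rw [en_e2 hc3 _ _ hk, en_e2 hc3 _ _ hg, cv_single, Pi.sub_apply, abs_sub_comm] at h1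
  refine h1.trans ?_
  have a1 : (2 : ℝ) ^ cl / 2 ^ q * 2 ^ gT j 2 ≤ 2 ^ (6 * cl) * (2 ^ g₀ j 2 / 2 ^ g₀ j 3) := by
    rw [div_mul_eq_mul_div, div_le_iff₀ (by positivity), mul_div_assoc', div_mul_eq_mul_div,
      le_div_iff₀ (by positivity), ← pow_add, ← pow_add, ← pow_add, ← pow_add]
    exact pow_le_pow_right₀ (by norm_num) (by omega)
  have a2 : (2 : ℝ) ^ cl / 2 ^ g₀ j 3 * 2 ^ g₀ j 2 ≤ 2 ^ (6 * cl) * (2 ^ g₀ j 2 / 2 ^ g₀ j 3) := by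
    rw [div_mul_eq_mul_div, ← mul_div_assoc']
    exact mul_le_mul_of_nonneg_right (pow_le_pow_right₀ (by norm_num) (by omega)) (by positivity)
  have a3 : (2 : ℝ) ^ (6 * cl) * (2 ^ g₀ j 2 / 2 ^ g₀ j 3) + 2 ^ (6 * cl) *
      (2 ^ g₀ j 2 / 2 ^ g₀ j 3) ≤ 2 ^ Y * (2 ^ g₀ j 2 / 2 ^ g₀ j 3) := by
    rw [← add_mul, ← two_mul, ← pow_succ']
    exact mul_le_mul_of_nonneg_right (pow_le_pow_right₀ (by norm_num) hY) (by positivity)
  linarith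

end Pool.TN
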