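import Pool.Agent.H90.D2.Frm
import Pool.Agent.H2.GEN.BxS

/-!
# D2: the affine chain and the quadratic labels of a frame

`FrOK`: a frame which is a function of the point and of the line in the window `a`, such that the
velocities are natural in the frame. `aff_ch`: the affine labels of the frame form a chain of ball
labels (no information about curvature is needed). `lab_ok`: the quadratic labels of the frame are
visible labels. `lab_nr`: when the labels of two samples of one line and window are near.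
-/

set_option autoImplicit false

namespace Pool.D2F

open Finset Real MvPolynomial
open Pool.Agent.H49.Ent Pool.Agent.H32.Dense Pool.STK Pool.KA Pool.KSAT Pool.K2S Pool.PB Pool.S6C
open Pool.GEN Pool.CHT Pool.CHX
open Pool.VIS24 (VPol Nr)

variable {m J : ℕ}

/-- **A frame** on an event, for the coordinates `c l`, `l < n`: sides `2 ^ (-g l)`, radius
`2 ^ (-a)`, the velocities are natural up to `2 ^ k`. -/
structure FrOK (F : Fam m J) (c : ℕ → Fin m) (n a k e : ℕ) (g : ℕ → ℕ) (A : F.Ω → Prop)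
    (ψ : PtT F → ℕ → Option (Fin m) → ℝ) (ψH : LnT F → ℕ → Option (Fin m) → ℝ) : Prop where
  cls : ∀ ω, A ω → ψ (ptr F J ω) = ψH (slam F a ω)
  dep : ∀ y l, CvC c l (ψ y l)
  depH : ∀ s l, CvC c l (ψH s l)
  nat : ∀ ω, A ω → ∀ l < n,
    |bd F ω (some (c l)) - cv (ψ (ptr F J ω) l) (bd F ω)| ≤ 2 ^ (a + k) / 2 ^ g l
  lip : ∀ ω, A ω → ∀ i < n, ∀ l < i, |ψ (ptr F J ω) i (some (c l))| ≤ 2 ^ (e + nlp g l i)

/-- The rounded point. -/
noncomputable def hx (F : Fam m J) (ω : F.Ω) : Option (Fin m) → ℝ := bho J J (ptr F J ω)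

theorem hx_none (F : Fam m J) (ω : F.Ω) : hx F ω none = bt F ω none := rfl

theorem hx_some (F : Fam m J) (ω : F.Ω) (k : Fin m) :
    |hx F ω (some k) - bt F ω (some k)| ≤ 1 / 2 ^ J := Pool.PB.Trl.x_near F J ω k

/-- A covector on a small vector. -/
theorem cv_small {c : ℕ → Fin m} {l e V : ℕ} {g : ℕ → ℕ} (hc : Set.InjOn c (Set.Iio l))
    {ψ W : Option (Fin m) → ℝ} (hψ : CvC c l ψ) (hlip : ∀ j < l, |ψ (some (c j))| ≤
      2 ^ (e + nlp g j l)) (h0 : W none = 0) (h1 : ∀ k, |W (some k)| ≤ 1 / 2 ^ J)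
    (hJ : ∀ j ≤ l, e + g j + V ≤ J) : |cv ψ W| ≤ l * (1 / 2 ^ (g l + V)) := by
  rw [cv_eq hc hψ, h0, mul_zero, zero_add]
  refine (Finset.abs_sum_le_sum_abs _ _).trans ?_
  have h2 : ∀ j ∈ range l, |ψ (some (c j)) * W (some (c j))| ≤ 1 / 2 ^ (g l + V) := by
    intro j hj
    have hj' := Finset.mem_range.1 hj
    rw [abs_mul]
    refine (mul_le_mul (hlip j hj') (h1 (c j)) (abs_nonneg _) (by positivity)).trans ?_
    rw [mul_one_div, div_le_div_iff₀ (by positivity) (by positivity), one_mul, ← pow_add]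
    refine pow_le_pow_right₀ (by norm_num) ?_
    have h3 : (Finset.Icc j l).sup g + e + V ≤ J := by
      obtain ⟨x, hx, hxe⟩ := Finset.exists_mem_eq_sup (Finset.Icc j l)
        ⟨j, Finset.mem_Icc.2 ⟨le_rfl, hj'.le⟩⟩ g
      rw [hxe]
      have := hJ x (Finset.mem_Icc.1 hx).2
      omega
    have h4 : g l ≤ (Finset.Icc j l).sup g := Finset.le_sup (f := g)
      (Finset.mem_Icc.2 ⟨hj'.le, le_rfl⟩)
    unfold nlp
    omega
  refine (Finset.sum_le_sum h2).trans (le_of_eq ?_)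
  rw [Finset.sum_const, Finset.card_range, nsmul_eq_mul]

/-- The height of a small vector. -/
theorem ht_small {c : ℕ → Fin m} {l e V : ℕ} {g : ℕ → ℕ} (hc : Set.InjOn c (Set.Iio l))
    {ψ W : Option (Fin m) → ℝ} (hψ : CvC c l ψ) (hlip : ∀ j < l, |ψ (some (c j))| ≤
      2 ^ (e + nlp g j l)) (h0 : W none = 0) (h1 : ∀ k, |W (some k)| ≤ 1 / 2 ^ J)
    (hJ : ∀ j ≤ l, e + g j + V ≤ J) :
    |W (some (c l)) - cv ψ W| ≤ (l + 1) * (1 / 2 ^ (g l + V)) := by
  have h2 := cv_small hc hψ hlip h0 h1 hJ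
  have h3 := h1 (c l)
  have h4 : (1 : ℝ) / 2 ^ J ≤ 1 / 2 ^ (g l + V) := by
    refine one_div_le_one_div_of_le (by positivity) (pow_le_pow_right₀ (by norm_num) ?_)
    have := hJ l le_rfl
    omega
  have h5 : ((l : ℝ) + 1) * (1 / 2 ^ (g l + V)) = 1 / 2 ^ (g l + V) +
      l * (1 / 2 ^ (g l + V)) := by ring
  rw [h5]
  exact (abs_sub _ _).trans (add_le_add (h3.trans h4) h2)

/-- The natural coordinates of a small vector. -/
theorem eta_small {c : ℕ → Fin m} {n e V : ℕ} (a : ℕ) {g : ℕ → ℕ}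
    (hc : Set.InjOn c (Set.Iio n)) {ψ : ℕ → Option (Fin m) → ℝ} {W : Option (Fin m) → ℝ}
    (hψ : ∀ l, CvC c l (ψ l)) (hlip : ∀ l < n, ∀ j < l, |ψ l (some (c j))| ≤
      2 ^ (e + nlp g j l)) (h0 : W none = 0) (h1 : ∀ k, |W (some k)| ≤ 1 / 2 ^ J)
    (hJ : ∀ j < n, e + g j + V ≤ J) {j : ℕ} (hj : j ≤ n) : |eta c g a ψ W j| ≤ n / 2 ^ V := by
  cases j with
  | zero =>
    simp only [eta, h0, mul_zero, abs_zero]
    positivity
  | succ l =>
    simp only [eta]
    have h2 := ht_small (V := V) (hc.mono (Set.Iio_subset_Iio (Nat.le_of_lt hj))) (hψ l)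
      (hlip l hj) h0 h1 fun j hj' => hJ j (lt_of_le_of_lt hj' hj)
    have hg0 : (0 : ℝ) < 2 ^ g l := by positivity
    rw [abs_mul, abs_of_pos hg0]
    refine (mul_le_mul_of_nonneg_left h2 hg0.le).trans ?_
    have e1 : (2 : ℝ) ^ g l * ((l + 1) * (1 / 2 ^ (g l + V))) = (l + 1) / 2 ^ V := by
      rw [pow_add]
      field_simp
    rw [e1]
    refine div_le_div_of_nonneg_right ?_ (by positivity)
    exact_mod_cast hj

/-- The labels of the point. -/
noncomputable def GA (c : ℕ → Fin m) {F : Fam m J} (ψ : PtT F → ℕ → Option (Fin m) → ℝ)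
    (y : PtT F) (j : ℕ) : MvPolynomial (Option (Fin m)) ℝ :=
  afp (bho J J y) (bho J J y (some (c j))) (ψ y j)

/-- The labels of the line. -/
noncomputable def HA (c : ℕ → Fin m) {F : Fam m J} (ψH : LnT F → ℕ → Option (Fin m) → ℝ)
    (s : LnT F) (j : ℕ) : MvPolynomial (Option (Fin m)) ℝ :=
  blq s (some (c j)) + ∑ o, C (ψH s j o) * (X o - blq s o)

theorem eval_blq {ζ : Type} (s : ((Fin m → ℝ) × (Fin m → ℝ)) × ζ × ℕ) (o : Option (Fin m))
    (b : Option (Fin m) → ℝ) : eval b (blq s o) = blo s (b none) o := by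
  cases o with
  | none => simp [blq, blo]
  | some j => simp [blq, blo]

theorem eval_HA (c : ℕ → Fin m) {F : Fam m J} (ψH : LnT F → ℕ → Option (Fin m) → ℝ)
    (s : LnT F) (j : ℕ) (b : Option (Fin m) → ℝ) : eval b (HA c ψH s j) =
      blo s (b none) (some (c j)) + cv (ψH s j) (b - blo s (b none)) := by
  unfold HA cv
  rw [map_add, eval_blq, map_sum]
  congr 1
  refine Finset.sum_congr rfl fun o _ => ?_
  rw [map_mul, map_sub, eval_C, eval_X, eval_blq, Pi.sub_apply]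

theorem deg_blq {ζ : Type} (s : ((Fin m → ℝ) × (Fin m → ℝ)) × ζ × ℕ) (o : Option (Fin m)) :
    (blq s o).totalDegree ≤ 1 := by
  cases o with
  | none => unfold blq; rw [totalDegree_X]
  | some j =>
    unfold blq
    refine (totalDegree_add _ _).trans (max_le (by rw [totalDegree_C]; exact Nat.zero_le _) ?_)
    refine (totalDegree_mul _ _).trans ?_
    rw [totalDegree_C, zero_add, totalDegree_X]

theorem deg_HA (c : ℕ → Fin m) {F : Fam m J} (ψH : LnT F → ℕ → Option (Fin m) → ℝ)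
    (s : LnT F) (j : ℕ) : (HA c ψH s j).totalDegree ≤ 1 := by
  unfold HA
  refine (totalDegree_add _ _).trans (max_le (deg_blq _ _) ?_)
  refine totalDegree_finsetSum_le fun o _ => ?_
  refine (totalDegree_mul _ _).trans ?_
  rw [totalDegree_C, zero_add]
  refine (totalDegree_sub _ _).trans (max_le ?_ (deg_blq _ _))
  rw [totalDegree_X]

/-- The line at another time. -/
theorem blo_slam (F : Fam m J) (a : ℕ) (ω : F.Ω) (t : ℝ) :
    blo (slam F a ω) t = bt F ω + (t - F.t ω) • bd F ω := by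
  funext o
  cases o with
  | none =>
    show t = F.t ω + (t - F.t ω) * 1
    ring
  | some j =>
    show F.u ω j + F.d ω j * t = F.x ω j + (t - F.t ω) * F.d ω j
    unfold Fam.x
    ring

/-- Smaller sides. -/
theorem nlp_sub {g : ℕ → ℕ} {k l i : ℕ} (hi : k ≤ g i) (hl : l ≤ i) :
    nlp g l i = nlp (fun j => g j - k) l i := by
  have h7 : (Finset.Icc l i).sup (fun j => g j - k) + k = (Finset.Icc l i).sup g := by
    obtain ⟨y, hy, hye⟩ := Finset.exists_mem_eq_sup (Finset.Icc l i)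
      ⟨l, Finset.mem_Icc.2 ⟨le_rfl, hl⟩⟩ g
    obtain ⟨x, hx, hxe⟩ := Finset.exists_mem_eq_sup (Finset.Icc l i)
      ⟨l, Finset.mem_Icc.2 ⟨le_rfl, hl⟩⟩ (fun j => g j - k)
    have h1 : g i ≤ (Finset.Icc l i).sup g := Finset.le_sup (f := g)
      (Finset.mem_Icc.2 ⟨hl, le_rfl⟩)
    have h2 : g x ≤ (Finset.Icc l i).sup g := Finset.le_sup (f := g) hx
    have h3 : g y - k ≤ (Finset.Icc l i).sup (fun j => g j - k) :=
      Finset.le_sup (f := fun j => g j - k) hy
    have h4 : (Finset.Icc l i).sup (fun j => g j - k) = g x - k := hxe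
    omega
  have h8 : (fun j => g j - k) i = g i - k := rfl
  unfold nlp
  rw [h8]
  omega

/-- **The affine chain** of a frame. -/
theorem aff_ch {F : Fam m J} {c : ℕ → Fin m} {n a k e V : ℕ} {g : ℕ → ℕ} {A : F.Ω → Prop}
    {ψ : PtT F → ℕ → Option (Fin m) → ℝ} {ψH : LnT F → ℕ → Option (Fin m) → ℝ}
    (hc : Set.InjOn c (Set.Iio n)) (h : FrOK F c n a k e g A ψ ψH)
    (hV : n ≤ 2 ^ V) (hJ : ∀ j < n, e + g j + V ≤ J) (hg : ∀ l < n, k + 1 ≤ g l) :
    ChOK F c n (fun _ => 1) a a e (fun j => g j - (k + 1)) A (GA c ψ) (HA c ψH) := by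
  have hsm : ∀ ω, A ω → ∀ i < n, |(hx F ω - bt F ω) (some (c i)) -
      cv (ψ (ptr F J ω) i) (hx F ω - bt F ω)| ≤ 1 / 2 ^ g i := by
    intro ω hω i hi
    have h1 := ht_small (V := V) (W := hx F ω - bt F ω)
      (hc.mono (Set.Iio_subset_Iio hi.le)) (h.dep (ptr F J ω) i) (h.lip ω hω i hi)
      (by rw [Pi.sub_apply, hx_none, sub_self]) (fun k => hx_some F ω k)
      fun j hj' => hJ j (lt_of_le_of_lt hj' hi)
    refine h1.trans ?_
    have h2 : ((i : ℝ) + 1) ≤ 2 ^ V := by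
      have : ((i + 1 : ℕ) : ℝ) ≤ ((2 ^ V : ℕ) : ℝ) := by exact_mod_cast (Nat.succ_le_of_lt hi).trans hV
      push_cast at this
      exact this
    rw [pow_add, mul_one_div, div_le_div_iff₀ (by positivity) (by positivity), one_mul]
    have hg0 : (0 : ℝ) < 2 ^ g i := by positivity
    nlinarith only [h2, hg0]
  have hge : ∀ i < n, (1 : ℝ) / 2 ^ (g i - (k + 1)) = 2 ^ (k + 1) / 2 ^ g i := by
    intro i hi
    rw [div_eq_div_iff (by positivity) (by positivity), one_mul, ← pow_add,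
      Nat.add_sub_cancel' (hg i hi)]
  refine ⟨fun y i => deg_afp _ _ _, fun s i => deg_HA _ _ _ _, fun y i => dep_afp _ _ (h.dep y i),
    fun s i b b' h0 h1 => ?_, fun ω hω i hi => ?_, fun ω hω i hi b hb => ?_,
    fun ω hω i hi b hb l hl => ?_⟩
  · rw [eval_HA, eval_HA, h0, cv_congr (h.depH s i) (W := b - blo s (b' none))
      (W' := b' - blo s (b' none)) (by rw [Pi.sub_apply, Pi.sub_apply, h0]) fun j hj => by
        rw [Pi.sub_apply, Pi.sub_apply, h1 j hj]]
  · show |F.x ω (c i) - eval (bt F ω) (GA c ψ (ptr F J ω) i)| ≤ _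
    unfold GA
    rw [eval_afp, hge i hi]
    have h1 := hsm ω hω i hi
    have h2 : F.x ω (c i) - (bho J J (ptr F J ω) (some (c i)) +
        cv (ψ (ptr F J ω) i) (bt F ω - bho J J (ptr F J ω))) =
        -((hx F ω - bt F ω) (some (c i)) - cv (ψ (ptr F J ω) i) (hx F ω - bt F ω)) := by
      have e1 : bt F ω - bho J J (ptr F J ω) = (-1 : ℝ) • (hx F ω - bt F ω) := by
        funext o
        show bt F ω o - hx F ω o = -1 * (hx F ω o - bt F ω o)
        ring
      rw [e1, cv_smul, Pi.sub_apply]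
      show bt F ω (some (c i)) - (hx F ω (some (c i)) + _) = _
      ring
    rw [h2, abs_neg]
    refine h1.trans (div_le_div_of_nonneg_right ?_ (by positivity))
    exact one_le_pow₀ (by norm_num)
  · have h1 := hsm ω hω i hi
    have h2 := h.nat ω hω i hi
    have h3 := hb.1
    rw [hge i hi]
    show |eval b (afp (hx F ω) (hx F ω (some (c i))) (ψ (ptr F J ω) i)) - _| ≤ _
    rw [eval_afp, eval_HA, ← h.cls ω hω, blo_slam]
    have e1 : hx F ω (some (c i)) + cv (ψ (ptr F J ω) i) (b - hx F ω) -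
        ((bt F ω + (b none - F.t ω) • bd F ω) (some (c i)) +
          cv (ψ (ptr F J ω) i) (b - (bt F ω + (b none - F.t ω) • bd F ω))) =
        ((hx F ω - bt F ω) (some (c i)) - cv (ψ (ptr F J ω) i) (hx F ω - bt F ω)) -
          (b none - F.t ω) * (bd F ω (some (c i)) - cv (ψ (ptr F J ω) i) (bd F ω)) := by
      have e2 : cv (ψ (ptr F J ω) i) (b - hx F ω) - cv (ψ (ptr F J ω) i)
          (b - (bt F ω + (b none - F.t ω) • bd F ω)) = (b none - F.t ω) *
          cv (ψ (ptr F J ω) i) (bd F ω) - cv (ψ (ptr F J ω) i) (hx F ω - bt F ω) := by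
        rw [← cv_sub, ← cv_smul, ← cv_sub]
        congr 1
        funext o
        simp only [Pi.sub_apply, Pi.add_apply, Pi.smul_apply, smul_eq_mul]
        ring
      rw [Pi.add_apply, Pi.smul_apply, smul_eq_mul, Pi.sub_apply]
      linarith only [e2]
    rw [e1]
    refine (abs_sub _ _).trans ?_
    rw [abs_mul]
    have h4 : |b none - F.t ω| * |bd F ω (some (c i)) - cv (ψ (ptr F J ω) i) (bd F ω)| ≤
        1 / 2 ^ a * (2 ^ (a + k) / 2 ^ g i) :=
      mul_le_mul h3 h2 (abs_nonneg _) (by positivity)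
    have h5 : (1 : ℝ) / 2 ^ a * (2 ^ (a + k) / 2 ^ g i) = 2 ^ k / 2 ^ g i := by
      rw [pow_add]
      field_simp
    rw [h5] at h4
    refine (add_le_add h1 h4).trans ?_
    rw [← add_div]
    refine div_le_div_of_nonneg_right ?_ (by positivity)
    have h6 : (1 : ℝ) ≤ 2 ^ k := one_le_pow₀ (by norm_num)
    rw [pow_succ]
    linarith
  · show |eval b (pderiv (some (c l)) (afp _ _ (ψ (ptr F J ω) i)))| ≤ _
    rw [pd_afp]
    refine (h.lip ω hω i hi l hl).trans (pow_le_pow_right₀ (by norm_num) ?_)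
    exact Nat.add_le_add_left (nlp_sub (hg i hi) hl.le).le e

/-! ### The quadratic labels -/

theorem qv_lip {i : ℕ} {μ : ℕ → ℝ} {κ : ℕ → ℕ → ℝ} {η η' : ℕ → ℝ} {M R δ : ℝ} (hM : 0 ≤ M)
    (hR : 0 ≤ R) (hδ : 0 ≤ δ) (hμ : ∀ j ≤ i, |μ j| ≤ M) (hκ : ∀ j ≤ i, ∀ l ≤ i, |κ j l| ≤ M)
    (hη : ∀ j ≤ i, |η j| ≤ R) (hη' : ∀ j ≤ i, |η' j| ≤ R) (hd : ∀ j ≤ i, |η j - η' j| ≤ δ) :
    |qv i μ κ η - qv i μ κ η'| ≤ ((i : ℝ) + 1) ^ 2 * M * (1 + R) * δ := by
  have h1 : |∑ j ∈ range (i + 1), μ j * η j - ∑ j ∈ range (i + 1), μ j * η' j| ≤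
      ((i : ℝ) + 1) * (M * δ) := by
    rw [← Finset.sum_sub_distrib]
    refine (Finset.abs_sum_le_sum_abs _ _).trans ?_
    have h2 : ∀ j ∈ range (i + 1), |μ j * η j - μ j * η' j| ≤ M * δ := by
      intro j hj
      have hj' := Nat.lt_succ_iff.1 (Finset.mem_range.1 hj)
      rw [← mul_sub, abs_mul]
      exact mul_le_mul (hμ j hj') (hd j hj') (abs_nonneg _) hM
    refine (Finset.sum_le_sum h2).trans (le_of_eq ?_)
    rw [Finset.sum_const, Finset.card_range, nsmul_eq_mul]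
    push_cast
    ring
  have h3 : |∑ j ∈ range (i + 1), ∑ k ∈ range (i + 1), κ j k * (η j * η k) -
      ∑ j ∈ range (i + 1), ∑ k ∈ range (i + 1), κ j k * (η' j * η' k)| ≤
      ((i : ℝ) + 1) * (((i : ℝ) + 1) * (M * (2 * R * δ))) := by
    rw [← Finset.sum_sub_distrib]
    refine (Finset.abs_sum_le_sum_abs _ _).trans ?_
    have h2 : ∀ j ∈ range (i + 1), |∑ k ∈ range (i + 1), κ j k * (η j * η k) -
        ∑ k ∈ range (i + 1), κ j k * (η' j * η' k)| ≤ ((i : ℝ) + 1) * (M * (2 * R * δ)) := by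
      intro j hj
      have hj' := Nat.lt_succ_iff.1 (Finset.mem_range.1 hj)
      rw [← Finset.sum_sub_distrib]
      refine (Finset.abs_sum_le_sum_abs _ _).trans ?_
      have h4 : ∀ k ∈ range (i + 1), |κ j k * (η j * η k) - κ j k * (η' j * η' k)| ≤
          M * (2 * R * δ) := by
        intro k hk
        have hk' := Nat.lt_succ_iff.1 (Finset.mem_range.1 hk)
        rw [← mul_sub, abs_mul]
        refine mul_le_mul (hκ j hj' k hk') ?_ (abs_nonneg _) hM
        have e1 : η j * η k - η' j * η' k = η j * (η k - η' k) + (η j - η' j) * η' k := by ring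
        rw [e1]
        refine (abs_add_le _ _).trans ?_
        rw [abs_mul, abs_mul]
        have h5 := mul_le_mul (hη j hj') (hd k hk') (abs_nonneg _) hR
        have h6 := mul_le_mul (hd j hj') (hη' k hk') (abs_nonneg _) hδ
        linarith
      refine (Finset.sum_le_sum h4).trans (le_of_eq ?_)
      rw [Finset.sum_const, Finset.card_range, nsmul_eq_mul]
      push_cast
      ring
    refine (Finset.sum_le_sum h2).trans (le_of_eq ?_)
    rw [Finset.sum_const, Finset.card_range, nsmul_eq_mul]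
    push_cast
    ring
  unfold qv
  have h7 : ∀ x y z w : ℝ, x + 1 / 2 * y - (z + 1 / 2 * w) = (x - z) + 1 / 2 * (y - w) := by
    intro x y z w
    ring
  rw [h7]
  refine (abs_add_le _ _).trans ?_
  rw [abs_mul, abs_of_pos (by norm_num : (0 : ℝ) < 1 / 2)]
  have hi : (0 : ℝ) ≤ (i : ℝ) := Nat.cast_nonneg i
  have hMδ : 0 ≤ M * δ := mul_nonneg hM hδ
  have h8 : ((i : ℝ) + 1) * (M * δ) ≤ ((i : ℝ) + 1) ^ 2 * (M * δ) :=
    mul_le_mul_of_nonneg_right (by nlinarith) hMδ
  have h9 : ((i : ℝ) + 1) ^ 2 * M * (1 + R) * δ = ((i : ℝ) + 1) ^ 2 * (M * δ) +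
      1 / 2 * (((i : ℝ) + 1) * (((i : ℝ) + 1) * (M * (2 * R * δ)))) := by ring
  rw [h9]
  linarith

theorem qv_zero (i : ℕ) (μ : ℕ → ℝ) (κ : ℕ → ℕ → ℝ) : qv i μ κ (fun _ => 0) = 0 := by
  unfold qv
  simp

/-- The labels of a frame, with the coefficients `μ`, `κ`. -/
noncomputable def LA (c : ℕ → Fin m) (g : ℕ → ℕ) (a i : ℕ) {F : Fam m J}
    (ψ : PtT F → ℕ → Option (Fin m) → ℝ) (μ : PtT F → ℕ → ℝ) (κ : PtT F → ℕ → ℕ → ℝ)
    (y : PtT F) : MvPolynomial (Option (Fin m)) ℝ :=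
  lbp c g a (ψ y) i (bho J J y) (μ y) (κ y)

/-- The natural coordinates on the natural box. -/
theorem eta_box {F : Fam m J} {c : ℕ → Fin m} {i a k : ℕ} {g : ℕ → ℕ}
    {ψ : PtT F → ℕ → Option (Fin m) → ℝ} (hg : ∀ l < i, k + 1 ≤ g l) (ω : F.Ω)
    {b : Option (Fin m) → ℝ} (hb : NBx c (GA c ψ (ptr F J ω)) (fun j => g j - (k + 1)) a (F.t ω)
      i b) {j : ℕ} (hj : j ≤ i) :
    |eta c g a (ψ (ptr F J ω)) (b - hx F ω) j| ≤ 2 ^ (k + 1) := by
  cases j with
  | zero =>
    simp only [eta, Pi.sub_apply]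
    rw [abs_mul, abs_of_pos (by positivity)]
    have h1 : |b none - hx F ω none| ≤ 1 / 2 ^ a := hb.1
    refine (mul_le_mul_of_nonneg_left h1 (by positivity)).trans ?_
    rw [mul_one_div_cancel (by positivity)]
    exact one_le_pow₀ (by norm_num)
  | succ l =>
    have h1 := hb.2 l hj
    unfold GA at h1
    rw [eval_afp] at h1
    simp only [eta, Pi.sub_apply]
    have hg0 : (0 : ℝ) < 2 ^ g l := by positivity
    rw [abs_mul, abs_of_pos hg0]
    have e1 : b (some (c l)) - hx F ω (some (c l)) - cv (ψ (ptr F J ω) l) (b - hx F ω) =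
        b (some (c l)) - (bho J J (ptr F J ω) (some (c l)) +
          cv (ψ (ptr F J ω) l) (b - bho J J (ptr F J ω))) := by
      show b (some (c l)) - bho J J (ptr F J ω) (some (c l)) -
        cv (ψ (ptr F J ω) l) (b - bho J J (ptr F J ω)) = _
      ring
    rw [e1]
    refine (mul_le_mul_of_nonneg_left h1 hg0.le).trans (le_of_eq ?_)
    have h2 := hg l hj
    have h3 : (2 : ℝ) ^ g l = 2 ^ (g l - (k + 1)) * 2 ^ (k + 1) := by
      rw [← pow_add, Nat.sub_add_cancel h2]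
    rw [h3]
    field_simp

/-- **The labels are visible labels.** -/
theorem lab_ok {F : Fam m J} {c : ℕ → Fin m} {n i a k e e' s p V : ℕ} {g : ℕ → ℕ}
    {A : F.Ω → Prop} {ψ : PtT F → ℕ → Option (Fin m) → ℝ}
    {ψH : LnT F → ℕ → Option (Fin m) → ℝ} {μ : PtT F → ℕ → ℝ} {κ : PtT F → ℕ → ℕ → ℝ}
    (hc : Set.InjOn c (Set.Iio (i + 1))) (hin : i < n) (h : FrOK F c n a k e g A ψ ψH)
    (hμ : ∀ ω, A ω → ∀ j ≤ i, |μ (ptr F J ω) j| ≤ 2 ^ e')
    (hκ : ∀ ω, A ω → ∀ j ≤ i, ∀ l ≤ i, |κ (ptr F J ω) j l| ≤ 2 ^ e')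
    (hV : s + e' + 3 * (i + 1) + 2 ≤ V) (hJ : ∀ j ≤ i, e + g j + V ≤ J)
    (hg : ∀ l < i, k + 1 ≤ g l) (hp : p ≤ g i + s) :
    VPol F c i 2 a (e + e' + 2 * k + s + 2 * (i + 1) + 4) p (fun j => g j - (k + 1)) (GA c ψ) A
      (LA c g a i ψ μ κ) := by
  have hc' : Set.InjOn c (Set.Iio i) := hc.mono (Set.Iio_subset_Iio (Nat.le_succ i))
  have hi2 : ((i : ℝ) + 1) ≤ 2 ^ (i + 1) := by
    have h1 : ((i + 1 : ℕ) : ℝ) ≤ ((2 ^ (i + 1) : ℕ) : ℝ) := by
      exact_mod_cast (Nat.lt_two_pow_self (n := i + 1)).le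
    push_cast at h1
    exact h1
  refine ⟨fun y => deg_lbp _ _ _ _ _ _ _ _, fun y => dep_lbp g a (fun l _ => h.dep y l) _ _ _,
    fun ω hω => ?_, fun ω hω b hb l hl => ?_⟩
  · have h1 := ht_small (V := V) (W := bt F ω - hx F ω) hc' (h.dep (ptr F J ω) i)
      (h.lip ω hω i hin) (by rw [Pi.sub_apply, hx_none, sub_self])
      (fun k => by rw [Pi.sub_apply, abs_sub_comm]; exact hx_some F ω k) hJ
    have h2 : ∀ j ≤ i, |eta c g a (ψ (ptr F J ω)) (bt F ω - hx F ω) j| ≤ i / 2 ^ V :=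
      fun j hj => eta_small a hc' (h.dep (ptr F J ω)) (fun l hl => h.lip ω hω l (hl.trans hin))
        (by rw [Pi.sub_apply, hx_none, sub_self])
        (fun k => by rw [Pi.sub_apply, abs_sub_comm]; exact hx_some F ω k)
        (fun j hj => hJ j hj.le) hj
    have h3 : (i : ℝ) / 2 ^ V ≤ 1 := by
      rw [div_le_one (by positivity)]
      have : (2 : ℝ) ^ (i + 1) ≤ 2 ^ V := pow_le_pow_right₀ (by norm_num) (by omega)
      linarith
    have h4 := qv_lip (η := eta c g a (ψ (ptr F J ω)) (bt F ω - hx F ω)) (η' := fun _ => 0)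
      (M := 2 ^ e') (R := 1) (δ := i / 2 ^ V) (by positivity) zero_le_one (by positivity)
      (hμ ω hω) (hκ ω hω) (fun j hj => (h2 j hj).trans h3) (fun j _ => by simp)
      (fun j hj => by rw [sub_zero]; exact h2 j hj)
    rw [qv_zero, sub_zero] at h4
    unfold LA
    rw [eval_lbp]
    have e1 : F.x ω (c i) - (bho J J (ptr F J ω) (some (c i)) +
        cv (ψ (ptr F J ω) i) (bt F ω - bho J J (ptr F J ω)) + 1 / 2 ^ g i *
          qv i (μ (ptr F J ω)) (κ (ptr F J ω))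
            (eta c g a (ψ (ptr F J ω)) (bt F ω - bho J J (ptr F J ω)))) =
        ((bt F ω - hx F ω) (some (c i)) - cv (ψ (ptr F J ω) i) (bt F ω - hx F ω)) -
          1 / 2 ^ g i * qv i (μ (ptr F J ω)) (κ (ptr F J ω))
            (eta c g a (ψ (ptr F J ω)) (bt F ω - hx F ω)) := by
      rw [Pi.sub_apply]
      show bt F ω (some (c i)) - (hx F ω (some (c i)) + cv (ψ (ptr F J ω) i) (bt F ω - hx F ω) +
        _) = _
      show bt F ω (some (c i)) - (hx F ω (some (c i)) + cv (ψ (ptr F J ω) i) (bt F ω - hx F ω) +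
        1 / 2 ^ g i * qv i (μ (ptr F J ω)) (κ (ptr F J ω))
            (eta c g a (ψ (ptr F J ω)) (bt F ω - hx F ω))) = _
      ring
    rw [e1]
    refine (abs_sub _ _).trans ?_
    rw [abs_mul, abs_of_pos (by positivity : (0 : ℝ) < 1 / 2 ^ g i)]
    have h5 : 1 / (2 : ℝ) ^ g i * (((i : ℝ) + 1) ^ 2 * 2 ^ e' * (1 + 1) * (i / 2 ^ V)) +
        ((i : ℝ) + 1) * (1 / 2 ^ (g i + V)) ≤ 1 / 2 ^ p := by
      have h6 : ((i : ℝ) + 1) ^ 2 * 2 ^ e' * 2 * i + (i + 1) ≤ 2 ^ (e' + 3 * (i + 1) + 2) := by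
        have hi0 : (0 : ℝ) ≤ i := Nat.cast_nonneg i
        have he1 : (1 : ℝ) ≤ 2 ^ e' := one_le_pow₀ (by norm_num)
        have h7 : ((i : ℝ) + 1) ^ 3 ≤ (2 ^ (i + 1)) ^ 3 := pow_le_pow_left₀ (by positivity) hi2 3
        have h8 : ((i : ℝ) + 1) ^ 2 * 2 ^ e' * 2 * i + (i + 1) ≤ 4 * 2 ^ e' * ((i : ℝ) + 1) ^ 3 := by
          have h9 : ((i : ℝ) + 1) ≤ 2 ^ e' * ((i : ℝ) + 1) ^ 3 := by
            have : (1 : ℝ) * (i + 1) ≤ 2 ^ e' * ((i : ℝ) + 1) ^ 3 := by
              refine mul_le_mul he1 ?_ (by positivity) (by positivity)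
              nlinarith [sq_nonneg ((i : ℝ))]
            linarith
          have h10 : ((i : ℝ) + 1) ^ 2 * 2 ^ e' * 2 * i ≤ 2 * 2 ^ e' * ((i : ℝ) + 1) ^ 3 := by
            have : (0 : ℝ) ≤ ((i : ℝ) + 1) ^ 2 * 2 ^ e' * 2 := by positivity
            nlinarith
          have h11 : (0 : ℝ) ≤ 2 ^ e' * ((i : ℝ) + 1) ^ 3 := by positivity
          linarith
        refine h8.trans ?_
        have h12 : (2 : ℝ) ^ (e' + 3 * (i + 1) + 2) = 4 * 2 ^ e' * (2 ^ (i + 1)) ^ 3 := by
          rw [← pow_mul, pow_add, pow_add]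
          ring
        rw [h12]
        exact mul_le_mul_of_nonneg_left h7 (by positivity)
      have h13 : 1 / (2 : ℝ) ^ g i * (((i : ℝ) + 1) ^ 2 * 2 ^ e' * (1 + 1) * (i / 2 ^ V)) +
          ((i : ℝ) + 1) * (1 / 2 ^ (g i + V)) =
          (((i : ℝ) + 1) ^ 2 * 2 ^ e' * 2 * i + (i + 1)) / 2 ^ (g i + V) := by
        rw [pow_add]
        field_simp
        ring
      rw [h13, div_le_div_iff₀ (by positivity) (by positivity), one_mul]
      refine (mul_le_mul_of_nonneg_right h6 (by positivity)).trans ?_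
      rw [← pow_add]
      exact pow_le_pow_right₀ (by norm_num) (by omega)
    have h14 := mul_le_mul_of_nonneg_left h4 (by positivity : (0 : ℝ) ≤ 1 / 2 ^ g i)
    refine le_trans (add_le_add h1 h14) ?_
    rw [add_comm]
    exact h5
  · unfold LA
    rw [pd_lbp]
    obtain ⟨σ, hσ⟩ : ∃ σ, σ = (Finset.Icc l i).sup g := ⟨_, rfl⟩
    have hgσ : ∀ x, l ≤ x → x ≤ i → g x ≤ σ := fun x h1 h2 => by
      rw [hσ]
      exact Finset.le_sup (f := g) (Finset.mem_Icc.2 ⟨h1, h2⟩)
    have hn1 : nlp g l i = σ - g i := by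
      unfold nlp
      rw [hσ]
    -- the derivatives of the natural coordinates
    have hde : ∀ j ≤ i, |de c g (ψ (ptr F J ω)) (c l) j| ≤ 2 ^ (e + σ) := by
      intro j hj
      cases j with
      | zero =>
        simp only [de, abs_zero]
        positivity
      | succ x =>
        have hx : x < i := hj
        simp only [de]
        rw [abs_mul, abs_of_pos (by positivity : (0 : ℝ) < 2 ^ g x)]
        rcases lt_trichotomy x l with h1 | h1 | h1
        · have h2 : c x ≠ c l := fun h' => by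
            have := hc (show x < i + 1 by omega) (show l < i + 1 by omega) h'
            omega
          rw [if_neg h2, h.dep (ptr F J ω) x (c l) (fun j hj h' => by
            have := hc (show l < i + 1 by omega) (show j < i + 1 by omega) h'
            omega), sub_zero, abs_zero, mul_zero]
          positivity
        · subst h1
          rw [if_pos rfl, h.dep (ptr F J ω) x (c x) (fun j hj h' => by
            have := hc (show x < i + 1 by omega) (show j < i + 1 by omega) h'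
            omega), sub_zero, abs_one, mul_one]
          refine pow_le_pow_right₀ (by norm_num) ?_
          have := hgσ x le_rfl hx.le
          omega
        · have h2 : c x ≠ c l := fun h' => by
            have := hc (show x < i + 1 by omega) (show l < i + 1 by omega) h'
            omega
          rw [if_neg h2, zero_sub, abs_neg]
          refine (mul_le_mul_of_nonneg_left (h.lip ω hω x (by omega) l h1)
            (by positivity)).trans ?_
          rw [← pow_add]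
          refine pow_le_pow_right₀ (by norm_num) ?_
          unfold nlp
          have h3 : g x ≤ (Finset.Icc l x).sup g := Finset.le_sup (f := g)
            (Finset.mem_Icc.2 ⟨h1.le, le_rfl⟩)
          have h4 : (Finset.Icc l x).sup g ≤ σ := by
            rw [hσ]
            exact Finset.sup_mono (Finset.Icc_subset_Icc le_rfl hx.le)
          omega
    have hη : ∀ j ≤ i, |eta c g a (ψ (ptr F J ω)) (b - bho J J (ptr F J ω)) j| ≤ 2 ^ (k + 1) :=
      fun j hj => eta_box hg ω hb hj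
    have hψi : |ψ (ptr F J ω) i (some (c l))| ≤ 2 ^ (e + nlp g l i) := h.lip ω hω i hin l hl
    have h1 : |∑ j ∈ range (i + 1), μ (ptr F J ω) j * de c g (ψ (ptr F J ω)) (c l) j| ≤
        ((i : ℝ) + 1) * (2 ^ e' * 2 ^ (e + σ)) := by
      refine (Finset.abs_sum_le_sum_abs _ _).trans ?_
      have h2 : ∀ j ∈ range (i + 1), |μ (ptr F J ω) j * de c g (ψ (ptr F J ω)) (c l) j| ≤
          2 ^ e' * 2 ^ (e + σ) := by
        intro j hj
        have hj' := Nat.lt_succ_iff.1 (Finset.mem_range.1 hj)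
        rw [abs_mul]
        exact mul_le_mul (hμ ω hω j hj') (hde j hj') (abs_nonneg _) (by positivity)
      refine (Finset.sum_le_sum h2).trans (le_of_eq ?_)
      rw [Finset.sum_const, Finset.card_range, nsmul_eq_mul]
      push_cast
      ring
    have h2 : |∑ j ∈ range (i + 1), ∑ x ∈ range (i + 1), κ (ptr F J ω) j x *
        (eta c g a (ψ (ptr F J ω)) (b - bho J J (ptr F J ω)) j *
          de c g (ψ (ptr F J ω)) (c l) x +
        eta c g a (ψ (ptr F J ω)) (b - bho J J (ptr F J ω)) x *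
          de c g (ψ (ptr F J ω)) (c l) j)| ≤
        ((i : ℝ) + 1) * (((i : ℝ) + 1) * (2 ^ e' * (2 * (2 ^ (k + 1) * 2 ^ (e + σ))))) := by
      refine (Finset.abs_sum_le_sum_abs _ _).trans ?_
      have h3 : ∀ j ∈ range (i + 1), |∑ x ∈ range (i + 1), κ (ptr F J ω) j x *
          (eta c g a (ψ (ptr F J ω)) (b - bho J J (ptr F J ω)) j *
            de c g (ψ (ptr F J ω)) (c l) x +
          eta c g a (ψ (ptr F J ω)) (b - bho J J (ptr F J ω)) x *
            de c g (ψ (ptr F J ω)) (c l) j)| ≤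
          ((i : ℝ) + 1) * (2 ^ e' * (2 * (2 ^ (k + 1) * 2 ^ (e + σ)))) := by
        intro j hj
        have hj' := Nat.lt_succ_iff.1 (Finset.mem_range.1 hj)
        refine (Finset.abs_sum_le_sum_abs _ _).trans ?_
        have h4 : ∀ x ∈ range (i + 1), |κ (ptr F J ω) j x *
            (eta c g a (ψ (ptr F J ω)) (b - bho J J (ptr F J ω)) j *
              de c g (ψ (ptr F J ω)) (c l) x +
            eta c g a (ψ (ptr F J ω)) (b - bho J J (ptr F J ω)) x *
              de c g (ψ (ptr F J ω)) (c l) j)| ≤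
            2 ^ e' * (2 * (2 ^ (k + 1) * 2 ^ (e + σ))) := by
          intro x hx
          have hx' := Nat.lt_succ_iff.1 (Finset.mem_range.1 hx)
          rw [abs_mul]
          refine mul_le_mul (hκ ω hω j hj' x hx') ?_ (abs_nonneg _) (by positivity)
          refine (abs_add_le _ _).trans ?_
          rw [abs_mul, abs_mul]
          have h5 := mul_le_mul (hη j hj') (hde x hx') (abs_nonneg _) (by positivity)
          have h6 := mul_le_mul (hη x hx') (hde j hj') (abs_nonneg _) (by positivity)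
          linarith
        refine (Finset.sum_le_sum h4).trans (le_of_eq ?_)
        rw [Finset.sum_const, Finset.card_range, nsmul_eq_mul]
        push_cast
        ring
      refine (Finset.sum_le_sum h3).trans (le_of_eq ?_)
      rw [Finset.sum_const, Finset.card_range, nsmul_eq_mul]
      push_cast
      ring
    -- the exponents
    have hnn : nlp g l i ≤ nlp (fun j => if j < i then (fun j => g j - (k + 1)) j else p) l i +
        (k + 1 + s) := by
      obtain ⟨x, hx, hxe⟩ := Finset.exists_mem_eq_sup (Finset.Icc l i)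
        ⟨l, Finset.mem_Icc.2 ⟨le_rfl, hl.le⟩⟩ g
      rw [Finset.mem_Icc] at hx
      have e2 : nlp g l i = g x - g i := by
        unfold nlp
        rw [hxe]
      have e3 : nlp (fun j => if j < i then (fun j => g j - (k + 1)) j else p) l i =
          (Finset.Icc l i).sup (fun j => if j < i then g j - (k + 1) else p) - p := by
        unfold nlp
        simp only [lt_irrefl, if_false]
      rw [e2, e3]
      by_cases hxi : x < i
      · have h3 : (fun j => if j < i then g j - (k + 1) else p) x ≤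
            (Finset.Icc l i).sup (fun j => if j < i then g j - (k + 1) else p) :=
          Finset.le_sup (f := fun j => if j < i then g j - (k + 1) else p)
            (Finset.mem_Icc.2 hx)
        simp only [if_pos hxi] at h3
        omega
      · have : x = i := by omega
        rw [this]
        omega
    have h3 : (1 : ℝ) / 2 ^ g i * 2 ^ (e + σ) ≤ 2 ^ (e + nlp g l i) := by
      rw [one_div, inv_mul_le_iff₀ (by positivity), ← pow_add]
      refine pow_le_pow_right₀ (by norm_num) ?_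
      rw [hn1]
      omega
    obtain ⟨N, hN⟩ : ∃ N : ℝ, N = 2 ^ (e + nlp g l i) := ⟨_, rfl⟩
    rw [← hN] at h3 hψi
    have hN0 : 0 ≤ N := by rw [hN]; positivity
    have hi1 : (1 : ℝ) ≤ (i : ℝ) + 1 := by
      have : (0 : ℝ) ≤ i := Nat.cast_nonneg i
      linarith
    have he1 : (1 : ℝ) ≤ 2 ^ e' := one_le_pow₀ (by norm_num)
    have hk1 : (1 : ℝ) ≤ 2 ^ (k + 1) := one_le_pow₀ (by norm_num)
    refine (abs_add_le _ _).trans ?_
    rw [abs_mul, abs_of_pos (by positivity : (0 : ℝ) < 1 / 2 ^ g i)]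
    have h4 : 1 / (2 : ℝ) ^ g i * (((i : ℝ) + 1) * (2 ^ e' * 2 ^ (e + σ)) + 1 / 2 *
        (((i : ℝ) + 1) * (((i : ℝ) + 1) * (2 ^ e' * (2 * (2 ^ (k + 1) * 2 ^ (e + σ))))))) ≤
        2 * ((i + 1) ^ 2 * 2 ^ e' * 2 ^ (k + 1)) * N := by
      have e4 : 1 / (2 : ℝ) ^ g i * (((i : ℝ) + 1) * (2 ^ e' * 2 ^ (e + σ)) + 1 / 2 *
        (((i : ℝ) + 1) * (((i : ℝ) + 1) * (2 ^ e' * (2 * (2 ^ (k + 1) * 2 ^ (e + σ))))))) =
        (((i : ℝ) + 1) * 2 ^ e' + (i + 1) ^ 2 * 2 ^ e' * 2 ^ (k + 1)) *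
          (1 / (2 : ℝ) ^ g i * 2 ^ (e + σ)) := by ring
      rw [e4]
      refine mul_le_mul ?_ h3 (by positivity) (by positivity)
      have h5 : ((i : ℝ) + 1) * 2 ^ e' ≤ (i + 1) ^ 2 * 2 ^ e' * 2 ^ (k + 1) := by
        have h6 : ((i : ℝ) + 1) * 2 ^ e' * 1 ≤ ((i : ℝ) + 1) * 2 ^ e' * ((i + 1) * 2 ^ (k + 1)) :=
          mul_le_mul_of_nonneg_left (by nlinarith) (by positivity)
        calc ((i : ℝ) + 1) * 2 ^ e' = ((i : ℝ) + 1) * 2 ^ e' * 1 := by ring
          _ ≤ _ := h6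
          _ = _ := by ring
      linarith
    have h5 : |∑ j ∈ range (i + 1), μ (ptr F J ω) j * de c g (ψ (ptr F J ω)) (c l) j +
        1 / 2 * ∑ j ∈ range (i + 1), ∑ x ∈ range (i + 1), κ (ptr F J ω) j x *
        (eta c g a (ψ (ptr F J ω)) (b - bho J J (ptr F J ω)) j *
          de c g (ψ (ptr F J ω)) (c l) x +
        eta c g a (ψ (ptr F J ω)) (b - bho J J (ptr F J ω)) x *
          de c g (ψ (ptr F J ω)) (c l) j)| ≤ ((i : ℝ) + 1) * (2 ^ e' * 2 ^ (e + σ)) + 1 / 2 *
        (((i : ℝ) + 1) * (((i : ℝ) + 1) * (2 ^ e' * (2 * (2 ^ (k + 1) * 2 ^ (e + σ)))))) := by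
      refine (abs_add_le _ _).trans (add_le_add h1 ?_)
      rw [abs_mul, abs_of_pos (by norm_num : (0 : ℝ) < 1 / 2)]
      exact mul_le_mul_of_nonneg_left h2 (by norm_num)
    have h6 := (mul_le_mul_of_nonneg_left h5 (by positivity : (0 : ℝ) ≤ 1 / 2 ^ g i)).trans h4
    refine (add_le_add hψi h6).trans ?_
    have h7 : N + 2 * (((i : ℝ) + 1) ^ 2 * 2 ^ e' * 2 ^ (k + 1)) * N ≤
        (4 * (2 ^ (i + 1)) ^ 2 * 2 ^ e' * 2 ^ (k + 1)) * N := by
      have h8 : ((i : ℝ) + 1) ^ 2 ≤ (2 ^ (i + 1)) ^ 2 := pow_le_pow_left₀ (by positivity) hi2 2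
      have h9 : (1 : ℝ) ≤ (2 ^ (i + 1)) ^ 2 := one_le_pow₀ (one_le_pow₀ (by norm_num))
      have h10 : (1 : ℝ) + 2 * (((i : ℝ) + 1) ^ 2 * 2 ^ e' * 2 ^ (k + 1)) ≤
          4 * (2 ^ (i + 1)) ^ 2 * 2 ^ e' * 2 ^ (k + 1) := by
        have h11 : ((i : ℝ) + 1) ^ 2 * (2 ^ e' * 2 ^ (k + 1)) ≤
            (2 ^ (i + 1)) ^ 2 * (2 ^ e' * 2 ^ (k + 1)) :=
          mul_le_mul_of_nonneg_right h8 (by positivity)
        have h12 : (1 : ℝ) ≤ (2 ^ (i + 1)) ^ 2 * (2 ^ e' * 2 ^ (k + 1)) := by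
          have : (1 : ℝ) * (1 * 1) ≤ (2 ^ (i + 1)) ^ 2 * (2 ^ e' * 2 ^ (k + 1)) :=
            mul_le_mul h9 (mul_le_mul he1 hk1 zero_le_one (by positivity)) (by norm_num)
              (by positivity)
          linarith
        nlinarith
      have h13 := mul_le_mul_of_nonneg_right h10 hN0
      linarith
    refine h7.trans ?_
    rw [hN]
    have h14 : 4 * ((2 : ℝ) ^ (i + 1)) ^ 2 * 2 ^ e' * 2 ^ (k + 1) * 2 ^ (e + nlp g l i) =
        2 ^ (2 + 2 * (i + 1) + e' + (k + 1) + (e + nlp g l i)) := by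
      have h15 : ((2 : ℝ) ^ (i + 1)) ^ 2 = 2 ^ (2 * (i + 1)) := by
        rw [← pow_mul, mul_comm]
      rw [h15, show (4 : ℝ) = 2 ^ 2 by norm_num, ← pow_add, ← pow_add, ← pow_add, ← pow_add]
    rw [h14]
    refine pow_le_pow_right₀ (by norm_num) ?_
    beta_reduce at hnn ⊢
    omega

end Pool.D2F
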