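import Pool.Agent.H90.D2.Sel
import Pool.Agent.H42.D2.NoPk

/-!
# D2: the two sides of the pair

`both`: an event of the own sample and of the copies of its side holds on both sides with probability
at least the square.
-/

set_option autoImplicit false

namespace Pool.D2N

open Finset Real
open Pool.Agent.H49.Ent Pool.Agent.H32.Dense Pool.STK
open Pool.K2S
open Pool.KM7 (P2 P2_isLaw P2_pos)
open Pool.D2A

variable {Ω σ ζ' : Type} [Fintype Ω] {N M : ℕ}

/-- The pair law is positive. -/
theorem P2_psd {p : Ω → ℝ} (h0 : ∀ ω, 0 ≤ p ω) (S : Ω → σ) (f : Ω → ℝ) :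
    0 ≤ ∑ v : Ω × Ω, P2 p S v * (f v.1 * f v.2) := by
  classical
  have h1 : ∑ v : Ω × Ω, P2 p S v * (f v.1 * f v.2) =
      ∑ s ∈ univ.image S, (∑ ω, if S ω = s then p ω * f ω else 0) ^ 2 / law p S s := by
    have h2 : ∀ s ∈ univ.image S, (∑ ω, if S ω = s then p ω * f ω else 0) ^ 2 / law p S s =
        ∑ v : Ω × Ω, (if S v.1 = s then (if S v.1 = S v.2 then
          p v.1 * p v.2 / law p S (S v.1) else 0) * (f v.1 * f v.2) else 0) := by
      intro s _
      rw [sq, Fintype.sum_mul_sum, Finset.sum_div, Fintype.sum_prod_type]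
      refine Finset.sum_congr rfl fun a _ => ?_
      rw [Finset.sum_div]
      refine Finset.sum_congr rfl fun b _ => ?_
      dsimp only
      by_cases ha : S a = s
      · rw [if_pos ha, if_pos ha]
        by_cases hb : S b = s
        · rw [if_pos hb, if_pos (ha.trans hb.symm), ha]
          ring
        · rw [if_neg hb, if_neg (fun h => hb (h.symm.trans ha))]
          simp
      · rw [if_neg ha, if_neg ha]
        simp
    rw [Finset.sum_congr rfl h2, Finset.sum_comm]
    refine Finset.sum_congr rfl fun v _ => ?_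
    rw [Finset.sum_ite_eq (univ.image S) (S v.1), if_pos (Finset.mem_image_of_mem S
      (Finset.mem_univ v.1))]
    rfl
  rw [h1]
  exact Finset.sum_nonneg fun s _ => div_nonneg (sq_nonneg _) (law_nonneg h0 S s)

/-- **Two samples with the same `S`.** -/
theorem P2_sq {p : Ω → ℝ} (hp : IsLaw p) (S : Ω → σ) (h : Ω → ℝ) :
    (∑ ω, p ω * h ω) ^ 2 ≤ ∑ v : Ω × Ω, P2 p S v * (h v.1 * h v.2) := by
  obtain ⟨T, hT⟩ : ∃ T, T = ∑ ω, p ω * h ω := ⟨_, rfl⟩
  have h1 := P2_psd hp.nonneg S (fun ω => h ω - T)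
  have h2 : ∑ v : Ω × Ω, P2 p S v * h v.1 = T := by
    have := (P2_mfst hp S).ex h
    unfold Ex at this
    rw [this, hT]
  have h3 : ∑ v : Ω × Ω, P2 p S v * h v.2 = T := by
    have := (P2_msnd hp S).ex h
    unfold Ex at this
    rw [this, hT]
  have h4 : ∑ v : Ω × Ω, P2 p S v * ((h v.1 - T) * (h v.2 - T)) =
      ∑ v : Ω × Ω, P2 p S v * (h v.1 * h v.2) - T * (∑ v : Ω × Ω, P2 p S v * h v.1) -
        T * (∑ v : Ω × Ω, P2 p S v * h v.2) + T ^ 2 * ∑ v : Ω × Ω, P2 p S v := by
    rw [Finset.mul_sum, Finset.mul_sum, Finset.mul_sum, ← Finset.sum_sub_distrib,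
      ← Finset.sum_sub_distrib, ← Finset.sum_add_distrib]
    exact Finset.sum_congr rfl fun v _ => by ring
  rw [h4, h2, h3, (P2_isLaw hp S).sum_one] at h1
  rw [← hT]
  nlinarith

open Classical in
/-- The events of the two sides. -/
theorem two_eq {p : Ω → ℝ} (hp : IsLaw p) (S : Ω → σ) (z' : Ω → ζ') (sd : Fin N → Bool)
    (j₁ j₂ : Fin M → Fin N) (h₁ : Function.Injective j₁) (h₂ : Function.Injective j₂)
    (s₁ : ∀ k, sd (j₁ k) = true) (s₂ : ∀ k, sd (j₂ k) = false) (B B' : (Fin M → Ω) → Ω → Prop) :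
    law (PL p S z' sd) (fun w => B (fun k => cp sd (j₁ k) w) w.1.1 ∧
      B' (fun k => cp sd (j₂ k) w) w.1.2) True =
      ∑ v : Ω × Ω, P2 p S v *
        ((∑ g : Fin M → Ω, (∏ k, cond p z' (z' v.1) (g k)) * (if B g v.1 then 1 else 0)) *
        (∑ g : Fin M → Ω, (∏ k, cond p z' (z' v.2) (g k)) * (if B' g v.2 then 1 else 0))) := by
  have h1 := Pool.D2S.pe_PL hp S z' sd
    (fun v g => B (fun k => g (j₁ k)) v.1 ∧ B' (fun k => g (j₂ k)) v.2)
  have h2 : law (PL p S z' sd) (fun w => B (fun k => cp sd (j₁ k) w) w.1.1 ∧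
      B' (fun k => cp sd (j₂ k) w) w.1.2) True = Pe (PL p S z' sd) (fun w =>
        B (fun k => cp sd (j₁ k) w) w.1.1 ∧ B' (fun k => cp sd (j₂ k) w) w.1.2) := rfl
  rw [h2, h1]
  refine Finset.sum_congr rfl fun v _ => ?_
  rcases ((P2_isLaw hp S).nonneg v).eq_or_lt with h0 | h0
  · rw [← h0, zero_mul, zero_mul]
  · congr 1
    obtain ⟨a1, a2, -⟩ := (P2_pos hp v).mp h0
    have hsm : ∀ r, 0 < p (sm sd r v) := by
      intro r
      unfold sm
      cases sd r
      · exact a2
      · exact a1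
    obtain ⟨e, he⟩ : ∃ e : Fin (M + M) → Fin N, e = Fin.append j₁ j₂ := ⟨_, rfl⟩
    have hel : ∀ k, e (Fin.castAdd M k) = j₁ k := fun k => by rw [he, Fin.append_left]
    have her : ∀ k, e (Fin.natAdd M k) = j₂ k := fun k => by rw [he, Fin.append_right]
    have hinj : Function.Injective e := by
      intro a b
      refine Fin.addCases (fun a' => ?_) (fun a' => ?_) a <;>
      refine Fin.addCases (fun b' => ?_) (fun b' => ?_) b
      · intro h
        rw [hel, hel] at h
        rw [h₁ h]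
      · intro h
        rw [hel, her] at h
        have := s₁ a'
        rw [h, s₂ b'] at this
        exact absurd this (by decide)
      · intro h
        rw [her, hel] at h
        have := s₂ a'
        rw [h, s₁ b'] at this
        exact absurd this (by decide)
      · intro h
        rw [her, her] at h
        rw [h₂ h]
    obtain ⟨hf, hhf⟩ : ∃ hf : (Fin (M + M) → Ω) → ℝ, hf = fun g =>
      @ite ℝ (B (fun k => g (Fin.castAdd M k)) v.1 ∧ B' (fun k => g (Fin.natAdd M k)) v.2)
        (Classical.propDecidable _) 1 0 := ⟨_, rfl⟩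
    have h4 := Pool.D2S.sum_inj (fun r => cond p z' (z' (sm sd r v)))
      (fun r => sum_cond p z' (law_pos hp.nonneg z' (hsm r)).ne') e hinj hf
    have h5 : ∀ f : Fin N → Ω, hf (fun r => f (e r)) =
        @ite ℝ (B (fun k => f (j₁ k)) v.1 ∧ B' (fun k => f (j₂ k)) v.2)
          (Classical.propDecidable _) 1 0 := by
      intro f
      have e1 : (fun k => f (e (Fin.castAdd M k))) = fun k => f (j₁ k) :=
        funext fun k => by rw [hel]
      have e2 : (fun k => f (e (Fin.natAdd M k))) = fun k => f (j₂ k) :=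
        funext fun k => by rw [her]
      rw [hhf]
      dsimp only
      rw [e1, e2]
    rw [Finset.sum_congr rfl fun g _ => by rw [h5 g]] at h4
    rw [h4, Fintype.sum_mul_sum, ← (Fin.appendEquiv M M).sum_comp, Fintype.sum_prod_type]
    refine Finset.sum_congr rfl fun g _ => Finset.sum_congr rfl fun g' _ => ?_
    have e1 : (Fin.appendEquiv M M) (g, g') = Fin.append g g' := rfl
    have e4 : hf (Fin.append g g') = @ite ℝ (B g v.1 ∧ B' g' v.2)
        (Classical.propDecidable _) 1 0 := by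
      have e1 : (fun k => (Fin.append g g') (Fin.castAdd M k)) = g :=
        funext fun k => Fin.append_left g g' k
      have e2 : (fun k => (Fin.append g g') (Fin.natAdd M k)) = g' :=
        funext fun k => Fin.append_right g g' k
      rw [hhf]
      dsimp only
      rw [e1, e2]
    rw [e1, Fin.prod_univ_add, e4]
    simp only [Fin.append_left, Fin.append_right, hel, her]
    have e2 : ∏ k, cond p z' (z' (sm sd (j₁ k) v)) (g k) = ∏ k, cond p z' (z' v.1) (g k) := by
      refine Finset.prod_congr rfl fun k _ => ?_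
      unfold sm
      rw [s₁ k]
      rfl
    have e3 : ∏ k, cond p z' (z' (sm sd (j₂ k) v)) (g' k) = ∏ k, cond p z' (z' v.2) (g' k) := by
      refine Finset.prod_congr rfl fun k _ => ?_
      unfold sm
      rw [s₂ k]
      rfl
    rw [e2, e3]
    by_cases b1 : B g v.1
    · by_cases b2 : B' g' v.2
      · simp [b1, b2]
      · simp [b1, b2]
    · simp [b1]

/-- **Both sides.** -/
theorem both {p : Ω → ℝ} (hp : IsLaw p) (S : Ω → σ) (z' : Ω → ζ') (sd : Fin N → Bool)
    (j₁ j₂ : Fin M → Fin N) (h₁ : Function.Injective j₁) (h₂ : Function.Injective j₂)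
    (s₁ : ∀ k, sd (j₁ k) = true) (s₂ : ∀ k, sd (j₂ k) = false) (B : (Fin M → Ω) → Ω → Prop) :
    law (PL p S z' sd) (fun w => B (fun k => cp sd (j₁ k) w) w.1.1) True ^ 2 ≤
      law (PL p S z' sd) (fun w => B (fun k => cp sd (j₁ k) w) w.1.1 ∧
        B (fun k => cp sd (j₂ k) w) w.1.2) True := by
  classical
  have h1 := Pool.D2Con.own_eq hp S z' sd true j₁ h₁ s₁ B
  have h2 : law (PL p S z' sd) (fun w => B (fun k => cp sd (j₁ k) w) w.1.1) True = _ := h1
  rw [h2, two_eq hp S z' sd j₁ j₂ h₁ h₂ s₁ s₂ B B]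
  exact P2_sq hp S _

end Pool.D2N
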