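import Pool.Agent.H66.D2.Join1
import Pool.Agent.H44.D2.Germ2

/-!
# D2, case [2a]: three copies span, the own functional lies in their span

`PtB`: one sample (real numbers, scaled). `PtB.rel`: the own relation. `PtB.num`: the own number.
`PtB.dir`, `PtB.fin`: the end. `PtA.toB`: the matrices of the two samples are proportional.
-/

set_option autoImplicit false

namespace Pool.D2JA

open Finset Real
open Pool.D2G

/-- The coefficients of the form in the direction `(1, E)`. -/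
def rE (E : ℝ) (i : Fin 3) : ℝ := if i = 0 then 1 else if i = 1 then 2 * E else E ^ 2

/-- `∑ i, rE E i * D i` -/
def fE (E : ℝ) (D : Fin 3 → ℝ) : ℝ := D 0 + 2 * E * D 1 + E ^ 2 * D 2

theorem fE_add (E : ℝ) (D D' : Fin 3 → ℝ) : fE E (fun i => D i + D' i) = fE E D + fE E D' := by
  unfold fE
  ring

theorem fE_le {L E ε : ℝ} (hL : 1 ≤ L) (hE : |E| ≤ L) {D : Fin 3 → ℝ} (h : ∀ i, |D i| ≤ ε) :
    |fE E D| ≤ 4 * L ^ 2 * ε := by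
  have hε : 0 ≤ ε := (abs_nonneg _).trans (h 0)
  unfold fE
  have h1 : |2 * E * D 1| ≤ 2 * L * ε := by
    rw [abs_mul, abs_mul, abs_two]
    exact mul_le_mul (by linarith) (h 1) (abs_nonneg _) (by positivity)
  have h2 : |E ^ 2 * D 2| ≤ L ^ 2 * ε := by
    rw [abs_mul, abs_pow]
    exact mul_le_mul (pow_le_pow_left₀ (abs_nonneg _) hE 2) (h 2) (abs_nonneg _) (by positivity)
  have h3 := abs_add_le (D 0 + 2 * E * D 1) (E ^ 2 * D 2)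
  have h4 := abs_add_le (D 0) (2 * E * D 1)
  have h5 := h 0
  have h6 : ε ≤ L ^ 2 * ε := by nlinarith [mul_nonneg hε (by nlinarith : 0 ≤ L ^ 2 - 1)]
  have h7 : L * ε ≤ L ^ 2 * ε := mul_le_mul_of_nonneg_right (by nlinarith) hε
  linarith

/-- The image of the direction. -/
theorem ap_le {L E : ℝ} (hL : 1 ≤ L) (hE : |E| ≤ L) {G : Fin 2 → Fin 2 → ℝ}
    (hG : ∀ i j, |G i j| ≤ L) (i : Fin 2) : |ap G ![1, E] i| ≤ 2 * L ^ 2 := by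
  unfold ap
  simp only [Matrix.cons_val_zero, Matrix.cons_val_one, mul_one]
  have h1 : |G i 1 * E| ≤ L * L := by
    rw [abs_mul]
    exact mul_le_mul (hG i 1) hE (abs_nonneg _) (by linarith)
  have h2 := abs_add_le (G i 0) (G i 1 * E)
  have h3 := hG i 0
  nlinarith

/-- One sample (scaled), the two germs of the symmetric forms with the same matrix. -/
structure PtB (L μ η e δ E t b : ℝ) (G : Fin 2 → Fin 2 → ℝ) (A T p : Fin 2 → ℝ)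
    (u u' : Fin 2 → Fin 2 → ℝ) (m0 n0 : Fin 3 → ℝ) (m1 n1 : Fin 3 → Fin 2 → ℝ) : Prop where
  hL : 1 ≤ L
  hμ : 0 < μ
  hμ1 : μ ≤ 1
  hE : |E| ≤ L
  hG : ∀ i j, |G i j| ≤ L
  hd : μ ≤ |dt G|
  hA : ∀ i, |A i| ≤ L
  hAμ : ∃ i, μ ≤ |A i|
  hp : ∀ j, |p j| ≤ L
  ht : |t| ≤ L
  htμ : μ ≤ |t|
  hu : ∀ i j, |u i j| ≤ L
  hu' : ∀ i j, |u' i j| ≤ L
  hδ : 4 * L * δ ≤ μ ^ 2
  g0 : |w2 A (ap G ![1, E])| ≤ δ
  g1 : ∀ i, |sy G u i - m0 i - ∑ j, m1 i j * p j| ≤ η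
  g2 : ∀ i, |sy G u' i - n0 i - ∑ j, n1 i j * (p j + t * ![1, E] j)| ≤ e
  g3 : ∀ i, |(u' i 0 - u i 0) + E * (u' i 1 - u i 1)| ≤ η
  g4 : |b - ∑ j, T j * p j - (A 0 * (u 0 0 + E * u 0 1) + A 1 * (u 1 0 + E * u 1 1))| ≤ η
  g5 : ∀ j, |2 * t * T j + (A 0 * (u' 0 j - u 0 j) + A 1 * (u' 1 j - u 1 j))| ≤ η

variable {L μ η e δ E t b : ℝ} {G G' : Fin 2 → Fin 2 → ℝ} {A T p : Fin 2 → ℝ}
  {u u' : Fin 2 → Fin 2 → ℝ} {m0 n0 : Fin 3 → ℝ} {m1 n1 : Fin 3 → Fin 2 → ℝ}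

theorem PtB.eta (D : PtB L μ η e δ E t b G A T p u u' m0 n0 m1 n1) : 0 ≤ η :=
  (abs_nonneg _).trans (D.g3 0)

theorem PtB.e0 (D : PtB L μ η e δ E t b G A T p u u' m0 n0 m1 n1) : 0 ≤ e :=
  (abs_nonneg _).trans (D.g2 0)

theorem PtB.del (D : PtB L μ η e δ E t b G A T p u u' m0 n0 m1 n1) : 0 ≤ δ :=
  (abs_nonneg _).trans D.g0

/-- The difference of the two forms. -/
theorem PtB.frm (D : PtB L μ η e δ E t b G A T p u u' m0 n0 m1 n1) :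
    |fE E (fun i => sy G u' i - sy G u i)| ≤ 4 * L ^ 2 * η := by
  have hη := D.eta
  have hL := D.hL
  have h0 : fE E (fun i => sy G u' i - sy G u i) =
      ap G ![1, E] 0 * ((u' 0 0 - u 0 0) + E * (u' 0 1 - u 0 1)) +
        ap G ![1, E] 1 * ((u' 1 0 - u 1 0) + E * (u' 1 1 - u 1 1)) := by
    have h1 := sy_form G u E
    have h2 := sy_form G u' E
    unfold fE
    have h3 : ∀ M : Fin 2 → Fin 2 → ℝ, ∀ i, ap M ![1, E] i = M i 0 + E * M i 1 := by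
      intro M i
      unfold ap
      simp only [Matrix.cons_val_zero, Matrix.cons_val_one]
      ring
    rw [h3 u 0, h3 u 1] at h1
    rw [h3 u' 0, h3 u' 1] at h2
    linear_combination h2 - h1
  rw [h0]
  have k0 := ap_le hL D.hE D.hG 0
  have k1 := ap_le hL D.hE D.hG 1
  have h1 : |ap G ![1, E] 0 * ((u' 0 0 - u 0 0) + E * (u' 0 1 - u 0 1))| ≤ 2 * L ^ 2 * η := by
    rw [abs_mul]
    exact mul_le_mul k0 (D.g3 0) (abs_nonneg _) (by positivity)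
  have h2 : |ap G ![1, E] 1 * ((u' 1 0 - u 1 0) + E * (u' 1 1 - u 1 1))| ≤ 2 * L ^ 2 * η := by
    rw [abs_mul]
    exact mul_le_mul k1 (D.g3 1) (abs_nonneg _) (by positivity)
  refine (abs_add_le _ _).trans ?_
  linarith

/-- **The own relation.** -/
theorem PtB.rel (D : PtB L μ η e δ E t b G A T p u u' m0 n0 m1 n1) :
    |fE E (fun i => n1 i 0 - m1 i 0) * p 0 + fE E (fun i => n1 i 1 - m1 i 1) * p 1 +
      fE E (fun i => n1 i 0 + n1 i 1 * E) * t + fE E (fun i => n0 i - m0 i)| ≤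
      4 * L ^ 2 * (2 * η + e) := by
  have hη := D.eta
  have hL := D.hL
  have h1 := D.frm
  obtain ⟨d, hd⟩ : ∃ d : Fin 3 → ℝ, d = fun i => sy G u i - m0 i - ∑ j, m1 i j * p j := ⟨_, rfl⟩
  obtain ⟨d', hd'⟩ : ∃ d' : Fin 3 → ℝ, d' = fun i =>
    sy G u' i - n0 i - ∑ j, n1 i j * (p j + t * ![1, E] j) := ⟨_, rfl⟩
  have k : ∀ i, |d' i - d i| ≤ η + e := by
    intro i
    have a1 := D.g1 i
    have a2 := D.g2 i
    have a3 : d i = sy G u i - m0 i - ∑ j, m1 i j * p j := by rw [hd]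
    have a4 : d' i = sy G u' i - n0 i - ∑ j, n1 i j * (p j + t * ![1, E] j) := by rw [hd']
    rw [← a3] at a1
    rw [← a4] at a2
    have a5 := abs_sub (d' i) (d i)
    linarith
  have k2 := fE_le hL D.hE k
  have key : fE E (fun i => n1 i 0 - m1 i 0) * p 0 + fE E (fun i => n1 i 1 - m1 i 1) * p 1 +
      fE E (fun i => n1 i 0 + n1 i 1 * E) * t + fE E (fun i => n0 i - m0 i) =
      fE E (fun i => sy G u' i - sy G u i) - fE E (fun i => d' i - d i) := by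
    rw [hd, hd']
    unfold fE
    simp only [Fin.sum_univ_two, Matrix.cons_val_zero, Matrix.cons_val_one]
    ring
  rw [key]
  have k3 := abs_sub (fE E (fun i => sy G u' i - sy G u i)) (fE E (fun i => d' i - d i))
  calc _ ≤ _ := k3
    _ ≤ 4 * L ^ 2 * η + 4 * L ^ 2 * (η + e) := add_le_add h1 k2
    _ = _ := by ring

/-- The factor of the own functional: near parallel. -/
theorem PtB.par (D : PtB L μ η e δ E t b G A T p u u' m0 n0 m1 n1) (i : Fin 2) :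
    |A i - fac A (ap G ![1, E]) * ap G ![1, E] i| ≤ 2 * L * δ / μ := by
  have hL := D.hL
  have hμ := D.hμ
  have h1 := ap_low (X := ![1, E]) (by linarith : 0 < L) D.hG (by simp) D.hd
  have h2 := par_of (by positivity) h1 D.g0 i
  refine h2.trans (le_of_eq ?_)
  field_simp

/-- The factor is bounded. -/
theorem PtB.fac_le (D : PtB L μ η e δ E t b G A T p u u' m0 n0 m1 n1) :
    |fac A (ap G ![1, E])| ≤ 4 * L ^ 2 / μ := by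
  have hL := D.hL
  have hμ := D.hμ
  obtain ⟨i, hi⟩ := ap_low (X := ![1, E]) (by linarith : 0 < L) D.hG (by simp) D.hd
  obtain ⟨Y, hY⟩ : ∃ Y : Fin 2 → ℝ, Y = ap G ![1, E] := ⟨_, rfl⟩
  rw [← hY] at hi ⊢
  have hν : 0 < μ / (2 * L) := by positivity
  have hq : μ / (2 * L) ≤ |Y 0| ∨ μ / (2 * L) ≤ |Y 1| := by
    fin_cases i
    · exact Or.inl hi
    · exact Or.inr hi
  have hQ : 0 < Y 0 ^ 2 + Y 1 ^ 2 := by
    rcases hq with h | h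
    · have : 0 < |Y 0| := lt_of_lt_of_le hν h
      have := sq_abs (Y 0)
      nlinarith [sq_nonneg (Y 1)]
    · have : 0 < |Y 1| := lt_of_lt_of_le hν h
      have := sq_abs (Y 1)
      nlinarith [sq_nonneg (Y 0)]
  unfold fac
  rw [abs_div, abs_of_pos hQ, div_le_iff₀ hQ]
  have a0 := D.hA 0
  have a1 := D.hA 1
  have b1 : |A 0 * Y 0 + A 1 * Y 1| ≤ L * (|Y 0| + |Y 1|) := by
    refine (abs_add_le _ _).trans ?_
    rw [abs_mul, abs_mul]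
    nlinarith [abs_nonneg (Y 0), abs_nonneg (Y 1)]
  have b2 : μ / (2 * L) * (|Y 0| + |Y 1|) ≤ 2 * (Y 0 ^ 2 + Y 1 ^ 2) := by
    rw [← sq_abs (Y 0), ← sq_abs (Y 1)]
    have c0 := abs_nonneg (Y 0)
    have c1 := abs_nonneg (Y 1)
    rcases hq with h | h
    · rcases le_total |Y 1| |Y 0| with h' | h'
      · nlinarith
      · nlinarith
    · rcases le_total |Y 1| |Y 0| with h' | h'
      · nlinarith
      · nlinarith
  have b3 : L * (|Y 0| + |Y 1|) = 2 * L ^ 2 / μ * (μ / (2 * L) * (|Y 0| + |Y 1|)) := by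
    field_simp
  have b4 : 2 * L ^ 2 / μ * (μ / (2 * L) * (|Y 0| + |Y 1|)) ≤
      2 * L ^ 2 / μ * (2 * (Y 0 ^ 2 + Y 1 ^ 2)) := mul_le_mul_of_nonneg_left b2 (by positivity)
  calc _ ≤ _ := b1
    _ = _ := b3
    _ ≤ _ := b4
    _ = _ := by ring

/-- The factor is not small. -/
theorem PtB.fac_ge (D : PtB L μ η e δ E t b G A T p u u' m0 n0 m1 n1) :
    μ / (4 * L ^ 2) ≤ |fac A (ap G ![1, E])| := by
  have hL := D.hL
  have hμ := D.hμ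
  obtain ⟨i, hi⟩ := D.hAμ
  have h1 := D.par i
  have h2 := ap_le hL D.hE D.hG i
  have h3 : 2 * L * δ / μ ≤ μ / 2 := by
    rw [div_le_iff₀ hμ]
    have := D.hδ
    nlinarith
  have h4 := abs_sub_abs_le_abs_sub (A i) (fac A (ap G ![1, E]) * ap G ![1, E] i)
  rw [abs_mul] at h4
  have h5 : |fac A (ap G ![1, E])| * |ap G ![1, E] i| ≤ |fac A (ap G ![1, E])| * (2 * L ^ 2) :=
    mul_le_mul_of_nonneg_left h2 (abs_nonneg _)
  rw [div_le_iff₀ (by positivity)]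
  linarith

/-- **The own number.** -/
theorem PtB.num (D : PtB L μ η e δ E t b G A T p u u' m0 n0 m1 n1) :
    |(T 0 + fac A (ap G ![1, E]) * fE E (fun i => m1 i 0)) * p 0 +
      (T 1 + fac A (ap G ![1, E]) * fE E (fun i => m1 i 1)) * p 1 +
      (fac A (ap G ![1, E]) * fE E m0 - b)| ≤ η + 8 * L ^ 3 * δ / μ + 16 * L ^ 4 * η / μ := by
  have hη := D.eta
  have hL := D.hL
  have hμ := D.hμ
  have hfl := D.fac_le
  obtain ⟨a, ha⟩ : ∃ a, a = fac A (ap G ![1, E]) := ⟨_, rfl⟩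
  rw [← ha] at hfl ⊢
  have hpar : ∀ i, |A i - a * ap G ![1, E] i| ≤ 2 * L * δ / μ := by
    intro i
    rw [ha]
    exact D.par i
  have hδ0 : 0 ≤ 2 * L * δ / μ := (abs_nonneg _).trans (hpar 0)
  have h1 := sy_near (M := u) hL D.hu D.hE hδ0 hpar
  have h2 := D.g4
  rw [Fin.sum_univ_two] at h2
  obtain ⟨d, hd⟩ : ∃ d : Fin 3 → ℝ, d = fun i => sy G u i - m0 i - ∑ j, m1 i j * p j := ⟨_, rfl⟩
  have k : ∀ i, |d i| ≤ η := by
    intro i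
    rw [hd]
    exact D.g1 i
  have k2 := fE_le hL D.hE k
  have k3 : |a * fE E d| ≤ 4 * L ^ 2 / μ * (4 * L ^ 2 * η) := by
    rw [abs_mul]
    exact mul_le_mul hfl k2 (abs_nonneg _) (by positivity)
  obtain ⟨V, hV⟩ : ∃ V, V = A 0 * (u 0 0 + E * u 0 1) + A 1 * (u 1 0 + E * u 1 1) := ⟨_, rfl⟩
  obtain ⟨Q, hQ⟩ : ∃ Q, Q = sy G u 0 + 2 * E * sy G u 1 + E ^ 2 * sy G u 2 := ⟨_, rfl⟩
  rw [← hV, ← hQ] at h1
  rw [← hV] at h2
  have key : (T 0 + a * fE E (fun i => m1 i 0)) * p 0 + (T 1 + a * fE E (fun i => m1 i 1)) * p 1 +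
      (a * fE E m0 - b) = -(b - (T 0 * p 0 + T 1 * p 1) - V) - (V - a * Q) - a * fE E d := by
    rw [hd, hQ]
    unfold fE
    simp only [Fin.sum_univ_two]
    ring
  rw [key]
  have e1 : 4 * L ^ 2 * (2 * L * δ / μ) = 8 * L ^ 3 * δ / μ := by ring
  have e2 : 4 * L ^ 2 / μ * (4 * L ^ 2 * η) = 16 * L ^ 4 * η / μ := by ring
  rw [e1] at h1
  rw [e2] at k3
  have c1 := abs_sub (-(b - (T 0 * p 0 + T 1 * p 1) - V) - (V - a * Q)) (a * fE E d)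
  have c2 := abs_sub (-(b - (T 0 * p 0 + T 1 * p 1) - V)) (V - a * Q)
  rw [abs_neg] at c2
  linarith

/-- The germs of the symmetric form from the readings. -/
theorem PtB.g3s (D : PtB L μ η e δ E t b G A T p u u' m0 n0 m1 n1) {ν K : ℝ} (hK : L ≤ K)
    (he : e ≤ ν) (hη : 2 * L * η ≤ ν) (hν : η ≤ ν)
    (h0 : ∀ i, |n0 i - m0 i| ≤ ν) (h1 : ∀ i j, |n1 i j - m1 i j| ≤ ν)
    (c0 : |n1 0 0| ≤ ν) (c1 : |n1 0 1 + 2 * n1 1 0| ≤ ν) (c2 : |2 * n1 1 1 + n1 2 0| ≤ ν)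
    (c3 : |n1 2 1| ≤ ν) :
    G3 K ν t E p (fun i => sy G u i) (fun i => sy G u' i) m0 n0 m1 n1
      (fun i j => G 0 i * (u' 0 j - u 0 j) + G 1 i * (u' 1 j - u 1 j)) := by
  have hL := D.hL
  obtain ⟨s0, s1, s2⟩ := sy_dif G u u'
  refine ⟨hL.trans hK, D.hE.trans hK, fun j => (D.hp j).trans hK, D.ht.trans hK, h0, h1, c0, c1, c2,
    c3, fun i => (D.g1 i).trans hν, fun i => (D.g2 i).trans he, ?_, ?_, ?_, ?_⟩
  · rw [s0, sub_self, abs_zero]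
    exact D.eta.trans hν
  · rw [s1, sub_self, abs_zero]
    exact D.eta.trans hν
  · rw [s2, sub_self, abs_zero]
    exact D.eta.trans hν
  · intro i
    have e1 : G 0 i * (u' 0 0 - u 0 0) + G 1 i * (u' 1 0 - u 1 0) +
        (G 0 i * (u' 0 1 - u 0 1) + G 1 i * (u' 1 1 - u 1 1)) * E =
        G 0 i * ((u' 0 0 - u 0 0) + E * (u' 0 1 - u 0 1)) +
          G 1 i * ((u' 1 0 - u 1 0) + E * (u' 1 1 - u 1 1)) := by ring
    rw [e1]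
    have h2 : |G 0 i * ((u' 0 0 - u 0 0) + E * (u' 0 1 - u 0 1))| ≤ L * η := by
      rw [abs_mul]
      exact mul_le_mul (D.hG 0 i) (D.g3 0) (abs_nonneg _) (by linarith)
    have h3 : |G 1 i * ((u' 1 0 - u 1 0) + E * (u' 1 1 - u 1 1))| ≤ L * η := by
      rw [abs_mul]
      exact mul_le_mul (D.hG 1 i) (D.g3 1) (abs_nonneg _) (by linarith)
    refine (abs_add_le _ _).trans ?_
    linarith

/-- **The own direction.** -/
theorem PtB.dir (D : PtB L μ η e δ E t b G A T p u u' m0 n0 m1 n1) {ν : ℝ}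
    (he : e ≤ ν) (hη : 2 * L * η ≤ ν) (hν : η + 8 * L ^ 2 * δ / μ ≤ ν)
    (h0 : ∀ i, |n0 i - m0 i| ≤ ν) (h1 : ∀ i j, |n1 i j - m1 i j| ≤ ν)
    (c0 : |n1 0 0| ≤ ν) (c1 : |n1 0 1 + 2 * n1 1 0| ≤ ν) (c2 : |2 * n1 1 1 + n1 2 0| ≤ ν)
    (c3 : |n1 2 1| ≤ ν)
    (hα : |T 1 + fac A (ap G ![1, E]) * fE E (fun i => m1 i 1)| ≤ ν) :
    |n1 1 0 - n1 1 1 * E| ≤ 40960 * L ^ 12 * ν / μ ^ 6 := by
  have hL := D.hL
  have hμ := D.hμ
  have hμ1 := D.hμ1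
  have hη0 := D.eta
  have hδ0 := D.del
  have hfl := D.fac_le
  have hfg := D.fac_ge
  have hL2 : L ≤ 4 * L ^ 2 / μ := by
    rw [le_div_iff₀ hμ]
    nlinarith
  have hην : η ≤ ν := by
    have : 0 ≤ 8 * L ^ 2 * δ / μ := by positivity
    linarith
  have hG3 := D.g3s hL2 he hη hην h0 h1 c0 c1 c2 c3
  have hμ' : μ / (4 * L ^ 2) ≤ μ := by
    rw [div_le_iff₀ (by positivity)]
    exact le_mul_of_one_le_right hμ.le (by nlinarith)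
  have h4 := own3 (μ := μ / (4 * L ^ 2)) (a := fac A (ap G ![1, E])) (θ := T 1) hG3
    (by positivity) (hμ'.trans D.htμ) hfl hfg ?_ ?_
  · refine h4.trans (le_of_eq ?_)
    field_simp
    ring
  · refine le_trans (le_of_eq ?_) hα
    unfold fE
    congr 1
  · obtain ⟨a, ha⟩ : ∃ a, a = fac A (ap G ![1, E]) := ⟨_, rfl⟩
    rw [← ha]
    have hpar : ∀ i, |A i - a * ap G ![1, E] i| ≤ 2 * L * δ / μ := by
      intro i
      rw [ha]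
      exact D.par i
    have e0 : ∀ i, ap G ![1, E] i = G i 0 + E * G i 1 := by
      intro i
      unfold ap
      simp only [Matrix.cons_val_zero, Matrix.cons_val_one]
      ring
    have key : a * (G 0 0 * (u' 0 1 - u 0 1) + G 1 0 * (u' 1 1 - u 1 1) +
        E * (G 0 1 * (u' 0 1 - u 0 1) + G 1 1 * (u' 1 1 - u 1 1))) + 2 * t * T 1 =
        (2 * t * T 1 + (A 0 * (u' 0 1 - u 0 1) + A 1 * (u' 1 1 - u 1 1))) -
        (A 0 - a * ap G ![1, E] 0) * (u' 0 1 - u 0 1) -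
        (A 1 - a * ap G ![1, E] 1) * (u' 1 1 - u 1 1) := by
      rw [e0, e0]
      ring
    rw [key]
    have hdu : ∀ i, |u' i 1 - u i 1| ≤ 2 * L := by
      intro i
      have h5 := abs_sub (u' i 1) (u i 1)
      have h6 := D.hu i 1
      have h7 := D.hu' i 1
      linarith
    have h5 : ∀ i, |(A i - a * ap G ![1, E] i) * (u' i 1 - u i 1)| ≤
        2 * L * δ / μ * (2 * L) := by
      intro i
      rw [abs_mul]
      exact mul_le_mul (hpar i) (hdu i) (abs_nonneg _) (by positivity)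
    have h6 := abs_sub ((2 * t * T 1 + (A 0 * (u' 0 1 - u 0 1) + A 1 * (u' 1 1 - u 1 1))) -
        (A 0 - a * ap G ![1, E] 0) * (u' 0 1 - u 0 1))
        ((A 1 - a * ap G ![1, E] 1) * (u' 1 1 - u 1 1))
    have h7 := abs_sub (2 * t * T 1 + (A 0 * (u' 0 1 - u 0 1) + A 1 * (u' 1 1 - u 1 1)))
        ((A 0 - a * ap G ![1, E] 0) * (u' 0 1 - u 0 1))
    have h8 := D.g5 1
    have h9 := h5 0
    have h10 := h5 1
    have e1 : 2 * L * δ / μ * (2 * L) + 2 * L * δ / μ * (2 * L) = 8 * L ^ 2 * δ / μ := by ring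
    linarith

/-- **The end.** -/
theorem PtB.fin (D : PtB L μ η e δ E t b G A T p u u' m0 n0 m1 n1) {ν : ℝ}
    (he : e ≤ ν) (hη : 2 * L * η ≤ ν) (hν : η ≤ ν)
    (h0 : ∀ i, |n0 i - m0 i| ≤ ν) (h1 : ∀ i j, |n1 i j - m1 i j| ≤ ν)
    (c0 : |n1 0 0| ≤ ν) (c1 : |n1 0 1 + 2 * n1 1 0| ≤ ν) (c2 : |2 * n1 1 1 + n1 2 0| ≤ ν)
    (c3 : |n1 2 1| ≤ ν) (hx : |n1 1 0| ≤ ν) (hy : |n1 1 1| ≤ ν) (i j : Fin 2) :
    |u' i j - u i j| ≤ 80 * L ^ 4 * ν / μ := by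
  have hL := D.hL
  have hμ := D.hμ
  have hG3 := D.g3s le_rfl he hη hν h0 h1 c0 c1 c2 c3
  have h4 := end3 (M := u) (M' := u') (by linarith) hμ D.hG D.hd (fun i j => rfl)
    (hG3.small hx hy) i j
  refine h4.trans (le_of_eq ?_)
  ring

/-! ### The matrices of the two samples -/

/-- One sample (scaled), the matrices `G`, `G'` of the copies at the two samples. -/
structure PtA (L μ η δ E t b : ℝ) (G G' : Fin 2 → Fin 2 → ℝ) (A T p : Fin 2 → ℝ)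
    (u u' : Fin 2 → Fin 2 → ℝ) (m0 n0 : Fin 3 → ℝ) (m1 n1 : Fin 3 → Fin 2 → ℝ) : Prop where
  hL : 1 ≤ L
  hμ : 0 < μ
  hμ1 : μ ≤ 1
  hE : |E| ≤ L
  hG : ∀ i j, |G i j| ≤ L
  hG' : ∀ i j, |G' i j| ≤ L
  hd : μ ≤ |dt G|
  hd' : μ ≤ |dt G'|
  hA : ∀ i, |A i| ≤ L
  hAμ : ∃ i, μ ≤ |A i|
  hp : ∀ j, |p j| ≤ L
  ht : |t| ≤ L
  htμ : μ ≤ |t|
  hu : ∀ i j, |u i j| ≤ L
  hu' : ∀ i j, |u' i j| ≤ L
  hδ : 4 * L * δ ≤ μ ^ 2
  g0 : |w2 A (ap G ![1, E])| ≤ δ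
  g0' : |w2 A (ap G' ![1, E])| ≤ δ
  g1 : ∀ i, |sy G u i - m0 i - ∑ j, m1 i j * p j| ≤ η
  g2 : ∀ i, |sy G' u' i - n0 i - ∑ j, n1 i j * (p j + t * ![1, E] j)| ≤ η
  g3 : ∀ i, |(u' i 0 - u i 0) + E * (u' i 1 - u i 1)| ≤ η
  g4 : |b - ∑ j, T j * p j - (A 0 * (u 0 0 + E * u 0 1) + A 1 * (u 1 0 + E * u 1 1))| ≤ η
  g5 : ∀ j, |2 * t * T j + (A 0 * (u' 0 j - u 0 j) + A 1 * (u' 1 j - u 1 j))| ≤ η

theorem PtA.eta (D : PtA L μ η δ E t b G G' A T p u u' m0 n0 m1 n1) : 0 ≤ η :=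
  (abs_nonneg _).trans (D.g3 0)

/-- The two images are nearly parallel: a quadratic polynomial in `E`. -/
theorem PtA.qf_le (D : PtA L μ η δ E t b G G' A T p u u' m0 n0 m1 n1) :
    |(pQ (qf G G')).eval E| ≤ 4 * L ^ 2 * δ / μ := by
  rw [qf_eval]
  have hL := D.hL
  have h1 := w2_trans D.hμ D.hAμ (ap_le hL D.hE D.hG) (ap_le hL D.hE D.hG') D.g0 D.g0'
  refine h1.trans (le_of_eq ?_)
  ring

/-- Linear functions of the second matrix. -/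
theorem sy_lin (G G' M : Fin 2 → Fin 2 → ℝ) (c : ℝ) (i : Fin 3) :
    sy G' M i - c * sy G M i = sy (fun a b => G' a b - c * G a b) M i := by
  unfold sy
  fin_cases i
  · simp
    ring
  · simp
    ring
  · simp
    ring

theorem sy_le {G M : Fin 2 → Fin 2 → ℝ} {x y : ℝ} (hG : ∀ i j, |G i j| ≤ x)
    (hM : ∀ i j, |M i j| ≤ y) (i : Fin 3) : |sy G M i| ≤ 2 * x * y := by
  have hx : 0 ≤ x := (abs_nonneg _).trans (hG 0 0)
  have h : ∀ a b c d, |G a b * M c d| ≤ x * y := by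
    intro a b c d
    rw [abs_mul]
    exact mul_le_mul (hG a b) (hM c d) (abs_nonneg _) hx
  unfold sy
  fin_cases i
  · show |G 0 0 * M 0 0 + G 1 0 * M 1 0| ≤ _
    have := abs_add_le (G 0 0 * M 0 0) (G 1 0 * M 1 0)
    linarith [h 0 0 0 0, h 1 0 1 0]
  · show |((G 0 0 * M 0 1 + G 1 0 * M 1 1) + (G 0 1 * M 0 0 + G 1 1 * M 1 0)) / 2| ≤ _
    rw [abs_div, abs_two]
    have a1 := abs_add_le (G 0 0 * M 0 1 + G 1 0 * M 1 1) (G 0 1 * M 0 0 + G 1 1 * M 1 0)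
    have a2 := abs_add_le (G 0 0 * M 0 1) (G 1 0 * M 1 1)
    have a3 := abs_add_le (G 0 1 * M 0 0) (G 1 1 * M 1 0)
    linarith [h 0 0 0 1, h 1 0 1 1, h 0 1 0 0, h 1 1 1 0]
  · show |G 0 1 * M 0 1 + G 1 1 * M 1 1| ≤ _
    have := abs_add_le (G 0 1 * M 0 1) (G 1 1 * M 1 1)
    linarith [h 0 1 0 1, h 1 1 1 1]

/-- The factor of the two matrices is not small. -/
theorem cc_ge {lam c : ℝ} (hL : 1 ≤ L) (hμ : 0 < μ) (hG : ∀ i j, |G i j| ≤ L)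
    (hG' : ∀ i j, |G' i j| ≤ L) (hd' : μ ≤ |dt G'|)
    (h : ∀ i j, |G' i j - c * G i j| ≤ lam) (hlam : 4 * L * lam ≤ μ) : μ / (4 * L ^ 2) ≤ |c| := by
  by_contra hcon
  rw [not_le, lt_div_iff₀ (by positivity)] at hcon
  have h1 : ∀ i j, |G' i j| < μ / (2 * L) := by
    intro i j
    have h2 := abs_sub_abs_le_abs_sub (G' i j) (c * G i j)
    have h3 : |c * G i j| ≤ |c| * L := by
      rw [abs_mul]
      exact mul_le_mul_of_nonneg_left (hG i j) (abs_nonneg _)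
    have h4 := h i j
    rw [lt_div_iff₀ (by positivity)]
    have h5 : |G' i j| ≤ |c| * L + lam := by linarith
    have h6 : |G' i j| * (2 * L) ≤ (|c| * L + lam) * (2 * L) :=
      mul_le_mul_of_nonneg_right h5 (by positivity)
    have h7 : (|c| * L + lam) * (2 * L) = |c| * (4 * L ^ 2) / 2 + (4 * L * lam) / 2 := by ring
    linarith
  have h2 : |dt G'| < μ := by
    unfold dt
    have a1 : |G' 0 0 * G' 1 1| ≤ μ / (2 * L) * L := by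
      rw [abs_mul]
      exact mul_le_mul (h1 0 0).le (hG' 1 1) (abs_nonneg _) (by positivity)
    have a2 : |G' 0 1 * G' 1 0| < μ / (2 * L) * L := by
      rw [abs_mul]
      calc |G' 0 1| * |G' 1 0| ≤ |G' 0 1| * L := mul_le_mul_of_nonneg_left (hG' 1 0) (abs_nonneg _)
        _ < μ / (2 * L) * L := mul_lt_mul_of_pos_right (h1 0 1) (by linarith)
    have a3 := abs_sub (G' 0 0 * G' 1 1) (G' 0 1 * G' 1 0)
    have a4 : μ / (2 * L) * L = μ / 2 := by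
      field_simp
    rw [a4] at a1 a2
    linarith
  linarith

/-- **One matrix for the two samples.** -/
theorem PtA.toB (D : PtA L μ η δ E t b G G' A T p u u' m0 n0 m1 n1) {μ₁ : ℝ}
    (hq : ∀ n, |(pQ (qf G G')).coeff n| ≤ μ₁) (hμ₁ : 8 * L ^ 2 * μ₁ ≤ μ ^ 2) :
    PtB L μ η (16 * L ^ 4 * μ₁ / μ ^ 2 + 4 * L ^ 2 * η / μ) δ E t b G A T p u u' m0
      (fun i => n0 i / cc G G') m1 (fun i j => n1 i j / cc G G') := by
  have hL := D.hL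
  have hμ := D.hμ
  have hη := D.eta
  obtain ⟨q0, q1, q2⟩ := rdQ hq
  have hs : ∀ i j, |G' i j - cc G G' * G i j| ≤ 2 * L * μ₁ / μ := fun i j =>
    gm_same hμ D.hG D.hd q0 q1 q2 i j
  obtain ⟨c, hc⟩ : ∃ c, c = cc G G' := ⟨_, rfl⟩
  rw [← hc] at hs ⊢
  have hμ₁0 : 0 ≤ μ₁ := (abs_nonneg _).trans q0
  have hlam : 4 * L * (2 * L * μ₁ / μ) ≤ μ := by
    have e1 : 4 * L * (2 * L * μ₁ / μ) = 8 * L ^ 2 * μ₁ / μ := by ring
    rw [e1, div_le_iff₀ hμ]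
    nlinarith
  have hcg := cc_ge hL hμ D.hG D.hG' D.hd' hs hlam
  have hc0 : 0 < |c| := lt_of_lt_of_le (by positivity) hcg
  have hc1 : c ≠ 0 := abs_pos.mp hc0
  have hci : 1 / |c| ≤ 4 * L ^ 2 / μ := by
    rw [div_le_div_iff₀ hc0 hμ]
    rw [div_le_iff₀ (by positivity)] at hcg
    linarith
  refine ⟨hL, hμ, D.hμ1, D.hE, D.hG, D.hd, D.hA, D.hAμ, D.hp, D.ht, D.htμ, D.hu, D.hu', D.hδ, D.g0,
    D.g1, ?_, D.g3, D.g4, D.g5⟩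
  intro i
  have h1 := D.g2 i
  have h2 := sy_le (G := fun a b => G' a b - c * G a b) (M := u') hs D.hu' i
  rw [← sy_lin] at h2
  obtain ⟨S, hS⟩ : ∃ S, S = ∑ j, n1 i j * (p j + t * ![1, E] j) := ⟨_, rfl⟩
  have hS' : ∑ j, n1 i j / c * (p j + t * ![1, E] j) = S / c := by
    rw [hS, Finset.sum_div]
    exact Finset.sum_congr rfl fun j _ => by ring
  rw [← hS] at h1
  rw [hS']
  have key : sy G u' i - n0 i / c - S / c =
      ((sy G' u' i - n0 i - S) - (sy G' u' i - c * sy G u' i)) / c := by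
    field_simp
    ring
  rw [key, abs_div, div_eq_mul_one_div]
  have h3 := abs_sub (sy G' u' i - n0 i - S) (sy G' u' i - c * sy G u' i)
  have h4 : |sy G' u' i - n0 i - S - (sy G' u' i - c * sy G u' i)| ≤
      η + 2 * (2 * L * μ₁ / μ) * L := by linarith
  have h5 := mul_le_mul h4 hci (by positivity) (by positivity)
  refine h5.trans (le_of_eq ?_)
  field_simp
  ring

/-! ### The join -/

open Pool.Agent.H49.Ent Pool.Agent.H32.Dense Pool.STK Pool.D2A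
open Pool.BFL (Pb)
open Polynomial (natDegree)

theorem fE_pB (E : ℝ) (D : Fin 3 → ℝ) : (pB D).eval E = fE E D := by
  rw [pB_eval]
  rfl

theorem fE_pC (E : ℝ) (M : Fin 3 → Fin 2 → ℝ) :
    (pC M).eval E = fE E (fun i => M i 0 + M i 1 * E) := by
  rw [pC_eval]
  rfl

/-- The coefficients of the own relation. -/
def oR (E : ℝ) (M₁ N₁ : Fin 3 → Fin 2 → ℝ) (j : Fin 3) : ℝ :=
  if j = 0 then fE E (fun i => N₁ i 0 - M₁ i 0)
  else if j = 1 then fE E (fun i => N₁ i 1 - M₁ i 1)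
  else fE E (fun i => N₁ i 0 + N₁ i 1 * E)

/-- The coefficients of the own number. -/
def oN (E a : ℝ) (T : Fin 2 → ℝ) (M₁ : Fin 3 → Fin 2 → ℝ) (j : Fin 3) : ℝ :=
  if j = 0 then T 0 + a * fE E (fun i => M₁ i 0)
  else if j = 1 then T 1 + a * fE E (fun i => M₁ i 1)
  else 0

theorem oR0 (E : ℝ) (M₁ N₁ : Fin 3 → Fin 2 → ℝ) :
    oR E M₁ N₁ 0 = fE E (fun i => N₁ i 0 - M₁ i 0) := by
  simp [oR]

theorem oR1 (E : ℝ) (M₁ N₁ : Fin 3 → Fin 2 → ℝ) :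
    oR E M₁ N₁ 1 = fE E (fun i => N₁ i 1 - M₁ i 1) := by
  simp [oR]

theorem oR2 (E : ℝ) (M₁ N₁ : Fin 3 → Fin 2 → ℝ) :
    oR E M₁ N₁ 2 = fE E (fun i => N₁ i 0 + N₁ i 1 * E) := by
  simp [oR]

theorem oN0 (E a : ℝ) (T : Fin 2 → ℝ) (M₁ : Fin 3 → Fin 2 → ℝ) :
    oN E a T M₁ 0 = T 0 + a * fE E (fun i => M₁ i 0) := by
  simp [oN]

theorem oN1 (E a : ℝ) (T : Fin 2 → ℝ) (M₁ : Fin 3 → Fin 2 → ℝ) :
    oN E a T M₁ 1 = T 1 + a * fE E (fun i => M₁ i 1) := by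
  simp [oN]

theorem oN2 (E a : ℝ) (T : Fin 2 → ℝ) (M₁ : Fin 3 → Fin 2 → ℝ) : oN E a T M₁ 2 = 0 := by
  simp [oN]

/-- The error of the germ of the second sample. -/
noncomputable def eA (L μ η μ₁ : ℝ) : ℝ := 16 * L ^ 4 * μ₁ / μ ^ 2 + 4 * L ^ 2 * η / μ

/-- The error of the own relation. -/
noncomputable def eR (L μ η μ₁ : ℝ) : ℝ := 4 * L ^ 2 * (2 * η + eA L μ η μ₁)

theorem scl {S : ℝ} (hS : S ≠ 0) (x y z w a b c : ℝ) :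
    x * a + y * b + z * c + S * w = S * (x * (a / S) + y * (b / S) + z * (c / S) + w) := by
  field_simp

theorem scl' {S : ℝ} (hS : S ≠ 0) (x y w v a b c : ℝ) :
    x * a + y * b + 0 * c + S * (w - v / S) = S * (x * (a / S) + y * (b / S) + (w - v / S)) := by
  field_simp
  ring

/-- The comparison of the errors. -/
theorem errs {k g : ℕ} {μ₁ μ₂ μ₃ : ℝ} (hL : 1 ≤ L) (hμ : 0 < μ) (hμ1 : μ ≤ 1) (hη : 0 ≤ η)
    (hδ : 0 ≤ δ) (h1 : ((3 + 2 * L) * 2 ^ k) ^ 3 * (4 * L ^ 2 * δ / μ) < μ₁)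
    (h2 : ((3 + 2 * L) * 2 ^ k) ^ 3 * (eR L μ η μ₁ + 3 * L / 2 ^ g) < μ₂)
    (h3 : ((3 + 2 * L) * 2 ^ k) ^ 3 * (40960 * L ^ 12 * μ₂ / μ ^ 6) < μ₃) :
    eA L μ η μ₁ ≤ eR L μ η μ₁ ∧ eR L μ η μ₁ ≤ μ₂ ∧ 1 / 2 ^ g ≤ μ₂ ∧ 2 * L * η ≤ μ₂ ∧
      η + 8 * L ^ 2 * δ / μ ≤ μ₂ ∧ μ₂ ≤ μ₃ ∧
      η + 8 * L ^ 3 * δ / μ + 16 * L ^ 4 * η / μ ≤ eR L μ η μ₁ ∧ 0 ≤ μ₁ ∧ 0 ≤ μ₂ ∧
      0 ≤ eR L μ η μ₁ := by
  have hF1 : (1 : ℝ) ≤ ((3 + 2 * L) * 2 ^ k) ^ 3 := by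
    apply one_le_pow₀
    have : (1 : ℝ) ≤ 2 ^ k := one_le_pow₀ (by norm_num)
    nlinarith
  have hdrop : ∀ x y : ℝ, 0 ≤ x → ((3 + 2 * L) * 2 ^ k) ^ 3 * x < y → x ≤ y := by
    intro x y hx h
    have : 1 * x ≤ ((3 + 2 * L) * 2 ^ k) ^ 3 * x := mul_le_mul_of_nonneg_right hF1 hx
    linarith
  have hμ₁a : 4 * L ^ 2 * δ / μ ≤ μ₁ := hdrop _ _ (by positivity) h1
  have hμ₁0 : 0 ≤ μ₁ := le_trans (by positivity) hμ₁a
  have heA0 : 0 ≤ eA L μ η μ₁ := by unfold eA; positivity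
  have heR0 : 0 ≤ eR L μ η μ₁ := by unfold eR; positivity
  have hμ₂a : eR L μ η μ₁ + 3 * L / 2 ^ g ≤ μ₂ := hdrop _ _ (by positivity) h2
  have hμ₂0 : 0 ≤ μ₂ := le_trans (by positivity) hμ₂a
  have hμ₃a : 40960 * L ^ 12 * μ₂ / μ ^ 6 ≤ μ₃ := hdrop _ _ (by positivity) h3
  have hL2 : 1 ≤ L ^ 2 := one_le_pow₀ hL
  have hL4 : 1 ≤ L ^ 4 := one_le_pow₀ hL
  have hμ2 : μ ^ 2 ≤ 1 := pow_le_one₀ hμ.le hμ1
  -- comparison of the errors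
  have t1 : 2 * μ₁ ≤ eA L μ η μ₁ := by
    unfold eA
    have a1 : 2 * μ₁ ≤ 16 * L ^ 4 * μ₁ / μ ^ 2 := by
      rw [le_div_iff₀ (by positivity)]
      have : 2 * μ₁ * μ ^ 2 ≤ 2 * μ₁ * 1 := mul_le_mul_of_nonneg_left hμ2 (by linarith)
      nlinarith [mul_nonneg hμ₁0 (by linarith : (0 : ℝ) ≤ L ^ 4 - 1)]
    have a2 : 0 ≤ 4 * L ^ 2 * η / μ := by positivity
    linarith
  have t2 : eA L μ η μ₁ ≤ eR L μ η μ₁ := by
    unfold eR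
    nlinarith [mul_nonneg (by linarith : (0 : ℝ) ≤ L ^ 2 - 1) heA0,
      mul_nonneg (by linarith : (0 : ℝ) ≤ L ^ 2) hη]
  have t2' : 8 * L ^ 2 * η + 4 * L ^ 2 * eA L μ η μ₁ = eR L μ η μ₁ := by
    unfold eR
    ring
  have t3 : eR L μ η μ₁ ≤ μ₂ := by
    have : 0 ≤ 3 * L / 2 ^ g := by positivity
    linarith
  have t4 : 1 / 2 ^ g ≤ μ₂ := by
    have a1 : (1 : ℝ) / 2 ^ g ≤ 3 * L / 2 ^ g := by
      apply div_le_div_of_nonneg_right _ (by positivity)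
      linarith
    linarith
  have t5 : 2 * L * η ≤ μ₂ := by
    have a1 : 2 * L * η ≤ 8 * L ^ 2 * η := mul_le_mul_of_nonneg_right (by nlinarith) hη
    have a2 : 0 ≤ 4 * L ^ 2 * eA L μ η μ₁ := by positivity
    linarith
  have t6 : η + 8 * L ^ 2 * δ / μ ≤ μ₂ := by
    have a1 : 8 * L ^ 2 * δ / μ = 2 * (4 * L ^ 2 * δ / μ) := by ring
    have a2 : η ≤ 8 * L ^ 2 * η := by nlinarith
    have a3 : eA L μ η μ₁ ≤ 4 * L ^ 2 * eA L μ η μ₁ := by nlinarith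
    rw [a1]
    linarith
  have t7 : μ₂ ≤ μ₃ := by
    refine le_trans ?_ hμ₃a
    rw [le_div_iff₀ (by positivity)]
    have a1 : μ ^ 6 ≤ 1 := pow_le_one₀ hμ.le hμ1
    have a2 : (1 : ℝ) ≤ 40960 * L ^ 12 := by
      have := one_le_pow₀ hL (n := 12)
      linarith
    calc μ₂ * μ ^ 6 ≤ μ₂ * 1 := mul_le_mul_of_nonneg_left a1 hμ₂0
      _ = 1 * μ₂ := by ring
      _ ≤ 40960 * L ^ 12 * μ₂ := mul_le_mul_of_nonneg_right a2 hμ₂0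
  have t8 : η + 8 * L ^ 3 * δ / μ + 16 * L ^ 4 * η / μ ≤ eR L μ η μ₁ := by
    have a1 : 8 * L ^ 3 * δ / μ = 2 * L * (4 * L ^ 2 * δ / μ) := by ring
    have a2 : 2 * L * (4 * L ^ 2 * δ / μ) ≤ 2 * L * μ₁ :=
      mul_le_mul_of_nonneg_left hμ₁a (by linarith)
    have a3 : 2 * L * μ₁ ≤ 4 * L ^ 2 * (16 * L ^ 4 * μ₁ / μ ^ 2) := by
      have b1 : μ₁ ≤ 16 * L ^ 4 * μ₁ / μ ^ 2 := by
        rw [le_div_iff₀ (by positivity)]
        have : μ₁ * μ ^ 2 ≤ μ₁ * 1 := mul_le_mul_of_nonneg_left hμ2 hμ₁0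
        nlinarith [mul_nonneg hμ₁0 (by linarith : (0 : ℝ) ≤ L ^ 4 - 1)]
      exact mul_le_mul (by nlinarith) b1 hμ₁0 (by positivity)
    have a4 : eR L μ η μ₁ = 8 * L ^ 2 * η + 4 * L ^ 2 * (16 * L ^ 4 * μ₁ / μ ^ 2) +
        16 * L ^ 4 * η / μ := by
      unfold eR eA
      ring
    have a5 : η ≤ 8 * L ^ 2 * η := by nlinarith
    rw [a4, a1]
    linarith
  exact ⟨t2, t3, t4, t5, t6, t7, t8, hμ₁0, hμ₂0, heR0⟩

variable {Ω ζ κ ε : Type} [Fintype Ω]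

/-- **Case [2a]: the join on one law.** -/
theorem join2a {q : Ω → ℝ} (hq : IsLaw q) (zc : Ω → ζ) (Wc : Ω → κ) (e0 : Ω → ε) (ek : Ω → ℤ)
    (E0 : ε → ℝ) (A0 T0 : ζ → ε → Fin 2 → ℝ) (b0 : Ω → ℤ)
    (Gm Gm' : κ → ζ → Fin 2 → Fin 2 → ℝ)
    (M0 N0 : κ → ζ → Fin 3 → ℝ) (M1 N1 : κ → ζ → Fin 3 → Fin 2 → ℝ)
    (P : Ω → Fin 2 → ℤ) (u u' : Ω → Fin 2 → Fin 2 → ℤ) (τ : Ω → ℤ) (Ev : Ω → Prop)
    {A s g k : ℕ} {L μ η δ μ₁ μ₂ μ₃ c e1 eH i ρ : ℝ}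
    (hA : 1 ≤ A) (hL : 1 ≤ L) (hμ : 0 < μ) (hμ1 : μ ≤ 1) (hη : 0 ≤ η) (hδ : 0 ≤ δ) (hc : 0 < c)
    (hP : ∀ ω, 0 < q ω → ∀ j, |v3 (P ω) (τ ω) j| ≤ ((A * 2 ^ s : ℕ) : ℤ))
    (hEk : ∀ ω, 0 < q ω → Ev ω → |2 ^ k * E0 (e0 ω) - ek ω| ≤ 1)
    (hD : ∀ ω, 0 < q ω → Ev ω → PtA L μ η δ (E0 (e0 ω)) (τ ω / 2 ^ s) (b0 ω / 2 ^ s)
      (Gm (Wc ω) (zc ω)) (Gm' (Wc ω) (zc ω)) (A0 (zc ω) (e0 ω)) (T0 (zc ω) (e0 ω))
      (fun j => P ω j / 2 ^ s) (fun i j => u ω i j / 2 ^ s) (fun i j => u' ω i j / 2 ^ s)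
      (fun i => M0 (Wc ω) (zc ω) i / 2 ^ s) (fun i => N0 (Wc ω) (zc ω) i / 2 ^ s)
      (M1 (Wc ω) (zc ω)) (N1 (Wc ω) (zc ω)))
    (hfull : 3 * (s * Real.log 2) - e1 ≤
      CH q (fun ω => v3 (P ω) (τ ω)) (fun ω => (e0 ω, (Wc ω, zc ω))))
    (hb0 : CH q b0 (fun ω => (e0 ω, (Wc ω, zc ω))) ≤ eH)
    (hI : CH q ek zc - i ≤ CH q ek (fun ω => (Wc ω, zc ω)))
    (hE : ∀ G' : Ω → Prop, c ≤ law q G' True → ρ ≤ CH (cond q G' True) ek zc)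
    (hn : (i + Real.log 2) / c + Real.log (3 * 3 : ℕ) < ρ)
    (h1 : ((3 + 2 * L) * 2 ^ k) ^ 3 * (4 * L ^ 2 * δ / μ) < μ₁)
    (h11 : 8 * L ^ 2 * μ₁ ≤ μ ^ 2)
    (h2 : ((3 + 2 * L) * 2 ^ k) ^ 3 * (eR L μ η μ₁ + 3 * L / 2 ^ g) < μ₂)
    (h3 : ((3 + 2 * L) * 2 ^ k) ^ 3 * (40960 * L ^ 12 * μ₂ / μ ^ 6) < μ₃)
    (hpos : 0 < ((s : ℝ) - g) * Real.log 2 -
      Real.log (2 * (2 * (2 ^ s * eR L μ η μ₁) + 3 * A + 1) + 1))
    (hN : e1 + eH + Real.log 4 + 3 * Real.log (2 * A + 1) ≤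
      c * (((s : ℝ) - g) * Real.log 2 -
        Real.log (2 * (2 * (2 ^ s * eR L μ η μ₁) + 3 * A + 1) + 1))) :
    Pb q (fun ω => Ev ω ∧ ∃ i j, 80 * L ^ 4 * μ₃ / μ * 2 ^ s < |(u' ω i j : ℝ) - u ω i j|) ≤
      8 * c := by
  classical
  have hq0 := hq.nonneg
  have hs0 : (0 : ℝ) < 2 ^ s := by positivity
  have hg0 : (0 : ℝ) < 1 / 2 ^ g := by positivity
  have heH : 0 ≤ eH := (CH_nonneg hq0 _ _).trans hb0
  obtain ⟨t2, t3, t4, t5, t6, t7, t8, hμ₁0, hμ₂0, heR0⟩ := errs (k := k) (g := g) hL hμ hμ1 hη hδ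
    h1 h2 h3
  -- normalised germs
  obtain ⟨m0, hm0⟩ : ∃ m0 : κ → ζ → Fin 3 → ℝ, m0 = fun w z i => M0 w z i / 2 ^ s := ⟨_, rfl⟩
  obtain ⟨n0, hn0⟩ : ∃ n0 : κ → ζ → Fin 3 → ℝ, n0 = fun w z i =>
    N0 w z i / 2 ^ s / cc (Gm w z) (Gm' w z) := ⟨_, rfl⟩
  obtain ⟨n1, hn1⟩ : ∃ n1 : κ → ζ → Fin 3 → Fin 2 → ℝ, n1 = fun w z i j =>
    N1 w z i j / cc (Gm w z) (Gm' w z) := ⟨_, rfl⟩
  obtain ⟨W, hW⟩ : ∃ W : Ω → ε × (κ × ζ), W = fun ω => (e0 ω, (Wc ω, zc ω)) := ⟨_, rfl⟩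
  rw [← hW] at hfull hb0
  -- reading a polynomial
  have hread : ∀ (Hh : Ω → Prop) (f : κ → ζ → Polynomial ℝ) (x y : ℝ), (∀ ω, Hh ω → Ev ω) →
      ((3 + 2 * L) * 2 ^ k) ^ 3 * x < y →
      (∀ ω, 0 < q ω → Hh ω → (f (Wc ω) (zc ω)).natDegree ≤ 3 ∧
        |(f (Wc ω) (zc ω)).eval (E0 (e0 ω))| ≤ x) →
      Pb q (fun ω => Hh ω ∧ ∃ n, y ≤ |(f (Wc ω) (zc ω)).coeff n|) ≤ c := by
    intro Hh f x y hHh hxy hf
    have h := Pool.D2P.read_poly' hq (fun ω => E0 (e0 ω)) ek Wc zc Hh f (D := 3) (k := k)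
      (R := L) (δ := x) (μ := y) (c := c) (i := i) (r := ρ) (by linarith) hc hxy hI hE
      (fun ω hω hH => ⟨(hD ω hω (hHh ω hH)).hE, hEk ω hω (hHh ω hH)⟩) hf hn
    rw [law_Pb] at h
    exact h.le
  -- step 1
  have S1 := hread Ev (fun w z => pQ (qf (Gm w z) (Gm' w z))) _ _ (fun ω h => h) h1
    (fun ω hω hH => ⟨(pQ_deg _).trans (by norm_num), (hD ω hω hH).qf_le⟩)
  obtain ⟨H1, hH1⟩ : ∃ H1 : Ω → Prop, H1 = fun ω => Ev ω ∧ ∀ n,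
    |(pQ (qf (Gm (Wc ω) (zc ω)) (Gm' (Wc ω) (zc ω)))).coeff n| < μ₁ := ⟨_, rfl⟩
  have H1E : ∀ ω, H1 ω → Ev ω := fun ω h => by
    rw [hH1] at h
    exact h.1
  have hB : ∀ ω, 0 < q ω → H1 ω → PtB L μ η (eA L μ η μ₁) δ (E0 (e0 ω)) (τ ω / 2 ^ s)
      (b0 ω / 2 ^ s) (Gm (Wc ω) (zc ω)) (A0 (zc ω) (e0 ω)) (T0 (zc ω) (e0 ω))
      (fun j => P ω j / 2 ^ s) (fun i j => u ω i j / 2 ^ s) (fun i j => u' ω i j / 2 ^ s)
      (m0 (Wc ω) (zc ω)) (n0 (Wc ω) (zc ω)) (M1 (Wc ω) (zc ω)) (n1 (Wc ω) (zc ω)) := by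
    intro ω hω h
    have hE' := H1E ω h
    rw [hH1] at h
    have := (hD ω hω hE').toB (fun n => (h.2 n).le) h11
    rw [hm0, hn0, hn1]
    exact this
  -- step 2
  obtain ⟨a, ha⟩ : ∃ a : Ω → Fin 3 → ℝ, a = fun ω =>
    oR (E0 (e0 ω)) (M1 (Wc ω) (zc ω)) (n1 (Wc ω) (zc ω)) := ⟨_, rfl⟩
  obtain ⟨β, hβ⟩ : ∃ β : Ω → ℝ, β = fun ω =>
    fE (E0 (e0 ω)) (fun i => n0 (Wc ω) (zc ω) i - m0 (Wc ω) (zc ω) i) := ⟨_, rfl⟩
  obtain ⟨a', ha'⟩ : ∃ a' : Ω → Fin 3 → ℝ, a' = fun ω =>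
    oN (E0 (e0 ω)) (fac (A0 (zc ω) (e0 ω)) (ap (Gm (Wc ω) (zc ω)) ![1, E0 (e0 ω)]))
      (T0 (zc ω) (e0 ω)) (M1 (Wc ω) (zc ω)) := ⟨_, rfl⟩
  obtain ⟨β', hβ'⟩ : ∃ β' : Ω → ℝ, β' = fun ω =>
    fac (A0 (zc ω) (e0 ω)) (ap (Gm (Wc ω) (zc ω)) ![1, E0 (e0 ω)]) *
      fE (E0 (e0 ω)) (m0 (Wc ω) (zc ω)) - b0 ω / 2 ^ s := ⟨_, rfl⟩
  have r1 : ∀ ω, 0 < q ω → H1 ω →
      |∑ j, a ω j * v3 (P ω) (τ ω) j + 2 ^ s * β ω| ≤ 2 ^ s * eR L μ η μ₁ := by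
    intro ω hω h
    have h4 := (hB ω hω h).rel
    have e2 : ∑ j, a ω j * v3 (P ω) (τ ω) j + 2 ^ s * β ω = 2 ^ s *
        (fE (E0 (e0 ω)) (fun i => n1 (Wc ω) (zc ω) i 0 - M1 (Wc ω) (zc ω) i 0) * (P ω 0 / 2 ^ s) +
        fE (E0 (e0 ω)) (fun i => n1 (Wc ω) (zc ω) i 1 - M1 (Wc ω) (zc ω) i 1) * (P ω 1 / 2 ^ s) +
        fE (E0 (e0 ω)) (fun i => n1 (Wc ω) (zc ω) i 0 + n1 (Wc ω) (zc ω) i 1 * E0 (e0 ω)) *
          (τ ω / 2 ^ s) +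
        fE (E0 (e0 ω)) (fun i => n0 (Wc ω) (zc ω) i - m0 (Wc ω) (zc ω) i)) := by
      rw [sum_v3, ha, hβ]
      dsimp only
      rw [oR0, oR1, oR2]
      exact scl hs0.ne' _ _ _ _ _ _ _
    rw [e2, abs_mul, abs_of_pos hs0]
    exact mul_le_mul_of_nonneg_left h4 hs0.le
  have r2 : ∀ ω, 0 < q ω → H1 ω →
      |∑ j, a' ω j * v3 (P ω) (τ ω) j + 2 ^ s * β' ω| ≤ 2 ^ s * eR L μ η μ₁ := by
    intro ω hω h
    have h4 := (hB ω hω h).num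
    obtain ⟨f, hf⟩ : ∃ f, f = fac (A0 (zc ω) (e0 ω)) (ap (Gm (Wc ω) (zc ω)) ![1, E0 (e0 ω)]) :=
      ⟨_, rfl⟩
    rw [← hf] at h4
    have e2 : ∑ j, a' ω j * v3 (P ω) (τ ω) j + 2 ^ s * β' ω = 2 ^ s *
        ((T0 (zc ω) (e0 ω) 0 + f * fE (E0 (e0 ω)) (fun i => M1 (Wc ω) (zc ω) i 0)) *
          (P ω 0 / 2 ^ s) +
        (T0 (zc ω) (e0 ω) 1 + f * fE (E0 (e0 ω)) (fun i => M1 (Wc ω) (zc ω) i 1)) *
          (P ω 1 / 2 ^ s) +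
        (f * fE (E0 (e0 ω)) (m0 (Wc ω) (zc ω)) - b0 ω / 2 ^ s)) := by
      rw [sum_v3, ha', hβ']
      dsimp only
      rw [← hf, oN0, oN1, oN2]
      exact scl' hs0.ne' _ _ _ _ _ _ _
    rw [e2, abs_mul, abs_of_pos hs0]
    exact mul_le_mul_of_nonneg_left (h4.trans t8) hs0.le
  have hcell1 : CH q (fun ω => cl s (a ω) (β ω)) W ≤ 0 := by
    refine le_of_eq (CH_eq_zero hq0 ?_)
    intro ω ω' _ _ h
    rw [hW] at h
    simp only [Prod.mk.injEq] at h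
    obtain ⟨x1, x2, x3⟩ := h
    rw [ha, hβ]
    simp only [x1, x2, x3]
  have hcell2 : CH q (fun ω => cl s (a' ω) (β' ω)) W ≤ eH := by
    refine (CH_mono_left hq0 ?_).trans hb0
    intro ω ω' _ _ h
    rw [hW] at h
    simp only [Prod.mk.injEq] at h
    obtain ⟨x0, x1, x2, x3⟩ := h
    rw [ha', hβ']
    simp only [x0, x1, x2, x3]
  have hfull' : ((3 : ℕ) : ℝ) * (s * Real.log 2) - e1 ≤ CH q (fun ω => v3 (P ω) (τ ω)) W := by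
    push_cast
    exact hfull
  have hDD : 0 ≤ 2 ^ s * eR L μ η μ₁ := by positivity
  obtain ⟨X, hX⟩ : ∃ X : ℝ, X = ((s : ℝ) - g) * Real.log 2 -
    Real.log (2 * (2 * (2 ^ s * eR L μ η μ₁) + 3 * A + 1) + 1) := ⟨_, rfl⟩
  rw [← hX] at hpos hN
  have q1 := read_lin hq W hA s g (fun ω => v3 (P ω) (τ ω)) a β H1 hDD hP hfull' hcell1 r1
  have q2 := read_lin hq W hA s g (fun ω => v3 (P ω) (τ ω)) a' β' H1 hDD hP hfull' hcell2 r2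
  push_cast at q1 q2
  rw [← hX] at q1 q2
  have e4 : (3 : ℝ) + 1 = 4 := by norm_num
  rw [e4] at q1 q2
  have S2 : Pb q (fun ω => H1 ω ∧ ∃ j, 1 / 2 ^ g ≤ |a ω j|) ≤ c :=
    le_of_read hpos q1 (by linarith)
  have S3 : Pb q (fun ω => H1 ω ∧ ∃ j, 1 / 2 ^ g ≤ |a' ω j|) ≤ c :=
    le_of_read hpos q2 (by linarith)
  -- step 3
  obtain ⟨H2, hH2⟩ : ∃ H2 : Ω → Prop, H2 = fun ω => H1 ω ∧ ∀ j, |a ω j| < 1 / 2 ^ g := ⟨_, rfl⟩
  have H21 : ∀ ω, H2 ω → H1 ω := fun ω h => by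
    rw [hH2] at h
    exact h.1
  have hgR : (1 : ℝ) / 2 ^ g ≤ eR L μ η μ₁ + 3 * L / 2 ^ g := by
    have a1 : (1 : ℝ) / 2 ^ g ≤ 3 * L / 2 ^ g := by
      apply div_le_div_of_nonneg_right _ (by positivity)
      linarith
    linarith
  have S4 := hread H2 (fun w z => pB (fun i => n1 w z i 0 - M1 w z i 0)) _ _
    (fun ω h => H1E ω (H21 ω h)) h2
    (fun ω hω hH => ⟨(pB_deg _).trans (by norm_num), by
      rw [hH2] at hH
      have h4 := hH.2 0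
      rw [ha] at h4
      simp only [oR0] at h4
      rw [fE_pB]
      exact h4.le.trans hgR⟩)
  have S5 := hread H2 (fun w z => pB (fun i => n1 w z i 1 - M1 w z i 1)) _ _
    (fun ω h => H1E ω (H21 ω h)) h2
    (fun ω hω hH => ⟨(pB_deg _).trans (by norm_num), by
      rw [hH2] at hH
      have h4 := hH.2 1
      rw [ha] at h4
      simp only [oR1] at h4
      rw [fE_pB]
      exact h4.le.trans hgR⟩)
  have S6 := hread H2 (fun w z => pC (n1 w z)) _ _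
    (fun ω h => H1E ω (H21 ω h)) h2
    (fun ω hω hH => ⟨pC_deg _, by
      rw [hH2] at hH
      have h4 := hH.2 2
      rw [ha] at h4
      simp only [oR2] at h4
      rw [fE_pC]
      exact h4.le.trans hgR⟩)
  have S7 := hread H2 (fun w z => pB (fun i => n0 w z i - m0 w z i)) _ _
    (fun ω h => H1E ω (H21 ω h)) h2
    (fun ω hω hH => ⟨(pB_deg _).trans (by norm_num), by
      have hB' := hB ω hω (H21 ω hH)
      have h4 := hB'.rel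
      rw [hH2] at hH
      have k0 := hH.2 0
      have k1 := hH.2 1
      have k2 := hH.2 2
      rw [ha] at k0 k1 k2
      simp only [oR0, oR1, oR2] at k0 k1 k2
      rw [fE_pB]
      have p0 := hB'.hp 0
      have p1 := hB'.hp 1
      have p2 := hB'.ht
      have m : ∀ x y : ℝ, |x| < 1 / 2 ^ g → |y| ≤ L → |x * y| ≤ L / 2 ^ g := by
        intro x y hx hy
        rw [abs_mul]
        refine (mul_le_mul hx.le hy (abs_nonneg _) hg0.le).trans (le_of_eq ?_)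
        ring
      have j0 := abs_le.mp (m _ _ k0 p0)
      have j1 := abs_le.mp (m _ _ k1 p1)
      have j2 := abs_le.mp (m _ _ k2 p2)
      have h5 := abs_le.mp h4
      have e5 : 3 * L / 2 ^ g = L / 2 ^ g + L / 2 ^ g + L / 2 ^ g := by ring
      have e6 : eR L μ η μ₁ = 4 * L ^ 2 * (2 * η + eA L μ η μ₁) := rfl
      rw [e5, e6, abs_le]
      constructor <;> linarith [h5.1, h5.2, j0.1, j0.2, j1.1, j1.2, j2.1, j2.2]⟩)
  -- step 4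
  obtain ⟨H3, hH3⟩ : ∃ H3 : Ω → Prop, H3 = fun ω => H2 ω ∧ (∀ j, |a' ω j| < 1 / 2 ^ g) ∧
    (∀ n, |(pB (fun i => n1 (Wc ω) (zc ω) i 0 - M1 (Wc ω) (zc ω) i 0)).coeff n| < μ₂) ∧
    (∀ n, |(pB (fun i => n1 (Wc ω) (zc ω) i 1 - M1 (Wc ω) (zc ω) i 1)).coeff n| < μ₂) ∧
    (∀ n, |(pC (n1 (Wc ω) (zc ω))).coeff n| < μ₂) ∧
    (∀ n, |(pB (fun i => n0 (Wc ω) (zc ω) i - m0 (Wc ω) (zc ω) i)).coeff n| < μ₂) := ⟨_, rfl⟩
  have key : ∀ ω, 0 < q ω → H3 ω → H1 ω ∧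
      (∀ i, |n0 (Wc ω) (zc ω) i - m0 (Wc ω) (zc ω) i| ≤ μ₂) ∧
      (∀ i j, |n1 (Wc ω) (zc ω) i j - M1 (Wc ω) (zc ω) i j| ≤ μ₂) ∧
      (|n1 (Wc ω) (zc ω) 0 0| ≤ μ₂ ∧ |n1 (Wc ω) (zc ω) 0 1 + 2 * n1 (Wc ω) (zc ω) 1 0| ≤ μ₂ ∧
        |2 * n1 (Wc ω) (zc ω) 1 1 + n1 (Wc ω) (zc ω) 2 0| ≤ μ₂ ∧
        |n1 (Wc ω) (zc ω) 2 1| ≤ μ₂) := by
    intro ω hω h
    rw [hH3] at h
    obtain ⟨x1, x2, x3, x4, x5, x6⟩ := h
    refine ⟨H21 ω x1, rdB (fun n => (x6 n).le), ?_, rdC (fun n => (x5 n).le)⟩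
    intro i
    refine Fin.forall_fin_two.mpr ⟨?_, ?_⟩
    · exact rdB (fun n => (x3 n).le) i
    · exact rdB (fun n => (x4 n).le) i
  have S8 := hread H3 (fun w z => pA ![n1 w z 1 0, -n1 w z 1 1]) _ _
    (fun ω h => by
      rw [hH3] at h
      exact H1E ω (H21 ω h.1)) h3
    (fun ω hω hH => ⟨(pA_deg _).trans (by norm_num), by
      obtain ⟨y1, y2, y3, y4, y5, y6, y7⟩ := key ω hω hH
      have hB' := hB ω hω y1
      have z1 : |T0 (zc ω) (e0 ω) 1 + fac (A0 (zc ω) (e0 ω))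
          (ap (Gm (Wc ω) (zc ω)) ![1, E0 (e0 ω)]) *
          fE (E0 (e0 ω)) (fun i => M1 (Wc ω) (zc ω) i 1)| ≤ μ₂ := by
        rw [hH3] at hH
        have h4 := hH.2.1 1
        rw [ha'] at h4
        simp only [oN1] at h4
        exact h4.le.trans t4
      have z2 := hB'.dir (t2.trans t3) t5 t6 y2 y3 y4 y5 y6 y7 z1
      rw [pA_eval]
      simp only [Matrix.cons_val_zero, Matrix.cons_val_one]
      refine le_trans (le_of_eq ?_) z2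
      congr 1
      ring⟩)
  -- the union
  have hU : ∀ ω, 0 < q ω → (Ev ω ∧ ∃ i j, 80 * L ^ 4 * μ₃ / μ * 2 ^ s <
      |(u' ω i j : ℝ) - u ω i j|) →
      ((Ev ω ∧ ∃ n, μ₁ ≤ |(pQ (qf (Gm (Wc ω) (zc ω)) (Gm' (Wc ω) (zc ω)))).coeff n|) ∨
        ((H1 ω ∧ ∃ j, 1 / 2 ^ g ≤ |a ω j|) ∨ (H1 ω ∧ ∃ j, 1 / 2 ^ g ≤ |a' ω j|))) ∨
      (((H2 ω ∧ ∃ n, μ₂ ≤
          |(pB (fun i => n1 (Wc ω) (zc ω) i 0 - M1 (Wc ω) (zc ω) i 0)).coeff n|) ∨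
        (H2 ω ∧ ∃ n, μ₂ ≤
          |(pB (fun i => n1 (Wc ω) (zc ω) i 1 - M1 (Wc ω) (zc ω) i 1)).coeff n|)) ∨
       ((H2 ω ∧ ∃ n, μ₂ ≤ |(pC (n1 (Wc ω) (zc ω))).coeff n|) ∨
        ((H2 ω ∧ ∃ n, μ₂ ≤
          |(pB (fun i => n0 (Wc ω) (zc ω) i - m0 (Wc ω) (zc ω) i)).coeff n|) ∨
         (H3 ω ∧ ∃ n, μ₃ ≤
          |(pA ![n1 (Wc ω) (zc ω) 1 0, -n1 (Wc ω) (zc ω) 1 1]).coeff n|)))) := by
    rintro ω hω ⟨hG, i', j', hj⟩
    by_contra hcon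
    simp only [not_or] at hcon
    obtain ⟨⟨n1', n2', n3'⟩, ⟨n4', n5'⟩, n6', n7', n8'⟩ := hcon
    have k1 : H1 ω := by
      rw [hH1]
      exact ⟨hG, fun n => by
        by_contra h
        exact n1' ⟨hG, n, not_lt.mp h⟩⟩
    have k2 : H2 ω := by
      rw [hH2]
      exact ⟨k1, fun j => by
        by_contra h
        exact n2' ⟨k1, j, not_lt.mp h⟩⟩
    have k3 : H3 ω := by
      rw [hH3]
      refine ⟨k2, fun j => ?_, fun n => ?_, fun n => ?_, fun n => ?_, fun n => ?_⟩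
      · by_contra h
        exact n3' ⟨k1, j, not_lt.mp h⟩
      · by_contra h
        exact n4' ⟨k2, n, not_lt.mp h⟩
      · by_contra h
        exact n5' ⟨k2, n, not_lt.mp h⟩
      · by_contra h
        exact n6' ⟨k2, n, not_lt.mp h⟩
      · by_contra h
        exact n7' ⟨k2, n, not_lt.mp h⟩
    have k4 : ∀ n, |(pA ![n1 (Wc ω) (zc ω) 1 0, -n1 (Wc ω) (zc ω) 1 1]).coeff n| ≤ μ₃ := by
      intro n
      by_contra h
      exact n8' ⟨k3, n, (not_le.mp h).le⟩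
    have k5 := rdA k4
    have k6 := k5 0
    have k7 := k5 1
    simp only [Matrix.cons_val_zero, Matrix.cons_val_one, abs_neg] at k6 k7
    obtain ⟨y1, y2, y3, y4, y5, y6, y7⟩ := key ω hω k3
    have hB' := hB ω hω y1
    have hην : η ≤ μ₂ := by
      have : 0 ≤ 8 * L ^ 2 * δ / μ := by positivity
      linarith
    have z := hB'.fin (ν := μ₃) ((t2.trans t3).trans t7) (t5.trans t7) (hην.trans t7)
      (fun i => (y2 i).trans t7) (fun i j => (y3 i j).trans t7) (y4.trans t7) (y5.trans t7)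
      (y6.trans t7) (y7.trans t7) k6 k7 i' j'
    have z2 : |(u' ω i' j' : ℝ) / 2 ^ s - u ω i' j' / 2 ^ s| * 2 ^ s =
        |(u' ω i' j' : ℝ) - u ω i' j'| := by
      rw [← sub_div, abs_div, abs_of_pos hs0]
      field_simp
    have z3 := mul_le_mul_of_nonneg_right z hs0.le
    rw [z2] at z3
    linarith
  refine (Pb_sub hq0 hU).trans ?_
  refine (Pb_or hq0 _ _).trans ?_
  refine (add_le_add ((Pb_or hq0 _ _).trans (add_le_add S1 ((Pb_or hq0 _ _).trans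
    (add_le_add S2 S3)))) ((Pb_or hq0 _ _).trans (add_le_add ((Pb_or hq0 _ _).trans
    (add_le_add S4 S5)) ((Pb_or hq0 _ _).trans (add_le_add S6 ((Pb_or hq0 _ _).trans
    (add_le_add S7 S8))))))).trans ?_
  linarith

end Pool.D2JA
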