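import Pool.Agent.H90.D2.PrA
import Pool.Agent.H90.D2.JnA

/-!
# D2, `(1,2,2;3)`, both rough, case [2a], in the law of the pair with its copies

`germ3`: the germ of the symmetric form from three copies. `c6_a`: if the own functional lies in the
span of three copies with probability at least `c₂`, the slopes of two samples of one line agree with
probability at least `c₂ ^ 2 - small`.
-/

set_option autoImplicit false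

namespace Pool.D2N

open Finset Real
open Pool.Agent.H49.Ent Pool.Agent.H32.Dense Pool.STK
open Pool.K2S
open Pool.KM7 (P2 P2_isLaw P2_pos)
open Pool.D2A Pool.D2T Pool.D2G Pool.D2JA

/-! ### Real germs -/

/-- **The germ is affine in the point**, real numbers. -/
theorem germR {d k : ℕ} (φ : Matrix (Fin d) (Fin d) ℝ) (ψ : Fin d → Fin k → ℝ) (β V : Fin d → ℝ)
    (P : Fin k → ℝ) {B κ D : ℝ} (hB1 : 1 ≤ B) (hκ : 0 < κ) (hφ : ∀ i j, |φ i j| ≤ B)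
    (hdet : κ ≤ |φ.det|)
    (hrel : ∀ a, |β a - ∑ j, φ a j * V j - ∑ j, ψ a j * P j| ≤ D) (i : Fin d) :
    |V i - (∑ a, φ⁻¹ i a * β a) - ∑ j, (-∑ a, φ⁻¹ i a * ψ a j) * P j| ≤ cK d B κ * D := by
  have hne : φ.det ≠ 0 := by
    intro h
    rw [h, abs_zero] at hdet
    linarith
  have hu : IsUnit φ.det := isUnit_iff_ne_zero.mpr hne
  have hinv : ∀ (v : Fin d → ℝ) (a : Fin d), ∑ j, φ a j * (∑ c, φ⁻¹ j c * v c) = v a := by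
    intro v a
    have h1 : φ * φ⁻¹ = 1 := Matrix.mul_nonsing_inv φ hu
    have h2 := congrFun (congrArg (fun M : Matrix (Fin d) (Fin d) ℝ => M.mulVec v) h1) a
    rw [Matrix.one_mulVec, ← Matrix.mulVec_mulVec] at h2
    exact h2
  have e1 : ∀ j, (∑ a, φ⁻¹ j a * β a) + ∑ c, (-∑ a, φ⁻¹ j a * ψ a c) * P c =
      ∑ a, φ⁻¹ j a * (β a - ∑ c, ψ a c * P c) := by
    intro j
    have h1 : ∑ c, (-∑ a, φ⁻¹ j a * ψ a c) * P c = -∑ a, φ⁻¹ j a * ∑ c, ψ a c * P c := by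
      simp only [neg_mul, Finset.sum_neg_distrib, Finset.sum_mul, Finset.mul_sum]
      rw [Finset.sum_comm]
      congr 1
      exact Finset.sum_congr rfl fun a _ => Finset.sum_congr rfl fun c _ => by ring
    rw [h1, ← sub_eq_add_neg, ← Finset.sum_sub_distrib]
    exact Finset.sum_congr rfl fun a _ => by ring
  have h2 := cramer_cK φ (fun j => V j - (∑ a, φ⁻¹ j a * β a) -
    ∑ c, (-∑ a, φ⁻¹ j a * ψ a c) * P c) hB1 hφ hκ hdet (τ := D) (by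
      intro a
      have e2 : ∑ j, φ a j * (V j - (∑ a, φ⁻¹ j a * β a) - ∑ c, (-∑ a, φ⁻¹ j a * ψ a c) * P c) =
          ∑ j, φ a j * V j - (β a - ∑ c, ψ a c * P c) := by
        rw [← hinv (fun a => β a - ∑ c, ψ a c * P c) a, ← Finset.sum_sub_distrib]
        refine Finset.sum_congr rfl fun j _ => ?_
        rw [← e1]
        ring
      have e3 : ∑ j, φ a j * V j - (β a - ∑ c, ψ a c * P c) =
          -(β a - ∑ j, φ a j * V j - ∑ c, ψ a c * P c) := by ring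
      rw [e2, e3, abs_neg]
      exact hrel a) i
  exact h2

/-- The size of the solution. -/
theorem germR_le {d : ℕ} (φ : Matrix (Fin d) (Fin d) ℝ) (v : Fin d → ℝ) {B κ D : ℝ} (hB1 : 1 ≤ B)
    (hκ : 0 < κ) (hφ : ∀ i j, |φ i j| ≤ B) (hdet : κ ≤ |φ.det|) (hv : ∀ a, |v a| ≤ D)
    (i : Fin d) : |∑ a, φ⁻¹ i a * v a| ≤ cK d B κ * D := by
  have hne : φ.det ≠ 0 := by
    intro h
    rw [h, abs_zero] at hdet
    linarith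
  have hu : IsUnit φ.det := isUnit_iff_ne_zero.mpr hne
  refine cramer_cK φ (fun j => ∑ a, φ⁻¹ j a * v a) hB1 hφ hκ hdet (τ := D) (fun a => ?_) i
  have h1 : φ * φ⁻¹ = 1 := Matrix.mul_nonsing_inv φ hu
  have h2 := congrFun (congrArg (fun M : Matrix (Fin d) (Fin d) ℝ => M.mulVec v) h1) a
  rw [Matrix.one_mulVec, ← Matrix.mulVec_mulVec] at h2
  have h3 : ∑ b, φ a b * ∑ c, φ⁻¹ b c * v c = v a := h2
  rw [h3]
  exact hv a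

/-! ### Three copies -/

/-- The direction. -/
def xe (E : ℝ) : Fin 2 → ℝ := ![1, E]

/-- The matrix of three copies. -/
def g3m (Aa : Fin 3 → Fin 2 → ℝ) (Ea : Fin 3 → ℝ) : Fin 2 → Fin 2 → ℝ :=
  gm (Aa 0) (xe (Ea 0)) (Aa 1) (xe (Ea 1)) (Aa 2) (xe (Ea 2))

/-- The factors of the copies. -/
def k3 (Aa : Fin 3 → Fin 2 → ℝ) (Ea : Fin 3 → ℝ) (a : Fin 3) : ℝ :=
  if a = 0 then w2 (Aa 2) (Aa 1) * w2 (xe (Ea 0)) (xe (Ea 2)) * w2 (xe (Ea 0)) (xe (Ea 1))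
  else if a = 1 then
    w2 (Aa 0) (Aa 2) * w2 (xe (Ea 2)) (xe (Ea 1)) * w2 (xe (Ea 0)) (xe (Ea 1))
  else w2 (xe (Ea 2)) (xe (Ea 1)) * w2 (xe (Ea 0)) (xe (Ea 2)) * w2 (Aa 0) (Aa 1)

/-- The rows of the copies. -/
noncomputable def f3 (Ea : Fin 3 → ℝ) : Matrix (Fin 3) (Fin 3) ℝ :=
  Matrix.of ![rw3 1 (Ea 0), rw3 1 (Ea 1), rw3 1 (Ea 2)]

/-- The constant part of the germ. -/
noncomputable def m30 (Aa : Fin 3 → Fin 2 → ℝ) (Ea ba : Fin 3 → ℝ) (i : Fin 3) : ℝ :=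
  ∑ a, (f3 Ea)⁻¹ i a * (k3 Aa Ea a * ba a)

/-- The linear part of the germ. -/
noncomputable def m31 (Aa : Fin 3 → Fin 2 → ℝ) (Ea : Fin 3 → ℝ) (Ta : Fin 3 → Fin 2 → ℝ)
    (i : Fin 3) (j : Fin 2) : ℝ :=
  -∑ a, (f3 Ea)⁻¹ i a * (k3 Aa Ea a * Ta a j)

theorem ap_g3m (Aa : Fin 3 → Fin 2 → ℝ) (Ea : Fin 3 → ℝ) (a : Fin 3) (i : Fin 2) :
    ap (g3m Aa Ea) (xe (Ea a)) i = k3 Aa Ea a * Aa a i := by
  have h2 : (2 : Fin 3) ≠ 0 := by decide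
  have h3 : (2 : Fin 3) ≠ 1 := by decide
  have h4 : (1 : Fin 3) ≠ 0 := by decide
  unfold g3m k3
  fin_cases a
  · show ap (gm (Aa 0) (xe (Ea 0)) (Aa 1) (xe (Ea 1)) (Aa 2) (xe (Ea 2))) (xe (Ea 0)) i = _
    rw [gm_one]
    rfl
  · show ap (gm (Aa 0) (xe (Ea 0)) (Aa 1) (xe (Ea 1)) (Aa 2) (xe (Ea 2))) (xe (Ea 1)) i = _
    rw [gm_two]
    rfl
  · show ap (gm (Aa 0) (xe (Ea 0)) (Aa 1) (xe (Ea 1)) (Aa 2) (xe (Ea 2))) (xe (Ea 2)) i = _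
    rw [gm_three]
    rfl

theorem w2_xe (E F : ℝ) : w2 (xe E) (xe F) = F - E := by
  unfold w2 xe
  simp

theorem w2_le {L : ℝ} {u v : Fin 2 → ℝ} (hu : ∀ i, |u i| ≤ L) (hv : ∀ i, |v i| ≤ L) :
    |w2 u v| ≤ 2 * L ^ 2 := by
  have hL : 0 ≤ L := (abs_nonneg _).trans (hu 0)
  unfold w2
  have h1 : |u 0 * v 1| ≤ L * L := by
    rw [abs_mul]
    exact mul_le_mul (hu 0) (hv 1) (abs_nonneg _) hL
  have h2 : |u 1 * v 0| ≤ L * L := by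
    rw [abs_mul]
    exact mul_le_mul (hu 1) (hv 0) (abs_nonneg _) hL
  have h3 := abs_sub (u 0 * v 1) (u 1 * v 0)
  nlinarith

theorem k3_le {L : ℝ} (hL : 1 ≤ L) {Aa : Fin 3 → Fin 2 → ℝ} {Ea : Fin 3 → ℝ}
    (hA : ∀ a i, |Aa a i| ≤ L) (hE : ∀ a, |Ea a| ≤ L) (a : Fin 3) : |k3 Aa Ea a| ≤ 8 * L ^ 4 := by
  have h1 : ∀ a b, |w2 (xe (Ea a)) (xe (Ea b))| ≤ 2 * L := by
    intro a b
    rw [w2_xe]
    have := abs_sub (Ea b) (Ea a)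
    linarith [hE a, hE b]
  have h2 : ∀ a b, |w2 (Aa a) (Aa b)| ≤ 2 * L ^ 2 := fun a b => w2_le (hA a) (hA b)
  have h3 : ∀ x y t : ℝ, |x| ≤ 2 * L ^ 2 → |y| ≤ 2 * L → |t| ≤ 2 * L → |x * y * t| ≤ 8 * L ^ 4 := by
    intro x y t hx hy ht
    rw [abs_mul, abs_mul]
    have h4 : |x| * |y| ≤ 2 * L ^ 2 * (2 * L) := mul_le_mul hx hy (abs_nonneg _) (by positivity)
    have h5 : |x| * |y| * |t| ≤ 2 * L ^ 2 * (2 * L) * (2 * L) :=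
      mul_le_mul h4 ht (abs_nonneg _) (by positivity)
    refine h5.trans (le_of_eq ?_)
    ring
  unfold k3
  split_ifs
  · exact h3 _ _ _ (h2 _ _) (h1 _ _) (h1 _ _)
  · exact h3 _ _ _ (h2 _ _) (h1 _ _) (h1 _ _)
  · have e1 : w2 (xe (Ea 2)) (xe (Ea 1)) * w2 (xe (Ea 0)) (xe (Ea 2)) * w2 (Aa 0) (Aa 1) =
      w2 (Aa 0) (Aa 1) * w2 (xe (Ea 2)) (xe (Ea 1)) * w2 (xe (Ea 0)) (xe (Ea 2)) := by ring
    rw [e1]
    exact h3 _ _ _ (h2 _ _) (h1 _ _) (h1 _ _)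

theorem rw3_le {L E : ℝ} (hL : 1 ≤ L) (hE : |E| ≤ L) (j : Fin 3) : |rw3 1 E j| ≤ 2 * L ^ 2 := by
  unfold rw3
  fin_cases j
  · show |(1 : ℝ)| ≤ 2 * L ^ 2
    rw [abs_one]
    nlinarith
  · show |1 * (2 * E)| ≤ 2 * L ^ 2
    rw [one_mul, abs_mul, abs_two]
    nlinarith
  · show |1 * E ^ 2| ≤ 2 * L ^ 2
    rw [one_mul, abs_pow]
    have := pow_le_pow_left₀ (abs_nonneg E) hE 2
    nlinarith

theorem f3_le {L : ℝ} (hL : 1 ≤ L) {Ea : Fin 3 → ℝ} (hE : ∀ a, |Ea a| ≤ L) (i j : Fin 3) :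
    |f3 Ea i j| ≤ 2 * L ^ 2 := by
  unfold f3
  fin_cases i
  · exact rw3_le hL (hE 0) j
  · exact rw3_le hL (hE 1) j
  · exact rw3_le hL (hE 2) j

theorem f3_det {q : ℝ} (hq : 0 < q) {Ea : Fin 3 → ℝ} (h01 : q ≤ |Ea 0 - Ea 1|)
    (h02 : q ≤ |Ea 0 - Ea 2|) (h12 : q ≤ |Ea 1 - Ea 2|) : 2 * q ^ 3 ≤ |(f3 Ea).det| := by
  unfold f3
  have e0 : 2 * ((1 : ℝ) * 1 * 1) * ((Ea 1 - Ea 0) * (Ea 2 - Ea 0) * (Ea 2 - Ea 1)) =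
    2 * ((Ea 1 - Ea 0) * (Ea 2 - Ea 0) * (Ea 2 - Ea 1)) := by ring
  rw [det_rw3, e0, abs_mul, abs_mul, abs_mul, abs_two]
  rw [abs_sub_comm] at h01 h02 h12
  have h1 : q * q ≤ |Ea 1 - Ea 0| * |Ea 2 - Ea 0| := mul_le_mul h01 h02 hq.le (abs_nonneg _)
  have h2 : q * q * q ≤ |Ea 1 - Ea 0| * |Ea 2 - Ea 0| * |Ea 2 - Ea 1| :=
    mul_le_mul h1 h12 hq.le (by positivity)
  linarith

theorem cK3 {L q : ℝ} (hq : 0 < q) : cK 3 (2 * L ^ 2) (2 * q ^ 3) = 72 * L ^ 6 / q ^ 3 := by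
  unfold cK
  have : (Nat.factorial 3 : ℝ) = 6 := by norm_num [Nat.factorial]
  rw [this]
  field_simp
  push_cast
  ring

/-- **The germ of the symmetric form** from three copies. -/
theorem germ3 {L K q : ℝ} (hL : 1 ≤ L) (hq : 0 < q) {Aa Ta : Fin 3 → Fin 2 → ℝ}
    {Ea ba : Fin 3 → ℝ} {Pt : Fin 2 → ℝ} {U : Fin 2 → Fin 2 → ℝ} (hA : ∀ a i, |Aa a i| ≤ L)
    (hE : ∀ a, |Ea a| ≤ L) (hT : ∀ a j, |Ta a j| ≤ L) (h01 : q ≤ |Ea 0 - Ea 1|)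
    (h02 : q ≤ |Ea 0 - Ea 2|) (h12 : q ≤ |Ea 1 - Ea 2|)
    (hrel : ∀ a, |ba a - ∑ j, Ta a j * Pt j - ∑ i, Aa a i * (U i 0 + Ea a * U i 1)| ≤ K) :
    (∀ i, |sy (g3m Aa Ea) U i - m30 Aa Ea ba i - ∑ j, m31 Aa Ea Ta i j * Pt j| ≤
      576 * L ^ 10 * K / q ^ 3) ∧ (∀ i j, |m31 Aa Ea Ta i j| ≤ 576 * L ^ 11 / q ^ 3) := by
  have hL0 : 0 < L := by linarith
  have hK : 0 ≤ K := (abs_nonneg _).trans (hrel 0)
  have hB : (1 : ℝ) ≤ 2 * L ^ 2 := by nlinarith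
  have hdet := f3_det hq h01 h02 h12
  have hcp : ∀ a, |k3 Aa Ea a * ba a - ∑ j, f3 Ea a j * sy (g3m Aa Ea) U j -
      ∑ j, k3 Aa Ea a * Ta a j * Pt j| ≤ 8 * L ^ 4 * K := by
    intro a
    have h1 : ∑ j, f3 Ea a j * sy (g3m Aa Ea) U j =
        sy (g3m Aa Ea) U 0 + 2 * Ea a * sy (g3m Aa Ea) U 1 + Ea a ^ 2 * sy (g3m Aa Ea) U 2 := by
      have h2 : ∀ j, f3 Ea a j = rw3 1 (Ea a) j := by
        intro j
        unfold f3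
        fin_cases a <;> rfl
      rw [Fin.sum_univ_three, h2, h2, h2]
      unfold rw3
      simp only [Matrix.cons_val_zero, Matrix.cons_val_one]
      show 1 * sy (g3m Aa Ea) U 0 + 1 * (2 * Ea a) * sy (g3m Aa Ea) U 1 +
        1 * Ea a ^ 2 * sy (g3m Aa Ea) U 2 = _
      ring
    have h2 := sy_form (g3m Aa Ea) U (Ea a)
    have h3 := ap_g3m Aa Ea a
    unfold xe at h3
    rw [h3, h3] at h2
    have h4 : ∀ i, ap U ![1, Ea a] i = U i 0 + Ea a * U i 1 := by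
      intro i
      unfold ap
      simp only [Matrix.cons_val_zero, Matrix.cons_val_one]
      ring
    rw [h4, h4] at h2
    have h5 := hrel a
    rw [Fin.sum_univ_two, Fin.sum_univ_two] at h5
    rw [h1, h2, Fin.sum_univ_two]
    have key : k3 Aa Ea a * ba a - (k3 Aa Ea a * Aa a 0 * (U 0 0 + Ea a * U 0 1) +
        k3 Aa Ea a * Aa a 1 * (U 1 0 + Ea a * U 1 1)) -
        (k3 Aa Ea a * Ta a 0 * Pt 0 + k3 Aa Ea a * Ta a 1 * Pt 1) =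
        k3 Aa Ea a * (ba a - (Ta a 0 * Pt 0 + Ta a 1 * Pt 1) -
          (Aa a 0 * (U 0 0 + Ea a * U 0 1) + Aa a 1 * (U 1 0 + Ea a * U 1 1))) := by ring
    rw [key, abs_mul]
    exact mul_le_mul (k3_le hL hA hE a) h5 (abs_nonneg _) (by positivity)
  refine ⟨fun i => ?_, fun i j => ?_⟩
  · have h1 := germR (f3 Ea) (fun a j => k3 Aa Ea a * Ta a j) (fun a => k3 Aa Ea a * ba a)
      (sy (g3m Aa Ea) U) Pt hB (by positivity) (f3_le hL hE) hdet hcp i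
    rw [cK3 hq] at h1
    refine h1.trans (le_of_eq ?_)
    ring
  · have h1 := germR_le (f3 Ea) (fun a => k3 Aa Ea a * Ta a j) hB (by positivity) (f3_le hL hE)
      hdet (D := 8 * L ^ 4 * L) (fun a => by
        rw [abs_mul]
        exact mul_le_mul (k3_le hL hA hE a) (hT a j) (abs_nonneg _) (by positivity)) i
    rw [cK3 hq] at h1
    unfold m31
    rw [abs_neg]
    refine h1.trans (le_of_eq ?_)
    ring

theorem sy_div (G M : Fin 2 → Fin 2 → ℝ) (c : ℝ) (i : Fin 3) :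
    sy G (fun a b => M a b / c) i = sy G M i / c := by
  unfold sy
  fin_cases i
  · simp
    ring
  · simp
    ring
  · simp
    ring

/-- The determinant of the matrix of three copies. -/
theorem g3m_dt {μ₁ q : ℝ} (hμ : 0 < μ₁) (hq : 0 < q) {Aa : Fin 3 → Fin 2 → ℝ} {Ea : Fin 3 → ℝ}
    (a01 : μ₁ ≤ |w2 (Aa 0) (Aa 1)|) (a02 : μ₁ ≤ |w2 (Aa 0) (Aa 2)|)
    (a12 : μ₁ ≤ |w2 (Aa 1) (Aa 2)|) (h01 : q ≤ |Ea 0 - Ea 1|)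
    (h02 : q ≤ |Ea 0 - Ea 2|) (h12 : q ≤ |Ea 1 - Ea 2|) :
    μ₁ ^ 3 * q ^ 3 ≤ |dt (g3m Aa Ea)| := by
  unfold g3m
  rw [gm_dt]
  have e1 : ∀ u v : Fin 2 → ℝ, |w2 u v| = |w2 v u| := by
    intro u v
    unfold w2
    rw [abs_sub_comm]
    congr 1
    ring
  rw [abs_mul, abs_mul, abs_mul, abs_mul, abs_mul, w2_xe, w2_xe, w2_xe, e1 (Aa 2) (Aa 1)]
  rw [abs_sub_comm (Ea 0) (Ea 1)] at h01
  rw [abs_sub_comm (Ea 0) (Ea 2)] at h02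
  have b1 : μ₁ * q ≤ |w2 (Aa 0) (Aa 2)| * |Ea 1 - Ea 2| := mul_le_mul a02 h12 hq.le (abs_nonneg _)
  have b2 : μ₁ * q ≤ |w2 (Aa 1) (Aa 2)| * |Ea 2 - Ea 0| := mul_le_mul a12 h02 hq.le (abs_nonneg _)
  have b3 : q * μ₁ ≤ |Ea 1 - Ea 0| * |w2 (Aa 0) (Aa 1)| := mul_le_mul h01 a01 hμ.le (abs_nonneg _)
  have b4 : μ₁ * q * (μ₁ * q) ≤ |w2 (Aa 0) (Aa 2)| * |Ea 1 - Ea 2| *
      (|w2 (Aa 1) (Aa 2)| * |Ea 2 - Ea 0|) := mul_le_mul b1 b2 (by positivity) (by positivity)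
  have b5 := mul_le_mul b4 b3 (by positivity) (by positivity)
  refine le_trans (le_of_eq ?_) b5
  ring

theorem g3m_le {L : ℝ} (hL : 1 ≤ L) {Aa : Fin 3 → Fin 2 → ℝ} {Ea : Fin 3 → ℝ}
    (hA : ∀ a i, |Aa a i| ≤ L) (hE : ∀ a, |Ea a| ≤ L) (i j : Fin 2) :
    |g3m Aa Ea i j| ≤ 8 * L ^ 6 := by
  have h : ∀ a, ∀ i, |xe (Ea a) i| ≤ L := fun a => by
    refine Fin.forall_fin_two.mpr ⟨?_, hE a⟩
    show |(1 : ℝ)| ≤ L
    rw [abs_one]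
    exact hL
  exact gm_le (by linarith) (hA 0) (h 0) (hA 1) (h 1) (hA 2) (h 2) i j

theorem sc1 {S x y m₀ m₁ P₀ P₁ C η : ℝ} (hS : 0 < S)
    (h : |x - y - (m₀ * P₀ + m₁ * P₁)| ≤ C) (hC : C ≤ η * S) :
    |x / S - y / S - (m₀ * (P₀ / S) + m₁ * (P₁ / S))| ≤ η := by
  have key : x / S - y / S - (m₀ * (P₀ / S) + m₁ * (P₁ / S)) =
      (x - y - (m₀ * P₀ + m₁ * P₁)) / S := by
    field_simp
  rw [key, abs_div, abs_of_pos hS, div_le_iff₀ hS]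
  exact h.trans hC

theorem sc2 {S x y m₀ m₁ P₀ P₁ Q₀ Q₁ E C K C' η : ℝ} (hS : 0 < S)
    (h : |x - y - (m₀ * Q₀ + m₁ * Q₁)| ≤ C) (hm : |m₁| ≤ C')
    (hQ : |Q₁ - P₁ - (Q₀ - P₀) * E| ≤ K) (hC : C + C' * K ≤ η * S) :
    |x / S - y / S - (m₀ * (P₀ / S + (Q₀ - P₀) / S * 1) +
      m₁ * (P₁ / S + (Q₀ - P₀) / S * E))| ≤ η := by
  have key : x / S - y / S - (m₀ * (P₀ / S + (Q₀ - P₀) / S * 1) +
      m₁ * (P₁ / S + (Q₀ - P₀) / S * E)) =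
      ((x - y - (m₀ * Q₀ + m₁ * Q₁)) + m₁ * (Q₁ - P₁ - (Q₀ - P₀) * E)) / S := by
    field_simp
    ring
  have h9 : |m₁ * (Q₁ - P₁ - (Q₀ - P₀) * E)| ≤ C' * K := by
    rw [abs_mul]
    exact mul_le_mul hm hQ (abs_nonneg _) ((abs_nonneg _).trans hm)
  rw [key, abs_div, abs_of_pos hS, div_le_iff₀ hS]
  exact (abs_add_le _ _).trans ((add_le_add h h9).trans hC)

theorem sc3 {S u v u' v' E K η : ℝ} (hS : 0 < S) (h : |(u' - u) + E * (v' - v)| ≤ K)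
    (hK : K / S ≤ η) : |(u' / S - u / S) + E * (v' / S - v / S)| ≤ η := by
  have e1 : (u' / S - u / S) + E * (v' / S - v / S) = ((u' - u) + E * (v' - v)) / S := by
    field_simp
  rw [e1, abs_div, abs_of_pos hS]
  exact (div_le_div_of_nonneg_right h hS.le).trans hK

theorem sc4 {S b T₀ T₁ P₀ P₁ A₀ A₁ E u₀ u₁ v₀ v₁ K η : ℝ} (hS : 0 < S)
    (h : |b - (T₀ * P₀ + T₁ * P₁) - (A₀ * (u₀ + E * u₁) + A₁ * (v₀ + E * v₁))| ≤ K)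
    (hK : K / S ≤ η) : |b / S - (T₀ * (P₀ / S) + T₁ * (P₁ / S)) -
      (A₀ * (u₀ / S + E * (u₁ / S)) + A₁ * (v₀ / S + E * (v₁ / S)))| ≤ η := by
  have e1 : b / S - (T₀ * (P₀ / S) + T₁ * (P₁ / S)) -
      (A₀ * (u₀ / S + E * (u₁ / S)) + A₁ * (v₀ / S + E * (v₁ / S))) =
      (b - (T₀ * P₀ + T₁ * P₁) - (A₀ * (u₀ + E * u₁) + A₁ * (v₀ + E * v₁))) / S := by
    field_simp
  rw [e1, abs_div, abs_of_pos hS]
  exact (div_le_div_of_nonneg_right h hS.le).trans hK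

theorem sc5 {S t T A₀ A₁ u u' v v' K η : ℝ} (hS : 0 < S)
    (h : |2 * t * T + (A₀ * (u' - u) + A₁ * (v' - v))| ≤ K) (hK : K / S ≤ η) :
    |2 * (t / S) * T + (A₀ * (u' / S - u / S) + A₁ * (v' / S - v / S))| ≤ η := by
  have e1 : 2 * (t / S) * T + (A₀ * (u' / S - u / S) + A₁ * (v' / S - v / S)) =
      (2 * t * T + (A₀ * (u' - u) + A₁ * (v' - v))) / S := by
    field_simp
  rw [e1, abs_div, abs_of_pos hS]
  exact (div_le_div_of_nonneg_right h hS.le).trans hK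

/-- The numbers of the errors. -/
theorem num5 {L K η S W : ℝ} (hL : 1 ≤ L) (hK : 0 ≤ K) (hW : 1 ≤ W)
    (h : 1152 * L ^ 11 * K * W ≤ η * S) :
    K ≤ η * S ∧ 576 * L ^ 10 * K / (1 / W) ≤ η * S ∧
      576 * L ^ 10 * K / (1 / W) + 576 * L ^ 11 / (1 / W) * K ≤ η * S := by
  have hL10 : 1 ≤ L ^ 10 := one_le_pow₀ hL
  have hL11 : L ^ 10 ≤ L ^ 11 := pow_le_pow_right₀ hL (by norm_num)
  have d1 : ∀ x : ℝ, x / (1 / W) = x * W := fun x => by rw [div_div_eq_mul_div, div_one]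
  rw [d1, d1]
  have hKW : 0 ≤ K * W := by positivity
  have a1 : K ≤ K * W := le_mul_of_one_le_right hK hW
  have a2 : K * W ≤ 576 * L ^ 10 * (K * W) := le_mul_of_one_le_left hKW (by linarith)
  have a3 : 576 * L ^ 10 * (K * W) ≤ 576 * L ^ 11 * (K * W) :=
    mul_le_mul_of_nonneg_right (by linarith) hKW
  have a4 : 0 ≤ 576 * L ^ 10 * (K * W) := by positivity
  have e1 : 576 * L ^ 10 * K * W = 576 * L ^ 10 * (K * W) := by ring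
  have e2 : 576 * L ^ 11 * W * K = 576 * L ^ 11 * (K * W) := by ring
  have e3 : 1152 * L ^ 11 * K * W = 2 * (576 * L ^ 11 * (K * W)) := by ring
  rw [e1, e2]
  rw [e3] at h
  refine ⟨by linarith, by linarith, by linarith⟩

/-- The pointwise relations, real numbers. -/
theorem ptA_alg {L K LL μ μA μ₁ δ η Sc q W tt E b : ℝ} (hL : 1 ≤ L) (hK : 0 ≤ K) (hS : 0 < Sc)
    (hq : 0 < q) (hW : 1 ≤ W) (hqW : q ^ 3 = 1 / W) (hμ₁ : 0 < μ₁) (hLL : 8 * L ^ 6 ≤ LL)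
    (hμ : 0 < μ) (hμ1 : μ ≤ 1) (hμA : μ ≤ μA) (hμd : μ * W ≤ μ₁ ^ 3)
    (hδ : 4 * LL * δ ≤ μ ^ 2) (hη : 1152 * L ^ 11 * K * W ≤ η * Sc)
    {A T P Q : Fin 2 → ℝ} {U U' : Fin 2 → Fin 2 → ℝ} {Aa Ta Ab Tb : Fin 3 → Fin 2 → ℝ}
    {Ea Eb ba bb : Fin 3 → ℝ} (hE : |E| ≤ L) (hA : ∀ i, |A i| ≤ L) (hAμ : ∃ i, μA ≤ |A i|)
    (hp : ∀ j, |P j / Sc| ≤ LL) (ht : |(Q 0 - P 0) / Sc| ≤ LL) (htμ : μ ≤ |(Q 0 - P 0) / Sc|)
    (hu : ∀ i j, |U i j| ≤ L * Sc) (hu' : ∀ i j, |U' i j| ≤ L * Sc)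
    (hAa : ∀ a i, |Aa a i| ≤ L) (hEa : ∀ a, |Ea a| ≤ L) (hTa : ∀ a j, |Ta a j| ≤ L)
    (hAb : ∀ a i, |Ab a i| ≤ L) (hEb : ∀ a, |Eb a| ≤ L) (hTb : ∀ a j, |Tb a j| ≤ L)
    (a01 : μ₁ ≤ |w2 (Aa 0) (Aa 1)|) (a02 : μ₁ ≤ |w2 (Aa 0) (Aa 2)|)
    (a12 : μ₁ ≤ |w2 (Aa 1) (Aa 2)|) (e01 : q ≤ |Ea 0 - Ea 1|)
    (e02 : q ≤ |Ea 0 - Ea 2|) (e12 : q ≤ |Ea 1 - Ea 2|)
    (b01 : μ₁ ≤ |w2 (Ab 0) (Ab 1)|) (b02 : μ₁ ≤ |w2 (Ab 0) (Ab 2)|)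
    (b12 : μ₁ ≤ |w2 (Ab 1) (Ab 2)|) (f01 : q ≤ |Eb 0 - Eb 1|)
    (f02 : q ≤ |Eb 0 - Eb 2|) (f12 : q ≤ |Eb 1 - Eb 2|)
    (dd : |w2 A (ap (g3m Aa Ea) (xe E))| ≤ δ) (dd' : |w2 A (ap (g3m Ab Eb) (xe E))| ≤ δ)
    (ra : ∀ a, |ba a - ∑ j, Ta a j * P j - ∑ i, Aa a i * (U i 0 + Ea a * U i 1)| ≤ K)
    (rb : ∀ a, |bb a - ∑ j, Tb a j * Q j - ∑ i, Ab a i * (U' i 0 + Eb a * U' i 1)| ≤ K)
    (mov : |Q 1 - P 1 - (Q 0 - P 0) * E| ≤ K)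
    (vel : ∀ i, |(U' i 0 - U i 0) + E * (U' i 1 - U i 1)| ≤ K)
    (num : |b - ∑ j, T j * P j - ∑ i, A i * (U i 0 + E * U i 1)| ≤ K)
    (rel : ∀ j, |2 * (Q 0 - P 0) * T j + ∑ i, A i * (U' i j - U i j)| ≤ K) (htt : tt = Q 0 - P 0) :
    PtA LL μ η δ E (tt / Sc) (b / Sc) (g3m Aa Ea) (g3m Ab Eb) A T (fun j => P j / Sc)
      (fun i j => U i j / Sc) (fun i j => U' i j / Sc) (fun i => m30 Aa Ea ba i / Sc)
      (fun i => m30 Ab Eb bb i / Sc) (m31 Aa Ea Ta) (m31 Ab Eb Tb) := by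
  subst htt
  have hL61 : 1 ≤ L ^ 6 := one_le_pow₀ hL
  have hL1 : L ≤ L ^ 6 := le_self_pow₀ hL (by norm_num)
  have hLLL : L ≤ LL := by linarith
  have hW0 : 0 < W := by linarith
  obtain ⟨n1, n2, n3⟩ := num5 hL hK hW hη
  have hKη : K / Sc ≤ η := by
    rw [div_le_iff₀ hS]
    exact n1
  obtain ⟨G1, -⟩ := germ3 hL hq hAa hEa hTa e01 e02 e12 ra
  obtain ⟨G2, G2'⟩ := germ3 hL hq hAb hEb hTb f01 f02 f12 rb
  rw [hqW] at G1 G2 G2'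
  refine
    { hL := by linarith
      hμ := hμ
      hμ1 := hμ1
      hE := hE.trans hLLL
      hG := fun i j => (g3m_le hL hAa hEa i j).trans hLL
      hG' := fun i j => (g3m_le hL hAb hEb i j).trans hLL
      hd := ?_
      hd' := ?_
      hA := fun i => (hA i).trans hLLL
      hAμ := ?_
      hp := hp
      ht := ht
      htμ := htμ
      hu := ?_
      hu' := ?_
      hδ := hδ
      g0 := dd
      g0' := dd'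
      g1 := ?_
      g2 := ?_
      g3 := fun i => sc3 hS (vel i) hKη
      g4 := ?_
      g5 := ?_ }
  · refine le_trans ?_ (g3m_dt hμ₁ hq a01 a02 a12 e01 e02 e12)
    rw [hqW, mul_one_div, le_div_iff₀ hW0]
    exact hμd
  · refine le_trans ?_ (g3m_dt hμ₁ hq b01 b02 b12 f01 f02 f12)
    rw [hqW, mul_one_div, le_div_iff₀ hW0]
    exact hμd
  · obtain ⟨i, hi⟩ := hAμ
    exact ⟨i, hμA.trans hi⟩
  · intro i j
    rw [abs_div, abs_of_pos hS, div_le_iff₀ hS]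
    exact (hu i j).trans (mul_le_mul_of_nonneg_right hLLL hS.le)
  · intro i j
    rw [abs_div, abs_of_pos hS, div_le_iff₀ hS]
    exact (hu' i j).trans (mul_le_mul_of_nonneg_right hLLL hS.le)
  · intro i
    have h5 := G1 i
    rw [Fin.sum_univ_two] at h5
    rw [sy_div, Fin.sum_univ_two]
    exact sc1 hS h5 n2
  · intro i
    have h5 := G2 i
    rw [Fin.sum_univ_two] at h5
    rw [sy_div, Fin.sum_univ_two]
    exact sc2 hS h5 (G2' i 1) mov n3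
  · rw [Fin.sum_univ_two, Fin.sum_univ_two] at num
    rw [Fin.sum_univ_two]
    exact sc4 hS num hKη
  · intro j
    have h5 := rel j
    rw [Fin.sum_univ_two] at h5
    exact sc5 hS h5 hKη

/-! ### The law of the pair -/

variable {Ω σ ζ ζ' ε : Type} [Fintype Ω]

/-- The first three copies. -/
def j3 (a : Fin 3) : Fin 5 := ⟨a.1, by omega⟩

/-- The functionals of the copies. -/
def cA0 (A0 : ζ → ε → Fin 2 → ℝ) (y : ζ) (W : Fin 5 → ε) (a : Fin 3) : Fin 2 → ℝ := A0 y (W (j3 a))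

/-- The directions of the copies. -/
def cE0 (E0 : ζ → ε → ℝ) (y : ζ) (W : Fin 5 → ε) (a : Fin 3) : ℝ := E0 y (W (j3 a))

/-- The event of one side. -/
structure B2a (E0 : ζ → ε → ℝ) (A0 : ζ → ε → Fin 2 → ℝ) (k : ℕ) (μA μ₁ δ : ℝ) (y : ζ)
    (W : Fin 5 → ε) (x : ε) : Prop where
  mA : ∃ i, μA ≤ |A0 y x i|
  a01 : μ₁ ≤ |w2 (cA0 A0 y W 0) (cA0 A0 y W 1)|
  a02 : μ₁ ≤ |w2 (cA0 A0 y W 0) (cA0 A0 y W 2)|
  a12 : μ₁ ≤ |w2 (cA0 A0 y W 1) (cA0 A0 y W 2)|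
  e01 : 1 / 2 ^ k ≤ |cE0 E0 y W 0 - cE0 E0 y W 1|
  e02 : 1 / 2 ^ k ≤ |cE0 E0 y W 0 - cE0 E0 y W 2|
  e12 : 1 / 2 ^ k ≤ |cE0 E0 y W 1 - cE0 E0 y W 2|
  dd : |w2 (A0 y x) (ap (g3m (cA0 A0 y W) (cE0 E0 y W)) (xe (E0 y x)))| ≤ δ

variable {p : Ω → ℝ} {S : Ω → σ} {z : Ω → ζ} {z' : Ω → ζ'} {e : Ω → ε} {E0 : ζ → ε → ℝ}
  {A0 T0 : ζ → ε → Fin 2 → ℝ} {b ek : Ω → ℤ} {P : Ω → Fin 2 → ℤ} {U : Ω → Fin 2 → Fin 2 → ℤ}
  {A s k K₀ : ℕ} {L K cE eF eH eP : ℝ}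

/-- The data of the copies of one side. -/
def Ws (js : Fin 5 → Fin 10) (W : Fin 10 → ε × ℤ) (r : Fin 5) : ε := (W (js r)).1

/-- The pointwise relations. -/
theorem PrD.ptA (D : PrD p S z z' e E0 A0 T0 b ek P U A s k K₀ L K cE eF eH eP)
    {LL μ μA μ₁ δ η : ℝ} {gt : ℕ} (hμ₁ : 0 < μ₁) (hLL : 8 * L ^ 6 ≤ LL) (hLA : 2 * A ≤ LL)
    (hμ : 0 < μ) (hμ1 : μ ≤ 1) (hμA : μ ≤ μA) (hμd : μ * 2 ^ (3 * k) ≤ μ₁ ^ 3)
    (hμt : μ * 2 ^ gt ≤ 1) (hδ : 4 * LL * δ ≤ μ ^ 2)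
    (hη : 1152 * L ^ 11 * K * 2 ^ (3 * k) ≤ η * 2 ^ s)
    {w : (Ω × Ω) × (Fin 10 → Ω × Ω)} (hw : 0 < PL p S z' sd10 w)
    (h1 : B2a E0 A0 k μA μ₁ δ (z w.1.1) (Ws ja (Wc e b w)) (e w.1.1))
    (h2 : B2a E0 A0 k μA μ₁ δ (z w.1.1) (Ws jb (Wc e b w)) (e w.1.1))
    (h3 : 2 ^ s / 2 ^ gt ≤ |(tq P w.1 : ℝ)|) :
    PtA LL μ η δ (E0 (z w.1.1) (e w.1.1)) (tq P w.1 / 2 ^ s) (b w.1.1 / 2 ^ s)
      (g3m (cA0 A0 (z w.1.1) (Ws ja (Wc e b w))) (cE0 E0 (z w.1.1) (Ws ja (Wc e b w))))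
      (g3m (cA0 A0 (z w.1.1) (Ws jb (Wc e b w))) (cE0 E0 (z w.1.1) (Ws jb (Wc e b w))))
      (A0 (z w.1.1) (e w.1.1)) (T0 (z w.1.1) (e w.1.1)) (fun j => P w.1.1 j / 2 ^ s)
      (fun i j => U w.1.1 i j / 2 ^ s) (fun i j => U w.1.2 i j / 2 ^ s)
      (fun i => m30 (cA0 A0 (z w.1.1) (Ws ja (Wc e b w))) (cE0 E0 (z w.1.1) (Ws ja (Wc e b w)))
        (fun a => ((Wc e b w (ja (j3 a))).2 : ℝ)) i / 2 ^ s)
      (fun i => m30 (cA0 A0 (z w.1.1) (Ws jb (Wc e b w))) (cE0 E0 (z w.1.1) (Ws jb (Wc e b w)))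
        (fun a => ((Wc e b w (jb (j3 a))).2 : ℝ)) i / 2 ^ s)
      (m31 (cA0 A0 (z w.1.1) (Ws ja (Wc e b w))) (cE0 E0 (z w.1.1) (Ws ja (Wc e b w)))
        (cA0 T0 (z w.1.1) (Ws ja (Wc e b w))))
      (m31 (cA0 A0 (z w.1.1) (Ws jb (Wc e b w))) (cE0 E0 (z w.1.1) (Ws jb (Wc e b w)))
        (cA0 T0 (z w.1.1) (Ws jb (Wc e b w)))) := by
  have hL := D.hL
  have hs0 : (0 : ℝ) < 2 ^ s := by positivity
  obtain ⟨p1, p2, p3, p4⟩ := PL_pos D.isLaw S z' sd10 hw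
  have h3k : (1 / 2 ^ k : ℝ) ^ 3 = 1 / 2 ^ (3 * k) := by
    rw [div_pow, one_pow, ← pow_mul, mul_comm k 3]
  have h3k1 : (1 : ℝ) ≤ 2 ^ (3 * k) := one_le_pow₀ (by norm_num)
  have sm1 : ∀ a, sm sd10 (ja a) w.1 = w.1.1 := fun a => by
    unfold sm
    rw [sd_ja]
    rfl
  have sm2 : ∀ a, sm sd10 (jb a) w.1 = w.1.2 := fun a => by
    unfold sm
    rw [sd_jb]
    rfl
  have hPa : ∀ ω, 0 < p ω → ∀ j, |(P ω j : ℝ) / 2 ^ s| ≤ A := by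
    intro ω hω j
    rw [abs_div, abs_of_pos hs0, div_le_iff₀ hs0]
    have := D.bP _ hω j
    have h5 : |(P ω j : ℝ)| ≤ ((A * 2 ^ s : ℕ) : ℝ) := by exact_mod_cast this
    refine h5.trans (le_of_eq ?_)
    push_cast
    ring
  have hA0 : (0 : ℝ) ≤ A := Nat.cast_nonneg A
  have htq : (tq P w.1 : ℝ) = (P w.1.2 0 : ℝ) - P w.1.1 0 := by
    unfold tq
    push_cast
    ring
  rw [htq] at h3
  refine ptA_alg (Q := fun j => (P w.1.2 j : ℝ)) (P := fun j => (P w.1.1 j : ℝ))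
    (U := fun i j => (U w.1.1 i j : ℝ)) (U' := fun i j => (U w.1.2 i j : ℝ)) hL D.hK hs0
    (q := 1 / 2 ^ k) (by positivity) h3k1 h3k hμ₁ hLL hμ hμ1 hμA hμd hδ hη (D.bE _ p1)
    (D.bA _ p1) h1.mA (fun j => (hPa _ p1 j).trans (by linarith)) ?_ ?_ (D.bU _ p1) (D.bU _ p2)
    (fun a => (D.cpb hw (ja (j3 a))).2.1) (fun a => (D.cpb hw (ja (j3 a))).1)
    (fun a => (D.cpb hw (ja (j3 a))).2.2) (fun a => (D.cpb hw (jb (j3 a))).2.1)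
    (fun a => (D.cpb hw (jb (j3 a))).1) (fun a => (D.cpb hw (jb (j3 a))).2.2)
    h1.a01 h1.a02 h1.a12 h1.e01 h1.e02 h1.e12 h2.a01 h2.a02 h2.a12 h2.e01 h2.e02 h2.e12 h1.dd
    h2.dd ?_ ?_ (D.mov _ _ p1 p2 p3) (D.vel _ _ p1 p2 p3) (D.num _ p1) (D.rel _ _ p1 p2 p3) htq
  · rw [sub_div]
    have := abs_sub ((P w.1.2 0 : ℝ) / 2 ^ s) ((P w.1.1 0 : ℝ) / 2 ^ s)
    linarith [hPa _ p1 0, hPa _ p2 0]
  · rw [abs_div, abs_of_pos hs0, le_div_iff₀ hs0]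
    refine le_trans ?_ h3
    rw [le_div_iff₀ (by positivity)]
    nlinarith
  · intro a
    have h := D.cpn hw (ja (j3 a))
    rw [sm1] at h
    exact h
  · intro a
    have h := D.cpn hw (jb (j3 a))
    rw [sm2] at h
    exact h

theorem law_le {W : Type} [Fintype W] {q : W → ℝ} (h0 : ∀ w, 0 ≤ q w) {A B : W → Prop}
    (h : ∀ w, 0 < q w → A w → B w) : law q A True ≤ law q B True := by
  rw [law_Pb, law_Pb]
  exact Pb_sub h0 h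

/-- **An event of one side holds on both sides.** -/
theorem PrD.sides (D : PrD p S z z' e E0 A0 T0 b ek P U A s k K₀ L K cE eF eH eP)
    (B : ζ → (Fin 5 → ε) → ε → Prop) {c₂ : ℝ} (hc₂ : 0 ≤ c₂)
    (h : c₂ ≤ law (PL p S z' sd10) (fun w => B (z w.1.1) (Ws ja (Wc e b w)) (e w.1.1)) True) :
    c₂ ^ 2 ≤ law (PL p S z' sd10) (fun w => B (z w.1.1) (Ws ja (Wc e b w)) (e w.1.1) ∧
      B (z w.1.1) (Ws jb (Wc e b w)) (e w.1.1)) True := by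
  have hq := (PL_isLaw D.isLaw S z' sd10).nonneg
  have h1 := both D.isLaw S z' sd10 ja jb ja_inj jb_inj sd_ja sd_jb
    (fun g ω => B (z ω) (fun r => e (g r)) (e ω))
  have h2 : c₂ ^ 2 ≤ law (PL p S z' sd10)
      (fun w => B (z w.1.1) (fun r => e (cp sd10 (ja r) w)) (e w.1.1)) True ^ 2 :=
    pow_le_pow_left₀ hc₂ h 2
  refine (h2.trans h1).trans (law_le hq fun w hw h3 => ?_)
  obtain ⟨-, -, z2, -, -, e2⟩ := D.cpz hw 0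
  refine ⟨h3.1, ?_⟩
  have h4 := h3.2
  rw [z2, e2] at h4
  exact h4

/-- **Case [2a].** -/
theorem c6_a (D : PrD p S z z' e E0 A0 T0 b ek P U A s k K₀ L K cE eF eH eP)
    {LL μ μA μ₁ δ η μa μb μc c c₂ cτ : ℝ} {g gt : ℕ} (hμ₁ : 0 < μ₁) (hLL : 8 * L ^ 6 ≤ LL)
    (hLA : 2 * A ≤ LL) (hμ : 0 < μ) (hμ1 : μ ≤ 1) (hμA : μ ≤ μA) (hμd : μ * 2 ^ (3 * k) ≤ μ₁ ^ 3)
    (hμt : μ * 2 ^ gt ≤ 1) (hδ0 : 0 ≤ δ) (hδ : 4 * LL * δ ≤ μ ^ 2)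
    (hη : 1152 * L ^ 11 * K * 2 ^ (3 * k) ≤ η * 2 ^ s) (hgt : gt ≤ s)
    (hτ0 : 0 < gt * Real.log 2 - Real.log 3)
    (hτ : eP + Real.log (2 * A + 1) + Real.log 2 ≤ cτ * (gt * Real.log 2 - Real.log 3))
    (hc : 0 < c)
    (hn : (10 * (eF + eH) + Real.log 2) / c + Real.log (3 * 3 : ℕ) < (1 - cE / c) * Real.log K₀)
    (h1 : ((3 + 2 * LL) * 2 ^ k) ^ 3 * (4 * LL ^ 2 * δ / μ) < μa)
    (h11 : 8 * LL ^ 2 * μa ≤ μ ^ 2)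
    (h2 : ((3 + 2 * LL) * 2 ^ k) ^ 3 * (eR LL μ η μa + 3 * LL / 2 ^ g) < μb)
    (h3 : ((3 + 2 * LL) * 2 ^ k) ^ 3 * (40960 * LL ^ 12 * μb / μ ^ 6) < μc)
    (hpos : 0 < ((s : ℝ) - g) * Real.log 2 -
      Real.log (2 * (2 * (2 ^ s * eR LL μ η μa) + 3 * ((2 * A : ℕ) : ℝ) + 1) + 1))
    (hN : (2 * eP + eF + 10 * (eF + eH)) + eH + Real.log 4 +
      3 * Real.log (2 * ((2 * A : ℕ) : ℝ) + 1) ≤ c * (((s : ℝ) - g) * Real.log 2 -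
        Real.log (2 * (2 * (2 ^ s * eR LL μ η μa) + 3 * ((2 * A : ℕ) : ℝ) + 1) + 1)))
    (hc₂ : 0 ≤ c₂) (hmass : c₂ ≤ law (PL p S z' sd10) (fun w => B2a E0 A0 k μA μ₁ δ (z w.1.1)
      (Ws ja (Wc e b w)) (e w.1.1)) True) :
    c₂ ^ 2 - cτ - 8 * c ≤ law (P2 p S) (fun v => ∀ i j,
      |(U v.2 i j : ℝ) - U v.1 i j| ≤ 80 * LL ^ 4 * μc / μ * 2 ^ s) True := by
  have hp := D.isLaw
  have hQ := PL_isLaw hp S z' sd10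
  have hq := hQ.nonneg
  have hL := D.hL
  have hLL1 : 1 ≤ LL := by
    have : 1 ≤ L ^ 6 := one_le_pow₀ hL
    linarith
  have hη0 : 0 ≤ η := by
    have h5 : 0 ≤ η * 2 ^ s := le_trans (by have := D.hK; positivity) hη
    by_contra hcon
    have : η * 2 ^ s < 0 := mul_neg_of_neg_of_pos (not_le.mp hcon) (by positivity)
    linarith
  have hA2 : 1 ≤ 2 * A := by
    have := D.hA
    omega
  -- the event
  obtain ⟨Ev, hEv⟩ : ∃ Ev : (Ω × Ω) × (Fin 10 → Ω × Ω) → Prop, Ev = fun w =>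
    (B2a E0 A0 k μA μ₁ δ (z w.1.1) (Ws ja (Wc e b w)) (e w.1.1) ∧
      B2a E0 A0 k μA μ₁ δ (z w.1.1) (Ws jb (Wc e b w)) (e w.1.1)) ∧
      2 ^ s / 2 ^ gt ≤ |(tq P w.1 : ℝ)| := ⟨_, rfl⟩
  have hm1 := D.sides (fun y W x => B2a E0 A0 k μA μ₁ δ y W x) hc₂ hmass
  have hm2 : law (PL p S z' sd10) (fun w => |(tq P w.1 : ℝ)| < 2 ^ s / 2 ^ gt) True ≤ cτ :=
    le_of_read hτ0 (D.tau hgt) hτ
  have hm3 : c₂ ^ 2 - cτ ≤ law (PL p S z' sd10) Ev True := by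
    have h5 := law_le hq (A := fun w =>
      B2a E0 A0 k μA μ₁ δ (z w.1.1) (Ws ja (Wc e b w)) (e w.1.1) ∧
      B2a E0 A0 k μA μ₁ δ (z w.1.1) (Ws jb (Wc e b w)) (e w.1.1))
      (B := fun w => Ev w ∨ |(tq P w.1 : ℝ)| < 2 ^ s / 2 ^ gt) (fun w _ h => by
        rcases lt_or_ge |(tq P w.1 : ℝ)| (2 ^ s / 2 ^ gt) with h6 | h6
        · exact Or.inr h6
        · left
          rw [hEv]
          exact ⟨h, h6⟩)
    have h6 := Pb_or hq Ev (fun w => |(tq P w.1 : ℝ)| < 2 ^ s / 2 ^ gt)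
    rw [← law_Pb, ← law_Pb, ← law_Pb] at h6
    linarith
  -- the join
  have hJ := join2a hQ (fun w => z w.1.1) (Wc e b) (fun w => (z w.1.1, e w.1.1))
    (fun w => ek w.1.1) (fun x => E0 x.1 x.2) (fun _ x => A0 x.1 x.2) (fun _ x => T0 x.1 x.2)
    (fun w => b w.1.1)
    (fun W y => g3m (cA0 A0 y (Ws ja W)) (cE0 E0 y (Ws ja W)))
    (fun W y => g3m (cA0 A0 y (Ws jb W)) (cE0 E0 y (Ws jb W)))
    (fun W y => m30 (cA0 A0 y (Ws ja W)) (cE0 E0 y (Ws ja W)) (fun a => ((W (ja (j3 a))).2 : ℝ)))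
    (fun W y => m30 (cA0 A0 y (Ws jb W)) (cE0 E0 y (Ws jb W)) (fun a => ((W (jb (j3 a))).2 : ℝ)))
    (fun W y => m31 (cA0 A0 y (Ws ja W)) (cE0 E0 y (Ws ja W)) (cA0 T0 y (Ws ja W)))
    (fun W y => m31 (cA0 A0 y (Ws jb W)) (cE0 E0 y (Ws jb W)) (cA0 T0 y (Ws jb W)))
    (fun w => P w.1.1) (fun w => U w.1.1) (fun w => U w.1.2) (fun w => tq P w.1) Ev
    (A := 2 * A) (s := s) (g := g) (k := k) (L := LL) (μ := μ) (η := η) (δ := δ) (μ₁ := μa)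
    (μ₂ := μb) (μ₃ := μc) (c := c) (e1 := 2 * eP + eF + 10 * (eF + eH)) (eH := eH)
    (i := 10 * (eF + eH)) (ρ := (1 - cE / c) * Real.log K₀) hA2 hLL1 hμ hμ1 hη0 hδ0 hc
    (fun w hw j => D.hP hw j) (fun w hw _ => D.cell _ (PL_pos hp S z' sd10 hw).1)
    (fun w hw hE => by
      rw [hEv] at hE
      exact D.ptA hμ₁ hLL hLA hμ hμ1 hμA hμd hμt hδ hη hw hE.1.1 hE.1.2 hE.2)
    D.hfull D.hb0 (D.hI (fun v => ek v.1)) (fun G hG => D.hE hc G hG) hn h1 h11 h2 h3 hpos hN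
  rw [← law_Pb] at hJ
  -- the end
  have h7 := law_le hq (A := Ev) (B := fun w => (∀ i j,
      |(U w.1.2 i j : ℝ) - U w.1.1 i j| ≤ 80 * LL ^ 4 * μc / μ * 2 ^ s) ∨
      (Ev w ∧ ∃ i j, 80 * LL ^ 4 * μc / μ * 2 ^ s < |(U w.1.2 i j : ℝ) - U w.1.1 i j|))
    (fun w _ h => by
      by_cases h8 : ∃ i j, 80 * LL ^ 4 * μc / μ * 2 ^ s < |(U w.1.2 i j : ℝ) - U w.1.1 i j|
      · exact Or.inr ⟨h, h8⟩
      · left
        intro i j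
        by_contra h9
        exact h8 ⟨i, j, not_le.mp h9⟩)
  have h8 := Pb_or hq (fun w => ∀ i j,
      |(U w.1.2 i j : ℝ) - U w.1.1 i j| ≤ 80 * LL ^ 4 * μc / μ * 2 ^ s)
      (fun w => Ev w ∧ ∃ i j,
        80 * LL ^ 4 * μc / μ * 2 ^ s < |(U w.1.2 i j : ℝ) - U w.1.1 i j|)
  rw [← law_Pb, ← law_Pb, ← law_Pb] at h8
  have h9 : law (PL p S z' sd10) (fun w => ∀ i j,
      |(U w.1.2 i j : ℝ) - U w.1.1 i j| ≤ 80 * LL ^ 4 * μc / μ * 2 ^ s) True =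
      law (P2 p S) (fun v => ∀ i j,
        |(U v.2 i j : ℝ) - U v.1 i j| ≤ 80 * LL ^ 4 * μc / μ * 2 ^ s) True :=
    (PL_base hp S z' sd10).law (fun v => ∀ i j,
        |(U v.2 i j : ℝ) - U v.1 i j| ≤ 80 * LL ^ 4 * μc / μ * 2 ^ s) True
  rw [← h9]
  linarith

end Pool.D2N
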