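import Pool.Agent.H90.D2.CaA
import Pool.Agent.H42.D2.Join2b
import Pool.Agent.H42.D2.NoPk

/-!
# D2, `(1,2,2;3)`, both rough, case [2b], in the law of the pair with its copies

`germ4`: the germ of two functions from four copies. `c6_b`: if four copies of one side have a large
determinant with probability at least `c₃` and the own functional is transversal to a fifth copy, then
the slopes of two samples of one line agree with probability at least `c₃ ^ 2 - small`.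
-/

set_option autoImplicit false

namespace Pool.D2N

open Finset Real
open Pool.Agent.H49.Ent Pool.Agent.H32.Dense Pool.STK
open Pool.K2S
open Pool.KM7 (P2 P2_isLaw P2_pos)
open Pool.D2A Pool.D2T Pool.D2G Pool.D2JA

/-! ### Real germs -/

/-- The matrix of four copies. -/
noncomputable def f4 (Aa : Fin 4 → Fin 2 → ℝ) (Ea : Fin 4 → ℝ) : Matrix (Fin 4) (Fin 4) ℝ :=
  Matrix.of fun a => rw4 (Aa a) (xe (Ea a))

/-- The constant part of the germ. -/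
noncomputable def m40 (Aa : Fin 4 → Fin 2 → ℝ) (Ea ba : Fin 4 → ℝ) (n : Fin 4) : ℝ :=
  ∑ a, (f4 Aa Ea)⁻¹ n a * ba a

/-- The linear part of the germ. -/
noncomputable def m41 (Aa : Fin 4 → Fin 2 → ℝ) (Ea : Fin 4 → ℝ) (Ta : Fin 4 → Fin 2 → ℝ)
    (n : Fin 4) (j : Fin 2) : ℝ :=
  -∑ a, (f4 Aa Ea)⁻¹ n a * Ta a j

/-- The four numbers. -/
def U4 {R : Type} (U : Fin 2 → Fin 2 → R) : Fin 4 → R := ![U 0 0, U 0 1, U 1 0, U 1 1]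

theorem U4_ix {R : Type} (U : Fin 2 → Fin 2 → R) (i a : Fin 2) : U4 U (ix i a) = U i a := by
  fin_cases i <;> fin_cases a <;> rfl

theorem rw4_le {L E : ℝ} (hL : 1 ≤ L) (hE : |E| ≤ L) {A : Fin 2 → ℝ} (hA : ∀ i, |A i| ≤ L)
    (n : Fin 4) : |rw4 A (xe E) n| ≤ L ^ 2 := by
  have h1 : ∀ i, |A i * 1| ≤ L ^ 2 := fun i => by
    rw [mul_one]
    nlinarith [hA i]
  have h2 : ∀ i, |A i * E| ≤ L ^ 2 := fun i => by
    rw [abs_mul, pow_two]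
    exact mul_le_mul (hA i) hE (abs_nonneg _) (by linarith)
  fin_cases n
  · exact h1 0
  · exact h2 0
  · exact h1 1
  · exact h2 1

theorem rw4_sum (A : Fin 2 → ℝ) (E : ℝ) (U : Fin 2 → Fin 2 → ℝ) :
    ∑ n, rw4 A (xe E) n * U4 U n = ∑ i, A i * (U i 0 + E * U i 1) := by
  rw [Fin.sum_univ_four, Fin.sum_univ_two]
  simp only [rw4, U4, xe, Matrix.cons_val_zero, Matrix.cons_val_one, Matrix.cons_val]
  ring

/-- **The germ of two functions** from four copies. -/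
theorem germ4 {L K κ : ℝ} (hL : 1 ≤ L) (hκ : 0 < κ) {Aa Ta : Fin 4 → Fin 2 → ℝ}
    {Ea ba : Fin 4 → ℝ} {Pt : Fin 2 → ℝ} {U : Fin 2 → Fin 2 → ℝ} (hA : ∀ a i, |Aa a i| ≤ L)
    (hE : ∀ a, |Ea a| ≤ L) (hT : ∀ a j, |Ta a j| ≤ L) (hdet : κ ≤ |(f4 Aa Ea).det|)
    (hrel : ∀ a, |ba a - ∑ j, Ta a j * Pt j - ∑ i, Aa a i * (U i 0 + Ea a * U i 1)| ≤ K) :
    (∀ n, |U4 U n - m40 Aa Ea ba n - ∑ j, m41 Aa Ea Ta n j * Pt j| ≤ cK 4 (L ^ 2) κ * K) ∧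
      ∀ n j, |m41 Aa Ea Ta n j| ≤ cK 4 (L ^ 2) κ * L := by
  have hB1 : 1 ≤ L ^ 2 := one_le_pow₀ hL
  have hφ : ∀ i j, |f4 Aa Ea i j| ≤ L ^ 2 := fun i j => by
    show |rw4 (Aa i) (xe (Ea i)) j| ≤ L ^ 2
    exact rw4_le hL (hE i) (hA i) j
  refine ⟨fun n => ?_, fun n j => ?_⟩
  · exact germR (f4 Aa Ea) Ta ba (U4 U) Pt hB1 hκ hφ hdet (fun a => by
      have h1 : ∑ j, f4 Aa Ea a j * U4 U j = ∑ i, Aa a i * (U i 0 + Ea a * U i 1) :=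
        rw4_sum (Aa a) (Ea a) U
      rw [h1]
      have h2 := hrel a
      rwa [sub_right_comm] at h2) n
  · unfold m41
    rw [abs_neg]
    exact germR_le (f4 Aa Ea) (fun a => Ta a j) hB1 hκ hφ hdet (fun a => hT a j) n

/-! ### The law -/

variable {Ω σ ζ ζ' ε : Type} [Fintype Ω]

/-- The first four copies. -/
def j4 (a : Fin 4) : Fin 5 := ⟨a.1, by omega⟩

/-- The functionals of the copies. -/
def cA4 (A0 : ζ → ε → Fin 2 → ℝ) (y : ζ) (W : Fin 5 → ε) (a : Fin 4) : Fin 2 → ℝ := A0 y (W (j4 a))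

/-- The directions of the copies. -/
def cE4 (E0 : ζ → ε → ℝ) (y : ζ) (W : Fin 5 → ε) (a : Fin 4) : ℝ := E0 y (W (j4 a))

/-- The event of one side: the determinant of the copies is large. -/
def B2b (E0 : ζ → ε → ℝ) (A0 : ζ → ε → Fin 2 → ℝ) (μ₄ : ℝ) (y : ζ) (W : Fin 5 → ε) : Prop :=
  μ₄ ≤ |(f4 (cA4 A0 y W) (cE4 E0 y W)).det|

variable {p : Ω → ℝ} {S : Ω → σ} {z : Ω → ζ} {z' : Ω → ζ'} {e : Ω → ε} {E0 : ζ → ε → ℝ}
  {A0 T0 : ζ → ε → Fin 2 → ℝ} {b ek : Ω → ℤ} {P : Ω → Fin 2 → ℤ} {U : Ω → Fin 2 → Fin 2 → ℤ}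
  {A s k K₀ : ℕ} {L K cE eF eH eP : ℝ}

theorem xe_eq (E : ℝ) : xe E = XE E := by
  funext i
  fin_cases i <;> rfl

/-- The pointwise data of case [2b]. -/
structure G2b (U U' : Fin 2 → Fin 2 → ℤ) (P : Fin 2 → ℤ) (τ b : ℤ) (E : ℝ) (A T : Fin 2 → ℝ)
    (M0 N0 : Fin 4 → ℝ) (M1 N1 : Fin 4 → Fin 2 → ℝ) (K : ℝ) : Prop where
  g1 : ∀ n, |((U4 U n : ℤ) : ℝ) - M0 n - ∑ j, M1 n j * P j| ≤ K
  g2 : ∀ n, |((U4 U' n : ℤ) : ℝ) - N0 n - ∑ j, N1 n j * (P j + τ * XE E j)| ≤ K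
  g3 : ∀ i, |∑ a, (((U4 U' (ix i a) : ℤ) : ℝ) - ((U4 U (ix i a) : ℤ) : ℝ)) * XE E a| ≤ K
  g4 : |(b : ℝ) - ∑ j, T j * P j - ∑ i, A i * ∑ a, ((U4 U (ix i a) : ℤ) : ℝ) * XE E a| ≤ K
  g5 : |∑ i, A i * (((U4 U' (ix i 1) : ℤ) : ℝ) - ((U4 U (ix i 1) : ℤ) : ℝ)) + 2 * τ * T 1| ≤ K

/-- The error of case [2b]. -/
noncomputable def KB (L K μ₄ : ℝ) : ℝ := K + cK 4 (L ^ 2) μ₄ * (2 * L * K)

theorem cK_nn {d : ℕ} {B κ : ℝ} (hB : 0 ≤ B) (hκ : 0 ≤ κ) : 0 ≤ cK d B κ := by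
  unfold cK
  positivity

theorem KB_le {L K μ₄ : ℝ} (hL : 1 ≤ L) (hK : 0 ≤ K) (hμ : 0 ≤ μ₄) :
    K ≤ KB L K μ₄ ∧ cK 4 (L ^ 2) μ₄ * K ≤ KB L K μ₄ ∧
      cK 4 (L ^ 2) μ₄ * K + cK 4 (L ^ 2) μ₄ * L * K ≤ KB L K μ₄ := by
  have h0 : 0 ≤ cK 4 (L ^ 2) μ₄ := cK_nn (by positivity) hμ
  have h1 : 0 ≤ cK 4 (L ^ 2) μ₄ * K := mul_nonneg h0 hK
  have h2 : 0 ≤ (L - 1) * (cK 4 (L ^ 2) μ₄ * K) := mul_nonneg (by linarith) h1
  unfold KB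
  refine ⟨?_, ?_, ?_⟩
  · nlinarith
  · nlinarith
  · nlinarith

/-- The pointwise relations of one sample. -/
theorem PrD.g2b (D : PrD p S z z' e E0 A0 T0 b ek P U A s k K₀ L K cE eF eH eP) {μ₄ : ℝ}
    (hμ₄ : 0 < μ₄) {w : (Ω × Ω) × (Fin 10 → Ω × Ω)} (hw : 0 < PL p S z' sd10 w)
    (h1 : B2b E0 A0 μ₄ (z w.1.1) (Ws ja (Wc e b w)))
    (h2 : B2b E0 A0 μ₄ (z w.1.1) (Ws jb (Wc e b w))) :
    G2b (U w.1.1) (U w.1.2) (P w.1.1) (tq P w.1) (b w.1.1) (E0 (z w.1.1) (e w.1.1))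
      (A0 (z w.1.1) (e w.1.1)) (T0 (z w.1.1) (e w.1.1))
      (m40 (cA4 A0 (z w.1.1) (Ws ja (Wc e b w))) (cE4 E0 (z w.1.1) (Ws ja (Wc e b w)))
        (fun a => ((Wc e b w (ja (j4 a))).2 : ℝ)))
      (m40 (cA4 A0 (z w.1.1) (Ws jb (Wc e b w))) (cE4 E0 (z w.1.1) (Ws jb (Wc e b w)))
        (fun a => ((Wc e b w (jb (j4 a))).2 : ℝ)))
      (m41 (cA4 A0 (z w.1.1) (Ws ja (Wc e b w))) (cE4 E0 (z w.1.1) (Ws ja (Wc e b w)))
        (cA4 T0 (z w.1.1) (Ws ja (Wc e b w))))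
      (m41 (cA4 A0 (z w.1.1) (Ws jb (Wc e b w))) (cE4 E0 (z w.1.1) (Ws jb (Wc e b w)))
        (cA4 T0 (z w.1.1) (Ws jb (Wc e b w)))) (KB L K μ₄) := by
  have hL := D.hL
  have hK := D.hK
  obtain ⟨k1, k2, k3⟩ := KB_le hL hK hμ₄.le
  obtain ⟨p1, p2, p3, p4⟩ := PL_pos D.isLaw S z' sd10 hw
  have sm1 : ∀ a, sm sd10 (ja a) w.1 = w.1.1 := fun a => by
    unfold sm
    rw [sd_ja]
    rfl
  have sm2 : ∀ a, sm sd10 (jb a) w.1 = w.1.2 := fun a => by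
    unfold sm
    rw [sd_jb]
    rfl
  have r1 := germ4 (Pt := fun j => (P w.1.1 j : ℝ)) (U := fun i j => (U w.1.1 i j : ℝ))
    (ba := fun a => ((Wc e b w (ja (j4 a))).2 : ℝ)) hL hμ₄
    (Aa := cA4 A0 (z w.1.1) (Ws ja (Wc e b w))) (Ta := cA4 T0 (z w.1.1) (Ws ja (Wc e b w)))
    (Ea := cE4 E0 (z w.1.1) (Ws ja (Wc e b w)))
    (fun a => (D.cpb hw (ja (j4 a))).2.1) (fun a => (D.cpb hw (ja (j4 a))).1)
    (fun a => (D.cpb hw (ja (j4 a))).2.2) h1 (K := K) (fun a => by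
      have h := D.cpn hw (ja (j4 a))
      rw [sm1] at h
      exact h)
  have r2 := germ4 (Pt := fun j => (P w.1.2 j : ℝ)) (U := fun i j => (U w.1.2 i j : ℝ))
    (ba := fun a => ((Wc e b w (jb (j4 a))).2 : ℝ)) hL hμ₄
    (Aa := cA4 A0 (z w.1.1) (Ws jb (Wc e b w))) (Ta := cA4 T0 (z w.1.1) (Ws jb (Wc e b w)))
    (Ea := cE4 E0 (z w.1.1) (Ws jb (Wc e b w)))
    (fun a => (D.cpb hw (jb (j4 a))).2.1) (fun a => (D.cpb hw (jb (j4 a))).1)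
    (fun a => (D.cpb hw (jb (j4 a))).2.2) h2 (K := K) (fun a => by
      have h := D.cpn hw (jb (j4 a))
      rw [sm2] at h
      exact h)
  have hcast : ∀ (V : Fin 2 → Fin 2 → ℤ) (n : Fin 4),
      U4 (fun i j => (V i j : ℝ)) n = ((U4 V n : ℤ) : ℝ) := by
    intro V n
    fin_cases n <;> rfl
  have htq : (tq P w.1 : ℝ) = (P w.1.2 0 : ℝ) - P w.1.1 0 := by
    unfold tq
    push_cast
    ring
  have hmov := D.mov _ _ p1 p2 p3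
  have hvel := D.vel _ _ p1 p2 p3
  have hnum := D.num _ p1
  have hrel := D.rel _ _ p1 p2 p3
  constructor
  · intro n
    have h3 := r1.1 n
    rw [hcast] at h3
    exact h3.trans k2
  · intro n
    have h3 := r2.1 n
    have h4 := r2.2 n 1
    rw [hcast] at h3
    rw [Fin.sum_univ_two] at h3 ⊢
    rw [htq]
    have e0 : XE (E0 (z w.1.1) (e w.1.1)) 0 = 1 := rfl
    have e1 : XE (E0 (z w.1.1) (e w.1.1)) 1 = E0 (z w.1.1) (e w.1.1) := rfl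
    rw [e0, e1]
    refine le_trans ?_ k3
    have h5 := abs_add_le
      (((U4 (U w.1.2) n : ℤ) : ℝ) -
        m40 (cA4 A0 (z w.1.1) (Ws jb (Wc e b w))) (cE4 E0 (z w.1.1) (Ws jb (Wc e b w)))
          (fun a => ((Wc e b w (jb (j4 a))).2 : ℝ)) n -
        (m41 (cA4 A0 (z w.1.1) (Ws jb (Wc e b w))) (cE4 E0 (z w.1.1) (Ws jb (Wc e b w)))
            (cA4 T0 (z w.1.1) (Ws jb (Wc e b w))) n 0 * (P w.1.2 0 : ℝ) +
          m41 (cA4 A0 (z w.1.1) (Ws jb (Wc e b w))) (cE4 E0 (z w.1.1) (Ws jb (Wc e b w)))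
            (cA4 T0 (z w.1.1) (Ws jb (Wc e b w))) n 1 * (P w.1.2 1 : ℝ)))
      (m41 (cA4 A0 (z w.1.1) (Ws jb (Wc e b w))) (cE4 E0 (z w.1.1) (Ws jb (Wc e b w)))
            (cA4 T0 (z w.1.1) (Ws jb (Wc e b w))) n 1 *
        ((P w.1.2 1 : ℝ) - P w.1.1 1 -
          ((P w.1.2 0 : ℝ) - P w.1.1 0) * E0 (z w.1.1) (e w.1.1)))
    have h6 : |m41 (cA4 A0 (z w.1.1) (Ws jb (Wc e b w))) (cE4 E0 (z w.1.1) (Ws jb (Wc e b w)))
            (cA4 T0 (z w.1.1) (Ws jb (Wc e b w))) n 1 *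
        ((P w.1.2 1 : ℝ) - P w.1.1 1 -
          ((P w.1.2 0 : ℝ) - P w.1.1 0) * E0 (z w.1.1) (e w.1.1))| ≤
        cK 4 (L ^ 2) μ₄ * L * K := mul_bd h4 hmov
    refine le_trans (le_of_eq ?_) (h5.trans (add_le_add h3 h6))
    congr 1
    ring
  · intro i
    rw [Fin.sum_univ_two, U4_ix, U4_ix, U4_ix, U4_ix]
    have e0 : XE (E0 (z w.1.1) (e w.1.1)) 0 = 1 := rfl
    have e1 : XE (E0 (z w.1.1) (e w.1.1)) 1 = E0 (z w.1.1) (e w.1.1) := rfl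
    rw [e0, e1]
    refine le_trans (le_of_eq ?_) ((hvel i).trans k1)
    congr 1
    ring
  · refine le_trans (le_of_eq ?_) (hnum.trans k1)
    congr 2
    refine Finset.sum_congr rfl fun i _ => ?_
    rw [Fin.sum_univ_two, U4_ix, U4_ix]
    have e0 : XE (E0 (z w.1.1) (e w.1.1)) 0 = 1 := rfl
    have e1 : XE (E0 (z w.1.1) (e w.1.1)) 1 = E0 (z w.1.1) (e w.1.1) := rfl
    rw [e0, e1]
    ring
  · refine le_trans (le_of_eq ?_) ((hrel 1).trans k1)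
    rw [htq]
    congr 1
    rw [add_comm]
    congr 1

/-- **Case [2b].** -/
theorem c6_b (D : PrD p S z z' e E0 A0 T0 b ek P U A s k K₀ L K cE eF eH eP)
    {μ₄ μ₁ μ c c₃ c₄ : ℝ} {g : ℕ} (hμ₄ : 0 < μ₄) (hμ₁ : 0 < μ₁) (hc : 0 < c)
    (hn : (10 * (eF + eH) + Real.log 2) / c + Real.log (3 * 2 : ℕ) < (1 - cE / c) * Real.log K₀)
    (hμ : ((3 + 2 * L) * 2 ^ k) ^ 2 * (3 * ((2 * A : ℕ) : ℝ) / 2 ^ g +
      KB L K μ₄ * (3 + 2 * L) * (1 + 2 * L) / 2 ^ s) < μ)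
    (hpos : 0 < ((s : ℝ) - g) * Real.log 2 -
      Real.log (2 * (2 * (KB L K μ₄ * (3 + 2 * L) * (1 + 2 * L)) + 3 * ((2 * A : ℕ) : ℝ) + 1) + 1))
    (hN : (2 * eP + eF + 10 * (eF + eH)) + eH + Real.log 4 +
      3 * Real.log (2 * ((2 * A : ℕ) : ℝ) + 1) ≤ c * (((s : ℝ) - g) * Real.log 2 -
        Real.log (2 * (2 * (KB L K μ₄ * (3 + 2 * L) * (1 + 2 * L)) +
          3 * ((2 * A : ℕ) : ℝ) + 1) + 1)))
    (hc₃ : 0 ≤ c₃) (hmass : c₃ ≤ law (PL p S z' sd10) (fun w => B2b E0 A0 μ₄ (z w.1.1)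
      (Ws ja (Wc e b w))) True)
    (hw2 : law (PL p S z' sd10) (fun w => |w2 (A0 (z w.1.1) (e w.1.1))
      (A0 (z w.1.1) (Wc e b w (ja 4)).1)| < μ₁) True ≤ c₄) :
    c₃ ^ 2 - 2 * Real.sqrt (2 * c) - c₄ - 2 * c ≤ law (P2 p S) (fun v => ∀ i j,
      |(U v.2 i j : ℝ) - U v.1 i j| ≤
        thE (2 * A) s g L L (KB L K μ₄) μ μ₁ (thI g L L μ)) True := by
  have hp := D.isLaw
  have hQ := PL_isLaw hp S z' sd10
  have hq := hQ.nonneg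
  have hL := D.hL
  have hL0 : 0 ≤ L := by linarith
  have hKB : 0 ≤ KB L K μ₄ := D.hK.trans (KB_le hL D.hK hμ₄.le).1
  have hA2 : 1 ≤ 2 * A := by
    have := D.hA
    omega
  -- both sides
  obtain ⟨Ev, hEv⟩ : ∃ Ev : (Ω × Ω) × (Fin 10 → Ω × Ω) → Prop, Ev = fun w =>
    B2b E0 A0 μ₄ (z w.1.1) (Ws ja (Wc e b w)) ∧ B2b E0 A0 μ₄ (z w.1.1) (Ws jb (Wc e b w)) :=
    ⟨_, rfl⟩
  have hm1 := D.sides (fun y W _ => B2b E0 A0 μ₄ y W) hc₃ hmass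
  have hg : ∀ w, 0 < PL p S z' sd10 w → Ev w → G2b (U w.1.1) (U w.1.2) (P w.1.1) (tq P w.1)
      (b w.1.1) (E0 (z w.1.1) (e w.1.1)) (A0 (z w.1.1) (e w.1.1)) (T0 (z w.1.1) (e w.1.1))
      (m40 (cA4 A0 (z w.1.1) (Ws ja (Wc e b w))) (cE4 E0 (z w.1.1) (Ws ja (Wc e b w)))
        (fun a => ((Wc e b w (ja (j4 a))).2 : ℝ)))
      (m40 (cA4 A0 (z w.1.1) (Ws jb (Wc e b w))) (cE4 E0 (z w.1.1) (Ws jb (Wc e b w)))
        (fun a => ((Wc e b w (jb (j4 a))).2 : ℝ)))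
      (m41 (cA4 A0 (z w.1.1) (Ws ja (Wc e b w))) (cE4 E0 (z w.1.1) (Ws ja (Wc e b w)))
        (cA4 T0 (z w.1.1) (Ws ja (Wc e b w))))
      (m41 (cA4 A0 (z w.1.1) (Ws jb (Wc e b w))) (cE4 E0 (z w.1.1) (Ws jb (Wc e b w)))
        (cA4 T0 (z w.1.1) (Ws jb (Wc e b w)))) (KB L K μ₄) := by
    intro w hw h
    rw [hEv] at h
    exact D.g2b hμ₄ hw h.1 h.2
  -- the own Theta
  have hO := own2b hQ (fun w => z w.1.1) (Wc e b) (fun w => (z w.1.1, e w.1.1))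
    (fun w => ek w.1.1) (fun x => E0 x.1 x.2) (fun _ x => A0 x.1 x.2) (fun _ x => T0 x.1 x.2)
    (fun w => b w.1.1)
    (fun W y => m40 (cA4 A0 y (Ws ja W)) (cE4 E0 y (Ws ja W)) (fun a => ((W (ja (j4 a))).2 : ℝ)))
    (fun W y => m40 (cA4 A0 y (Ws jb W)) (cE4 E0 y (Ws jb W)) (fun a => ((W (jb (j4 a))).2 : ℝ)))
    (fun W y => m41 (cA4 A0 y (Ws ja W)) (cE4 E0 y (Ws ja W)) (cA4 T0 y (Ws ja W)))
    (fun W y => m41 (cA4 A0 y (Ws jb W)) (cE4 E0 y (Ws jb W)) (cA4 T0 y (Ws jb W)))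
    (fun w => P w.1.1) (fun w => U4 (U w.1.1)) (fun w => U4 (U w.1.2)) (fun w => tq P w.1) Ev
    (A := 2 * A) (s := s) (g := g) (k := k) (R := L) (B := L) (K := KB L K μ₄) (μ := μ) (c := c)
    (e1 := 2 * eP + eF + 10 * (eF + eH)) (eH := eH) (i := 10 * (eF + eH))
    (ρ := (1 - cE / c) * Real.log K₀) hA2 hL0 hL0 hKB hc
    (fun w hw j => D.hP hw j)
    (fun w hw _ => ⟨D.bE _ (PL_pos hp S z' sd10 hw).1, D.cell _ (PL_pos hp S z' sd10 hw).1⟩)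
    (fun w hw _ => D.bA _ (PL_pos hp S z' sd10 hw).1)
    (fun w hw h => (hg w hw h).g1) (fun w hw h => (hg w hw h).g2)
    (fun w hw h => (hg w hw h).g3) (fun w hw h => (hg w hw h).g4)
    (fun w hw h => (hg w hw h).g5)
    D.hfull D.hb0 (D.hI (fun v => ek v.1)) (fun G hG => D.hE hc G hG) hn hμ hpos hN
  rw [← law_Pb] at hO
  obtain ⟨th, hth⟩ : ∃ th : ℝ, th = thI g L L μ := ⟨_, rfl⟩
  rw [← hth] at hO
  rw [← hth]
  -- the own Theta is small on one side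
  have hS1 : law (PL p S z' sd10) (fun w => B2b E0 A0 μ₄ (z w.1.1) (Ws ja (Wc e b w)) ∧
      ∃ j, th < |T0 (z w.1.1) (e w.1.1) j|) True ≤ Real.sqrt (2 * c) := by
    refine Real.le_sqrt_of_sq_le ?_
    have h5 := D.sides (fun y W x => B2b E0 A0 μ₄ y W ∧ ∃ j, th < |T0 y x j|)
      (law_nonneg hq _ _) le_rfl
    refine h5.trans (le_trans (law_le hq fun w _ h => ?_) hO)
    rw [hEv]
    exact ⟨⟨h.1.1, h.2.1⟩, h.1.2⟩
  -- the same for the fifth copy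
  have hS2 : law (PL p S z' sd10) (fun w => B2b E0 A0 μ₄ (z w.1.1) (Ws ja (Wc e b w)) ∧
      ∃ j, th < |T0 (z w.1.1) (Wc e b w (ja 4)).1 j|) True ≤ Real.sqrt (2 * c) := by
    have hinj : Function.Injective (Fin.cons (ja 4) (fun a : Fin 4 => ja (j4 a)) :
        Fin (4 + 1) → Fin 10) := by
      intro a a' h
      revert h
      revert a a'
      decide
    have hjs : Function.Injective (fun a : Fin 4 => ja (j4 a)) := by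
      intro a a' h
      revert h
      revert a a'
      decide
    obtain ⟨B, hB⟩ : ∃ B : (Fin 4 → Ω) → Ω → Prop, B = fun g ω =>
      μ₄ ≤ |(f4 (fun a => A0 (z ω) (e (g a))) (fun a => E0 (z ω) (e (g a)))).det| ∧
        ∃ j, th < |T0 (z ω) (e ω) j| := ⟨_, rfl⟩
    have h6 := Pool.D2Con.own_eq hp S z' sd10 true (fun a : Fin 4 => ja (j4 a)) hjs (fun a => sd_ja _) B
    have h7 := Pool.D2Con.cop_eq hp S z' sd10 true (fun a : Fin 4 => ja (j4 a)) (ja 4) hinj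
      (fun a => sd_ja _) (sd_ja _) B
    have h8 : law (PL p S z' sd10) (fun w => B (fun a => cp sd10 (ja (j4 a)) w)
        (cp sd10 (ja 4) w)) True ≤ Real.sqrt (2 * c) := by
      rw [h7, ← h6]
      refine le_trans (law_le hq fun w _ h => ?_) hS1
      rw [hB] at h
      exact h
    refine le_trans (law_le hq fun w hw h => ?_) h8
    obtain ⟨-, z2, -, -, -, -⟩ := D.cpz hw (ja 4)
    rw [hB]
    show μ₄ ≤ |(f4 (fun a => A0 (z (cp sd10 (ja 4) w)) (e (cp sd10 (ja (j4 a)) w)))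
      (fun a => E0 (z (cp sd10 (ja 4) w)) (e (cp sd10 (ja (j4 a)) w)))).det| ∧
        ∃ j, th < |T0 (z (cp sd10 (ja 4) w)) (e (cp sd10 (ja 4) w)) j|
    rw [z2]
    exact h
  -- the end
  obtain ⟨G, hG⟩ : ∃ G : (Ω × Ω) × (Fin 10 → Ω × Ω) → Prop, G = fun w => Ev w ∧
    (∀ j, |T0 (z w.1.1) (e w.1.1) j| ≤ th) ∧ (∀ j, |T0 (z w.1.1) (Wc e b w (ja 4)).1 j| ≤ th) ∧
      μ₁ ≤ |w2 (A0 (z w.1.1) (e w.1.1)) (A0 (z w.1.1) (Wc e b w (ja 4)).1)| := ⟨_, rfl⟩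
  have hGE : ∀ w, G w → Ev w := fun w h => by
    rw [hG] at h
    exact h.1
  have sm1 : ∀ w : (Ω × Ω) × (Fin 10 → Ω × Ω), sm sd10 (ja 4) w.1 = w.1.1 := fun w => by
    unfold sm
    rw [sd_ja]
    rfl
  have hE2 := end2b hQ (fun w => z w.1.1) (Wc e b) (fun w => (z w.1.1, e w.1.1))
    (fun w => ek w.1.1) (fun x => E0 x.1 x.2) (fun _ x => A0 x.1 x.2) (fun _ x => T0 x.1 x.2)
    (fun w => b w.1.1)
    (fun W y => E0 y (W (ja 4)).1) (fun W y => A0 y (W (ja 4)).1) (fun W y => T0 y (W (ja 4)).1)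
    (fun W _ => ((W (ja 4)).2 : ℝ))
    (fun W y => m40 (cA4 A0 y (Ws ja W)) (cE4 E0 y (Ws ja W)) (fun a => ((W (ja (j4 a))).2 : ℝ)))
    (fun W y => m40 (cA4 A0 y (Ws jb W)) (cE4 E0 y (Ws jb W)) (fun a => ((W (jb (j4 a))).2 : ℝ)))
    (fun W y => m41 (cA4 A0 y (Ws ja W)) (cE4 E0 y (Ws ja W)) (cA4 T0 y (Ws ja W)))
    (fun W y => m41 (cA4 A0 y (Ws jb W)) (cE4 E0 y (Ws jb W)) (cA4 T0 y (Ws jb W)))
    (fun w => P w.1.1) (fun w => U4 (U w.1.1)) (fun w => U4 (U w.1.2)) (fun w => tq P w.1) G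
    (A := 2 * A) (s := s) (g := g) (k := k) (R := L) (B := L) (K := KB L K μ₄) (μ := μ) (ν := μ₁)
    (th := th) (c := c)
    (e1 := 2 * eP + eF + 10 * (eF + eH)) (eH := eH) (i := 10 * (eF + eH))
    (ρ := (1 - cE / c) * Real.log K₀) hA2 hL0 hL0 hKB hc
    (fun w hw j => D.hP hw j)
    (fun w hw _ => ⟨D.bE _ (PL_pos hp S z' sd10 hw).1, D.cell _ (PL_pos hp S z' sd10 hw).1⟩)
    (fun w hw _ => (D.cpb hw (ja 4)).1)
    (fun w hw _ => D.bA _ (PL_pos hp S z' sd10 hw).1)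
    (fun w hw _ => (D.cpb hw (ja 4)).2.1)
    (fun w hw h => (hg w hw (hGE w h)).g1) (fun w hw h => (hg w hw (hGE w h)).g2)
    (fun w hw h => (hg w hw (hGE w h)).g3) (fun w hw h => (hg w hw (hGE w h)).g4)
    (fun w hw h => (hg w hw (hGE w h)).g5)
    (fun w hw h => by
      have h9 := D.cpn hw (ja 4)
      rw [sm1] at h9
      refine le_trans (le_of_eq ?_) (h9.trans (KB_le hL D.hK hμ₄.le).1)
      congr 2
      refine Finset.sum_congr rfl fun i _ => ?_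
      rw [Fin.sum_univ_two, U4_ix, U4_ix]
      have e0 : ∀ x, XE x 0 = 1 := fun x => rfl
      have e1 : ∀ x, XE x 1 = x := fun x => rfl
      rw [e0, e1]
      ring)
    hμ₁ (fun w _ h => by
      rw [hG] at h
      exact h.2.2.2)
    (fun w _ h => by
      rw [hG] at h
      exact h.2.1 1)
    (fun w _ h => by
      rw [hG] at h
      exact h.2.2.1 1)
    D.hfull D.hb0 (D.hI (fun v => ek v.1)) (fun G hG => D.hE hc G hG) hn hμ hpos hN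
  rw [← law_Pb] at hE2
  obtain ⟨te, hte⟩ : ∃ te : ℝ, te = thE (2 * A) s g L L (KB L K μ₄) μ μ₁ th := ⟨_, rfl⟩
  rw [← hte] at hE2
  rw [← hte]
  have h9 : law (PL p S z' sd10) (fun w => ∀ i j,
      |(U w.1.2 i j : ℝ) - U w.1.1 i j| ≤ te) True =
      law (P2 p S) (fun v => ∀ i j, |(U v.2 i j : ℝ) - U v.1 i j| ≤ te) True :=
    (PL_base hp S z' sd10).law (fun v => ∀ i j, |(U v.2 i j : ℝ) - U v.1 i j| ≤ te) True
  rw [← h9]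
  have hcov := law_le hq (A := Ev) (B := fun w => (((∀ i j,
      |(U w.1.2 i j : ℝ) - U w.1.1 i j| ≤ te) ∨
      (G w ∧ ∃ n, te < |((U4 (U w.1.2) n : ℤ) : ℝ) - ((U4 (U w.1.1) n : ℤ) : ℝ)|)) ∨
      (B2b E0 A0 μ₄ (z w.1.1) (Ws ja (Wc e b w)) ∧ ∃ j, th < |T0 (z w.1.1) (e w.1.1) j|)) ∨
      ((B2b E0 A0 μ₄ (z w.1.1) (Ws ja (Wc e b w)) ∧
        ∃ j, th < |T0 (z w.1.1) (Wc e b w (ja 4)).1 j|) ∨
      |w2 (A0 (z w.1.1) (e w.1.1)) (A0 (z w.1.1) (Wc e b w (ja 4)).1)| < μ₁))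
    (fun w _ h => by
      have hb1 : B2b E0 A0 μ₄ (z w.1.1) (Ws ja (Wc e b w)) := by
        rw [hEv] at h
        exact h.1
      by_cases c1 : ∃ j, th < |T0 (z w.1.1) (e w.1.1) j|
      · exact Or.inl (Or.inr ⟨hb1, c1⟩)
      by_cases c2 : ∃ j, th < |T0 (z w.1.1) (Wc e b w (ja 4)).1 j|
      · exact Or.inr (Or.inl ⟨hb1, c2⟩)
      by_cases c3 : |w2 (A0 (z w.1.1) (e w.1.1)) (A0 (z w.1.1) (Wc e b w (ja 4)).1)| < μ₁
      · exact Or.inr (Or.inr c3)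
      have hGw : G w := by
        rw [hG]
        exact ⟨h, fun j => not_lt.mp fun h' => c1 ⟨j, h'⟩, fun j => not_lt.mp fun h' => c2 ⟨j, h'⟩,
          not_lt.mp c3⟩
      by_cases c4 : ∃ n, te < |((U4 (U w.1.2) n : ℤ) : ℝ) - ((U4 (U w.1.1) n : ℤ) : ℝ)|
      · exact Or.inl (Or.inl (Or.inr ⟨hGw, c4⟩))
      · refine Or.inl (Or.inl (Or.inl fun i j => not_lt.mp fun h' => c4 ⟨ix i j, ?_⟩))
        rw [U4_ix, U4_ix]
        exact h')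
  have o1 := Pb_or hq (fun w => (((∀ i j, |(U w.1.2 i j : ℝ) - U w.1.1 i j| ≤ te) ∨
      (G w ∧ ∃ n, te < |((U4 (U w.1.2) n : ℤ) : ℝ) - ((U4 (U w.1.1) n : ℤ) : ℝ)|)) ∨
      (B2b E0 A0 μ₄ (z w.1.1) (Ws ja (Wc e b w)) ∧ ∃ j, th < |T0 (z w.1.1) (e w.1.1) j|)))
    (fun w => ((B2b E0 A0 μ₄ (z w.1.1) (Ws ja (Wc e b w)) ∧
        ∃ j, th < |T0 (z w.1.1) (Wc e b w (ja 4)).1 j|) ∨
      |w2 (A0 (z w.1.1) (e w.1.1)) (A0 (z w.1.1) (Wc e b w (ja 4)).1)| < μ₁))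
  have o2 := Pb_or hq (fun w => ((∀ i j, |(U w.1.2 i j : ℝ) - U w.1.1 i j| ≤ te) ∨
      (G w ∧ ∃ n, te < |((U4 (U w.1.2) n : ℤ) : ℝ) - ((U4 (U w.1.1) n : ℤ) : ℝ)|)))
    (fun w => (B2b E0 A0 μ₄ (z w.1.1) (Ws ja (Wc e b w)) ∧
      ∃ j, th < |T0 (z w.1.1) (e w.1.1) j|))
  have o3 := Pb_or hq (fun w => (∀ i j, |(U w.1.2 i j : ℝ) - U w.1.1 i j| ≤ te))
    (fun w => (G w ∧ ∃ n, te < |((U4 (U w.1.2) n : ℤ) : ℝ) - ((U4 (U w.1.1) n : ℤ) : ℝ)|))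
  have o4 := Pb_or hq (fun w => (B2b E0 A0 μ₄ (z w.1.1) (Ws ja (Wc e b w)) ∧
        ∃ j, th < |T0 (z w.1.1) (Wc e b w (ja 4)).1 j|))
    (fun w => |w2 (A0 (z w.1.1) (e w.1.1)) (A0 (z w.1.1) (Wc e b w (ja 4)).1)| < μ₁)
  rw [← law_Pb, ← law_Pb, ← law_Pb] at o1 o2 o3 o4
  rw [← hEv] at hm1
  linarith

end Pool.D2N
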