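import Pool.Agent.H90.D2.Nrr
import Pool.Agent.H23.D2.Nat

/-!
# D2: natural components of a covector in a frame

`dvn`: the vector with given natural coordinates. `nc`: the natural components of a covector;
`cv_nc`: its value in natural coordinates. `grd`: the gradient of a polynomial as a covector.
-/

set_option autoImplicit false

namespace Pool.D2F

open Finset Real MvPolynomial
open Pool.Agent.H49.Ent Pool.Agent.H32.Dense Pool.STK Pool.KA Pool.KSAT Pool.K2S Pool.PB Pool.S6C
open Pool.GEN Pool.CHT Pool.CHX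
open Pool.D2R (dd hs)

variable {m J : ℕ}

/-- The vector with the natural coordinates `ξ 0, …, ξ n`. -/
noncomputable def dvn (c : ℕ → Fin m) (g : ℕ → ℕ) (a : ℕ) (ψ : ℕ → Option (Fin m) → ℝ)
    (ξ : ℕ → ℝ) : ℕ → Option (Fin m) → ℝ
  | 0 => fun o => if o = none then ξ 0 / 2 ^ a else 0
  | l + 1 => Function.update (dvn c g a ψ ξ l) (some (c l))
      (ξ (l + 1) / 2 ^ g l + cv (ψ l) (dvn c g a ψ ξ l))

theorem dvn_none (c : ℕ → Fin m) (g : ℕ → ℕ) (a : ℕ) (ψ : ℕ → Option (Fin m) → ℝ)
    (ξ : ℕ → ℝ) (n : ℕ) : dvn c g a ψ ξ n none = ξ 0 / 2 ^ a := by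
  induction n with
  | zero => simp [dvn]
  | succ l ih =>
    rw [dvn, Function.update_of_ne (by simp), ih]

theorem dvn_some {c : ℕ → Fin m} {n : ℕ} (hc : Set.InjOn c (Set.Iio n)) (g : ℕ → ℕ) (a : ℕ)
    (ψ : ℕ → Option (Fin m) → ℝ) (ξ : ℕ → ℝ) {l : ℕ} (hl : l < n) {x : ℕ} (hx : l < x)
    (hxn : x ≤ n) : dvn c g a ψ ξ x (some (c l)) =
      ξ (l + 1) / 2 ^ g l + cv (ψ l) (dvn c g a ψ ξ l) := by
  induction x with
  | zero => exact absurd hx (Nat.not_lt_zero _)
  | succ y ih =>
    rw [dvn]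
    by_cases h : l = y
    · subst h
      rw [Function.update_self]
    · rw [Function.update_of_ne fun h' => h (hc (show l < n from hl) (show y < n by omega)
        (Option.some_injective _ h'))]
      exact ih (by omega) (by omega)

/-- The natural coordinates of the vector. -/
theorem eta_dvn {c : ℕ → Fin m} {n : ℕ} (hc : Set.InjOn c (Set.Iio n)) (g : ℕ → ℕ) (a : ℕ)
    {ψ : ℕ → Option (Fin m) → ℝ} (hψ : ∀ l, CvC c l (ψ l)) (ξ : ℕ → ℝ) {j : ℕ} (hj : j ≤ n) :
    eta c g a ψ (dvn c g a ψ ξ n) j = ξ j := by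
  cases j with
  | zero =>
    simp only [eta, dvn_none]
    field_simp
  | succ l =>
    simp only [eta]
    rw [dvn_some hc g a ψ ξ hj hj le_rfl, cv_congr (hψ l) (W := dvn c g a ψ ξ n)
      (W' := dvn c g a ψ ξ l) (by rw [dvn_none, dvn_none]) fun j hj' => by
        rw [dvn_some hc g a ψ ξ (show j < n by omega) (show j < n by omega) le_rfl,
          dvn_some hc g a ψ ξ (show j < n by omega) hj' (by omega)]]
    field_simp
    ring

/-- Vectors with the same natural coordinates have the same coordinates on the chain. -/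
theorem eta_inj {c : ℕ → Fin m} {n : ℕ} (g : ℕ → ℕ) (a : ℕ) {ψ : ℕ → Option (Fin m) → ℝ}
    (hψ : ∀ l, CvC c l (ψ l)) {W W' : Option (Fin m) → ℝ}
    (h : ∀ j ≤ n, eta c g a ψ W j = eta c g a ψ W' j) :
    W none = W' none ∧ ∀ l < n, W (some (c l)) = W' (some (c l)) := by
  have h0 : W none = W' none := by
    have h1 := h 0 (Nat.zero_le n)
    simp only [eta] at h1
    exact mul_left_cancel₀ (by positivity) h1
  refine ⟨h0, fun l hl => ?_⟩
  induction l using Nat.strong_induction_on with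
  | _ l ih =>
    have h1 := h (l + 1) hl
    simp only [eta] at h1
    have h2 := mul_left_cancel₀ (by positivity : (2 : ℝ) ^ g l ≠ 0) h1
    rw [cv_congr (hψ l) h0 fun j hj => ih j hj (hj.trans hl)] at h2
    linarith

/-- **The natural components** of a covector. -/
noncomputable def nc (c : ℕ → Fin m) (g : ℕ → ℕ) (a : ℕ) (ψ : ℕ → Option (Fin m) → ℝ) (n : ℕ)
    (φ : Option (Fin m) → ℝ) (j : ℕ) : ℝ :=
  cv φ (dvn c g a ψ (fun x => if x = j then 1 else 0) n)

/-- **The value of a covector in natural coordinates.** -/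
theorem cv_nc {c : ℕ → Fin m} {n : ℕ} (hc : Set.InjOn c (Set.Iio n)) (g : ℕ → ℕ) (a : ℕ)
    {ψ : ℕ → Option (Fin m) → ℝ} (hψ : ∀ l, CvC c l (ψ l)) {φ : Option (Fin m) → ℝ}
    (hφ : CvC c n φ) (W : Option (Fin m) → ℝ) :
    cv φ W = ∑ j ∈ range (n + 1), nc c g a ψ n φ j * eta c g a ψ W j := by
  have h1 : cv φ W = cv φ (∑ j ∈ range (n + 1), eta c g a ψ W j •
      dvn c g a ψ (fun x => if x = j then 1 else 0) n) := by
    have e1 : ∀ x ≤ n, eta c g a ψ W x = eta c g a ψ (∑ j ∈ range (n + 1), eta c g a ψ W j •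
        dvn c g a ψ (fun x => if x = j then 1 else 0) n) x := by
      intro x hx
      have e2 : ∀ s : Finset ℕ, eta c g a ψ (∑ j ∈ s, eta c g a ψ W j •
          dvn c g a ψ (fun x => if x = j then 1 else 0) n) x =
          ∑ j ∈ s, eta c g a ψ W j * (if x = j then 1 else 0) := by
        intro s
        classical
        induction s using Finset.induction_on with
        | empty =>
          rw [Finset.sum_empty, Finset.sum_empty]
          have := eta_smul c g a ψ (0 : Option (Fin m) → ℝ) 0 x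
          rw [zero_smul, zero_mul] at this
          exact this
        | insert i s hi ih =>
          rw [Finset.sum_insert hi, Finset.sum_insert hi, eta_add, eta_smul, ih,
            eta_dvn hc g a hψ _ hx]
      rw [e2]
      simp only [mul_ite, mul_one, mul_zero]
      rw [Finset.sum_ite_eq, if_pos (Finset.mem_range.2 (by omega))]
    obtain ⟨h0, h2⟩ := eta_inj g a hψ e1
    exact cv_congr hφ h0 h2
  have e3 : ∀ s : Finset ℕ, cv φ (∑ j ∈ s, eta c g a ψ W j •
      dvn c g a ψ (fun x => if x = j then 1 else 0) n) =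
      ∑ j ∈ s, nc c g a ψ n φ j * eta c g a ψ W j := by
    intro s
    classical
    induction s using Finset.induction_on with
    | empty =>
      rw [Finset.sum_empty, Finset.sum_empty]
      unfold cv
      simp
    | insert i s hi ih =>
      rw [Finset.sum_insert hi, Finset.sum_insert hi, cv_add, cv_smul, ih]
      unfold nc
      ring
  rw [h1, e3]

/-- The natural components are natural if the covector is natural. -/
theorem nc_le {c : ℕ → Fin m} {n : ℕ} (hc : Set.InjOn c (Set.Iio n)) (g : ℕ → ℕ) (a : ℕ)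
    {ψ : ℕ → Option (Fin m) → ℝ} (hψ : ∀ l, CvC c l (ψ l)) {φ : Option (Fin m) → ℝ} {M : ℝ}
    (h : ∀ W : Option (Fin m) → ℝ, (∀ j ≤ n, |eta c g a ψ W j| ≤ 1) → |cv φ W| ≤ M) (j : ℕ) :
    |nc c g a ψ n φ j| ≤ M := by
  refine h _ fun x hx => ?_
  rw [eta_dvn hc g a hψ _ hx]
  split_ifs <;> simp

theorem nc_sub (c : ℕ → Fin m) (g : ℕ → ℕ) (a : ℕ) (ψ : ℕ → Option (Fin m) → ℝ) (n : ℕ)
    (φ φ' : Option (Fin m) → ℝ) (j : ℕ) :
    nc c g a ψ n (φ - φ') j = nc c g a ψ n φ j - nc c g a ψ n φ' j := by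
  unfold nc cv
  rw [← Finset.sum_sub_distrib]
  exact Finset.sum_congr rfl fun o _ => by rw [Pi.sub_apply]; ring

theorem nc_smul (c : ℕ → Fin m) (g : ℕ → ℕ) (a : ℕ) (ψ : ℕ → Option (Fin m) → ℝ) (n : ℕ)
    (φ : Option (Fin m) → ℝ) (t : ℝ) (j : ℕ) :
    nc c g a ψ n (t • φ) j = t * nc c g a ψ n φ j := by
  unfold nc cv
  rw [Finset.mul_sum]
  exact Finset.sum_congr rfl fun o _ => by rw [Pi.smul_apply, smul_eq_mul]; ring

/-! ### Gradients -/

/-- The gradient of a polynomial. -/
noncomputable def grd (P : MvPolynomial (Option (Fin m)) ℝ) (x : Option (Fin m) → ℝ)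
    (o : Option (Fin m)) : ℝ := eval x (pderiv o P)

theorem cv_grd (P : MvPolynomial (Option (Fin m)) ℝ) (x W : Option (Fin m) → ℝ) :
    cv (grd P x) W = dd P x W := by
  unfold cv grd dd
  exact Finset.sum_congr rfl fun o _ => by ring

end Pool.D2F
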