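import Pool.Agent.H90.D2.Cub
import Pool.Agent.H2.GEN.EvS
import Pool.Agent.H23.D2.Nat

/-!
# D2: labels of degree three relative to a closed chart

`G`, `H`: a chain of closed ball charts at a window `a`. `xi`: the natural coordinates of a point
relative to the charts. `LC`: the labels of the points with the coefficients `μ`, `κ`, `lam`.
`Clc`: the labels of two samples are close. `crv_cls`: two independent samples of one line and
window are not close. `clc_of`: the criterion.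
-/

set_option autoImplicit false

namespace Pool.D2C

open Finset Real MvPolynomial
open Pool.Agent.H49.Ent Pool.Agent.H32.Dense Pool.STK Pool.KA Pool.KSAT Pool.K2S Pool.PB Pool.S6C
open Pool.GEN Pool.CHT Pool.CHX
open Pool.LBT (ThrOf)
open Pool.KM7 (P2)
open Pool.VIS24 (VPol Nr)
open Pool.D2F (ln bl hx hx_none hx_some tu tu_le slam_eq)
open Pool.D2R (pd_zero)
open Pool.ISO (Clsd)

variable {m J : ℕ}

/-- **The natural coordinates of a point relative to the charts.** -/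
noncomputable def xi (c : ℕ → Fin m) (g : ℕ → ℕ) (a : ℕ)
    (G : ℕ → MvPolynomial (Option (Fin m)) ℝ) (b : Option (Fin m) → ℝ) : ℕ → ℝ
  | 0 => 2 ^ a * b none
  | l + 1 => 2 ^ g l * (b (some (c l)) - eval b (G l))

/-- The natural coordinates relative to the point `h`, as polynomials. -/
noncomputable def xip (c : ℕ → Fin m) (g : ℕ → ℕ) (a : ℕ)
    (G : ℕ → MvPolynomial (Option (Fin m)) ℝ) (h : Option (Fin m) → ℝ) :
    ℕ → MvPolynomial (Option (Fin m)) ℝ
  | 0 => C (2 ^ a) * X none - C (xi c g a G h 0)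
  | l + 1 => C (2 ^ g l) * (X (some (c l)) - G l) - C (xi c g a G h (l + 1))

theorem eval_xip (c : ℕ → Fin m) (g : ℕ → ℕ) (a : ℕ) (G : ℕ → MvPolynomial (Option (Fin m)) ℝ)
    (h b : Option (Fin m) → ℝ) (j : ℕ) :
    eval b (xip c g a G h j) = xi c g a G b j - xi c g a G h j := by
  cases j with
  | zero => simp [xip, xi]
  | succ l => simp [xip, xi]

theorem deg_xip (c : ℕ → Fin m) (g : ℕ → ℕ) (a : ℕ) {G : ℕ → MvPolynomial (Option (Fin m)) ℝ}
    {D : ℕ} (hD : 1 ≤ D) (hG : ∀ l, (G l).totalDegree ≤ D) (h : Option (Fin m) → ℝ) (j : ℕ) :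
    (xip c g a G h j).totalDegree ≤ D := by
  cases j with
  | zero =>
    simp only [xip]
    refine (totalDegree_sub _ _).trans (max_le ?_ (by rw [totalDegree_C]; exact Nat.zero_le _))
    refine (totalDegree_mul _ _).trans ?_
    rw [totalDegree_C, totalDegree_X]
    omega
  | succ l =>
    simp only [xip]
    refine (totalDegree_sub _ _).trans (max_le ?_ (by rw [totalDegree_C]; exact Nat.zero_le _))
    refine (totalDegree_mul _ _).trans ?_
    rw [totalDegree_C, Nat.zero_add]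
    refine (totalDegree_sub _ _).trans (max_le ?_ (hG l))
    rw [totalDegree_X]
    exact hD

theorem dep_xip {c : ℕ → Fin m} (g : ℕ → ℕ) (a : ℕ) {G : ℕ → MvPolynomial (Option (Fin m)) ℝ}
    (hG : ∀ l, DepC c l (G l)) (h : Option (Fin m) → ℝ) {i j : ℕ} (hj : j ≤ i) :
    DepC c i (xip c g a G h j) := by
  intro b b' hn hb
  rw [eval_xip, eval_xip]
  cases j with
  | zero => simp only [xi, hn]
  | succ l =>
    simp only [xi]
    rw [hb l hj, hG l b b' hn fun j hj' => hb j (by omega)]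

/-- The derivatives of the natural coordinates. -/
noncomputable def dxi (c : ℕ → Fin m) (g : ℕ → ℕ) (G : ℕ → MvPolynomial (Option (Fin m)) ℝ)
    (b : Option (Fin m) → ℝ) (k : Fin m) : ℕ → ℝ
  | 0 => 0
  | l + 1 => 2 ^ g l * ((if c l = k then 1 else 0) - eval b (pderiv (some k) (G l)))

theorem pd_xip (c : ℕ → Fin m) (g : ℕ → ℕ) (a : ℕ) (G : ℕ → MvPolynomial (Option (Fin m)) ℝ)
    (h b : Option (Fin m) → ℝ) (k : Fin m) (j : ℕ) :
    eval b (pderiv (some k) (xip c g a G h j)) = dxi c g G b k j := by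
  classical
  cases j with
  | zero =>
    simp only [xip, dxi]
    rw [map_sub, pderiv_C, sub_zero, pderiv_mul, pderiv_C, zero_mul, zero_add,
      pderiv_X_of_ne (by simp), mul_zero, map_zero]
  | succ l =>
    simp only [xip, dxi]
    rw [map_sub, pderiv_C, sub_zero, pderiv_mul, pderiv_C, zero_mul, zero_add, map_sub, map_mul,
      map_sub, eval_C]
    congr 2
    by_cases hk : c l = k
    · rw [if_pos hk, hk, pderiv_X_self, map_one]
    · rw [if_neg hk, pderiv_X_of_ne (fun h' => hk (Option.some_injective _ h')), map_zero]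

/-- The label. -/
noncomputable def lcp (c : ℕ → Fin m) (g : ℕ → ℕ) (a : ℕ)
    (G : ℕ → MvPolynomial (Option (Fin m)) ℝ) (i : ℕ) (h : Option (Fin m) → ℝ) (μ : ℕ → ℝ)
    (κ : ℕ → ℕ → ℝ) (lam : ℕ → ℕ → ℕ → ℝ) : MvPolynomial (Option (Fin m)) ℝ :=
  C (h (some (c i)) - eval h (G i)) + G i + C (1 / 2 ^ g i) *
    (∑ j ∈ range (i + 1), C (μ j) * xip c g a G h j +
      C (1 / 2) * (∑ j ∈ range (i + 1), ∑ k ∈ range (i + 1),
        C (κ j k) * (xip c g a G h j * xip c g a G h k)) +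
      C (1 / 6) * (∑ j ∈ range (i + 1), ∑ k ∈ range (i + 1), ∑ l ∈ range (i + 1),
        C (lam j k l) * (xip c g a G h j * xip c g a G h k * xip c g a G h l)))

theorem eval_lcp (c : ℕ → Fin m) (g : ℕ → ℕ) (a : ℕ) (G : ℕ → MvPolynomial (Option (Fin m)) ℝ)
    (i : ℕ) (h : Option (Fin m) → ℝ) (μ : ℕ → ℝ) (κ : ℕ → ℕ → ℝ) (lam : ℕ → ℕ → ℕ → ℝ)
    (b : Option (Fin m) → ℝ) : eval b (lcp c g a G i h μ κ lam) =
      h (some (c i)) - eval h (G i) + eval b (G i) + 1 / 2 ^ g i *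
        cb i μ κ lam (xi c g a G b - xi c g a G h) := by
  unfold lcp cb ln bl tl
  simp only [map_add, map_mul, map_sum, eval_C, eval_xip, Pi.sub_apply]

theorem deg_lcp (c : ℕ → Fin m) (g : ℕ → ℕ) (a : ℕ) {G : ℕ → MvPolynomial (Option (Fin m)) ℝ}
    {D : ℕ} (hD : 1 ≤ D) (hG : ∀ l, (G l).totalDegree ≤ D) (i : ℕ) (h : Option (Fin m) → ℝ)
    (μ : ℕ → ℝ) (κ : ℕ → ℕ → ℝ) (lam : ℕ → ℕ → ℕ → ℝ) :
    (lcp c g a G i h μ κ lam).totalDegree ≤ 3 * D := by
  have h1 : ∀ j, (xip c g a G h j).totalDegree ≤ D := deg_xip c g a hD hG h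
  have hs : ∀ (f : ℕ → MvPolynomial (Option (Fin m)) ℝ) (d : ℕ),
      (∀ j, (f j).totalDegree ≤ d) → (∑ j ∈ range (i + 1), f j).totalDegree ≤ d := fun f d hf =>
    totalDegree_finsetSum_le fun j _ => hf j
  have hCm : ∀ (x : ℝ) (Q : MvPolynomial (Option (Fin m)) ℝ),
      (C x * Q).totalDegree ≤ Q.totalDegree := fun x Q => by
    refine (totalDegree_mul _ _).trans ?_
    rw [totalDegree_C, Nat.zero_add]
  unfold lcp
  refine (totalDegree_add _ _).trans (max_le ((totalDegree_add _ _).trans (max_le ?_ ?_)) ?_)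
  · rw [totalDegree_C]
    exact Nat.zero_le _
  · exact (hG i).trans (by omega)
  · refine (hCm _ _).trans ((totalDegree_add _ _).trans (max_le
      ((totalDegree_add _ _).trans (max_le ?_ ?_)) ?_))
    · exact hs _ _ fun j => (hCm _ _).trans ((h1 j).trans (by omega))
    · refine (hCm _ _).trans (hs _ _ fun j => hs _ _ fun k => (hCm _ _).trans ?_)
      refine (totalDegree_mul _ _).trans ?_
      have := h1 j
      have := h1 k
      omega
    · refine (hCm _ _).trans (hs _ _ fun j => hs _ _ fun k => hs _ _ fun l => (hCm _ _).trans ?_)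
      refine (totalDegree_mul _ _).trans ?_
      have h2 := totalDegree_mul (xip c g a G h j) (xip c g a G h k)
      have := h1 j
      have := h1 k
      have := h1 l
      omega

theorem dep_lcp {c : ℕ → Fin m} (g : ℕ → ℕ) (a : ℕ) {G : ℕ → MvPolynomial (Option (Fin m)) ℝ}
    (hG : ∀ l, DepC c l (G l)) (i : ℕ) (h : Option (Fin m) → ℝ) (μ : ℕ → ℝ)
    (κ : ℕ → ℕ → ℝ) (lam : ℕ → ℕ → ℕ → ℝ) : DepC c i (lcp c g a G i h μ κ lam) := by
  intro b b' hn hb
  rw [eval_lcp, eval_lcp, hG i b b' hn hb]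
  congr 2
  have h1 : ∀ j ≤ i, (xi c g a G b - xi c g a G h) j = (xi c g a G b' - xi c g a G h) j := by
    intro j hj
    have h2 := dep_xip g a hG h hj b b' hn hb
    rw [eval_xip, eval_xip] at h2
    exact h2
  unfold cb ln bl tl
  congr 1
  · congr 1
    · exact Finset.sum_congr rfl fun j hj => by
        rw [h1 j (Nat.lt_succ_iff.1 (Finset.mem_range.1 hj))]
    · congr 1
      refine Finset.sum_congr rfl fun j hj => Finset.sum_congr rfl fun k hk => ?_
      rw [h1 j (Nat.lt_succ_iff.1 (Finset.mem_range.1 hj)),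
        h1 k (Nat.lt_succ_iff.1 (Finset.mem_range.1 hk))]
  · congr 1
    refine Finset.sum_congr rfl fun j hj => Finset.sum_congr rfl fun k hk =>
      Finset.sum_congr rfl fun l hl => ?_
    rw [h1 j (Nat.lt_succ_iff.1 (Finset.mem_range.1 hj)),
      h1 k (Nat.lt_succ_iff.1 (Finset.mem_range.1 hk)),
      h1 l (Nat.lt_succ_iff.1 (Finset.mem_range.1 hl))]

/-- The derivatives of the label. -/
theorem pd_lcp (c : ℕ → Fin m) (g : ℕ → ℕ) (a : ℕ) (G : ℕ → MvPolynomial (Option (Fin m)) ℝ)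
    (i : ℕ) (h : Option (Fin m) → ℝ) (μ : ℕ → ℝ) (κ : ℕ → ℕ → ℝ) (lam : ℕ → ℕ → ℕ → ℝ)
    (b : Option (Fin m) → ℝ) (k : Fin m) : eval b (pderiv (some k) (lcp c g a G i h μ κ lam)) =
      eval b (pderiv (some k) (G i)) + 1 / 2 ^ g i *
        (ln i μ (dxi c g G b k) +
          1 / 2 * (bl i κ (dxi c g G b k) (xi c g a G b - xi c g a G h) +
            bl i κ (xi c g a G b - xi c g a G h) (dxi c g G b k)) +
          1 / 6 * (tl i lam (dxi c g G b k) (xi c g a G b - xi c g a G h)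
              (xi c g a G b - xi c g a G h) +
            tl i lam (xi c g a G b - xi c g a G h) (dxi c g G b k)
              (xi c g a G b - xi c g a G h) +
            tl i lam (xi c g a G b - xi c g a G h) (xi c g a G b - xi c g a G h)
              (dxi c g G b k))) := by
  have e1 : eval b (pderiv (some k) (∑ j ∈ range (i + 1), C (μ j) * xip c g a G h j)) =
      ln i μ (dxi c g G b k) := by
    unfold ln
    rw [map_sum, map_sum]
    refine Finset.sum_congr rfl fun j _ => ?_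
    rw [pderiv_mul, pderiv_C, zero_mul, zero_add, map_mul, eval_C, pd_xip]
  have e2 : eval b (pderiv (some k) (∑ j ∈ range (i + 1), ∑ x ∈ range (i + 1),
      C (κ j x) * (xip c g a G h j * xip c g a G h x))) =
      bl i κ (dxi c g G b k) (xi c g a G b - xi c g a G h) +
        bl i κ (xi c g a G b - xi c g a G h) (dxi c g G b k) := by
    unfold bl
    rw [map_sum, map_sum, ← Finset.sum_add_distrib]
    refine Finset.sum_congr rfl fun j _ => ?_
    rw [map_sum, map_sum, ← Finset.sum_add_distrib]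
    refine Finset.sum_congr rfl fun x _ => ?_
    rw [pderiv_mul, pderiv_C, zero_mul, zero_add, map_mul, eval_C, pderiv_mul, map_add, map_mul,
      map_mul, pd_xip, pd_xip, eval_xip, eval_xip, Pi.sub_apply, Pi.sub_apply]
    ring
  have e3 : eval b (pderiv (some k) (∑ j ∈ range (i + 1), ∑ x ∈ range (i + 1),
      ∑ l ∈ range (i + 1), C (lam j x l) *
        (xip c g a G h j * xip c g a G h x * xip c g a G h l))) =
      tl i lam (dxi c g G b k) (xi c g a G b - xi c g a G h) (xi c g a G b - xi c g a G h) +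
        tl i lam (xi c g a G b - xi c g a G h) (dxi c g G b k)
          (xi c g a G b - xi c g a G h) +
        tl i lam (xi c g a G b - xi c g a G h) (xi c g a G b - xi c g a G h)
          (dxi c g G b k) := by
    unfold tl
    rw [map_sum, map_sum, ← Finset.sum_add_distrib, ← Finset.sum_add_distrib]
    refine Finset.sum_congr rfl fun j _ => ?_
    rw [map_sum, map_sum, ← Finset.sum_add_distrib, ← Finset.sum_add_distrib]
    refine Finset.sum_congr rfl fun x _ => ?_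
    rw [map_sum, map_sum, ← Finset.sum_add_distrib, ← Finset.sum_add_distrib]
    refine Finset.sum_congr rfl fun l _ => ?_
    rw [pderiv_mul, pderiv_C, zero_mul, zero_add, map_mul, eval_C, pderiv_mul, pderiv_mul]
    simp only [map_add, map_mul, pd_xip, eval_xip, Pi.sub_apply]
    ring
  unfold lcp
  rw [map_add, map_add, map_add, map_add, pderiv_C, map_zero, zero_add, pderiv_mul, pderiv_C,
    zero_mul, zero_add, map_mul, eval_C, map_add, map_add, map_add, map_add, e1, pderiv_mul,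
    pderiv_C, zero_mul, zero_add, map_mul, eval_C, e2, pderiv_mul, pderiv_C, zero_mul, zero_add,
    map_mul, eval_C, e3]

/-! ### The labels of a family -/

/-- **The labels of the points.** -/
noncomputable def LC (c : ℕ → Fin m) (g : ℕ → ℕ) (a i : ℕ) {F : Fam m J}
    (G : PtT F → ℕ → MvPolynomial (Option (Fin m)) ℝ) (μ : PtT F → ℕ → ℝ)
    (κ : PtT F → ℕ → ℕ → ℝ) (lam : PtT F → ℕ → ℕ → ℕ → ℝ) (y : PtT F) :
    MvPolynomial (Option (Fin m)) ℝ :=
  lcp c g a (G y) i (bho J J y) (μ y) (κ y) (lam y)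

/-- **The increments of the natural coordinates** between two samples. -/
noncomputable def De (F : Fam m J) (c : ℕ → Fin m) (g : ℕ → ℕ) (a : ℕ)
    (G : PtT F → ℕ → MvPolynomial (Option (Fin m)) ℝ) (ω ω' : F.Ω) : ℕ → ℝ :=
  xi c g a (G (ptr F J ω)) (bt F ω') - xi c g a (G (ptr F J ω)) (bt F ω)

/-- **The labels of two samples are close.** -/
def Clc (F : Fam m J) (c : ℕ → Fin m) (g : ℕ → ℕ) (a i s : ℕ)
    (G : PtT F → ℕ → MvPolynomial (Option (Fin m)) ℝ) (μ : PtT F → ℕ → ℝ)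
    (κ : PtT F → ℕ → ℕ → ℝ) (lam : PtT F → ℕ → ℕ → ℕ → ℝ) (ω ω' : F.Ω) : Prop :=
  ∀ z : ℕ → ℝ, (∀ j ≤ i, |z j| ≤ 8) →
    |De F c g a G ω ω' (i + 1) +
      cb i (μ (ptr F J ω')) (κ (ptr F J ω')) (lam (ptr F J ω')) (z - De F c g a G ω ω') -
      cb i (μ (ptr F J ω)) (κ (ptr F J ω)) (lam (ptr F J ω)) z| ≤ 1 / 2 ^ (s + 1)

/-- The rounded point. -/
theorem hx_xi (i D : ℕ) : ∃ c₀ : ℕ, ∀ {m J : ℕ} {F : Fam m J} {c : ℕ → Fin m} {a e v : ℕ}
    {g : ℕ → ℕ} {B : F.Ω → Prop} {G : PtT F → ℕ → MvPolynomial (Option (Fin m)) ℝ}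
    {H : LnT F → ℕ → MvPolynomial (Option (Fin m)) ℝ}, Set.InjOn c (Set.Iio (i + 1)) →
    ChOK F c (i + 1) (fun _ => D) a a e g B G H → (∀ j ≤ i, e + g j + v + c₀ ≤ J) →
    ∀ ω, B ω → (∀ j ≤ i + 1, |xi c g a (G (ptr F J ω)) (hx F ω) j -
        xi c g a (G (ptr F J ω)) (bt F ω) j| ≤ 1 / 2 ^ v) ∧
      ∀ l ≤ i, |2 ^ g l * (hx F ω (some (c l)) - eval (hx F ω) (G (ptr F J ω) l))| ≤ 4 := by
  obtain ⟨c₁, h₁⟩ := near_cell (i + 1) (fun _ => D)
  refine ⟨c₁ + 1, ?_⟩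
  intro m J F c a e v g B G H hc hch hJ ω hω
  have h2 : ∀ j ≤ i + 1, (∀ l < j, |hx F ω (some (c l)) - eval (hx F ω) (G (ptr F J ω) l)| ≤
      4 / 2 ^ g l) ∧ (j < i + 1 → |eval (hx F ω) (G (ptr F J ω) j) -
        eval (bt F ω) (G (ptr F J ω) j)| ≤ 1 / 4 / 2 ^ (g j + v)) := fun j hj =>
    h₁ (a := a) (e := e) (J := J) (v := v) (x := bt F ω) hc (hch.degG (ptr F J ω))
      (hch.depG (ptr F J ω)) (hch.pos ω hω) (hch.lip ω hω)
      (fun l hl => by
        have := hJ l (Nat.lt_succ_iff.1 hl)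
        omega) j hj (hx F ω) (hx_none F ω) fun l _ => hx_some F ω (c l)
  refine ⟨fun j hj => ?_, fun l hl => ?_⟩
  · cases j with
    | zero =>
      simp only [xi]
      rw [hx_none, sub_self, abs_zero]
      positivity
    | succ l =>
      simp only [xi]
      have hli : l < i + 1 := hj
      have h3 := (h2 l hli.le).2 hli
      have h4 := hx_some F ω (c l)
      have hg0 : (0 : ℝ) < 2 ^ g l := by positivity
      have e1 : 2 ^ g l * (hx F ω (some (c l)) - eval (hx F ω) (G (ptr F J ω) l)) -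
          2 ^ g l * (bt F ω (some (c l)) - eval (bt F ω) (G (ptr F J ω) l)) =
          2 ^ g l * ((hx F ω (some (c l)) - bt F ω (some (c l))) -
            (eval (hx F ω) (G (ptr F J ω) l) - eval (bt F ω) (G (ptr F J ω) l))) := by ring
      rw [e1, abs_mul, abs_of_pos hg0]
      refine (mul_le_mul_of_nonneg_left ((abs_sub _ _).trans (add_le_add h4 h3)) hg0.le).trans ?_
      rw [mul_add]
      have h5 : (2 : ℝ) ^ g l * (1 / 2 ^ J) ≤ 1 / 2 * (1 / 2 ^ v) := by
        have h6 := hJ l (Nat.lt_succ_iff.1 hli)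
        have h7 : (2 : ℝ) ^ (g l + v + 1) ≤ 2 ^ J := pow_le_pow_right₀ (by norm_num) (by omega)
        rw [mul_one_div, div_le_iff₀ (by positivity)]
        have h8 : 1 / 2 * (1 / 2 ^ v) * (2 : ℝ) ^ (g l + v + 1) = 2 ^ g l := by
          rw [pow_add, pow_add]
          field_simp
        calc (2 : ℝ) ^ g l = 1 / 2 * (1 / 2 ^ v) * (2 : ℝ) ^ (g l + v + 1) := h8.symm
          _ ≤ 1 / 2 * (1 / 2 ^ v) * 2 ^ J := mul_le_mul_of_nonneg_left h7 (by positivity)
      have h9 : (2 : ℝ) ^ g l * (1 / 4 / 2 ^ (g l + v)) = 1 / 4 * (1 / 2 ^ v) := by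
        rw [pow_add]
        field_simp
      rw [h9]
      have h10 : (0 : ℝ) < 1 / 2 ^ v := by positivity
      linarith
  · have h3 := (h2 (l + 1) (Nat.succ_le_succ hl)).1 l (Nat.lt_succ_self l)
    have hg0 : (0 : ℝ) < 2 ^ g l := by positivity
    rw [abs_mul, abs_of_pos hg0]
    refine (mul_le_mul_of_nonneg_left h3 hg0.le).trans (le_of_eq ?_)
    field_simp

/-- The natural coordinates on the natural box. -/
theorem xi_box {F : Fam m J} {c : ℕ → Fin m} {i a : ℕ} {g : ℕ → ℕ}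
    {G : ℕ → MvPolynomial (Option (Fin m)) ℝ} {ω : F.Ω} {b : Option (Fin m) → ℝ}
    (hb : NBx c G g a (F.t ω) i b)
    (hh : ∀ l ≤ i, |2 ^ g l * (hx F ω (some (c l)) - eval (hx F ω) (G l))| ≤ 4) {j : ℕ}
    (hj : j ≤ i) : |(xi c g a G b - xi c g a G (hx F ω)) j| ≤ 8 := by
  rw [Pi.sub_apply]
  cases j with
  | zero =>
    simp only [xi]
    rw [← mul_sub, abs_mul, abs_of_pos (by positivity : (0 : ℝ) < 2 ^ a)]
    have h1 : |b none - hx F ω none| ≤ 1 / 2 ^ a := hb.1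
    refine (mul_le_mul_of_nonneg_left h1 (by positivity)).trans ?_
    rw [mul_one_div_cancel (by positivity)]
    norm_num
  | succ l =>
    simp only [xi]
    have h1 := hb.2 l hj
    have h2 := hh l (by omega)
    have hg0 : (0 : ℝ) < 2 ^ g l := by positivity
    have h3 : |2 ^ g l * (b (some (c l)) - eval b (G l))| ≤ 1 := by
      rw [abs_mul, abs_of_pos hg0]
      refine (mul_le_mul_of_nonneg_left h1 hg0.le).trans (le_of_eq ?_)
      field_simp
    refine (abs_sub _ _).trans ?_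
    linarith

theorem nlp_le {g : ℕ → ℕ} {i l s p : ℕ} (hli : l < i) (hp : p ≤ g i + s) :
    nlp g l i ≤ nlp (fun j => if j < i then g j else p) l i + s := by
  unfold nlp
  rcases Nat.lt_or_ge (g i) ((Finset.Icc l i).sup g) with h | h
  · obtain ⟨x, hx, hxe⟩ := Finset.exists_mem_eq_sup (Finset.Icc l i)
      ⟨l, Finset.mem_Icc.2 ⟨le_rfl, hli.le⟩⟩ g
    rw [Finset.mem_Icc] at hx
    have hxi : x < i := by
      rcases hx.2.lt_or_eq with h1 | h1
      · exact h1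
      · rw [h1] at hxe
        omega
    have h2 : g x ≤ (Finset.Icc l i).sup (fun j => if j < i then g j else p) := by
      have h3 := Finset.le_sup (s := Finset.Icc l i) (f := fun j => if j < i then g j else p)
        (Finset.mem_Icc.2 ⟨hx.1, hxi.le⟩)
      simp only [if_pos hxi] at h3
      exact h3
    simp only [lt_irrefl, if_false]
    omega
  · omega

/-- The number of indices. -/
theorem ip_le (i : ℕ) : ((i : ℝ) + 1) ^ 3 ≤ 2 ^ (3 * (i + 1)) := by
  have h1 : ((i + 1 : ℕ) : ℝ) ≤ ((2 ^ (i + 1) : ℕ) : ℝ) := by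
    exact_mod_cast (Nat.lt_two_pow_self (n := i + 1)).le
  push_cast at h1
  calc ((i : ℝ) + 1) ^ 3 ≤ (2 ^ (i + 1)) ^ 3 := pow_le_pow_left₀ (by positivity) h1 3
    _ = 2 ^ (3 * (i + 1)) := by rw [← pow_mul, mul_comm]

/-- **The labels are visible labels.** -/
theorem crv_ok (i D : ℕ) (hD : 1 ≤ D) : ∃ c₀ : ℕ, ∀ {m J : ℕ} {F : Fam m J} {c : ℕ → Fin m}
    {a e e' s p v : ℕ} {g : ℕ → ℕ} {B : F.Ω → Prop}
    {G : PtT F → ℕ → MvPolynomial (Option (Fin m)) ℝ}
    {H : LnT F → ℕ → MvPolynomial (Option (Fin m)) ℝ} {μ : PtT F → ℕ → ℝ}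
    {κ : PtT F → ℕ → ℕ → ℝ} {lam : PtT F → ℕ → ℕ → ℕ → ℝ}, Set.InjOn c (Set.Iio (i + 1)) →
    ChOK F c (i + 1) (fun _ => D) a a e g B G H →
    (∀ ω, B ω → ∀ j ≤ i, |μ (ptr F J ω) j| ≤ 2 ^ e') →
    (∀ ω, B ω → ∀ j ≤ i, ∀ k ≤ i, |κ (ptr F J ω) j k| ≤ 2 ^ e') →
    (∀ ω, B ω → ∀ j ≤ i, ∀ k ≤ i, ∀ l ≤ i, |lam (ptr F J ω) j k l| ≤ 2 ^ e') →
    s + e' + 3 * (i + 1) + 3 ≤ v → (∀ j ≤ i, e + g j + v + c₀ ≤ J) → p ≤ g i + s →
    VPol F c i (3 * D) a (e + e' + s + 3 * (i + 1) + 7) p g G B (LC c g a i G μ κ lam) := by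
  obtain ⟨c₀, h₀⟩ := hx_xi i D
  refine ⟨c₀, ?_⟩
  intro m J F c a e e' s p v g B G H μ κ lam hc hch hμ hκ hlam hv hJ hp
  refine ⟨fun y => deg_lcp c g a hD (hch.degG y) i _ _ _ _, fun y => dep_lcp g a (hch.depG y) i _ _
    _ _, fun ω hω => ?_, fun ω hω b hb l hl => ?_⟩
  · obtain ⟨h1, h2⟩ := h₀ (v := v) hc hch hJ ω hω
    unfold LC
    rw [eval_lcp]
    have hg0 : (0 : ℝ) < 2 ^ g i := by positivity
    have hV : (0 : ℝ) < 1 / 2 ^ v := by positivity
    have hV1 : (1 : ℝ) / 2 ^ v ≤ 1 := by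
      rw [div_le_one (by positivity)]
      exact one_le_pow₀ (by norm_num)
    have h3 := cb_lip (i := i) (μ := μ (ptr F J ω)) (κ := κ (ptr F J ω)) (lam := lam (ptr F J ω))
      (x := xi c g a (G (ptr F J ω)) (bt F ω) - xi c g a (G (ptr F J ω)) (hx F ω))
      (y := fun _ => 0) (M := 2 ^ e') (R := 1) (δ := 1 / 2 ^ v) (by positivity) le_rfl hV.le
      (hμ ω hω) (hκ ω hω) (hlam ω hω) (fun j hj => by
        rw [Pi.sub_apply, abs_sub_comm]
        exact (h1 j (by omega)).trans hV1) (fun j _ => by rw [abs_zero]; exact zero_le_one)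
      (fun j hj => by
        rw [sub_zero, Pi.sub_apply, abs_sub_comm]
        exact h1 j (by omega))
    rw [cb_zero, sub_zero] at h3
    have h4 := h1 (i + 1) le_rfl
    simp only [xi] at h4
    have e1 : F.x ω (c i) - (bho J J (ptr F J ω) (some (c i)) -
        eval (bho J J (ptr F J ω)) (G (ptr F J ω) i) + eval (bt F ω) (G (ptr F J ω) i) +
        1 / 2 ^ g i * cb i (μ (ptr F J ω)) (κ (ptr F J ω)) (lam (ptr F J ω))
          (xi c g a (G (ptr F J ω)) (bt F ω) - xi c g a (G (ptr F J ω)) (bho J J (ptr F J ω)))) =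
        1 / 2 ^ g i * -(((2 ^ g i * (hx F ω (some (c i)) - eval (hx F ω) (G (ptr F J ω) i)) -
          2 ^ g i * (bt F ω (some (c i)) - eval (bt F ω) (G (ptr F J ω) i)))) +
          cb i (μ (ptr F J ω)) (κ (ptr F J ω)) (lam (ptr F J ω))
          (xi c g a (G (ptr F J ω)) (bt F ω) - xi c g a (G (ptr F J ω)) (hx F ω))) := by
      have e2 : bt F ω (some (c i)) = F.x ω (c i) := rfl
      have e3 : bho J J (ptr F J ω) = hx F ω := rfl
      rw [e2, e3]
      field_simp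
      ring
    rw [e1, abs_mul, abs_neg, abs_of_pos (by positivity : (0 : ℝ) < 1 / 2 ^ g i)]
    have h5 := (abs_add_le (2 ^ g i * (hx F ω (some (c i)) -
      eval (hx F ω) (G (ptr F J ω) i)) - 2 ^ g i * (bt F ω (some (c i)) -
        eval (bt F ω) (G (ptr F J ω) i))) (cb i (μ (ptr F J ω)) (κ (ptr F J ω))
          (lam (ptr F J ω)) (xi c g a (G (ptr F J ω)) (bt F ω) -
            xi c g a (G (ptr F J ω)) (hx F ω)))).trans (add_le_add h4 h3)
    have h6 : (1 : ℝ) / 2 ^ v + 3 * (((i : ℝ) + 1) ^ 3 * (2 ^ e' * 1 ^ 2 * (1 / 2 ^ v))) ≤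
        1 / 2 ^ s := by
      have h7 := ip_le i
      have h8 : (1 : ℝ) ≤ 2 ^ e' := one_le_pow₀ (by norm_num)
      have h9 : (1 : ℝ) ≤ 2 ^ (3 * (i + 1)) := one_le_pow₀ (by norm_num)
      have h10 : (1 : ℝ) / 2 ^ v + 3 * (((i : ℝ) + 1) ^ 3 * (2 ^ e' * 1 ^ 2 * (1 / 2 ^ v))) =
          (1 + 3 * (((i : ℝ) + 1) ^ 3 * 2 ^ e')) * (1 / 2 ^ v) := by ring
      have h11 : (1 + 3 * (((i : ℝ) + 1) ^ 3 * 2 ^ e')) ≤ 4 * (2 ^ (3 * (i + 1)) * 2 ^ e') := by
        have h12 : (1 : ℝ) * 1 ≤ 2 ^ (3 * (i + 1)) * 2 ^ e' :=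
          mul_le_mul h9 h8 zero_le_one (by positivity)
        have h13 : ((i : ℝ) + 1) ^ 3 * 2 ^ e' ≤ 2 ^ (3 * (i + 1)) * 2 ^ e' :=
          mul_le_mul_of_nonneg_right h7 (by positivity)
        linarith
      rw [h10]
      refine (mul_le_mul_of_nonneg_right h11 hV.le).trans ?_
      rw [mul_one_div, div_le_div_iff₀ (by positivity) (by positivity), one_mul,
        show (4 : ℝ) = 2 ^ 2 by norm_num, ← pow_add, ← pow_add, ← pow_add]
      exact pow_le_pow_right₀ (by norm_num) (by omega)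
    refine (mul_le_mul_of_nonneg_left (h5.trans h6) (by positivity)).trans ?_
    rw [one_div_mul_one_div, ← pow_add]
    exact one_div_le_one_div_of_le (by positivity) (pow_le_pow_right₀ (by norm_num) hp)
  · obtain ⟨-, h2⟩ := h₀ (v := v) hc hch hJ ω hω
    obtain ⟨σ, hσ⟩ : ∃ σ, σ = (Finset.Icc l i).sup g := ⟨_, rfl⟩
    have hgσ : ∀ x, l ≤ x → x ≤ i → g x ≤ σ := fun x h1 h2 => by
      rw [hσ]
      exact Finset.le_sup (f := g) (Finset.mem_Icc.2 ⟨h1, h2⟩)
    have hn1 : nlp g l i = σ - g i := by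
      unfold nlp
      rw [hσ]
    have hbx : ∀ x ≤ i, NBx c (G (ptr F J ω)) g a (F.t ω) x b := fun x hx =>
      ⟨hb.1, fun l' hl' => hb.2 l' (by omega)⟩
    have hde : ∀ j ≤ i, |dxi c g (G (ptr F J ω)) b (c l) j| ≤ 2 ^ (e + σ) := by
      intro j hj
      cases j with
      | zero =>
        simp only [dxi, abs_zero]
        positivity
      | succ x =>
        have hx : x < i := hj
        simp only [dxi]
        rw [abs_mul, abs_of_pos (by positivity : (0 : ℝ) < 2 ^ g x)]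
        rcases lt_trichotomy x l with h1 | h1 | h1
        · have h3 : c x ≠ c l := fun h' => by
            have := hc (show x < i + 1 by omega) (show l < i + 1 by omega) h'
            omega
          rw [if_neg h3, pd_zero (hch.depG (ptr F J ω) x) (fun j hj h' => by
            have := hc (show j < i + 1 by omega) (show l < i + 1 by omega) h'
            omega), sub_zero, abs_zero, mul_zero]
          positivity
        · subst h1
          rw [if_pos rfl, pd_zero (hch.depG (ptr F J ω) x) (fun j hj h' => by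
            have := hc (show j < i + 1 by omega) (show x < i + 1 by omega) h'
            omega), sub_zero, abs_one, mul_one]
          refine pow_le_pow_right₀ (by norm_num) ?_
          have := hgσ x le_rfl hx.le
          omega
        · have h3 : c x ≠ c l := fun h' => by
            have := hc (show x < i + 1 by omega) (show l < i + 1 by omega) h'
            omega
          rw [if_neg h3, zero_sub, abs_neg]
          refine (mul_le_mul_of_nonneg_left (hch.lip ω hω x (by omega) b (hbx x hx.le) l h1)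
            (by positivity)).trans ?_
          rw [← pow_add]
          refine pow_le_pow_right₀ (by norm_num) ?_
          unfold nlp
          have h4 : g x ≤ (Finset.Icc l x).sup g := Finset.le_sup (f := g)
            (Finset.mem_Icc.2 ⟨h1.le, le_rfl⟩)
          have h5 : (Finset.Icc l x).sup g ≤ σ := by
            rw [hσ]
            exact Finset.sup_mono (Finset.Icc_subset_Icc le_rfl hx.le)
          omega
    have hη : ∀ j ≤ i, |(xi c g a (G (ptr F J ω)) b - xi c g a (G (ptr F J ω)) (hx F ω)) j| ≤ 8 :=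
      fun j hj => xi_box hb h2 hj
    have hGi := hch.lip ω hω i (Nat.lt_succ_self i) b hb l hl
    unfold LC
    rw [pd_lcp]
    have e3 : bho J J (ptr F J ω) = hx F ω := rfl
    rw [e3]
    obtain ⟨M, hM⟩ : ∃ M : ℝ, M = 2 ^ e' := ⟨_, rfl⟩
    obtain ⟨X, hX⟩ : ∃ X : ℝ, X = 2 ^ (e + σ) := ⟨_, rfl⟩
    have hM0 : 0 ≤ M := by rw [hM]; positivity
    have hX0 : 0 ≤ X := by rw [hX]; positivity
    have hμ' := hμ ω hω
    have hκ' := hκ ω hω
    have hl' := hlam ω hω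
    rw [← hM] at hμ' hκ' hl'
    rw [← hX] at hde
    have b1 := ln_bd hM0 hμ' hde
    have b2 := bl_bd hM0 hX0 hκ' hde hη
    have b3 := bl_bd hM0 (by norm_num : (0 : ℝ) ≤ 8) hκ' hη hde
    have b4 := tl_bd hM0 hX0 (by norm_num : (0 : ℝ) ≤ 8) hl' hde hη hη
    have b5 := tl_bd hM0 (by norm_num : (0 : ℝ) ≤ 8) hX0 hl' hη hde hη
    have b6 := tl_bd hM0 (by norm_num : (0 : ℝ) ≤ 8) (by norm_num : (0 : ℝ) ≤ 8) hl' hη hη hde
    have hi0 : (0 : ℝ) ≤ i := Nat.cast_nonneg i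
    have d0 : (1 : ℝ) ≤ (i : ℝ) + 1 := by linarith
    obtain ⟨Y, hY⟩ : ∃ Y : ℝ, Y = ((i : ℝ) + 1) ^ 3 * (M * X) := ⟨_, rfl⟩
    have hMX : 0 ≤ M * X := mul_nonneg hM0 hX0
    have g1 : ((i : ℝ) + 1) * (M * X) ≤ Y := by
      rw [hY]
      refine mul_le_mul_of_nonneg_right ?_ hMX
      calc ((i : ℝ) + 1) = ((i : ℝ) + 1) ^ 1 := (pow_one _).symm
        _ ≤ _ := pow_le_pow_right₀ d0 (by norm_num)
    have g2 : ((i : ℝ) + 1) ^ 2 * (M * X) ≤ Y := by
      rw [hY]
      exact mul_le_mul_of_nonneg_right (pow_le_pow_right₀ d0 (by norm_num)) hMX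
    have k2 : ((i : ℝ) + 1) ^ 2 * (M * (X * 8)) = 8 * (((i : ℝ) + 1) ^ 2 * (M * X)) := by ring
    have k3 : ((i : ℝ) + 1) ^ 2 * (M * (8 * X)) = 8 * (((i : ℝ) + 1) ^ 2 * (M * X)) := by ring
    have k4 : ((i : ℝ) + 1) ^ 3 * (M * (X * 8 * 8)) = 64 * Y := by rw [hY]; ring
    have k5 : ((i : ℝ) + 1) ^ 3 * (M * (8 * X * 8)) = 64 * Y := by rw [hY]; ring
    have k6 : ((i : ℝ) + 1) ^ 3 * (M * (8 * 8 * X)) = 64 * Y := by rw [hY]; ring
    rw [k2] at b2
    rw [k3] at b3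
    rw [k4] at b4
    rw [k5] at b5
    rw [k6] at b6
    have hY0 : 0 ≤ Y := by rw [hY]; positivity
    rw [abs_le] at b1 b2 b3 b4 b5 b6
    have h7 : |ln i (μ (ptr F J ω)) (dxi c g (G (ptr F J ω)) b (c l)) +
        1 / 2 * (bl i (κ (ptr F J ω)) (dxi c g (G (ptr F J ω)) b (c l))
          (xi c g a (G (ptr F J ω)) b - xi c g a (G (ptr F J ω)) (hx F ω)) +
          bl i (κ (ptr F J ω)) (xi c g a (G (ptr F J ω)) b - xi c g a (G (ptr F J ω)) (hx F ω))
            (dxi c g (G (ptr F J ω)) b (c l))) +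
        1 / 6 * (tl i (lam (ptr F J ω)) (dxi c g (G (ptr F J ω)) b (c l))
              (xi c g a (G (ptr F J ω)) b - xi c g a (G (ptr F J ω)) (hx F ω))
              (xi c g a (G (ptr F J ω)) b - xi c g a (G (ptr F J ω)) (hx F ω)) +
            tl i (lam (ptr F J ω)) (xi c g a (G (ptr F J ω)) b -
              xi c g a (G (ptr F J ω)) (hx F ω)) (dxi c g (G (ptr F J ω)) b (c l))
              (xi c g a (G (ptr F J ω)) b - xi c g a (G (ptr F J ω)) (hx F ω)) +
            tl i (lam (ptr F J ω)) (xi c g a (G (ptr F J ω)) b -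
              xi c g a (G (ptr F J ω)) (hx F ω)) (xi c g a (G (ptr F J ω)) b -
              xi c g a (G (ptr F J ω)) (hx F ω)) (dxi c g (G (ptr F J ω)) b (c l)))| ≤ 64 * Y := by
      rw [abs_le]
      constructor <;> linarith [b1.1, b1.2, b2.1, b2.2, b3.1, b3.2, b4.1, b4.2, b5.1, b5.2,
        b6.1, b6.2]
    refine (abs_add_le _ _).trans ?_
    rw [abs_mul, abs_of_pos (by positivity : (0 : ℝ) < 1 / 2 ^ g i)]
    refine (add_le_add hGi (mul_le_mul_of_nonneg_left h7 (by positivity))).trans ?_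
    have h8 : 1 / (2 : ℝ) ^ g i * X ≤ 2 ^ (e + nlp g l i) := by
      rw [hX, one_div, inv_mul_le_iff₀ (by positivity), ← pow_add]
      refine pow_le_pow_right₀ (by norm_num) ?_
      rw [hn1]
      omega
    have h9 : 1 / (2 : ℝ) ^ g i * (64 * Y) ≤ 64 * (2 ^ (3 * (i + 1)) * 2 ^ e') *
        2 ^ (e + nlp g l i) := by
      have h10 : 1 / (2 : ℝ) ^ g i * (64 * Y) = 64 * (((i : ℝ) + 1) ^ 3 * M) *
          (1 / (2 : ℝ) ^ g i * X) := by
        rw [hY]
        ring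
      rw [h10, hM]
      refine mul_le_mul ?_ h8 (by positivity) (by positivity)
      exact mul_le_mul_of_nonneg_left (mul_le_mul_of_nonneg_right (ip_le i) (by positivity))
        (by norm_num)
    refine (add_le_add le_rfl h9).trans ?_
    have h11 : (1 : ℝ) ≤ 64 * (2 ^ (3 * (i + 1)) * 2 ^ e') := by
      have h12 : (1 : ℝ) * 1 ≤ 2 ^ (3 * (i + 1)) * 2 ^ e' :=
        mul_le_mul (one_le_pow₀ (by norm_num)) (one_le_pow₀ (by norm_num)) zero_le_one
          (by positivity)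
      linarith
    have h13 : (2 : ℝ) ^ (e + nlp g l i) + 64 * (2 ^ (3 * (i + 1)) * 2 ^ e') *
        2 ^ (e + nlp g l i) ≤ 2 * (64 * (2 ^ (3 * (i + 1)) * 2 ^ e')) * 2 ^ (e + nlp g l i) := by
      have h14 : (0 : ℝ) ≤ 2 ^ (e + nlp g l i) := by positivity
      nlinarith
    refine h13.trans ?_
    have h15 : 2 * (64 * ((2 : ℝ) ^ (3 * (i + 1)) * 2 ^ e')) * 2 ^ (e + nlp g l i) =
        2 ^ (7 + 3 * (i + 1) + e' + (e + nlp g l i)) := by
      rw [pow_add, pow_add, pow_add]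
      ring
    rw [h15]
    refine pow_le_pow_right₀ (by norm_num) ?_
    have h16 := nlp_le (g := g) (s := s) (p := p) hl hp
    omega

/-- **The labels of two samples are near** on the natural box. -/
theorem crv_nr (i D : ℕ) : ∃ c₀ : ℕ, ∀ {m J : ℕ} {F : Fam m J} {c : ℕ → Fin m}
    {a e e' s p v n : ℕ} {g : ℕ → ℕ} {B : F.Ω → Prop}
    {G : PtT F → ℕ → MvPolynomial (Option (Fin m)) ℝ}
    {H : LnT F → ℕ → MvPolynomial (Option (Fin m)) ℝ} {μ : PtT F → ℕ → ℝ}
    {κ : PtT F → ℕ → ℕ → ℝ} {lam : PtT F → ℕ → ℕ → ℕ → ℝ}, Set.InjOn c (Set.Iio (i + 1)) →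
    ChOK F c (i + 1) (fun _ => D) a a e g B G H → i < n → Clsd F n a B G H → a ≤ J →
    (∀ ω, B ω → ∀ j ≤ i, |μ (ptr F J ω) j| ≤ 2 ^ e') →
    (∀ ω, B ω → ∀ j ≤ i, ∀ k ≤ i, |κ (ptr F J ω) j k| ≤ 2 ^ e') →
    (∀ ω, B ω → ∀ j ≤ i, ∀ k ≤ i, ∀ l ≤ i, |lam (ptr F J ω) j k l| ≤ 2 ^ e') →
    s + e' + 3 * (i + 1) + 11 ≤ v → (∀ j ≤ i, e + g j + v + c₀ ≤ J) → p ≤ g i + s →
    ∀ ω ω' : F.Ω, B ω → B ω' → slam F a ω = slam F a ω' → Clc F c g a i s G μ κ lam ω ω' →
      Nr F c i a p g G ω (LC c g a i G μ κ lam (ptr F J ω)) (LC c g a i G μ κ lam (ptr F J ω')) := by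
  obtain ⟨c₀, h₀⟩ := hx_xi i D
  refine ⟨c₀, ?_⟩
  intro m J F c a e e' s p v n g B G H μ κ lam hc hch hin hcl haJ hμ hκ hlam hv hJ hp ω ω' hω hω' hs
    hclc b hb
  obtain ⟨h1, h2⟩ := h₀ (v := v) hc hch hJ ω hω
  obtain ⟨h1', h2'⟩ := h₀ (v := v) hc hch hJ ω' hω'
  -- the charts
  have hG : ∀ l ≤ i, G (ptr F J ω') l = G (ptr F J ω) l := fun l hl => by
    rw [hcl ω hω l (by omega), hcl ω' hω' l (by omega), hs]
  have hxe : ∀ (b : Option (Fin m) → ℝ), ∀ j ≤ i + 1,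
      xi c g a (G (ptr F J ω')) b j = xi c g a (G (ptr F J ω)) b j := by
    intro b j hj
    cases j with
    | zero => rfl
    | succ l =>
      simp only [xi]
      rw [hG l (by omega)]
  obtain ⟨z, hz⟩ : ∃ z : ℕ → ℝ, z = xi c g a (G (ptr F J ω)) b -
      xi c g a (G (ptr F J ω)) (hx F ω) := ⟨_, rfl⟩
  obtain ⟨D₁, hD₁⟩ : ∃ D₁ : ℕ → ℝ, D₁ = De F c g a G ω ω' := ⟨_, rfl⟩
  obtain ⟨D₂, hD₂⟩ : ∃ D₂ : ℕ → ℝ, D₂ = xi c g a (G (ptr F J ω)) (hx F ω') -
      xi c g a (G (ptr F J ω)) (hx F ω) := ⟨_, rfl⟩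
  have hz8 : ∀ j ≤ i, |z j| ≤ 8 := fun j hj => by
    rw [hz]
    exact xi_box hb h2 hj
  have hV : (0 : ℝ) < 1 / 2 ^ v := by positivity
  have hV1 : (1 : ℝ) / 2 ^ v ≤ 1 := by
    rw [div_le_one (by positivity)]
    exact one_le_pow₀ (by norm_num)
  have hDD : ∀ j ≤ i + 1, |D₂ j - D₁ j| ≤ 2 * (1 / 2 ^ v) := by
    intro j hj
    have a1 := h1 j hj
    have a2 := h1' j hj
    rw [hxe _ j hj, hxe _ j hj] at a2
    have e1 : D₂ j - D₁ j = (xi c g a (G (ptr F J ω)) (hx F ω') j -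
        xi c g a (G (ptr F J ω)) (bt F ω') j) - (xi c g a (G (ptr F J ω)) (hx F ω) j -
          xi c g a (G (ptr F J ω)) (bt F ω) j) := by
      rw [hD₁, hD₂]
      unfold De
      simp only [Pi.sub_apply]
      ring
    rw [e1]
    refine (abs_sub _ _).trans ?_
    linarith
  -- the coordinates relative to the other sample
  have hz2 : ∀ j ≤ i, |(z - D₂) j| ≤ 10 := by
    intro j hj
    have e1 : (z - D₂) j = xi c g a (G (ptr F J ω)) b j -
        xi c g a (G (ptr F J ω)) (hx F ω') j := by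
      rw [hz, hD₂]
      simp only [Pi.sub_apply]
      ring
    rw [e1]
    cases j with
    | zero =>
      simp only [xi]
      rw [hx_none]
      have a1 : |b none - F.t ω| ≤ 1 / 2 ^ a := hb.1
      have a2 := tu_le haJ hs
      unfold tu at a2
      have a3 : (2 : ℝ) ^ a * b none - 2 ^ a * bt F ω' none =
          2 ^ a * (b none - F.t ω) - 2 ^ a * (F.t ω' - F.t ω) := by
        have : bt F ω' none = F.t ω' := rfl
        rw [this]
        ring
      rw [a3]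
      refine (abs_sub _ _).trans ?_
      have a4 : |(2 : ℝ) ^ a * (b none - F.t ω)| ≤ 1 := by
        rw [abs_mul, abs_of_pos (by positivity : (0 : ℝ) < 2 ^ a)]
        refine (mul_le_mul_of_nonneg_left a1 (by positivity)).trans (le_of_eq ?_)
        exact mul_one_div_cancel (by positivity)
      linarith
    | succ l =>
      simp only [xi]
      have a1 := hb.2 l hj
      have a2 := h2' l (by omega)
      rw [hG l (by omega)] at a2
      have hg0 : (0 : ℝ) < 2 ^ g l := by positivity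
      have a3 : |2 ^ g l * (b (some (c l)) - eval b (G (ptr F J ω) l))| ≤ 1 := by
        rw [abs_mul, abs_of_pos hg0]
        refine (mul_le_mul_of_nonneg_left a1 hg0.le).trans (le_of_eq ?_)
        field_simp
      refine (abs_sub _ _).trans ?_
      linarith
  have hz1 : ∀ j ≤ i, |(z - D₁) j| ≤ 12 := by
    intro j hj
    have a1 := hz2 j hj
    have a2 := hDD j (by omega)
    have e1 : (z - D₁) j = (z - D₂) j + (D₂ j - D₁ j) := by
      simp only [Pi.sub_apply]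
      ring
    rw [e1]
    refine (abs_add_le _ _).trans ?_
    linarith
  have h3 := hclc z hz8
  rw [← hD₁] at h3
  have h4 := cb_lip (i := i) (μ := μ (ptr F J ω')) (κ := κ (ptr F J ω')) (lam := lam (ptr F J ω'))
    (x := z - D₂) (y := z - D₁) (M := 2 ^ e') (R := 12) (δ := 2 * (1 / 2 ^ v)) (by positivity)
    (by norm_num) (by positivity) (hμ ω' hω') (hκ ω' hω') (hlam ω' hω')
    (fun j hj => (hz2 j hj).trans (by norm_num)) hz1 (fun j hj => by
      have a2 := hDD j (by omega)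
      have e1 : (z - D₂) j - (z - D₁) j = -(D₂ j - D₁ j) := by
        simp only [Pi.sub_apply]
        ring
      rw [e1, abs_neg]
      exact a2)
  have h5 := hDD (i + 1) le_rfl
  unfold LC
  rw [eval_lcp, eval_lcp]
  have e3 : bho J J (ptr F J ω) = hx F ω := rfl
  have e4 : bho J J (ptr F J ω') = hx F ω' := rfl
  rw [e3, e4, hG i le_rfl]
  have e5 : cb i (μ (ptr F J ω')) (κ (ptr F J ω')) (lam (ptr F J ω'))
      (xi c g a (G (ptr F J ω')) b - xi c g a (G (ptr F J ω')) (hx F ω')) =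
      cb i (μ (ptr F J ω')) (κ (ptr F J ω')) (lam (ptr F J ω')) (z - D₂) := by
    have hj : ∀ j ≤ i, (xi c g a (G (ptr F J ω')) b - xi c g a (G (ptr F J ω')) (hx F ω')) j =
        (z - D₂) j := by
      intro j hj
      rw [hz, hD₂]
      simp only [Pi.sub_apply]
      rw [hxe _ j (by omega), hxe _ j (by omega)]
      ring
    have hj' : ∀ j ∈ range (i + 1), (xi c g a (G (ptr F J ω')) b -
        xi c g a (G (ptr F J ω')) (hx F ω')) j = (z - D₂) j := fun j hj0 =>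
      hj j (Nat.lt_succ_iff.1 (Finset.mem_range.1 hj0))
    unfold cb ln bl tl
    congr 1
    · congr 1
      · exact Finset.sum_congr rfl fun j h => by rw [hj' j h]
      · congr 1
        exact Finset.sum_congr rfl fun j h => Finset.sum_congr rfl fun k h6 => by
          rw [hj' j h, hj' k h6]
    · congr 1
      exact Finset.sum_congr rfl fun j h => Finset.sum_congr rfl fun k h6 =>
        Finset.sum_congr rfl fun l h7 => by rw [hj' j h, hj' k h6, hj' l h7]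
  rw [e5, ← hz]
  have e6 : hx F ω (some (c i)) - eval (hx F ω) (G (ptr F J ω) i) + eval b (G (ptr F J ω) i) +
      1 / 2 ^ g i * cb i (μ (ptr F J ω)) (κ (ptr F J ω)) (lam (ptr F J ω)) z -
      (hx F ω' (some (c i)) - eval (hx F ω') (G (ptr F J ω) i) + eval b (G (ptr F J ω) i) +
        1 / 2 ^ g i * cb i (μ (ptr F J ω')) (κ (ptr F J ω')) (lam (ptr F J ω')) (z - D₂)) =
      -(1 / 2 ^ g i * ((D₁ (i + 1) + cb i (μ (ptr F J ω')) (κ (ptr F J ω')) (lam (ptr F J ω'))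
        (z - D₁) - cb i (μ (ptr F J ω)) (κ (ptr F J ω)) (lam (ptr F J ω)) z) +
        ((cb i (μ (ptr F J ω')) (κ (ptr F J ω')) (lam (ptr F J ω')) (z - D₂) -
          cb i (μ (ptr F J ω')) (κ (ptr F J ω')) (lam (ptr F J ω')) (z - D₁)) +
          (D₂ (i + 1) - D₁ (i + 1))))) := by
    have e7 : D₂ (i + 1) = 2 ^ g i * (hx F ω' (some (c i)) - eval (hx F ω') (G (ptr F J ω) i)) -
        2 ^ g i * (hx F ω (some (c i)) - eval (hx F ω) (G (ptr F J ω) i)) := by
      rw [hD₂]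
      rfl
    rw [e7]
    field_simp
    ring
  rw [e6, abs_neg, abs_mul, abs_of_pos (by positivity : (0 : ℝ) < 1 / 2 ^ g i)]
  have h6 : (2 : ℝ) * (1 / 2 ^ v) + 3 * (((i : ℝ) + 1) ^ 3 * (2 ^ e' * 12 ^ 2 * (2 * (1 / 2 ^ v)))) ≤
      1 / 2 ^ (s + 1) := by
    have h7 := ip_le i
    have h8 : (1 : ℝ) ≤ 2 ^ e' := one_le_pow₀ (by norm_num)
    have h9 : (1 : ℝ) ≤ 2 ^ (3 * (i + 1)) := one_le_pow₀ (by norm_num)
    have h10 : (2 : ℝ) * (1 / 2 ^ v) +
        3 * (((i : ℝ) + 1) ^ 3 * (2 ^ e' * 12 ^ 2 * (2 * (1 / 2 ^ v)))) =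
        (2 + 864 * (((i : ℝ) + 1) ^ 3 * 2 ^ e')) * (1 / 2 ^ v) := by ring
    have h11 : (2 + 864 * (((i : ℝ) + 1) ^ 3 * 2 ^ e')) ≤ 1024 * (2 ^ (3 * (i + 1)) * 2 ^ e') := by
      have h12 : (1 : ℝ) * 1 ≤ 2 ^ (3 * (i + 1)) * 2 ^ e' :=
        mul_le_mul h9 h8 zero_le_one (by positivity)
      have h13 : ((i : ℝ) + 1) ^ 3 * 2 ^ e' ≤ 2 ^ (3 * (i + 1)) * 2 ^ e' :=
        mul_le_mul_of_nonneg_right h7 (by positivity)
      linarith
    rw [h10]
    refine (mul_le_mul_of_nonneg_right h11 hV.le).trans ?_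
    rw [mul_one_div, div_le_div_iff₀ (by positivity) (by positivity), one_mul,
      show (1024 : ℝ) = 2 ^ 10 by norm_num, ← pow_add, ← pow_add, ← pow_add]
    exact pow_le_pow_right₀ (by norm_num) (by omega)
  have h7 : |(D₁ (i + 1) + cb i (μ (ptr F J ω')) (κ (ptr F J ω')) (lam (ptr F J ω'))
        (z - D₁) - cb i (μ (ptr F J ω)) (κ (ptr F J ω)) (lam (ptr F J ω)) z) +
        ((cb i (μ (ptr F J ω')) (κ (ptr F J ω')) (lam (ptr F J ω')) (z - D₂) -
          cb i (μ (ptr F J ω')) (κ (ptr F J ω')) (lam (ptr F J ω')) (z - D₁)) +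
          (D₂ (i + 1) - D₁ (i + 1)))| ≤ 1 / 2 ^ (s + 1) + 1 / 2 ^ (s + 1) := by
    refine (abs_add_le _ _).trans (add_le_add h3 ?_)
    refine (abs_add_le _ _).trans ?_
    linarith
  refine (mul_le_mul_of_nonneg_left h7 (by positivity)).trans ?_
  have h8 : (1 : ℝ) / 2 ^ (s + 1) + 1 / 2 ^ (s + 1) = 1 / 2 ^ s := by
    rw [pow_succ]
    field_simp
    norm_num
  rw [h8, one_div_mul_one_div, ← pow_add]
  exact one_div_le_one_div_of_le (by positivity) (pow_le_pow_right₀ (by norm_num) hp)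

/-- **The criterion**: the coefficients at the second sample are the Taylor coefficients. -/
theorem clc_of {F : Fam m J} {c : ℕ → Fin m} {g : ℕ → ℕ} {a i s : ℕ}
    {G : PtT F → ℕ → MvPolynomial (Option (Fin m)) ℝ} {μ : PtT F → ℕ → ℝ}
    {κ : PtT F → ℕ → ℕ → ℝ} {lam : PtT F → ℕ → ℕ → ℕ → ℝ} {ω ω' : F.Ω} {ε : ℝ} (hε : 0 ≤ ε)
    (hD : ∀ j ≤ i, |De F c g a G ω ω' j| ≤ 8)
    (hκ : ∀ j ≤ i, ∀ k ≤ i, κ (ptr F J ω) j k = κ (ptr F J ω) k j) (hl : Sy3 i (lam (ptr F J ω)))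
    (h0 : |De F c g a G ω ω' (i + 1) -
      cb i (μ (ptr F J ω)) (κ (ptr F J ω)) (lam (ptr F J ω)) (De F c g a G ω ω')| ≤ ε)
    (h1 : ∀ j ≤ i, |μ (ptr F J ω') j - (μ (ptr F J ω) j +
      ∑ k ∈ range (i + 1), κ (ptr F J ω) j k * De F c g a G ω ω' k +
      1 / 2 * ∑ k ∈ range (i + 1), ∑ l ∈ range (i + 1), lam (ptr F J ω) j k l *
        (De F c g a G ω ω' k * De F c g a G ω ω' l))| ≤ ε)
    (h2 : ∀ j ≤ i, ∀ k ≤ i, |κ (ptr F J ω') j k - (κ (ptr F J ω) j k +
      ∑ l ∈ range (i + 1), lam (ptr F J ω) j k l * De F c g a G ω ω' l)| ≤ ε)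
    (h3 : ∀ j ≤ i, ∀ k ≤ i, ∀ l ≤ i, |lam (ptr F J ω') j k l - lam (ptr F J ω) j k l| ≤ ε)
    (hn : ε * 2 ^ (3 * (i + 1) + 15 + s) ≤ 1) : Clc F c g a i s G μ κ lam ω ω' := by
  intro z hz
  have h4 := clc_alg (D := De F c g a G ω ω') (z := z) (R := 16) (by norm_num) hε hκ hl
    (fun j hj => by
      refine (abs_sub _ _).trans ?_
      have := hz j hj
      have := hD j hj
      linarith) h0 h1 h2 h3
  refine h4.trans ?_
  have h5 := ip_le i
  have h6 : 3 * (((i : ℝ) + 1) ^ 3 * (16 ^ 3 * ε)) ≤ 2 ^ (3 * (i + 1) + 14) * ε := by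
    have h7 : 3 * (((i : ℝ) + 1) ^ 3 * (16 ^ 3 * ε)) = 12288 * ((i : ℝ) + 1) ^ 3 * ε := by ring
    rw [h7]
    refine mul_le_mul_of_nonneg_right ?_ hε
    rw [pow_add]
    have h8 : (0 : ℝ) ≤ 2 ^ (3 * (i + 1)) := by positivity
    linarith
  refine h6.trans ?_
  rw [le_div_iff₀ (by positivity)]
  calc (2 : ℝ) ^ (3 * (i + 1) + 14) * ε * 2 ^ (s + 1) = ε * 2 ^ (3 * (i + 1) + 15 + s) := by
        rw [show 3 * (i + 1) + 15 + s = (3 * (i + 1) + 14) + (s + 1) by omega, pow_add]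
        ring
    _ ≤ 1 := hn

/-- **Visible labels of degree three relative to a closed chart are not closed**: the labels of two
independent samples of one line and window are not close, with probability near one. -/
theorem crv_cls (i D : ℕ) (hD : 1 ≤ D) : ∃ c₀ : ℕ, ∀ {m : ℕ} {θ : ℝ} {S : PCl m}
    {P : List (Fin m) × Fin m → ℝ → ℝ → ℝ} (_ : ThrOf (chsys m θ) S P) (c : ℕ → Fin m)
    (_ : Set.InjOn c (Set.Iio (i + 1))) (a : ℚ) (e h : ℝ), 0 ≤ a → a ≤ 1 → e < θ * a → 0 < h →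
    bet P c i a a + h ≤ 1 →
    ∃ δ : ℝ, 0 < δ ∧ Bas S (fun J F A => ∀ (n a₀ e₀ e' s v p : ℕ) (g : ℕ → ℕ)
      (G : PtT F → ℕ → MvPolynomial (Option (Fin m)) ℝ)
      (H : LnT F → ℕ → MvPolynomial (Option (Fin m)) ℝ) (μ : PtT F → ℕ → ℝ)
      (κ : PtT F → ℕ → ℕ → ℝ) (lam : PtT F → ℕ → ℕ → ℕ → ℝ), i < n → a₀ ≤ J →
      a₀ ≤ ⌊(a : ℝ) * J⌋₊ → e₀ + e' + s + 3 * (i + 1) + 7 ≤ ⌊e * J⌋₊ →
      s + e' + 3 * (i + 1) + 11 ≤ v → (∀ j ≤ i, e₀ + g j + v + c₀ ≤ J) → p ≤ g i + s → p ≤ J →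
      ⌊(bet P c i a a + h) * J⌋₊ + a₀ ≤ p + ⌊(a : ℝ) * J⌋₊ → ∀ B : F.Ω → Prop, Sub B A →
      ChOK F c n (fun _ => D) a₀ a₀ e₀ g B G H → Clsd F n a₀ B G H →
      (∀ ω, B ω → ∀ j ≤ i, |μ (ptr F J ω) j| ≤ 2 ^ e') →
      (∀ ω, B ω → ∀ j ≤ i, ∀ k ≤ i, |κ (ptr F J ω) j k| ≤ 2 ^ e') →
      (∀ ω, B ω → ∀ j ≤ i, ∀ k ≤ i, ∀ l ≤ i, |lam (ptr F J ω) j k l| ≤ 2 ^ e') →
      ∀ (q : F.Ω → ℝ) (M : ℝ), IsLaw q → 0 ≤ M → (∀ ω, 0 < q ω → B ω) →
      (∀ ω, q ω * Pe F.p A ≤ M * F.p ω) →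
      Pe (P2 q (slam F a₀)) (fun x => Clc F c g a₀ i s G μ κ lam x.1 x.2) ≤
        M * Real.exp (-(δ * J))) := by
  classical
  obtain ⟨c₁, h₁⟩ := crv_ok i D hD
  obtain ⟨c₂, h₂⟩ := crv_nr i D
  refine ⟨max c₁ c₂, ?_⟩
  intro m θ S P hP c hc a e h ha0 ha he hh hbet1
  obtain ⟨δ, hδ, τ, hτ, J₁, hv⟩ := Pool.VIS24.vis_cls hP c i (3 * D) a a e h ha0 le_rfl ha he hh
    hbet1
  refine ⟨δ, hδ, τ, hτ, J₁, ?_⟩
  intro J hJ F A hA n a₀ e₀ e' s v p g G H μ κ lam hin haJ haa hee hV hJg hpg hpJ hbet B hBA hch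
    hcl hμ hκ hlam q M hq hM hqB hqM
  have hch1 : ChOK F c (i + 1) (fun _ => D) a₀ a₀ e₀ g B G H :=
    ⟨hch.degG, hch.degH, hch.depG, hch.depH, fun ω hω x hx => hch.pos ω hω x (by omega),
      fun ω hω x hx => hch.agr ω hω x (by omega), fun ω hω x hx => hch.lip ω hω x (by omega)⟩
  have hch0 : ChOK F c i (fun _ => D) a₀ a₀ e₀ g B G H :=
    ⟨hch.degG, hch.degH, hch.depG, hch.depH, fun ω hω x hx => hch.pos ω hω x (by omega),
      fun ω hω x hx => hch.agr ω hω x (by omega), fun ω hω x hx => hch.lip ω hω x (by omega)⟩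
  have hch' := hch0.mono le_rfl (fun _ => le_rfl) le_rfl (e' := e₀ + e' + s + 3 * (i + 1) + 7)
    (by omega)
  have hok := h₁ (μ := μ) (κ := κ) (lam := lam) (s := s) (p := p) (v := v) hc hch1 hμ hκ hlam
    (by omega) (fun j hj => by
      have := hJg j hj
      have := le_max_left c₁ c₂
      omega) hpg
  have h3 := hv J hJ F A hA a₀ a₀ (e₀ + e' + s + 3 * (i + 1) + 7) p (fun _ => D) g G H
    (LC c g a₀ i G μ κ lam) le_rfl haa haa hee (fun _ => by omega) (fun l hl => by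
      have := hJg l hl.le
      omega) hpJ hbet B hBA hch' hok q M hq hM hqB hqM
  refine le_trans ?_ h3
  have hP2 := Pool.KM7.P2_isLaw hq (slam F a₀)
  rw [Pool.JVE.pe_sum, Pool.JVE.pe_sum]
  refine Finset.sum_le_sum fun x _ => ?_
  rcases (hP2.nonneg x).eq_or_lt with h0 | h0
  · rw [← h0]
    simp
  · obtain ⟨x1, x2, x3⟩ := (Pool.KM7.P2_pos hq x).mp h0
    by_cases h4 : Clc F c g a₀ i s G μ κ lam x.1 x.2
    · rw [if_pos h4, if_pos]
      exact h₂ (v := v) (e' := e') hc hch1 hin hcl haJ hμ hκ hlam hV (fun j hj => by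
        have := hJg j hj
        have := le_max_right c₁ c₂
        omega) hpg x.1 x.2 (hqB _ x1) (hqB _ x2) x3 h4
    · rw [if_neg h4]
      split_ifs
      exacts [h0.le, le_rfl]

/-- The increments are bounded. -/
theorem De_le {F : Fam m J} {c : ℕ → Fin m} {D a e n r : ℕ} {g : ℕ → ℕ} {B : F.Ω → Prop}
    {G : PtT F → ℕ → MvPolynomial (Option (Fin m)) ℝ}
    {H : LnT F → ℕ → MvPolynomial (Option (Fin m)) ℝ}
    (hch : ChOK F c r (fun _ => D) a a e g B G H) (hcl : Clsd F n a B G H) (haJ : a ≤ J)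
    {ω ω' : F.Ω} (hω : B ω) (hω' : B ω') (hs : slam F a ω = slam F a ω') {j : ℕ} (hj : j ≤ r)
    (hjn : j ≤ n) : |De F c g a G ω ω' j| ≤ 2 := by
  cases j with
  | zero =>
    have h1 := tu_le haJ hs
    have e1 : De F c g a G ω ω' 0 = tu F a ω ω' := by
      unfold De tu
      rw [Pi.sub_apply]
      show 2 ^ a * F.t ω' - 2 ^ a * F.t ω = _
      ring
    rw [e1]
    linarith
  | succ l =>
    have hG : G (ptr F J ω) l = G (ptr F J ω') l := by
      rw [hcl ω hω l hjn, hcl ω' hω' l hjn, hs]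
    have h1 := hch.pos ω hω l hj
    have h2 := hch.pos ω' hω' l hj
    have hg0 : (0 : ℝ) < 2 ^ g l := by positivity
    have k : ∀ y : ℝ, |y| ≤ 1 / 2 ^ g l → |2 ^ g l * y| ≤ 1 := fun y hy => by
      rw [abs_mul, abs_of_pos hg0]
      refine (mul_le_mul_of_nonneg_left hy hg0.le).trans (le_of_eq ?_)
      field_simp
    have h3 := k _ h1
    have h4 := k _ h2
    unfold De
    rw [Pi.sub_apply]
    simp only [xi]
    rw [hG]
    rw [hG] at h3
    refine (abs_sub _ _).trans ?_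
    have e1 : bt F ω' (some (c l)) = F.x ω' (c l) := rfl
    have e2 : bt F ω (some (c l)) = F.x ω (c l) := rfl
    rw [e1, e2]
    linarith

end Pool.D2C
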