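import Pool.Agent.H90.D2.Lcl

/-!
# D2: cubic forms in natural coordinates

`cb i μ κ lam z`: the polynomial of degree three with the coefficients `μ`, `κ`, `lam`. Bounds,
increments, the Taylor formula (`cb_taylor`).
-/

set_option autoImplicit false

namespace Pool.D2C

open Finset Real
open Pool.D2F (ln bl bl_swap)

/-- The trilinear form. -/
noncomputable def tl (i : ℕ) (lam : ℕ → ℕ → ℕ → ℝ) (x y z : ℕ → ℝ) : ℝ :=
  ∑ j ∈ range (i + 1), ∑ k ∈ range (i + 1), ∑ l ∈ range (i + 1), lam j k l * (x j * y k * z l)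

/-- The polynomial of degree three. -/
noncomputable def cb (i : ℕ) (μ : ℕ → ℝ) (κ : ℕ → ℕ → ℝ) (lam : ℕ → ℕ → ℕ → ℝ) (z : ℕ → ℝ) : ℝ :=
  ln i μ z + 1 / 2 * bl i κ z z + 1 / 6 * tl i lam z z z

theorem ln_ad (i : ℕ) (μ x y : ℕ → ℝ) : ln i μ (x + y) = ln i μ x + ln i μ y := by
  unfold ln
  rw [← Finset.sum_add_distrib]
  exact Finset.sum_congr rfl fun j _ => by rw [Pi.add_apply]; ring

theorem bl_ad1 (i : ℕ) (κ : ℕ → ℕ → ℝ) (x y z : ℕ → ℝ) :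
    bl i κ (x + y) z = bl i κ x z + bl i κ y z := by
  unfold bl
  rw [← Finset.sum_add_distrib]
  refine Finset.sum_congr rfl fun j _ => ?_
  rw [← Finset.sum_add_distrib]
  exact Finset.sum_congr rfl fun k _ => by rw [Pi.add_apply]; ring

theorem bl_ad2 (i : ℕ) (κ : ℕ → ℕ → ℝ) (x y z : ℕ → ℝ) :
    bl i κ x (y + z) = bl i κ x y + bl i κ x z := by
  unfold bl
  rw [← Finset.sum_add_distrib]
  refine Finset.sum_congr rfl fun j _ => ?_
  rw [← Finset.sum_add_distrib]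
  exact Finset.sum_congr rfl fun k _ => by rw [Pi.add_apply]; ring

theorem tl_ad1 (i : ℕ) (lam : ℕ → ℕ → ℕ → ℝ) (x x' y z : ℕ → ℝ) :
    tl i lam (x + x') y z = tl i lam x y z + tl i lam x' y z := by
  unfold tl
  rw [← Finset.sum_add_distrib]
  refine Finset.sum_congr rfl fun j _ => ?_
  rw [← Finset.sum_add_distrib]
  refine Finset.sum_congr rfl fun k _ => ?_
  rw [← Finset.sum_add_distrib]
  exact Finset.sum_congr rfl fun l _ => by rw [Pi.add_apply]; ring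

theorem tl_ad2 (i : ℕ) (lam : ℕ → ℕ → ℕ → ℝ) (x y y' z : ℕ → ℝ) :
    tl i lam x (y + y') z = tl i lam x y z + tl i lam x y' z := by
  unfold tl
  rw [← Finset.sum_add_distrib]
  refine Finset.sum_congr rfl fun j _ => ?_
  rw [← Finset.sum_add_distrib]
  refine Finset.sum_congr rfl fun k _ => ?_
  rw [← Finset.sum_add_distrib]
  exact Finset.sum_congr rfl fun l _ => by rw [Pi.add_apply]; ring

theorem tl_ad3 (i : ℕ) (lam : ℕ → ℕ → ℕ → ℝ) (x y z z' : ℕ → ℝ) :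
    tl i lam x y (z + z') = tl i lam x y z + tl i lam x y z' := by
  unfold tl
  rw [← Finset.sum_add_distrib]
  refine Finset.sum_congr rfl fun j _ => ?_
  rw [← Finset.sum_add_distrib]
  refine Finset.sum_congr rfl fun k _ => ?_
  rw [← Finset.sum_add_distrib]
  exact Finset.sum_congr rfl fun l _ => by rw [Pi.add_apply]; ring

/-- Symmetric coefficients. -/
def Sy3 (i : ℕ) (lam : ℕ → ℕ → ℕ → ℝ) : Prop :=
  ∀ j ≤ i, ∀ k ≤ i, ∀ l ≤ i, lam j k l = lam k j l ∧ lam j k l = lam j l k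

theorem tl_sw12 {i : ℕ} {lam : ℕ → ℕ → ℕ → ℝ} (h : Sy3 i lam) (x y z : ℕ → ℝ) :
    tl i lam x y z = tl i lam y x z := by
  unfold tl
  rw [Finset.sum_comm]
  refine Finset.sum_congr rfl fun j hj => Finset.sum_congr rfl fun k hk =>
    Finset.sum_congr rfl fun l hl => ?_
  rw [(h k (Nat.lt_succ_iff.1 (Finset.mem_range.1 hk)) j
    (Nat.lt_succ_iff.1 (Finset.mem_range.1 hj)) l (Nat.lt_succ_iff.1 (Finset.mem_range.1 hl))).1]
  ring

theorem tl_sw23 {i : ℕ} {lam : ℕ → ℕ → ℕ → ℝ} (h : Sy3 i lam) (x y z : ℕ → ℝ) :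
    tl i lam x y z = tl i lam x z y := by
  unfold tl
  refine Finset.sum_congr rfl fun j hj => ?_
  rw [Finset.sum_comm]
  refine Finset.sum_congr rfl fun k hk => Finset.sum_congr rfl fun l hl => ?_
  rw [(h j (Nat.lt_succ_iff.1 (Finset.mem_range.1 hj)) l
    (Nat.lt_succ_iff.1 (Finset.mem_range.1 hl)) k (Nat.lt_succ_iff.1 (Finset.mem_range.1 hk))).2]
  ring

/-! ### Bounds -/

theorem sum_bd {i : ℕ} {f : ℕ → ℝ} {M : ℝ} (h : ∀ j ≤ i, |f j| ≤ M) :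
    |∑ j ∈ range (i + 1), f j| ≤ ((i : ℝ) + 1) * M := by
  refine (Finset.abs_sum_le_sum_abs _ _).trans ?_
  refine (Finset.sum_le_sum fun j hj => h j (Nat.lt_succ_iff.1 (Finset.mem_range.1 hj))).trans
    (le_of_eq ?_)
  rw [Finset.sum_const, Finset.card_range, nsmul_eq_mul]
  push_cast
  ring

theorem ln_bd {i : ℕ} {μ x : ℕ → ℝ} {M X : ℝ} (hM : 0 ≤ M) (h1 : ∀ j ≤ i, |μ j| ≤ M)
    (h2 : ∀ j ≤ i, |x j| ≤ X) : |ln i μ x| ≤ ((i : ℝ) + 1) * (M * X) := by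
  refine sum_bd fun j hj => ?_
  rw [abs_mul]
  exact mul_le_mul (h1 j hj) (h2 j hj) (abs_nonneg _) hM

theorem bl_bd {i : ℕ} {κ : ℕ → ℕ → ℝ} {x y : ℕ → ℝ} {M X Y : ℝ} (hM : 0 ≤ M) (hX : 0 ≤ X)
    (h1 : ∀ j ≤ i, ∀ k ≤ i, |κ j k| ≤ M) (h2 : ∀ j ≤ i, |x j| ≤ X) (h3 : ∀ j ≤ i, |y j| ≤ Y) :
    |bl i κ x y| ≤ ((i : ℝ) + 1) ^ 2 * (M * (X * Y)) := by
  have h4 : |bl i κ x y| ≤ ((i : ℝ) + 1) * (((i : ℝ) + 1) * (M * (X * Y))) := by
    refine sum_bd fun j hj => sum_bd fun k hk => ?_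
    rw [abs_mul, abs_mul]
    exact mul_le_mul (h1 j hj k hk) (mul_le_mul (h2 j hj) (h3 k hk) (abs_nonneg _) hX)
      (by positivity) hM
  calc _ ≤ _ := h4
    _ = _ := by ring

theorem tl_bd {i : ℕ} {lam : ℕ → ℕ → ℕ → ℝ} {x y z : ℕ → ℝ} {M X Y Z : ℝ} (hM : 0 ≤ M)
    (hX : 0 ≤ X) (hY : 0 ≤ Y) (h1 : ∀ j ≤ i, ∀ k ≤ i, ∀ l ≤ i, |lam j k l| ≤ M)
    (h2 : ∀ j ≤ i, |x j| ≤ X) (h3 : ∀ j ≤ i, |y j| ≤ Y) (h4 : ∀ j ≤ i, |z j| ≤ Z) :
    |tl i lam x y z| ≤ ((i : ℝ) + 1) ^ 3 * (M * (X * Y * Z)) := by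
  have h5 : |tl i lam x y z| ≤
      ((i : ℝ) + 1) * (((i : ℝ) + 1) * (((i : ℝ) + 1) * (M * (X * Y * Z)))) := by
    refine sum_bd fun j hj => sum_bd fun k hk => sum_bd fun l hl => ?_
    rw [abs_mul, abs_mul, abs_mul]
    refine mul_le_mul (h1 j hj k hk l hl) (mul_le_mul (mul_le_mul (h2 j hj) (h3 k hk)
      (abs_nonneg _) hX) (h4 l hl) (abs_nonneg _) (by positivity)) (by positivity) hM
  calc _ ≤ _ := h5
    _ = _ := by ring

theorem cb_zero (i : ℕ) (μ : ℕ → ℝ) (κ : ℕ → ℕ → ℝ) (lam : ℕ → ℕ → ℕ → ℝ) :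
    cb i μ κ lam (fun _ => 0) = 0 := by
  unfold cb ln bl tl
  simp

/-- The increments. -/
theorem cb_lip {i : ℕ} {μ : ℕ → ℝ} {κ : ℕ → ℕ → ℝ} {lam : ℕ → ℕ → ℕ → ℝ} {x y : ℕ → ℝ}
    {M R δ : ℝ} (hM : 0 ≤ M) (hR : 1 ≤ R) (hδ : 0 ≤ δ) (hμ : ∀ j ≤ i, |μ j| ≤ M)
    (hκ : ∀ j ≤ i, ∀ k ≤ i, |κ j k| ≤ M) (hl : ∀ j ≤ i, ∀ k ≤ i, ∀ l ≤ i, |lam j k l| ≤ M)
    (hx : ∀ j ≤ i, |x j| ≤ R) (hy : ∀ j ≤ i, |y j| ≤ R) (hd : ∀ j ≤ i, |x j - y j| ≤ δ) :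
    |cb i μ κ lam x - cb i μ κ lam y| ≤ 3 * (((i : ℝ) + 1) ^ 3 * (M * R ^ 2 * δ)) := by
  obtain ⟨e, he⟩ : ∃ e : ℕ → ℝ, e = x - y := ⟨_, rfl⟩
  have hxe : x = y + e := by rw [he]; abel
  have hde : ∀ j ≤ i, |e j| ≤ δ := fun j hj => by rw [he]; exact hd j hj
  have e1 : cb i μ κ lam x - cb i μ κ lam y = ln i μ e + 1 / 2 * (bl i κ e x + bl i κ y e) +
      1 / 6 * (tl i lam e x x + tl i lam y e x + tl i lam y y e) := by
    have a1 : ln i μ x = ln i μ y + ln i μ e := by rw [hxe, ln_ad]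
    have a2 : bl i κ x x = bl i κ y y + bl i κ y e + bl i κ e x := by
      have b1 : bl i κ x x = bl i κ y x + bl i κ e x := by
        have := bl_ad1 i κ y e x
        rwa [← hxe] at this
      have b2 : bl i κ y x = bl i κ y y + bl i κ y e := by
        have := bl_ad2 i κ y y e
        rwa [← hxe] at this
      linarith
    have a3 : tl i lam x x x = tl i lam y y y + tl i lam y y e + tl i lam y e x +
        tl i lam e x x := by
      have b1 : tl i lam x x x = tl i lam y x x + tl i lam e x x := by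
        have := tl_ad1 i lam y e x x
        rwa [← hxe] at this
      have b2 : tl i lam y x x = tl i lam y y x + tl i lam y e x := by
        have := tl_ad2 i lam y y e x
        rwa [← hxe] at this
      have b3 : tl i lam y y x = tl i lam y y y + tl i lam y y e := by
        have := tl_ad3 i lam y y y e
        rwa [← hxe] at this
      linarith
    unfold cb
    rw [a1, a2, a3]
    ring
  rw [e1]
  have hi0 : (0 : ℝ) ≤ i := Nat.cast_nonneg i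
  have hR0 : 0 ≤ R := zero_le_one.trans hR
  have c1 := ln_bd hM hμ hde
  have c2 := bl_bd hM hδ hκ hde hx
  have c3 := bl_bd hM hR0 hκ hy hde
  have c4 := tl_bd hM hδ hR0 hl hde hx hx
  have c5 := tl_bd hM hR0 hδ hl hy hde hx
  have c6 := tl_bd hM hR0 hR0 hl hy hy hde
  have hMδ : 0 ≤ M * δ := mul_nonneg hM hδ
  have d0 : (1 : ℝ) ≤ (i : ℝ) + 1 := by linarith
  have hR2 : R ≤ R ^ 2 := by nlinarith
  have hR3 : 1 ≤ R ^ 2 := by nlinarith
  have d1 : ((i : ℝ) + 1) ≤ ((i : ℝ) + 1) ^ 3 := by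
    calc ((i : ℝ) + 1) = ((i : ℝ) + 1) ^ 1 := (pow_one _).symm
      _ ≤ _ := pow_le_pow_right₀ d0 (by norm_num)
  have d2 : ((i : ℝ) + 1) ^ 2 ≤ ((i : ℝ) + 1) ^ 3 := pow_le_pow_right₀ d0 (by norm_num)
  have f1 : ((i : ℝ) + 1) * (M * δ) ≤ ((i : ℝ) + 1) ^ 3 * (M * R ^ 2 * δ) := by
    refine mul_le_mul d1 ?_ hMδ (by positivity)
    nlinarith
  have f2 : ((i : ℝ) + 1) ^ 2 * (M * (δ * R)) ≤ ((i : ℝ) + 1) ^ 3 * (M * R ^ 2 * δ) := by
    refine mul_le_mul d2 ?_ (by positivity) (by positivity)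
    nlinarith
  have f3 : M * (R * δ) = M * (δ * R) := by ring
  have f4 : M * (δ * R * R) = M * R ^ 2 * δ := by ring
  have f5 : M * (R * δ * R) = M * R ^ 2 * δ := by ring
  have f6 : M * (R * R * δ) = M * R ^ 2 * δ := by ring
  rw [f3] at c3
  rw [f4] at c4
  rw [f5] at c5
  rw [f6] at c6
  rw [abs_le] at c1 c2 c3 c4 c5 c6
  have hX : 0 ≤ ((i : ℝ) + 1) ^ 3 * (M * R ^ 2 * δ) := by positivity
  rw [abs_le]
  constructor <;> linarith [c1.1, c1.2, c2.1, c2.2, c3.1, c3.2, c4.1, c4.2, c5.1, c5.2, c6.1, c6.2]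

/-- **The Taylor formula.** -/
theorem cb_taylor {i : ℕ} {μ : ℕ → ℝ} {κ : ℕ → ℕ → ℝ} {lam : ℕ → ℕ → ℕ → ℝ}
    (hκ : ∀ j ≤ i, ∀ k ≤ i, κ j k = κ k j) (hl : Sy3 i lam) (D χ : ℕ → ℝ) :
    cb i μ κ lam (D + χ) = cb i μ κ lam D +
      cb i (fun j => μ j + ∑ k ∈ range (i + 1), κ j k * D k +
        1 / 2 * ∑ k ∈ range (i + 1), ∑ l ∈ range (i + 1), lam j k l * (D k * D l))
        (fun j k => κ j k + ∑ l ∈ range (i + 1), lam j k l * D l) lam χ := by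
  have e1 : ln i (fun j => μ j + ∑ k ∈ range (i + 1), κ j k * D k +
      1 / 2 * ∑ k ∈ range (i + 1), ∑ l ∈ range (i + 1), lam j k l * (D k * D l)) χ =
      ln i μ χ + bl i κ χ D + 1 / 2 * tl i lam χ D D := by
    unfold ln bl tl
    rw [Finset.mul_sum, ← Finset.sum_add_distrib, ← Finset.sum_add_distrib]
    refine Finset.sum_congr rfl fun j _ => ?_
    have a1 : ∑ k ∈ range (i + 1), κ j k * (χ j * D k) =
        (∑ k ∈ range (i + 1), κ j k * D k) * χ j := by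
      rw [Finset.sum_mul]
      exact Finset.sum_congr rfl fun k _ => by ring
    have a2 : ∑ k ∈ range (i + 1), ∑ l ∈ range (i + 1), lam j k l * (χ j * D k * D l) =
        (∑ k ∈ range (i + 1), ∑ l ∈ range (i + 1), lam j k l * (D k * D l)) * χ j := by
      rw [Finset.sum_mul]
      refine Finset.sum_congr rfl fun k _ => ?_
      rw [Finset.sum_mul]
      exact Finset.sum_congr rfl fun l _ => by ring
    rw [a1, a2]
    ring
  have e2 : bl i (fun j k => κ j k + ∑ l ∈ range (i + 1), lam j k l * D l) χ χ =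
      bl i κ χ χ + tl i lam χ χ D := by
    unfold bl tl
    rw [← Finset.sum_add_distrib]
    refine Finset.sum_congr rfl fun j _ => ?_
    rw [← Finset.sum_add_distrib]
    refine Finset.sum_congr rfl fun k _ => ?_
    have a1 : ∑ l ∈ range (i + 1), lam j k l * (χ j * χ k * D l) =
        (∑ l ∈ range (i + 1), lam j k l * D l) * (χ j * χ k) := by
      rw [Finset.sum_mul]
      exact Finset.sum_congr rfl fun l _ => by ring
    rw [a1]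
    ring
  have b1 : bl i κ D χ = bl i κ χ D := bl_swap hκ χ D
  have t1 : tl i lam D D χ = tl i lam χ D D := by
    rw [tl_sw23 hl, tl_sw12 hl]
  have t2 : tl i lam D χ D = tl i lam χ D D := tl_sw12 hl D χ D
  have t3 : tl i lam D χ χ = tl i lam χ χ D := by
    rw [tl_sw12 hl, tl_sw23 hl]
  have t4 : tl i lam χ D χ = tl i lam χ χ D := tl_sw23 hl χ D χ
  unfold cb
  rw [e1, e2, ln_ad, bl_ad1, bl_ad2, bl_ad2, tl_ad1, tl_ad2, tl_ad2, tl_ad3, tl_ad3, tl_ad3,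
    tl_ad3, b1, t1, t2, t3, t4]
  ring

/-- **The criterion**, for real numbers. -/
theorem clc_alg {i : ℕ} {μ μ' : ℕ → ℝ} {κ κ' : ℕ → ℕ → ℝ} {lam lam' : ℕ → ℕ → ℕ → ℝ}
    {D z : ℕ → ℝ} {R ε : ℝ} (hR : 1 ≤ R) (hε : 0 ≤ ε)
    (hκ : ∀ j ≤ i, ∀ k ≤ i, κ j k = κ k j) (hl : Sy3 i lam)
    (hz : ∀ j ≤ i, |z j - D j| ≤ R)
    (h0 : |D (i + 1) - cb i μ κ lam D| ≤ ε)
    (h1 : ∀ j ≤ i, |μ' j - (μ j + ∑ k ∈ range (i + 1), κ j k * D k +
      1 / 2 * ∑ k ∈ range (i + 1), ∑ l ∈ range (i + 1), lam j k l * (D k * D l))| ≤ ε)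
    (h2 : ∀ j ≤ i, ∀ k ≤ i, |κ' j k - (κ j k + ∑ l ∈ range (i + 1), lam j k l * D l)| ≤ ε)
    (h3 : ∀ j ≤ i, ∀ k ≤ i, ∀ l ≤ i, |lam' j k l - lam j k l| ≤ ε) :
    |D (i + 1) + cb i μ' κ' lam' (z - D) - cb i μ κ lam z| ≤
      3 * (((i : ℝ) + 1) ^ 3 * (R ^ 3 * ε)) := by
  obtain ⟨χ, hχ⟩ : ∃ χ : ℕ → ℝ, χ = z - D := ⟨_, rfl⟩
  have hz' : z = D + χ := by rw [hχ]; abel
  have hχR : ∀ j ≤ i, |χ j| ≤ R := fun j hj => by rw [hχ]; exact hz j hj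
  obtain ⟨m₁, hm₁⟩ : ∃ m₁ : ℕ → ℝ, m₁ = fun j => μ j + ∑ k ∈ range (i + 1), κ j k * D k +
      1 / 2 * ∑ k ∈ range (i + 1), ∑ l ∈ range (i + 1), lam j k l * (D k * D l) := ⟨_, rfl⟩
  obtain ⟨k₁, hk₁⟩ : ∃ k₁ : ℕ → ℕ → ℝ, k₁ = fun j k => κ j k +
      ∑ l ∈ range (i + 1), lam j k l * D l := ⟨_, rfl⟩
  have e1 : cb i μ κ lam z = cb i μ κ lam D + cb i m₁ k₁ lam χ := by
    rw [hz', cb_taylor hκ hl, hm₁, hk₁]
  have h1' : ∀ j ≤ i, |(fun j => μ' j - m₁ j) j| ≤ ε := fun j hj => by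
    rw [hm₁]
    exact h1 j hj
  have h2' : ∀ j ≤ i, ∀ k ≤ i, |(fun j k => κ' j k - k₁ j k) j k| ≤ ε := fun j hj k hk => by
    rw [hk₁]
    exact h2 j hj k hk
  have h3' : ∀ j ≤ i, ∀ k ≤ i, ∀ l ≤ i, |(fun j k l => lam' j k l - lam j k l) j k l| ≤ ε := h3
  have e2 : cb i μ' κ' lam' χ - cb i m₁ k₁ lam χ = ln i (fun j => μ' j - m₁ j) χ +
      1 / 2 * bl i (fun j k => κ' j k - k₁ j k) χ χ +
      1 / 6 * tl i (fun j k l => lam' j k l - lam j k l) χ χ χ := by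
    have a1 : ln i (fun j => μ' j - m₁ j) χ = ln i μ' χ - ln i m₁ χ := by
      unfold ln
      rw [← Finset.sum_sub_distrib]
      exact Finset.sum_congr rfl fun j _ => by ring
    have a2 : bl i (fun j k => κ' j k - k₁ j k) χ χ = bl i κ' χ χ - bl i k₁ χ χ := by
      unfold bl
      rw [← Finset.sum_sub_distrib]
      refine Finset.sum_congr rfl fun j _ => ?_
      rw [← Finset.sum_sub_distrib]
      exact Finset.sum_congr rfl fun k _ => by ring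
    have a3 : tl i (fun j k l => lam' j k l - lam j k l) χ χ χ =
        tl i lam' χ χ χ - tl i lam χ χ χ := by
      unfold tl
      rw [← Finset.sum_sub_distrib]
      refine Finset.sum_congr rfl fun j _ => ?_
      rw [← Finset.sum_sub_distrib]
      refine Finset.sum_congr rfl fun k _ => ?_
      rw [← Finset.sum_sub_distrib]
      exact Finset.sum_congr rfl fun l _ => by ring
    rw [a1, a2, a3]
    unfold cb
    ring
  have e3 : D (i + 1) + cb i μ' κ' lam' (z - D) - cb i μ κ lam z =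
      (D (i + 1) - cb i μ κ lam D) + (cb i μ' κ' lam' χ - cb i m₁ k₁ lam χ) := by
    rw [e1, ← hχ]
    ring
  rw [e3, e2]
  have hR0 : 0 ≤ R := zero_le_one.trans hR
  have c1 := ln_bd hε h1' hχR
  have c2 := bl_bd hε hR0 h2' hχR hχR
  have c3 := tl_bd hε hR0 hR0 h3' hχR hχR hχR
  have hi0 : (0 : ℝ) ≤ i := Nat.cast_nonneg i
  have d0 : (1 : ℝ) ≤ (i : ℝ) + 1 := by linarith
  obtain ⟨X, hX⟩ : ∃ X : ℝ, X = ((i : ℝ) + 1) ^ 3 * (R ^ 3 * ε) := ⟨_, rfl⟩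
  have hp : ∀ a ≤ 3, ∀ b ≤ 3, ((i : ℝ) + 1) ^ a * (R ^ b * ε) ≤ X := by
    intro a ha b hb
    rw [hX]
    exact mul_le_mul (pow_le_pow_right₀ d0 ha)
      (mul_le_mul_of_nonneg_right (pow_le_pow_right₀ hR hb) hε) (by positivity) (by positivity)
  have f0 := hp 0 (by norm_num) 0 (by norm_num)
  have f1 := hp 1 (by norm_num) 1 (by norm_num)
  have f2 := hp 2 (by norm_num) 2 (by norm_num)
  have f3 := hp 3 (by norm_num) 3 (by norm_num)
  rw [pow_zero, pow_zero, one_mul, one_mul] at f0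
  rw [pow_one, pow_one] at f1
  have g1 : ((i : ℝ) + 1) * (ε * R) = ((i : ℝ) + 1) * (R * ε) := by ring
  have g2 : ((i : ℝ) + 1) ^ 2 * (ε * (R * R)) = ((i : ℝ) + 1) ^ 2 * (R ^ 2 * ε) := by ring
  have g3 : ((i : ℝ) + 1) ^ 3 * (ε * (R * R * R)) = ((i : ℝ) + 1) ^ 3 * (R ^ 3 * ε) := by ring
  rw [g1] at c1
  rw [g2] at c2
  rw [g3] at c3
  rw [← hX]
  rw [abs_le] at c1 c2 c3 h0 ⊢
  constructor <;> linarith [c1.1, c1.2, c2.1, c2.2, c3.1, c3.2, h0.1, h0.2]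

end Pool.D2C
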