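import Pool.Agent.H24.D2.Vis

/-!
# D2: affine frames

A frame is a list of constant covectors `ψ 0, ψ 1, …`; the covector `ψ l` depends on the time and on
the coordinates `c j`, `j < l`. The natural coordinates of a vector `W` are `2 ^ a * W none` and
`2 ^ g l * (W (c l) - ψ l W)`. `lbp`: the polynomial of degree two through a point, in natural
coordinates. Values, degrees, derivatives.
-/

set_option autoImplicit false

namespace Pool.D2F

open Finset Real MvPolynomial
open Pool.Agent.H49.Ent Pool.Agent.H32.Dense Pool.STK Pool.KA Pool.KSAT Pool.K2S Pool.PB Pool.S6C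
open Pool.GEN Pool.CHT

variable {m : ℕ}

/-- The value of a covector. -/
noncomputable def cv (ψ W : Option (Fin m) → ℝ) : ℝ := ∑ o, ψ o * W o

/-- The covector depends on the time and on the coordinates `c j`, `j < i`. -/
def CvC (c : ℕ → Fin m) (i : ℕ) (ψ : Option (Fin m) → ℝ) : Prop :=
  ∀ k : Fin m, (∀ j < i, k ≠ c j) → ψ (some k) = 0

theorem cv_add (ψ W W' : Option (Fin m) → ℝ) : cv ψ (W + W') = cv ψ W + cv ψ W' := by
  unfold cv
  rw [← Finset.sum_add_distrib]
  exact Finset.sum_congr rfl fun o _ => by rw [Pi.add_apply]; ring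

theorem cv_sub (ψ W W' : Option (Fin m) → ℝ) : cv ψ (W - W') = cv ψ W - cv ψ W' := by
  unfold cv
  rw [← Finset.sum_sub_distrib]
  exact Finset.sum_congr rfl fun o _ => by rw [Pi.sub_apply]; ring

theorem cv_smul (ψ W : Option (Fin m) → ℝ) (t : ℝ) : cv ψ (t • W) = t * cv ψ W := by
  unfold cv
  rw [Finset.mul_sum]
  exact Finset.sum_congr rfl fun o _ => by rw [Pi.smul_apply, smul_eq_mul]; ring

/-- The value of a covector, as a sum over the coordinates of the chain. -/
theorem cv_eq {c : ℕ → Fin m} {i : ℕ} (hc : Set.InjOn c (Set.Iio i))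
    {ψ : Option (Fin m) → ℝ} (h : CvC c i ψ) (W : Option (Fin m) → ℝ) :
    cv ψ W = ψ none * W none + ∑ j ∈ range i, ψ (some (c j)) * W (some (c j)) := by
  classical
  unfold cv
  rw [Fintype.sum_option]
  congr 1
  rw [← Finset.sum_image (s := range i) (g := c) (f := fun k => ψ (some k) * W (some k))
    (fun x hx y hy h' => hc (by simpa using hx) (by simpa using hy) h')]
  refine (Finset.sum_subset (Finset.subset_univ _) fun k _ hk => ?_).symm
  rw [h k fun j hj hkj => hk (Finset.mem_image.2 ⟨j, Finset.mem_range.2 hj, hkj.symm⟩), zero_mul]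

/-- The value of a covector depends on the coordinates of the chain only. -/
theorem cv_congr {c : ℕ → Fin m} {i : ℕ} {ψ : Option (Fin m) → ℝ} (h : CvC c i ψ)
    {W W' : Option (Fin m) → ℝ} (h0 : W none = W' none)
    (h1 : ∀ j < i, W (some (c j)) = W' (some (c j))) : cv ψ W = cv ψ W' := by
  classical
  unfold cv
  refine Finset.sum_congr rfl fun o _ => ?_
  cases o with
  | none => rw [h0]
  | some k =>
    by_cases hk : ∃ j < i, k = c j
    · obtain ⟨j, hj, rfl⟩ := hk
      rw [h1 j hj]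
    · push Not at hk
      rw [h k hk, zero_mul, zero_mul]

/-- **The natural coordinates** of a vector in a frame: the time at `0`, the coordinate `c l` at
`l + 1`. -/
noncomputable def eta (c : ℕ → Fin m) (g : ℕ → ℕ) (a : ℕ) (ψ : ℕ → Option (Fin m) → ℝ)
    (W : Option (Fin m) → ℝ) : ℕ → ℝ
  | 0 => 2 ^ a * W none
  | l + 1 => 2 ^ g l * (W (some (c l)) - cv (ψ l) W)

section eta

variable (c : ℕ → Fin m) (g : ℕ → ℕ) (a : ℕ) (ψ : ℕ → Option (Fin m) → ℝ)

theorem eta_add (W W' : Option (Fin m) → ℝ) (j : ℕ) :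
    eta c g a ψ (W + W') j = eta c g a ψ W j + eta c g a ψ W' j := by
  cases j with
  | zero => simp only [eta, Pi.add_apply]; ring
  | succ l => simp only [eta, Pi.add_apply, cv_add]; ring

theorem eta_sub (W W' : Option (Fin m) → ℝ) (j : ℕ) :
    eta c g a ψ (W - W') j = eta c g a ψ W j - eta c g a ψ W' j := by
  cases j with
  | zero => simp only [eta, Pi.sub_apply]; ring
  | succ l => simp only [eta, Pi.sub_apply, cv_sub]; ring

theorem eta_smul (W : Option (Fin m) → ℝ) (t : ℝ) (j : ℕ) :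
    eta c g a ψ (t • W) j = t * eta c g a ψ W j := by
  cases j with
  | zero => simp only [eta, Pi.smul_apply, smul_eq_mul]; ring
  | succ l => simp only [eta, Pi.smul_apply, smul_eq_mul, cv_smul]; ring

end eta

/-! ### Polynomials -/

/-- The affine polynomial with the value `v` at `x` and the gradient `ψ`. -/
noncomputable def afp (x : Option (Fin m) → ℝ) (v : ℝ) (ψ : Option (Fin m) → ℝ) :
    MvPolynomial (Option (Fin m)) ℝ := C v + ∑ o, C (ψ o) * (X o - C (x o))

/-- The natural coordinates of `b - x`, as polynomials in `b`. -/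
noncomputable def ep (c : ℕ → Fin m) (g : ℕ → ℕ) (a : ℕ) (ψ : ℕ → Option (Fin m) → ℝ)
    (x : Option (Fin m) → ℝ) : ℕ → MvPolynomial (Option (Fin m)) ℝ
  | 0 => C (2 ^ a) * (X none - C (x none))
  | l + 1 => C (2 ^ g l) * (X (some (c l)) - C (x (some (c l))) - afp x 0 (ψ l))

/-- **The quadratic label** through a point, in natural coordinates. -/
noncomputable def lbp (c : ℕ → Fin m) (g : ℕ → ℕ) (a : ℕ) (ψ : ℕ → Option (Fin m) → ℝ) (i : ℕ)
    (x : Option (Fin m) → ℝ) (μ : ℕ → ℝ) (κ : ℕ → ℕ → ℝ) : MvPolynomial (Option (Fin m)) ℝ :=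
  afp x (x (some (c i))) (ψ i) + C (1 / 2 ^ g i) * (∑ j ∈ range (i + 1), C (μ j) * ep c g a ψ x j +
    C (1 / 2) * ∑ j ∈ range (i + 1), ∑ k ∈ range (i + 1),
      C (κ j k) * (ep c g a ψ x j * ep c g a ψ x k))

/-- The quadratic function of the natural coordinates. -/
noncomputable def qv (i : ℕ) (μ : ℕ → ℝ) (κ : ℕ → ℕ → ℝ) (η : ℕ → ℝ) : ℝ :=
  ∑ j ∈ range (i + 1), μ j * η j + 1 / 2 * ∑ j ∈ range (i + 1), ∑ k ∈ range (i + 1),
    κ j k * (η j * η k)

theorem eval_afp (x : Option (Fin m) → ℝ) (v : ℝ) (ψ b : Option (Fin m) → ℝ) :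
    eval b (afp x v ψ) = v + cv ψ (b - x) := by
  unfold afp cv
  rw [map_add, eval_C, map_sum]
  congr 1
  refine Finset.sum_congr rfl fun o _ => ?_
  rw [map_mul, map_sub, eval_C, eval_X, eval_C, Pi.sub_apply]

theorem eval_ep (c : ℕ → Fin m) (g : ℕ → ℕ) (a : ℕ) (ψ : ℕ → Option (Fin m) → ℝ)
    (x b : Option (Fin m) → ℝ) (j : ℕ) :
    eval b (ep c g a ψ x j) = eta c g a ψ (b - x) j := by
  cases j with
  | zero =>
    simp only [ep, eta, map_mul, map_sub, eval_C, eval_X, Pi.sub_apply]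
  | succ l =>
    simp only [ep, eta, map_mul, map_sub, eval_C, eval_X, Pi.sub_apply, eval_afp, zero_add]

theorem eval_lbp (c : ℕ → Fin m) (g : ℕ → ℕ) (a : ℕ) (ψ : ℕ → Option (Fin m) → ℝ) (i : ℕ)
    (x : Option (Fin m) → ℝ) (μ : ℕ → ℝ) (κ : ℕ → ℕ → ℝ) (b : Option (Fin m) → ℝ) :
    eval b (lbp c g a ψ i x μ κ) = x (some (c i)) + cv (ψ i) (b - x) +
      1 / 2 ^ g i * qv i μ κ (eta c g a ψ (b - x)) := by
  unfold lbp qv
  simp only [map_add, map_mul, map_sum, eval_C, eval_afp, eval_ep]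

theorem deg_afp (x : Option (Fin m) → ℝ) (v : ℝ) (ψ : Option (Fin m) → ℝ) :
    (afp x v ψ).totalDegree ≤ 1 := by
  unfold afp
  refine (totalDegree_add _ _).trans (max_le (by rw [totalDegree_C]; exact Nat.zero_le _) ?_)
  refine totalDegree_finsetSum_le fun o _ => ?_
  refine (totalDegree_mul _ _).trans ?_
  rw [totalDegree_C, zero_add]
  refine (totalDegree_sub _ _).trans (max_le ?_ (by rw [totalDegree_C]; exact Nat.zero_le _))
  rw [totalDegree_X]

theorem deg_ep (c : ℕ → Fin m) (g : ℕ → ℕ) (a : ℕ) (ψ : ℕ → Option (Fin m) → ℝ)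
    (x : Option (Fin m) → ℝ) (j : ℕ) : (ep c g a ψ x j).totalDegree ≤ 1 := by
  cases j with
  | zero =>
    unfold ep
    refine (totalDegree_mul _ _).trans ?_
    rw [totalDegree_C, zero_add]
    refine (totalDegree_sub _ _).trans (max_le ?_ (by rw [totalDegree_C]; exact Nat.zero_le _))
    rw [totalDegree_X]
  | succ l =>
    unfold ep
    refine (totalDegree_mul _ _).trans ?_
    rw [totalDegree_C, zero_add]
    refine (totalDegree_sub _ _).trans (max_le ?_ (deg_afp _ _ _))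
    refine (totalDegree_sub _ _).trans (max_le ?_ (by rw [totalDegree_C]; exact Nat.zero_le _))
    rw [totalDegree_X]

theorem deg_lbp (c : ℕ → Fin m) (g : ℕ → ℕ) (a : ℕ) (ψ : ℕ → Option (Fin m) → ℝ) (i : ℕ)
    (x : Option (Fin m) → ℝ) (μ : ℕ → ℝ) (κ : ℕ → ℕ → ℝ) :
    (lbp c g a ψ i x μ κ).totalDegree ≤ 2 := by
  have hep := deg_ep c g a ψ x
  unfold lbp
  refine (totalDegree_add _ _).trans (max_le ((deg_afp _ _ _).trans (by norm_num)) ?_)
  refine (totalDegree_mul _ _).trans ?_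
  rw [totalDegree_C, zero_add]
  refine (totalDegree_add _ _).trans (max_le ?_ ?_)
  · refine totalDegree_finsetSum_le fun j _ => ?_
    refine (totalDegree_mul _ _).trans ?_
    rw [totalDegree_C, zero_add]
    exact (hep j).trans (by norm_num)
  · refine (totalDegree_mul _ _).trans ?_
    rw [totalDegree_C, zero_add]
    refine totalDegree_finsetSum_le fun j _ => totalDegree_finsetSum_le fun k _ => ?_
    refine (totalDegree_mul _ _).trans ?_
    rw [totalDegree_C, zero_add]
    refine (totalDegree_mul _ _).trans ?_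
    have h1 := hep j
    have h2 := hep k
    omega

theorem dep_afp {c : ℕ → Fin m} {i : ℕ} (x : Option (Fin m) → ℝ) (v : ℝ)
    {ψ : Option (Fin m) → ℝ} (h : CvC c i ψ) : DepC c i (afp x v ψ) := by
  intro b b' h0 h1
  rw [eval_afp, eval_afp, cv_congr h (W := b - x) (W' := b' - x) (by
    rw [Pi.sub_apply, Pi.sub_apply, h0]) fun j hj => by rw [Pi.sub_apply, Pi.sub_apply, h1 j hj]]

theorem eta_congr {c : ℕ → Fin m} (g : ℕ → ℕ) (a : ℕ) {ψ : ℕ → Option (Fin m) → ℝ} {i : ℕ}
    (h : ∀ l < i, CvC c l (ψ l)) {W W' : Option (Fin m) → ℝ} (h0 : W none = W' none)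
    (h1 : ∀ j < i, W (some (c j)) = W' (some (c j))) {j : ℕ} (hj : j ≤ i) :
    eta c g a ψ W j = eta c g a ψ W' j := by
  cases j with
  | zero => simp only [eta, h0]
  | succ l =>
    simp only [eta]
    rw [h1 l hj, cv_congr (h l hj) h0 fun j hj' => h1 j (hj'.trans hj)]

theorem dep_lbp {c : ℕ → Fin m} (g : ℕ → ℕ) (a : ℕ) {ψ : ℕ → Option (Fin m) → ℝ} {i : ℕ}
    (h : ∀ l ≤ i, CvC c l (ψ l)) (x : Option (Fin m) → ℝ) (μ : ℕ → ℝ) (κ : ℕ → ℕ → ℝ) :
    DepC c i (lbp c g a ψ i x μ κ) := by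
  intro b b' h0 h1
  have e : ∀ j ∈ range (i + 1), eta c g a ψ (b - x) j = eta c g a ψ (b' - x) j := fun j hj =>
    eta_congr g a (fun l hl => h l hl.le) (by rw [Pi.sub_apply, Pi.sub_apply, h0])
      (fun j hj => by rw [Pi.sub_apply, Pi.sub_apply, h1 j hj])
      (Nat.lt_succ_iff.1 (Finset.mem_range.1 hj))
  rw [eval_lbp, eval_lbp, cv_congr (h i le_rfl) (W := b - x) (W' := b' - x) (by
    rw [Pi.sub_apply, Pi.sub_apply, h0]) fun j hj => by rw [Pi.sub_apply, Pi.sub_apply, h1 j hj]]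
  congr 2
  unfold qv
  rw [Finset.sum_congr rfl fun j hj => by rw [e j hj], Finset.sum_congr rfl fun j hj =>
    Finset.sum_congr rfl fun k hk => by rw [e j hj, e k hk]]

/-! ### Derivatives -/

theorem pd_afp (x : Option (Fin m) → ℝ) (v : ℝ) (ψ : Option (Fin m) → ℝ) (o : Option (Fin m))
    (b : Option (Fin m) → ℝ) : eval b (pderiv o (afp x v ψ)) = ψ o := by
  classical
  unfold afp
  rw [map_add, pderiv_C, zero_add, map_sum, map_sum, Finset.sum_eq_single o]
  · rw [pderiv_C_mul, map_sub, pderiv_X_self, pderiv_C, sub_zero, mul_one, eval_C]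
  · intro o' _ ho'
    rw [pderiv_C_mul, map_sub, pderiv_X_of_ne ho', pderiv_C, sub_zero]
    simp
  · intro h
    exact absurd (Finset.mem_univ _) h

/-- The derivatives of the natural coordinates. -/
noncomputable def de (c : ℕ → Fin m) (g : ℕ → ℕ) (ψ : ℕ → Option (Fin m) → ℝ) (k : Fin m) :
    ℕ → ℝ
  | 0 => 0
  | l + 1 => 2 ^ g l * ((if c l = k then 1 else 0) - ψ l (some k))

theorem pd_ep (c : ℕ → Fin m) (g : ℕ → ℕ) (a : ℕ) (ψ : ℕ → Option (Fin m) → ℝ)
    (x b : Option (Fin m) → ℝ) (k : Fin m) (j : ℕ) :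
    eval b (pderiv (some k) (ep c g a ψ x j)) = de c g ψ k j := by
  classical
  cases j with
  | zero =>
    simp only [ep, de]
    rw [pderiv_C_mul, map_sub, pderiv_X_of_ne (by simp), pderiv_C, sub_zero]
    simp
  | succ l =>
    simp only [ep, de]
    rw [pderiv_C_mul, map_sub, map_sub, map_mul, eval_C, map_sub, map_sub, pd_afp, pderiv_C,
      map_zero, sub_zero]
    congr 2
    by_cases h : c l = k
    · rw [if_pos h, h, pderiv_X_self, map_one]
    · rw [if_neg h, pderiv_X_of_ne (fun h' => h (Option.some_injective _ h')), map_zero]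

theorem pd_lbp (c : ℕ → Fin m) (g : ℕ → ℕ) (a : ℕ) (ψ : ℕ → Option (Fin m) → ℝ) (i : ℕ)
    (x : Option (Fin m) → ℝ) (μ : ℕ → ℝ) (κ : ℕ → ℕ → ℝ) (b : Option (Fin m) → ℝ) (k : Fin m) :
    eval b (pderiv (some k) (lbp c g a ψ i x μ κ)) = ψ i (some k) + 1 / 2 ^ g i *
      (∑ j ∈ range (i + 1), μ j * de c g ψ k j + 1 / 2 * ∑ j ∈ range (i + 1),
        ∑ l ∈ range (i + 1), κ j l * (eta c g a ψ (b - x) j * de c g ψ k l +
          eta c g a ψ (b - x) l * de c g ψ k j)) := by
  unfold lbp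
  simp only [map_add, map_sum, map_mul, eval_C, pd_afp, pd_ep, Derivation.leibniz, smul_eq_mul,
    eval_ep, pderiv_C, map_zero, mul_zero, add_zero]

end Pool.D2F
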