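import Pool.Agent.H90.D2.Hcm

/-!
# The hop cell: the class end

`hop_end`: in a class the real data of the hop cell with few numbers, free own data, full positions
are impossible.
-/

set_option autoImplicit false

namespace Pool.D2N

open Finset Real MvPolynomial
open Pool.Agent.H49.Ent Pool.Agent.H32.Dense Pool.STK Pool.KA Pool.KSAT Pool.K2S Pool.PB Pool.S6C
open Pool.GEN Pool.CHT Pool.CHX Pool.LA91
open Pool.LBT (ThrOf)
open Pool.D2F Pool.D2Z Pool.D2F2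
open Pool.D2R (dd hs co)
open Pool.OWN68 (opl tw uw mid dirv natDegree_opl opl_jet uw_abs)
open Pool.KM7 (P2 P2_isLaw P2_pos)
open Pool.D2A Pool.D2T
open Pool.F5 (VDat Kil dt dz)

variable {m J : ℕ}

/-- **The data of the target** on an event: its visible covector is natural, its own velocity and
the gradient of its closed label are those of the visible covector. -/
structure TgH (F : Fam m J) (c : ℕ → Fin m) (g : ℕ → ℕ) (W n k e₀ : ℕ)
    (ψ γ : PtT F → ℕ → Option (Fin m) → ℝ) (ψH : LnT F → ℕ → Option (Fin m) → ℝ)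
    (Ht : LnT F → MvPolynomial (Option (Fin m)) ℝ) (B : F.Ω → Prop) (δt : ℝ) : Prop where
  fr : FrOK F c 4 W k e₀ g B ψ ψH
  dep : ∀ y l, CvC c l (γ y l)
  near : ∀ ω, B ω → ∀ V : Option (Fin m) → ℝ, |cv (γ (ptr F J ω) 3 - ψ (ptr F J ω) 3) V| ≤
    2 ^ k / 2 ^ g 3 * en c g W (ψ (ptr F J ω)) 3 V
  vel : ∀ ω, B ω → |bd F ω (some (c 3)) - cv (γ (ptr F J ω) 3) (bd F ω)| ≤
    δt * (2 ^ W / 2 ^ g 3)
  row : ∀ ω, B ω → ∀ V : Option (Fin m) → ℝ, V none = 0 →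
    |dd (Ht (co n (slam F W ω))) (bt F ω) V - cv (γ (ptr F J ω) 3) V| ≤
      δt / 2 ^ g 3 * en c g W (ψ (ptr F J ω)) 3 V

section law

variable {F : Fam m J} {c : ℕ → Fin m} {g g' : ℕ → ℕ} {W n D a' k k' e₀ e₁ n' s V : ℕ}
  {ψ ψ' γ : PtT F → ℕ → Option (Fin m) → ℝ} {ψH ψH' : LnT F → ℕ → Option (Fin m) → ℝ}
  {Ht : LnT F → MvPolynomial (Option (Fin m)) ℝ} {B : F.Ω → Prop} {ζ ζ' ε : Type}
  {z : LnT F → ζ} {e : LnT F → ε} {f : PtT F → ζ'} {δ δ₁ δ' Kn L K B₀ : ℝ}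

/-- **The covectors kill the difference of the slopes.** -/
theorem kil_re {al : ζ' → Fin 2 → ℝ} {La : ℝ} (hal : ∀ w i, |al w i| ≤ La) {y : ℕ} {x : F.Ω × F.Ω}
    (h : ∀ j, |∑ i, al (f (ptr F J x.1)) i * ((cU s (Mn F c g W ψ ψ') x.2 i j : ℝ) -
        cU s (Mn F c g W ψ ψ') x.1 i j)| ≤ 2 ^ s / 2 ^ y ∧
      |∑ i, al (f (ptr F J x.2)) i * ((cU s (Mn F c g W ψ ψ') x.2 i j : ℝ) -
        cU s (Mn F c g W ψ ψ') x.1 i j)| ≤ 2 ^ s / 2 ^ y) :
    Kil F (fun y => Ms c g W (ψ y) (ψ' y) 0) (fun y => Ms c g W (ψ y) (ψ' y) 1)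
      (fun y => al (f y)) (1 / 2 ^ y + 4 * La / 2 ^ s) x.1 x.2 := by
  have hs0 : (0 : ℝ) < 2 ^ s := by positivity
  have hLa : 0 ≤ La := (abs_nonneg _).trans (hal (f (ptr F J x.1)) 0)
  have key : ∀ w : ζ', |∑ i, al w i * ((cU s (Mn F c g W ψ ψ') x.2 i 1 : ℝ) -
      cU s (Mn F c g W ψ ψ') x.1 i 1)| ≤ 2 ^ s / 2 ^ y →
      |dt (al w) (dz (fun y => Ms c g W (ψ y) (ψ' y) 0) (fun y => Ms c g W (ψ y) (ψ' y) 1)
        (ptr F J x.1) (ptr F J x.2))| ≤ 1 / 2 ^ y + 4 * La / 2 ^ s := by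
    intro w hw
    rw [Fin.sum_univ_two] at hw
    have u0 := cU_flr (s := s) (M := Mn F c g W ψ ψ') x.1 0 1
    have u1 := cU_flr (s := s) (M := Mn F c g W ψ ψ') x.1 1 1
    have v0 := cU_flr (s := s) (M := Mn F c g W ψ ψ') x.2 0 1
    have v1 := cU_flr (s := s) (M := Mn F c g W ψ ψ') x.2 1 1
    have e1 : 2 ^ s * dt (al w) (dz (fun y => Ms c g W (ψ y) (ψ' y) 0)
        (fun y => Ms c g W (ψ y) (ψ' y) 1) (ptr F J x.1) (ptr F J x.2)) =
        (al w 0 * ((cU s (Mn F c g W ψ ψ') x.2 0 1 : ℝ) - cU s (Mn F c g W ψ ψ') x.1 0 1) +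
        al w 1 * ((cU s (Mn F c g W ψ ψ') x.2 1 1 : ℝ) - cU s (Mn F c g W ψ ψ') x.1 1 1)) -
        (al w 0 * (((cU s (Mn F c g W ψ ψ') x.2 0 1 : ℝ) - 2 ^ s * Mn F c g W ψ ψ' x.2 0 1) -
          ((cU s (Mn F c g W ψ ψ') x.1 0 1 : ℝ) - 2 ^ s * Mn F c g W ψ ψ' x.1 0 1)) +
        al w 1 * (((cU s (Mn F c g W ψ ψ') x.2 1 1 : ℝ) - 2 ^ s * Mn F c g W ψ ψ' x.2 1 1) -
          ((cU s (Mn F c g W ψ ψ') x.1 1 1 : ℝ) - 2 ^ s * Mn F c g W ψ ψ' x.1 1 1))) := by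
      have d0 : dz (fun y => Ms c g W (ψ y) (ψ' y) 0) (fun y => Ms c g W (ψ y) (ψ' y) 1)
          (ptr F J x.1) (ptr F J x.2) 0 = Mn F c g W ψ ψ' x.2 0 1 - Mn F c g W ψ ψ' x.1 0 1 := rfl
      have d1 : dz (fun y => Ms c g W (ψ y) (ψ' y) 0) (fun y => Ms c g W (ψ y) (ψ' y) 1)
          (ptr F J x.1) (ptr F J x.2) 1 = Mn F c g W ψ ψ' x.2 1 1 - Mn F c g W ψ ψ' x.1 1 1 := rfl
      unfold dt
      rw [d0, d1]
      ring
    have t0 : |al w 0 * (((cU s (Mn F c g W ψ ψ') x.2 0 1 : ℝ) - 2 ^ s * Mn F c g W ψ ψ' x.2 0 1) -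
          ((cU s (Mn F c g W ψ ψ') x.1 0 1 : ℝ) - 2 ^ s * Mn F c g W ψ ψ' x.1 0 1))| ≤
        La * (1 + 1) := m2_le (hal w 0) ((abs_sub _ _).trans (add_le_add v0 u0))
    have t1 : |al w 1 * (((cU s (Mn F c g W ψ ψ') x.2 1 1 : ℝ) - 2 ^ s * Mn F c g W ψ ψ' x.2 1 1) -
          ((cU s (Mn F c g W ψ ψ') x.1 1 1 : ℝ) - 2 ^ s * Mn F c g W ψ ψ' x.1 1 1))| ≤
        La * (1 + 1) := m2_le (hal w 1) ((abs_sub _ _).trans (add_le_add v1 u1))
    have t2 : 2 ^ s * |dt (al w) (dz (fun y => Ms c g W (ψ y) (ψ' y) 0)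
        (fun y => Ms c g W (ψ y) (ψ' y) 1) (ptr F J x.1) (ptr F J x.2))| ≤
        2 ^ s / 2 ^ y + (La * (1 + 1) + La * (1 + 1)) := by
      rw [← abs_of_pos hs0, ← abs_mul, abs_of_pos hs0, e1]
      exact (abs_sub _ _).trans (add_le_add hw ((abs_add_le _ _).trans (add_le_add t0 t1)))
    have t3 : 1 / 2 ^ y + 4 * La / 2 ^ s =
        (2 ^ s / 2 ^ y + (La * (1 + 1) + La * (1 + 1))) / 2 ^ s := by
      field_simp
      ring
    rw [t3, le_div_iff₀ hs0, mul_comm]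
    exact t2
  exact ⟨key _ (h 1).1, key _ (h 1).2⟩

/-- **One law.** The own data of a law with a covering number give covectors which kill the
difference of the slopes. -/
theorem hop_one (H : ReH F c g g' W n D a' k k' e₀ e₁ n' s V ψ ψ' ψH ψH' Ht B z e δ δ₁ δ' Kn L K B₀)
    {p : F.Ω → ℝ} (hp : IsLaw p) (hB : ∀ ω, 0 < p ω → B ω)
    (dz : Det p (fun ω => f (ptr F J ω)) (fun ω => z (slam F W ω)))
    (dt : Det p (fun ω => f (ptr F J ω)) (fun ω => (⌊2 ^ s * tn F W ω⌋,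
      ⌊2 ^ s * yr F c g W ψ p z ω⌋)))
    (dM : Det p (fun ω => f (ptr F J ω)) (Mn F c g W ψ ψ'))
    {Aa l x kk x₁ y K₀ : ℕ} {eF eH eP : ℝ}
    (few : CH p (fun ω => ⌊2 ^ s * bR (En F c g W ψ) (tn F W) (yr F c g W ψ p z)
      (Tn F c g W n ψH Ht) (An F c g W n ψH Ht) (Vn F c g W ψ) ω⌋)
      (fun ω => (e (slam F W ω), z (slam F W ω))) ≤ eH)
    (free : CH p (fun ω => e (slam F W ω)) (fun ω => z (slam F W ω)) ≤
      CH p (fun ω => e (slam F W ω)) (fun ω => f (ptr F J ω)) + eF)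
    (fullP : 2 * (s * Real.log 2) - eP ≤ CH p (cP s (tn F W) (yr F c g W ψ p z))
      (fun ω => z (slam F W ω)))
    (fullT : s * Real.log 2 - eP ≤ CH p (fun ω => cP s (tn F W) (yr F c g W ψ p z) ω 0)
      (slam F W))
    (rate : NoCov p (fun ω => ⌊2 ^ kk * rfv p (fun ω => z (slam F W ω))
      (fun ω => e (slam F W ω)) (En F c g W ψ) (z (slam F W ω)) (e (slam F W ω))⌋)
      (fun ω => f (ptr F J ω)) K₀ (1 / 2 ^ 39))
    (hA : B₀ + 1 ≤ Aa) (hK₀ : 1 ≤ K₀) (hL2 : 2 * L ^ 2 ≤ 2 ^ l) (hA2 : (Aa : ℝ) ≤ 2 ^ l)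
    (hK2 : 16 * L ^ 2 * (K + 1) * (B₀ + 1) ≤ 2 ^ l)
    (hx₁ : 2 * (14 * l + 36 + 4 * x + 3 * kk + y) ≤ x₁) (hs : 600 * x₁ ≤ s)
    (heF : 0 ≤ eF) (heH : 0 ≤ eH) (heP : 0 ≤ eP)
    (hn : 2 ^ 38 * (10 * (eF + eH) + Real.log 2) + Real.log 9 <
      (1 - 2 ^ 38 * (1 / 2 ^ 39)) * Real.log K₀)
    (hN : 2 ^ 38 * (2 * eP + 11 * eF + 11 * eH + (3 * l + 11) * Real.log 2) ≤
      x₁ / 2 * Real.log 2)
    (h0 : law p (fun ω => ∀ i, |rfv p (fun ω => z (slam F W ω)) (fun ω => e (slam F W ω))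
      (An F c g W n ψH Ht) (z (slam F W ω)) (e (slam F W ω)) i| < 1 / 2 ^ x) True ≤ 1 / 512) :
    ∃ al : ζ' → Fin 2 → ℝ, (∀ w, (∀ i, |al w i| ≤ 2 * L ^ 2) ∧ ∃ i, 1 / 2 ^ x / 2 ≤ |al w i|) ∧
      1 / 2 ^ 34 ≤ Pe (P2 p (slam F W)) (fun v => Kil F (fun y => Ms c g W (ψ y) (ψ' y) 0)
        (fun y => Ms c g W (ψ y) (ψ' y) 1) (fun y => al (f y))
        (1 / 2 ^ y + 4 * (2 * L ^ 2) / 2 ^ s) v.1 v.2) := by
  have R := prr_of (f := f) H hp hB dz dt dM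
  have hB₀ := H.hB₀
  have PD := R.prd (Aa := Aa) (k := kk) (K₀ := K₀) (cE := 1 / 2 ^ 39) (eF := eF) (eH := eH)
    (eP := eP) (by linarith) hA hK₀ (by positivity) few free fullP fullT rate
  obtain ⟨al, h1, h2⟩ := Pool.D2P.c6_all PD hL2 hA2 hK2 hx₁ hs heF heH heP hn hN h0
  refine ⟨al, h1, h2.trans ?_⟩
  refine Pe_mono (P2_isLaw hp (slam F W)) fun v hv => ?_
  exact kil_re (La := 2 * L ^ 2) (fun w i => (h1 w).1 i) hv

/-- Events on the support. -/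
theorem pe_sup {Ω : Type} [Fintype Ω] {q : Ω → ℝ} (hq : ∀ ω, 0 ≤ q ω) {A B : Ω → Prop}
    (h : ∀ ω, 0 < q ω → A ω → B ω) : Pe q A ≤ Pe q B := by
  have h1 := Pool.F5.pe_or (q := q) hq (R := A) (A := B) (B := fun _ => False)
    (fun ω a b => Or.inl (h ω a b))
  have h2 : Pe q (fun _ : Ω => False) = 0 := by
    rw [Pe_eq]
    simp
  linarith

/-- **The coefficients are rarely small**, if the event with small coefficients is small. -/
theorem sml_re (H : ReH F c g g' W n D a' k k' e₀ e₁ n' s V ψ ψ' ψH ψH' Ht B z e δ δ₁ δ' Kn L K B₀)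
    (hB : 0 < Pe F.p B) {x : ℕ} (hx : K / 2 ^ s ≤ 1 / 2 ^ x) {κ : ℝ}
    (hs : Pe F.p (fun ω => B ω ∧ ∀ i, |An F c g W n ψH Ht ω i| ≤ 2 / 2 ^ x) ≤
      κ * Pe F.p B) :
    law (cond F.p B True) (fun ω => ∀ i, |rfv (cond F.p B True) (fun ω => z (slam F W ω))
      (fun ω => e (slam F W ω)) (An F c g W n ψH Ht) (z (slam F W ω)) (e (slam F W ω)) i| <
        1 / 2 ^ x) True ≤ κ := by
  have hp := isLaw_cond F.isLaw hB
  have hsup : ∀ ω, 0 < cond F.p B True ω → B ω := fun ω hω =>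
    of_eq_true ((cond_pos_iff F.isLaw.nonneg B True ω).mp hω).2
  have h1 : Pe (cond F.p B True) (fun ω => ∀ i, |rfv (cond F.p B True)
      (fun ω => z (slam F W ω)) (fun ω => e (slam F W ω)) (An F c g W n ψH Ht) (z (slam F W ω))
      (e (slam F W ω)) i| < 1 / 2 ^ x) ≤
      Pe (cond F.p B True) (fun ω => ∀ i, |An F c g W n ψH Ht ω i| ≤ 2 / 2 ^ x) := by
    refine pe_sup hp.nonneg fun ω hω hG i => ?_
    obtain ⟨ω₀, r1, r2, r3, r4⟩ := rfv_spec (z := fun ω => z (slam F W ω))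
      (e := fun ω => e (slam F W ω)) hω (R := Fin 2 → ℝ)
    have h2 := hG i
    rw [r4] at h2
    have h3 := H.nG ω ω₀ (hsup _ hω) (hsup _ r1) r2.symm r3.symm (i.1 + 1) (by omega) 1
      (Or.inl ⟨rfl, by omega⟩)
    have h4 : |An F c g W n ψH Ht ω i - An F c g W n ψH Ht ω₀ i| ≤ K / 2 ^ s := by
      unfold An Ac
      rw [← mul_sub, ← mul_sub]
      rw [abs_mul] at h3 ⊢
      rw [abs_mul] at h3 ⊢
      rw [abs_of_pos (by norm_num : (0 : ℝ) < 4)] at h3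
      rw [abs_of_pos (by norm_num : (0 : ℝ) < 2)]
      have h0 := mul_nonneg (abs_nonneg ((2 : ℝ) ^ g 3 / 2 ^ g (i.1 + 1)))
        (abs_nonneg ((gq F c g W n ψH Ht (slam F W ω) (i.1 + 1)).coeff 1 -
          (gq F c g W n ψH Ht (slam F W ω₀) (i.1 + 1)).coeff 1))
      linarith
    have h5 := abs_add_le (An F c g W n ψH Ht ω i - An F c g W n ψH Ht ω₀ i)
      (An F c g W n ψH Ht ω₀ i)
    rw [sub_add_cancel] at h5
    have h6 : (2 : ℝ) / 2 ^ x = 1 / 2 ^ x + 1 / 2 ^ x := by ring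
    rw [h6]
    linarith
  have h2 : law (cond F.p B True) (fun ω => ∀ i, |rfv (cond F.p B True)
      (fun ω => z (slam F W ω)) (fun ω => e (slam F W ω)) (An F c g W n ψH Ht) (z (slam F W ω))
      (e (slam F W ω)) i| < 1 / 2 ^ x) True = Pe (cond F.p B True) (fun ω => ∀ i,
      |rfv (cond F.p B True) (fun ω => z (slam F W ω)) (fun ω => e (slam F W ω))
        (An F c g W n ψH Ht) (z (slam F W ω)) (e (slam F W ω)) i| < 1 / 2 ^ x) := rfl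
  rw [h2]
  refine h1.trans ?_
  rw [Pe_cond, div_le_iff₀ hB]
  exact hs

end law

/-! ### The class end -/

/-- The number of values of the own velocity. -/
theorem K0_num {t : ℝ} (ht : 1 ≤ t) : 1 ≤ ⌊Real.exp t⌋₊ ∧ t - 1 ≤ Real.log ⌊Real.exp t⌋₊ ∧
    (⌊Real.exp t⌋₊ : ℝ) ≤ Real.exp t := by
  have h0 : (1 : ℝ) ≤ Real.exp t := by
    have := Real.add_one_le_exp t
    linarith
  have h1 : (1 : ℕ) ≤ ⌊Real.exp t⌋₊ := Nat.le_floor (by simpa using h0)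
  have h2 := Nat.sub_one_lt_floor (Real.exp t)
  have h3 : Real.exp (t - 1) ≤ Real.exp t - 1 := by
    have e1 : Real.exp t = Real.exp (t - 1) * Real.exp 1 := by
      rw [← Real.exp_add]
      congr 1
      ring
    have e2 := Real.exp_one_gt_d9
    have e3 : 1 ≤ Real.exp (t - 1) := Real.one_le_exp (by linarith)
    nlinarith
  refine ⟨h1, ?_, Nat.floor_le (Real.exp_pos t).le⟩
  rw [Real.le_log_iff_exp_le (by exact_mod_cast h1)]
  linarith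

/-- The logarithm of the number of values of the number. -/
theorem logN_num {K L B₀ t : ℝ} (ht : 0 ≤ t) (hK1 : 1 ≤ K) (hL1 : 1 ≤ L) (hB1 : 1 ≤ B₀)
    (hK : K ≤ Real.exp t) (hL : L ≤ Real.exp t) (hB : B₀ ≤ Real.exp t) :
    Real.log (2 * (2 * ⌈12 * K * (L + B₀)⌉₊ + 2 : ℕ) + 1) ≤ 2 * t + 6 := by
  obtain ⟨E, hE⟩ : ∃ E, E = Real.exp t := ⟨_, rfl⟩
  rw [← hE] at hK hL hB
  have h0 : 0 ≤ 12 * K * (L + B₀) := by positivity
  have h1 := (Nat.ceil_lt_add_one h0).le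
  have hE1 : 1 ≤ E := hK1.trans hK
  have h2 : K * (L + B₀) ≤ E * (E + E) :=
    mul_le_mul hK (add_le_add hL hB) (by linarith) (by linarith)
  have h3 : ((2 * (2 * ⌈12 * K * (L + B₀)⌉₊ + 2 : ℕ) + 1 : ℝ)) ≤ 105 * E ^ 2 := by
    push_cast
    nlinarith
  have h4 : (105 : ℝ) ≤ Real.exp 6 := by
    have h2 : (2.7 : ℝ) ≤ Real.exp 1 := by
      have := Real.exp_one_gt_d9
      linarith
    have h3 : Real.exp 6 = Real.exp 1 ^ 6 := by
      rw [← Real.exp_nat_mul]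
      norm_num
    rw [h3]
    calc (105 : ℝ) ≤ 2.7 ^ 6 := by norm_num
      _ ≤ Real.exp 1 ^ 6 := pow_le_pow_left₀ (by norm_num) h2 6
  have h5 : 105 * E ^ 2 ≤ Real.exp (2 * t + 6) := by
    rw [Real.exp_add, mul_comm]
    have e1 : Real.exp (2 * t) = E ^ 2 := by
      rw [hE, ← Real.exp_nat_mul]
      norm_num
    rw [e1]
    exact mul_le_mul_of_nonneg_left h4 (by positivity)
  rw [Real.log_le_iff_le_exp (by positivity)]
  exact h3.trans h5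

/-- **The class end of the hop cell.** -/
theorem hop_end {m D : ℕ} {θc : ℝ} {S : PCl m} {P : List (Fin m) × Fin m → ℝ → ℝ → ℝ}
    (hP : ThrOf (chsys m θc) S P) (hT : TmH S) (c : ℕ → Fin m) (hc : Set.InjOn c (Set.Iio 4))
    (a : ℚ) (er h σ c₁ : ℝ) (ha0 : 0 ≤ a) (ha : a < 1) (her : 0 < er) (he : er < θc * a)
    (hh : 0 < h) (hb : ∀ j < 4, bet P c j a a + h ≤ 1) (hσ : 0 < σ) (hc₁ : 0 < c₁) :
    ∃ ε : ℝ, 0 < ε ∧ Bas S (fun J F A => ∀ (n a₀ a' k k' e₀ e₁ n' s V : ℕ) (g g' : ℕ → ℕ)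
      (ψ ψ' γ : PtT F → ℕ → Option (Fin m) → ℝ) (ψH ψH' : LnT F → ℕ → Option (Fin m) → ℝ)
      (Ht : LnT F → MvPolynomial (Option (Fin m)) ℝ) (B : F.Ω → Prop) (ζ ζ' εt : Type)
      (z : LnT F → ζ) (e : LnT F → εt) (f : PtT F → ζ') (δ δ₁ δ' δt Kn L K B₀ : ℝ)
      (SV SE SG : ℕ → ℝ) (hD : ∀ s, (Ht s).totalDegree ≤ D),
      a₀ ≤ J → a₀ ≤ ⌊(a : ℝ) * J⌋₊ → σ * J ≤ s → (∀ l < 3, s ≤ g l) →
      (∀ j < 4, e₀ + g j + s ≤ J) →
      (∀ j < 4, bet P c j a a * J + a₀ ≤ g j + a * J + ε * J) → (e₀ : ℝ) ≤ ε * J →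
      (k : ℝ) ≤ ε * J → L ≤ Real.exp (ε * J) → K ≤ Real.exp (ε * J) → B₀ ≤ Real.exp (ε * J) →
      δt ≤ K / 2 ^ s → Sub B A → c₁ * Pe F.p A ≤ Pe F.p B →
      ReH F c g g' a₀ n D a' k k' e₀ e₁ n' s V ψ ψ' ψH ψH' Ht B z e δ δ₁ δ' Kn L K B₀ →
      TgH F c g a₀ n k e₀ ψ γ ψH Ht B δt →
      Det (cond F.p B True) (fun ω => f (ptr F J ω)) (fun ω => z (slam F a₀ ω)) →
      Det (cond F.p B True) (fun ω => f (ptr F J ω)) (fun ω => (⌊2 ^ s * tn F a₀ ω⌋,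
        ⌊2 ^ s * yr F c g a₀ ψ (cond F.p B True) z ω⌋)) →
      Det (cond F.p B True) (fun ω => f (ptr F J ω)) (Mn F c g a₀ ψ ψ') →
      CH (cond F.p B True) (fun ω => ⌊2 ^ (s + g 3 + 2) *
        Pool.X31.nw (fdat F c g a₀ n 3 D ψH Ht hD SV SE SG) a₀
        (rfv (cond F.p B True) (fun ω => z (slam F a₀ ω)) (fun ω => e (slam F a₀ ω))
          (fun ω l => (fdat F c g a₀ n 3 D ψH Ht hD SV SE SG).P l (slam F a₀ ω))
          (z (slam F a₀ ω)) (e (slam F a₀ ω))) ω⌋)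
        (fun ω => (e (slam F a₀ ω), z (slam F a₀ ω))) ≤ ε * J →
      CH (cond F.p B True) (fun ω => e (slam F a₀ ω)) (fun ω => z (slam F a₀ ω)) ≤
        CH (cond F.p B True) (fun ω => e (slam F a₀ ω)) (fun ω => f (ptr F J ω)) + ε * J →
      2 * (s * Real.log 2) - ε * J ≤ CH (cond F.p B True)
        (cP s (tn F a₀) (yr F c g a₀ ψ (cond F.p B True) z)) (fun ω => z (slam F a₀ ω)) →
      s * Real.log 2 - ε * J ≤ CH (cond F.p B True)
        (fun ω => cP s (tn F a₀) (yr F c g a₀ ψ (cond F.p B True) z) ω 0) (slam F a₀) →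
      False) := by
  obtain ⟨υ, hυ⟩ : ∃ υ, υ = min (min (er / 10 ^ 7) (σ / 10 ^ 7)) h := ⟨_, rfl⟩
  have hυ0 : 0 < υ := by
    rw [hυ]
    exact lt_min (lt_min (by positivity) (by positivity)) hh
  have υ1 : υ ≤ er / 10 ^ 7 := by
    rw [hυ]
    exact (min_le_left _ _).trans (min_le_left _ _)
  have υ2 : υ ≤ σ / 10 ^ 7 := by
    rw [hυ]
    exact (min_le_left _ _).trans (min_le_right _ _)
  have υ3 : υ ≤ h := by
    rw [hυ]
    exact min_le_right _ _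
  have hυ2 : 0 < υ / 2 := by positivity
  have hb' : ∀ j < 4, bet P c j a a + υ / 2 ≤ 1 := fun j hj => by
    have := hb j hj
    linarith
  have hc3 : Set.InjOn c (Set.Iio 3) := hc.mono (Set.Iio_subset_Iio (by norm_num))
  have hc1 : Set.InjOn c (Set.Iio (0 + 1)) := hc.mono (Set.Iio_subset_Iio (by norm_num))
  have hb0 := hb' 0 (by norm_num)
  have hb1 := hb' 1 (by norm_num)
  have hb2 := hb' 2 (by norm_num)
  have hb3 := hb' 3 (by norm_num)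
  obtain ⟨δa, hδa, B1⟩ := nocov_x hP c 0 hc1 a er (υ / 2) ha0 ha.le he hυ2 hb0
  obtain ⟨δb, hδb, B2⟩ := Pool.F5.kil_cls hP c hc3 a er (υ / 2) ha0 ha.le he hυ2 hb1 hb2
  have B3 := flat_cls hP hT c 3 D hc a er (υ / 2) (υ / 2) (c₁ / 512) ha0 ha he hυ2 hb3 hυ2
    (by positivity)
  have B4 : Bas S (fun J F A => 0 < Pe F.p A) :=
    ⟨1, one_pos, 0, fun J _ F A h => hT.1 _ _ _ _ h⟩
  obtain ⟨ε, hε⟩ : ∃ ε, ε = min (υ / 2 ^ 44) (δa / 2 ^ 46) := ⟨_, rfl⟩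
  have hε0 : 0 < ε := by
    rw [hε]
    exact lt_min (by positivity) (by positivity)
  have ε1 : ε ≤ υ / 2 ^ 44 := by
    rw [hε]
    exact min_le_left _ _
  have ε2 : ε ≤ δa / 2 ^ 46 := by
    rw [hε]
    exact min_le_right _ _
  obtain ⟨J₁, hJ₁⟩ := exists_nat_ge (2 ^ 50 / υ)
  obtain ⟨J₂, hJ₂⟩ := exists_nat_ge (2 ^ 50 / δa)
  obtain ⟨J₃, hJ₃⟩ := Pool.F5.exp_small (δ := δa / 2) (by positivity) (K := c₁ / 2 ^ 40)
    (by positivity)
  obtain ⟨J₄, hJ₄⟩ := Pool.F5.exp_small hδb (K := c₁ / 2 ^ 36) (by positivity)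
  refine ⟨ε, hε0, Bas.mono (J₁ + J₂ + J₃ + J₄) (((B1.and B2).and B3).and B4) ?_⟩
  rintro J hJ F A ⟨⟨⟨A1, A2⟩, A3⟩, A4⟩ n a₀ a' k k' e₀ e₁ n' s V g g' ψ ψ' γ ψH ψH' Ht B ζ ζ' εt
    z e f δ δ₁ δ' δt Kn L K B₀ SV SE SG hD haJ haa hs hsg hgJ hlev he₀ hk hL hK hB₀ hδt hBA hBc
    H Tg dz dt dM few free fullP fullT
  have hJ0 : (0 : ℝ) ≤ J := Nat.cast_nonneg _
  have j1 : 2 ^ 50 ≤ υ * J := by
    have h1 : 2 ^ 50 / υ ≤ J := hJ₁.trans (by exact_mod_cast (by omega))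
    rw [div_le_iff₀ hυ0] at h1
    linarith
  have j2 : 2 ^ 50 ≤ δa * J := by
    have h1 : 2 ^ 50 / δa ≤ J := hJ₂.trans (by exact_mod_cast (by omega))
    rw [div_le_iff₀ hδa] at h1
    linarith
  have j3 := hJ₃ J (by omega)
  have j4 := hJ₄ J (by omega)
  obtain ⟨u, hu⟩ : ∃ u, u = ⌊υ * J⌋₊ := ⟨_, rfl⟩
  obtain ⟨l, hl⟩ : ∃ l, l = ⌊υ * J / 2 ^ 38⌋₊ := ⟨_, rfl⟩
  obtain ⟨n1, n2, n3, n4, n5, n6, n7⟩ := unit_num hu hl j1 υ1 υ2 hε0 ε1 hs he₀ hk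
  have u1 : υ * J - 1 < u := by
    rw [hu]
    exact Nat.sub_one_lt_floor _
  have l1 : υ * J / 2 ^ 38 - 1 < l := by
    rw [hl]
    exact Nat.sub_one_lt_floor _
  have hX : (4096 : ℝ) ≤ υ * J / 2 ^ 38 := by
    rw [le_div_iff₀ (by positivity)]
    exact le_trans (by norm_num) j1
  have hεX : ε * J ≤ υ * J / 2 ^ 38 / 32 := by
    have h3 : ε * J ≤ υ / 2 ^ 44 * J := mul_le_mul_of_nonneg_right ε1 hJ0
    have h4 : (0 : ℝ) ≤ υ * J := le_trans (by norm_num) j1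
    norm_num at h3 ⊢
    linarith
  have hexp := Real.exp_le_exp.2 hεX
  obtain ⟨s1, s2, s3, s4, s5⟩ := size_num H.hL H.hK H.hB₀ hX l1 (hL.trans hexp) (hK.trans hexp)
    (hB₀.trans hexp)
  have hlu : (2 : ℝ) ^ l ≤ 2 ^ u := pow_le_pow_right₀ (by norm_num) n3
  obtain ⟨m1, m2, m3, m4, m5, m6, m7, m8, m9⟩ := small_num n1 n4 H.hL H.hK (s1.trans hlu)
    (s5.trans hlu)
  have hBpos : 0 < Pe F.p B := (mul_pos hc₁ A4).trans_le hBc
  have hp := isLaw_cond F.isLaw hBpos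
  have hsup : ∀ ω, 0 < cond F.p B True ω → B ω := fun ω hω =>
    of_eq_true ((cond_pos_iff F.isLaw.nonneg B True ω).mp hω).2
  have hM : ∀ ω, cond F.p B True ω * Pe F.p A ≤ 1 / c₁ * F.p ω := by
    intro ω
    have h1 := cond_dens (q := F.p) (r := F.p) B (A := 1) (M := 1) (c := Pe F.p B) (by norm_num)
      F.isLaw.nonneg (fun ω => by rw [mul_one, one_mul]) hBpos le_rfl ω
    rw [mul_one] at h1
    have h2 : Pe F.p A ≤ Pe F.p B / c₁ := by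
      rw [le_div_iff₀ hc₁]
      linarith
    have h3 : 0 ≤ F.p ω := F.isLaw.nonneg ω
    calc cond F.p B True ω * Pe F.p A ≤ (1 / Pe F.p B * F.p ω) * (Pe F.p B / c₁) :=
          mul_le_mul h1 h2 A4.le (by positivity)
      _ = 1 / c₁ * F.p ω := by
        field_simp
  have hc₁' : (0 : ℝ) ≤ 1 / c₁ := by positivity
  -- the levels
  have hε8 : ε ≤ υ / 8 := ε1.trans (div_le_div_of_nonneg_left hυ0.le (by norm_num) (by norm_num))
  have haR : (0 : ℝ) ≤ a := by exact_mod_cast ha0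
  have lv : ∀ j < 4, ∃ p : ℕ, p ≤ g j + u ∧ p ≤ J ∧
      ⌊(bet P c j a a + υ / 2) * J⌋₊ + a₀ ≤ p + ⌊(a : ℝ) * J⌋₊ := fun j hj =>
    lev_num hu hυ0 (le_trans (by norm_num) j1) hε8 haR (hlev j hj) (hb' j hj) haa
  obtain ⟨p0, p0g, p0J, p0b⟩ := lv 0 (by norm_num)
  obtain ⟨p1, p1g, p1J, p1b⟩ := lv 1 (by norm_num)
  obtain ⟨p2, p2g, p2J, p2b⟩ := lv 2 (by norm_num)
  obtain ⟨p3, p3g, p3J, p3b⟩ := lv 3 (by norm_num)
  have hgV : ∀ j < 4, e₀ + g j + 31 * u ≤ J := fun j hj => by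
    have := hgJ j hj
    omega
  have hgk : ∀ j < 3, u + 1 ≤ g j := fun j hj => by
    have := hsg j hj
    have : 0 < 2 ^ 40 := by norm_num
    omega
  have hu40 : 40 ≤ u := by
    have : 40 ≤ 2 ^ 40 := by norm_num
    omega
  have fr3 : FrOK F c 3 a₀ u e₀ g B ψ ψH := frok_mono H.fr n7 le_rfl
  have fr4 : FrOK F c 4 a₀ u e₀ g B ψ ψH := frok_mono Tg.fr n7 le_rfl
  -- the rate
  have hrate : NoCov (cond F.p B True) (fun ω => ⌊2 ^ (4 * u) * rfv (cond F.p B True)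
      (fun ω => z (slam F a₀ ω)) (fun ω => e (slam F a₀ ω)) (En F c g a₀ ψ) (z (slam F a₀ ω))
      (e (slam F a₀ ω))⌋) (fun ω => f (ptr F J ω)) ⌊Real.exp (δa * J / 2)⌋₊ (1 / 2 ^ 39) := by
    have h1 := A1 3 a₀ e₀ (2 * u) u u (31 * u) p0 g ψ ψH
      { iin := by norm_num
        aJ := haJ
        aa := haa
        ee := by omega
        hV := by omega
        gV := fun j hj => hgV j (by omega)
        gk := fun l hl => absurd hl (Nat.not_lt_zero l)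
        pg := p0g
        pJ := p0J
        bet := p0b }
      (cond F.p B True) (1 / c₁) hp hc₁' (fun ω hω => hBA ω (hsup ω hω)) hM
      (frok_sub fr3 hsup) ζ' f (fun ω => rfv (cond F.p B True)
        (fun ω => z (slam F a₀ ω)) (fun ω => e (slam F a₀ ω)) (En F c g a₀ ψ)
        (z (slam F a₀ ω)) (e (slam F a₀ ω))) (1 / 2 ^ (4 * u)) (K / 2 ^ s) (1 / 2 ^ 39)
      ⌊Real.exp (δa * J / 2)⌋₊ (by positivity) (by have := H.hK; positivity) ?_ m6 m7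
      (by positivity) ?_
    · have e1 : (fun ω => ⌊rfv (cond F.p B True) (fun ω => z (slam F a₀ ω))
          (fun ω => e (slam F a₀ ω)) (En F c g a₀ ψ) (z (slam F a₀ ω)) (e (slam F a₀ ω)) /
            (1 / 2 ^ (4 * u))⌋) = (fun ω => ⌊2 ^ (4 * u) * rfv (cond F.p B True)
          (fun ω => z (slam F a₀ ω)) (fun ω => e (slam F a₀ ω)) (En F c g a₀ ψ)
          (z (slam F a₀ ω)) (e (slam F a₀ ω))⌋) := by
        funext ω
        congr 1
        rw [div_div_eq_mul_div, div_one, mul_comm]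
      rw [e1] at h1
      exact h1
    · intro ω hω
      obtain ⟨ω₀, r1, r2, r3, r4⟩ := rfv_spec (z := fun ω => z (slam F a₀ ω))
        (e := fun ω => e (slam F a₀ ω)) hω (R := ℝ)
      show |rfv (cond F.p B True) (fun ω => z (slam F a₀ ω)) (fun ω => e (slam F a₀ ω))
        (En F c g a₀ ψ) (z (slam F a₀ ω)) (e (slam F a₀ ω)) - Xn F c g a₀ ψ ω (0 + 1)| ≤ K / 2 ^ s
      rw [r4]
      exact H.nE _ _ (hsup _ r1) (hsup _ hω) r2 r3
    · have h2 := (K0_num (t := δa * J / 2) (by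
        have : (2 : ℝ) ≤ δa * J := le_trans (by norm_num) j2
        linarith)).2.2
      have h3 : Real.exp (-(δa * J)) = Real.exp (-(δa / 2 * J)) * Real.exp (-(δa / 2 * J)) := by
        rw [← Real.exp_add]
        congr 1
        ring
      have h4 : Real.exp (δa * J / 2) * Real.exp (-(δa / 2 * J)) = 1 := by
        rw [← Real.exp_add]
        have : δa * J / 2 + -(δa / 2 * J) = 0 := by ring
        rw [this, Real.exp_zero]
      have h5 : (⌊Real.exp (δa * J / 2)⌋₊ : ℝ) * (1 / c₁) * Real.exp (-(δa * J)) ≤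
          Real.exp (δa * J / 2) * (1 / c₁) * Real.exp (-(δa * J)) :=
        mul_le_mul_of_nonneg_right (mul_le_mul_of_nonneg_right h2 hc₁') (Real.exp_pos _).le
      refine lt_of_le_of_lt h5 ?_
      have h6 : Real.exp (δa * J / 2) * (1 / c₁) * Real.exp (-(δa * J)) =
          1 / c₁ * Real.exp (-(δa / 2 * J)) := by
        rw [h3]
        calc Real.exp (δa * J / 2) * (1 / c₁) * (Real.exp (-(δa / 2 * J)) *
            Real.exp (-(δa / 2 * J))) = (Real.exp (δa * J / 2) * Real.exp (-(δa / 2 * J))) *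
              (1 / c₁ * Real.exp (-(δa / 2 * J))) := by ring
          _ = 1 / c₁ * Real.exp (-(δa / 2 * J)) := by rw [h4, one_mul]
      rw [h6]
      have h7 : 1 / c₁ * Real.exp (-(δa / 2 * J)) ≤ 1 / c₁ * (c₁ / 2 ^ 40) :=
        mul_le_mul_of_nonneg_left j3 hc₁'
      have h8 : 1 / c₁ * (c₁ / 2 ^ 40) = 1 / 2 ^ 40 := by
        field_simp
      rw [h8] at h7
      exact lt_of_le_of_lt h7 (by norm_num)
  -- the flat case
  have hflat : Pe F.p (fun ω => B ω ∧ ∀ i, |An F c g a₀ n ψH Ht ω i| ≤ 2 / 2 ^ (8 * u)) ≤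
      1 / 512 * Pe F.p B := by
    have hB'B : Sub (fun ω => B ω ∧ ∀ i, |An F c g a₀ n ψH Ht ω i| ≤ 2 / 2 ^ (8 * u)) B :=
      fun ω hω => hω.1
    have het : K / 2 ^ s ≤ 1 / 2 ^ (6 * u) := by
      refine m3.trans (one_div_le_one_div_of_le (by positivity) (pow_le_pow_right₀ (by norm_num)
        (by omega)))
    have h1 := A3 4 a₀ e₀ u u (31 * u) p3 g ψ γ ψH (fun s => Ht (co n s)) (1 / 2 ^ (6 * u))
      (by norm_num) haJ haa (by linarith) (by omega) (by omega)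
      (fun j hj => hgV j (by omega)) hgk p3g p3J p3b (by positivity) m9 (fun s => hD _)
      (fun s => H.dep _) _ (fun ω hω => hBA ω (hB'B ω hω)) (frok_sub fr4 hB'B) Tg.dep
      ?_ ?_ ?_ ?_
    · have h2 : c₁ / 512 * Pe F.p A ≤ 1 / 512 * Pe F.p B := by
        have : c₁ / 512 * Pe F.p A = 1 / 512 * (c₁ * Pe F.p A) := by ring
        rw [this]
        exact mul_le_mul_of_nonneg_left hBc (by norm_num)
      exact h1.le.trans h2
    · intro ω hω V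
      refine (Tg.near ω hω.1 V).trans ?_
      refine mul_le_mul_of_nonneg_right ?_ (en_nonneg _ _ _ _ _ _)
      exact div_le_div_of_nonneg_right (pow_le_pow_right₀ (by norm_num) n7) (by positivity)
    · intro ω hω
      refine (Tg.vel ω hω.1).trans ?_
      exact mul_le_mul_of_nonneg_right (hδt.trans het) (by positivity)
    · intro ω hω V hV
      refine (Tg.row ω hω.1 V hV).trans ?_
      refine mul_le_mul_of_nonneg_right ?_ (en_nonneg _ _ _ _ _ _)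
      exact div_le_div_of_nonneg_right (hδt.trans het) (by positivity)
    · intro ω hω V hV
      refine (flat_re H hω.1 hω.2 hV).trans ?_
      refine mul_le_mul_of_nonneg_right (mul_le_mul_of_nonneg_right ?_ (by positivity))
        (en_nonneg _ _ _ _ _ _)
      have h2 := H.small₂
      have h3 : 0 ≤ K / 2 ^ s := by
        have := H.hK
        positivity
      have h4 : δ + (2 * L + 1) * (2 / 2 ^ (8 * u) + 2 * (((D : ℝ) + 1) ^ 2 * δ')) =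
          (δ + 2 * (D + 1) ^ 2 * δ' * (1 + 2 * L)) + (2 * L + 1) * (2 / 2 ^ (8 * u)) := by ring
      rw [h4]
      linarith
  have h0 := sml_re H hBpos (x := 8 * u) m3 hflat
  -- one law
  have hK0 := K0_num (t := δa * J / 2) (by
    have : (2 : ℝ) ≤ δa * J := le_trans (by norm_num) j2
    linarith)
  have hfew := few_re (SV := SV) (SE := SE) (SG := SG) (hD := hD) H hp hsup
    (N := ⌈12 * K * (L + B₀)⌉₊) (Nat.le_ceil _) few
  have hlogN := logN_num (t := ε * J) (by positivity) H.hK H.hL H.hB₀ hK hL hB₀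
  obtain ⟨eH, heH⟩ : ∃ eH, eH = ε * J +
      Real.log (2 * (2 * ⌈12 * K * (L + B₀)⌉₊ + 2 : ℕ) + 1) := ⟨_, rfl⟩
  rw [← heH] at hfew
  have heH0 : 0 ≤ eH := by
    rw [heH]
    have h1 : 0 ≤ Real.log (2 * (2 * ⌈12 * K * (L + B₀)⌉₊ + 2 : ℕ) + 1) := by
      refine Real.log_nonneg ?_
      have : (0 : ℝ) ≤ (2 * ⌈12 * K * (L + B₀)⌉₊ + 2 : ℕ) := Nat.cast_nonneg _
      linarith
    positivity
  obtain ⟨q1, q2⟩ := ent_num (x₁ := 320 * u) hu hl j1 hε0 ε1 j2 ε2 rfl hlogN heH.le hK0.2.1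
  obtain ⟨al, al1, al2⟩ := hop_one (f := f) H hp hsup dz dt dM (Aa := ⌈B₀⌉₊ + 1) (l := l)
    (x := 8 * u) (kk := 4 * u) (x₁ := 320 * u) (y := 101 * u) hfew free fullP fullT hrate
    (by push_cast; linarith [Nat.le_ceil B₀]) hK0.1 s1 s3 s2 (by omega) (by omega)
    (by positivity) heH0 (by positivity) q1 q2 h0
  -- the end
  have hVD := vdat_mix hc3 fr3 H.fr' H.hn' H.hKn H.deep H.near (al := fun y => al (f y))
    (Ka := 2 * L ^ 2) (μ := 1 / 2 ^ (8 * u) / 2) (fun ω _ j => (al1 _).1 j) (fun ω _ => by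
      obtain ⟨i, hi⟩ := (al1 (f (ptr F J ω))).2
      fin_cases i
      · exact Or.inl hi
      · exact Or.inr hi)
  have hL0 := H.hL
  have hKn0 : 0 ≤ (1 + Kn) ^ 3 := by
    have := H.hKn
    positivity
  have hδ10 : 0 ≤ 2 * (δ₁ * (1 + Kn) ^ 3) := by
    have h1 : 0 ≤ δ₁ := le_trans (by positivity) (H.deep 1 le_rfl (by norm_num))
    positivity
  have hε₂0 : (0 : ℝ) ≤ 1 / 2 ^ (101 * u) + 4 * (2 * L ^ 2) / 2 ^ s := by positivity
  obtain ⟨k1, k2, k3, k4⟩ := kl_num (u := u) (x := 8 * u) (by omega) le_rfl hKn0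
    ((H.KL.trans s4).trans hlu) (by positivity : (0 : ℝ) ≤ 2 * L ^ 2) (s1.trans hlu) hδ10
    (H.small₁.trans m2) hε₂0 m5
  have hkil := A2 3 a₀ e₀ (28 * u) u u (31 * u) p1 p2 g ψ ψH
    (fun y => Ms c g a₀ (ψ y) (ψ' y) 0) (fun y => Ms c g a₀ (ψ y) (ψ' y) 1) (fun y => al (f y))
    (2 * (δ₁ * (1 + Kn) ^ 3)) ((1 + Kn) ^ 3) (2 * L ^ 2) (1 / 2 ^ (8 * u) / 2)
    (1 / 2 ^ (25 * u)) (1 / 2 ^ (20 * u)) (1 / 2 ^ (101 * u) + 4 * (2 * L ^ 2) / 2 ^ s)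
    le_rfl haJ haa (by omega) (by omega) (fun j hj => hgV j (by omega))
    (fun j hj => hgk j (by omega)) p1g p2g p1J p2J p1b p2b (by positivity) (by positivity) k2
    (by positivity) k3 k4 k1 B hBA fr3 hVD (cond F.p B True) (1 / c₁) hp hc₁' hsup hM
  have hfin : 2 * (1 / c₁) * Real.exp (-(δb * J)) ≤ 1 / 2 ^ 35 := by
    have h1 : 2 * (1 / c₁) * Real.exp (-(δb * J)) ≤ 2 * (1 / c₁) * (c₁ / 2 ^ 36) :=
      mul_le_mul_of_nonneg_left j4 (by positivity)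
    have h2 : 2 * (1 / c₁) * (c₁ / 2 ^ 36) = 1 / 2 ^ 35 := by
      field_simp
    rw [h2] at h1
    exact h1
  have h35 : (1 : ℝ) / 2 ^ 35 < 1 / 2 ^ 34 := by norm_num
  exact absurd (al2.trans (hkil.trans hfin)) (not_le.2 h35)

end Pool.D2N
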