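import Pool.Agent.H90.D2.Hcn

/-!
# The hop cell: the numbers of the class end
-/

set_option autoImplicit false

namespace Pool.D2N

open Finset Real

/-- The levels of the labels. -/
theorem lev_num {υ ε a be : ℝ} {J a₀ gj u : ℕ} (hu : u = ⌊υ * J⌋₊) (hυ : 0 < υ)
    (hJ : 8 ≤ υ * J) (hε : ε ≤ υ / 8) (ha0 : 0 ≤ a)
    (hb : be * J + a₀ ≤ gj + a * J + ε * J) (h1 : be + υ / 2 ≤ 1) (ha : a₀ ≤ ⌊a * J⌋₊) :
    ∃ p : ℕ, p ≤ gj + u ∧ p ≤ J ∧ ⌊(be + υ / 2) * J⌋₊ + a₀ ≤ p + ⌊a * J⌋₊ := by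
  have hJ0 : (0 : ℝ) ≤ J := Nat.cast_nonneg _
  have u1 : υ * J - 1 < u := by
    rw [hu]
    exact Nat.sub_one_lt_floor _
  have f1 : a * J - 1 < (⌊a * J⌋₊ : ℝ) := Nat.sub_one_lt_floor _
  refine ⟨⌊(be + υ / 2) * J⌋₊ + a₀ - ⌊a * J⌋₊, ?_, ?_, le_tsub_add⟩
  · rw [tsub_le_iff_right]
    rcases le_or_gt ((be + υ / 2) * J) 0 with h | h
    · rw [Nat.floor_of_nonpos h]
      omega
    · have h2 := Nat.floor_le h.le
      have h3 : ε * J ≤ υ / 8 * J := mul_le_mul_of_nonneg_right hε hJ0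
      have h4 : ((⌊(be + υ / 2) * J⌋₊ + a₀ : ℕ) : ℝ) < ((gj + u + ⌊a * J⌋₊ + 1 : ℕ) : ℝ) := by
        push_cast
        nlinarith
      have h5 : ⌊(be + υ / 2) * J⌋₊ + a₀ < gj + u + ⌊a * J⌋₊ + 1 := by exact_mod_cast h4
      omega
  · rw [tsub_le_iff_right]
    have h2 : ⌊(be + υ / 2) * J⌋₊ ≤ J := by
      refine Nat.floor_le_of_le ?_
      nlinarith
    omega

/-- The unit. -/
theorem unit_num {υ er σ ε : ℝ} {J u l s e₀ k : ℕ} (hu : u = ⌊υ * J⌋₊)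
    (hl : l = ⌊υ * J / 2 ^ 38⌋₊) (hJ : 2 ^ 50 ≤ υ * J)
    (her : υ ≤ er / 10 ^ 7) (hσ : υ ≤ σ / 10 ^ 7) (hε0 : 0 < ε) (hε : ε ≤ υ / 2 ^ 44)
    (hs : σ * J ≤ s) (he : (e₀ : ℝ) ≤ ε * J) (hk : (k : ℝ) ≤ ε * J) :
    2 ^ 40 ≤ u ∧ 28 * l + 72 ≤ 30 * u ∧ l ≤ u ∧ 192000 * u ≤ s ∧ 40 * u ≤ ⌊er * J⌋₊ ∧ e₀ ≤ u ∧
      k ≤ u := by
  have hJ0 : (0 : ℝ) ≤ J := Nat.cast_nonneg _
  have u1 : υ * J - 1 < u := by
    rw [hu]
    exact Nat.sub_one_lt_floor _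
  have u2 : (u : ℝ) ≤ υ * J := by
    rw [hu]
    exact Nat.floor_le (le_trans (by norm_num) hJ)
  have l2 : (l : ℝ) ≤ υ * J / 2 ^ 38 := by
    rw [hl]
    refine Nat.floor_le ?_
    have : (0 : ℝ) ≤ υ * J := le_trans (by norm_num) hJ
    positivity
  have h1 : υ * J ≤ er / 10 ^ 7 * J := mul_le_mul_of_nonneg_right her hJ0
  have h2 : υ * J ≤ σ / 10 ^ 7 * J := mul_le_mul_of_nonneg_right hσ hJ0
  have h3 : ε * J ≤ υ / 2 ^ 44 * J := mul_le_mul_of_nonneg_right hε hJ0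
  have c1 : (2 : ℝ) ^ 40 ≤ u := by
    have : (2 : ℝ) ^ 40 ≤ 2 ^ 50 - 1 := by norm_num
    linarith
  refine ⟨by exact_mod_cast c1, ?_, ?_, ?_, ?_, ?_, ?_⟩
  · have : ((28 * l + 72 : ℕ) : ℝ) ≤ ((30 * u : ℕ) : ℝ) := by
      push_cast
      norm_num at l2 hJ ⊢
      linarith
    exact_mod_cast this
  · have : (l : ℝ) ≤ u := by
      norm_num at l2 hJ
      linarith
    exact_mod_cast this
  · have : ((192000 * u : ℕ) : ℝ) ≤ (s : ℝ) := by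
      push_cast
      norm_num at h2
      linarith
    exact_mod_cast this
  · refine Nat.le_floor ?_
    push_cast
    norm_num at h1
    linarith
  · have : (e₀ : ℝ) ≤ u := by
      norm_num at h3 hJ
      linarith
    exact_mod_cast this
  · have : (k : ℝ) ≤ u := by
      norm_num at h3 hJ
      linarith
    exact_mod_cast this

/-- Powers of two against exponentials. -/
theorem exp_pow {X t : ℝ} {l : ℕ} (hl : X - 1 < l) (hX : 4096 ≤ X) (ht : t ≤ X / 8) :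
    64 * Real.exp t ≤ 2 ^ l := by
  have h1 : (64 : ℝ) ≤ Real.exp 5 := by
    have h2 : (2.7 : ℝ) ≤ Real.exp 1 := by
      have := Real.exp_one_gt_d9
      linarith
    have h3 : Real.exp 5 = Real.exp 1 ^ 5 := by
      rw [← Real.exp_nat_mul]
      norm_num
    rw [h3]
    calc (64 : ℝ) ≤ 2.7 ^ 5 := by norm_num
      _ ≤ Real.exp 1 ^ 5 := pow_le_pow_left₀ (by norm_num) h2 5
  have h2 : (2 : ℝ) ^ l = Real.exp (l * Real.log 2) := by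
    rw [Real.exp_nat_mul, Real.exp_log (by norm_num)]
  rw [h2]
  calc 64 * Real.exp t ≤ Real.exp 5 * Real.exp t :=
        mul_le_mul_of_nonneg_right h1 (Real.exp_pos _).le
    _ = Real.exp (5 + t) := (Real.exp_add _ _).symm
    _ ≤ Real.exp (l * Real.log 2) := by
      refine Real.exp_le_exp.2 ?_
      have h3 := Real.log_two_gt_d9
      have h4 : (0 : ℝ) ≤ l := Nat.cast_nonneg _
      nlinarith

/-- The sizes. -/
theorem size_num {L K B₀ X : ℝ} {l : ℕ} (hL : 1 ≤ L) (hK : 1 ≤ K) (hB : 1 ≤ B₀)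
    (hX : 4096 ≤ X) (hl : X - 1 < l) (hL' : L ≤ Real.exp (X / 32)) (hK' : K ≤ Real.exp (X / 32))
    (hB' : B₀ ≤ Real.exp (X / 32)) :
    2 * L ^ 2 ≤ 2 ^ l ∧ 16 * L ^ 2 * (K + 1) * (B₀ + 1) ≤ 2 ^ l ∧
      (((⌈B₀⌉₊ + 1 : ℕ)) : ℝ) ≤ 2 ^ l ∧ L ≤ 2 ^ l ∧ K ≤ 2 ^ l := by
  obtain ⟨E, hE⟩ : ∃ E, E = Real.exp (X / 32) := ⟨_, rfl⟩
  rw [← hE] at hL' hK' hB'
  have hE1 : 1 ≤ E := hL.trans hL'
  have h4 : 64 * E ^ 4 ≤ 2 ^ l := by
    have h := exp_pow (X := X) (t := X / 8) hl hX le_rfl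
    have e1 : Real.exp (X / 8) = E ^ 4 := by
      rw [hE, ← Real.exp_nat_mul]
      congr 1
      push_cast
      ring
    rwa [e1] at h
  have hL2 : L ^ 2 ≤ E ^ 2 := pow_le_pow_left₀ (by linarith) hL' 2
  have e2 : E ^ 2 ≤ E ^ 4 := pow_le_pow_right₀ hE1 (by norm_num)
  have e1 : E ≤ E ^ 4 := by
    calc E = E ^ 1 := (pow_one E).symm
      _ ≤ E ^ 4 := pow_le_pow_right₀ hE1 (by norm_num)
  have e4 : 1 ≤ E ^ 4 := one_le_pow₀ hE1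
  refine ⟨by linarith, ?_, ?_, by linarith, by linarith⟩
  · have a1 : 16 * L ^ 2 * (K + 1) ≤ 16 * E ^ 2 * (2 * E) :=
      mul_le_mul (by linarith) (by linarith) (by linarith) (by positivity)
    have a2 : 16 * L ^ 2 * (K + 1) * (B₀ + 1) ≤ 16 * E ^ 2 * (2 * E) * (2 * E) :=
      mul_le_mul a1 (by linarith) (by linarith) (by positivity)
    refine a2.trans (le_trans (le_of_eq ?_) h4)
    ring
  · have := (Nat.ceil_lt_add_one (show 0 ≤ B₀ by linarith)).le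
    push_cast
    linarith

/-- Small numbers. -/
theorem small_num {K L : ℝ} {u s : ℕ} (hu : 2 ^ 40 ≤ u) (hs : 192000 * u ≤ s) (hL : 1 ≤ L)
    (hK : 1 ≤ K) (hL2 : 2 * L ^ 2 ≤ 2 ^ u) (hK2 : K ≤ 2 ^ u) :
    K / 2 ^ s ≤ 1 / 2 ^ (101 * u) ∧ K / 2 ^ s ≤ 1 / 2 ^ (60 * u) ∧ K / 2 ^ s ≤ 1 / 2 ^ (8 * u) ∧
      K / 2 ^ s ≤ 1 / 2 ^ (4 * u) ∧
      1 / 2 ^ (101 * u) + 4 * (2 * L ^ 2) / 2 ^ s ≤ (1 : ℝ) / 2 ^ (100 * u) ∧
      2 ^ u + 1 / 2 ^ (4 * u) + K / 2 ^ s ≤ (2 : ℝ) ^ (2 * u) ∧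
      2 * (1 / 2 ^ (4 * u) + K / 2 ^ s) * 2 ^ (2 * (0 + 1) + 2 * u + 6 + u) ≤ 1 ∧
      K / 2 ^ s + (2 * L + 1) * (2 / 2 ^ (8 * u)) ≤ 1 / 2 ^ (6 * u) ∧
      (1 : ℝ) / 2 ^ (6 * u) * 2 ^ (4 * u + 5 * 3 + 13 + u) ≤ 1 := by
  obtain ⟨Q, hQ⟩ : ∃ Q : ℝ, Q = 2 ^ u := ⟨_, rfl⟩
  have hp : ∀ n : ℕ, (2 : ℝ) ^ (n * u) = Q ^ n := fun n => by rw [hQ, ← pow_mul, mul_comm]
  have hu40 : 40 ≤ u := by
    have : 40 ≤ 2 ^ 40 := by norm_num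
    omega
  have hQ40 : (2 : ℝ) ^ 40 ≤ Q := by
    rw [hQ]
    exact pow_le_pow_right₀ (by norm_num) hu40
  have hQ0 : 0 < Q := lt_of_lt_of_le (by norm_num) hQ40
  have hQ1 : (1 : ℝ) ≤ Q := le_trans (by norm_num) hQ40
  have hs2 : Q ^ 200 ≤ 2 ^ s := by
    rw [← hp]
    exact pow_le_pow_right₀ (by norm_num) (by omega)
  have hs0 : (0 : ℝ) < 2 ^ s := by positivity
  rw [← hQ] at hL2 hK2
  have mono : ∀ {a b : ℕ}, a ≤ b → (1 : ℝ) / Q ^ b ≤ 1 / Q ^ a := fun h =>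
    one_div_le_one_div_of_le (by positivity) (pow_le_pow_right₀ hQ1 h)
  have k1 : K / 2 ^ s ≤ 1 / Q ^ 199 := by
    rw [div_le_div_iff₀ hs0 (by positivity), one_mul]
    calc K * Q ^ 199 ≤ Q * Q ^ 199 := mul_le_mul_of_nonneg_right hK2 (by positivity)
      _ = Q ^ 200 := by ring
      _ ≤ 2 ^ s := hs2
  have k2 : 2 * L ^ 2 / 2 ^ s ≤ 1 / Q ^ 199 := by
    rw [div_le_div_iff₀ hs0 (by positivity), one_mul]
    calc 2 * L ^ 2 * Q ^ 199 ≤ Q * Q ^ 199 := mul_le_mul_of_nonneg_right hL2 (by positivity)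
      _ = Q ^ 200 := by ring
      _ ≤ 2 ^ s := hs2
  have c : ∀ (r : ℝ) (n : ℕ), r ≤ 2 ^ 40 → r / Q ^ (n + 1) ≤ 1 / Q ^ n := by
    intro r n hr
    rw [div_le_div_iff₀ (by positivity) (by positivity), one_mul, pow_succ, mul_comm]
    exact mul_le_mul_of_nonneg_left (hr.trans hQ40) (by positivity)
  have hL3 : 2 * L + 1 ≤ 2 * Q := by nlinarith
  have e1 : (2 : ℝ) ^ (2 * (0 + 1) + 2 * u + 6 + u) = 256 * Q ^ 3 := by
    have : 2 * (0 + 1) + 2 * u + 6 + u = 8 + 3 * u := by ring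
    rw [this, pow_add, hp]
    norm_num
  have e2 : (2 : ℝ) ^ (4 * u + 5 * 3 + 13 + u) = 2 ^ 28 * Q ^ 5 := by
    have : 4 * u + 5 * 3 + 13 + u = 28 + 5 * u := by ring
    rw [this, pow_add, hp]
  rw [hp 101, hp 60, hp 8, hp 4, hp 100, hp 2, hp 6, ← hQ, e1, e2]
  refine ⟨k1.trans (mono (by norm_num)), k1.trans (mono (by norm_num)),
    k1.trans (mono (by norm_num)), k1.trans (mono (by norm_num)), ?_, ?_, ?_, ?_, ?_⟩
  · have a1 : 4 * (2 * L ^ 2) / 2 ^ s = 4 * (2 * L ^ 2 / 2 ^ s) := by ring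
    have a2 : (1 : ℝ) / Q ^ 199 ≤ 1 / Q ^ 101 := mono (by norm_num)
    have a3 := c 5 100 (by norm_num)
    have a4 : (5 : ℝ) / Q ^ 101 = 1 / Q ^ 101 + 4 * (1 / Q ^ 101) := by ring
    rw [a1]
    have a5 : (5 : ℝ) / Q ^ (100 + 1) = 5 / Q ^ 101 := rfl
    rw [a5, a4] at a3
    linarith
  · have a1 : (1 : ℝ) / Q ^ 4 ≤ 1 := by
      rw [div_le_one (by positivity)]
      exact one_le_pow₀ hQ1
    have a2 : (1 : ℝ) / Q ^ 199 ≤ 1 := by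
      rw [div_le_one (by positivity)]
      exact one_le_pow₀ hQ1
    have a3 : 3 * Q ≤ Q ^ 2 := by
      rw [sq]
      exact mul_le_mul_of_nonneg_right (le_trans (by norm_num) hQ40) hQ0.le
    linarith
  · have a1 : (1 : ℝ) / Q ^ 4 + K / 2 ^ s ≤ 2 / Q ^ 4 := by
      have : (1 : ℝ) / Q ^ 199 ≤ 1 / Q ^ 4 := mono (by norm_num)
      have e : (2 : ℝ) / Q ^ 4 = 1 / Q ^ 4 + 1 / Q ^ 4 := by ring
      rw [e]
      linarith
    calc 2 * (1 / Q ^ 4 + K / 2 ^ s) * (256 * Q ^ 3) ≤ 2 * (2 / Q ^ 4) * (256 * Q ^ 3) :=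
          mul_le_mul_of_nonneg_right (mul_le_mul_of_nonneg_left a1 (by norm_num)) (by positivity)
      _ = 1024 / Q := by
        field_simp
        norm_num
      _ ≤ 1 := by
        rw [div_le_one hQ0]
        exact le_trans (by norm_num) hQ40
  · have a1 : (2 * L + 1) * (2 / Q ^ 8) ≤ 2 * Q * (2 / Q ^ 8) :=
      mul_le_mul_of_nonneg_right hL3 (by positivity)
    have a2 : 2 * Q * (2 / Q ^ 8) = 4 / Q ^ 7 := by
      field_simp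
      norm_num
    have a3 : (1 : ℝ) / Q ^ 199 ≤ 1 / Q ^ 7 := mono (by norm_num)
    have a4 := c 5 6 (by norm_num)
    have a5 : (5 : ℝ) / Q ^ (6 + 1) = 1 / Q ^ 7 + 4 / Q ^ 7 := by ring
    rw [a5] at a4
    linarith
  · have a1 : 1 / Q ^ 6 * (2 ^ 28 * Q ^ 5) = 2 ^ 28 / Q := by
      field_simp
    rw [a1, div_le_one hQ0]
    exact le_trans (by norm_num) hQ40

/-- The entropies. -/
theorem ent_num {υ ε δ₁ eH N lK : ℝ} {J u l x₁ : ℕ} (hu : u = ⌊υ * J⌋₊)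
    (hl : l = ⌊υ * J / 2 ^ 38⌋₊) (hJ : 2 ^ 50 ≤ υ * J) (hε0 : 0 < ε) (hε : ε ≤ υ / 2 ^ 44)
    (hJ' : 2 ^ 50 ≤ δ₁ * J) (hε' : ε ≤ δ₁ / 2 ^ 46) (hx₁ : x₁ = 320 * u)
    (hN : Real.log N ≤ 2 * (ε * J) + 6) (hH : eH ≤ ε * J + Real.log N)
    (hK : δ₁ * J / 2 - 1 ≤ lK) :
    2 ^ 38 * (10 * (ε * J + eH) + Real.log 2) + Real.log 9 < (1 - 2 ^ 38 * (1 / 2 ^ 39)) * lK ∧
      2 ^ 38 * (2 * (ε * J) + 11 * (ε * J) + 11 * eH + (3 * l + 11) * Real.log 2) ≤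
        x₁ / 2 * Real.log 2 := by
  have hJ0 : (0 : ℝ) ≤ J := Nat.cast_nonneg _
  have u1 : υ * J - 1 < u := by
    rw [hu]
    exact Nat.sub_one_lt_floor _
  have l2 : (l : ℝ) ≤ υ * J / 2 ^ 38 := by
    rw [hl]
    refine Nat.floor_le ?_
    have : (0 : ℝ) ≤ υ * J := le_trans (by norm_num) hJ
    positivity
  have h3 : ε * J ≤ υ / 2 ^ 44 * J := mul_le_mul_of_nonneg_right hε hJ0
  have h4 : ε * J ≤ δ₁ / 2 ^ 46 * J := mul_le_mul_of_nonneg_right hε' hJ0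
  have g1 := Real.log_two_gt_d9
  have g2 := Real.log_two_lt_d9
  have g9 : Real.log 9 ≤ 3 := by
    have h5 : Real.log 9 ≤ Real.log 16 := Real.log_le_log (by norm_num) (by norm_num)
    have h6 : Real.log 16 = 4 * Real.log 2 := by
      have : (16 : ℝ) = 2 ^ 4 := by norm_num
      rw [this, Real.log_pow]
      norm_num
    linarith
  have hH' : eH ≤ 3 * (ε * J) + 6 := by linarith
  obtain ⟨X, hX⟩ : ∃ X, X = ε * J := ⟨_, rfl⟩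
  obtain ⟨Y, hY⟩ : ∃ Y, Y = δ₁ * J := ⟨_, rfl⟩
  obtain ⟨Z, hZ⟩ : ∃ Z, Z = υ * J := ⟨_, rfl⟩
  have h3' : X ≤ Z / 2 ^ 44 := by
    rw [hX, hZ]
    refine h3.trans (le_of_eq ?_)
    ring
  have h4' : X ≤ Y / 2 ^ 46 := by
    rw [hX, hY]
    refine h4.trans (le_of_eq ?_)
    ring
  rw [← hX] at hH' ⊢
  rw [← hY] at hJ' hK
  rw [← hZ] at hJ l2 u1
  constructor
  · norm_num at hJ' h4' ⊢
    linarith
  · rw [hx₁]
    push_cast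
    have a1 : (2 : ℝ) ^ 38 * (2 * X + 11 * X + 11 * eH + (3 * l + 11) * Real.log 2) ≤
        2 ^ 38 * (46 * X + 66 + (3 * (Z / 2 ^ 38) + 11)) := by
      have a2 : (3 * (l : ℝ) + 11) * Real.log 2 ≤ (3 * (Z / 2 ^ 38) + 11) * 1 := by
        have hl0 : (0 : ℝ) ≤ l := Nat.cast_nonneg _
        refine mul_le_mul (by linarith) (by linarith) (by linarith) (by linarith)
      nlinarith
    have a3 : (2 : ℝ) ^ 38 * (46 * X + 66 + (3 * (Z / 2 ^ 38) + 11)) ≤ 100 * (Z - 1) := by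
      norm_num at hJ h3' ⊢
      linarith
    have a4 : 100 * (Z - 1) ≤ 160 * (Z - 1) * Real.log 2 := by nlinarith
    have a5 : 160 * (Z - 1) * Real.log 2 ≤ 320 * (u : ℝ) / 2 * Real.log 2 := by
      refine mul_le_mul_of_nonneg_right ?_ (by linarith)
      linarith
    linarith

end Pool.D2N
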