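import Pool.Agent.H90.D2.Rea
import Pool.Agent.H4.D2.Call
import Pool.Agent.H42.D2.NoPlk
import Pool.Agent.H60.D2.Flt
import Pool.Agent.H64.F5.Fin

/-!
# The hop cell: numbers and the flat case

`frok_le`: fewer coordinates. `flat_re`: if the coefficients of the target in the directions of the
rough coordinates are small then the label has no spatial curvature at the own sample. `er_num`,
`kl_num`: the numbers.
-/

set_option autoImplicit false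

namespace Pool.D2N

open Finset Real MvPolynomial
open Pool.Agent.H49.Ent Pool.Agent.H32.Dense Pool.STK Pool.KA Pool.KSAT Pool.K2S Pool.PB Pool.S6C
open Pool.GEN Pool.CHT Pool.CHX Pool.LA91
open Pool.LBT (ThrOf)
open Pool.D2F Pool.D2Z Pool.D2F2
open Pool.D2R (dd hs co)
open Pool.OWN68 (opl tw uw mid dirv natDegree_opl opl_jet uw_abs)
open Pool.KM7 (P2 P2_isLaw P2_pos)
open Pool.D2A

variable {m J : ℕ}

/-- Fewer coordinates. -/
theorem frok_le {F : Fam m J} {c : ℕ → Fin m} {n n' a k e : ℕ} {g : ℕ → ℕ} {A : F.Ω → Prop}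
    {ψ : PtT F → ℕ → Option (Fin m) → ℝ} {ψH : LnT F → ℕ → Option (Fin m) → ℝ}
    (h : FrOK F c n a k e g A ψ ψH) (hn : n' ≤ n) : FrOK F c n' a k e g A ψ ψH :=
  ⟨h.cls, h.dep, h.depH, fun ω hω l hl => h.nat ω hω l (hl.trans_le hn),
    fun ω hω i hi => h.lip ω hω i (hi.trans_le hn)⟩

/-! ### The flat case -/

/-- The second derivative in the directions of the frame. -/
theorem hs_fr {F : Fam m J} {c : ℕ → Fin m} {g : ℕ → ℕ} {W n : ℕ}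
    (hW : W ≤ J) {ψH : LnT F → ℕ → Option (Fin m) → ℝ}
    {Ht : LnT F → MvPolynomial (Option (Fin m)) ℝ} {ω : F.Ω} (l : ℕ) :
    hs (Ht (co n (slam F W ω))) (bt F ω) (bd F ω) (fv c g W 3 (ψH (slam F W ω)) l) =
      2 ^ (W + 1) * (gq F c g W n ψH Ht (slam F W ω) l).derivative.eval (uw F W ω) := by
  have h := opl_jet F hW (gpo c g W 3 (ψH (slam F W ω)) (Ht (co n (slam F W ω))) l) ω 1
  rw [Function.iterate_one, pow_one, jet_one] at h
  unfold gq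
  rw [h]
  have e : ∑ o, bd F ω o * eval (bt F ω) (pderiv o
      (gpo c g W 3 (ψH (slam F W ω)) (Ht (co n (slam F W ω))) l)) =
      hs (Ht (co n (slam F W ω))) (bt F ω) (bd F ω) (fv c g W 3 (ψH (slam F W ω)) l) := by
    unfold gpo hs dd
    simp only [map_sum, pderiv_C_mul, Finset.mul_sum, Finset.sum_mul, map_mul, eval_C]
    rw [Finset.sum_comm]
    refine Finset.sum_congr rfl fun o _ => Finset.sum_congr rfl fun o' _ => ?_
    ring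
  rw [e]
  field_simp

section flat

variable {F : Fam m J} {c : ℕ → Fin m} {g g' : ℕ → ℕ} {W n D a' k k' e₀ e₁ n' s V : ℕ}
  {ψ ψ' : PtT F → ℕ → Option (Fin m) → ℝ} {ψH ψH' : LnT F → ℕ → Option (Fin m) → ℝ}
  {Ht : LnT F → MvPolynomial (Option (Fin m)) ℝ} {B : F.Ω → Prop} {ζ ε : Type}
  {z : LnT F → ζ} {e : LnT F → ε} {δ δ₁ δ' Kn L K B₀ : ℝ}

/-- **No spatial curvature** at the own sample. -/
theorem flat_re (H : ReH F c g g' W n D a' k k' e₀ e₁ n' s V ψ ψ' ψH ψH' Ht B z e δ δ₁ δ' Kn L K B₀)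
    {ω : F.Ω} (hω : B ω) {η : ℝ} (hη : ∀ i, |An F c g W n ψH Ht ω i| ≤ η)
    {V : Option (Fin m) → ℝ} (h0 : V none = 0) :
    |hs (Ht (co n (slam F W ω))) (bt F ω) (bd F ω) V| ≤
      (δ + (2 * L + 1) * (η + 2 * ((D + 1) ^ 2 * δ'))) * (2 ^ W / 2 ^ g 3) *
        en c g W (ψ (ptr F J ω)) 3 V := by
  have hL := H.hL
  have hδ' := H.hδ'
  have hη0 : 0 ≤ η := (abs_nonneg _).trans (hη 0)
  obtain ⟨ρ, hρ⟩ : ∃ ρ, ρ = η + 2 * (((D : ℝ) + 1) ^ 2 * δ') := ⟨_, rfl⟩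
  have hρ0 : 0 ≤ ρ := by
    rw [hρ]
    positivity
  obtain ⟨G, hG⟩ : ∃ G, G = gq F c g W n ψH Ht (slam F W ω) := ⟨_, rfl⟩
  obtain ⟨u, hu⟩ : ∃ u, u = uw F W ω := ⟨_, rfl⟩
  have huu : |u| ≤ 1 := by
    rw [hu]
    exact uw_abs F W ω
  have hδ0 : 0 ≤ δ := (abs_nonneg _).trans (H.nul ω hω)
  -- the rough directions
  have h1 : ∀ i : Fin 2, |2 * (2 ^ g 3 / 2 ^ g (i.1 + 1)) * (G (i.1 + 1)).derivative.eval u| ≤
      ρ := by
    intro i
    have h2 := der_cut (P := Polynomial.C ((2 : ℝ) ^ g 3 / 2 ^ g (i.1 + 1)) * G (i.1 + 1)) (D := D)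
      (k := 2) ((Polynomial.natDegree_C_mul_le _ _).trans (by
        rw [hG]
        exact natDegree_opl F W (deg_gpo c g W 3 (ψH (slam F W ω)) (H.deg _) _) _)) huu hδ'
        (by have := H.hD; omega) (fun j hj => by
        rw [Polynomial.coeff_C_mul, hG]
        exact H.sml1 ω hω i j hj)
    rw [Polynomial.derivative_C_mul, Polynomial.eval_C_mul] at h2
    simp only [Polynomial.coeff_C_mul, Finset.sum_range_succ, Finset.sum_range_zero] at h2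
    have h3 := hη i
    have e1 : An F c g W n ψH Ht ω i = 2 ^ g 3 / 2 ^ g (i.1 + 1) * (2 * (G (i.1 + 1)).coeff 1) := by
      rw [hG]
      rfl
    rw [e1] at h3
    have e2 : 2 * (2 ^ g 3 / 2 ^ g (i.1 + 1)) * (G (i.1 + 1)).derivative.eval u =
        2 * (2 ^ g 3 / 2 ^ g (i.1 + 1) * (G (i.1 + 1)).derivative.eval u -
          (0 + 2 ^ g 3 / 2 ^ g (i.1 + 1) * (G (i.1 + 1)).coeff 0 * ((0 : ℕ) : ℝ) * u ^ (0 - 1) +
            2 ^ g 3 / 2 ^ g (i.1 + 1) * (G (i.1 + 1)).coeff 1 * ((1 : ℕ) : ℝ) * u ^ (1 - 1))) +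
        2 ^ g 3 / 2 ^ g (i.1 + 1) * (2 * (G (i.1 + 1)).coeff 1) := by
      push_cast
      ring
    rw [e2, hρ]
    refine (abs_add_le _ _).trans ?_
    rw [abs_mul, abs_of_pos (by norm_num : (0 : ℝ) < 2)]
    linarith
  -- the direction of `c 0`
  have h4 := H.nul ω hω
  rw [H.fr.cls ω hω] at h4
  rw [hs_own H.hc H.hW H.dep (H.fr.depH _) (H.fr'.dep _), ← hG, ← hu] at h4
  have hM : ∀ i : Fin 2, |Ms c g W (ψH (slam F W ω)) (ψ' (ptr F J ω)) i.1 1| ≤ L := by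
    intro i
    rw [← H.fr.cls ω hω]
    exact (ms_le H.hc H.fr H.fr' H.hKn (H.near ω hω) (by omega) 1).trans H.KL
  have h5 : |2 * (2 ^ g 3 / 2 ^ g 0) * (G 0).derivative.eval u| ≤ δ + 2 * L * ρ := by
    have t0 := m2_le (h1 0) (hM 0)
    have t1 := m2_le (h1 1) (hM 1)
    rw [Fin.sum_univ_two] at h4
    rw [abs_le] at h4 t0 t1 ⊢
    constructor <;> linarith [h4.1, h4.2, t0.1, t0.2, t1.1, t1.2]
  -- the sum
  have hfr := hs_fv H.hc g W (H.fr.depH (slam F W ω)) (H.dep (co n (slam F W ω))) (bt F ω)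
    (bd F ω) h0
  have hl : ∀ l < 3, |hs (Ht (co n (slam F W ω))) (bt F ω) (bd F ω)
      (fv c g W 3 (ψH (slam F W ω)) l) * (V (some (c l)) - cv (ψH (slam F W ω) l) V)| ≤
      (δ + (2 * L + 1) * ρ) * (2 ^ W / 2 ^ g 3) * |eta c g W (ψ (ptr F J ω)) V (l + 1)| := by
    intro l hl
    rw [hs_fr H.hW, ← hG, ← hu]
    have e1 : 2 ^ (W + 1) * (G l).derivative.eval u * (V (some (c l)) -
        cv (ψH (slam F W ω) l) V) = (2 ^ W / 2 ^ g 3) *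
        ((2 * (2 ^ g 3 / 2 ^ g l) * (G l).derivative.eval u) *
          eta c g W (ψ (ptr F J ω)) V (l + 1)) := by
      rw [H.fr.cls ω hω]
      simp only [eta]
      rw [pow_succ]
      field_simp
    rw [e1, abs_mul, abs_mul (2 * (2 ^ g 3 / 2 ^ g l) * (G l).derivative.eval u),
      abs_of_pos (by positivity : (0 : ℝ) < 2 ^ W / 2 ^ g 3)]
    have h6 : |2 * (2 ^ g 3 / 2 ^ g l) * (G l).derivative.eval u| ≤ δ + (2 * L + 1) * ρ := by
      have h8 : (2 * L + 1) * ρ = 2 * L * ρ + ρ := by ring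
      have h9 : 0 ≤ 2 * L * ρ := by positivity
      interval_cases l
      · refine h5.trans ?_
        linarith
      · have := h1 0
        have f0 : ((0 : Fin 2) : ℕ) = 0 := rfl
        rw [f0] at this
        refine this.trans ?_
        linarith
      · have := h1 1
        have f1 : ((1 : Fin 2) : ℕ) = 1 := rfl
        rw [f1] at this
        refine this.trans ?_
        linarith
    have h7 := mul_le_mul_of_nonneg_right h6 (abs_nonneg (eta c g W (ψ (ptr F J ω)) V (l + 1)))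
    have h8 := mul_le_mul_of_nonneg_left h7 (by positivity : (0 : ℝ) ≤ 2 ^ W / 2 ^ g 3)
    refine h8.trans (le_of_eq ?_)
    ring
  rw [hfr]
  refine (Finset.abs_sum_le_sum_abs _ _).trans ?_
  refine (Finset.sum_le_sum fun l hl' => hl l (Finset.mem_range.1 hl')).trans ?_
  rw [← Finset.mul_sum, hρ]
  refine mul_le_mul_of_nonneg_left ?_ (by
    rw [← hρ]
    positivity)
  unfold en
  rw [Finset.sum_range_succ' (fun j => |eta c g W (ψ (ptr F J ω)) V j|) 3]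
  have := abs_nonneg (eta c g W (ψ (ptr F J ω)) V 0)
  linarith

end flat

/-! ### Numbers -/

theorem q_div {Q : ℝ} (hQ : 0 < Q) {a b : ℕ} (h : a ≤ b) : Q ^ a / Q ^ b = 1 / Q ^ (b - a) := by
  rw [div_eq_div_iff (by positivity) (by positivity), one_mul, ← pow_add]
  congr 1
  omega

/-- The error of the labels, in powers of `Q`. -/
theorem er_pow {Q X Mb K ε ε₂ : ℝ} (hQ : 2 ^ 20 ≤ Q) (hX0 : 0 < X) (hX : X ≤ Q ^ 8)
    (hMb0 : 0 ≤ Mb) (hMb : Mb ≤ Q) (hK0 : 0 ≤ K) (hK : K ≤ Q) (hε0 : 0 ≤ ε)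
    (hε : ε ≤ 1 / Q ^ 60) (hε₂0 : 0 ≤ ε₂) (hε₂ : ε₂ ≤ 1 / Q ^ 100) :
    Pool.F5.Er Q Mb K (1 / X / 2) (1 / Q ^ 25) (1 / Q ^ 20) ε ε₂ ≤ 4 / Q ^ 14 := by
  have hQ0 : 0 < Q := lt_of_lt_of_le (by norm_num) hQ
  have hQ6 : (6 : ℝ) ≤ Q := le_trans (by norm_num) hQ
  have hQ1 : (1 : ℝ) ≤ Q := by linarith
  have mono : ∀ {a b : ℕ}, a ≤ b → (1 : ℝ) / Q ^ b ≤ 1 / Q ^ a := fun h =>
    one_div_le_one_div_of_le (by positivity) (pow_le_pow_right₀ hQ1 h)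
  have c6 : ∀ n : ℕ, (6 : ℝ) / Q ^ (n + 1) ≤ 1 / Q ^ n := by
    intro n
    rw [div_le_div_iff₀ (by positivity) (by positivity), one_mul, pow_succ, mul_comm]
    exact mul_le_mul_of_nonneg_left hQ6 (by positivity)
  -- the first term
  have t1 : (ε₂ + 1 / Q ^ 25 * (2 * Mb)) / (1 / X / 2) ≤ 1 / Q ^ 15 := by
    have a1 : ε₂ + 1 / Q ^ 25 * (2 * Mb) ≤ 3 / Q ^ 24 := by
      have b1 : 1 / Q ^ 25 * (2 * Mb) ≤ 1 / Q ^ 25 * (2 * Q) :=
        mul_le_mul_of_nonneg_left (by linarith) (by positivity)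
      have b2 : 1 / Q ^ 25 * (2 * Q) = 2 / Q ^ 24 := by
        field_simp
      have b3 : (1 : ℝ) / Q ^ 100 ≤ 1 / Q ^ 24 := mono (by norm_num)
      have b4 : (3 : ℝ) / Q ^ 24 = 1 / Q ^ 24 + 2 / Q ^ 24 := by ring
      rw [b4]
      linarith
    have a2 : (ε₂ + 1 / Q ^ 25 * (2 * Mb)) / (1 / X / 2) =
        (ε₂ + 1 / Q ^ 25 * (2 * Mb)) * (2 * X) := by
      field_simp
    rw [a2]
    have a3 : (ε₂ + 1 / Q ^ 25 * (2 * Mb)) * (2 * X) ≤ 3 / Q ^ 24 * (2 * Q ^ 8) :=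
      mul_le_mul a1 (by linarith) (by positivity) (by positivity)
    refine a3.trans ?_
    have a4 : 3 / Q ^ 24 * (2 * Q ^ 8) = 6 / Q ^ 16 := by
      field_simp
      norm_num
    rw [a4]
    exact c6 15
  have t1' : Q * max (1 / Q ^ 20) ((ε₂ + 1 / Q ^ 25 * (2 * Mb)) / (1 / X / 2)) ≤ 1 / Q ^ 14 := by
    have a1 : max (1 / Q ^ 20) ((ε₂ + 1 / Q ^ 25 * (2 * Mb)) / (1 / X / 2)) ≤ 1 / Q ^ 15 :=
      max_le (mono (by norm_num)) t1
    refine (mul_le_mul_of_nonneg_left a1 hQ0.le).trans (le_of_eq ?_)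
    field_simp
  have t2 : Q * (ε₂ / (1 / Q ^ 25)) ≤ 1 / Q ^ 14 := by
    have a1 : Q * (ε₂ / (1 / Q ^ 25)) = ε₂ * Q ^ 26 := by
      field_simp
    rw [a1]
    refine (mul_le_mul_of_nonneg_right hε₂ (by positivity)).trans ?_
    have a2 : 1 / Q ^ 100 * Q ^ 26 = 1 / Q ^ 74 := by
      field_simp
    rw [a2]
    exact mono (by norm_num)
  have t3 : 2 * ε * (1 + K / (1 / Q ^ 25)) ≤ 1 / Q ^ 14 := by
    have a1 : 1 + K / (1 / Q ^ 25) ≤ 2 * Q ^ 26 := by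
      have b1 : K / (1 / Q ^ 25) = K * Q ^ 25 := by field_simp
      have b2 : K * Q ^ 25 ≤ Q * Q ^ 25 := mul_le_mul_of_nonneg_right hK (by positivity)
      have b3 : (1 : ℝ) ≤ Q ^ 26 := one_le_pow₀ hQ1
      have b4 : Q * Q ^ 25 = Q ^ 26 := by ring
      rw [b1]
      linarith
    have a2 : 2 * ε ≤ 2 / Q ^ 60 := by
      have : (2 : ℝ) / Q ^ 60 = 2 * (1 / Q ^ 60) := by ring
      rw [this]
      linarith
    have hKp : 0 ≤ K / (1 / Q ^ 25) := by positivity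
    have a3 : 2 * ε * (1 + K / (1 / Q ^ 25)) ≤ 2 / Q ^ 60 * (2 * Q ^ 26) :=
      mul_le_mul a2 a1 (by positivity) (by positivity)
    refine a3.trans ?_
    have a4 : 2 / Q ^ 60 * (2 * Q ^ 26) = 4 / Q ^ 34 := by
      field_simp
      norm_num
    rw [a4]
    have a5 : (4 : ℝ) / Q ^ 34 ≤ 6 / Q ^ 34 := div_le_div_of_nonneg_right (by norm_num)
      (by positivity)
    exact a5.trans ((c6 33).trans (mono (by norm_num)))
  have t4 : 2 * K * ε₂ / (1 / Q ^ 20) / (1 / Q ^ 25) ^ 2 * (Mb + 1) ≤ 1 / Q ^ 14 := by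
    have a1 : 2 * K * ε₂ / (1 / Q ^ 20) / (1 / Q ^ 25) ^ 2 * (Mb + 1) =
        2 * K * ε₂ * Q ^ 70 * (Mb + 1) := by
      field_simp
    rw [a1]
    have a2 : 2 * K * ε₂ ≤ 2 * Q * (1 / Q ^ 100) :=
      mul_le_mul (by linarith) hε₂ hε₂0 (by positivity)
    have a3 : Mb + 1 ≤ 2 * Q := by linarith
    have a4 : 2 * K * ε₂ * Q ^ 70 * (Mb + 1) ≤ 2 * Q * (1 / Q ^ 100) * Q ^ 70 * (2 * Q) :=
      mul_le_mul (mul_le_mul_of_nonneg_right a2 (by positivity)) a3 (by positivity) (by positivity)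
    refine a4.trans ?_
    have a5 : 2 * Q * (1 / Q ^ 100) * Q ^ 70 * (2 * Q) = 4 / Q ^ 28 := by
      field_simp
      norm_num
    rw [a5]
    have a6 : (4 : ℝ) / Q ^ 28 ≤ 6 / Q ^ 28 := div_le_div_of_nonneg_right (by norm_num)
      (by positivity)
    exact a6.trans ((c6 27).trans (mono (by norm_num)))
  unfold Pool.F5.Er
  have e : (4 : ℝ) / Q ^ 14 = 1 / Q ^ 14 + 1 / Q ^ 14 + 1 / Q ^ 14 + 1 / Q ^ 14 := by ring
  rw [e]
  exact add_le_add (add_le_add (add_le_add t1' t2) t3) t4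

/-- The numbers of `kil_cls`. -/
theorem kl_num {u x : ℕ} {Mb K ε ε₂ : ℝ} (hu : 20 ≤ u) (hx : x ≤ 8 * u)
    (hMb0 : 0 ≤ Mb) (hMb : Mb ≤ 2 ^ u) (hK0 : 0 ≤ K) (hK : K ≤ 2 ^ u) (hε0 : 0 ≤ ε)
    (hε : ε ≤ 1 / 2 ^ (60 * u)) (hε₂0 : 0 ≤ ε₂) (hε₂ : ε₂ ≤ 1 / 2 ^ (100 * u)) :
    Pool.F5.Er (2 ^ u) Mb K (1 / 2 ^ x / 2) (1 / 2 ^ (25 * u)) (1 / 2 ^ (20 * u)) ε ε₂ *
      2 ^ (2 * u + 12 + u) ≤ 1 ∧
    (1 : ℝ) / 2 ^ (25 * u) ≤ 1 / 2 ^ x / 2 / 2 ∧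
    Mb * (1 + K / (1 / 2 ^ (25 * u))) ≤ 2 ^ (28 * u) ∧ K / (1 / 2 ^ (25 * u)) ≤ 2 ^ (28 * u) := by
  obtain ⟨Q, hQ⟩ : ∃ Q : ℝ, Q = 2 ^ u := ⟨_, rfl⟩
  have hp : ∀ n : ℕ, (2 : ℝ) ^ (n * u) = Q ^ n := fun n => by rw [hQ, ← pow_mul, mul_comm]
  have hQ20 : (2 : ℝ) ^ 20 ≤ Q := by
    rw [hQ]
    exact pow_le_pow_right₀ (by norm_num) hu
  have hQ0 : 0 < Q := lt_of_lt_of_le (by norm_num) hQ20
  have hQ1 : (1 : ℝ) ≤ Q := le_trans (by norm_num) hQ20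
  have hX : (2 : ℝ) ^ x ≤ Q ^ 8 := by
    rw [← hp 8]
    exact pow_le_pow_right₀ (by norm_num) hx
  have h2 : (2 : ℝ) ^ (2 * u + 12 + u) = Q ^ 3 * 2 ^ 12 := by
    rw [hQ, ← pow_mul, ← pow_add]
    congr 1
    ring
  rw [hp 60] at hε
  rw [hp 100] at hε₂
  rw [← hQ] at hMb hK
  rw [hp 25, hp 20, hp 28, ← hQ, h2]
  refine ⟨?_, ?_, ?_, ?_⟩
  · have h1 := er_pow (X := 2 ^ x) hQ20 (by positivity) hX hMb0 hMb hK0 hK hε0 hε hε₂0 hε₂
    refine (mul_le_mul_of_nonneg_right h1 (by positivity)).trans ?_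
    have h3 : 4 / Q ^ 14 * (Q ^ 3 * 2 ^ 12) = 2 ^ 14 / Q ^ 11 := by
      field_simp
      norm_num
    rw [h3, div_le_one (by positivity)]
    calc (2 : ℝ) ^ 14 ≤ 2 ^ 20 := by norm_num
      _ ≤ Q := hQ20
      _ = Q ^ 1 := (pow_one Q).symm
      _ ≤ Q ^ 11 := pow_le_pow_right₀ hQ1 (by norm_num)
  · rw [div_div, div_div, div_le_div_iff₀ (by positivity) (by positivity), one_mul, one_mul]
    have h1 : (2 : ℝ) ^ x * 2 * 2 ≤ Q ^ 8 * 4 := by linarith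
    have h2 : Q ^ 8 * 4 ≤ Q ^ 8 * Q ^ 17 := by
      refine mul_le_mul_of_nonneg_left ?_ (by positivity)
      calc (4 : ℝ) ≤ 2 ^ 20 := by norm_num
        _ ≤ Q := hQ20
        _ = Q ^ 1 := (pow_one Q).symm
        _ ≤ Q ^ 17 := pow_le_pow_right₀ hQ1 (by norm_num)
    have h3 : Q ^ 8 * Q ^ 17 = Q ^ 25 := by ring
    rw [h3] at h2
    exact (le_of_eq (by ring)).trans (h1.trans h2)
  · have b1 : K / (1 / Q ^ 25) = K * Q ^ 25 := by field_simp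
    have b2 : K * Q ^ 25 ≤ Q * Q ^ 25 := mul_le_mul_of_nonneg_right hK (by positivity)
    have b3 : (1 : ℝ) ≤ Q ^ 26 := one_le_pow₀ hQ1
    have b4 : Q * Q ^ 25 = Q ^ 26 := by ring
    have b5 : 1 + K / (1 / Q ^ 25) ≤ 2 * Q ^ 26 := by
      rw [b1]
      linarith
    have b6 : Mb * (1 + K / (1 / Q ^ 25)) ≤ Q * (2 * Q ^ 26) :=
      mul_le_mul hMb b5 (by positivity) hQ0.le
    refine b6.trans ?_
    have b7 : Q * (2 * Q ^ 26) = 2 * Q ^ 27 := by ring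
    have b8 : 2 * Q ^ 27 ≤ Q * Q ^ 27 := mul_le_mul_of_nonneg_right
      (le_trans (by norm_num) hQ20) (by positivity)
    have b9 : Q * Q ^ 27 = Q ^ 28 := by ring
    rw [b7]
    rw [b9] at b8
    exact b8
  · have b1 : K / (1 / Q ^ 25) = K * Q ^ 25 := by field_simp
    have b2 : K * Q ^ 25 ≤ Q * Q ^ 25 := mul_le_mul_of_nonneg_right hK (by positivity)
    have b4 : Q * Q ^ 25 = Q ^ 26 := by ring
    rw [b1]
    rw [b4] at b2
    exact b2.trans (pow_le_pow_right₀ hQ1 (by norm_num))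

end Pool.D2N
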