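import Pool.Agent.H90.D2.Rea

/-!
# The number of a line at two windows

`nw_eq`: the number of a line relative to a reference line is the coefficient of order two of the
polynomial `SUM gp_l (P_l - P⁰_l)`; this polynomial is the derivative of the label in the direction of
the difference of the lines, it does not depend on the frame. `nw_win`: the numbers at two windows.
`few_win`: the number at the shorter window is few if the number at the longer window is few.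
-/

set_option autoImplicit false

namespace Pool.D2N

open Finset Real MvPolynomial
open Pool.Agent.H49.Ent Pool.Agent.H32.Dense Pool.STK Pool.KA Pool.KSAT Pool.K2S Pool.PB Pool.S6C
open Pool.GEN Pool.CHT Pool.CHX Pool.LA91
open Pool.D2F Pool.D2Z Pool.D2F2
open Pool.D2R (dd hs co)
open Pool.OWN68 (opl tw uw mid dirv natDegree_opl opl_jet uw_abs)
open Pool.X31 (nw)

variable {m J : ℕ}

/-! ### Polynomials -/

/-- The coefficient of order two after a change of the window. -/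
theorem coeff_two_win {P : Polynomial ℝ} {N : ℕ} (hP : P.natDegree ≤ N) {u b M : ℝ} (hu : |u| ≤ 1)
    (hM : ∀ j, 3 ≤ j → |P.coeff j| ≤ M) :
    |(P.comp (Polynomial.C b * Polynomial.X + Polynomial.C u)).coeff 2 - b ^ 2 * P.coeff 2| ≤
      b ^ 2 * (N * ((N + 2) ^ 2 * M)) := by
  have e1 : P.comp (Polynomial.C b * Polynomial.X + Polynomial.C u) =
      (Polynomial.taylor u P).comp (Polynomial.C b * Polynomial.X) := by
    rw [Polynomial.taylor_apply, Polynomial.comp_assoc]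
    congr 1
    simp
  rw [e1, Polynomial.comp_C_mul_X_coeff, Polynomial.taylor_coeff]
  have e2 : (Polynomial.eval u (Polynomial.hasseDeriv 2 P)) =
      ∑ j ∈ range (N + 1), (Polynomial.hasseDeriv 2 P).coeff j * u ^ j := by
    refine Polynomial.eval_eq_sum_range' ?_ u
    refine Nat.lt_succ_of_le ((Polynomial.natDegree_hasseDeriv_le P 2).trans ?_)
    omega
  have e3 : (Polynomial.hasseDeriv 2 P).coeff 0 = P.coeff 2 := by
    rw [Polynomial.hasseDeriv_coeff]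
    simp
  rw [Finset.sum_range_succ'] at e2
  rw [pow_zero, mul_one, e3] at e2
  rw [e2]
  have e4 : (∑ k ∈ range N, (Polynomial.hasseDeriv 2 P).coeff (k + 1) * u ^ (k + 1) +
      P.coeff 2) * b ^ 2 - b ^ 2 * P.coeff 2 =
      b ^ 2 * ∑ k ∈ range N, (Polynomial.hasseDeriv 2 P).coeff (k + 1) * u ^ (k + 1) := by ring
  rw [e4, abs_mul, abs_of_nonneg (sq_nonneg b)]
  refine mul_le_mul_of_nonneg_left ?_ (sq_nonneg b)
  have hM0 : 0 ≤ M := (abs_nonneg _).trans (hM 3 le_rfl)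
  have h1 : ∀ k ∈ range N, |(Polynomial.hasseDeriv 2 P).coeff (k + 1) * u ^ (k + 1)| ≤
      (N + 2) ^ 2 * M := by
    intro k hk
    have hk' := Finset.mem_range.1 hk
    rw [Polynomial.hasseDeriv_coeff, abs_mul, abs_mul, abs_pow, Nat.abs_cast]
    have h2 : |u| ^ (k + 1) ≤ 1 := pow_le_one₀ (abs_nonneg _) hu
    have h3 : ((k + 1 + 2).choose 2 : ℝ) ≤ (N + 2) ^ 2 := by
      have h4 : (k + 1 + 2).choose 2 ≤ (k + 1 + 2) ^ 2 := Nat.choose_le_pow _ _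
      have h5 : (k + 1 + 2) ^ 2 ≤ (N + 2) ^ 2 := Nat.pow_le_pow_left (by omega) 2
      exact_mod_cast h4.trans h5
    have h4 := hM (k + 1 + 2) (by omega)
    calc ((k + 1 + 2).choose 2 : ℝ) * |P.coeff (k + 1 + 2)| * |u| ^ (k + 1) ≤
        ((N + 2) ^ 2 * M) * 1 := mul_le_mul (mul_le_mul h3 h4 (abs_nonneg _) (by positivity)) h2
          (by positivity) (by positivity)
      _ = (N + 2) ^ 2 * M := mul_one _
  refine (Finset.abs_sum_le_sum_abs _ _).trans ((Finset.sum_le_sum h1).trans (le_of_eq ?_))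
  rw [Finset.sum_const, Finset.card_range, nsmul_eq_mul]

/-- The coefficients of a product with a polynomial of degree one. -/
theorem coeff_mul_one {A B : Polynomial ℝ} (hB : B.natDegree ≤ 1) (j : ℕ) :
    (A * B).coeff (j + 1) = A.coeff (j + 1) * B.coeff 0 + A.coeff j * B.coeff 1 := by
  have hB' := Polynomial.eq_X_add_C_of_natDegree_le_one hB
  have e1 : A * B = A * Polynomial.C (B.coeff 0) + A * Polynomial.C (B.coeff 1) * Polynomial.X := by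
    conv_lhs => rw [hB']
    ring
  rw [e1, Polynomial.coeff_add, Polynomial.coeff_mul_C, Polynomial.coeff_mul_X,
    Polynomial.coeff_mul_C]

/-- The polynomial of two lines. -/
noncomputable def Ph {F : Fam m J} {κ : Type} {r D : ℕ} (d : Dat F κ r D) (s s₀ : LnT F) :
    Polynomial ℝ := ∑ l ∈ range r, d.gp l s * (d.P l s - d.P l s₀)

theorem Ph_deg {F : Fam m J} {κ : Type} {r D : ℕ} (d : Dat F κ r D) (s s₀ : LnT F) :
    (Ph d s s₀).natDegree ≤ D + 1 := by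
  unfold Ph
  refine Polynomial.natDegree_sum_le_of_forall_le _ _ fun l _ => ?_
  refine Polynomial.natDegree_mul_le.trans ?_
  exact add_le_add (d.gD l s) ((Polynomial.natDegree_sub_le _ _).trans
    (max_le (d.P1 l s) (d.P1 l s₀)))

theorem Ph_coeff {F : Fam m J} {κ : Type} {r D : ℕ} (d : Dat F κ r D) (s s₀ : LnT F) (j : ℕ) :
    (Ph d s s₀).coeff (j + 1) = ∑ l ∈ range r, ((d.gp l s).coeff (j + 1) *
      (d.P l s - d.P l s₀).coeff 0 + (d.gp l s).coeff j * (d.P l s - d.P l s₀).coeff 1) := by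
  unfold Ph
  rw [Polynomial.finsetSum_coeff]
  refine Finset.sum_congr rfl fun l _ => ?_
  exact coeff_mul_one ((Polynomial.natDegree_sub_le _ _).trans (max_le (d.P1 l s) (d.P1 l s₀))) j

/-- **The number is the coefficient of order two.** -/
theorem nw_eq {F : Fam m J} {κ : Type} {r D : ℕ} (d : Dat F κ r D) (W : ℕ) (s₀ : LnT F)
    (ω : F.Ω) : nw d W (fun l => d.P l s₀) ω = (Ph d (slam F W ω) s₀).coeff 2 := by
  rw [Ph_coeff]
  rfl

/-! ### The line -/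

/-- The point of the own line at the parameter `u`. -/
noncomputable def lu (F : Fam m J) (W : ℕ) (s : LnT F) (u : ℝ) : Option (Fin m) → ℝ :=
  fun o => mid F W s o + u / 2 ^ (W + 1) * dirv F s o

theorem lu_none (F : Fam m J) (W : ℕ) (s : LnT F) (u : ℝ) :
    lu F W s u none = ((s.2.2 : ℝ) + 1 / 2) / 2 ^ W + u / 2 ^ (W + 1) := by
  unfold lu mid dirv
  rw [mul_one]

/-- The same time, the same point. -/
theorem lu_eq {F : Fam m J} {W w : ℕ} {s s' : LnT F} (h : s.1 = s'.1) {u u' : ℝ}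
    (ht : lu F W s u none = lu F w s' u' none) : lu F W s u = lu F w s' u' := by
  funext o
  cases o with
  | none => exact ht
  | some i =>
    have e1 : ∀ (W : ℕ) (s : LnT F) (u : ℝ), lu F W s u (some i) =
        s.1.1 i + lu F W s u none * s.1.2 i := by
      intro W s u
      unfold lu mid dirv
      ring
    rw [e1, e1, h, ht]

variable {F : Fam m J} {c : ℕ → Fin m} {r D : ℕ} {Ht : LnT F → MvPolynomial (Option (Fin m)) ℝ}
  {hD : ∀ s, (Ht s).totalDegree ≤ D}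

theorem P_eval {g : ℕ → ℕ} {W n : ℕ} {ψH : LnT F → ℕ → Option (Fin m) → ℝ} {SV SE SG : ℕ → ℝ}
    (l : ℕ) (hl : l < r) (s : LnT F) (u : ℝ) :
    ((fdat F c g W n r D ψH Ht hD SV SE SG).P l s).eval u =
      lu F W s u (some (c l)) - cv (ψH s l) (lu F W s u) := by
  change (opl F W (fpo c r (ψH s) l) s).eval u = _
  unfold opl
  rw [Polynomial.eval_comp, Polynomial.eval_mul, Polynomial.eval_C, Polynomial.eval_X,
    Pool.LA91.eval_alp, eval_fpo, if_pos hl]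
  have e1 : (fun o => mid F W s o + (1 / 2 ^ (W + 1) * u) * dirv F s o) = lu F W s u := by
    funext o
    unfold lu
    ring
  have e2 := congrFun e1 (some (c l))
  rw [e1, e2]

/-- **The polynomial of two lines does not depend on the frame.** -/
theorem Ph_eval {g : ℕ → ℕ} {W n : ℕ} {ψH : LnT F → ℕ → Option (Fin m) → ℝ} {SV SE SG : ℕ → ℝ}
    (hc : Set.InjOn c (Set.Iio r)) {s s₀ : LnT F} (hψ : ∀ l, CvC c l (ψH s l))
    (hQ : DepC c r (Ht (co n s))) (hs : ψH s₀ = ψH s) (ht : s.2.2 = s₀.2.2) (u : ℝ) :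
    (Ph (fdat F c g W n r D ψH Ht hD SV SE SG) s s₀).eval u =
      dd (Ht (co n s)) (lu F W s u) (lu F W s u - lu F W s₀ u) := by
  have h0 : (lu F W s u - lu F W s₀ u) none = 0 := by
    rw [Pi.sub_apply, lu_none, lu_none, ht, sub_self]
  rw [dd_fv hc g W hψ hQ (lu F W s u) h0]
  unfold Ph
  rw [Polynomial.eval_finsetSum]
  refine Finset.sum_congr rfl fun l hl => ?_
  have hl' := Finset.mem_range.1 hl
  rw [Polynomial.eval_mul, Polynomial.eval_sub, P_eval l hl', P_eval l hl', fdat_gu, hs]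
  have e1 : dd (Ht (co n s)) (fun o => mid F W s o + u / 2 ^ (W + 1) * dirv F s o)
      (fv c g W r (ψH s) l) = dd (Ht (co n s)) (lu F W s u) (fv c g W r (ψH s) l) := rfl
  rw [e1, Pi.sub_apply, cv_sub]
  ring

/-- **The polynomials at two windows.** -/
theorem Ph_win {g g₁ : ℕ → ℕ} {W n w n₁ : ℕ} {ψH ψH₁ : LnT F → ℕ → Option (Fin m) → ℝ}
    {SV SE SG SV₁ SE₁ SG₁ : ℕ → ℝ}
    (hc : Set.InjOn c (Set.Iio r)) (hw : w ≤ W) (hW : W ≤ J) {ω ω₀ : F.Ω}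
    (hψ : ∀ s l, CvC c l (ψH s l)) (hψ₁ : ∀ s l, CvC c l (ψH₁ s l)) (hQ : ∀ s, DepC c r (Ht s))
    (hs : ψH (slam F W ω₀) = ψH (slam F W ω)) (hs₁ : ψH₁ (slam F w ω₀) = ψH₁ (slam F w ω))
    (ht : (slam F W ω).2.2 = (slam F W ω₀).2.2) (hn : n ≤ W) (hn₁ : n₁ ≤ w)
    (hnn : W - n = w - n₁) :
    ∃ u₀ : ℝ, |u₀| ≤ 1 ∧ Ph (fdat F c g W n r D ψH Ht hD SV SE SG) (slam F W ω) (slam F W ω₀) =
      (Ph (fdat F c g₁ w n₁ r D ψH₁ Ht hD SV₁ SE₁ SG₁) (slam F w ω) (slam F w ω₀)).comp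
        (Polynomial.C (1 / 2 ^ (W - w)) * Polynomial.X + Polynomial.C u₀) := by
  have hco : co n (slam F W ω) = co n₁ (slam F w ω) := by
    have h1 := Pool.D2R.co_slam F (w := W - n) (a := W) (by omega) hW ω
    have h2 := Pool.D2R.co_slam F (w := w - n₁) (a := w) (by omega) (hw.trans hW) ω
    have e1 : W - (W - n) = n := by omega
    have e2 : w - (w - n₁) = n₁ := by omega
    rw [e1] at h1
    rw [e2] at h2
    rw [h1, h2, hnn]
  have hcw : ∀ ν : F.Ω, co (W - w) (slam F W ν) = slam F w ν := fun ν =>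
    Pool.D2R.co_slam F hw hW ν
  have ht₁ : (slam F w ω).2.2 = (slam F w ω₀).2.2 := by
    rw [← hcw ω, ← hcw ω₀]
    show (slam F W ω).2.2 / 2 ^ (W - w) = (slam F W ω₀).2.2 / 2 ^ (W - w)
    rw [ht]
  obtain ⟨T, hT⟩ : ∃ T : ℕ, T = (slam F W ω).2.2 := ⟨_, rfl⟩
  have hTw : (slam F w ω).2.2 = T / 2 ^ (W - w) := by
    rw [← hcw ω, hT]
    rfl
  obtain ⟨u₀, hu₀⟩ : ∃ u : ℝ, u = 2 ^ (w + 1) * (((T : ℝ) + 1 / 2) / 2 ^ W -
      (((T / 2 ^ (W - w) : ℕ) : ℝ) + 1 / 2) / 2 ^ w) := ⟨_, rfl⟩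
  have hp : (2 : ℝ) ^ W = 2 ^ w * 2 ^ (W - w) := by
    rw [← pow_add]
    congr 1
    omega
  refine ⟨u₀, ?_, ?_⟩
  · have hdm := Nat.div_add_mod T (2 ^ (W - w))
    have hml : T % 2 ^ (W - w) < 2 ^ (W - w) := Nat.mod_lt _ (by positivity)
    obtain ⟨q, hq⟩ : ∃ q, q = T / 2 ^ (W - w) := ⟨_, rfl⟩
    obtain ⟨ρ, hρ⟩ : ∃ ρ, ρ = T % 2 ^ (W - w) := ⟨_, rfl⟩
    rw [← hq, ← hρ] at hdm
    rw [← hρ] at hml
    rw [← hq] at hu₀
    have h1 : (T : ℝ) = 2 ^ (W - w) * q + ρ := by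
      have : ((2 ^ (W - w) * q + ρ : ℕ) : ℝ) = (T : ℝ) := by exact_mod_cast hdm
      push_cast at this
      linarith
    have h2 : (ρ : ℝ) + 1 ≤ 2 ^ (W - w) := by
      have : ρ + 1 ≤ 2 ^ (W - w) := hml
      exact_mod_cast this
    have h3 : (0 : ℝ) ≤ ρ := Nat.cast_nonneg _
    have hp2 : (0 : ℝ) < 2 ^ (W - w) := by positivity
    have e1 : u₀ = (2 * ρ + 1) / 2 ^ (W - w) - 1 := by
      rw [hu₀, hp, h1, pow_succ]
      field_simp
      ring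
    rw [e1, abs_le]
    constructor
    · have : 0 ≤ (2 * (ρ : ℝ) + 1) / 2 ^ (W - w) := by positivity
      linarith
    · have : (2 * (ρ : ℝ) + 1) / 2 ^ (W - w) ≤ 2 := by
        rw [div_le_iff₀ hp2]
        linarith
      linarith
  · refine Polynomial.funext fun u => ?_
    rw [Ph_eval hc (hψ _) (hQ _) hs ht, Polynomial.eval_comp, Polynomial.eval_add,
      Polynomial.eval_mul, Polynomial.eval_C, Polynomial.eval_X, Polynomial.eval_C,
      Ph_eval hc (hψ₁ _) (hQ _) hs₁ ht₁, hco]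
    have e0 : ∀ ν : F.Ω, (slam F W ν).2.2 = T → (slam F w ν).2.2 = T / 2 ^ (W - w) →
        lu F W (slam F W ν) u = lu F w (slam F w ν) (1 / 2 ^ (W - w) * u + u₀) := by
      intro ν h1 h2
      refine lu_eq (F := F) (W := W) (w := w) (s := slam F W ν) (s' := slam F w ν) rfl ?_
      rw [lu_none, lu_none, h1, h2, hu₀, hp, pow_succ, pow_succ]
      field_simp
      rw [hp]
      field_simp
      ring
    rw [e0 ω hT.symm hTw, e0 ω₀ (by rw [← ht, ← hT]) (by rw [← ht₁, hTw])]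

/-- **The numbers at two windows.** -/
theorem nw_win {g g₁ : ℕ → ℕ} {W n w n₁ : ℕ} {ψH ψH₁ : LnT F → ℕ → Option (Fin m) → ℝ}
    {SV SE SG SV₁ SE₁ SG₁ : ℕ → ℝ}
    (hc : Set.InjOn c (Set.Iio r)) (hw : w ≤ W) (hW : W ≤ J) {ω ω₀ : F.Ω}
    (hψ : ∀ s l, CvC c l (ψH s l)) (hψ₁ : ∀ s l, CvC c l (ψH₁ s l)) (hQ : ∀ s, DepC c r (Ht s))
    (hs : ψH (slam F W ω₀) = ψH (slam F W ω)) (hs₁ : ψH₁ (slam F w ω₀) = ψH₁ (slam F w ω))
    (ht : (slam F W ω).2.2 = (slam F W ω₀).2.2) (hn : n ≤ W) (hn₁ : n₁ ≤ w)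
    (hnn : W - n = w - n₁) {M : ℝ}
    (hM : ∀ j, 3 ≤ j → |(Ph (fdat F c g₁ w n₁ r D ψH₁ Ht hD SV₁ SE₁ SG₁) (slam F w ω)
      (slam F w ω₀)).coeff j| ≤ M) :
    |2 ^ (2 * (W - w)) * nw (fdat F c g W n r D ψH Ht hD SV SE SG) W
        (fun l => (fdat F c g W n r D ψH Ht hD SV SE SG).P l (slam F W ω₀)) ω -
      nw (fdat F c g₁ w n₁ r D ψH₁ Ht hD SV₁ SE₁ SG₁) w
        (fun l => (fdat F c g₁ w n₁ r D ψH₁ Ht hD SV₁ SE₁ SG₁).P l (slam F w ω₀)) ω| ≤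
      (D + 1) * ((D + 3) ^ 2 * M) := by
  obtain ⟨u₀, h1, h2⟩ := Ph_win (g := g) (g₁ := g₁) (hD := hD) (SV := SV) (SE := SE) (SG := SG)
    (SV₁ := SV₁) (SE₁ := SE₁) (SG₁ := SG₁) hc hw hW hψ hψ₁ hQ hs hs₁ ht hn hn₁ hnn
  have h3 := coeff_two_win (Ph_deg (fdat F c g₁ w n₁ r D ψH₁ Ht hD SV₁ SE₁ SG₁) (slam F w ω)
    (slam F w ω₀)) (b := 1 / 2 ^ (W - w)) h1 hM
  rw [nw_eq, nw_eq, h2]
  rw [← h2] at h3 ⊢
  have hp : (0 : ℝ) < 2 ^ (W - w) := by positivity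
  have e1 : (2 : ℝ) ^ (2 * (W - w)) = (2 ^ (W - w)) ^ 2 := by rw [← pow_mul, mul_comm]
  have e2 : ∀ a b : ℝ, (2 : ℝ) ^ (2 * (W - w)) * a - b =
      (2 ^ (W - w)) ^ 2 * (a - (1 / 2 ^ (W - w)) ^ 2 * b) := by
    intro a b
    rw [e1]
    field_simp
  rw [e2, abs_mul, abs_of_pos (by positivity)]
  refine (mul_le_mul_of_nonneg_left h3 (by positivity)).trans (le_of_eq ?_)
  push_cast
  field_simp
  ring

/-- Coarser cells are few. -/
theorem CH_coarse {Ω T : Type} [Fintype Ω] {p : Ω → ℝ} (hp : IsLaw p) (x : Ω → ℝ) (Z : Ω → T)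
    {n₁ n₂ : ℕ} (h : n₁ ≤ n₂) : CH p (fun ω => ⌊2 ^ n₁ * x ω⌋) Z ≤
      CH p (fun ω => ⌊2 ^ n₂ * x ω⌋) Z := by
  refine CH_mono_left hp.nonneg fun ω ω' _ _ h' => ?_
  have e : ∀ ν : Ω, ⌊(2 : ℝ) ^ n₁ * x ν⌋ = ⌊(2 : ℝ) ^ n₂ * x ν⌋ / ((2 ^ (n₂ - n₁) : ℕ) : ℤ) := by
    intro ν
    rw [← Int.floor_div_natCast]
    congr 1
    have e1 : (2 : ℝ) ^ n₂ = 2 ^ n₁ * 2 ^ (n₂ - n₁) := by
      rw [← pow_add]
      congr 1
      omega
    push_cast
    rw [e1]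
    field_simp
  show ⌊(2 : ℝ) ^ n₁ * x ω⌋ = ⌊(2 : ℝ) ^ n₁ * x ω'⌋
  rw [e, e]
  exact congrArg (· / ((2 ^ (n₂ - n₁) : ℕ) : ℤ)) (Prod.ext_iff.mp h').1

/-- **Few at the shorter window.** -/
theorem few_win {g g₁ : ℕ → ℕ} {W n w n₁ : ℕ} {ψH ψH₁ : LnT F → ℕ → Option (Fin m) → ℝ}
    {SV SE SG SV₁ SE₁ SG₁ : ℕ → ℝ}
    (hc : Set.InjOn c (Set.Iio r)) (hw : w ≤ W) (hW : W ≤ J)
    (hψ : ∀ s l, CvC c l (ψH s l)) (hψ₁ : ∀ s l, CvC c l (ψH₁ s l)) (hQ : ∀ s, DepC c r (Ht s))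
    (hn : n ≤ W) (hn₁ : n₁ ≤ w) (hnn : W - n = w - n₁) {p : F.Ω → ℝ} (hp : IsLaw p)
    {ζ ε : Type} {z : F.Ω → ζ} {e : F.Ω → ε} {n₂ n₃ N : ℕ} {M : ℝ}
    (hz : ∀ ω ω₀, 0 < p ω → 0 < p ω₀ → z ω = z ω₀ → e ω = e ω₀ →
      ψH (slam F W ω₀) = ψH (slam F W ω) ∧ ψH₁ (slam F w ω₀) = ψH₁ (slam F w ω) ∧
      (slam F W ω).2.2 = (slam F W ω₀).2.2 ∧
      ∀ j, 3 ≤ j → |(Ph (fdat F c g₁ w n₁ r D ψH₁ Ht hD SV₁ SE₁ SG₁) (slam F w ω)
        (slam F w ω₀)).coeff j| ≤ M)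
    (hN : 2 ^ n₂ * ((D + 1) * ((D + 3) ^ 2 * M)) ≤ N) (h3 : n₃ ≤ n₂ + 2 * (W - w)) {e1 : ℝ}
    (few : CH p (fun ω => ⌊2 ^ n₂ * nw (fdat F c g₁ w n₁ r D ψH₁ Ht hD SV₁ SE₁ SG₁) w
      (rfv p z e (fun ω l => (fdat F c g₁ w n₁ r D ψH₁ Ht hD SV₁ SE₁ SG₁).P l (slam F w ω))
        (z ω) (e ω)) ω⌋) (fun ω => (e ω, z ω)) ≤ e1) :
    CH p (fun ω => ⌊2 ^ n₃ * nw (fdat F c g W n r D ψH Ht hD SV SE SG) W
      (rfv p z e (fun ω l => (fdat F c g W n r D ψH Ht hD SV SE SG).P l (slam F W ω))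
        (z ω) (e ω)) ω⌋) (fun ω => (e ω, z ω)) ≤
      e1 + Real.log (2 * (2 * N + 2 : ℕ) + 1) := by
  classical
  refine (CH_coarse hp _ _ h3).trans ?_
  have h1 := CH_near hp (fun ω => 2 ^ (n₂ + 2 * (W - w)) *
      nw (fdat F c g W n r D ψH Ht hD SV SE SG) W
      (rfv p z e (fun ω l => (fdat F c g W n r D ψH Ht hD SV SE SG).P l (slam F W ω))
        (z ω) (e ω)) ω)
    (fun ω => 2 ^ n₂ * nw (fdat F c g₁ w n₁ r D ψH₁ Ht hD SV₁ SE₁ SG₁) w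
      (rfv p z e (fun ω l => (fdat F c g₁ w n₁ r D ψH₁ Ht hD SV₁ SE₁ SG₁).P l (slam F w ω))
        (z ω) (e ω)) ω) (fun ω => (e ω, z ω)) (fun _ => 0) (K := N) ?_
  · linarith
  · intro ω hω
    have h : ∃ ω', 0 < p ω' ∧ z ω' = z ω ∧ e ω' = e ω := ⟨ω, hω, rfl, rfl⟩
    obtain ⟨a1, a2, a3, a4⟩ := hz ω h.choose hω h.choose_spec.1 h.choose_spec.2.1.symm
      h.choose_spec.2.2.symm
    have key := nw_win (g := g) (g₁ := g₁) (hD := hD) (SV := SV) (SE := SE) (SG := SG)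
      (SV₁ := SV₁) (SE₁ := SE₁) (SG₁ := SG₁) hc hw hW hψ hψ₁ hQ a1 a2 a3 hn hn₁ hnn a4
    have e1 : rfv p z e (fun ω l => (fdat F c g W n r D ψH Ht hD SV SE SG).P l (slam F W ω))
        (z ω) (e ω) = fun l => (fdat F c g W n r D ψH Ht hD SV SE SG).P l
          (slam F W h.choose) := by
      unfold rfv
      rw [dif_pos h]
    have e2 : rfv p z e (fun ω l => (fdat F c g₁ w n₁ r D ψH₁ Ht hD SV₁ SE₁ SG₁).P l
        (slam F w ω)) (z ω) (e ω) = fun l => (fdat F c g₁ w n₁ r D ψH₁ Ht hD SV₁ SE₁ SG₁).P l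
          (slam F w h.choose) := by
      unfold rfv
      rw [dif_pos h]
    rw [e1, e2, add_zero, pow_add, mul_assoc, ← mul_sub, abs_mul,
      abs_of_pos (by positivity : (0 : ℝ) < 2 ^ n₂)]
    exact (mul_le_mul_of_nonneg_left key (by positivity)).trans hN

end Pool.D2N
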