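import Pool.Agent.H90.D2.Hcl
import Pool.Agent.H90.D2.Wab
import Pool.Agent.H88.D2.Rcv
import Pool.Agent.H28.D2.Gbw

/-!
# The gradients of the label at two windows

`gq_win`: the gradients of the label along the own line in the frame of a window from those in the
frame of a longer window. `gq_big`: their coefficients.
-/

set_option autoImplicit false

namespace Pool.D2N

open Finset Real MvPolynomial
open Pool.Agent.H49.Ent Pool.Agent.H32.Dense Pool.STK Pool.KA Pool.KSAT Pool.K2S Pool.PB Pool.S6C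
open Pool.GEN Pool.CHT Pool.CHX Pool.LA91
open Pool.D2F Pool.D2Z Pool.D2F2
open Pool.D2R (dd hs co)
open Pool.OWN68 (opl tw uw mid dirv natDegree_opl opl_jet uw_abs)

variable {m J : ℕ}

/-- The coefficients after a change of the window. -/
theorem coeff_win {P : Polynomial ℝ} {N : ℕ} (hP : P.natDegree ≤ N) {u b M : ℝ} (hu : |u| ≤ 1)
    (j : ℕ) (hM : ∀ i, j ≤ i → |P.coeff i| ≤ M) :
    |(P.comp (Polynomial.C b * Polynomial.X + Polynomial.C u)).coeff j| ≤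
      |b| ^ j * ((N + 1) * (2 ^ N * M)) := by
  have e1 : P.comp (Polynomial.C b * Polynomial.X + Polynomial.C u) =
      (Polynomial.taylor u P).comp (Polynomial.C b * Polynomial.X) := by
    rw [Polynomial.taylor_apply, Polynomial.comp_assoc]
    congr 1
    simp
  have hM0 : 0 ≤ M := (abs_nonneg _).trans (hM j le_rfl)
  rw [e1, Polynomial.comp_C_mul_X_coeff, Polynomial.taylor_coeff, abs_mul, abs_pow, mul_comm]
  refine mul_le_mul_of_nonneg_left ?_ (by positivity)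
  have e2 : (Polynomial.eval u (Polynomial.hasseDeriv j P)) =
      ∑ k ∈ range (N + 1), (Polynomial.hasseDeriv j P).coeff k * u ^ k := by
    refine Polynomial.eval_eq_sum_range' ?_ u
    exact Nat.lt_succ_of_le ((Polynomial.natDegree_hasseDeriv_le P j).trans (by omega))
  rw [e2]
  have h1 : ∀ k ∈ range (N + 1), |(Polynomial.hasseDeriv j P).coeff k * u ^ k| ≤ 2 ^ N * M := by
    intro k hk
    rw [Polynomial.hasseDeriv_coeff, abs_mul, abs_mul, abs_pow, Nat.abs_cast]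
    have h2 : |u| ^ k ≤ 1 := pow_le_one₀ (abs_nonneg _) hu
    rcases Nat.lt_or_ge N (k + j) with h3 | h3
    · rw [Polynomial.coeff_eq_zero_of_natDegree_lt (hP.trans_lt h3), abs_zero, mul_zero, zero_mul]
      positivity
    · have h4 : ((k + j).choose j : ℝ) ≤ 2 ^ N := by
        have h5 : (k + j).choose j ≤ 2 ^ (k + j) := Nat.choose_le_two_pow _ _
        have h6 : 2 ^ (k + j) ≤ 2 ^ N := Nat.pow_le_pow_right (by norm_num) h3
        exact_mod_cast h5.trans h6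
      calc ((k + j).choose j : ℝ) * |P.coeff (k + j)| * |u| ^ k ≤ (2 ^ N * M) * 1 :=
          mul_le_mul (mul_le_mul h4 (hM _ (by omega)) (abs_nonneg _) (by positivity)) h2
            (by positivity) (by positivity)
        _ = 2 ^ N * M := mul_one _
  refine (Finset.abs_sum_le_sum_abs _ _).trans ((Finset.sum_le_sum h1).trans (le_of_eq ?_))
  rw [Finset.sum_const, Finset.card_range, nsmul_eq_mul]
  push_cast
  ring

/-! ### The line at two windows -/

/-- The place of a window in a longer one. -/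
noncomputable def u0 (W w T : ℕ) : ℝ := 2 ^ (w + 1) * (((T : ℝ) + 1 / 2) / 2 ^ W -
  (((T / 2 ^ (W - w) : ℕ) : ℝ) + 1 / 2) / 2 ^ w)

theorem u0_abs {W w : ℕ} (hw : w ≤ W) (T : ℕ) : |u0 W w T| ≤ 1 := by
  have hp : (2 : ℝ) ^ W = 2 ^ w * 2 ^ (W - w) := by
    rw [← pow_add]
    congr 1
    omega
  have hdm := Nat.div_add_mod T (2 ^ (W - w))
  have hml : T % 2 ^ (W - w) < 2 ^ (W - w) := Nat.mod_lt _ (by positivity)
  unfold u0
  obtain ⟨q, hq⟩ : ∃ q, q = T / 2 ^ (W - w) := ⟨_, rfl⟩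
  obtain ⟨ρ, hρ⟩ : ∃ ρ, ρ = T % 2 ^ (W - w) := ⟨_, rfl⟩
  rw [← hq, ← hρ] at hdm
  rw [← hρ] at hml
  rw [← hq]
  have h1 : (T : ℝ) = 2 ^ (W - w) * q + ρ := by
    have : ((2 ^ (W - w) * q + ρ : ℕ) : ℝ) = (T : ℝ) := by exact_mod_cast hdm
    push_cast at this
    linarith
  have h2 : (ρ : ℝ) + 1 ≤ 2 ^ (W - w) := by
    have : ρ + 1 ≤ 2 ^ (W - w) := hml
    exact_mod_cast this
  have h3 : (0 : ℝ) ≤ ρ := Nat.cast_nonneg _
  have hp2 : (0 : ℝ) < 2 ^ (W - w) := by positivity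
  have e1 : (2 : ℝ) ^ (w + 1) * (((T : ℝ) + 1 / 2) / 2 ^ W - ((q : ℝ) + 1 / 2) / 2 ^ w) =
      (2 * ρ + 1) / 2 ^ (W - w) - 1 := by
    rw [hp, h1, pow_succ]
    field_simp
    ring
  rw [e1, abs_le]
  constructor
  · have : 0 ≤ (2 * (ρ : ℝ) + 1) / 2 ^ (W - w) := by positivity
    linarith
  · have : (2 * (ρ : ℝ) + 1) / 2 ^ (W - w) ≤ 2 := by
      rw [div_le_iff₀ hp2]
      linarith
    linarith

/-- **The own line at two windows.** -/
theorem lu_win {F : Fam m J} {W n w n₁ : ℕ} (hw : w ≤ W) (hW : W ≤ J) (ω : F.Ω) (hn : n ≤ W)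
    (hn₁ : n₁ ≤ w) (hnn : W - n = w - n₁) :
    co n (slam F W ω) = co n₁ (slam F w ω) ∧ ∀ u : ℝ, lu F W (slam F W ω) u =
      lu F w (slam F w ω) (1 / 2 ^ (W - w) * u + u0 W w (slam F W ω).2.2) := by
  have hco : co n (slam F W ω) = co n₁ (slam F w ω) := by
    have h1 := Pool.D2R.co_slam F (w := W - n) (a := W) (by omega) hW ω
    have h2 := Pool.D2R.co_slam F (w := w - n₁) (a := w) (by omega) (hw.trans hW) ω
    have e1 : W - (W - n) = n := by omega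
    have e2 : w - (w - n₁) = n₁ := by omega
    rw [e1] at h1
    rw [e2] at h2
    rw [h1, h2, hnn]
  refine ⟨hco, fun u => ?_⟩
  have hcw : co (W - w) (slam F W ω) = slam F w ω := Pool.D2R.co_slam F hw hW ω
  obtain ⟨T, hT⟩ : ∃ T : ℕ, T = (slam F W ω).2.2 := ⟨_, rfl⟩
  have hTw : (slam F w ω).2.2 = T / 2 ^ (W - w) := by
    rw [← hcw, hT]
    rfl
  have hp : (2 : ℝ) ^ W = 2 ^ w * 2 ^ (W - w) := by
    rw [← pow_add]
    congr 1
    omega
  rw [← hT]
  refine lu_eq (F := F) (W := W) (w := w) (s := slam F W ω) (s' := slam F w ω) rfl ?_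
  rw [lu_none, lu_none, ← hT, hTw]
  unfold u0
  rw [hp, pow_succ, pow_succ]
  field_simp
  rw [hp]
  field_simp
  ring

/-! ### The gradients at two windows -/

/-- The gradient at a parameter. -/
theorem gq_eval {F : Fam m J} {c : ℕ → Fin m} {g : ℕ → ℕ} {W n : ℕ}
    {ψH : LnT F → ℕ → Option (Fin m) → ℝ} {Ht : LnT F → MvPolynomial (Option (Fin m)) ℝ}
    (s : LnT F) (l : ℕ) (u : ℝ) : (gq F c g W n ψH Ht s l).eval u =
      dd (Ht (co n s)) (lu F W s u) (fv c g W 3 (ψH s) l) := by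
  unfold gq opl
  rw [Polynomial.eval_comp, Polynomial.eval_mul, Polynomial.eval_C, Polynomial.eval_X,
    Pool.LA91.eval_alp, eval_gpo]
  congr 1
  funext o
  unfold lu
  ring

/-- The components of a frame vector in another frame. -/
noncomputable def kap (c : ℕ → Fin m) (g : ℕ → ℕ) (W : ℕ) (χ χ₁ : ℕ → Option (Fin m) → ℝ)
    (l i : ℕ) : ℝ := fv c g W 3 χ l (some (c i)) - cv (χ₁ i) (fv c g W 3 χ l)

/-- **The gradients at two windows.** -/
theorem gq_win {F : Fam m J} {c : ℕ → Fin m} {g g₁ : ℕ → ℕ} {W n w n₁ : ℕ}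
    {ψH ψH₁ : LnT F → ℕ → Option (Fin m) → ℝ} {Ht : LnT F → MvPolynomial (Option (Fin m)) ℝ}
    (hc : Set.InjOn c (Set.Iio 3)) (hw : w ≤ W) (hW : W ≤ J) {ω : F.Ω}
    (hψ₁ : ∀ l, CvC c l (ψH₁ (slam F w ω) l)) (hQ : ∀ s, DepC c 3 (Ht s))
    (hn : n ≤ W) (hn₁ : n₁ ≤ w) (hnn : W - n = w - n₁) (l : ℕ) :
    gq F c g W n ψH Ht (slam F W ω) l = ∑ i ∈ range 3,
      Polynomial.C (kap c g W (ψH (slam F W ω)) (ψH₁ (slam F w ω)) l i) *
        (gq F c g₁ w n₁ ψH₁ Ht (slam F w ω) i).comp (Polynomial.C (1 / 2 ^ (W - w)) *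
          Polynomial.X + Polynomial.C (u0 W w (slam F W ω).2.2)) := by
  obtain ⟨h1, h2⟩ := lu_win (F := F) (n := n) (n₁ := n₁) hw hW ω hn hn₁ hnn
  refine Polynomial.funext fun u => ?_
  rw [gq_eval, Polynomial.eval_finsetSum, h1, h2 u,
    dd_fv hc g₁ w hψ₁ (hQ _) _ (fv_none c g W 3 (ψH (slam F W ω)) l)]
  refine Finset.sum_congr rfl fun i _ => ?_
  rw [Polynomial.eval_mul, Polynomial.eval_C, Polynomial.eval_comp, Polynomial.eval_add,
    Polynomial.eval_mul, Polynomial.eval_C, Polynomial.eval_X, Polynomial.eval_C, gq_eval]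
  unfold kap
  ring

/-- The size of the components. -/
theorem kap_le {c : ℕ → Fin m} {g g₁ : ℕ → ℕ} {W w : ℕ} {χ χ₁ : ℕ → Option (Fin m) → ℝ} {K : ℝ}
    (hc : Set.InjOn c (Set.Iio 3)) (hχ : ∀ l, CvC c l (χ l)) (hK : 0 ≤ K)
    (hN : Nc c g₁ w 3 K χ₁ χ) {l i : ℕ} (hl : l < 3) (hi : i < 3) :
    2 ^ g₁ i * |kap c g W χ χ₁ l i| ≤ (1 + K) ^ 3 * 2 ^ g₁ l := by
  have h1 : en c g₁ w χ 3 (fv c g W 3 χ l) = 2 ^ g₁ l := by
    unfold en
    rw [Finset.sum_eq_single (l + 1)]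
    · simp only [eta]
      rw [fv_comp hc g W hχ l hl, if_pos rfl, mul_one, abs_of_pos (by positivity)]
    · intro j hj hjl
      have hj' := Finset.mem_range.1 hj
      cases j with
      | zero =>
        simp only [eta]
        rw [fv_none, mul_zero, abs_zero]
      | succ j =>
        simp only [eta]
        rw [fv_comp hc g W hχ l (by omega), if_neg (by omega), mul_zero, abs_zero]
    · intro h
      exact absurd (Finset.mem_range.2 (by omega)) h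
  have h2 := hN.en_ge hK (le_refl 3) (fv c g W 3 χ l)
  have h3 : |eta c g₁ w χ₁ (fv c g W 3 χ l) (i + 1)| ≤ en c g₁ w χ₁ 3 (fv c g W 3 χ l) := by
    unfold en
    exact Finset.single_le_sum (f := fun j => |eta c g₁ w χ₁ (fv c g W 3 χ l) j|)
      (fun j _ => abs_nonneg _) (Finset.mem_range.2 (by omega))
  have h4 : |eta c g₁ w χ₁ (fv c g W 3 χ l) (i + 1)| = 2 ^ g₁ i * |kap c g W χ χ₁ l i| := by
    simp only [eta]
    rw [abs_mul, abs_of_pos (by positivity)]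
    rfl
  rw [← h4]
  rw [h1] at h2
  exact h3.trans h2

/-- **The coefficients of the gradients at a shorter window.** -/
theorem gq_coeff {F : Fam m J} {c : ℕ → Fin m} {g g₁ : ℕ → ℕ} {W n w n₁ D : ℕ}
    {ψH ψH₁ : LnT F → ℕ → Option (Fin m) → ℝ} {Ht : LnT F → MvPolynomial (Option (Fin m)) ℝ}
    (hc : Set.InjOn c (Set.Iio 3)) (hw : w ≤ W) (hW : W ≤ J) {ω : F.Ω}
    (hψ : ∀ l, CvC c l (ψH (slam F W ω) l))
    (hψ₁ : ∀ l, CvC c l (ψH₁ (slam F w ω) l)) (hQ : ∀ s, DepC c 3 (Ht s))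
    (hdeg : ∀ s, (Ht s).totalDegree ≤ D)
    (hn : n ≤ W) (hn₁ : n₁ ≤ w) (hnn : W - n = w - n₁) {K M : ℝ} (hK : 0 ≤ K)
    (hN : Nc c g₁ w 3 K (ψH₁ (slam F w ω)) (ψH (slam F W ω)))
    (hM : ∀ i < 3, ∀ j, |(gq F c g₁ w n₁ ψH₁ Ht (slam F w ω) i).coeff (j + 1)| ≤ M * 2 ^ g₁ i)
    {l : ℕ} (hl : l < 3) (j : ℕ) :
    |(gq F c g W n ψH Ht (slam F W ω) l).coeff (j + 1)| ≤
      3 * ((D + 1) * 2 ^ D * (1 + K) ^ 3) * M * (2 ^ g₁ l / 2 ^ ((j + 1) * (W - w))) := by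
  rw [gq_win (g₁ := g₁) (ψH₁ := ψH₁) hc hw hW hψ₁ hQ hn hn₁ hnn l, Polynomial.finsetSum_coeff]
  have h1 : ∀ i ∈ range 3, |(Polynomial.C (kap c g W (ψH (slam F W ω)) (ψH₁ (slam F w ω)) l i) *
        (gq F c g₁ w n₁ ψH₁ Ht (slam F w ω) i).comp (Polynomial.C (1 / 2 ^ (W - w)) *
          Polynomial.X + Polynomial.C (u0 W w (slam F W ω).2.2))).coeff (j + 1)| ≤
      ((D + 1) * 2 ^ D * (1 + K) ^ 3) * M * (2 ^ g₁ l / 2 ^ ((j + 1) * (W - w))) := by
    intro i hi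
    have hi' := Finset.mem_range.1 hi
    have hdi : (gq F c g₁ w n₁ ψH₁ Ht (slam F w ω) i).natDegree ≤ D :=
      natDegree_opl F w (deg_gpo c g₁ w 3 (ψH₁ (slam F w ω)) (hdeg _) i) _
    have h2 := coeff_win hdi (u0_abs hw (slam F W ω).2.2) (b := 1 / 2 ^ (W - w)) (j + 1)
      (M := M * 2 ^ g₁ i) (fun x hx => by
        obtain ⟨y, rfl⟩ : ∃ y, x = y + 1 := ⟨x - 1, by omega⟩
        exact hM i hi' y)
    have h3 := kap_le (W := W) (g := g) hc hψ hK hN hl hi'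
    rw [Polynomial.coeff_C_mul, abs_mul]
    have hp : (0 : ℝ) < 1 / 2 ^ (W - w) := by positivity
    rw [abs_of_pos hp] at h2
    have e1 : ((1 : ℝ) / 2 ^ (W - w)) ^ (j + 1) = 1 / 2 ^ ((j + 1) * (W - w)) := by
      rw [div_pow, one_pow, ← pow_mul, mul_comm]
    rw [e1] at h2
    have hM0 : 0 ≤ M := by
      have := (abs_nonneg _).trans (hM i hi' j)
      exact nonneg_of_mul_nonneg_left this (by positivity)
    calc |kap c g W (ψH (slam F W ω)) (ψH₁ (slam F w ω)) l i| *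
          |((gq F c g₁ w n₁ ψH₁ Ht (slam F w ω) i).comp (Polynomial.C (1 / 2 ^ (W - w)) *
            Polynomial.X + Polynomial.C (u0 W w (slam F W ω).2.2))).coeff (j + 1)| ≤
        |kap c g W (ψH (slam F W ω)) (ψH₁ (slam F w ω)) l i| *
          (1 / 2 ^ ((j + 1) * (W - w)) * ((D + 1) * (2 ^ D * (M * 2 ^ g₁ i)))) :=
          mul_le_mul_of_nonneg_left h2 (abs_nonneg _)
      _ = (2 ^ g₁ i * |kap c g W (ψH (slam F W ω)) (ψH₁ (slam F w ω)) l i|) *
          (1 / 2 ^ ((j + 1) * (W - w)) * ((D + 1) * 2 ^ D * M)) := by ring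
      _ ≤ ((1 + K) ^ 3 * 2 ^ g₁ l) * (1 / 2 ^ ((j + 1) * (W - w)) * ((D + 1) * 2 ^ D * M)) :=
          mul_le_mul_of_nonneg_right h3 (by positivity)
      _ = _ := by ring
  refine (Finset.abs_sum_le_sum_abs _ _).trans ((Finset.sum_le_sum h1).trans (le_of_eq ?_))
  rw [Finset.sum_const, Finset.card_range, nsmul_eq_mul]
  push_cast
  ring

end Pool.D2N
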