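import Pool.Agent.H90.D2.Hgb
import Pool.Agent.H64.F5.All

/-!
# The deep windows of `Wins`

`dpw_of`: the structure `Dpw` at a window of `Wins`, for the label closed on a longer window.
-/

set_option autoImplicit false

namespace Pool.D2N

open Finset Real MvPolynomial
open Pool.Agent.H49.Ent Pool.Agent.H32.Dense Pool.STK Pool.KA Pool.KSAT Pool.K2S Pool.PB Pool.S6C
open Pool.GEN Pool.CHT Pool.CHX Pool.LA91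
open Pool.D2F Pool.D2Z Pool.D2F2
open Pool.D2R (dd hs co nrm nrm_nonneg ROut1 Wins)
open Pool.OWN68 (opl tw uw mid dirv natDegree_opl opl_jet uw_abs)
open Pool.F5 (NatH)

variable {m J : ℕ} {F : Fam m J} {c : ℕ → Fin m} {D Dr N M : ℕ} {R : ℕ → Prop}
    {C₀ a Eb ηm : ℝ} {o ε p' η σ : ℕ → ℝ} {lv be b : ℕ → ℕ → ℝ} {κ : ℝ} {z : ℕ → ℕ → ℕ}
    {B : F.Ω → Prop} {gc gT g₀ : ℕ → ℕ → ℕ}
    {G : ℕ → PtT F → ℕ → MvPolynomial (Option (Fin m)) ℝ}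
    {H : ℕ → LnT F → ℕ → MvPolynomial (Option (Fin m)) ℝ}
    {T : ℕ → PtT F → ℕ → MvPolynomial (Option (Fin m)) ℝ}
    {TH : ℕ → LnT F → ℕ → MvPolynomial (Option (Fin m)) ℝ}
    {Gt : ℕ → PtT F → MvPolynomial (Option (Fin m)) ℝ}
    {Ht : ℕ → LnT F → MvPolynomial (Option (Fin m)) ℝ}
    {Sv : PtT F → ℕ → Option (Fin m) → ℝ} {B₁ : F.Ω → Prop}

/-- **A deep window of `Wins`.** -/
theorem dpw_of (W : Wins F c 3 D Dr N M R C₀ a Eb ηm o ε p' η σ lv be b κ z B gc gT g₀ G H T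
    TH Gt Ht) {k₀ k Y X : ℕ} (hk₀ : k₀ ≤ N) (hk : k ≤ N) (hoo : o k₀ ≤ o k) (hR : ∀ l < 3, R l)
    (hkJ : ⌊o k * J⌋₊ ≤ J) (hY : C₀ * (ηm * J) ≤ Y) (hX : 4 * Y + 2 ≤ X)
    (hp : lv k 3 * J + ((⌊a * J⌋₊ : ℝ) - ⌊o k * J⌋₊) ≤ p' k₀ * J + Y) (hlv : 2 * Y ≤ lv k 3 * J)
    (hB₁ : Sub B₁ B) (hSd : ∀ y l, CvC c l (Sv y l))
    (hS : ∀ ω, B₁ ω → Nc c (g₀ k) ⌊o k * J⌋₊ 4 (2 ^ Y) (Sv (ptr F J ω))
      (fun l => grd (G k (ptr F J ω) l) (bt F ω)))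
    (hN : ∀ l ≤ 3, NatH F c ⌊o k * J⌋₊ (g₀ k) B₁ (G k) X l) :
    ∃ p, Dpw F c D ⌊o k₀ * J⌋₊ ⌊o k * J⌋₊ (⌊a * J⌋₊ - ⌊o k * J⌋₊) (⌊a * J⌋₊ - ⌊o k * J⌋₊ + Y)
      ⌊(Eb + 2 * ηm) * J⌋₊ X p (g₀ k) (gT k) (2 ^ ⌊C₀ * (η k * J)⌋₊) B₁ (G k) (H k) (T k) (TH k)
      (Ht k₀) Sv := by
  have hJ : (0 : ℝ) ≤ J := Nat.cast_nonneg J
  have hC1 := W.C1
  have hC0 : 0 ≤ C₀ := by linarith
  obtain ⟨hη0, hηm⟩ := W.hη k hk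
  have hηm0 : 0 ≤ ηm := hη0.trans hηm
  have hηk : C₀ * (η k * J) ≤ Y := le_trans (mul_le_mul_of_nonneg_left
    (mul_le_mul_of_nonneg_right hηm hJ) hC0) hY
  have hηk0 : 0 ≤ C₀ * (η k * J) := mul_nonneg hC0 (mul_nonneg hη0 hJ)
  have hηmY : ηm * J ≤ Y := (le_mul_of_one_le_left (mul_nonneg hηm0 hJ) hC1).trans hY
  have hfl : ⌊o k * J⌋₊ ≤ ⌊a * J⌋₊ := Nat.floor_le_floor (mul_le_mul_of_nonneg_right
    (W.ho k hk).2 hJ)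
  have hv : ((⌊a * J⌋₊ - ⌊o k * J⌋₊ : ℕ) : ℝ) = (⌊a * J⌋₊ : ℝ) - ⌊o k * J⌋₊ := Nat.cast_sub hfl
  obtain ⟨-, -, n1, n2, n3, n4⟩ := W.g_num hk (le_refl 3)
  have hgr := W.hgr k hk
  have hv0 : (0 : ℝ) ≤ (⌊a * J⌋₊ : ℝ) - ⌊o k * J⌋₊ := by
    rw [← hv]
    exact Nat.cast_nonneg _
  obtain ⟨μ, hμ⟩ : ∃ μ : ℝ, μ = min (p' k₀ * J) (gc k 3) - C₀ * (η k * J) := ⟨_, rfl⟩
  have hμ0 : 0 ≤ μ := by
    rw [hμ, sub_nonneg]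
    refine le_min ?_ hgr
    linarith
  have hμ1 : μ + C₀ * (η k * J) ≤ p' k₀ * J := by
    rw [hμ]
    linarith [min_le_left (p' k₀ * (J : ℝ)) (gc k 3)]
  have hμ2 : μ + C₀ * (η k * J) ≤ gc k 3 := by
    rw [hμ]
    linarith [min_le_right (p' k₀ * (J : ℝ)) (gc k 3)]
  have hμ3 : lv k 3 * J + ((⌊a * J⌋₊ : ℝ) - ⌊o k * J⌋₊) - 2 * Y ≤ μ := by
    have : lv k 3 * J + ((⌊a * J⌋₊ : ℝ) - ⌊o k * J⌋₊) - Y ≤ min (p' k₀ * J) (gc k 3) :=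
      le_min (by linarith) (by linarith)
    rw [hμ]
    linarith
  have f1 := Nat.floor_le hμ0
  have f2 := (Nat.lt_floor_add_one μ).le
  refine ⟨⌊μ⌋₊, hkJ, ?_, ?_, by positivity, ?_, Nat.le_add_right _ _, fun l hl => ?_,
    fun s l hl => ((W.evs k hk).rgh l hl (hR l hl)).2.2 s, ?_, hSd, fun ω hω => ?_, hN⟩
  · exact ((W.evs k hk).ball.mono le_rfl (fun _ => le_rfl) le_rfl
      (Nat.floor_le_floor (mul_le_mul_of_nonneg_right (by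
        have h2 := (W.hσ k hk).2
        linarith) hJ))).sub hB₁
  · exact (W.row k₀ hk₀ k hk hoo ⌊μ⌋₊ (by linarith) (by linarith)).sub hB₁
  · refine two_le ?_
    have h3 : (⌊C₀ * (η k * J)⌋₊ : ℝ) ≤ (X : ℕ) := by
      have h4 : ((4 * Y + 2 : ℕ) : ℝ) ≤ X := by exact_mod_cast hX
      push_cast at h4
      have h5 : (0 : ℝ) ≤ Y := Nat.cast_nonneg _
      have := Nat.floor_le hηk0
      linarith
    exact_mod_cast h3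
  · obtain ⟨-, -, m1, -, -, m4⟩ := W.g_num hk (show l ≤ 3 by omega)
    obtain ⟨t1, t2⟩ := (W.t_num hk hl).1 (hR l hl)
    have h3 : ((gT k l : ℕ) : ℝ) ≤ ((g₀ k l + (⌊a * J⌋₊ - ⌊o k * J⌋₊ + Y) : ℕ) : ℝ) := by
      push_cast [Nat.cast_sub hfl]
      linarith
    exact_mod_cast h3
  · have h4 : ((4 * Y + 2 : ℕ) : ℝ) ≤ X := by exact_mod_cast hX
    push_cast at h4
    have h3 : ((g₀ k 3 + (⌊a * J⌋₊ - ⌊o k * J⌋₊ + Y) : ℕ) : ℝ) ≤ ((⌊μ⌋₊ + X : ℕ) : ℝ) := by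
      push_cast [Nat.cast_sub hfl]
      have h5 : (0 : ℝ) ≤ Y := Nat.cast_nonneg _
      linarith
    exact_mod_cast h3
  · exact (hS ω hω).mono (two_le (by omega))

end Pool.D2N
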