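import Pool.Agent.H90.D2.Hcl
import Pool.Agent.H90.D2.Hgb
import Pool.Agent.H28.D2.Gbw

/-!
# The data of the hop cell from the geometry of the windows: tools

`nc_lev`: near covectors at a deep window are near at a window above it. `nr_two`: the frames of two
windows are near each other. `gq_coeff_sub`: the differences of the gradients of two samples at a
shorter window. `vy_en`: the size of the deep vector. `y_one`: the first coefficient in the direction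
of `c 0`.
-/

set_option autoImplicit false

namespace Pool.D2N

open Finset Real MvPolynomial
open Pool.Agent.H49.Ent Pool.Agent.H32.Dense Pool.STK Pool.KA Pool.KSAT Pool.K2S Pool.PB Pool.S6C
open Pool.GEN Pool.CHT Pool.CHX Pool.LA91
open Pool.D2F Pool.D2Z Pool.D2F2
open Pool.D2R (dd hs co)
open Pool.OWN68 (opl tw uw mid dirv natDegree_opl opl_jet uw_abs)

variable {m J : ℕ}

/-- **Near covectors at a deep window.** -/
theorem nc_lev {c : ℕ → Fin m} {g g' : ℕ → ℕ} {a a' n x : ℕ} {K : ℝ}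
    {χ χ' : ℕ → Option (Fin m) → ℝ} (h : Nc c g' a' n K χ χ') (hK : 0 ≤ K)
    (h0 : ∀ l < n, a' + g l ≤ g' l + a + x)
    (h1 : ∀ l < n, ∀ j < l, g' j + g l ≤ g' l + g j + x) : Nc c g a n (K * 2 ^ x) χ χ' := by
  intro l hl V
  have h2 := en_lev (c := c) (χ := χ) (h0 l hl) (h1 l hl) V
  calc |cv (χ' l - χ l) V| ≤ K / 2 ^ g' l * en c g' a' χ l V := h l hl V
    _ = K * (1 / 2 ^ g' l * en c g' a' χ l V) := by ring
    _ ≤ K * (2 ^ x / 2 ^ g l * en c g a χ l V) := mul_le_mul_of_nonneg_left h2 hK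
    _ = K * 2 ^ x / 2 ^ g l * en c g a χ l V := by ring

/-- **The frames of two windows.** -/
theorem nr_two {c : ℕ → Fin m} {g g' : ℕ → ℕ} {a a' k k' x : ℕ}
    {ψ ψ' Sv : ℕ → Option (Fin m) → ℝ} (h : Nc c g a 4 (2 ^ k) ψ Sv)
    (h' : Nc c g' a' 4 (2 ^ k') ψ' Sv) (hk : k ≤ x) (hk' : k' ≤ x)
    (h0 : ∀ l < 3, a' + g l ≤ g' l + a + x)
    (h1 : ∀ l < 3, ∀ j < l, g' j + g l ≤ g' l + g j + x) :
    Nc c g a 3 (2 ^ (12 * x + 8)) ψ ψ' ∧ Nc c g a 3 (2 ^ (12 * x + 8)) ψ' ψ := by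
  have a1 : Nc c g a 3 (2 ^ x) ψ Sv := (h.le (by norm_num)).mono (two_le hk)
  have a2 : Nc c g' a' 3 (2 ^ x) ψ' Sv := (h'.le (by norm_num)).mono (two_le hk')
  have a3 : Nc c g a 3 (2 ^ (x + (x + 1) * 3 + x)) Sv ψ' := by
    have := nc_lev (a2.symm2) (by positivity) h0 h1
    rwa [← pow_add] at this
  have a4 : Nc c g a 3 (2 ^ (x + x)) ψ' Sv := by
    have := nc_lev a2 (by positivity) h0 h1
    rwa [← pow_add] at this
  have a5 : Nc c g a 3 (2 ^ (x + (x + 1) * 3)) Sv ψ := a1.symm2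
  refine ⟨(a1.trans2 a3).mono (two_le (by omega)), ?_⟩
  have a6 := (a4.trans a5 (by positivity) (by positivity))
  refine a6.mono ?_
  obtain ⟨Q, hQ⟩ : ∃ Q : ℝ, Q = 2 ^ x := ⟨_, rfl⟩
  have hQ1 : 1 ≤ Q := by
    rw [hQ]
    exact one_le_pow₀ (by norm_num)
  have e1 : (2 : ℝ) ^ (x + x) = Q ^ 2 := by
    rw [hQ, ← pow_mul]
    congr 1
    ring
  have e2 : (2 : ℝ) ^ (x + (x + 1) * 3) = 8 * Q ^ 4 := by
    rw [hQ, ← pow_mul]
    have : (8 : ℝ) = 2 ^ 3 := by norm_num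
    rw [this, ← pow_add]
    congr 1
    ring
  have e3 : (2 : ℝ) ^ (12 * x + 8) = 256 * Q ^ 12 := by
    rw [hQ, ← pow_mul]
    have : (256 : ℝ) = 2 ^ 8 := by norm_num
    rw [this, ← pow_add]
    congr 1
    ring
  rw [e1, e2, e3]
  have q1 : 1 + Q ^ 2 ≤ 2 * Q ^ 2 := by
    have := one_le_pow₀ (n := 2) hQ1
    linarith
  have q2 : (1 + Q ^ 2) ^ 3 ≤ 8 * Q ^ 6 := by
    calc (1 + Q ^ 2) ^ 3 ≤ (2 * Q ^ 2) ^ 3 := pow_le_pow_left₀ (by positivity) q1 3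
      _ = 8 * Q ^ 6 := by ring
  have q4 : Q ^ 2 ≤ Q ^ 12 := pow_le_pow_right₀ hQ1 (by norm_num)
  have q5 : Q ^ 4 ≤ Q ^ 12 := pow_le_pow_right₀ hQ1 (by norm_num)
  have q6 : Q ^ 10 ≤ Q ^ 12 := pow_le_pow_right₀ hQ1 (by norm_num)
  calc _ ≤ Q ^ 2 + 8 * Q ^ 4 * (8 * Q ^ 6) := by
        exact add_le_add le_rfl (mul_le_mul_of_nonneg_left q2 (by positivity))
    _ = Q ^ 2 + 64 * Q ^ 10 := by ring
    _ ≤ 256 * Q ^ 12 := by linarith [pow_nonneg (zero_le_one.trans hQ1) 12]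

/-- **The differences of the coefficients** of two samples at a shorter window. -/
theorem gq_coeff_sub {F : Fam m J} {c : ℕ → Fin m} {g g₁ : ℕ → ℕ} {W n w n₁ D : ℕ}
    {ψH ψH₁ : LnT F → ℕ → Option (Fin m) → ℝ} {Ht : LnT F → MvPolynomial (Option (Fin m)) ℝ}
    (hc : Set.InjOn c (Set.Iio 3)) (hw : w ≤ W) (hW : W ≤ J) {ω ω' : F.Ω}
    (hψ : ∀ l, CvC c l (ψH (slam F W ω) l))
    (hψ₁ : ∀ l, CvC c l (ψH₁ (slam F w ω) l)) (hψ₂ : ∀ l, CvC c l (ψH₁ (slam F w ω') l))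
    (hQ : ∀ s, DepC c 3 (Ht s))
    (hdeg : ∀ s, (Ht s).totalDegree ≤ D)
    (hn : n ≤ W) (hn₁ : n₁ ≤ w) (hnn : W - n = w - n₁) {K M : ℝ} (hK : 0 ≤ K)
    (e1 : ψH (slam F W ω) = ψH (slam F W ω')) (e2 : ψH₁ (slam F w ω) = ψH₁ (slam F w ω'))
    (e3 : (slam F W ω).2.2 = (slam F W ω').2.2)
    (hN : Nc c g₁ w 3 K (ψH₁ (slam F w ω)) (ψH (slam F W ω)))
    (hM : ∀ i < 3, ∀ j, |(gq F c g₁ w n₁ ψH₁ Ht (slam F w ω) i).coeff (j + 1) -
      (gq F c g₁ w n₁ ψH₁ Ht (slam F w ω') i).coeff (j + 1)| ≤ M * 2 ^ g₁ i)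
    {l : ℕ} (hl : l < 3) (j : ℕ) :
    |(gq F c g W n ψH Ht (slam F W ω) l).coeff (j + 1) -
      (gq F c g W n ψH Ht (slam F W ω') l).coeff (j + 1)| ≤
      3 * ((D + 1) * 2 ^ D * (1 + K) ^ 3) * M * (2 ^ g₁ l / 2 ^ ((j + 1) * (W - w))) := by
  rw [gq_win (g₁ := g₁) (ψH₁ := ψH₁) hc hw hW hψ₁ hQ hn hn₁ hnn l,
    gq_win (g₁ := g₁) (ψH₁ := ψH₁) hc hw hW hψ₂ hQ hn hn₁ hnn l, ← e1, ← e2, ← e3,
    Polynomial.finsetSum_coeff, Polynomial.finsetSum_coeff, ← Finset.sum_sub_distrib]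
  have h1 : ∀ i ∈ range 3, |(Polynomial.C (kap c g W (ψH (slam F W ω)) (ψH₁ (slam F w ω)) l i) *
        (gq F c g₁ w n₁ ψH₁ Ht (slam F w ω) i).comp (Polynomial.C (1 / 2 ^ (W - w)) *
          Polynomial.X + Polynomial.C (u0 W w (slam F W ω).2.2))).coeff (j + 1) -
      (Polynomial.C (kap c g W (ψH (slam F W ω)) (ψH₁ (slam F w ω)) l i) *
        (gq F c g₁ w n₁ ψH₁ Ht (slam F w ω') i).comp (Polynomial.C (1 / 2 ^ (W - w)) *
          Polynomial.X + Polynomial.C (u0 W w (slam F W ω).2.2))).coeff (j + 1)| ≤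
      ((D + 1) * 2 ^ D * (1 + K) ^ 3) * M * (2 ^ g₁ l / 2 ^ ((j + 1) * (W - w))) := by
    intro i hi
    have hi' := Finset.mem_range.1 hi
    have hdi : ∀ ν : F.Ω, (gq F c g₁ w n₁ ψH₁ Ht (slam F w ν) i).natDegree ≤ D := fun ν =>
      natDegree_opl F w (deg_gpo c g₁ w 3 (ψH₁ (slam F w ν)) (hdeg _) i) _
    have hdd : (gq F c g₁ w n₁ ψH₁ Ht (slam F w ω) i -
        gq F c g₁ w n₁ ψH₁ Ht (slam F w ω') i).natDegree ≤ D :=
      (Polynomial.natDegree_sub_le _ _).trans (max_le (hdi ω) (hdi ω'))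
    have h2 := coeff_win hdd (u0_abs hw (slam F W ω).2.2) (b := 1 / 2 ^ (W - w)) (j + 1)
      (M := M * 2 ^ g₁ i) (fun x hx => by
        obtain ⟨y, rfl⟩ : ∃ y, x = y + 1 := ⟨x - 1, by omega⟩
        rw [Polynomial.coeff_sub]
        exact hM i hi' y)
    have h3 := kap_le (W := W) (g := g) hc hψ hK hN hl hi'
    rw [Polynomial.coeff_C_mul, Polynomial.coeff_C_mul, ← mul_sub, abs_mul,
      ← Polynomial.coeff_sub, ← Polynomial.sub_comp]
    have hp : (0 : ℝ) < 1 / 2 ^ (W - w) := by positivity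
    rw [abs_of_pos hp] at h2
    have e1 : ((1 : ℝ) / 2 ^ (W - w)) ^ (j + 1) = 1 / 2 ^ ((j + 1) * (W - w)) := by
      rw [div_pow, one_pow, ← pow_mul, mul_comm]
    rw [e1] at h2
    have hM0 : 0 ≤ M := by
      have := (abs_nonneg _).trans (hM i hi' j)
      exact nonneg_of_mul_nonneg_left this (by positivity)
    calc |kap c g W (ψH (slam F W ω)) (ψH₁ (slam F w ω)) l i| *
          |((gq F c g₁ w n₁ ψH₁ Ht (slam F w ω) i - gq F c g₁ w n₁ ψH₁ Ht (slam F w ω') i).comp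
            (Polynomial.C (1 / 2 ^ (W - w)) *
            Polynomial.X + Polynomial.C (u0 W w (slam F W ω).2.2))).coeff (j + 1)| ≤
        |kap c g W (ψH (slam F W ω)) (ψH₁ (slam F w ω)) l i| *
          (1 / 2 ^ ((j + 1) * (W - w)) * ((D + 1) * (2 ^ D * (M * 2 ^ g₁ i)))) :=
          mul_le_mul_of_nonneg_left h2 (abs_nonneg _)
      _ = (2 ^ g₁ i * |kap c g W (ψH (slam F W ω)) (ψH₁ (slam F w ω)) l i|) *
          (1 / 2 ^ ((j + 1) * (W - w)) * ((D + 1) * 2 ^ D * M)) := by ring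
      _ ≤ ((1 + K) ^ 3 * 2 ^ g₁ l) * (1 / 2 ^ ((j + 1) * (W - w)) * ((D + 1) * 2 ^ D * M)) :=
          mul_le_mul_of_nonneg_right h3 (by positivity)
      _ = _ := by ring
  refine (Finset.abs_sum_le_sum_abs _ _).trans ((Finset.sum_le_sum h1).trans (le_of_eq ?_))
  rw [Finset.sum_const, Finset.card_range, nsmul_eq_mul]
  push_cast
  ring

/-- The components of the deep vector. -/
theorem vy_comp {c : ℕ → Fin m} {g : ℕ → ℕ} {W : ℕ} (hc : Set.InjOn c (Set.Iio 3))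
    {ψ ψ' : ℕ → Option (Fin m) → ℝ} (hψ : ∀ l, CvC c l (ψ l)) (hψ' : ∀ l, CvC c l (ψ' l)) :
    (∀ χ : Option (Fin m) → ℝ, CvC c 0 χ → cv χ (Vy c g W ψ ψ') = 0) ∧
    Vy c g W ψ ψ' (some (c 0)) = 1 / 2 ^ g 0 ∧
    ∀ l, 1 ≤ l → l < 3 → Vy c g W ψ ψ' (some (c l)) = cv (ψ' l) (Vy c g W ψ ψ') := by
  have h0 := Vy_none c g W ψ ψ'
  have h1 : ∀ j ≤ 3, eta c g W (mx ψ ψ') (Vy c g W ψ ψ') j = HP46.bs 1 j :=
    fun j h => HP46.eta_unr (c := c) g W (mx ψ ψ') (HP46.bs 1) hc (mx_dep hψ hψ') h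
  have hz : ∀ χ : Option (Fin m) → ℝ, CvC c 0 χ → cv χ (Vy c g W ψ ψ') = 0 := by
    intro χ hχ
    rw [cv_congr hχ (W' := 0) h0 fun j hj => absurd hj (Nat.not_lt_zero j)]
    unfold cv
    simp
  have e1 : (2 : ℝ) ^ g 0 * (Vy c g W ψ ψ' (some (c 0)) - cv (mx ψ ψ' 0) (Vy c g W ψ ψ')) = 1 :=
    h1 1 (by norm_num)
  have e2 : ∀ l, 1 ≤ l → l < 3 → Vy c g W ψ ψ' (some (c l)) = cv (ψ' l) (Vy c g W ψ ψ') := by
    intro l hl hl3
    have h2 : (2 : ℝ) ^ g l * (Vy c g W ψ ψ' (some (c l)) - cv (mx ψ ψ' l) (Vy c g W ψ ψ')) = 0 := by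
      have h3 := h1 (l + 1) (by omega)
      have h4 : HP46.bs 1 (l + 1) = 0 := by
        unfold HP46.bs
        rw [if_neg (by omega)]
      rw [h4] at h3
      exact h3
    have h5 : mx ψ ψ' l = ψ' l := by
      unfold mx
      rw [if_neg (by omega)]
    rw [h5] at h2
    rcases mul_eq_zero.1 h2 with h6 | h6
    · exact absurd h6 (by positivity)
    · linarith
  have e0 : mx ψ ψ' 0 = ψ 0 := by
    unfold mx
    rw [if_pos rfl]
  rw [e0, hz _ (hψ 0), sub_zero] at e1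
  refine ⟨hz, ?_, e2⟩
  rw [eq_div_iff (by positivity)]
  linarith

/-- The energy of the deep vector up to a coordinate, in its own frame. -/
theorem vy_own {c : ℕ → Fin m} {g gb : ℕ → ℕ} {W b : ℕ} (hc : Set.InjOn c (Set.Iio 3))
    {ψ ψ' : ℕ → Option (Fin m) → ℝ} (hψ : ∀ l, CvC c l (ψ l)) (hψ' : ∀ l, CvC c l (ψ' l)) {l : ℕ}
    (hl : l ≤ 3) : en c gb b ψ' l (Vy c g W ψ ψ') ≤ 2 ^ gb 0 / 2 ^ g 0 := by
  obtain ⟨hz, h1, h2⟩ := vy_comp (g := g) (W := W) hc hψ hψ'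
  have h0 := Vy_none c g W ψ ψ'
  have key : ∀ j ∈ range (l + 1), |eta c gb b ψ' (Vy c g W ψ ψ') j| ≤
      if j = 1 then (2 : ℝ) ^ gb 0 / 2 ^ g 0 else 0 := by
    intro j hj
    have hj' := Finset.mem_range.1 hj
    rcases j with _ | _ | j
    · simp only [eta]
      rw [h0]
      simp
    · simp only [eta]
      rw [hz _ (hψ' 0), h1, sub_zero, if_pos trivial, abs_of_pos (by positivity)]
      exact le_of_eq (by ring)
    · simp only [eta]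
      rw [h2 (j + 1) (by omega) (by omega), sub_self, mul_zero, abs_zero, if_neg (by omega)]
  unfold en
  refine (Finset.sum_le_sum key).trans ?_
  rw [Finset.sum_ite_eq' (range (l + 1)) 1 fun _ => (2 : ℝ) ^ gb 0 / 2 ^ g 0]
  split_ifs
  · exact le_rfl
  · positivity

/-- **The size of the deep vector** in a third frame, near the deep frame. -/
theorem vy_en {c : ℕ → Fin m} {g gb g' : ℕ → ℕ} {W b a' : ℕ} (hc : Set.InjOn c (Set.Iio 3))
    {ψ ψ' χ : ℕ → Option (Fin m) → ℝ} (hψ : ∀ l, CvC c l (ψ l)) (hψ' : ∀ l, CvC c l (ψ' l))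
    (hχ : ∀ l, CvC c l (χ l)) {K : ℝ} (hK : 0 ≤ K) (hN : Nc c gb b 3 K ψ' χ) :
    en c g' a' χ 3 (Vy c g W ψ ψ') ≤ 2 ^ g' 0 / 2 ^ g 0 +
      (K * (2 ^ (g' 1 + gb 0) / 2 ^ (gb 1 + g 0)) + K * (2 ^ (g' 2 + gb 0) / 2 ^ (gb 2 + g 0))) := by
  obtain ⟨hz, h1, h2⟩ := vy_comp (g := g) (W := W) hc hψ hψ'
  have h0 := Vy_none c g W ψ ψ'
  have key : ∀ l, 1 ≤ l → l < 3 → |eta c g' a' χ (Vy c g W ψ ψ') (l + 1)| ≤
      K * (2 ^ (g' l + gb 0) / 2 ^ (gb l + g 0)) := by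
    intro l hl hl3
    simp only [eta]
    rw [h2 l hl hl3, abs_mul, abs_of_pos (show (0 : ℝ) < 2 ^ g' l by positivity)]
    have h3 := hN l hl3 (Vy c g W ψ ψ')
    rw [cv_subl, abs_sub_comm] at h3
    have h4 := vy_own (g := g) (gb := gb) (W := W) (b := b) hc hψ hψ' (l := l) (by omega)
    calc (2 : ℝ) ^ g' l * |cv (ψ' l) (Vy c g W ψ ψ') - cv (χ l) (Vy c g W ψ ψ')| ≤
        2 ^ g' l * (K / 2 ^ gb l * en c gb b ψ' l (Vy c g W ψ ψ')) :=
          mul_le_mul_of_nonneg_left h3 (by positivity)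
      _ ≤ 2 ^ g' l * (K / 2 ^ gb l * (2 ^ gb 0 / 2 ^ g 0)) :=
          mul_le_mul_of_nonneg_left (mul_le_mul_of_nonneg_left h4 (by positivity))
            (by positivity)
      _ = _ := by
          rw [pow_add, pow_add]
          field_simp
  unfold en
  rw [Finset.sum_range_succ, Finset.sum_range_succ, Finset.sum_range_succ, Finset.sum_range_one]
  have k1 := key 1 le_rfl (by norm_num)
  have k2 := key 2 (by norm_num) (by norm_num)
  have k0 : |eta c g' a' χ (Vy c g W ψ ψ') 0| = 0 := by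
    simp only [eta]
    rw [h0]
    simp
  have k3 : |eta c g' a' χ (Vy c g W ψ ψ') 1| = 2 ^ g' 0 / 2 ^ g 0 := by
    simp only [eta]
    rw [hz _ (hχ 0), h1, sub_zero, abs_of_pos (by positivity)]
    ring
  rw [k0, k3]
  linarith

/-- **A vector without time component** at a deep window. -/
theorem en_thin {c : ℕ → Fin m} {g g' : ℕ → ℕ} {W a' Mg : ℕ} (hg : ∀ j < 3, g' j ≤ g j + Mg)
    (χ : ℕ → Option (Fin m) → ℝ) {V : Option (Fin m) → ℝ} (h0 : V none = 0) :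
    en c g' a' χ 3 V ≤ 2 ^ Mg * en c g W χ 3 V := by
  unfold en
  rw [Finset.mul_sum]
  refine Finset.sum_le_sum fun j hj => ?_
  have hj' := Finset.mem_range.1 hj
  cases j with
  | zero =>
    simp only [eta]
    rw [h0]
    simp
  | succ l =>
    simp only [eta]
    rw [abs_mul, abs_mul, abs_of_pos (show (0 : ℝ) < 2 ^ g' l by positivity),
      abs_of_pos (show (0 : ℝ) < 2 ^ g l by positivity), ← mul_assoc, ← pow_add]
    refine mul_le_mul_of_nonneg_right (two_le ?_) (abs_nonneg _)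
    have := hg l (by omega)
    omega

end Pool.D2N
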