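import Pool.Agent.H90.D2.Hge

/-!
# The hypotheses of the hop cell from the geometry of the windows

`HpN`: the numbers. `reh_of`: the structure `ReH` from frames at the label window, at the window of
the block and at the window of the deep frame, a deep window `a'` of the label and natural gradients
of the label at the label window; `tgh_of`: the structure `TgH`.
-/

set_option autoImplicit false

namespace Pool.D2N

open Finset Real MvPolynomial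
open Pool.Agent.H49.Ent Pool.Agent.H32.Dense Pool.STK Pool.KA Pool.KSAT Pool.K2S Pool.PB Pool.S6C
open Pool.GEN Pool.CHT Pool.CHX Pool.LA91
open Pool.D2F Pool.D2Z Pool.D2F2
open Pool.D2R (dd hs co)
open Pool.OWN68 (opl tw uw mid dirv natDegree_opl opl_jet uw_abs)
open Pool.HP46 (unr eta_unr eta_inj)

variable {m J : ℕ}

/-- **The numbers of the hop windows**: label window `w₀` with levels `g₁`, window `W` of the block
with levels `g`, window `b` of the deep frame with levels `gb`, deep window `a'` of the label with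
levels `g'`; `s` digits, slack `x`. -/
structure HpN (x s Mg w₀ W b a' : ℕ) (g₁ g gb g' : ℕ → ℕ) : Prop where
  x1 : 1 ≤ x
  wW : w₀ ≤ W
  up : ∀ l < 3, W + g₁ l ≤ g l + w₀ + x
  upj : ∀ l < 3, ∀ j < l, g j + g₁ l ≤ g l + g₁ j + x
  dn : ∀ l < 3, b + g l ≤ gb l + W + x
  dnj : ∀ l < 3, ∀ j < l, gb j + g l ≤ gb l + g j + x
  dp : ∀ i, 1 ≤ i → i ≤ 2 → g i + b + (s + 300 * x) ≤ W + gb i
  nu : g 3 + a' + g' 0 + (s + 300 * x) ≤ W + g' 3 + g 0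
  nl : ∀ l, 1 ≤ l → l ≤ 2 → g 3 + a' + g' l + gb 0 + (s + 300 * x) ≤ W + g' 3 + gb l + g 0
  th : ∀ j < 3, g' j ≤ g j + Mg
  rw : g 3 + Mg + (s + 300 * x) ≤ g' 3
  ve : a' + g 3 + (s + 300 * x) ≤ g' 3 + W
  b1 : ∀ l, 1 ≤ l → l ≤ 2 → g 3 + g₁ l ≤ g₁ 3 + g l + (W - w₀) + x
  s1 : ∀ l, 1 ≤ l → l ≤ 2 → g 3 + g₁ l + (s + 300 * x) ≤ g₁ 3 + g l + 2 * (W - w₀)

/-- The powers of the unit: numbers. -/
theorem pw3 (x : ℕ) (hx : 1 ≤ x) : (1 + (2 : ℝ) ^ (12 * x + 8)) ^ 3 ≤ 2 ^ (63 * x) := by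
  calc (1 + (2 : ℝ) ^ (12 * x + 8)) ^ 3 ≤ 2 ^ ((12 * x + 8 + 1) * 3) := pow1 _ 3
    _ ≤ 2 ^ (63 * x) := two_le (by omega)

variable {F : Fam m J} {c : ℕ → Fin m} {D w₀ W b a' x s Mg : ℕ} {g₁ g gb g' : ℕ → ℕ}

/-- **The coefficients of the label** at the window of the block. -/
theorem gq_block {ψH ψH₁ : LnT F → ℕ → Option (Fin m) → ℝ}
    {Ht : LnT F → MvPolynomial (Option (Fin m)) ℝ} {ω : F.Ω}
    (hx : 1 ≤ x) (wW : w₀ ≤ W) (hc : Set.InjOn c (Set.Iio 3)) (hW : W ≤ J)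
    (hψ : ∀ l, CvC c l (ψH (slam F W ω) l)) (hψ₁ : ∀ l, CvC c l (ψH₁ (slam F w₀ ω) l))
    (hQ : ∀ s, DepC c 3 (Ht s)) (hdeg : ∀ s, (Ht s).totalDegree ≤ D)
    (hD : ((D : ℝ) + 1) * 2 ^ D ≤ 2 ^ x)
    (hN : Nc c g₁ w₀ 3 (2 ^ (12 * x + 8)) (ψH₁ (slam F w₀ ω)) (ψH (slam F W ω)))
    (hM : ∀ i < 3, ∀ j, |(gq F c g₁ w₀ 0 ψH₁ Ht (slam F w₀ ω) i).coeff (j + 1)| ≤
      2 ^ x / 2 ^ g₁ 3 * 2 ^ g₁ i)
    {l : ℕ} (hl : l < 3) (j : ℕ) :
    |2 ^ g 3 / 2 ^ g l * (gq F c g W (W - w₀) ψH Ht (slam F W ω) l).coeff (j + 1)| ≤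
      2 ^ (67 * x) * (2 ^ (g 3 + g₁ l) / 2 ^ (g₁ 3 + g l + (j + 1) * (W - w₀))) := by
  have h1 := gq_coeff (g := g) (n := W - w₀) (n₁ := 0) hc wW hW hψ hψ₁ hQ hdeg (by omega) (by omega)
    (by omega) (by positivity) hN hM hl j
  rw [abs_mul, abs_of_pos (by positivity)]
  have h2 : 3 * (((D : ℝ) + 1) * 2 ^ D * (1 + 2 ^ (12 * x + 8)) ^ 3) ≤ 2 ^ (66 * x) := by
    calc 3 * (((D : ℝ) + 1) * 2 ^ D * (1 + 2 ^ (12 * x + 8)) ^ 3) ≤
        2 ^ (2 * x) * (2 ^ x * 2 ^ (63 * x)) := by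
          have h3 : (3 : ℝ) ≤ 2 ^ (2 * x) := by
            calc (3 : ℝ) ≤ 2 ^ 2 := by norm_num
              _ ≤ 2 ^ (2 * x) := two_le (by omega)
          have h4 := pw3 x hx
          gcongr
      _ = 2 ^ (66 * x) := by
          rw [← pow_add, ← pow_add]
          congr 1
          ring
  calc (2 : ℝ) ^ g 3 / 2 ^ g l * |(gq F c g W (W - w₀) ψH Ht (slam F W ω) l).coeff (j + 1)| ≤
      2 ^ g 3 / 2 ^ g l * (3 * (((D : ℝ) + 1) * 2 ^ D * (1 + 2 ^ (12 * x + 8)) ^ 3) *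
        (2 ^ x / 2 ^ g₁ 3) * (2 ^ g₁ l / 2 ^ ((j + 1) * (W - w₀)))) :=
        mul_le_mul_of_nonneg_left h1 (by positivity)
    _ ≤ 2 ^ g 3 / 2 ^ g l * (2 ^ (66 * x) * (2 ^ x / 2 ^ g₁ 3) *
        (2 ^ g₁ l / 2 ^ ((j + 1) * (W - w₀)))) := by gcongr
    _ = _ := by
        rw [show 67 * x = 66 * x + x by ring, pow_add, pow_add, pow_add, pow_add]
        field_simp

/-- A quotient of powers of two. -/
theorem pq_le {a b k : ℕ} (h : a + k ≤ b) : (2 : ℝ) ^ a / 2 ^ b ≤ 1 / 2 ^ k := by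
  rw [div_le_div_iff₀ (by positivity) (by positivity), ← pow_add, one_mul]
  exact two_le h

/-- A quotient of powers of two. -/
theorem pq_le' {a b k : ℕ} (h : a ≤ b + k) : (2 : ℝ) ^ a / 2 ^ b ≤ 2 ^ k := by
  rw [div_le_iff₀ (by positivity), ← pow_add]
  exact two_le (by omega)

/-- The product with a small power. -/
theorem pm_le {a s b r : ℕ} (h : a + s + r ≤ b) : (2 : ℝ) ^ a * (1 / 2 ^ b) ≤ 1 / 2 ^ (s + r) := by
  rw [mul_one_div, div_le_div_iff₀ (by positivity) (by positivity), ← pow_add, one_mul]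
  exact two_le (by omega)

/-- The numbers of `ReH`: the second derivative. -/
theorem nul_num (N : HpN x s Mg w₀ W b a' g₁ g gb g') {X k' : ℕ} (hX : X ≤ x) (hk' : k' ≤ x) :
    (2 : ℝ) ^ g 3 * (1 / 2 ^ W) * (2 ^ (15 * X + 21) * (2 ^ a' / 2 ^ g' 3) *
      (2 ^ g' 0 / 2 ^ g 0 + (2 ^ k' * (2 ^ (g' 1 + gb 0) / 2 ^ (gb 1 + g 0)) +
        2 ^ k' * (2 ^ (g' 2 + gb 0) / 2 ^ (gb 2 + g 0))))) ≤ 1 / 2 ^ (s + 200 * x) := by
  have hx := N.x1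
  have h2 : (2 : ℝ) ^ (15 * X + 21) ≤ 2 ^ (36 * x) := two_le (by omega)
  have h3 : (2 : ℝ) ^ k' ≤ 2 ^ x := two_le hk'
  have h1 : (1 : ℝ) ≤ 2 ^ x := one_le_pow₀ (by norm_num)
  have t0 : (2 : ℝ) ^ (g 3 + a' + g' 0) / 2 ^ (W + g' 3 + g 0) ≤ 1 / 2 ^ (s + 300 * x) :=
    pq_le (by have := N.nu; omega)
  have t1 : (2 : ℝ) ^ (g 3 + a' + g' 1 + gb 0) / 2 ^ (W + g' 3 + gb 1 + g 0) ≤
      1 / 2 ^ (s + 300 * x) := pq_le (by have := N.nl 1 le_rfl (by norm_num); omega)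
  have t2 : (2 : ℝ) ^ (g 3 + a' + g' 2 + gb 0) / 2 ^ (W + g' 3 + gb 2 + g 0) ≤
      1 / 2 ^ (s + 300 * x) := pq_le (by have := N.nl 2 (by norm_num) le_rfl; omega)
  calc (2 : ℝ) ^ g 3 * (1 / 2 ^ W) * (2 ^ (15 * X + 21) * (2 ^ a' / 2 ^ g' 3) *
      (2 ^ g' 0 / 2 ^ g 0 + (2 ^ k' * (2 ^ (g' 1 + gb 0) / 2 ^ (gb 1 + g 0)) +
        2 ^ k' * (2 ^ (g' 2 + gb 0) / 2 ^ (gb 2 + g 0))))) ≤
      (2 : ℝ) ^ g 3 * (1 / 2 ^ W) * (2 ^ (36 * x) * (2 ^ a' / 2 ^ g' 3) *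
      (2 ^ x * (2 ^ g' 0 / 2 ^ g 0) + (2 ^ x * (2 ^ (g' 1 + gb 0) / 2 ^ (gb 1 + g 0)) +
        2 ^ x * (2 ^ (g' 2 + gb 0) / 2 ^ (gb 2 + g 0))))) := by
        have e0 : (2 : ℝ) ^ g' 0 / 2 ^ g 0 ≤ 2 ^ x * (2 ^ g' 0 / 2 ^ g 0) :=
          le_mul_of_one_le_left (by positivity) h1
        gcongr
    _ = 2 ^ (37 * x) * (2 ^ (g 3 + a' + g' 0) / 2 ^ (W + g' 3 + g 0) +
        (2 ^ (g 3 + a' + g' 1 + gb 0) / 2 ^ (W + g' 3 + gb 1 + g 0) +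
        2 ^ (g 3 + a' + g' 2 + gb 0) / 2 ^ (W + g' 3 + gb 2 + g 0))) := by
        rw [show 37 * x = 36 * x + x by ring]
        simp only [pow_add]
        field_simp
    _ ≤ 2 ^ (37 * x) * (1 / 2 ^ (s + 300 * x) + (1 / 2 ^ (s + 300 * x) +
        1 / 2 ^ (s + 300 * x))) :=
        mul_le_mul_of_nonneg_left (add_le_add t0 (add_le_add t1 t2)) (by positivity)
    _ ≤ 2 ^ (37 * x) * (2 ^ 2 * (1 / 2 ^ (s + 300 * x))) := by
        refine mul_le_mul_of_nonneg_left ?_ (by positivity)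
        have : (0 : ℝ) < 1 / 2 ^ (s + 300 * x) := by positivity
        linarith
    _ = 2 ^ (37 * x + 2) * (1 / 2 ^ (s + 300 * x)) := by
        rw [pow_add]
        ring
    _ ≤ 1 / 2 ^ (s + 200 * x) := pm_le (by omega)

/-- The numbers of `ReH`: the last condition. -/
theorem sm2_num (hx : 1 ≤ x) (hDx : ((D : ℝ) + 1) * 2 ^ D ≤ 2 ^ x) :
    2 * ((1 : ℝ) / 2 ^ (s + 200 * x) + 2 * (D + 1) ^ 2 * (1 / 2 ^ (s + 230 * x)) *
      (1 + 2 * 2 ^ (150 * x))) ≤ 2 ^ (150 * x) / 2 ^ s := by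
  have h1 : (D : ℝ) + 1 ≤ 2 ^ x := by
    have h2 : (1 : ℝ) ≤ 2 ^ D := one_le_pow₀ (by norm_num)
    have h3 : (0 : ℝ) ≤ D := Nat.cast_nonneg D
    nlinarith
  have h2 : ((D : ℝ) + 1) ^ 2 ≤ 2 ^ (2 * x) := by
    calc ((D : ℝ) + 1) ^ 2 ≤ (2 ^ x) ^ 2 := pow_le_pow_left₀ (by positivity) h1 2
      _ = 2 ^ (2 * x) := by
        rw [← pow_mul]
        congr 1
        ring
  have h3 : (1 : ℝ) + 2 * 2 ^ (150 * x) ≤ 2 ^ (150 * x + 2) := by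
    have : (1 : ℝ) ≤ 2 ^ (150 * x) := one_le_pow₀ (by norm_num)
    rw [pow_add]
    linarith
  have h4 : (2 : ℝ) * 2 ^ (2 * x) * (1 / 2 ^ (s + 230 * x)) * 2 ^ (150 * x + 2) ≤ 1 / 2 ^ s := by
    have e : (2 : ℝ) * 2 ^ (2 * x) * (1 / 2 ^ (s + 230 * x)) * 2 ^ (150 * x + 2) =
        2 ^ (1 + 2 * x + (150 * x + 2)) * (1 / 2 ^ (s + 230 * x)) := by
      simp only [pow_add, pow_one]
      ring
    rw [e, mul_one_div, div_le_div_iff₀ (by positivity) (by positivity), ← pow_add, one_mul]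
    exact two_le (by omega)
  have h5 : (1 : ℝ) / 2 ^ (s + 200 * x) ≤ 1 / 2 ^ s :=
    one_div_le_one_div_of_le (by positivity) (two_le (by omega))
  have h6 : (4 : ℝ) ≤ 2 ^ (150 * x) := by
    calc (4 : ℝ) = 2 ^ 2 := by norm_num
      _ ≤ 2 ^ (150 * x) := two_le (by omega)
  calc 2 * ((1 : ℝ) / 2 ^ (s + 200 * x) + 2 * (D + 1) ^ 2 * (1 / 2 ^ (s + 230 * x)) *
      (1 + 2 * 2 ^ (150 * x))) ≤ 2 * (1 / 2 ^ s + 2 * 2 ^ (2 * x) * (1 / 2 ^ (s + 230 * x)) *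
      2 ^ (150 * x + 2)) := by gcongr
    _ ≤ 2 * (1 / 2 ^ s + 1 / 2 ^ s) := by linarith
    _ = 4 * (1 / 2 ^ s) := by ring
    _ ≤ 2 ^ (150 * x) * (1 / 2 ^ s) := mul_le_mul_of_nonneg_right h6 (by positivity)
    _ = _ := by ring

/-- The first coefficient in the direction of `c 0`: numbers. -/
theorem y_num {Y T u A0 A1 M0 M1 : ℝ} (hx : 1 ≤ x) (hDx : ((D : ℝ) + 1) * 2 ^ D ≤ 2 ^ x)
    (h : |Y + T * u + (A0 * M0 + A1 * M1)| ≤ 1 / 2 ^ (s + 200 * x) +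
      2 * (D + 1) ^ 2 * (1 / 2 ^ (s + 230 * x)) * (1 + 2 * 2 ^ (63 * x)))
    (hu : |u| ≤ 1) (hT : |T| ≤ 2 ^ (70 * x)) (hA0 : |A0| ≤ 2 ^ (70 * x))
    (hA1 : |A1| ≤ 2 ^ (70 * x)) (hM0 : |M0| ≤ 2 ^ (63 * x)) (hM1 : |M1| ≤ 2 ^ (63 * x)) :
    |2 * Y| ≤ 2 ^ (150 * x) := by
  have h1 : (D : ℝ) + 1 ≤ 2 ^ x := by
    have h2 : (1 : ℝ) ≤ 2 ^ D := one_le_pow₀ (by norm_num)
    have h3 : (0 : ℝ) ≤ D := Nat.cast_nonneg D
    nlinarith
  have h2 : ((D : ℝ) + 1) ^ 2 ≤ 2 ^ (2 * x) := by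
    calc ((D : ℝ) + 1) ^ 2 ≤ (2 ^ x) ^ 2 := pow_le_pow_left₀ (by positivity) h1 2
      _ = 2 ^ (2 * x) := by
        rw [← pow_mul]
        congr 1
        ring
  have h3 : (1 : ℝ) + 2 * 2 ^ (63 * x) ≤ 2 ^ (63 * x + 2) := by
    have : (1 : ℝ) ≤ 2 ^ (63 * x) := one_le_pow₀ (by norm_num)
    rw [pow_add]
    linarith
  have h4 : (2 : ℝ) * 2 ^ (2 * x) * (1 / 2 ^ (s + 230 * x)) * 2 ^ (63 * x + 2) ≤
      1 / 2 ^ (0 + 1) := by
    have e : (2 : ℝ) * 2 ^ (2 * x) * (1 / 2 ^ (s + 230 * x)) * 2 ^ (63 * x + 2) =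
        2 ^ (1 + 2 * x + (63 * x + 2)) * (1 / 2 ^ (s + 230 * x)) := by
      simp only [pow_add, pow_one]
      ring
    rw [e]
    exact pm_le (by omega)
  have h5 : (1 : ℝ) / 2 ^ (s + 200 * x) ≤ 1 / 2 ^ (0 + 1) :=
    one_div_le_one_div_of_le (by positivity) (two_le (by omega))
  have h6 : 2 * ((D : ℝ) + 1) ^ 2 * (1 / 2 ^ (s + 230 * x)) * (1 + 2 * 2 ^ (63 * x)) ≤
      1 / 2 ^ (0 + 1) := by
    refine le_trans ?_ h4
    gcongr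
  have h7 : |Y + T * u + (A0 * M0 + A1 * M1)| ≤ 1 := by
    refine h.trans ((add_le_add h5 h6).trans ?_)
    norm_num
  obtain ⟨Q, hQ⟩ : ∃ Q : ℝ, Q = 2 ^ (63 * x) := ⟨_, rfl⟩
  obtain ⟨R, hR⟩ : ∃ R : ℝ, R = 2 ^ (70 * x) := ⟨_, rfl⟩
  have hQ1 : 1 ≤ Q := by
    rw [hQ]
    exact one_le_pow₀ (by norm_num)
  have hR1 : 1 ≤ R := by
    rw [hR]
    exact one_le_pow₀ (by norm_num)
  rw [← hQ] at hM0 hM1
  rw [← hR] at hT hA0 hA1
  have t1 : |T * u| ≤ R := by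
    rw [abs_mul]
    calc |T| * |u| ≤ R * 1 := mul_le_mul hT hu (abs_nonneg _) (by linarith)
      _ = R := mul_one R
  have t2 : |A0 * M0| ≤ R * Q := by
    rw [abs_mul]
    exact mul_le_mul hA0 hM0 (abs_nonneg _) (by linarith)
  have t3 : |A1 * M1| ≤ R * Q := by
    rw [abs_mul]
    exact mul_le_mul hA1 hM1 (abs_nonneg _) (by linarith)
  have t4 : |Y| ≤ 1 + R + (R * Q + R * Q) := by
    have e : Y = (Y + T * u + (A0 * M0 + A1 * M1)) - T * u - (A0 * M0 + A1 * M1) := by ring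
    rw [e]
    refine (abs_sub _ _).trans (add_le_add ((abs_sub _ _).trans (add_le_add h7 t1)) ?_)
    exact (abs_add_le _ _).trans (add_le_add t2 t3)
  have t5 : R ≤ R * Q := le_mul_of_one_le_right (by linarith) hQ1
  have t6 : (8 : ℝ) * (R * Q) ≤ 2 ^ (150 * x) := by
    have e1 : (8 : ℝ) * (R * Q) = 2 ^ (3 + (70 * x + 63 * x)) := by
      rw [hQ, hR]
      simp only [pow_add]
      norm_num
    rw [e1]
    exact two_le (by omega)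
  rw [abs_mul, abs_of_pos (by norm_num : (0 : ℝ) < 2)]
  linarith

/-- The bound of the coefficients of order at most two, and one for the rough coordinates. -/
theorem big_num (N : HpN x s Mg w₀ W b a' g₁ g gb g') {l j : ℕ}
    (h : j = 0 ∧ 1 ≤ l ∧ l ≤ 2) :
    (2 : ℝ) ^ (67 * x) * (2 ^ (g 3 + g₁ l) / 2 ^ (g₁ 3 + g l + (j + 1) * (W - w₀))) ≤
      2 ^ (68 * x) := by
  have h1 : (2 : ℝ) ^ (g 3 + g₁ l) / 2 ^ (g₁ 3 + g l + (j + 1) * (W - w₀)) ≤ 2 ^ x := by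
    refine pq_le' ?_
    obtain ⟨rfl, h1, h2⟩ := h
    have := N.b1 l h1 h2
    rw [zero_add, one_mul]
    omega
  calc _ ≤ (2 : ℝ) ^ (67 * x) * 2 ^ x := mul_le_mul_of_nonneg_left h1 (by positivity)
    _ = 2 ^ (68 * x) := by
        rw [← pow_add]
        congr 1
        ring

/-- The bound of the higher coefficients. -/
theorem sml_num (N : HpN x s Mg w₀ W b a' g₁ g gb g') {l j : ℕ}
    (h : 1 ≤ j ∧ 1 ≤ l ∧ l ≤ 2) :
    (2 : ℝ) ^ (67 * x) * (2 ^ (g 3 + g₁ l) / 2 ^ (g₁ 3 + g l + (j + 1) * (W - w₀))) ≤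
      1 / 2 ^ (s + 230 * x) := by
  have h1 : (2 : ℝ) ^ (g 3 + g₁ l) / 2 ^ (g₁ 3 + g l + (j + 1) * (W - w₀)) ≤
      1 / 2 ^ (s + 300 * x) := by
    refine pq_le ?_
    obtain ⟨h0, h1, h2⟩ := h
    have := N.s1 l h1 h2
    have h3 : 2 * (W - w₀) ≤ (j + 1) * (W - w₀) := Nat.mul_le_mul_right _ (by omega)
    omega
  refine (mul_le_mul_of_nonneg_left h1 (by positivity)).trans ?_
  exact pm_le (by omega)

section main

variable {v v' e X p k₁ k k' e₂ e₀ e₁ : ℕ} {gT : ℕ → ℕ} {U B₀ : ℝ} {B : F.Ω → Prop}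
    {G : PtT F → ℕ → MvPolynomial (Option (Fin m)) ℝ}
    {H : LnT F → ℕ → MvPolynomial (Option (Fin m)) ℝ}
    {T : PtT F → ℕ → MvPolynomial (Option (Fin m)) ℝ}
    {TH : LnT F → ℕ → MvPolynomial (Option (Fin m)) ℝ}
    {Ht : LnT F → MvPolynomial (Option (Fin m)) ℝ}
    {ψ₁ ψ ψ' Sv : PtT F → ℕ → Option (Fin m) → ℝ} {ψH₁ ψH ψH' : LnT F → ℕ → Option (Fin m) → ℝ}

/-- The second derivative of the label in the deep direction. -/
theorem nul_of (N : HpN x s Mg w₀ W b a' g₁ g gb g') (hc : Set.InjOn c (Set.Iio 3)) (hW : W ≤ J)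
    (h : WFr F c 4 W k e₀ g B ψ ψH Sv) (h' : WFr F c 4 b k' e₁ gb B ψ' ψH' Sv)
    (Dp : Dpw F c D w₀ a' v v' e X p g' gT U B G H T TH Ht Sv) (hk' : k' ≤ x)
    (hX : X ≤ x) {ω : F.Ω} (hω : B ω) :
    |2 ^ g 3 * (1 / 2 ^ W) * hs (Ht (co (W - w₀) (slam F W ω))) (bt F ω) (bd F ω)
      (Vy c g W (ψ (ptr F J ω)) (ψ' (ptr F J ω)))| ≤ 1 / 2 ^ (s + 200 * x) := by
  have hco : co (W - w₀) (slam F W ω) = slam F w₀ ω := Pool.D2R.co_slam F N.wW hW ω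
  have h1 := Dp.hsn hω (Vy c g W (ψ (ptr F J ω)) (ψ' (ptr F J ω)))
  have h2 := vy_en (g := g) (gb := gb) (g' := g') (W := W) (b := b) (a' := a') hc
    (h.fr.dep (ptr F J ω)) (h'.fr.dep (ptr F J ω)) (Dp.dep (ptr F J ω)) (by positivity)
    ((h'.nr ω hω).le (show 3 ≤ 4 by norm_num))
  rw [hco, abs_mul, abs_of_pos (by positivity)]
  refine (mul_le_mul_of_nonneg_left (h1.trans (mul_le_mul_of_nonneg_left h2 (by positivity)))
    (by positivity)).trans ?_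
  exact nul_num N hX hk'

/-- **The coefficients of order at least two** of the label, in the direction of the first
coordinate: order two bounded, higher orders small. -/
structure Co0 (F : Fam m J) (c : ℕ → Fin m) (s x n W : ℕ) (g : ℕ → ℕ)
    (ψH : LnT F → ℕ → Option (Fin m) → ℝ) (Ht : LnT F → MvPolynomial (Option (Fin m)) ℝ)
    (B : F.Ω → Prop) : Prop where
  c2 : ∀ ω, B ω → |2 ^ g 3 / 2 ^ g 0 * (gq F c g W n ψH Ht (slam F W ω) 0).coeff 2| ≤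
    2 ^ (68 * x)
  c3 : ∀ ω, B ω → ∀ j, 3 ≤ j →
    |2 ^ g 3 / 2 ^ g 0 * (gq F c g W n ψH Ht (slam F W ω) 0).coeff j| ≤ 1 / 2 ^ (s + 230 * x)

/-- Less digits. -/
theorem Co0.le {n : ℕ} (h : Co0 F c s x n W g ψH Ht B) {s' : ℕ} (hs : s' ≤ s) :
    Co0 F c s' x n W g ψH Ht B :=
  ⟨h.c2, fun ω hω j hj => (h.c3 ω hω j hj).trans
    (div_le_div_of_nonneg_left zero_le_one (by positivity) (two_le (by omega)))⟩

/-- **The coefficients of order at least two** from the bound at the window of the label, slopes of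
the rough coordinates at most two. -/
theorem co0_of (hx : 1 ≤ x) (wW : w₀ ≤ W) (up : ∀ l < 3, W + g₁ l ≤ g l + w₀ + x)
    (upj : ∀ l < 3, ∀ j < l, g j + g₁ l ≤ g l + g₁ j + x)
    (b2 : g 3 + g₁ 0 ≤ g₁ 3 + g 0 + 2 * (W - w₀) + x)
    (s0 : g 3 + g₁ 0 + (s + 300 * x) ≤ g₁ 3 + g 0 + 3 * (W - w₀))
    (hc : Set.InjOn c (Set.Iio 3)) (hW : W ≤ J) (hDx : ((D : ℝ) + 1) * 2 ^ D ≤ 2 ^ x)
    (h₁ : WFr F c 4 w₀ k₁ e₂ g₁ B ψ₁ ψH₁ Sv) (h : WFr F c 4 W k e₀ g B ψ ψH Sv)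
    (hk₁ : k₁ ≤ x) (hk : k ≤ x) (hQ : ∀ s, DepC c 3 (Ht s)) (hdeg : ∀ s, (Ht s).totalDegree ≤ D)
    (hM : ∀ ω, B ω → ∀ i < 3, ∀ j, |(gq F c g₁ w₀ 0 ψH₁ Ht (slam F w₀ ω) i).coeff (j + 1)| ≤
      2 ^ x / 2 ^ g₁ 3 * 2 ^ g₁ i) : Co0 F c s x (W - w₀) W g ψH Ht B := by
  have cf : ∀ ω, B ω → ∀ j,
      |2 ^ g 3 / 2 ^ g 0 * (gq F c g W (W - w₀) ψH Ht (slam F W ω) 0).coeff (j + 1)| ≤
      2 ^ (67 * x) * (2 ^ (g 3 + g₁ 0) / 2 ^ (g₁ 3 + g 0 + (j + 1) * (W - w₀))) := by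
    intro ω hω j
    refine gq_block hx wW hc hW (h.fr.depH _) (h₁.fr.depH _) hQ hdeg hDx ?_ (hM ω hω)
      (by norm_num) j
    rw [← h₁.fr.cls ω hω, ← h.fr.cls ω hω]
    exact (nr_two (h₁.nr ω hω) (h.nr ω hω) hk₁ hk (fun l hl => by have := up l hl; omega)
      (fun l hl j hj => by have := upj l hl j hj; omega)).1
  refine ⟨fun ω hω => ?_, fun ω hω j hj => ?_⟩
  · refine (cf ω hω 1).trans ?_
    have h1 : (2 : ℝ) ^ (g 3 + g₁ 0) / 2 ^ (g₁ 3 + g 0 + (1 + 1) * (W - w₀)) ≤ 2 ^ x :=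
      pq_le' (by omega)
    calc _ ≤ (2 : ℝ) ^ (67 * x) * 2 ^ x := mul_le_mul_of_nonneg_left h1 (by positivity)
      _ = 2 ^ (68 * x) := by
          rw [← pow_add]
          congr 1
          ring
  · obtain ⟨i, rfl⟩ : ∃ i, j = i + 1 := ⟨j - 1, by omega⟩
    refine (cf ω hω i).trans ?_
    have h1 : (2 : ℝ) ^ (g 3 + g₁ 0) / 2 ^ (g₁ 3 + g 0 + (i + 1) * (W - w₀)) ≤
        1 / 2 ^ (s + 300 * x) := by
      refine pq_le ?_
      have h3 : 3 * (W - w₀) ≤ (i + 1) * (W - w₀) := Nat.mul_le_mul_right _ (by omega)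
      omega
    refine (mul_le_mul_of_nonneg_left h1 (by positivity)).trans ?_
    exact pm_le (by omega)

/-- **The hypotheses of the hop cell.** -/
theorem reh_of (N : HpN x s Mg w₀ W b a' g₁ g gb g') (hc : Set.InjOn c (Set.Iio 3)) (hW : W ≤ J)
    (hD2 : 2 ≤ D) (hDx : ((D : ℝ) + 1) * 2 ^ D ≤ 2 ^ x) (hB₀ : 1 ≤ B₀)
    (h₁ : WFr F c 4 w₀ k₁ e₂ g₁ B ψ₁ ψH₁ Sv) (h : WFr F c 4 W k e₀ g B ψ ψH Sv)
    (h' : WFr F c 4 b k' e₁ gb B ψ' ψH' Sv)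
    (Dp : Dpw F c D w₀ a' v v' e X p g' gT U B G H T TH Ht Sv) (hk₁ : k₁ ≤ x) (hk : k ≤ x)
    (hk' : k' ≤ x) (hX : X ≤ x) (hQ : ∀ s, DepC c 3 (Ht s)) (hdeg : ∀ s, (Ht s).totalDegree ≤ D)
    (hM : ∀ ω, B ω → ∀ i < 3, ∀ j, |(gq F c g₁ w₀ 0 ψH₁ Ht (slam F w₀ ω) i).coeff (j + 1)| ≤
      2 ^ x / 2 ^ g₁ 3 * 2 ^ g₁ i) (hC : Co0 F c s x (W - w₀) W g ψH Ht B)
    (hV : ∀ j < 3, e₀ + g j + (s + 3) ≤ J)
    {ζ ε : Type} {z : LnT F → ζ} {ez : LnT F → ε}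
    (zy : ∀ ω ω', B ω → B ω' → z (slam F W ω) = z (slam F W ω') → ∀ j, 1 ≤ j → j ≤ 3 →
      |eta c g W (ψ (ptr F J ω')) (hx F ω') j - eta c g W (ψ (ptr F J ω)) (hx F ω) j| ≤ B₀)
    (zv : ∀ ω ω', B ω → B ω' → z (slam F W ω) = z (slam F W ω') →
      ψ (ptr F J ω) = ψ (ptr F J ω') ∧ (slam F W ω).2.2 = (slam F W ω').2.2)
    (nE : ∀ ω ω', B ω → B ω' → z (slam F W ω) = z (slam F W ω') →
      ez (slam F W ω) = ez (slam F W ω') →
      |Xn F c g W ψ ω 1 - Xn F c g W ψ ω' 1| ≤ 2 ^ (150 * x) / 2 ^ s)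
    (nG : ∀ ω ω', B ω → B ω' → z (slam F W ω) = z (slam F W ω') →
      ez (slam F W ω) = ez (slam F W ω') → ∀ l < 3, ∀ j, (j = 1 ∧ 1 ≤ l) ∨ (j = 2 ∧ l = 0) →
      |2 ^ g 3 / 2 ^ g l * (4 * ((gq F c g W (W - w₀) ψH Ht (slam F W ω) l).coeff j -
        (gq F c g W (W - w₀) ψH Ht (slam F W ω') l).coeff j))| ≤ 2 ^ (150 * x) / 2 ^ s) :
    ReH F c g gb W (W - w₀) D b k k' e₀ e₁ 4 s (s + 3) ψ ψ' ψH ψH' Ht B z ez
      (1 / 2 ^ (s + 200 * x)) (1 / 2 ^ (s + 200 * x)) (1 / 2 ^ (s + 230 * x)) (2 ^ (12 * x + 8))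
      (2 ^ (150 * x)) (2 ^ (150 * x)) B₀ := by
  have hx := N.x1
  have hB2 : ∀ ω, B ω → ψH₁ (slam F w₀ ω) = ψ₁ (ptr F J ω) := fun ω hω => (h₁.fr.cls ω hω).symm
  have hB3 : ∀ ω, B ω → ψH (slam F W ω) = ψ (ptr F J ω) := fun ω hω => (h.fr.cls ω hω).symm
  have cf : ∀ ω, B ω → ∀ l < 3, ∀ j,
      |2 ^ g 3 / 2 ^ g l * (gq F c g W (W - w₀) ψH Ht (slam F W ω) l).coeff (j + 1)| ≤
      2 ^ (67 * x) * (2 ^ (g 3 + g₁ l) / 2 ^ (g₁ 3 + g l + (j + 1) * (W - w₀))) := by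
    intro ω hω l hl j
    refine gq_block hx N.wW hc hW (h.fr.depH _) (h₁.fr.depH _) hQ hdeg hDx ?_ (hM ω hω) hl j
    rw [hB2 ω hω, hB3 ω hω]
    exact (nr_two (h₁.nr ω hω) (h.nr ω hω) hk₁ hk (fun l hl => by have := N.up l hl; omega)
      (fun l hl j hj => by have := N.upj l hl j hj; omega)).1
  have near : ∀ ω, B ω → Nc c g W 3 (2 ^ (12 * x + 8)) (ψ (ptr F J ω)) (ψ' (ptr F J ω)) :=
    fun ω hω => (nr_two (h.nr ω hω) (h'.nr ω hω) hk hk' (fun l hl => by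
      have := N.dn l hl; omega) (fun l hl j hj => by have := N.dnj l hl j hj; omega)).1
  have nul := fun ω hω => nul_of N hc hW h h' Dp hk' hX (ω := ω) hω
  have hKn : (1 + (2 : ℝ) ^ (12 * x + 8)) ^ 3 ≤ 2 ^ (63 * x) := pw3 x hx
  have p68 : (4 : ℝ) * 2 ^ (68 * x) ≤ 2 ^ (70 * x) := by
    calc (4 : ℝ) * 2 ^ (68 * x) ≤ 2 ^ (2 * x) * 2 ^ (68 * x) := by
          refine mul_le_mul_of_nonneg_right ?_ (by positivity)
          calc (4 : ℝ) = 2 ^ 2 := by norm_num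
            _ ≤ 2 ^ (2 * x) := two_le (by omega)
      _ = 2 ^ (70 * x) := by
          rw [← pow_add]
          congr 1
          ring
  have bg : ∀ ω, B ω → ∀ l < 3, ∀ j, (j = 1 ∧ 1 ≤ l) ∨ (j = 2 ∧ l = 0) →
      |2 ^ g 3 / 2 ^ g l * (4 * (gq F c g W (W - w₀) ψH Ht (slam F W ω) l).coeff j)| ≤
        2 ^ (70 * x) := by
    intro ω hω l hl j hj
    have h1 : |2 ^ g 3 / 2 ^ g l * (gq F c g W (W - w₀) ψH Ht (slam F W ω) l).coeff j| ≤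
        2 ^ (68 * x) := by
      rcases hj with ⟨rfl, hl1⟩ | ⟨rfl, rfl⟩
      · exact (cf ω hω l hl 0).trans (big_num N ⟨rfl, hl1, by omega⟩)
      · exact hC.c2 ω hω
    have e1 : 2 ^ g 3 / 2 ^ g l * (4 * (gq F c g W (W - w₀) ψH Ht (slam F W ω) l).coeff j) =
        4 * (2 ^ g 3 / 2 ^ g l * (gq F c g W (W - w₀) ψH Ht (slam F W ω) l).coeff j) := by
      ring
    rw [e1, abs_mul, abs_of_pos (by norm_num : (0 : ℝ) < 4)]
    linarith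
  have sm0 : ∀ ω, B ω → ∀ j, 3 ≤ j →
      |2 ^ g 3 / 2 ^ g 0 * (gq F c g W (W - w₀) ψH Ht (slam F W ω) 0).coeff j| ≤
        1 / 2 ^ (s + 230 * x) := by
    exact hC.c3
  have sm1 : ∀ ω, B ω → ∀ i : Fin 2, ∀ j, 2 ≤ j →
      |2 ^ g 3 / 2 ^ g (i.1 + 1) * (gq F c g W (W - w₀) ψH Ht (slam F W ω) (i.1 + 1)).coeff j| ≤
        1 / 2 ^ (s + 230 * x) := by
    intro ω hω i j hj
    obtain ⟨i', rfl⟩ : ∃ i', j = i' + 1 := ⟨j - 1, by omega⟩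
    exact (cf ω hω (i.1 + 1) (by omega) i').trans (sml_num N (by omega))
  have hms : ∀ ω, B ω → ∀ i : Fin 2, |Ms c g W (ψ (ptr F J ω)) (ψ' (ptr F J ω)) i.1 1| ≤
      2 ^ (63 * x) := fun ω hω i =>
    (ms_le hc h.fr h'.fr (by positivity) (near ω hω) (by omega) 1).trans hKn
  have b01 : ∀ ω, B ω →
      |2 ^ g 3 / 2 ^ g 0 * (4 * (gq F c g W (W - w₀) ψH Ht (slam F W ω) 0).coeff 1)| ≤
        2 ^ (150 * x) := by
    intro ω hω
    have hdq : ∀ l, (gq F c g W (W - w₀) ψH Ht (slam F W ω) l).natDegree ≤ D := fun l =>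
      natDegree_opl F W (deg_gpo c g W 3 (ψH (slam F W ω)) (hdeg _) l) _
    have h1 := nul ω hω
    have h2 := hs_own hc (g := g) (n := W - w₀) hW (ψH := ψH) hQ (ω := ω)
      (χ := ψ' (ptr F J ω)) (h.fr.depH _) (h'.fr.dep _)
    rw [hB3 ω hω] at h2
    rw [h2] at h1
    have h3 := rel_pure (g := g) (G := gq F c g W (W - w₀) ψH Ht (slam F W ω)) hD2 hdq
      (u := uw F W ω) (δ := 1 / 2 ^ (s + 200 * x)) (δ' := 1 / 2 ^ (s + 230 * x))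
      (Lm := 2 ^ (63 * x)) (M := fun i => Ms c g W (ψ (ptr F J ω)) (ψ' (ptr F J ω)) i.1 1)
      (uw_abs F W ω) (by positivity) (hms ω hω) (sm0 ω hω) (sm1 ω hω) h1
    rw [Fin.sum_univ_two] at h3
    have a0 : |Ac g (gq F c g W (W - w₀) ψH Ht (slam F W ω)) 0| ≤ 2 ^ (70 * x) := by
      have h4 := bg ω hω 1 (by norm_num) 1 (Or.inl ⟨rfl, le_rfl⟩)
      have e1 : 2 ^ g 3 / 2 ^ g 1 * (4 * (gq F c g W (W - w₀) ψH Ht (slam F W ω) 1).coeff 1) =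
          2 * Ac g (gq F c g W (W - w₀) ψH Ht (slam F W ω)) 0 := by
        unfold Ac
        show _ = 2 * (2 ^ g 3 / 2 ^ g 1 *
          (2 * (gq F c g W (W - w₀) ψH Ht (slam F W ω) 1).coeff 1))
        ring
      rw [e1, abs_mul, abs_of_pos (by norm_num : (0 : ℝ) < 2)] at h4
      have := abs_nonneg (Ac g (gq F c g W (W - w₀) ψH Ht (slam F W ω)) 0)
      linarith
    have a1 : |Ac g (gq F c g W (W - w₀) ψH Ht (slam F W ω)) 1| ≤ 2 ^ (70 * x) := by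
      have h4 := bg ω hω 2 (by norm_num) 1 (Or.inl ⟨rfl, by norm_num⟩)
      have e1 : 2 ^ g 3 / 2 ^ g 2 * (4 * (gq F c g W (W - w₀) ψH Ht (slam F W ω) 2).coeff 1) =
          2 * Ac g (gq F c g W (W - w₀) ψH Ht (slam F W ω)) 1 := by
        unfold Ac
        show _ = 2 * (2 ^ g 3 / 2 ^ g 2 *
          (2 * (gq F c g W (W - w₀) ψH Ht (slam F W ω) 2).coeff 1))
        ring
      rw [e1, abs_mul, abs_of_pos (by norm_num : (0 : ℝ) < 2)] at h4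
      have := abs_nonneg (Ac g (gq F c g W (W - w₀) ψH Ht (slam F W ω)) 1)
      linarith
    have h5 := y_num hx hDx h3 (uw_abs F W ω)
      (bg ω hω 0 (by norm_num) 2 (Or.inr ⟨rfl, rfl⟩)) a0 a1 (hms ω hω 0) (hms ω hω 1)
    refine le_trans (le_of_eq ?_) h5
    congr 1
    unfold Yc
    ring
  exact
    { hc := hc
      hW := hW
      hD := hD2
      hL := one_le_pow₀ (by norm_num)
      hK := one_le_pow₀ (by norm_num)
      hB₀ := hB₀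
      hKn := by positivity
      hδ' := by positivity
      fr := frok_le h.fr (by norm_num)
      fr' := h'.fr
      hn' := by norm_num
      hV := hV
      vV := by
        rw [pow_add]
        have : (0 : ℝ) < 2 ^ s := by positivity
        linarith
      near := near
      kL := two_le (by omega)
      KL := hKn.trans (two_le (by omega))
      deep := by
        intro i hi1 hi2
        have e1 : (2 : ℝ) ^ g i * (1 / 2 ^ W * (2 ^ (b + k') / 2 ^ gb i)) =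
            2 ^ k' * (2 ^ (g i + b) / 2 ^ (W + gb i)) := by
          simp only [pow_add]
          field_simp
        rw [e1]
        calc (2 : ℝ) ^ k' * (2 ^ (g i + b) / 2 ^ (W + gb i)) ≤
            2 ^ x * (1 / 2 ^ (s + 300 * x)) :=
              mul_le_mul (two_le hk') (pq_le (by have := N.dp i hi1 hi2; omega)) (by positivity)
                (by positivity)
          _ ≤ 1 / 2 ^ (s + 200 * x) := pm_le (by omega)
      small₁ := by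
        calc 2 * (1 / 2 ^ (s + 200 * x) * (1 + (2 : ℝ) ^ (12 * x + 8)) ^ 3) ≤
            2 * (1 / 2 ^ (s + 200 * x) * 2 ^ (63 * x)) := by gcongr
          _ = 2 ^ (1 + 63 * x) * (1 / 2 ^ (s + 200 * x)) := by
              simp only [pow_add, pow_one]
              ring
          _ ≤ 1 / 2 ^ (s + 0) := pm_le (by omega)
          _ ≤ 2 ^ (150 * x) / 2 ^ s := by
              rw [add_zero]
              exact div_le_div_of_nonneg_right (one_le_pow₀ (by norm_num)) (by positivity)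
      deg := hdeg
      dep := hQ
      zy := zy
      zv := zv
      big := by
        intro ω hω l hl j hj
        by_cases h0 : l = 0 ∧ j = 1
        · obtain ⟨rfl, rfl⟩ := h0
          exact b01 ω hω
        · exact (bg ω hω l hl j (by omega)).trans (two_le (by omega))
      sml0 := sm0
      sml1 := sm1
      nul := nul
      small₂ := sm2_num hx hDx
      nE := nE
      nG := nG }

/-- **The data of the target.** -/
theorem tgh_of (N : HpN x s Mg w₀ W b a' g₁ g gb g') (hW : W ≤ J)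
    (h : WFr F c 4 W k e₀ g B ψ ψH Sv)
    (Dp : Dpw F c D w₀ a' v v' e X p g' gT U B G H T TH Ht Sv) (hk : k ≤ x)
    (hX : X ≤ x) :
    TgH F c g W (W - w₀) k e₀ ψ Sv ψH Ht B (1 / 2 ^ (s + 200 * x)) := by
  have hx := N.x1
  refine ⟨h.fr, Dp.dep, fun ω hω V => h.nr ω hω 3 (by norm_num) V, fun ω hω => ?_,
    fun ω hω V hV => ?_⟩
  · refine (Dp.velo hω (le_refl 3)).trans ?_
    have h1 : (2 : ℝ) ^ (6 * X + 7) ≤ 2 ^ (13 * x) := two_le (by omega)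
    calc (2 : ℝ) ^ (6 * X + 7) * 2 ^ a' / 2 ^ g' 3 ≤ 2 ^ (13 * x) * 2 ^ a' / 2 ^ g' 3 := by gcongr
      _ = 2 ^ (13 * x) * (2 ^ (a' + g 3) / 2 ^ (g' 3 + W)) * (2 ^ W / 2 ^ g 3) := by
          simp only [pow_add]
          field_simp
      _ ≤ 2 ^ (13 * x) * (1 / 2 ^ (s + 300 * x)) * (2 ^ W / 2 ^ g 3) :=
          mul_le_mul_of_nonneg_right (mul_le_mul_of_nonneg_left
            (pq_le (by have := N.ve; omega)) (by positivity)) (by positivity)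
      _ ≤ 1 / 2 ^ (s + 200 * x) * (2 ^ W / 2 ^ g 3) :=
          mul_le_mul_of_nonneg_right (pm_le (by omega)) (by positivity)
  · have hco : co (W - w₀) (slam F W ω) = slam F w₀ ω := Pool.D2R.co_slam F N.wW hW ω
    rw [hco]
    have h1 := Dp.ddn hω V
    have h2 := en_thin (c := c) (a' := a') (W := W) N.th (Sv (ptr F J ω)) hV
    have h3 := ((h.nr ω hω).le (show 3 ≤ 4 by norm_num)).en_le (by positivity) (le_refl 3) V
    obtain ⟨E, hE⟩ : ∃ E, E = en c g W (ψ (ptr F J ω)) 3 V := ⟨_, rfl⟩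
    have hE0 : 0 ≤ E := by
      rw [hE]
      exact en_nonneg _ _ _ _ _ _
    rw [← hE] at h3 ⊢
    have h4 : (1 + (2 : ℝ) ^ k) ^ 3 ≤ 2 ^ (6 * x) := by
      calc (1 + (2 : ℝ) ^ k) ^ 3 ≤ 2 ^ ((k + 1) * 3) := pow1 _ 3
        _ ≤ 2 ^ (6 * x) := two_le (by omega)
    have h5 : (2 : ℝ) ^ (9 * X + 8) ≤ 2 ^ (17 * x) := two_le (by omega)
    calc |dd (Ht (slam F w₀ ω)) (bt F ω) V - cv (Sv (ptr F J ω) 3) V| ≤
        2 ^ (9 * X + 8) / 2 ^ g' 3 * en c g' a' (Sv (ptr F J ω)) 3 V := h1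
      _ ≤ 2 ^ (9 * X + 8) / 2 ^ g' 3 * (2 ^ Mg * en c g W (Sv (ptr F J ω)) 3 V) :=
          mul_le_mul_of_nonneg_left h2 (by positivity)
      _ ≤ 2 ^ (9 * X + 8) / 2 ^ g' 3 * (2 ^ Mg * ((1 + 2 ^ k) ^ 3 * E)) :=
          mul_le_mul_of_nonneg_left (mul_le_mul_of_nonneg_left h3 (by positivity))
            (by positivity)
      _ ≤ 2 ^ (17 * x) / 2 ^ g' 3 * (2 ^ Mg * (2 ^ (6 * x) * E)) := by gcongr
      _ = 2 ^ (23 * x) * (2 ^ (g 3 + Mg) / 2 ^ g' 3) / 2 ^ g 3 * E := by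
          rw [show 23 * x = 17 * x + 6 * x by ring]
          simp only [pow_add]
          field_simp
      _ ≤ 2 ^ (23 * x) * (1 / 2 ^ (s + 300 * x)) / 2 ^ g 3 * E := by
          have h6 := pq_le (a := g 3 + Mg) (b := g' 3) (k := s + 300 * x)
            (by have := N.rw; omega)
          gcongr
      _ ≤ 1 / 2 ^ (s + 200 * x) / 2 ^ g 3 * E := by
          have h6 := pm_le (a := 23 * x) (s := s) (b := s + 300 * x) (r := 200 * x) (by omega)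
          gcongr

end main

end Pool.D2N
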