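import Pool.Agent.H90.D2.Hgf

/-!
# Records of the hop cell: tools

`few_ref`: the number stays few when the own data are refined. `CH_tm`: the time is free of the
line.
-/

set_option autoImplicit false

namespace Pool.D2N

open Finset Real MvPolynomial
open Pool.Agent.H49.Ent Pool.Agent.H32.Dense Pool.STK Pool.KA Pool.KSAT Pool.K2S Pool.PB Pool.S6C
open Pool.GEN Pool.CHT Pool.CHX Pool.LA91
open Pool.D2F Pool.D2Z Pool.D2F2
open Pool.D2R (dd hs co)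
open Pool.OWN68 (opl tw uw mid dirv natDegree_opl opl_jet uw_abs)
open Pool.X31 (nw)

variable {m J : ℕ}

/-- **The number stays few when the own data are refined.** -/
theorem few_ref {F : Fam m J} {κ : Type} {r D : ℕ} (d : Dat F κ r D) (W : ℕ) {p : F.Ω → ℝ}
    (hp : IsLaw p) {ζ ε ε' : Type} {z : F.Ω → ζ} {e : F.Ω → ε} {e' : F.Ω → ε'} {N K : ℕ}
    {A B : ℕ → ℝ} (hA : ∀ l < r, 0 ≤ A l)
    (hg : ∀ ω ω', 0 < p ω → 0 < p ω' → z ω = z ω' → e ω = e ω' → ∀ l < r, ∀ j, j = 1 ∨ j = 2 →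
      |(d.gp l (slam F W ω)).coeff j - (d.gp l (slam F W ω')).coeff j| ≤ A l)
    (hP : ∀ ω ω', 0 < p ω → 0 < p ω' → z ω = z ω' → e ω = e ω' → ∀ l < r, ∀ j < 2,
      |(d.P l (slam F W ω) - d.P l (slam F W ω')).coeff j| ≤ B l)
    (hK : 2 ^ N * ∑ l ∈ range r, (A l * B l + A l * B l) ≤ K) :
    CH p (fun ω => ⌊2 ^ N * nw d W (rfv p z (fun ω => (e ω, e' ω))
      (fun ω l => d.P l (slam F W ω)) (z ω) (e ω, e' ω)) ω⌋) (fun ω => ((e ω, e' ω), z ω)) ≤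
    CH p (fun ω => ⌊2 ^ N * nw d W (rfv p z e (fun ω l => d.P l (slam F W ω)) (z ω) (e ω)) ω⌋)
      (fun ω => (e ω, z ω)) + Real.log (2 * (2 * K + 2 : ℕ) + 1) := by
  obtain ⟨φ, hφ⟩ : ∃ φ : (ε × ε') × ζ → ℝ, φ = fun v => 2 ^ N * ∑ l ∈ range r,
      ((rfv p z (fun ω => (e ω, e' ω)) (fun ω l => d.gp l (slam F W ω)) v.2 v.1 l).coeff 2 *
        (rfv p z e (fun ω l => d.P l (slam F W ω)) v.2 v.1.1 l -
          rfv p z (fun ω => (e ω, e' ω)) (fun ω l => d.P l (slam F W ω)) v.2 v.1 l).coeff 0 +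
      (rfv p z (fun ω => (e ω, e' ω)) (fun ω l => d.gp l (slam F W ω)) v.2 v.1 l).coeff 1 *
        (rfv p z e (fun ω l => d.P l (slam F W ω)) v.2 v.1.1 l -
          rfv p z (fun ω => (e ω, e' ω)) (fun ω l => d.P l (slam F W ω)) v.2 v.1 l).coeff 1) :=
    ⟨_, rfl⟩
  have h1 := CH_near hp (fun ω => 2 ^ N * nw d W (rfv p z (fun ω => (e ω, e' ω))
      (fun ω l => d.P l (slam F W ω)) (z ω) (e ω, e' ω)) ω)
    (fun ω => 2 ^ N * nw d W (rfv p z e (fun ω l => d.P l (slam F W ω)) (z ω) (e ω)) ω)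
    (fun ω => ((e ω, e' ω), z ω)) φ (K := K) ?_
  · have h2 : CH p (fun ω => ⌊2 ^ N * nw d W (rfv p z e (fun ω l => d.P l (slam F W ω)) (z ω)
        (e ω)) ω⌋) (fun ω => ((e ω, e' ω), z ω)) ≤
        CH p (fun ω => ⌊2 ^ N * nw d W (rfv p z e (fun ω l => d.P l (slam F W ω)) (z ω)
        (e ω)) ω⌋) (fun ω => (e ω, z ω)) :=
      CH_mono_cond hp.nonneg fun ω ω' _ _ h => by
        simp only [Prod.mk.injEq] at h ⊢
        exact ⟨h.1.1, h.2⟩
    linarith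
  · intro ω hω
    obtain ⟨ω₁, a1, a2, a3, a4⟩ := rfv_spec (R := ℕ → Polynomial ℝ) (z := z)
      (e := fun ω => (e ω, e' ω)) hω
    obtain ⟨ω₀, b1, b2, b3, b4⟩ := rfv_spec (R := ℕ → Polynomial ℝ) (z := z) (e := e) hω
    have a3' : e ω₁ = e ω := (Prod.mk.inj a3).1
    have k1 := hg ω ω₁ hω a1 a2.symm a3'.symm
    have k2 := hP ω₀ ω₁ b1 a1 (b2.trans a2.symm) (b3.trans a3'.symm)
    rw [hφ]
    simp only [a4, b4]
    have e1 : 2 ^ N * nw d W (fun l => d.P l (slam F W ω₁)) ω -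
        (2 ^ N * nw d W (fun l => d.P l (slam F W ω₀)) ω + 2 ^ N * ∑ l ∈ range r,
        ((d.gp l (slam F W ω₁)).coeff 2 * (d.P l (slam F W ω₀) - d.P l (slam F W ω₁)).coeff 0 +
        (d.gp l (slam F W ω₁)).coeff 1 *
          (d.P l (slam F W ω₀) - d.P l (slam F W ω₁)).coeff 1)) =
        2 ^ N * ∑ l ∈ range r,
        (((d.gp l (slam F W ω)).coeff 2 - (d.gp l (slam F W ω₁)).coeff 2) *
          (d.P l (slam F W ω₀) - d.P l (slam F W ω₁)).coeff 0 +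
        ((d.gp l (slam F W ω)).coeff 1 - (d.gp l (slam F W ω₁)).coeff 1) *
          (d.P l (slam F W ω₀) - d.P l (slam F W ω₁)).coeff 1) := by
      unfold nw
      rw [← mul_add, ← mul_sub, ← Finset.sum_add_distrib, ← Finset.sum_sub_distrib]
      congr 1
      refine Finset.sum_congr rfl fun l _ => ?_
      simp only [Polynomial.coeff_sub]
      ring
    rw [e1, abs_mul, abs_of_pos (show (0 : ℝ) < 2 ^ N by positivity)]
    refine le_trans (mul_le_mul_of_nonneg_left ((Finset.abs_sum_le_sum_abs _ _).trans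
      (Finset.sum_le_sum fun l hl => ?_)) (by positivity)) hK
    have hl' := Finset.mem_range.1 hl
    refine (abs_add_le _ _).trans (add_le_add ?_ ?_)
    · rw [abs_mul]
      exact mul_le_mul (k1 l hl' 2 (Or.inr rfl)) (k2 l hl' 0 (by norm_num)) (abs_nonneg _)
        (hA l hl')
    · rw [abs_mul]
      exact mul_le_mul (k1 l hl' 1 (Or.inl rfl)) (k2 l hl' 1 (by norm_num)) (abs_nonneg _)
        (hA l hl')

/-! ### The time -/

/-- The time behind the digits of a window. -/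
theorem CH_T_le {F : Fam m J} {q : F.Ω → ℝ} (hq : IsLaw q) {b : ℕ} {V : Type}
    {z : F.Ω → V} (hz : ∀ ω ω', 0 < q ω → 0 < q ω' → z ω = z ω' → F.T1 b ω = F.T1 b ω') :
    CH q F.T z ≤ ((J - b : ℕ) : ℝ) * Real.log 2 := by
  classical
  have h1 : CH q F.T z ≤ CH q F.T (fun ω => (F.T1 b ω, z ω)) := by
    refine CH_mono_cond hq.nonneg fun ω ω' h h' e => ?_
    simp only [Prod.mk.injEq]
    exact ⟨hz ω ω' h h' e, e⟩
  refine h1.trans ?_
  have h2 := CH_le_card hq.nonneg hq.sum_one F.T (fun ω => (F.T1 b ω, z ω))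
    (fun v => Finset.Ico (v.1 * 2 ^ (J - b)) ((v.1 + 1) * 2 ^ (J - b)))
    (fun ω _ => by
      rw [Finset.mem_Ico]
      unfold Fam.T1
      exact ⟨Nat.div_mul_le_self _ _, by
        rw [← Nat.div_lt_iff_lt_mul (by positivity)]
        exact Nat.lt_succ_self _⟩)
  refine h2.trans (le_of_eq ?_)
  have h3 : ∀ ω : F.Ω, Real.log ((Finset.Ico (F.T1 b ω * 2 ^ (J - b))
      ((F.T1 b ω + 1) * 2 ^ (J - b))).card : ℝ) = ((J - b : ℕ) : ℝ) * Real.log 2 := by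
    intro ω
    rw [Nat.card_Ico, add_mul, one_mul, Nat.add_sub_cancel_left]
    push_cast
    rw [Real.log_pow]
  simp only [h3]
  exact Ex_const hq.sum_one _

/-- **The time is free of the line.** -/
theorem CH_tm {F : Fam m J} {q : F.Ω → ℝ} (hq : IsLaw q) {a : ℕ} {V E : Type}
    {z : F.Ω → V} {e : F.Ω → E} {x : ℝ}
    (hT : ((J - a : ℕ) : ℝ) * Real.log 2 - x ≤ CH q F.T (slam F a))
    (hz : ∀ ω ω', 0 < q ω → 0 < q ω' → z ω = z ω' → F.T1 a ω = F.T1 a ω')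
    (hze : Det q (slam F a) (fun ω => (e ω, z ω))) :
    CH q e z ≤ CH q e (fun ω => (F.T ω, z ω)) + x := by
  have h1 := CH_chain hq.nonneg F.T e z
  have h2 := CH_chain hq.nonneg e F.T z
  have h3 : CH q (fun ω => (F.T ω, e ω)) z = CH q (fun ω => (e ω, F.T ω)) z := by
    refine CH_congr hq.nonneg ?_ ?_ (fun _ _ _ _ h => h) (fun _ _ _ _ h => h) <;>
    · intro ω ω' _ _ h
      simp only [Prod.mk.injEq] at h ⊢
      exact ⟨h.1.2, h.1.1⟩
  have h4 : CH q F.T (slam F a) ≤ CH q F.T (fun ω => (e ω, z ω)) :=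
    CH_mono_cond hq.nonneg hze
  have h5 := CH_T_le hq hz
  linarith

/-- **The digits of the time are full** given the line. -/
theorem CH_tdig {F : Fam m J} {q : F.Ω → ℝ} (hq : IsLaw q) {a s : ℕ} (ha : a + s ≤ J) {x : ℝ}
    (hT : ((J - a : ℕ) : ℝ) * Real.log 2 - x ≤ CH q F.T (slam F a)) :
    (s : ℝ) * Real.log 2 - x ≤ CH q (F.T1 (a + s)) (slam F a) := by
  have h1 := CH_le_add hq.nonneg F.T (F.T1 (a + s)) (slam F a)
  have h2 : CH q F.T (fun ω => (F.T1 (a + s) ω, slam F a ω)) ≤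
      ((J - (a + s) : ℕ) : ℝ) * Real.log 2 :=
    CH_T_le hq fun ω ω' _ _ h => (Prod.ext_iff.1 h).1
  have e1 : ((J - a : ℕ) : ℝ) = ((J - (a + s) : ℕ) : ℝ) + s := by
    have : J - a = (J - (a + s)) + s := by omega
    rw [this]
    push_cast
    ring
  rw [e1] at hT
  linarith

/-- The natural time, in digits. -/
theorem tn_floor {F : Fam m J} {a s : ℕ} (hs : 1 ≤ s) (ha : a + s ≤ J) (ω : F.Ω) :
    ⌊2 ^ s * tn F a ω⌋ = (F.T1 (a + s) ω : ℤ) - (2 ^ s * (F.T1 a ω : ℤ) + 2 ^ (s - 1)) := by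
  have h1 := Pool.OWN68.t_mid F (show a ≤ J by omega) ω
  have h2 : mid F a (slam F a ω) none = ((F.T1 a ω : ℝ) + 1 / 2) / 2 ^ a := rfl
  rw [h2] at h1
  have e1 : (2 : ℝ) ^ s * tn F a ω = (F.T ω : ℝ) / 2 ^ (J - (a + s)) -
      ((2 ^ s * (F.T1 a ω : ℤ) + 2 ^ (s - 1) : ℤ) : ℝ) := by
    unfold tn
    have h3 : uw F a ω = 2 ^ (a + 1) * (F.t ω - ((F.T1 a ω : ℝ) + 1 / 2) / 2 ^ a) := by
      rw [h1]
      field_simp
      ring
    have h4 : F.t ω = (F.T ω : ℝ) / (2 ^ (a + s) * 2 ^ (J - (a + s))) := by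
      rw [← pow_add]
      unfold Fam.t
      congr 2
      omega
    obtain ⟨s', rfl⟩ : ∃ s', s = s' + 1 := ⟨s - 1, by omega⟩
    rw [h3, h4]
    push_cast
    simp only [pow_add, pow_one]
    have hj : (2 : ℝ) ^ (J - (a + (s' + 1))) ≠ 0 := by positivity
    field_simp
  rw [e1, Int.floor_sub_intCast]
  congr 1
  have h5 : ((F.T ω : ℝ) / 2 ^ (J - (a + s))) = ((F.T ω : ℝ) / ((2 ^ (J - (a + s)) : ℕ) : ℝ)) := by
    push_cast
    rfl
  rw [h5, Int.floor_div_natCast, Int.floor_natCast]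
  unfold Fam.T1
  push_cast
  rfl

/-- **The digits of the natural time are full** given the line. -/
theorem full_T {F : Fam m J} {q : F.Ω → ℝ} (hq : IsLaw q) {a s : ℕ} (hs : 1 ≤ s)
    (ha : a + s ≤ J) {x : ℝ} (y : F.Ω → ℝ)
    (hT : ((J - a : ℕ) : ℝ) * Real.log 2 - x ≤ CH q F.T (slam F a)) :
    (s : ℝ) * Real.log 2 - x ≤ CH q (fun ω => cP s (tn F a) y ω 0) (slam F a) := by
  refine (CH_tdig hq ha hT).trans (CH_mono_left hq.nonneg fun ω ω' _ _ h => ?_)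
  obtain ⟨h1, h2⟩ := Prod.mk.inj h
  have e0 : ∀ ν : F.Ω, cP s (tn F a) y ν 0 = ⌊2 ^ s * tn F a ν⌋ := fun ν => by
    unfold cP
    rw [if_pos rfl]
  have e1 : F.T1 a ω = F.T1 a ω' := (Prod.mk.inj (Prod.mk.inj h2).2).2
  rw [e0, e0, tn_floor hs ha, tn_floor hs ha, e1] at h1
  omega

/-- The natural position, from the rounded point. -/
theorem yn_eq {F : Fam m J} {c : ℕ → Fin m} {g : ℕ → ℕ} {a : ℕ}
    {ψ : PtT F → ℕ → Option (Fin m) → ℝ} (hψ : ∀ y l, CvC c l (ψ y l)) (ω : F.Ω) :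
    yn F c g a ψ ω = 2 ^ g 0 * ((F.X J ω (c 0) : ℝ) / 2 ^ J -
      ψ (ptr F J ω) 0 none * ((F.T ω : ℝ) / 2 ^ J)) := by
  have e1 : cv (ψ (ptr F J ω) 0) (hx F ω) = ψ (ptr F J ω) 0 none * ((F.T ω : ℝ) / 2 ^ J) := by
    rw [cv_eq (c := c) (i := 0) (fun a ha => absurd ha (Nat.not_lt_zero a)) (hψ _ 0),
      Finset.sum_range_zero, add_zero]
    rfl
  unfold yn
  simp only [eta]
  rw [e1]
  rfl

/-- **The digits of the natural time and of the position are full.** -/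
theorem full_P {F : Fam m J} {q : F.Ω → ℝ} (hq : IsLaw q) {c : ℕ → Fin m} {g : ℕ → ℕ} {a s : ℕ}
    (hs : 1 ≤ s) (ha : a + s ≤ J) (hgs : g 0 + s ≤ J) {ψ : PtT F → ℕ → Option (Fin m) → ℝ}
    (hψ : ∀ y l, CvC c l (ψ y l)) {ζ : Type} {z : LnT F → ζ} {x y : ℝ}
    (hzψ : ∀ ω ω', 0 < q ω → 0 < q ω' → z (slam F a ω) = z (slam F a ω') →
      ψ (ptr F J ω) = ψ (ptr F J ω') ∧ F.T1 a ω = F.T1 a ω')
    (hT : ((J - a : ℕ) : ℝ) * Real.log 2 - x ≤ CH q F.T (slam F a))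
    (hY : ((J - g 0 : ℕ) : ℝ) * Real.log 2 - y ≤
      CH q (fun ω => F.X J ω (c 0)) (fun ω => (F.T ω, z (slam F a ω)))) :
    2 * (s * Real.log 2) - (x + y + 2) ≤
      CH q (cP s (tn F a) (yr F c g a ψ q z)) (fun ω => z (slam F a ω)) := by
  have e0 : ∀ ν : F.Ω, cP s (tn F a) (yr F c g a ψ q z) ν 0 = ⌊2 ^ s * tn F a ν⌋ := fun ν => by
    unfold cP
    rw [if_pos rfl]
  have e1 : ∀ ν : F.Ω, cP s (tn F a) (yr F c g a ψ q z) ν 1 = ⌊2 ^ s * yr F c g a ψ q z ν⌋ :=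
    fun ν => by
      unfold cP
      rw [if_neg (by decide)]
  have h1 : CH q (fun ω => (⌊2 ^ s * yr F c g a ψ q z ω⌋, ⌊2 ^ s * tn F a ω⌋))
      (fun ω => z (slam F a ω)) ≤
      CH q (cP s (tn F a) (yr F c g a ψ q z)) (fun ω => z (slam F a ω)) := by
    refine CH_mono_left hq.nonneg fun ω ω' _ _ h => ?_
    have h2 := (Prod.mk.inj h).1
    have h3 := congrFun h2 0
    have h4 := congrFun h2 1
    rw [e0, e0] at h3
    rw [e1, e1] at h4
    exact Prod.ext h4 h3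
  have h2 := CH_chain hq.nonneg (fun ω => ⌊2 ^ s * yr F c g a ψ q z ω⌋)
    (fun ω => ⌊2 ^ s * tn F a ω⌋) (fun ω => z (slam F a ω))
  have h3 : (s : ℝ) * Real.log 2 - x ≤ CH q (fun ω => ⌊2 ^ s * tn F a ω⌋)
      (fun ω => z (slam F a ω)) := by
    have k1 := full_T hq hs ha (yr F c g a ψ q z) hT
    have k2 : (fun ω => cP s (tn F a) (yr F c g a ψ q z) ω 0) = fun ω => ⌊2 ^ s * tn F a ω⌋ :=
      funext e0
    rw [k2] at k1
    refine k1.trans (CH_mono_cond hq.nonneg fun ω ω' _ _ h => ?_)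
    show z (slam F a ω) = z (slam F a ω')
    rw [show slam F a ω = slam F a ω' from h]
  have h4 : CH q (fun ω => ⌊2 ^ s * yr F c g a ψ q z ω⌋) (fun ω => (F.T ω, z (slam F a ω))) ≤
      CH q (fun ω => ⌊2 ^ s * yr F c g a ψ q z ω⌋)
        (fun ω => (⌊2 ^ s * tn F a ω⌋, z (slam F a ω))) := by
    refine CH_mono_cond hq.nonneg fun ω ω' _ _ h => ?_
    obtain ⟨k1, k2⟩ := Prod.mk.inj h
    refine Prod.ext ?_ k2
    show ⌊2 ^ s * tn F a ω⌋ = ⌊2 ^ s * tn F a ω'⌋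
    rw [tn_floor hs ha, tn_floor hs ha]
    unfold Fam.T1
    rw [k1]
  have h5 := CH_le_add hq.nonneg (fun ω => F.X J ω (c 0))
    (fun ω => ⌊2 ^ s * yr F c g a ψ q z ω⌋) (fun ω => (F.T ω, z (slam F a ω)))
  have h6 : CH q (fun ω => F.X J ω (c 0)) (fun ω => (⌊2 ^ s * yr F c g a ψ q z ω⌋,
      (F.T ω, z (slam F a ω)))) ≤ Real.log (2 * (2 ^ (J - (g 0 + s)) : ℕ) + 1) := by
    refine Pool.OWN68.CH_pair hq _ _ fun ω ω' hω hω' h => ?_
    simp only [Prod.mk.injEq] at h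
    obtain ⟨k1, k2, k3⟩ := h
    obtain ⟨k4, -⟩ := hzψ ω ω' hω hω' k3
    have k5 : yr F c g a ψ q z ω - yr F c g a ψ q z ω' = yn F c g a ψ ω - yn F c g a ψ ω' := by
      unfold yr
      rw [k3]
      ring
    have k6 : yn F c g a ψ ω - yn F c g a ψ ω' =
        2 ^ g 0 / 2 ^ J * ((F.X J ω (c 0) : ℝ) - F.X J ω' (c 0)) := by
      rw [yn_eq hψ, yn_eq hψ, k4, k2]
      ring
    have k7 := (Int.abs_sub_lt_one_of_floor_eq_floor k1).le
    rw [← mul_sub, k5, k6, ← mul_assoc, abs_mul, abs_of_pos (by positivity)] at k7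
    have k8 : (2 : ℝ) ^ s * (2 ^ g 0 / 2 ^ J) = 1 / 2 ^ (J - (g 0 + s)) := by
      have : (2 : ℝ) ^ J = 2 ^ (g 0 + s) * 2 ^ (J - (g 0 + s)) := by
        rw [← pow_add]
        congr 1
        omega
      rw [this, pow_add]
      field_simp
    rw [k8, one_div_mul_eq_div, div_le_one (by positivity)] at k7
    have k9 : |((F.X J ω (c 0) - F.X J ω' (c 0) : ℤ) : ℝ)| ≤
        (((2 ^ (J - (g 0 + s)) : ℕ) : ℤ) : ℝ) := by
      push_cast
      exact k7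
    exact_mod_cast k9
  have h7 : Real.log (2 * (2 ^ (J - (g 0 + s)) : ℕ) + 1) ≤
      ((J - (g 0 + s) : ℕ) : ℝ) * Real.log 2 + 2 * Real.log 2 := by
    have k1 : (2 * ((2 ^ (J - (g 0 + s)) : ℕ) : ℝ) + 1) ≤ 2 ^ (J - (g 0 + s)) * 2 ^ 2 := by
      push_cast
      have : (1 : ℝ) ≤ 2 ^ (J - (g 0 + s)) := one_le_pow₀ (by norm_num)
      linarith
    refine (Real.log_le_log (by positivity) k1).trans (le_of_eq ?_)
    rw [Real.log_mul (by positivity) (by positivity), Real.log_pow, Real.log_pow]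
    push_cast
    ring
  have h8 := Real.log_two_lt_d9
  have e2 : ((J - g 0 : ℕ) : ℝ) = ((J - (g 0 + s) : ℕ) : ℝ) + s := by
    have : J - g 0 = (J - (g 0 + s)) + s := by omega
    rw [this]
    push_cast
    ring
  rw [e2] at hY
  linarith

/-- **The own data are free of the visible data** from the freeness of the records `za`, `zb`. -/
theorem free_of {F : Fam m J} {q : F.Ω → ℝ} (hq : IsLaw q) {a : ℕ} {Va Vb E X : Type}
    {za : F.Ω → Va} {zb : F.Ω → Vb} {e : F.Ω → E} {u : F.Ω → X} {x x₁ x₂ : ℝ}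
    (hT : ((J - a : ℕ) : ℝ) * Real.log 2 - x ≤ CH q F.T (slam F a))
    (hz : ∀ ω ω', 0 < q ω → 0 < q ω' → za ω = za ω' → F.Z ω = F.Z ω' ∧ F.T1 a ω = F.T1 a ω')
    (hze : Det q (slam F a) (fun ω => (e ω, za ω)))
    (free : CH q e (fun ω => (za ω, F.W ω)) ≤ CH q e (fun ω => (zb ω, F.W ω)) + x₁)
    (few : CH q u zb ≤ x₂) :
    CH q e za ≤ CH q e (fun ω => (u ω, zb ω)) + (x + x₁ + x₂) := by
  have h1 := CH_tm hq hT (fun ω ω' h h' k => (hz ω ω' h h' k).2) hze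
  have h2 : CH q e (fun ω => (F.T ω, za ω)) ≤ CH q e (fun ω => (za ω, F.W ω)) := by
    refine CH_mono_cond hq.nonneg fun ω ω' h h' k => ?_
    obtain ⟨k1, k2⟩ := Prod.mk.inj k
    refine Prod.ext k2 ?_
    exact Prod.ext k1 (hz ω ω' h h' k2).1
  have h3 : CH q e (fun ω => (zb ω, F.W ω)) ≤ CH q e zb :=
    CH_mono_cond hq.nonneg fun ω ω' _ _ k => (Prod.mk.inj k).1
  have h4 := CH_le_add hq.nonneg e u zb
  linarith

end Pool.D2N
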