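import Pool.Agent.H90.D2.Hgd
import Pool.Agent.H64.F5.AllThree

/-!
# The geometry of the hop windows

`hop_geo`: on the event of finitely many windows with charts near the covectors `Sv`, the charts are
natural (`nat_all`), there are frames of four coordinates at the windows of the list `L₃` near `Sv`,
and the gradients of the label closed on the window `k₀` are natural.
-/

set_option autoImplicit false

namespace Pool.D2N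

open Finset Real MvPolynomial
open Pool.Agent.H49.Ent Pool.Agent.H32.Dense Pool.STK Pool.KA Pool.KSAT Pool.K2S Pool.PB Pool.S6C
open Pool.GEN Pool.CHT Pool.CHX Pool.LA91
open Pool.LBT (ThrOf)
open Pool.D2F Pool.D2Z Pool.D2F2
open Pool.D2R (Wins)
open Pool.F5 (NatH LvT nat_all)

variable {m J : ℕ}

theorem hop_geo (m D : ℕ) (hD : 1 ≤ D) : ∃ C : ℕ, 1 ≤ C ∧ ∀ {S : PCl m}
    {P : List (Fin m) × Fin m → ℝ → ℝ → ℝ} {θ : ℝ} {c : ℕ → Fin m} {R : ℕ → Prop}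
    {C₀ a Eb ηm ζ υ e h κ₀ : ℝ} {o ε p' η σ : ℕ → ℝ} {lv be : ℕ → ℕ → ℝ} {Dr N M k₀ : ℕ}
    (W : ℕ → ℚ) (LS L L₃ : List ℕ) (q pb : ℕ → ℕ), ThrOf (chsys m θ) S P → TmH S →
    Set.InjOn c (Set.Iio 4) → D ≤ Dr → (∀ l < 3, R l) → 0 < h → h ≤ ζ → 0 ≤ υ → 0 < κ₀ →
    C₀ * ηm ≤ ζ → Eb + C * (ζ + υ) ≤ e → (∀ k ∈ LS, k ≤ N) →
    (∀ k ∈ L, k ∈ LS ∧ o k ≤ W k ∧ 0 ≤ W k ∧ W k < 1 ∧ e < θ * W k) →
    (∀ k ∈ L, ∀ l < 3, bet P c l (W k) (W k) + h ≤ 1 ∧ bet P c l (W k) (W k) ≤ lv k l + ζ) →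
    (∀ k ∈ L, ∀ l ≤ 2, Eb + lv k l + C * (ζ + υ) ≤ 1) →
    (∀ k ∈ L, C * (ζ + υ) ≤ lv k 0) →
    (∀ k ∈ L, ∀ l, 1 ≤ l → l ≤ 2 →
      q k ∈ LS ∧ lv k l - o k + C * ζ + υ ≤ lv (q k) l - o (q k)) →
    (∀ k ∈ L₃, k ∈ L ∧ pb k ∈ L ∧ o k ≤ o (pb k) ∧ o k + C * ζ ≤ 1 ∧ lv k 3 ≤ 1 ∧
      C * (ζ + υ) ≤ lv k 1 ∧
      lv (pb k) 1 - lv (pb k) 0 + C * ζ ≤ lv k 1 - lv k 0 + υ ∧
      ∀ l < 2, lv k (l + 1) - lv k 0 + C * ζ ≤ lv (pb k) (l + 1) - lv (pb k) 0) →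
    k₀ ∈ L₃ → lv k₀ 3 + (a - o k₀) ≤ p' k₀ → C * (ζ + υ) ≤ lv k₀ 3 →
    ∃ κ' : ℝ, 0 < κ' ∧ Bas S (fun J F A => ∀ (z : ℕ → ℕ → ℕ) (κ : ℝ) (b : ℕ → ℕ → ℝ)
      (B : F.Ω → Prop) (gc gT g₀ : ℕ → ℕ → ℕ)
      (G : ℕ → PtT F → ℕ → MvPolynomial (Option (Fin m)) ℝ)
      (H : ℕ → LnT F → ℕ → MvPolynomial (Option (Fin m)) ℝ)
      (T : ℕ → PtT F → ℕ → MvPolynomial (Option (Fin m)) ℝ)
      (TH : ℕ → LnT F → ℕ → MvPolynomial (Option (Fin m)) ℝ)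
      (Gt : ℕ → PtT F → MvPolynomial (Option (Fin m)) ℝ)
      (Ht : ℕ → LnT F → MvPolynomial (Option (Fin m)) ℝ)
      (Sv : PtT F → ℕ → Option (Fin m) → ℝ) (B₁ : F.Ω → Prop),
      Wins F c 3 D Dr N M R C₀ a Eb ηm o ε p' η σ lv be b κ z B gc gT g₀ G H T TH Gt Ht →
      κ ≤ κ' → Sub B A → Sub B₁ B → κ₀ * Pe F.p A ≤ Pe F.p B₁ → (∀ y l, CvC c l (Sv y l)) →
      (∀ ω, B₁ ω → ∀ k ∈ LS, Nc c (g₀ k) ⌊o k * J⌋₊ 4 (2 ^ ⌊ζ * J⌋₊) (Sv (ptr F J ω))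
        (fun l => grd (G k (ptr F J ω) l) (bt F ω))) →
      ∃ (B' : F.Ω → Prop) (ψ : ℕ → PtT F → ℕ → Option (Fin m) → ℝ)
        (ψH : ℕ → LnT F → ℕ → Option (Fin m) → ℝ), Sub B' B₁ ∧
        Pe F.p B₁ ≤ 2 * (C : ℝ) ^ (L.length + 2 * L₃.length) * Pe F.p B' ∧
        (∀ k ∈ L₃, WFr F c 4 ⌊o k * J⌋₊ ⌊C * (ζ + υ) * J⌋₊
          (⌊(Eb + 2 * ηm) * J⌋₊ + ⌊C * (ζ + υ) * J⌋₊) (g₀ k) B' (ψ k) (ψH k) Sv) ∧
        (∀ k ∈ L₃, ∀ l ≤ 3, NatH F c ⌊o k * J⌋₊ (g₀ k) B' (G k) ⌊C * (ζ + υ) * J⌋₊ l) ∧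
        ∀ ω, B' ω → ∀ i < 3, ∀ j, |(gq F c (g₀ k₀) ⌊o k₀ * J⌋₊ 0 (ψH k₀) (Ht k₀)
          (slam F ⌊o k₀ * J⌋₊ ω) i).coeff (j + 1)| ≤
            2 ^ ⌊C * (ζ + υ) * J⌋₊ / 2 ^ g₀ k₀ 3 * 2 ^ g₀ k₀ i) := by
  obtain ⟨C₁, hC₁, hnat⟩ := nat_all m D 3 hD (by norm_num)
  obtain ⟨C₂, hC₂, hfrm⟩ := hop_frm m D hD
  obtain ⟨C, hC⟩ : ∃ C : ℕ, C = 2 * C₂ * (C₁ + 2) + C₁ + 8 * (C₁ + 2) := ⟨_, rfl⟩
  have hC₁R : (1 : ℝ) ≤ C₁ := by exact_mod_cast hC₁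
  have hC₂R : (1 : ℝ) ≤ C₂ := by exact_mod_cast hC₂
  have hCX : (C : ℝ) = 2 * C₂ * (C₁ + 2) + C₁ + 8 * (C₁ + 2) := by
    rw [hC]
    push_cast
    ring
  have hC12 : 0 ≤ (C₂ : ℝ) * (C₁ + 2) := by positivity
  have hC1C : C₁ ≤ C := by rw [hC]; omega
  have hC2C : C₂ ≤ C := by
    rw [hC]
    nlinarith
  refine ⟨C, by omega, ?_⟩
  intro S P θ c R C₀ a Eb ηm ζ υ e h κ₀ o ε p' η σ lv be Dr N M k₀ W LS L L₃ q pb hP hT hc hDr hR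
    hh hhζ hυ hκ₀ hCη hEe hLS hL hpl hnum hl0 hdeep h3 hk₀ hpk hlv
  have hζ : 0 < ζ := lt_of_lt_of_le hh hhζ
  have hCR : (1 : ℝ) ≤ C := by linarith
  -- numbers
  have n1 : (C₁ : ℝ) * ζ ≤ C * ζ :=
    mul_le_mul_of_nonneg_right (by exact_mod_cast hC1C) hζ.le
  have n2 : (C₁ : ℝ) * ζ + υ ≤ C * (ζ + υ) := by
    have h1 : (1 : ℝ) * υ ≤ C * υ := mul_le_mul_of_nonneg_right hCR hυ
    rw [mul_add]
    linarith
  have n3 : 4 * ((C₁ : ℝ) * ζ + 2 * υ) ≤ C * (ζ + υ) := by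
    have h1 : (4 * C₁ : ℝ) * ζ ≤ C * ζ := mul_le_mul_of_nonneg_right (by linarith) hζ.le
    have h2 : (8 : ℝ) * υ ≤ C * υ := mul_le_mul_of_nonneg_right (by linarith) hυ
    rw [mul_add]
    linarith
  have n4 : (C₂ : ℝ) * (C₁ * ζ + 2 * υ) ≤ C * (ζ + υ) := by
    have h0 : (0 : ℝ) ≤ C₂ * C₁ := by positivity
    have h1 : ((C₂ : ℝ) * C₁) * ζ ≤ C * ζ := by
      refine mul_le_mul_of_nonneg_right ?_ hζ.le
      rw [hCX]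
      linarith
    have h2 : ((C₂ : ℝ) * 2) * υ ≤ C * υ := by
      refine mul_le_mul_of_nonneg_right ?_ hυ
      rw [hCX]
      linarith
    rw [mul_add, mul_add]
    linarith
  have n5 : 0 ≤ (C : ℝ) * ζ := by positivity
  obtain ⟨κ₂, hκ₂⟩ : ∃ κ₂ : ℝ, κ₂ = κ₀ / C ^ (L.length + L₃.length) := ⟨_, rfl⟩
  have hκ₂0 : 0 < κ₂ := by rw [hκ₂]; positivity
  obtain ⟨κ', hκ', hb⟩ := hnat (R := R) (a := a) (Eb := Eb) (ηm := ηm) (ε := ε) (p' := p')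
    (η := η) (σ := σ) (be := be) (M := M) W LS L L₃ q pb hP hT hc hDr hh hhζ hυ hκ₀ hCη
    (by linarith) hLS hL (fun k hk l hl _ => hpl k hk l hl) (fun k hk l hl _ => by
      have := hnum k hk l hl
      linarith) (fun k hk => by
      have := hl0 k hk
      linarith) (fun k hk l h1 h2 _ => by
      obtain ⟨h4, h5⟩ := hdeep k hk l h1 h2
      exact ⟨h4, by linarith⟩) (fun k hk => by
      obtain ⟨a1, a2, a3, a4, a5, a6, a7, a8⟩ := h3 k hk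
      exact ⟨le_rfl, a1, a2, a3, by linarith, a5, by linarith, by linarith,
        fun l hl => by linarith [a8 l hl]⟩)
  have hf := hfrm (R := R) (C₀ := C₀) (a := a) (Eb := Eb) (ηm := ηm) (ζ := C₁ * ζ + 2 * υ) (e := e)
    (h := h) (κ₀ := κ₂) (o := o) (ε := ε) (p' := p') (η := η) (σ := σ) (lv := lv) (be := be)
    (Dr := Dr) (N := N) (M := M) (k₀ := k₀) W L₃ hP hT hc hR hh (by nlinarith) hκ₂0 (by nlinarith)
    (by linarith) (fun k hk => by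
      obtain ⟨a1, -⟩ := h3 k hk
      obtain ⟨b1, b2⟩ := hL k a1
      exact ⟨hLS k b1, b2⟩) (fun k hk => by
      obtain ⟨a1, -⟩ := h3 k hk
      obtain ⟨b1, b2⟩ := hpl k a1 0 (by norm_num)
      exact ⟨b1, by nlinarith⟩) (fun k hk => by
      obtain ⟨a1, -⟩ := h3 k hk
      have := hnum k a1 0 (by norm_num)
      linarith) hk₀ hpk (by linarith)
  refine ⟨κ', hκ', Bas.mono 0 (hb.and hf) ?_⟩
  rintro J - F A ⟨hA, hA2⟩ z κ b B gc gT g₀ G H T TH Gt Ht Sv B₁ Wn hκκ hBA hB₁B hκB hSd hS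
  have hJ0 : (0 : ℝ) ≤ J := Nat.cast_nonneg J
  have hp := Pe_nonneg F.isLaw
  obtain ⟨B₂, c1, c2, c3, c4⟩ := hA z κ b B gc gT g₀ G H T TH Gt Ht Sv B₁ Wn hκκ hBA hB₁B hκB hSd hS
  have hmono : ⌊(C₁ * ζ + 2 * υ) * J⌋₊ ≤ ⌊C * (ζ + υ) * J⌋₊ := by
    refine Nat.floor_le_floor (mul_le_mul_of_nonneg_right ?_ hJ0)
    have : 0 ≤ (C₁ : ℝ) * ζ + 2 * υ := by positivity
    linarith
  have hmono2 : ⌊C₂ * (C₁ * ζ + 2 * υ) * J⌋₊ ≤ ⌊C * (ζ + υ) * J⌋₊ :=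
    Nat.floor_le_floor (mul_le_mul_of_nonneg_right n4 hJ0)
  have hCp : Pe F.p B₁ ≤ (C : ℝ) ^ (L.length + L₃.length) * Pe F.p B₂ :=
    c2.trans (mul_le_mul_of_nonneg_right (pow_le_pow_left₀ (by positivity)
      (by exact_mod_cast hC1C) _) (hp _))
  have hNt : ∀ k ∈ L₃, ∀ l ≤ 3, NatH F c ⌊o k * J⌋₊ (g₀ k) B₂ (G k) ⌊(C₁ * ζ + 2 * υ) * J⌋₊ l := by
    intro k hk l hl
    rcases Nat.lt_or_ge l 3 with hl3 | hl3
    · obtain ⟨ψ, ψH, -, -, h4⟩ := c3 k (h3 k hk).1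
      exact (h4 l (by omega) (by omega)).sub (fun _ h => h)
        (Nat.floor_le_floor (mul_le_mul_of_nonneg_right (by linarith) hJ0))
    · rw [show l = 3 by omega]
      exact c4 k hk
  obtain ⟨B', ψ, ψH, d1, d2, d3, d4⟩ := hA2 z κ b B gc gT g₀ G H T TH Gt Ht Sv B₂ Wn hBA
    (fun ω hω => hB₁B ω (c1 ω hω)) (by
      have h2 : κ₀ * Pe F.p A ≤ (C : ℝ) ^ (L.length + L₃.length) * Pe F.p B₂ := hκB.trans hCp
      rw [hκ₂, div_mul_eq_mul_div, div_le_iff₀ (by positivity)]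
      linarith) hSd (fun ω hω k hk => (hS ω (c1 ω hω) k (hL k (h3 k hk).1).1).mono (by
        refine two_le (Nat.floor_le_floor (mul_le_mul_of_nonneg_right ?_ hJ0))
        nlinarith)) hNt
  refine ⟨B', ψ, ψH, fun ω hω => c1 ω (d1 ω hω), ?_, fun k hk => (d3 k hk).sub (fun _ h => h)
    hmono2 (by omega), fun k hk l hl => (hNt k hk l hl).sub d1 hmono, fun ω hω i hi j => ?_⟩
  · have h4 : 2 * (C₂ : ℝ) ^ L₃.length * Pe F.p B' ≤ 2 * (C : ℝ) ^ L₃.length * Pe F.p B' := by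
      have h5 : (C₂ : ℝ) ^ L₃.length ≤ (C : ℝ) ^ L₃.length :=
        pow_le_pow_left₀ (by positivity) (by exact_mod_cast hC2C) _
      have := hp B'
      nlinarith
    calc Pe F.p B₁ ≤ (C : ℝ) ^ (L.length + L₃.length) * Pe F.p B₂ := hCp
      _ ≤ (C : ℝ) ^ (L.length + L₃.length) * (2 * (C : ℝ) ^ L₃.length * Pe F.p B') :=
          mul_le_mul_of_nonneg_left (d2.trans h4) (by positivity)
      _ = 2 * (C : ℝ) ^ (L.length + 2 * L₃.length) * Pe F.p B' := by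
          rw [show L.length + 2 * L₃.length = (L.length + L₃.length) + L₃.length by ring, pow_add]
          ring
  · exact (d4 ω hω i hi j).trans (mul_le_mul_of_nonneg_right (div_le_div_of_nonneg_right
      (two_le hmono2) (by positivity)) (by positivity))

end Pool.D2N
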