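import Pool.Agent.H90.D2.Hgo
import Pool.Agent.H23.D2.Nbc

/-!
# The frames of the hop windows, over balls

`hop_frb`: as `hop_frm`, the frames of finitely many windows with balls only. `hop_lab`: the
coefficients of the gradients of the label closed on one window. `hop_geob`: as `hop_geo`, over balls
at all windows but the window of the label and the deep window.
-/

set_option autoImplicit false

namespace Pool.D2N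

open Finset Real MvPolynomial
open Pool.Agent.H49.Ent Pool.Agent.H32.Dense Pool.STK Pool.KA Pool.KSAT Pool.K2S Pool.PB Pool.S6C
open Pool.GEN Pool.CHT Pool.CHX Pool.LA91
open Pool.LBT (ThrOf)
open Pool.D2F Pool.D2Z Pool.D2F2
open Pool.D2R (dd hs co nrm nrm_nonneg ROut1 Wins WinB ROutB winb_ok natb_all ev_list)
open Pool.OWN68 (opl tw uw mid dirv natDegree_opl opl_jet uw_abs)
open Pool.F5 (NatH WOK LvT wins_ok v1p_nat place bas_mem)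

variable {m J : ℕ}

/-- **The frames of the hop windows**, over balls. -/
theorem hop_frb (m D : ℕ) (hD : 1 ≤ D) : ∃ C : ℕ, 1 ≤ C ∧ ∀ {S : PCl m}
    {P : List (Fin m) × Fin m → ℝ → ℝ → ℝ} {θ : ℝ} {c : ℕ → Fin m}
    {C₀ a Eb ηm ζ e h κ₀ : ℝ} {o η σ : ℕ → ℝ} {lv : ℕ → ℕ → ℝ} {Dr N M : ℕ}
    (W : ℕ → ℚ) (L : List ℕ), ThrOf (chsys m θ) S P → TmH S → Set.InjOn c (Set.Iio 4) →
    0 < h → h ≤ ζ → 0 < κ₀ → C₀ * ηm ≤ ζ → Eb + C * ζ ≤ e →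
    (∀ k ∈ L, k ≤ N ∧ o k ≤ W k ∧ 0 ≤ W k ∧ W k < 1 ∧ e < θ * W k) →
    (∀ k ∈ L, bet P c 0 (W k) (W k) + h ≤ 1 ∧ bet P c 0 (W k) (W k) ≤ lv k 0 + ζ) →
    (∀ k ∈ L, Eb + lv k 0 + C * ζ ≤ 1) →
    Bas S (fun J F A => ∀ (z : ℕ → ℕ → ℕ) (κ : ℝ) (b : ℕ → ℕ → ℝ)
      (B : F.Ω → Prop) (g₀ : ℕ → ℕ → ℕ)
      (G : ℕ → PtT F → ℕ → MvPolynomial (Option (Fin m)) ℝ)
      (H : ℕ → LnT F → ℕ → MvPolynomial (Option (Fin m)) ℝ)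
      (Sv : PtT F → ℕ → Option (Fin m) → ℝ) (B₁ : F.Ω → Prop),
      WinB F c 3 D Dr N M C₀ a Eb ηm o η σ lv b κ z B g₀ G H →
      Sub B A → Sub B₁ B → κ₀ * Pe F.p A ≤ Pe F.p B₁ → (∀ y l, CvC c l (Sv y l)) →
      (∀ ω, B₁ ω → ∀ k ∈ L, Nc c (g₀ k) ⌊o k * J⌋₊ 4 (2 ^ ⌊ζ * J⌋₊) (Sv (ptr F J ω))
        (fun l => grd (G k (ptr F J ω) l) (bt F ω))) →
      (∀ k ∈ L, ROutB F c 3 ⌊o k * J⌋₊ ⌊ζ * J⌋₊ (g₀ k) B₁ (G k) (H k)) →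
      (∀ k ∈ L, ∀ l ≤ 3, NatH F c ⌊o k * J⌋₊ (g₀ k) B₁ (G k) ⌊ζ * J⌋₊ l) →
      ∃ (B' : F.Ω → Prop) (ψ : ℕ → PtT F → ℕ → Option (Fin m) → ℝ)
        (ψH : ℕ → LnT F → ℕ → Option (Fin m) → ℝ), Sub B' B₁ ∧
        Pe F.p B₁ ≤ (C : ℝ) ^ L.length * Pe F.p B' ∧
        ∀ k ∈ L, WFr F c 4 ⌊o k * J⌋₊ ⌊C * ζ * J⌋₊ (⌊(Eb + 2 * ηm) * J⌋₊ + ⌊C * ζ * J⌋₊) (g₀ k)
          B' (ψ k) (ψH k) Sv) := by
  obtain ⟨C₄, hC₄, hfrm⟩ := frm_cls m D 3 4 hD (by norm_num) (by norm_num)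
  obtain ⟨C, hC⟩ : ∃ C, C = 23 * (5 * C₄) + 300 := ⟨_, rfl⟩
  refine ⟨C, by omega, ?_⟩
  intro S P θ c C₀ a Eb ηm ζ e h κ₀ o η σ lv Dr N M W L hP hT hc hh hhζ hκ₀ hCη hEe
    hL hpl hnum
  have hζ : 0 < ζ := lt_of_lt_of_le hh hhζ
  have hC₄R : (1 : ℝ) ≤ C₄ := by exact_mod_cast hC₄
  have hCX : (C : ℝ) = 115 * C₄ + 300 := by
    rw [hC]
    push_cast
    ring
  have hCR : (1 : ℝ) ≤ C := by linarith
  obtain ⟨κ₂, hκ₂⟩ : ∃ κ₂ : ℝ, κ₂ = κ₀ / C ^ L.length := ⟨_, rfl⟩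
  have hκ₂0 : 0 < κ₂ := by rw [hκ₂]; positivity
  have hc3 : Set.InjOn c (Set.Iio 3) := hc.mono (Set.Iio_subset_Iio (by norm_num))
  have h1 := fun (k : ℕ) (hk : k ∈ L) => hfrm hP hT c hc (W k) e h ζ κ₂ (hL k hk).2.2.1
    (hL k hk).2.2.2.1 (hL k hk).2.2.2.2 hh (hpl k hk).1 hζ hκ₂0
  obtain ⟨J₁, hJ₁⟩ := exists_nat_gt (1 / ζ)
  refine Bas.mono J₁ (bas_mem L h1) ?_
  rintro J hJ F A hA z κ b B g₀ G H Sv B₁ Wn hBA hB₁B hκB hSd hS hRo hNt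
  have hp := Pe_nonneg F.isLaw
  have hJ0 : (0 : ℝ) ≤ J := Nat.cast_nonneg J
  have hζJ : 1 ≤ ζ * J := by
    have : 1 / ζ < J := hJ₁.trans_le (by exact_mod_cast hJ)
    rw [div_lt_iff₀ hζ] at this
    linarith
  obtain ⟨Y, hY⟩ : ∃ Y : ℕ, Y = ⌊ζ * J⌋₊ + 1 := ⟨_, rfl⟩
  have hY1 : ζ * J ≤ Y := by
    rw [hY]
    push_cast
    exact (Nat.lt_floor_add_one _).le
  have hY2 : (Y : ℝ) ≤ 2 * (ζ * J) := by
    rw [hY]
    push_cast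
    have := Nat.floor_le (by linarith : 0 ≤ ζ * (J : ℝ))
    linarith
  have hYp : (2 : ℝ) ^ ⌊ζ * J⌋₊ ≤ 2 ^ Y := two_le (by omega)
  have hYone : 1 ≤ Y := by omega
  have hCY : C₀ * (ηm * J) ≤ Y := by
    have : C₀ * (ηm * J) = C₀ * ηm * J := by ring
    rw [this]
    exact (mul_le_mul_of_nonneg_right hCη hJ0).trans hY1
  -- the constants
  obtain ⟨k₁, hk₁⟩ : ∃ k₁, k₁ = 5 * Y + 4 := ⟨_, rfl⟩
  obtain ⟨E, hE⟩ : ∃ E, E = k₁ + 4 * Y + 1 := ⟨_, rfl⟩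
  have hER : (E : ℝ) ≤ 23 * (ζ * J) := by
    rw [hE, hk₁]
    push_cast
    linarith
  have hCER : ((C₄ * E : ℕ) : ℝ) ≤ 23 * C₄ * (ζ * J) := by
    push_cast
    have := mul_le_mul_of_nonneg_left hER (by linarith : (0 : ℝ) ≤ C₄)
    linarith
  have hCζ : C * ζ * J = 115 * C₄ * (ζ * J) + 300 * (ζ * J) := by
    rw [hCX]
    ring
  have hC₄J : 0 ≤ C₄ * (ζ * J) := by positivity
  obtain ⟨e₀, he₀⟩ : ∃ e₀, e₀ = ⌊(Eb + 2 * ηm) * J⌋₊ := ⟨_, rfl⟩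
  have hK : C₄ * E ≤ ⌊C * ζ * J⌋₊ := Nat.le_floor (by linarith)
  -- the frames
  have hstep : ∀ k ∈ L, ∀ B' : F.Ω → Prop, Sub B' B₁ →
      Pe F.p B₁ ≤ (C : ℝ) ^ L.length * Pe F.p B' →
      ∃ B'' : F.Ω → Prop, Sub B'' B' ∧ Pe F.p B' ≤ (C : ℝ) * Pe F.p B'' ∧
        ∃ (ψ : PtT F → ℕ → Option (Fin m) → ℝ) (ψH : LnT F → ℕ → Option (Fin m) → ℝ),
          WFr F c 4 ⌊o k * J⌋₊ (C₄ * E) (e₀ + C₄ * E) (g₀ k) B'' ψ ψH Sv := by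
    intro k hk B' hB' hPB'
    obtain ⟨hkN, hok, hW0, hW1, heW⟩ := hL k hk
    have hηm0 : 0 ≤ ηm := (Wn.hη k hkN).1.trans (Wn.hη k hkN).2
    have hηζ : ηm ≤ ζ := (le_mul_of_one_le_left hηm0 Wn.C1).trans hCη
    have hηJ : ηm * J ≤ ζ * J := mul_le_mul_of_nonneg_right hηζ hJ0
    have hB'B : Sub B' B := fun ω hω => hB₁B ω (hB' ω hω)
    have hEb := Wn.Eb0
    have hfE : (e₀ : ℝ) ≤ Eb * J + 2 * (ζ * J) := by
      rw [he₀]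
      refine (Nat.floor_le (mul_nonneg (by linarith) hJ0)).trans ?_
      rw [add_mul]
      linarith
    have hSk : ∀ ω, B' ω → Nc c (g₀ k) ⌊o k * J⌋₊ 4 (2 ^ Y) (Sv (ptr F J ω))
        (fun l => grd (G k (ptr F J ω) l) (bt F ω)) := fun ω hω =>
      (hS ω (hB' ω hω) k hk).mono hYp
    have hWok := winb_ok Wn hkN hB'B (show ⌊ζ * J⌋₊ ≤ Y by omega) ((hRo k hk).sub hB') hSd hSk
    rw [← he₀] at hWok
    have hWR : (0 : ℝ) ≤ W k := by exact_mod_cast hW0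
    have hW1R : ((W k : ℚ) : ℝ) ≤ 1 := by exact_mod_cast hW1.le
    have haW : ⌊o k * J⌋₊ ≤ ⌊(W k : ℝ) * J⌋₊ :=
      Nat.floor_le_floor (mul_le_mul_of_nonneg_right hok hJ0)
    have haJ : ⌊o k * J⌋₊ ≤ J := by
      refine haW.trans ?_
      have h2 : ((W k : ℚ) : ℝ) * J ≤ J := by
        have := mul_le_mul_of_nonneg_right hW1R hJ0
        rwa [one_mul] at this
      have h3 := Nat.floor_le_floor h2
      rwa [Nat.floor_natCast] at h3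
    obtain ⟨-, -, g1, g2⟩ := Wn.g_num hkN (show 0 ≤ 3 by norm_num)
    obtain ⟨hb1, hb2⟩ := hpl k hk
    obtain ⟨p₁, hp1, hp2, hp3⟩ := place (G := g₀ k 0) (s := 4 * Y) (J := J) hb1 haW (by
      have h4 : (⌊(bet P c 0 (W k) (W k) + h) * J⌋₊ : ℝ) ≤
          (bet P c 0 (W k) (W k) + h) * J := by
        refine Nat.floor_le (mul_nonneg ?_ hJ0)
        have : (0 : ℝ) ≤ bet P c 0 (W k) (W k) := hWR.trans (hP.low _ _ _ hWR le_rfl hW1R)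
        linarith
      have h5 := mul_le_mul_of_nonneg_right hb2 hJ0
      have h6 := mul_le_mul_of_nonneg_right hhζ hJ0
      have h7 : ((⌊(bet P c 0 (W k) (W k) + h) * J⌋₊ : ℕ) : ℝ) ≤
          ((g₀ k 0 + 4 * Y : ℕ) : ℝ) := by
        push_cast
        have e1 := add_mul (bet P c 0 (W k) (W k)) h (J : ℝ)
        linarith
      have h8 : ⌊(bet P c 0 (W k) (W k) + h) * J⌋₊ ≤ g₀ k 0 + 4 * Y := by exact_mod_cast h7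
      omega) le_rfl
    obtain ⟨B'', ψ, ψH, k1, k2, k3, k4, -⟩ := hA k hk ⌊o k * J⌋₊ ⌊o k * J⌋₊
      0 e₀ k₁ (4 * Y) (C₄ * E) 0 p₁ (g₀ k) (g₀ k) _ (G k) (H k) (G k) (H k)
      (fun s => Hno (c 3) (fun s => H k s 3) s) Sv B' haJ haW (hY1.trans (by
        have : Y ≤ k₁ := by omega
        exact_mod_cast this)) (by
        rw [← hE]
        refine Nat.le_floor ?_
        push_cast at hCER ⊢
        have := mul_le_mul_of_nonneg_right hEe hJ0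
        rw [add_mul] at this
        linarith) (by rw [← hE]) (by
        rw [← hE]
        have h2 := mul_le_mul_of_nonneg_right (hnum k hk) hJ0
        rw [add_mul, add_mul, one_mul] at h2
        have h3 : ((e₀ + C₄ * E + g₀ k 0 + C₄ * E : ℕ) : ℝ) ≤ (J : ℕ) := by
          push_cast at hCER ⊢
          linarith
        exact_mod_cast h3) hp1 hp2 hp3 (fun ω hω => hBA ω (hB'B ω hω)) (by
        have h2 : κ₀ * Pe F.p A ≤ (C : ℝ) ^ L.length * Pe F.p B' := hκB.trans hPB'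
        rw [hκ₂, div_mul_eq_mul_div, div_le_iff₀ (by positivity)]
        linarith) hWok.ch hWok.row hWok.U0 (hWok.Uk.trans (two_le (by omega)))
      (fun l hl2 hl4 => (v1p_nat hWok (show l ≤ 3 by omega) ((hNt k hk l (by omega)).sub hB'
        (show ⌊ζ * J⌋₊ ≤ Y by omega))).sub (fun _ h => h) (two_le (by omega))) hSd
      (fun ω hω => by
        refine ((hSk ω hω).symm (by positivity)).mono ?_
        have e1 : (1 + (2 : ℝ) ^ Y) ^ 4 ≤ (2 ^ (Y + 1)) ^ 4 := by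
          refine pow_le_pow_left₀ (by positivity) ?_ 4
          have : (1 : ℝ) ≤ 2 ^ Y := one_le_pow₀ (by norm_num)
          rw [pow_succ]
          linarith
        calc (2 : ℝ) ^ Y * (1 + 2 ^ Y) ^ 4 ≤ 2 ^ Y * (2 ^ (Y + 1)) ^ 4 :=
              mul_le_mul_of_nonneg_left e1 (by positivity)
          _ = 2 ^ (Y + (Y + 1) * 4) := by rw [← pow_mul, ← pow_add]
          _ ≤ 2 ^ k₁ := two_le (by omega))
    rw [← hE] at k3 k4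
    refine ⟨B'', k1, k2.trans (mul_le_mul_of_nonneg_right (by linarith) (hp _)), ψ, ψH, k3, k4⟩
  obtain ⟨B', d1, d2, d3⟩ := ev_list (fun k B'' => ∃ (ψ : PtT F → ℕ → Option (Fin m) → ℝ)
    (ψH : LnT F → ℕ → Option (Fin m) → ℝ),
      WFr F c 4 ⌊o k * J⌋₊ (C₄ * E) (e₀ + C₄ * E) (g₀ k) B'' ψ ψH Sv) hCR
    (fun k B B' h hB => by
      obtain ⟨ψ, ψH, h1⟩ := h
      exact ⟨ψ, ψH, h1.sub hB le_rfl le_rfl⟩) L B₁ hstep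
  have d4 : ∀ k : ℕ, ∃ (ψ : PtT F → ℕ → Option (Fin m) → ℝ)
      (ψH : LnT F → ℕ → Option (Fin m) → ℝ), k ∈ L →
      WFr F c 4 ⌊o k * J⌋₊ (C₄ * E) (e₀ + C₄ * E) (g₀ k) B' ψ ψH Sv := by
    intro k
    by_cases hk : k ∈ L
    · obtain ⟨ψ, ψH, h1⟩ := d3 k hk
      exact ⟨ψ, ψH, fun _ => h1⟩
    · exact ⟨fun _ _ _ => 0, fun _ _ _ => 0, fun h => absurd h hk⟩
  choose ψ ψH d5 using d4
  rw [← he₀]
  refine ⟨B', ψ, ψH, d1, d2, fun k hk => (d5 k hk).sub (fun _ h => h) hK (by omega)⟩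

/-- **The label of the hop windows.** The window `k₀` of `Wins` with a frame: the coefficients of the
gradients of its label are natural. -/
theorem hop_lab (m D : ℕ) : ∃ C : ℕ, 1 ≤ C ∧ ∀ {S : PCl m} {c : ℕ → Fin m} {R : ℕ → Prop}
    {C₀ a Eb ηm ζ κ₀ : ℝ} {o ε p' η σ : ℕ → ℝ} {lv be : ℕ → ℕ → ℝ} {Dr N M k₀ : ℕ}
    (W : ℚ), TmH S → Set.InjOn c (Set.Iio 3) →
    (∀ l < 3, R l) → 0 < ζ → 0 < κ₀ → C₀ * ηm ≤ ζ → k₀ ≤ N → o k₀ ≤ W → 0 ≤ W → W < 1 →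
    lv k₀ 3 + (a - o k₀) ≤ p' k₀ → 4 * ζ ≤ lv k₀ 3 →
    Bas S (fun J F A => ∀ (z : ℕ → ℕ → ℕ) (κ : ℝ) (b : ℕ → ℕ → ℝ)
      (B : F.Ω → Prop) (gc gT g₀ : ℕ → ℕ → ℕ)
      (G : ℕ → PtT F → ℕ → MvPolynomial (Option (Fin m)) ℝ)
      (H : ℕ → LnT F → ℕ → MvPolynomial (Option (Fin m)) ℝ)
      (T : ℕ → PtT F → ℕ → MvPolynomial (Option (Fin m)) ℝ)
      (TH : ℕ → LnT F → ℕ → MvPolynomial (Option (Fin m)) ℝ)
      (Gt : ℕ → PtT F → MvPolynomial (Option (Fin m)) ℝ)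
      (Ht : ℕ → LnT F → MvPolynomial (Option (Fin m)) ℝ)
      (Sv : PtT F → ℕ → Option (Fin m) → ℝ) (B₁ : F.Ω → Prop) (k' e' : ℕ)
      (ψ : PtT F → ℕ → Option (Fin m) → ℝ) (ψH : LnT F → ℕ → Option (Fin m) → ℝ),
      Wins F c 3 D Dr N M R C₀ a Eb ηm o ε p' η σ lv be b κ z B gc gT g₀ G H T TH Gt Ht →
      Sub B A → Sub B₁ B → κ₀ * Pe F.p A ≤ Pe F.p B₁ → (∀ y l, CvC c l (Sv y l)) →
      (∀ ω, B₁ ω → Nc c (g₀ k₀) ⌊o k₀ * J⌋₊ 4 (2 ^ ⌊ζ * J⌋₊) (Sv (ptr F J ω))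
        (fun l => grd (G k₀ (ptr F J ω) l) (bt F ω))) →
      (∀ l ≤ 3, NatH F c ⌊o k₀ * J⌋₊ (g₀ k₀) B₁ (G k₀) ⌊ζ * J⌋₊ l) →
      WFr F c 4 ⌊o k₀ * J⌋₊ k' e' (g₀ k₀) B₁ ψ ψH Sv → (k' : ℝ) ≤ ζ * J →
      ∃ B' : F.Ω → Prop, Sub B' B₁ ∧ Pe F.p B₁ ≤ 2 * Pe F.p B' ∧
        ∀ ω, B' ω → ∀ i < 3, ∀ j, |(gq F c (g₀ k₀) ⌊o k₀ * J⌋₊ 0 ψH (Ht k₀)
          (slam F ⌊o k₀ * J⌋₊ ω) i).coeff (j + 1)| ≤
            2 ^ ⌊C * ζ * J⌋₊ / 2 ^ g₀ k₀ 3 * 2 ^ g₀ k₀ i) := by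
  refine ⟨200, by norm_num, ?_⟩
  intro S c R C₀ a Eb ηm ζ κ₀ o ε p' η σ lv be Dr N M k₀ W hT hc3 hR hζ hκ₀ hCη hkN hok hW0 hW1
    hpk hlv
  have h2 := gp_cls m D 3 hT c hc3 W ζ κ₀ hW0 hW1 hζ hκ₀
  obtain ⟨J₁, hJ₁⟩ := exists_nat_gt (1 / ζ)
  refine Bas.mono J₁ h2 ?_
  rintro J hJ F A hA2 z κ b B gc gT g₀ G H T TH Gt Ht Sv B₁ k' e' ψ ψH Wn hBA hB₁B hκB hSd hS hNt
    hfr hk'
  have hp := Pe_nonneg F.isLaw
  have hJ0 : (0 : ℝ) ≤ J := Nat.cast_nonneg J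
  have hζJ : 1 ≤ ζ * J := by
    have : 1 / ζ < J := hJ₁.trans_le (by exact_mod_cast hJ)
    rw [div_lt_iff₀ hζ] at this
    linarith
  obtain ⟨Y, hY⟩ : ∃ Y : ℕ, Y = ⌊ζ * J⌋₊ + 1 := ⟨_, rfl⟩
  have hY1 : ζ * J ≤ Y := by
    rw [hY]
    push_cast
    exact (Nat.lt_floor_add_one _).le
  have hY2 : (Y : ℝ) ≤ 2 * (ζ * J) := by
    rw [hY]
    push_cast
    have := Nat.floor_le (by linarith : 0 ≤ ζ * (J : ℝ))
    linarith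
  have hYp : (2 : ℝ) ^ ⌊ζ * J⌋₊ ≤ 2 ^ Y := two_le (by omega)
  have hYone : 1 ≤ Y := by omega
  have hCY : C₀ * (ηm * J) ≤ Y := by
    have : C₀ * (ηm * J) = C₀ * ηm * J := by ring
    rw [this]
    exact (mul_le_mul_of_nonneg_right hCη hJ0).trans hY1
  have hηm0 : 0 ≤ ηm := (Wn.hη k₀ hkN).1.trans (Wn.hη k₀ hkN).2
  have hηζ : ηm ≤ ζ := (le_mul_of_one_le_left hηm0 Wn.C1).trans hCη
  have hWR : (0 : ℝ) ≤ W := by exact_mod_cast hW0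
  have hW1R : ((W : ℚ) : ℝ) ≤ 1 := by exact_mod_cast hW1.le
  have haW : ⌊o k₀ * J⌋₊ ≤ ⌊(W : ℝ) * J⌋₊ :=
    Nat.floor_le_floor (mul_le_mul_of_nonneg_right hok hJ0)
  have haJ : ⌊o k₀ * J⌋₊ ≤ J := by
    refine haW.trans ?_
    have h2 : ((W : ℚ) : ℝ) * J ≤ J := by
      have := mul_le_mul_of_nonneg_right hW1R hJ0
      rwa [one_mul] at this
    have h3 := Nat.floor_le_floor h2
    rwa [Nat.floor_natCast] at h3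
  obtain ⟨X, hX⟩ : ∃ X, X = 4 * Y + 2 := ⟨_, rfl⟩
  have hoJ0 : 0 ≤ o k₀ * J := mul_nonneg (Wn.ho k₀ hkN).1 hJ0
  have haJ0 : 0 ≤ a * J := mul_nonneg ((Wn.ho k₀ hkN).1.trans (Wn.ho k₀ hkN).2) hJ0
  obtain ⟨p, hdp⟩ := dpw_of (X := X) Wn hkN hkN le_rfl hR haJ hCY (by omega) (by
      have h3 := mul_le_mul_of_nonneg_right hpk hJ0
      rw [add_mul, sub_mul] at h3
      have h4 := Nat.floor_le haJ0
      have h5 := (Nat.lt_floor_add_one (o k₀ * (J : ℝ))).le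
      have h6 : (1 : ℝ) ≤ Y := by exact_mod_cast hYone
      linarith) (by
      have h3 := mul_le_mul_of_nonneg_right hlv hJ0
      linarith) hB₁B hSd (fun ω hω => (hS ω hω).mono hYp)
    (fun l hl => (hNt l hl).sub (fun _ h => h) (by omega))
  obtain ⟨B'', f1, f2, f3⟩ := hA2 4 ⌊o k₀ * J⌋₊ k' e' Y (g₀ k₀) B₁ ψ ψH
    (Ht k₀) (2 ^ (15 * X + 21 + 4 * k' + 4) / 2 ^ g₀ k₀ 3) (by norm_num) haJ haW hY1
    (Wn.evs k₀ hkN).dH (fun ω hω => hBA ω (hB₁B ω hω)) hκB hfr.fr (by positivity) (by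
      intro ω hω V _
      refine (hdp.hsn hω V).trans ?_
      have h3 := (hfr.nr ω hω).en_le (by positivity) (show 3 ≤ 4 by norm_num) V
      have e1 : (1 + (2 : ℝ) ^ k') ^ 4 ≤ 2 ^ (4 * k' + 4) := by
        calc (1 + (2 : ℝ) ^ k') ^ 4 ≤ (2 ^ (k' + 1)) ^ 4 := by
              refine pow_le_pow_left₀ (by positivity) ?_ 4
              have : (1 : ℝ) ≤ 2 ^ k' := one_le_pow₀ (by norm_num)
              rw [pow_succ]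
              linarith
          _ = 2 ^ (4 * k' + 4) := by
              rw [← pow_mul]
              congr 1
              ring
      have h0 := en_nonneg c (g₀ k₀) ⌊o k₀ * J⌋₊ (ψ (ptr F J ω)) 3 V
      calc (2 : ℝ) ^ (15 * X + 21) * (2 ^ ⌊o k₀ * J⌋₊ / 2 ^ g₀ k₀ 3) *
            en c (g₀ k₀) ⌊o k₀ * J⌋₊ (Sv (ptr F J ω)) 3 V ≤
            2 ^ (15 * X + 21) * (2 ^ ⌊o k₀ * J⌋₊ / 2 ^ g₀ k₀ 3) *
            (2 ^ (4 * k' + 4) * en c (g₀ k₀) ⌊o k₀ * J⌋₊ (ψ (ptr F J ω)) 3 V) :=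
            mul_le_mul_of_nonneg_left (h3.trans (mul_le_mul_of_nonneg_right e1 h0))
              (by positivity)
        _ = _ := by
            rw [show 15 * X + 21 + 4 * k' + 4 = (15 * X + 21) + (4 * k' + 4) by ring, pow_add]
            ring)
  refine ⟨B'', f1, by linarith, fun ω hω i hi j => ?_⟩
  have h3 := (f3 ω hω i hi).2 j
  have e1 : opl F ⌊o k₀ * J⌋₊ (gpo c (g₀ k₀) ⌊o k₀ * J⌋₊ 3 (ψH (slam F ⌊o k₀ * J⌋₊ ω))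
      (Ht k₀ (slam F ⌊o k₀ * J⌋₊ ω)) i) (slam F ⌊o k₀ * J⌋₊ ω) =
      gq F c (g₀ k₀) ⌊o k₀ * J⌋₊ 0 ψH (Ht k₀) (slam F ⌊o k₀ * J⌋₊ ω) i := by
    unfold gq
    rw [co_zero]
  rw [e1] at h3
  refine h3.trans ?_
  have h4 : Y + (15 * X + 21 + 4 * k' + 4) ≤ ⌊((200 : ℕ) : ℝ) * ζ * J⌋₊ := by
    refine Nat.le_floor ?_
    rw [hX]
    push_cast
    nlinarith
  calc (2 : ℝ) ^ Y * (2 ^ (15 * X + 21 + 4 * k' + 4) / 2 ^ g₀ k₀ 3 * 2 ^ g₀ k₀ i) =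
      2 ^ (Y + (15 * X + 21 + 4 * k' + 4)) / 2 ^ g₀ k₀ 3 * 2 ^ g₀ k₀ i := by
        rw [pow_add]
        ring
    _ ≤ _ := by
        refine mul_le_mul_of_nonneg_right (div_le_div_of_nonneg_right (two_le h4)
          (by positivity)) (by positivity)

end Pool.D2N
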