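import Pool.Agent.H90.D2.Hgp

/-!
# The geometry of the hop windows, over balls

`hop_geob`: as `hop_geo`, with balls only at all windows but the window `k₀` of the label and the
deep window `kd`; the output at `kd` is the structure `Dpw`.
-/

set_option autoImplicit false

namespace Pool.D2N

open Finset Real MvPolynomial
open Pool.Agent.H49.Ent Pool.Agent.H32.Dense Pool.STK Pool.KA Pool.KSAT Pool.K2S Pool.PB Pool.S6C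
open Pool.GEN Pool.CHT Pool.CHX Pool.LA91
open Pool.LBT (ThrOf)
open Pool.D2F Pool.D2Z Pool.D2F2
open Pool.D2R (dd hs co nrm nrm_nonneg ROut1 Wins WinB ROutB winb_ok natb_all ev_list)
open Pool.OWN68 (opl tw uw mid dirv natDegree_opl opl_jet uw_abs)
open Pool.F5 (NatH WOK LvT wins_ok v1p_nat place bas_mem)

variable {m J : ℕ}

theorem hop_geob (m D : ℕ) (hD : 1 ≤ D) : ∃ C : ℕ, 1 ≤ C ∧ ∀ {S : PCl m}
    {P : List (Fin m) × Fin m → ℝ → ℝ → ℝ} {θ : ℝ} {c : ℕ → Fin m} {R : ℕ → Prop}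
    {Cw CB a Eb ηm ζ υ e h κ₀ : ℝ} {o ε p' η σ : ℕ → ℝ} {lv be : ℕ → ℕ → ℝ}
    {Dr N₁ N₂ M k₀ kd : ℕ}
    (W : ℕ → ℚ) (LS L₁ L L₃ : List ℕ) (q pb : ℕ → ℕ), ThrOf (chsys m θ) S P → TmH S →
    Set.InjOn c (Set.Iio 4) → D ≤ Dr → (∀ l < 3, R l) → 0 < h → h ≤ ζ → 0 ≤ υ → 0 < κ₀ →
    Cw * ηm ≤ ζ → CB * ηm ≤ ζ → Eb + C * (ζ + υ) ≤ e → (∀ k ∈ LS, k ≤ N₂) →
    (∀ k ∈ L₁, k ∈ LS ∧ o k + C * (ζ + υ) ≤ 1 ∧
      ∀ l ≤ 3, C * (ζ + υ) ≤ lv k l ∧ Eb + lv k l + C * (ζ + υ) ≤ 1) →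
    (∀ k ∈ L, k ∈ L₁ ∧ o k ≤ W k ∧ 0 ≤ W k ∧ W k < 1 ∧ e < θ * W k) →
    (∀ k ∈ L, ∀ l < 3, bet P c l (W k) (W k) + h ≤ 1 ∧ bet P c l (W k) (W k) ≤ lv k l + ζ) →
    (∀ k ∈ L, ∀ l, 1 ≤ l → l ≤ 2 →
      q k ∈ L₁ ∧ lv k l - o k + C * (ζ + υ) ≤ lv (q k) l - o (q k)) →
    (∀ k ∈ L₃, k ∈ L ∧ pb k ∈ L ∧ o k ≤ o (pb k) ∧
      lv (pb k) 1 - lv (pb k) 0 + C * ζ ≤ lv k 1 - lv k 0 + υ ∧
      ∀ l < 2, lv k (l + 1) - lv k 0 + C * ζ ≤ lv (pb k) (l + 1) - lv (pb k) 0) →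
    k₀ ∈ L₃ → k₀ ≤ N₁ → lv k₀ 3 + (a - o k₀) ≤ p' k₀ →
    kd ∈ L₃ → kd ≤ N₁ → o k₀ ≤ o kd → lv kd 3 + (a - o kd) ≤ p' k₀ →
    ∃ κ' : ℝ, 0 < κ' ∧ Bas S (fun J F A => ∀ (z : ℕ → ℕ → ℕ) (κ : ℝ) (b : ℕ → ℕ → ℝ)
      (B : F.Ω → Prop) (gc gT g₀ : ℕ → ℕ → ℕ)
      (G : ℕ → PtT F → ℕ → MvPolynomial (Option (Fin m)) ℝ)
      (H : ℕ → LnT F → ℕ → MvPolynomial (Option (Fin m)) ℝ)
      (T : ℕ → PtT F → ℕ → MvPolynomial (Option (Fin m)) ℝ)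
      (TH : ℕ → LnT F → ℕ → MvPolynomial (Option (Fin m)) ℝ)
      (Gt : ℕ → PtT F → MvPolynomial (Option (Fin m)) ℝ)
      (Ht : ℕ → LnT F → MvPolynomial (Option (Fin m)) ℝ)
      (Sv : PtT F → ℕ → Option (Fin m) → ℝ) (B₁ : F.Ω → Prop),
      Wins F c 3 D Dr N₁ M R Cw a Eb ηm o ε p' η σ lv be b κ z B gc gT g₀ G H T TH Gt Ht →
      WinB F c 3 D Dr N₂ M CB a Eb ηm o η σ lv b κ z B g₀ G H →
      κ ≤ κ' → Sub B A → Sub B₁ B → κ₀ * Pe F.p A ≤ Pe F.p B₁ → (∀ y l, CvC c l (Sv y l)) →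
      (∀ ω, B₁ ω → ∀ k ∈ LS, Nc c (g₀ k) ⌊o k * J⌋₊ 4 (2 ^ ⌊ζ * J⌋₊) (Sv (ptr F J ω))
        (fun l => grd (G k (ptr F J ω) l) (bt F ω))) →
      ∃ (B' : F.Ω → Prop) (ψ : ℕ → PtT F → ℕ → Option (Fin m) → ℝ)
        (ψH : ℕ → LnT F → ℕ → Option (Fin m) → ℝ), Sub B' B₁ ∧
        Pe F.p B₁ ≤ 2 * (C : ℝ) ^ (L₁.length + L.length + 2 * L₃.length) * Pe F.p B' ∧
        (∀ k ∈ L₃, WFr F c 4 ⌊o k * J⌋₊ ⌊C * (ζ + υ) * J⌋₊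
          (⌊(Eb + 2 * ηm) * J⌋₊ + ⌊C * (ζ + υ) * J⌋₊) (g₀ k) B' (ψ k) (ψH k) Sv) ∧
        (∀ k ∈ L₃, ∀ l ≤ 3, NatH F c ⌊o k * J⌋₊ (g₀ k) B' (G k) ⌊C * (ζ + υ) * J⌋₊ l) ∧
        (∀ k ∈ L₁, ROutB F c 3 ⌊o k * J⌋₊ ⌊C * (ζ + υ) * J⌋₊ (g₀ k) B' (G k) (H k)) ∧
        (∀ ω, B' ω → ∀ i < 3, ∀ j, |(gq F c (g₀ k₀) ⌊o k₀ * J⌋₊ 0 (ψH k₀) (Ht k₀)
          (slam F ⌊o k₀ * J⌋₊ ω) i).coeff (j + 1)| ≤
            2 ^ ⌊C * (ζ + υ) * J⌋₊ / 2 ^ g₀ k₀ 3 * 2 ^ g₀ k₀ i) ∧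
        ∃ (v v' e p : ℕ) (U : ℝ), Dpw F c D ⌊o k₀ * J⌋₊ ⌊o kd * J⌋₊ v v' e
          ⌊C * (ζ + υ) * J⌋₊ p (g₀ kd) (gT kd) U B' (G kd) (H kd) (T kd) (TH kd) (Ht k₀) Sv) := by
  obtain ⟨C₁, hC₁, hnat⟩ := natb_all m D 3 hD (by norm_num)
  obtain ⟨C₂, hC₂, hfrm⟩ := hop_frb m D hD
  obtain ⟨C₃, hC₃, hlab⟩ := hop_lab m D
  obtain ⟨E, hE⟩ : ∃ E : ℕ, E = C₁ + 2 := ⟨_, rfl⟩
  obtain ⟨C, hC⟩ : ∃ C : ℕ, C = (C₃ + 8) * (C₂ + 1) * E := ⟨_, rfl⟩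
  have hC₁R : (1 : ℝ) ≤ C₁ := by exact_mod_cast hC₁
  have hC₂R : (1 : ℝ) ≤ C₂ := by exact_mod_cast hC₂
  have hC₃R : (1 : ℝ) ≤ C₃ := by exact_mod_cast hC₃
  have hER : (E : ℝ) = C₁ + 2 := by
    rw [hE]
    push_cast
    ring
  have hCX : (C : ℝ) = (C₃ + 8) * (C₂ + 1) * E := by
    rw [hC]
    push_cast
    ring
  have hC0 : (C₂ + 1 : ℝ) * E ≤ C := by
    rw [hCX, mul_assoc]
    exact le_mul_of_one_le_left (by positivity) (by linarith)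
  have hEC : (E : ℝ) ≤ C := le_trans (le_mul_of_one_le_left (by positivity) (by linarith)) hC0
  have hC1C : (C₁ : ℝ) ≤ C := by linarith
  have h1C : (1 : ℝ) ≤ C := by linarith
  refine ⟨C, by exact_mod_cast h1C, ?_⟩
  intro S P θ c R Cw CB a Eb ηm ζ υ e h κ₀ o ε p' η σ lv be Dr N₁ N₂ M k₀ kd W LS L₁ L L₃ q pb hP
    hT hc hDr hR hh hhζ hυ hκ₀ hCw hCB hEe hLS hL₁ hL hpl hdeep h3 hk₀ hk₀N hpk hkd hkdN hoo hpd
  have hζ : 0 < ζ := lt_of_lt_of_le hh hhζ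
  have hζυ : 0 < ζ + υ := by linarith
  obtain ⟨x, hx⟩ : ∃ x, x = ζ + υ := ⟨_, rfl⟩
  rw [← hx] at hEe hL₁ hdeep hζυ
  obtain ⟨ζ₂, hζ₂⟩ : ∃ ζ₂, ζ₂ = C₁ * ζ + 2 * υ := ⟨_, rfl⟩
  obtain ⟨ζ₃, hζ₃⟩ : ∃ ζ₃, ζ₃ = (C₂ + 1) * ζ₂ := ⟨_, rfl⟩
  have hEx : ζ₂ ≤ E * x := by
    rw [hζ₂, hER, hx]
    have h1 : 0 ≤ (C₁ : ℝ) * υ := by positivity
    nlinarith
  have hζζ₂ : ζ ≤ ζ₂ := by
    rw [hζ₂]
    have : 1 * ζ ≤ C₁ * ζ := mul_le_mul_of_nonneg_right hC₁R hζ.le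
    linarith
  have hζ₂0 : 0 < ζ₂ := by linarith
  have hC₂ζ : 0 ≤ (C₂ : ℝ) * ζ₂ := by positivity
  have hζ₂₃ : ζ₂ ≤ ζ₃ := by
    rw [hζ₃, add_mul, one_mul]
    linarith
  have hζ₃0 : 0 < ζ₃ := by linarith
  have hζ₃x : ζ₃ ≤ (C₂ + 1) * E * x := by
    rw [hζ₃, mul_assoc]
    exact mul_le_mul_of_nonneg_left hEx (by positivity)
  have hCx : (C : ℝ) * x = (C₃ + 8) * ((C₂ + 1) * E * x) := by
    rw [hCX]
    ring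
  have q0 : 0 ≤ ((C₂ : ℝ) + 1) * E * x := by positivity
  have q1 : (C₃ : ℝ) * ζ₃ ≤ C * x := by
    rw [hCx]
    have h1 := mul_le_mul_of_nonneg_left hζ₃x (by linarith : (0 : ℝ) ≤ C₃)
    linarith
  have q2 : 8 * ζ₃ ≤ C * x := by
    rw [hCx]
    have h1 : 0 ≤ (C₃ : ℝ) * (((C₂ : ℝ) + 1) * E * x) := by positivity
    linarith
  have q3 : (C₁ : ℝ) * ζ + υ ≤ C * x := by linarith
  have q4 : (C₂ : ℝ) * ζ₂ ≤ ζ₃ := by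
    rw [hζ₃, add_mul, one_mul]
    linarith
  have q5 : (C₁ : ℝ) * ζ ≤ C * ζ := mul_le_mul_of_nonneg_right hC1C hζ.le
  obtain ⟨κ₂, hκ₂⟩ : ∃ κ₂ : ℝ, κ₂ = κ₀ / C ^ (L₁.length + L.length + L₃.length) := ⟨_, rfl⟩
  have hκ₂0 : 0 < κ₂ := by rw [hκ₂]; positivity
  obtain ⟨κ₃, hκ₃⟩ : ∃ κ₃ : ℝ, κ₃ = κ₂ / C ^ L₃.length := ⟨_, rfl⟩
  have hκ₃0 : 0 < κ₃ := by rw [hκ₃]; positivity
  have hc3 : Set.InjOn c (Set.Iio 3) := hc.mono (Set.Iio_subset_Iio (by norm_num))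
  have hL3 : ∀ k ∈ L₃, k ∈ L ∧ k ∈ L₁ ∧ k ∈ LS := fun k hk =>
    ⟨(h3 k hk).1, (hL k (h3 k hk).1).1, (hL₁ k (hL k (h3 k hk).1).1).1⟩
  obtain ⟨κ', hκ', hb⟩ := hnat (C₀ := CB) (a := a) (Eb := Eb) (ηm := ηm) (ζ := ζ) (υ := υ)
    (e := e) (h := h) (κ₀ := κ₀) (o := o) (η := η) (σ := σ) (lv := lv) (Dr := Dr) (N := N₂)
    (M := M) W LS L₁ L L₃ q pb hP hT hc hDr hh hhζ hυ hκ₀ hCB
    (by linarith) hLS (fun k hk => by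
      obtain ⟨a1, a2, a3⟩ := hL₁ k hk
      exact ⟨a1, by linarith, fun l hl => ⟨by linarith [(a3 l hl).1], by
        linarith [(a3 l hl).2]⟩⟩) hL (fun k hk l hl _ => hpl k hk l hl) (fun k hk l hl _ => by
      have := ((hL₁ k (hL k hk).1).2.2 l (by omega)).2
      linarith) (fun k hk l h1 h2 _ => by
      obtain ⟨h4, h5⟩ := hdeep k hk l h1 h2
      exact ⟨h4, by linarith⟩) (fun k hk => by
      obtain ⟨a1, a2, a3, a4, a5⟩ := h3 k hk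
      exact ⟨le_rfl, a1, a2, a3, by linarith, fun l hl => by linarith [a5 l hl]⟩)
  have hf := hfrm (C₀ := CB) (a := a) (Eb := Eb) (ηm := ηm) (ζ := ζ₂) (e := e)
    (h := h) (κ₀ := κ₂) (o := o) (η := η) (σ := σ) (lv := lv)
    (Dr := Dr) (N := N₂) (M := M) W L₃ hP hT hc hh (by linarith) hκ₂0 (by linarith)
    (by linarith) (fun k hk => by
      obtain ⟨b1, b2, b3⟩ := hL3 k hk
      exact ⟨hLS k b3, (hL k b1).2⟩) (fun k hk => by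
      obtain ⟨b1, b2, b3⟩ := hL3 k hk
      obtain ⟨c1, c2⟩ := hpl k b1 0 (by norm_num)
      exact ⟨c1, by linarith⟩) (fun k hk => by
      obtain ⟨b1, b2, b3⟩ := hL3 k hk
      have := ((hL₁ k b2).2.2 0 (by norm_num)).2
      linarith)
  obtain ⟨w1, w2, w3, w4, w5⟩ := hL k₀ (h3 k₀ hk₀).1
  have hg := hlab (R := R) (C₀ := Cw) (a := a) (Eb := Eb) (ηm := ηm) (ζ := ζ₃)
    (κ₀ := κ₃) (o := o) (ε := ε) (p' := p') (η := η) (σ := σ) (lv := lv) (be := be)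
    (Dr := Dr) (N := N₁) (M := M) (k₀ := k₀) (W k₀) hT hc3 hR hζ₃0 hκ₃0 (by linarith) hk₀N w2 w3
    w4 hpk (by
      have := ((hL₁ k₀ w1).2.2 3 le_rfl).1
      linarith)
  obtain ⟨J₁, hJ₁⟩ := exists_nat_gt (1 / ζ)
  refine ⟨κ', hκ', Bas.mono J₁ ((hb.and hf).and hg) ?_⟩
  rintro J hJ F A ⟨⟨hA, hA2⟩, hA3⟩ z κ b B gc gT g₀ G H T TH Gt Ht Sv B₁ Ws Wb hκκ hBA hB₁B hκB
    hSd hS
  have hJ0 : (0 : ℝ) ≤ J := Nat.cast_nonneg J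
  have hζJ : 1 ≤ ζ * J := by
    have : 1 / ζ < J := hJ₁.trans_le (by exact_mod_cast hJ)
    rw [div_lt_iff₀ hζ] at this
    linarith
  have hp := Pe_nonneg F.isLaw
  obtain ⟨B₂, c1, c2, c3, c4, c5⟩ := hA z κ b B g₀ G H Sv B₁ Wb hκκ hBA hB₁B hκB hSd hS
  have hfl : ∀ {y : ℝ}, y ≤ C * x → ⌊y * J⌋₊ ≤ ⌊C * x * J⌋₊ := fun hy =>
    Nat.floor_le_floor (mul_le_mul_of_nonneg_right hy hJ0)
  have hfl2 : ∀ {y : ℝ}, y ≤ ζ₂ → ⌊y * J⌋₊ ≤ ⌊ζ₂ * J⌋₊ := fun hy =>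
    Nat.floor_le_floor (mul_le_mul_of_nonneg_right hy hJ0)
  have hCp : Pe F.p B₁ ≤ (C : ℝ) ^ (L₁.length + L.length + L₃.length) * Pe F.p B₂ :=
    c2.trans (mul_le_mul_of_nonneg_right (pow_le_pow_left₀ (by positivity) hC1C _) (hp _))
  have hNt : ∀ k ∈ L₃, ∀ l ≤ 3, NatH F c ⌊o k * J⌋₊ (g₀ k) B₂ (G k) ⌊ζ₂ * J⌋₊ l := by
    intro k hk l hl
    rcases Nat.lt_or_ge l 3 with hl3 | hl3
    · obtain ⟨ψ, ψH, -, -, h4⟩ := c4 k (h3 k hk).1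
      exact (h4 l (by omega) (by omega)).sub (fun _ h => h) (hfl2 (by linarith))
    · rw [show l = 3 by omega]
      exact (c5 k hk).sub (fun _ h => h) (hfl2 hζ₂.ge)
  have hκB₂ : κ₂ * Pe F.p A ≤ Pe F.p B₂ := by
    have h2 : κ₀ * Pe F.p A ≤ (C : ℝ) ^ (L₁.length + L.length + L₃.length) * Pe F.p B₂ :=
      hκB.trans hCp
    rw [hκ₂, div_mul_eq_mul_div, div_le_iff₀ (by positivity)]
    linarith
  obtain ⟨B₃, ψ, ψH, d1, d2, d3⟩ := hA2 z κ b B g₀ G H Sv B₂ Wb hBA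
    (fun ω hω => hB₁B ω (c1 ω hω)) hκB₂ hSd
    (fun ω hω k hk => (hS ω (c1 ω hω) k (hL3 k hk).2.2).mono (two_le (hfl2 hζζ₂)))
    (fun k hk => (c3 k (hL3 k hk).2.1).mono (hfl2 (by linarith))) hNt
  have hDp : Pe F.p B₂ ≤ (C : ℝ) ^ L₃.length * Pe F.p B₃ :=
    d2.trans (mul_le_mul_of_nonneg_right (pow_le_pow_left₀ (by positivity) (by
      have h5 : (1 : ℝ) ≤ E := by linarith
      have h6 : ((C₂ : ℝ) + 1) * 1 ≤ (C₂ + 1) * E := mul_le_mul_of_nonneg_left h5 (by linarith)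
      linarith) _) (hp _))
  have hB₃B : Sub B₃ B := fun ω hω => hB₁B ω (c1 ω (d1 ω hω))
  obtain ⟨B', f1, f2, f3⟩ := hA3 z κ b B gc gT g₀ G H T TH Gt Ht Sv B₃ ⌊C₂ * ζ₂ * J⌋₊
    (⌊(Eb + 2 * ηm) * J⌋₊ + ⌊C₂ * ζ₂ * J⌋₊) (ψ k₀) (ψH k₀) Ws hBA hB₃B (by
      rw [hκ₃, div_mul_eq_mul_div, div_le_iff₀ (by positivity)]
      linarith) hSd (fun ω hω => (hS ω (c1 ω (d1 ω hω)) k₀ (hL3 k₀ hk₀).2.2).mono (two_le
      (Nat.floor_le_floor (mul_le_mul_of_nonneg_right (by linarith) hJ0))))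
    (fun l hl => (hNt k₀ hk₀ l hl).sub d1 (Nat.floor_le_floor
      (mul_le_mul_of_nonneg_right hζ₂₃ hJ0))) (d3 k₀ hk₀)
    ((Nat.floor_le (by positivity)).trans (mul_le_mul_of_nonneg_right q4 hJ0))
  rw [← hx]
  obtain ⟨Y, hY⟩ : ∃ Y : ℕ, Y = ⌊ζ * J⌋₊ + 1 := ⟨_, rfl⟩
  have hY1 : ζ * J ≤ Y := by
    rw [hY]
    push_cast
    exact (Nat.lt_floor_add_one _).le
  have hY2 : (Y : ℝ) ≤ 2 * (ζ * J) := by
    rw [hY]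
    push_cast
    have := Nat.floor_le (by linarith : 0 ≤ ζ * (J : ℝ))
    linarith
  have hC54 : 54 * (ζ * J) ≤ C * x * J := by
    have h1 : 6 * ζ ≤ (C₂ + 1) * E * x := by
      have h2 : (2 : ℝ) * 3 ≤ (C₂ + 1) * E :=
        mul_le_mul (by linarith) (by linarith) (by norm_num) (by positivity)
      have h3 : (C₂ + 1) * E * ζ ≤ (C₂ + 1) * E * x :=
        mul_le_mul_of_nonneg_left (by linarith) (by positivity)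
      have h4 := mul_le_mul_of_nonneg_right h2 hζ.le
      linarith
    have h2 : 9 * (6 * ζ) ≤ C * x := by
      rw [hCx]
      exact mul_le_mul (by linarith) h1 (by positivity) (by linarith)
    have h3 := mul_le_mul_of_nonneg_right h2 hJ0
    linarith
  refine ⟨B', ψ, ψH, fun ω hω => c1 ω (d1 ω (f1 ω hω)), ?_, fun k hk => ?_, fun k hk l hl =>
    (hNt k hk l hl).sub (fun ω hω => d1 ω (f1 ω hω)) (hfl (by linarith)),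
    fun k hk => ((c3 k hk).sub (fun ω hω => d1 ω (f1 ω hω))).mono (hfl (by linarith)),
    fun ω hω i hi j => ?_, ?_⟩
  · calc Pe F.p B₁ ≤ (C : ℝ) ^ (L₁.length + L.length + L₃.length) * Pe F.p B₂ := hCp
      _ ≤ (C : ℝ) ^ (L₁.length + L.length + L₃.length) * (C ^ L₃.length * (2 * Pe F.p B')) := by
          refine mul_le_mul_of_nonneg_left (hDp.trans ?_) (by positivity)
          exact mul_le_mul_of_nonneg_left f2 (by positivity)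
      _ = _ := by
          rw [show L₁.length + L.length + 2 * L₃.length =
            (L₁.length + L.length + L₃.length) + L₃.length by ring, pow_add]
          ring
  · have h5 : ⌊C₂ * ζ₂ * J⌋₊ ≤ ⌊C * x * J⌋₊ := hfl (by linarith)
    exact (d3 k hk).sub f1 h5 (by omega)
  · exact (f3 ω hω i hi j).trans (mul_le_mul_of_nonneg_right (div_le_div_of_nonneg_right
      (two_le (hfl q1)) (by positivity)) (by positivity))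
  · obtain ⟨v1, v2, v3, v4, v5⟩ := hL kd (h3 kd hkd).1
    have hlk := ((hL₁ kd v1).2.2 3 le_rfl).1
    have hok0 := Ws.ho kd hkdN
    have haJ : ⌊o kd * J⌋₊ ≤ J := by
      have h2 : o kd * J ≤ J := by
        have := mul_le_mul_of_nonneg_right (show o kd ≤ 1 by
          have := (hL₁ kd v1).2.1
          linarith [mul_pos (by linarith : (0 : ℝ) < C) hζυ]) hJ0
        rwa [one_mul] at this
      have h3 := Nat.floor_le_floor h2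
      rwa [Nat.floor_natCast] at h3
    have hoJ0 : 0 ≤ o kd * J := mul_nonneg hok0.1 hJ0
    have haJ0 : 0 ≤ a * J := mul_nonneg (hok0.1.trans hok0.2) hJ0
    obtain ⟨p, hdp⟩ := dpw_of (X := ⌊C * x * J⌋₊) (Y := Y) Ws hk₀N hkdN hoo hR haJ (by
        have h5 := mul_le_mul_of_nonneg_right hCw hJ0
        have e5 : Cw * (ηm * J) = Cw * ηm * J := by ring
        rw [e5]
        linarith) (by
        refine Nat.le_floor ?_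
        push_cast
        linarith) (by
        have h5 := mul_le_mul_of_nonneg_right hpd hJ0
        rw [add_mul, sub_mul] at h5
        have h6 := Nat.floor_le haJ0
        have h7 := (Nat.lt_floor_add_one (o kd * (J : ℝ))).le
        linarith) (by
        have h5 := mul_le_mul_of_nonneg_right hlk hJ0
        linarith) (fun ω hω => hB₃B ω (f1 ω hω)) hSd
      (fun ω hω => (hS ω (c1 ω (d1 ω (f1 ω hω))) kd (hL3 kd hkd).2.2).mono (two_le (by omega)))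
      (fun l hl => (hNt kd hkd l hl).sub (fun ω hω => d1 ω (f1 ω hω)) (hfl (by linarith)))
    exact ⟨_, _, _, p, _, hdp⟩

end Pool.D2N
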