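import Pool.Agent.H90.D2.Hgg
import Pool.Agent.H90.D2.Hgf
import Pool.Agent.H28.D2.Lns
import Pool.Agent.H28.D2.Vrec
import Pool.Agent.H28.D2.Gbw

/-!
# The hop cell: balls and records

`pt2_en`: two points of one ball in the frame. `Blw`: a closed frame and a natural ball of a window.
`Blw.zy`: the natural coordinates of two samples of one ball. `Blw.ydig`: the position behind the
natural digits, from a later ball. `Rcd`: a maximal record of a window; `rcd_ex`.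
-/

set_option autoImplicit false

namespace Pool.D2N

open Finset Real MvPolynomial
open Pool.Agent.H49.Ent Pool.Agent.H32.Dense Pool.STK Pool.KA Pool.KSAT Pool.K2S Pool.PB Pool.S6C
open Pool.GEN Pool.CHT Pool.CHX Pool.LA91
open Pool.D2F Pool.D2Z Pool.D2F2
open Pool.D2R (dd hs co)
open Pool.RCD (Cl2 vg)
open Pool.OWN68 (opl tw uw mid dirv natDegree_opl opl_jet uw_abs)
open Pool.F5 (NatH)

variable {m J : ℕ}

/-- **Two points of one ball**, in the frame. -/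
theorem pt2_en {c : ℕ → Fin m} {g ga : ℕ → ℕ} {W a k r : ℕ}
    {G : ℕ → MvPolynomial (Option (Fin m)) ℝ} {t : ℝ} {ψ : ℕ → Option (Fin m) → ℝ}
    {x x' : Option (Fin m) → ℝ} {Y : ℝ} (H : Pt2 c g ga W a k r G t ψ x x')
    (hY : (2 * r + 2) * 2 ^ k ≤ Y) (hWa : W ≤ a) (hg : ∀ l < r, g l ≤ ga l) {l : ℕ}
    (hl : l ≤ r) : en c g W ψ l (x' - x) ≤ (2 * Y ^ (r + 4)) ^ l := by
  have hk1 : (1 : ℝ) ≤ 2 ^ k := one_le_pow₀ (by norm_num)
  have hY2 : 2 * 2 ^ k ≤ Y := le_trans (mul_le_mul_of_nonneg_right (by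
    have : (0 : ℝ) ≤ r := Nat.cast_nonneg r
    linarith) (by positivity)) hY
  have hY1 : 1 ≤ Y := by linarith
  have hYY : Y ≤ Y ^ (r + 4) := le_self_pow₀ hY1 (by omega)
  have hM : 1 + 2 ^ k + Y ^ (r + 4) ≤ 2 * Y ^ (r + 4) := by linarith
  have hM1 : 1 ≤ 2 * Y ^ (r + 4) := by linarith
  induction l with
  | zero =>
    unfold en
    rw [sum_range_one, pow_zero]
    have h1 := H.t1
    have h2 : (2 : ℝ) ^ W ≤ 2 ^ a := pow_le_pow_right₀ (by norm_num) hWa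
    have h3 := mul_le_mul_of_nonneg_right h2 (abs_nonneg (x' none - x none))
    have h4 : eta c g W ψ (x' - x) 0 = 2 ^ W * (x' none - x none) := rfl
    rw [h4, abs_mul, abs_of_pos (by positivity : (0 : ℝ) < 2 ^ W)]
    linarith
  | succ l ih =>
    have ih := ih (by omega)
    have e1 : en c g W ψ (l + 1) (x' - x) = en c g W ψ l (x' - x) +
        |eta c g W ψ (x' - x) (l + 1)| := by
      unfold en
      rw [sum_range_succ]
    have hE0 := en_nonneg c g W ψ l (x' - x)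
    have h1 := H.lin hY (show l ≤ r by omega)
    have h2 := H.frm l (by omega) (x' - x)
    have h3 : Y ^ (r + 4) / 2 ^ ga l ≤ Y ^ (r + 4) / 2 ^ g l :=
      div_le_div_of_nonneg_left (by positivity) (by positivity)
        (pow_le_pow_right₀ (by norm_num) (hg l (by omega)))
    have h4 : |(x' - x) (some (c l)) - cv (ψ l) (x' - x)| ≤
        (Y ^ (r + 4) + 2 ^ k * en c g W ψ l (x' - x)) / 2 ^ g l := by
      have h5 : (x' - x) (some (c l)) - cv (ψ l) (x' - x) =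
          ((x' - x) (some (c l)) - dd (G l) x (x' - x)) -
            (cv (ψ l) (x' - x) - dd (G l) x (x' - x)) := by ring
      rw [h5, add_div]
      refine (abs_sub _ _).trans (add_le_add (h1.trans h3) (h2.trans (le_of_eq ?_)))
      ring
    have h6 : |eta c g W ψ (x' - x) (l + 1)| ≤
        Y ^ (r + 4) + 2 ^ k * en c g W ψ l (x' - x) := by
      have h7 : eta c g W ψ (x' - x) (l + 1) =
          2 ^ g l * ((x' - x) (some (c l)) - cv (ψ l) (x' - x)) := rfl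
      rw [h7, abs_mul, abs_of_pos (by positivity : (0 : ℝ) < 2 ^ g l), mul_comm]
      rwa [le_div_iff₀ (by positivity)] at h4
    have hP1 : 1 ≤ (2 * Y ^ (r + 4)) ^ l := one_le_pow₀ hM1
    rw [e1, pow_succ]
    have h8 : (1 + 2 ^ k) * en c g W ψ l (x' - x) ≤ (1 + 2 ^ k) * (2 * Y ^ (r + 4)) ^ l :=
      mul_le_mul_of_nonneg_left ih (by positivity)
    have h9 : Y ^ (r + 4) ≤ (2 * Y ^ (r + 4)) ^ l * Y ^ (r + 4) :=
      le_mul_of_one_le_left (by positivity) hP1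
    have h10 := mul_le_mul_of_nonneg_left hM (by positivity : 0 ≤ (2 * Y ^ (r + 4)) ^ l)
    linarith

/-- **A closed frame and a natural ball** of a window. -/
structure Blw (F : Fam m J) (c : ℕ → Fin m) (a k e : ℕ) (g : ℕ → ℕ) (B : F.Ω → Prop)
    (ψ : PtT F → ℕ → Option (Fin m) → ℝ) (ψH : LnT F → ℕ → Option (Fin m) → ℝ)
    (Sv : PtT F → ℕ → Option (Fin m) → ℝ)
    (G : PtT F → ℕ → MvPolynomial (Option (Fin m)) ℝ)
    (H : LnT F → ℕ → MvPolynomial (Option (Fin m)) ℝ) : Prop where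
  wf : WFr F c 4 a k e g B ψ ψH Sv
  aJ : a ≤ J
  inj : Set.InjOn c (Set.Iio 3)
  dep : ∀ y l, DepC c l (G y l)
  cls : ∀ ω, B ω → ∀ l ≤ 3, G (ptr F J ω) l = H (slam F a ω) l
  nat : ∀ l ≤ 3, NatH F c a g B G k l
  pos : ∀ ω, B ω → ∀ l ≤ 3, |F.x ω (c l) - eval (bt F ω) (G (ptr F J ω) l)| ≤ 1 / 2 ^ g l
  ng : ∀ ω, B ω → Nc c g a 4 (2 ^ k) (Sv (ptr F J ω)) (fun l => grd (G (ptr F J ω) l) (bt F ω))

section

variable {F : Fam m J} {c : ℕ → Fin m} {a k e : ℕ} {g : ℕ → ℕ} {B : F.Ω → Prop}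
    {ψ : PtT F → ℕ → Option (Fin m) → ℝ} {ψH : LnT F → ℕ → Option (Fin m) → ℝ}
    {Sv : PtT F → ℕ → Option (Fin m) → ℝ}
    {G : PtT F → ℕ → MvPolynomial (Option (Fin m)) ℝ}
    {H : LnT F → ℕ → MvPolynomial (Option (Fin m)) ℝ}

/-- The precision of the frame against the chart. -/
abbrev Kf (k : ℕ) : ℕ := (k + 1) * 6

/-- The frame against the chart. -/
theorem Blw.frm (h : Blw F c a k e g B ψ ψH Sv G H) {ω : F.Ω} (hω : B ω) {l : ℕ} (hl : l < 3)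
    (V : Option (Fin m) → ℝ) :
    |cv (ψ (ptr F J ω) l) V - dd (G (ptr F J ω) l) (bt F ω) V| ≤
      2 ^ Kf k / 2 ^ g l * en c g a (ψ (ptr F J ω)) l V := by
  have h1 : Nc c g a 3 (2 ^ k) (ψ (ptr F J ω)) (Sv (ptr F J ω)) := fun l hl =>
    h.wf.nr ω hω l (by omega)
  have h2 : Nc c g a 3 (2 ^ k) (Sv (ptr F J ω)) (fun l => grd (G (ptr F J ω) l) (bt F ω)) :=
    fun l hl => h.ng ω hω l (by omega)
  have h3 := frm_of h1 h2 (fun l _ => by omega) (fun l _ j _ => by omega) hl V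
  rwa [cv_grd] at h3

/-- Two samples of one ball. -/
theorem Blw.pt2 (h : Blw F c a k e g B ψ ψH Sv G H) {ω ω' : F.Ω} (hω : B ω) (hω' : B ω')
    (ht : F.T1 a ω = F.T1 a ω') (hG : ∀ l ≤ 3, G (ptr F J ω) l = G (ptr F J ω') l) :
    Pt2 c g g a a (Kf k) 3 (G (ptr F J ω)) (F.t ω) (ψ (ptr F J ω)) (bt F ω) (bt F ω') := by
  have e0 : ∀ ν : F.Ω, bt F ν none = F.t ν := fun _ => rfl
  have ht1 := t_near h.aJ ht
  have hkk : k ≤ Kf k := by
    unfold Kf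
    omega
  have hx : ∀ l ≤ 3, |bt F ω (some (c l)) - eval (bt F ω) (G (ptr F J ω) l)| ≤ 1 / 2 ^ g l :=
    fun l hl => h.pos ω hω l hl
  have hx' : ∀ l ≤ 3, |bt F ω' (some (c l)) - eval (bt F ω') (G (ptr F J ω) l)| ≤
      1 / 2 ^ g l := fun l hl => by
    rw [hG l hl]
    exact h.pos ω' hω' l hl
  refine ⟨⟨h.inj, h.dep _, fun l hl => ?_, ⟨?_, fun l hl => hx l hl.le⟩,
    ⟨?_, fun l hl => hx' l hl.le⟩⟩, ?_, hx, hx', fun l hl V => h.frm hω hl V⟩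
  · intro b hb V V'
    refine (h.nat l hl ω hω b hb V V').trans (mul_le_mul_of_nonneg_right
      (div_le_div_of_nonneg_right (pow_le_pow_right₀ (by norm_num) hkk) (by positivity)) ?_)
    exact mul_nonneg (Pool.D2R.nrm_nonneg _ _ _ _ _ _ _) (Pool.D2R.nrm_nonneg _ _ _ _ _ _ _)
  · rw [e0, sub_self, abs_zero]
    positivity
  · rw [e0, le_div_iff₀ (by positivity), mul_comm]
    exact ht1
  · rw [e0, e0]
    exact ht1

/-- The bound of the natural coordinates of a ball. -/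
abbrev Bz (k : ℕ) : ℕ := 21 * Kf k + 67

/-- The difference of two samples of one ball, in the frame. -/
theorem Blw.enb (h : Blw F c a k e g B ψ ψH Sv G H) {ω ω' : F.Ω} (hω : B ω) (hω' : B ω')
    (ht : F.T1 a ω = F.T1 a ω') (hG : ∀ l ≤ 3, G (ptr F J ω) l = G (ptr F J ω') l) {j : ℕ}
    (hj : j ≤ 3) : |eta c g a (ψ (ptr F J ω)) (bt F ω' - bt F ω) j| ≤ 2 ^ (21 * Kf k + 66) := by
  have hp := h.pt2 hω hω' ht hG
  have h1 := pt2_en hp (Y := 2 ^ (Kf k + 3)) (by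
    rw [pow_add]
    have : (0 : ℝ) < 2 ^ Kf k := by positivity
    push_cast
    linarith) le_rfl (fun _ _ => le_rfl) (show 3 ≤ 3 from le_rfl)
  have h2 : |eta c g a (ψ (ptr F J ω)) (bt F ω' - bt F ω) j| ≤
      en c g a (ψ (ptr F J ω)) 3 (bt F ω' - bt F ω) := by
    unfold en
    exact single_le_sum (f := fun j => |eta c g a (ψ (ptr F J ω)) (bt F ω' - bt F ω) j|)
      (fun i _ => abs_nonneg _) (mem_range.2 (by omega))
  refine (h2.trans h1).trans (le_of_eq ?_)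
  rw [← pow_mul, ← pow_succ', ← pow_mul]
  congr 1
  ring

/-- **The natural coordinates of two samples of one ball.** -/
theorem Blw.zy (h : Blw F c a k e g B ψ ψH Sv G H) (hJ : ∀ j < 3, e + g j ≤ J) {ω ω' : F.Ω}
    (hω : B ω) (hω' : B ω') (ht : F.T1 a ω = F.T1 a ω')
    (hG : ∀ l ≤ 3, G (ptr F J ω) l = G (ptr F J ω') l)
    (hψ : ψ (ptr F J ω) = ψ (ptr F J ω')) {j : ℕ} (hj : j ≤ 3) :
    |eta c g a (ψ (ptr F J ω')) (hx F ω') j - eta c g a (ψ (ptr F J ω)) (hx F ω) j| ≤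
      2 ^ Bz k := by
  have h1 := h.enb hω hω' ht hG hj
  have hfr := frok_le h.wf.fr (show 3 ≤ 4 by norm_num)
  have h2 := hx_eta h.inj hfr (V := 0) hJ hω hj
  have h3 := hx_eta h.inj hfr (V := 0) hJ hω' hj
  rw [eta_sub] at h1
  rw [← hψ] at h3 ⊢
  have h4 : (3 : ℝ) / 2 ^ 0 = 3 := by norm_num
  push_cast at h2 h3
  rw [h4] at h2 h3
  have h5 : (8 : ℝ) ≤ 2 ^ (21 * Kf k + 66) :=
    le_trans (by norm_num) (pow_le_pow_right₀ (by norm_num) (show 3 ≤ 21 * Kf k + 66 by omega))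
  have h6 : (2 : ℝ) ^ Bz k = 2 * 2 ^ (21 * Kf k + 66) := by
    rw [← pow_succ']
  rw [h6]
  rw [abs_le] at *
  constructor <;> linarith [h1.1, h1.2, h2.1, h2.2, h3.1, h3.2]

/-- **The position behind the natural digits** of a window, from a later ball. -/
theorem Blw.ydig (h : Blw F c a k e g B ψ ψH Sv G H) {b k' e' x s : ℕ} {gb : ℕ → ℕ}
    {ψ' : PtT F → ℕ → Option (Fin m) → ℝ} {ψH' : LnT F → ℕ → Option (Fin m) → ℝ}
    {G' : PtT F → ℕ → MvPolynomial (Option (Fin m)) ℝ}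
    {H' : LnT F → ℕ → MvPolynomial (Option (Fin m)) ℝ}
    (h' : Blw F c b k' e' gb B ψ' ψH' Sv G' H') (hJ : ∀ j < 3, e' + gb j ≤ J)
    (hnr : ∀ ω, B ω → Nc c g a 3 (2 ^ (12 * x + 8)) (ψ (ptr F J ω)) (ψ' (ptr F J ω)))
    (h0 : g 0 + s ≤ gb 0 + x) (h1 : a + s ≤ b + x) {ω ω' : F.Ω}
    (hω : B ω) (hω' : B ω') (ht : F.T1 b ω = F.T1 b ω')
    (hG : ∀ l ≤ 3, G' (ptr F J ω) l = G' (ptr F J ω') l)
    (hψ' : ψ' (ptr F J ω) = ψ' (ptr F J ω')) (hψ : ψ (ptr F J ω) = ψ (ptr F J ω')) :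
    |2 ^ s * yn F c g a ψ ω' - 2 ^ s * yn F c g a ψ ω| ≤ 2 ^ (Bz k' + x) + 2 ^ (13 * x + 8) := by
  have hz := h'.zy hJ hω hω' ht hG hψ' (show 1 ≤ 3 by norm_num)
  rw [← hψ', ← eta_sub] at hz
  have e1 : yn F c g a ψ ω' - yn F c g a ψ ω =
      eta c g a (ψ (ptr F J ω)) (hx F ω' - hx F ω) 1 := by
    unfold yn
    rw [← hψ, ← eta_sub]
  obtain ⟨V, hV⟩ : ∃ V, V = hx F ω' - hx F ω := ⟨_, rfl⟩
  rw [← hV] at hz e1
  have e2 : eta c g a (ψ (ptr F J ω)) V 1 =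
      2 ^ g 0 * ((1 / 2 ^ gb 0) * eta c gb b (ψ' (ptr F J ω)) V 1 +
        cv (ψ' (ptr F J ω) 0 - ψ (ptr F J ω) 0) V) := by
    have f1 : eta c g a (ψ (ptr F J ω)) V 1 = 2 ^ g 0 * (V (some (c 0)) -
        cv (ψ (ptr F J ω) 0) V) := rfl
    have f2 : eta c gb b (ψ' (ptr F J ω)) V 1 = 2 ^ gb 0 * (V (some (c 0)) -
        cv (ψ' (ptr F J ω) 0) V) := rfl
    rw [f1, f2, cv_subl]
    have : (2 : ℝ) ^ gb 0 ≠ 0 := by positivity
    field_simp
    ring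
  have hn := hnr ω hω 0 (by norm_num) V
  have hV0 : V none = F.t ω' - F.t ω := by
    rw [hV]
    rfl
  have ht1 := t_near h'.aJ ht
  have e3 : Pool.D2Z.en c g a (ψ (ptr F J ω)) 0 V = 2 ^ a * |F.t ω' - F.t ω| := by
    unfold Pool.D2Z.en
    rw [sum_range_one]
    have : eta c g a (ψ (ptr F J ω)) V 0 = 2 ^ a * V none := rfl
    rw [this, hV0, abs_mul, abs_of_pos (by positivity : (0 : ℝ) < 2 ^ a)]
  rw [e3] at hn
  rw [← mul_sub, e1, e2, abs_mul, abs_of_pos (by positivity : (0 : ℝ) < 2 ^ s), abs_mul,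
    abs_of_pos (by positivity : (0 : ℝ) < 2 ^ g 0)]
  have hz1 : |1 / 2 ^ gb 0 * eta c gb b (ψ' (ptr F J ω)) V 1| ≤ 2 ^ Bz k' / 2 ^ gb 0 := by
    rw [abs_mul, abs_of_pos (by positivity : (0 : ℝ) < 1 / 2 ^ gb 0), div_mul_eq_mul_div, one_mul]
    exact div_le_div_of_nonneg_right hz (by positivity)
  have hn1 : |cv (ψ' (ptr F J ω) 0 - ψ (ptr F J ω) 0) V| ≤
      2 ^ (12 * x + 8) / 2 ^ g 0 * (2 ^ a / 2 ^ b) := by
    refine hn.trans (mul_le_mul_of_nonneg_left ?_ (by positivity))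
    rw [le_div_iff₀ (by positivity)]
    have := mul_le_mul_of_nonneg_left ht1 (by positivity : (0 : ℝ) ≤ 2 ^ a)
    linarith
  have p1 : (2 : ℝ) ^ s * (2 ^ g 0 * (2 ^ Bz k' / 2 ^ gb 0)) ≤ 2 ^ (Bz k' + x) := by
    rw [show (2 : ℝ) ^ s * (2 ^ g 0 * (2 ^ Bz k' / 2 ^ gb 0)) = 2 ^ (s + g 0 + Bz k') / 2 ^ gb 0 by
      rw [pow_add, pow_add]; ring]
    exact pq_le' (by omega)
  have p2 : (2 : ℝ) ^ s * (2 ^ g 0 * (2 ^ (12 * x + 8) / 2 ^ g 0 * (2 ^ a / 2 ^ b))) ≤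
      2 ^ (13 * x + 8) := by
    rw [show (2 : ℝ) ^ s * (2 ^ g 0 * (2 ^ (12 * x + 8) / 2 ^ g 0 * (2 ^ a / 2 ^ b))) =
      2 ^ (s + a + (12 * x + 8)) / 2 ^ b by
      have : (2 : ℝ) ^ g 0 ≠ 0 := by positivity
      rw [pow_add (2 : ℝ) (s + a), pow_add (2 : ℝ) s a]
      obtain ⟨P, hP⟩ : ∃ P : ℝ, P = 2 ^ (12 * x + 8) := ⟨_, rfl⟩
      rw [← hP]
      field_simp]
    exact pq_le' (by omega)
  calc (2 : ℝ) ^ s * (2 ^ g 0 * |1 / 2 ^ gb 0 * eta c gb b (ψ' (ptr F J ω)) V 1 +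
        cv (ψ' (ptr F J ω) 0 - ψ (ptr F J ω) 0) V|)
      ≤ 2 ^ s * (2 ^ g 0 * (2 ^ Bz k' / 2 ^ gb 0 +
          2 ^ (12 * x + 8) / 2 ^ g 0 * (2 ^ a / 2 ^ b))) := by
        refine mul_le_mul_of_nonneg_left (mul_le_mul_of_nonneg_left ?_ (by positivity))
          (by positivity)
        exact (abs_add_le _ _).trans (add_le_add hz1 hn1)
    _ = 2 ^ s * (2 ^ g 0 * (2 ^ Bz k' / 2 ^ gb 0)) +
        2 ^ s * (2 ^ g 0 * (2 ^ (12 * x + 8) / 2 ^ g 0 * (2 ^ a / 2 ^ b))) := by ring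
    _ ≤ _ := add_le_add p1 p2

end

/-! ### Records -/

/-- **A maximal record** of a window on an event. -/
structure Rcd (F : Fam m J) (B : F.Ω → Prop) (w : ℕ) {V : Type} (z : PtT F → V)
    (zH : LnT F → V) : Prop where
  cls : ∀ ω, B ω → z (ptr F J ω) = zH (slam F w ω)
  max : ∀ (T : Type) (f : F.Ω → T),
    (∀ ω ω', B ω → B ω' → ptr F J ω = ptr F J ω' → f ω = f ω') →
    (∀ ω ω', B ω → B ω' → slam F w ω = slam F w ω' → f ω = f ω') →
    ∀ ω ω', B ω → B ω' → z (ptr F J ω) = z (ptr F J ω') → f ω = f ω'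

/-- **Records exist.** -/
theorem rcd_ex (F : Fam m J) {B : F.Ω → Prop} (hB : ∃ ω, B ω) (w : ℕ) :
    ∃ (V : Type) (z : PtT F → V) (zH : LnT F → V), Rcd F B w z zH := by
  classical
  obtain ⟨ω₀, hω₀⟩ := hB
  obtain ⟨R, hR⟩ : ∃ R : F.Ω → F.Ω → Prop, R = fun ω ω' => B ω ∧ B ω' ∧
    (ptr F J ω = ptr F J ω' ∨ slam F w ω = slam F w ω') := ⟨_, rfl⟩
  have k1 : ∀ ω, B ω → (if h : ∃ ω', B ω' ∧ ptr F J ω' = ptr F J ω then
      Quot.mk R (Classical.choose h) else Quot.mk R ω₀) = Quot.mk R ω := by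
    intro ω hω
    have h : ∃ ω', B ω' ∧ ptr F J ω' = ptr F J ω := ⟨ω, hω, rfl⟩
    rw [dif_pos h]
    obtain ⟨h1, h2⟩ := Classical.choose_spec h
    refine Quot.sound ?_
    rw [hR]
    exact ⟨h1, hω, Or.inl h2⟩
  have k2 : ∀ ω, B ω → (if h : ∃ ω', B ω' ∧ slam F w ω' = slam F w ω then
      Quot.mk R (Classical.choose h) else Quot.mk R ω₀) = Quot.mk R ω := by
    intro ω hω
    have h : ∃ ω', B ω' ∧ slam F w ω' = slam F w ω := ⟨ω, hω, rfl⟩
    rw [dif_pos h]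
    obtain ⟨h1, h2⟩ := Classical.choose_spec h
    refine Quot.sound ?_
    rw [hR]
    exact ⟨h1, hω, Or.inr h2⟩
  refine ⟨Quot R, fun y => if h : ∃ ω, B ω ∧ ptr F J ω = y then
    Quot.mk R (Classical.choose h) else Quot.mk R ω₀,
    fun y => if h : ∃ ω, B ω ∧ slam F w ω = y then
    Quot.mk R (Classical.choose h) else Quot.mk R ω₀, ⟨fun ω hω => ?_, ?_⟩⟩
  · exact (k1 ω hω).trans (k2 ω hω).symm
  · intro T f hf1 hf2 ω ω' hω hω' h
    have h' : Quot.mk R ω = Quot.mk R ω' := by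
      rw [← k1 ω hω, ← k1 ω' hω']
      exact h
    have hl : ∀ a b, R a b → (if B a then some (f a) else none) =
        (if B b then some (f b) else none) := by
      intro a b hab
      rw [hR] at hab
      obtain ⟨h1, h2, h3⟩ := hab
      rw [if_pos h1, if_pos h2]
      rcases h3 with h3 | h3
      · rw [hf1 a b h1 h2 h3]
      · rw [hf2 a b h1 h2 h3]
    have h4 := congrArg (Quot.lift (fun a => if B a then some (f a) else none) hl) h'
    have h5 : (if B ω then some (f ω) else none) = (if B ω' then some (f ω') else none) := h4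
    rw [if_pos hω, if_pos hω'] at h5
    exact Option.some.inj h5

section

variable {F : Fam m J} {B : F.Ω → Prop} {w : ℕ} {V : Type} {z : PtT F → V} {zH : LnT F → V}

/-- A record of the class. -/
theorem Rcd.mx {w : ℝ} (h : Rcd F B ⌊w * J⌋₊ z zH) (hB : 0 < Pe F.p B) {k : ℝ} (hk : 0 ≤ k) :
    Mx (fun (J : ℕ) (F : Fam m J) => ptr F J) (vg w) k F B (fun ω => z (ptr F J ω)) := by
  refine ⟨⟨⟨z, fun _ _ => rfl⟩, ⟨zH, fun ω hω => h.cls ω hω⟩⟩, ?_⟩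
  rintro V' z' ⟨⟨φ, hφ⟩, χ, hχ⟩
  have hcl : IsLaw (Pool.Agent.H49.Ent.cond F.p B True) := isLaw_cond F.isLaw hB
  have hqA : ∀ ω, 0 < Pool.Agent.H49.Ent.cond F.p B True ω → B ω := fun ω hω =>
    of_eq_true ((cond_pos_iff F.isLaw.nonneg B True ω).1 hω).2
  refine le_trans (le_of_eq (CH_eq_zero hcl.nonneg fun ω ω' hω hω' e => ?_))
    (mul_nonneg hk (Nat.cast_nonneg J))
  refine h.max V' z' (fun a b ha hb hab => ?_) (fun a b ha hb hab => ?_) ω ω' (hqA ω hω)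
    (hqA ω' hω') e
  · rw [hφ a ha, hφ b hb]
    exact congrArg φ hab
  · rw [hχ a ha, hχ b hb]
    exact congrArg χ hab

/-- A closed function is a function of the record. -/
theorem Rcd.det (h : Rcd F B w z zH) {T : Type} {f : PtT F → T} {fH : LnT F → T}
    (hf : ∀ ω, B ω → f (ptr F J ω) = fH (slam F w ω)) {ω ω' : F.Ω} (hω : B ω) (hω' : B ω')
    (e : z (ptr F J ω) = z (ptr F J ω')) : f (ptr F J ω) = f (ptr F J ω') :=
  h.max T (fun ω => f (ptr F J ω)) (fun a b _ _ hab => by rw [hab])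
    (fun a b ha hb hab => by
      change f (ptr F J a) = f (ptr F J b)
      rw [hf a ha, hf b hb, hab]) ω ω' hω hω' e

end

end Pool.D2N
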