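import Pool.Agent.H90.D2.Hha

/-!
# The hop cell: the number at the window of the block

`BsN`: the numbers of the base window of the number. `gq_base`: the coefficients of the label there.
`ph_small`: the polynomial of two lines. `few_blk`: few at the base window gives few at the window
of the block, for refined own data.
-/

set_option autoImplicit false

namespace Pool.D2N

open Finset Real MvPolynomial
open Pool.Agent.H49.Ent Pool.Agent.H32.Dense Pool.STK Pool.KA Pool.KSAT Pool.K2S Pool.PB Pool.S6C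
open Pool.GEN Pool.CHT Pool.CHX Pool.LA91
open Pool.D2F Pool.D2Z Pool.D2F2
open Pool.D2R (dd hs co)
open Pool.X31 (nw)
open Pool.OWN68 (opl tw uw mid dirv natDegree_opl opl_jet uw_abs)

variable {m J : ℕ}

/-- **The coefficients of the label** at a later window. -/
theorem gq_base {F : Fam m J} {c : ℕ → Fin m} {D w₀ W x : ℕ} {g₁ g : ℕ → ℕ}
    {ψH ψH₁ : LnT F → ℕ → Option (Fin m) → ℝ}
    {Ht : LnT F → MvPolynomial (Option (Fin m)) ℝ} {ω : F.Ω}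
    (hx : 1 ≤ x) (hw : w₀ ≤ W) (hc : Set.InjOn c (Set.Iio 3)) (hW : W ≤ J)
    (hψ : ∀ l, CvC c l (ψH (slam F W ω) l)) (hψ₁ : ∀ l, CvC c l (ψH₁ (slam F w₀ ω) l))
    (hQ : ∀ s, DepC c 3 (Ht s)) (hdeg : ∀ s, (Ht s).totalDegree ≤ D)
    (hD : ((D : ℝ) + 1) * 2 ^ D ≤ 2 ^ x)
    (hN : Nc c g₁ w₀ 3 (2 ^ (12 * x + 8)) (ψH₁ (slam F w₀ ω)) (ψH (slam F W ω)))
    (hM : ∀ i < 3, ∀ j, |(gq F c g₁ w₀ 0 ψH₁ Ht (slam F w₀ ω) i).coeff (j + 1)| ≤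
      2 ^ x / 2 ^ g₁ 3 * 2 ^ g₁ i)
    {l : ℕ} (hl : l < 3) (j : ℕ) :
    |(gq F c g W (W - w₀) ψH Ht (slam F W ω) l).coeff (j + 1)| ≤
      2 ^ (67 * x) * (2 ^ g₁ l / 2 ^ (g₁ 3 + (j + 1) * (W - w₀))) := by
  have h1 := gq_coeff (g := g) (n := W - w₀) (n₁ := 0) hc hw hW hψ hψ₁ hQ hdeg (by omega)
    (by omega) (by omega) (by positivity) hN hM hl j
  have h2 : 3 * (((D : ℝ) + 1) * 2 ^ D * (1 + 2 ^ (12 * x + 8)) ^ 3) ≤ 2 ^ (66 * x) := by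
    calc 3 * (((D : ℝ) + 1) * 2 ^ D * (1 + 2 ^ (12 * x + 8)) ^ 3) ≤
        2 ^ (2 * x) * (2 ^ x * 2 ^ (63 * x)) := by
          have h3 : (3 : ℝ) ≤ 2 ^ (2 * x) := by
            calc (3 : ℝ) ≤ 2 ^ 2 := by norm_num
              _ ≤ 2 ^ (2 * x) := two_le (by omega)
          have h4 := pw3 x hx
          gcongr
      _ = 2 ^ (66 * x) := by
          rw [← pow_add, ← pow_add]
          congr 1
          ring
  refine h1.trans ?_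
  calc 3 * (((D : ℝ) + 1) * 2 ^ D * (1 + 2 ^ (12 * x + 8)) ^ 3) *
        (2 ^ x / 2 ^ g₁ 3) * (2 ^ g₁ l / 2 ^ ((j + 1) * (W - w₀)))
      ≤ 2 ^ (66 * x) * (2 ^ x / 2 ^ g₁ 3) *
        (2 ^ g₁ l / 2 ^ ((j + 1) * (W - w₀))) := by gcongr
    _ = _ := by
        rw [show 67 * x = 66 * x + x by ring, pow_add, pow_add]
        field_simp

/-- **The numbers of the base window of the number**: label window `w₀` (levels `g₁`), base window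
`w` (levels `g₂`), `q` digits of the rough coordinates, `q₁` digits of the velocity of the first
coordinate, `sg` digits of the coefficients. -/
structure BsN (x sg q q₁ w₀ w : ℕ) (g₁ g₂ : ℕ → ℕ) : Prop where
  x1 : 1 ≤ x
  wB : w₀ ≤ w
  up : ∀ l < 3, w + g₁ l ≤ g₂ l + w₀ + x
  upj : ∀ l < 3, ∀ j < l, g₂ j + g₁ l ≤ g₂ l + g₁ j + x
  c1 : ∀ l, 1 ≤ l → l ≤ 2 → g₂ 3 + g₁ l + sg ≤ g₁ 3 + g₂ l + 2 * (w - w₀) + x
  qq : q + sg ≤ q₁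

/-- One term. -/
theorem tm_num {x sg q Y G3 G1 L N δ k : ℕ} (h : G3 + L + sg ≤ G1 + N + k * δ + x) :
    (2 : ℝ) ^ (G3 + q + sg) * (2 ^ (67 * x) * (2 ^ L / 2 ^ (G1 + k * δ)) * (2 ^ Y / 2 ^ (N + q))) ≤
      2 ^ (68 * x + Y) := by
  have e1 : (2 : ℝ) ^ (G3 + q + sg) * (2 ^ (67 * x) * (2 ^ L / 2 ^ (G1 + k * δ)) *
      (2 ^ Y / 2 ^ (N + q))) = 2 ^ (G3 + q + sg + 67 * x + L + Y) / 2 ^ (G1 + k * δ + (N + q)) := by
    simp only [pow_add]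
    field_simp
  rw [e1]
  exact pq_le' (by omega)

variable {F : Fam m J} {c : ℕ → Fin m} {D w₀ w x sg q q₁ : ℕ} {g₁ g₂ : ℕ → ℕ}

/-- **The polynomial of two lines**: the coefficients of order at least three are small. -/
theorem ph_small (N : BsN x sg q q₁ w₀ w g₁ g₂) {κ : Type} (d : Dat F κ 3 D) {s s₀ : LnT F}
    {Y : ℕ} (hg : ∀ l < 3, l ≠ 0 → ∀ j, |(d.gp l s).coeff (j + 1)| ≤
      2 ^ (67 * x) * (2 ^ g₁ l / 2 ^ (g₁ 3 + (j + 1) * (w - w₀))))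
    (hc2 : |2 ^ g₂ 3 / 2 ^ g₂ 0 * (d.gp 0 s).coeff 2| ≤ 2 ^ (68 * x))
    (hc3 : ∀ j, 3 ≤ j → |2 ^ g₂ 3 / 2 ^ g₂ 0 * (d.gp 0 s).coeff j| ≤ 1 / 2 ^ (sg + 230 * x))
    (hP : ∀ l < 3, ∀ j < 2, |(d.P l s - d.P l s₀).coeff j| ≤ 2 ^ Y / 2 ^ (g₂ l + q))
    (hP0 : |(d.P 0 s - d.P 0 s₀).coeff 1| ≤ 2 ^ Y / 2 ^ (g₂ 0 + q₁)) {j : ℕ} (hj : 3 ≤ j) :
    |(Ph d s s₀).coeff j| ≤ 2 ^ (68 * x + Y + 3) / 2 ^ (g₂ 3 + q + sg) := by
  obtain ⟨i, rfl⟩ : ∃ i, j = i + 1 + 1 + 1 := ⟨j - 3, by omega⟩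
  rw [Ph_coeff, le_div_iff₀ (by positivity)]
  have hx := N.x1
  obtain ⟨δ, hδ⟩ : ∃ δ, δ = w - w₀ := ⟨_, rfl⟩
  rw [← hδ] at hg
  have hmono : ∀ {a b : ℕ} (L : ℕ), a ≤ b → (2 : ℝ) ^ (67 * x) * (2 ^ L / 2 ^ (g₁ 3 + b * δ)) ≤
      2 ^ (67 * x) * (2 ^ L / 2 ^ (g₁ 3 + a * δ)) := fun {a b} L hab => by
    refine mul_le_mul_of_nonneg_left (div_le_div_of_nonneg_left (by positivity) (by positivity)
      (two_le ?_)) (by positivity)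
    have := Nat.mul_le_mul_right δ hab
    omega
  have tm : ∀ l < 3, l ≠ 0 → ∀ j < 2, ∀ k : ℕ, 1 ≤ k → ∀ k', k ≤ k' →
      g₂ 3 + g₁ l + sg ≤ g₁ 3 + g₂ l + k * δ + x →
      2 ^ (g₂ 3 + q + sg) * |(d.gp l s).coeff k' * (d.P l s - d.P l s₀).coeff j| ≤
        2 ^ (68 * x + Y) := by
    intro l hl hl0 j hj k hk k' hkk hnum
    obtain ⟨k₀, rfl⟩ : ∃ k₀, k' = k₀ + 1 := ⟨k' - 1, by omega⟩
    rw [abs_mul]
    refine le_trans (mul_le_mul_of_nonneg_left (mul_le_mul ((hg l hl hl0 k₀).trans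
      (hmono (g₁ l) hkk)) (hP l hl j hj) (abs_nonneg _) (by positivity)) (by positivity)) ?_
    exact tm_num hnum
  -- the direction of the first coordinate
  have u2 : ∀ j, 2 ≤ j → |(d.gp 0 s).coeff j| ≤ 2 ^ (68 * x) * (2 ^ g₂ 0 / 2 ^ g₂ 3) := by
    intro j hj
    have h1 : |2 ^ g₂ 3 / 2 ^ g₂ 0 * (d.gp 0 s).coeff j| ≤ 2 ^ (68 * x) := by
      rcases Nat.lt_or_ge j 3 with h | h
      · obtain rfl : j = 2 := by omega
        exact hc2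
      · refine (hc3 j h).trans ?_
        rw [div_le_iff₀ (by positivity), ← pow_add]
        exact one_le_pow₀ (by norm_num)
    rw [abs_mul, abs_of_pos (by positivity)] at h1
    calc |(d.gp 0 s).coeff j| = (2 ^ g₂ 3 / 2 ^ g₂ 0 * |(d.gp 0 s).coeff j|) *
        (2 ^ g₂ 0 / 2 ^ g₂ 3) := by
          field_simp
      _ ≤ _ := mul_le_mul_of_nonneg_right h1 (by positivity)
  have u3 : ∀ j, 3 ≤ j → |(d.gp 0 s).coeff j| ≤ 2 ^ g₂ 0 / 2 ^ (g₂ 3 + sg) := by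
    intro j hj
    have h1 := hc3 j hj
    rw [abs_mul, abs_of_pos (by positivity)] at h1
    calc |(d.gp 0 s).coeff j| = (2 ^ g₂ 3 / 2 ^ g₂ 0 * |(d.gp 0 s).coeff j|) *
        (2 ^ g₂ 0 / 2 ^ g₂ 3) := by
          field_simp
      _ ≤ 1 / 2 ^ (sg + 230 * x) * (2 ^ g₂ 0 / 2 ^ g₂ 3) :=
          mul_le_mul_of_nonneg_right h1 (by positivity)
      _ ≤ 1 / 2 ^ sg * (2 ^ g₂ 0 / 2 ^ g₂ 3) :=
          mul_le_mul_of_nonneg_right (div_le_div_of_nonneg_left zero_le_one (by positivity)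
            (two_le (by omega))) (by positivity)
      _ = 2 ^ g₂ 0 / 2 ^ (g₂ 3 + sg) := by
          rw [pow_add]
          field_simp
  have t0 : 2 ^ (g₂ 3 + q + sg) * |(d.gp 0 s).coeff (i + 1 + 1) *
      (d.P 0 s - d.P 0 s₀).coeff 1| ≤ 2 ^ (68 * x + Y) := by
    rw [abs_mul]
    refine le_trans (mul_le_mul_of_nonneg_left (mul_le_mul (u2 _ (by omega)) hP0 (abs_nonneg _)
      (by positivity)) (by positivity)) ?_
    have e1 : (2 : ℝ) ^ (g₂ 3 + q + sg) * (2 ^ (68 * x) * (2 ^ g₂ 0 / 2 ^ g₂ 3) *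
      (2 ^ Y / 2 ^ (g₂ 0 + q₁))) =
        2 ^ (g₂ 3 + q + sg + 68 * x + g₂ 0 + Y) / 2 ^ (g₂ 3 + (g₂ 0 + q₁)) := by
      simp only [pow_add]
      field_simp
    rw [e1]
    have := N.qq
    exact pq_le' (by omega)
  have t1 : 2 ^ (g₂ 3 + q + sg) * |(d.gp 0 s).coeff (i + 1 + 1 + 1) *
      (d.P 0 s - d.P 0 s₀).coeff 0| ≤ 2 ^ (68 * x + Y) := by
    rw [abs_mul]
    refine le_trans (mul_le_mul_of_nonneg_left (mul_le_mul (u3 _ (by omega))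
      (hP 0 (by norm_num) 0 (by norm_num)) (abs_nonneg _) (by positivity)) (by positivity)) ?_
    have e1 : (2 : ℝ) ^ (g₂ 3 + q + sg) * (2 ^ g₂ 0 / 2 ^ (g₂ 3 + sg) *
      (2 ^ Y / 2 ^ (g₂ 0 + q))) = 2 ^ Y := by
      simp only [pow_add]
      field_simp
    rw [e1]
    exact two_le (by omega)
  have c1 : ∀ l, 1 ≤ l → l < 3 → g₂ 3 + g₁ l + sg ≤ g₁ 3 + g₂ l + 2 * δ + x := fun l h1 h2 => by
    have := N.c1 l h1 (by omega)
    rwa [← hδ] at this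
  have key : ∀ l < 3, 2 ^ (g₂ 3 + q + sg) * |(d.gp l s).coeff (i + 1 + 1 + 1) *
      (d.P l s - d.P l s₀).coeff 0 + (d.gp l s).coeff (i + 1 + 1) *
        (d.P l s - d.P l s₀).coeff 1| ≤ 2 * 2 ^ (68 * x + Y) := by
    intro l hl
    have h1 : 2 ^ (g₂ 3 + q + sg) * |(d.gp l s).coeff (i + 1 + 1 + 1) *
        (d.P l s - d.P l s₀).coeff 0| ≤ 2 ^ (68 * x + Y) := by
      rcases Nat.eq_zero_or_pos l with h0 | h0
      · subst h0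
        exact t1
      · exact tm l hl h0.ne' 0 (by norm_num) 2 (by norm_num) _ (by omega) (c1 l h0 hl)
    have h2 : 2 ^ (g₂ 3 + q + sg) * |(d.gp l s).coeff (i + 1 + 1) *
        (d.P l s - d.P l s₀).coeff 1| ≤ 2 ^ (68 * x + Y) := by
      rcases Nat.eq_zero_or_pos l with h0 | h0
      · subst h0
        exact t0
      · exact tm l hl h0.ne' 1 (by norm_num) 2 (by norm_num) _ (by omega) (c1 l h0 hl)
    have h3 := mul_le_mul_of_nonneg_left (abs_add_le ((d.gp l s).coeff (i + 1 + 1 + 1) *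
      (d.P l s - d.P l s₀).coeff 0) ((d.gp l s).coeff (i + 1 + 1) *
        (d.P l s - d.P l s₀).coeff 1)) (by positivity : (0 : ℝ) ≤ 2 ^ (g₂ 3 + q + sg))
    linarith
  have hs := abs_sum_le_sum_abs (fun l => (d.gp l s).coeff (i + 1 + 1 + 1) *
      (d.P l s - d.P l s₀).coeff 0 + (d.gp l s).coeff (i + 1 + 1) *
        (d.P l s - d.P l s₀).coeff 1) (range 3)
  have hs2 := mul_le_mul_of_nonneg_left hs (by positivity : (0 : ℝ) ≤ 2 ^ (g₂ 3 + q + sg))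
  rw [mul_comm]
  refine hs2.trans ?_
  rw [mul_sum]
  refine (sum_le_sum fun l hl => key l (mem_range.1 hl)).trans ?_
  rw [sum_const, card_range, nsmul_eq_mul, pow_add (2 : ℝ) (68 * x + Y) 3]
  have : (0 : ℝ) < 2 ^ (68 * x + Y) := by positivity
  push_cast
  linarith

/-- Cells. -/
theorem fl_near {s x y : ℝ} (hs : 0 < s) (h : ⌊s * x⌋ = ⌊s * y⌋) : |x - y| ≤ 1 / s := by
  rw [le_div_iff₀ hs, mul_comm]
  exact fl_one hs.le h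

/-- The cost of the cells. -/
theorem log_cells (n : ℕ) : Real.log (2 * (2 * (2 ^ n : ℕ) + 2 : ℕ) + 1) ≤ (n + 4) * Real.log 2 := by
  have h1 : ((n : ℝ) + 4) * Real.log 2 = Real.log (2 ^ (n + 4)) := by
    rw [Real.log_pow]
    push_cast
    ring
  rw [h1]
  refine Real.log_le_log (by positivity) ?_
  push_cast
  rw [pow_add]
  have : (1 : ℝ) ≤ 2 ^ n := one_le_pow₀ (by norm_num)
  linarith

/-- The velocity cell of the first coordinate, at `q₁` digits. -/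
noncomputable def eC {κ : Type} {r D : ℕ} (d : Dat F κ r D) (w Q : ℕ) (ω : F.Ω) : ℤ :=
  ⌊(2 : ℝ) ^ Q * d.e w 0 ω⌋

/-- The own data: the cell of the velocity and the cells of the coefficients. -/
noncomputable def eR {κ : Type} {r D : ℕ} (d : Dat F κ r D) (w : ℕ) (ω : F.Ω) :
    ℤ × (Fin r → Fin D → ℤ) := (cV d w ω, cG d w ω)

/-- The polynomials of degree: the numbers. -/
theorem dg_num {x : ℕ} (hDx : ((D : ℝ) + 1) * 2 ^ D ≤ 2 ^ x) :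
    ((D : ℝ) + 1) * ((D + 3) ^ 2) ≤ 2 ^ (3 * x + 4) := by
  have h2 : (2 : ℝ) ^ D ≤ 2 ^ x := by
    refine le_trans (le_mul_of_one_le_left (by positivity) ?_) hDx
    have : (0 : ℝ) ≤ D := Nat.cast_nonneg D
    linarith
  have h1 : (D : ℝ) + 1 ≤ 2 ^ x :=
    le_trans (le_mul_of_one_le_right (by positivity) (one_le_pow₀ (by norm_num))) hDx
  have h3 : (D : ℝ) + 3 ≤ 2 ^ (D + 2) := by
    have : D + 3 ≤ 2 ^ (D + 2) := by
      have := Nat.lt_two_pow_self (n := D + 2)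
      omega
    exact_mod_cast this
  have h4 : (D : ℝ) + 3 ≤ 2 ^ (x + 2) := by
    refine h3.trans ?_
    rw [pow_add, pow_add]
    exact mul_le_mul_of_nonneg_right h2 (by norm_num)
  calc ((D : ℝ) + 1) * ((D + 3) ^ 2) ≤ 2 ^ x * (2 ^ (x + 2)) ^ 2 := by
        refine mul_le_mul h1 (pow_le_pow_left₀ (by positivity) h4 2) (by positivity)
          (by positivity)
    _ = 2 ^ (3 * x + 4) := by
        rw [← pow_mul, ← pow_add]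
        congr 1
        ring

variable {W k k₁ k₂ e₂ e₃ M q₀ : ℕ} {g : ℕ → ℕ} {B : F.Ω → Prop}
    {Ht : LnT F → MvPolynomial (Option (Fin m)) ℝ}
    {Ga : PtT F → ℕ → MvPolynomial (Option (Fin m)) ℝ}
    {ψ₁ ψ₂ Sv : PtT F → ℕ → Option (Fin m) → ℝ} {ψH₁ ψH₂ ψH : LnT F → ℕ → Option (Fin m) → ℝ}
    {hD : ∀ s, (Ht s).totalDegree ≤ D}

/-- The paths of two lines with the same record and the same cell of the velocity. -/
theorem pth_near (N : BsN x sg q q₁ w₀ w g₁ g₂) (hq : q ≤ q₀) (hw : w ≤ W) (hW : W ≤ J)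
    (hG : Gb F c g₂ g w (w - w₀) W k 3 D sg M ψH₂ Ht Ga B)
    (la : ∀ l < 3, g₂ l + q ≤ g l) (la' : ∀ l < 3, l ≠ 0 → g₂ l + q + W ≤ g l + w)
    {ω ω' : F.Ω} (hω : B ω) (hω' : B ω') (hT : F.T1 W ω = F.T1 W ω')
    (hψ : ψH₂ (slam F w ω) = ψH₂ (slam F w ω'))
    (hGa : ∀ l ≤ 3, Ga (ptr F J ω) l = Ga (ptr F J ω') l)
    (he : cV (hdt2 F c g₂ w (w - w₀) 3 D q₀ q sg ψH₂ Ht hD) w ω =
      cV (hdt2 F c g₂ w (w - w₀) 3 D q₀ q sg ψH₂ Ht hD) w ω') :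
    ∀ l < 3, ∀ j < 2, |((hdt2 F c g₂ w (w - w₀) 3 D q₀ q sg ψH₂ Ht hD).P l (slam F w ω) -
      (hdt2 F c g₂ w (w - w₀) 3 D q₀ q sg ψH₂ Ht hD).P l (slam F w ω')).coeff j| ≤
        2 ^ (11 * k + 36) / 2 ^ (g₂ l + q) := by
  have h1 : (2 : ℝ) ^ (g₂ 0 + q) * |(hdt F c g₂ w (w - w₀) 3 D q sg ψH₂ Ht hD).e w 0 ω -
      (hdt F c g₂ w (w - w₀) 3 D q sg ψH₂ Ht hD).e w 0 ω'| ≤ (1 : ℕ) := by
    have h2 : (2 : ℝ) ^ (g₂ 0 + q₀) * |(hdt F c g₂ w (w - w₀) 3 D q sg ψH₂ Ht hD).e w 0 ω -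
      (hdt F c g₂ w (w - w₀) 3 D q sg ψH₂ Ht hD).e w 0 ω'| ≤ 1 := by
      have h3 := fl_one (s := (hdt2 F c g₂ w (w - w₀) 3 D q₀ q sg ψH₂ Ht hD).SE 0)
        (by change (0 : ℝ) ≤ 2 ^ (g₂ 0 + Pool.D2F2.qv q₀ q 0); positivity) he
      exact h3
    push_cast
    refine le_trans (mul_le_mul_of_nonneg_right (two_le (by omega)) (abs_nonneg _)) h2
  intro l hl j hj
  have h2 := hG.lines hw hW hω hω' hT hψ hGa h1 la la' l hl j hj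
  rw [le_div_iff₀ (by positivity), mul_comm]
  refine h2.trans ?_
  have e1 : ((2 * ((2 * 3 + 2) * 2 ^ k) ^ (2 * 3 + 5) * (1 + 2) : ℕ) : ℝ) =
      6 * 2 ^ (11 * k + 33) := by
    rw [show (2 * 3 + 2) * 2 ^ k = 2 ^ (3 + k) by rw [pow_add]; ring, ← pow_mul,
      show (3 + k) * (2 * 3 + 5) = 11 * k + 33 by ring]
    push_cast
    ring
  rw [e1, show 11 * k + 36 = 3 + (11 * k + 33) by ring, pow_add (2 : ℝ) 3]
  exact mul_le_mul_of_nonneg_right (by norm_num) (by positivity)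

/-- **Few at the window of the block**, for refined own data. -/
theorem few_blk (N : BsN x sg q q₁ w₀ w g₁ g₂) (hc : Set.InjOn c (Set.Iio 3)) (hD2 : 2 ≤ D)
    (hDx : ((D : ℝ) + 1) * 2 ^ D ≤ 2 ^ x) (hq : q ≤ q₀) (hw : w ≤ W) (hW : W ≤ J)
    (h₁ : WFr F c 4 w₀ k₁ e₂ g₁ B ψ₁ ψH₁ Sv) (h₂ : WFr F c 4 w k₂ e₃ g₂ B ψ₂ ψH₂ Sv)
    (hψ : ∀ s l, CvC c l (ψH s l)) (hk₁ : k₁ ≤ x) (hk₂ : k₂ ≤ x) (hQ : ∀ s, DepC c 3 (Ht s))
    (hM : ∀ ω, B ω → ∀ i < 3, ∀ j, |(gq F c g₁ w₀ 0 ψH₁ Ht (slam F w₀ ω) i).coeff (j + 1)| ≤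
      2 ^ x / 2 ^ g₁ 3 * 2 ^ g₁ i) (hC : Co0 F c sg x (w - w₀) w g₂ ψH₂ Ht B)
    (hG : Gb F c g₂ g w (w - w₀) W k 3 D sg M ψH₂ Ht Ga B)
    (la : ∀ l < 3, g₂ l + q ≤ g l) (la' : ∀ l < 3, l ≠ 0 → g₂ l + q + W ≤ g l + w)
    {p : F.Ω → ℝ} (hp : IsLaw p) (hB : ∀ ω, 0 < p ω → B ω) {ζ : Type} {z : F.Ω → ζ}
    (hz : ∀ ω ω', B ω → B ω' → z ω = z ω' → ψH₂ (slam F w ω) = ψH₂ (slam F w ω') ∧
      ψH (slam F W ω) = ψH (slam F W ω') ∧ F.T1 W ω = F.T1 W ω' ∧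
      ∀ l ≤ 3, Ga (ptr F J ω) l = Ga (ptr F J ω') l)
    {n₃ : ℕ} (h3 : n₃ ≤ g₂ 3 + q + sg + 2 * (W - w)) {SV SE SG : ℕ → ℝ} {E : ℝ}
    (few : CH p (fun ω => ⌊(2 : ℝ) ^ (g₂ 3 + q + sg) *
      nw (hdt2 F c g₂ w (w - w₀) 3 D q₀ q sg ψH₂ Ht hD) w
        (rfv p z (eR (hdt2 F c g₂ w (w - w₀) 3 D q₀ q sg ψH₂ Ht hD) w)
          (fun ω l => (hdt2 F c g₂ w (w - w₀) 3 D q₀ q sg ψH₂ Ht hD).P l (slam F w ω))
          (z ω) (eR (hdt2 F c g₂ w (w - w₀) 3 D q₀ q sg ψH₂ Ht hD) w ω)) ω⌋)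
      (fun ω => (eR (hdt2 F c g₂ w (w - w₀) 3 D q₀ q sg ψH₂ Ht hD) w ω, z ω)) ≤ E) :
    CH p (fun ω => ⌊(2 : ℝ) ^ n₃ * nw (fdat F c g W (W - w₀) 3 D ψH Ht hD SV SE SG) W
      (rfv p z (fun ω => (eR (hdt2 F c g₂ w (w - w₀) 3 D q₀ q sg ψH₂ Ht hD) w ω,
          eC (hdt2 F c g₂ w (w - w₀) 3 D q₀ q sg ψH₂ Ht hD) w (g₂ 0 + q₁) ω))
        (fun ω l => (fdat F c g W (W - w₀) 3 D ψH Ht hD SV SE SG).P l (slam F W ω))
        (z ω) (eR (hdt2 F c g₂ w (w - w₀) 3 D q₀ q sg ψH₂ Ht hD) w ω,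
          eC (hdt2 F c g₂ w (w - w₀) 3 D q₀ q sg ψH₂ Ht hD) w (g₂ 0 + q₁) ω)) ω⌋)
      (fun ω => ((eR (hdt2 F c g₂ w (w - w₀) 3 D q₀ q sg ψH₂ Ht hD) w ω,
        eC (hdt2 F c g₂ w (w - w₀) 3 D q₀ q sg ψH₂ Ht hD) w (g₂ 0 + q₁) ω), z ω)) ≤
      E + (71 * x + 22 * k + 90 : ℕ) * Real.log 2 := by
  obtain ⟨d, hd⟩ : ∃ d, d = hdt2 F c g₂ w (w - w₀) 3 D q₀ q sg ψH₂ Ht hD := ⟨_, rfl⟩
  have hx := N.x1
  have hgp : ∀ l < 3, ∀ ω, B ω → ∀ j, |(d.gp l (slam F w ω)).coeff (j + 1)| ≤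
      2 ^ (67 * x) * (2 ^ g₁ l / 2 ^ (g₁ 3 + (j + 1) * (w - w₀))) := fun l hl ω hω j => by
    have h4 := (nr_two (h₁.nr ω hω) (h₂.nr ω hω) hk₁ hk₂ N.up N.upj).1
    rw [h₁.fr.cls ω hω, h₂.fr.cls ω hω] at h4
    rw [hd]
    exact gq_base hx N.wB hc (hw.trans hW) (h₂.fr.depH _) (h₁.fr.depH _) hQ hD hDx h4 (hM ω hω)
      hl j
  have hpn : ∀ ω ω', B ω → B ω' → z ω = z ω' → eR d w ω = eR d w ω' → ∀ l < 3, ∀ j < 2,
      |(d.P l (slam F w ω) - d.P l (slam F w ω')).coeff j| ≤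
        2 ^ (11 * k + 36) / 2 ^ (g₂ l + q) := fun ω ω' hω hω' ez ee => by
    obtain ⟨a1, a2, a3, a4⟩ := hz ω ω' hω hω' ez
    rw [hd] at ee ⊢
    exact pth_near N hq hw hW hG la la' hω hω' a3 a1 a4 (Prod.ext_iff.1 ee).1
  have hgn : ∀ ω ω', eR d w ω = eR d w ω' → ∀ l < 3, ∀ j, j = 1 ∨ j = 2 →
      |(d.gp l (slam F w ω)).coeff j - (d.gp l (slam F w ω')).coeff j| ≤
        2 ^ g₂ l / 2 ^ (g₂ 3 + sg) := by
    intro ω ω' ee l hl j hj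
    have h5 : cG d w ω ⟨l, hl⟩ ⟨j - 1, by omega⟩ = cG d w ω' ⟨l, hl⟩ ⟨j - 1, by omega⟩ := by
      have h8 : cG d w ω = cG d w ω' := (Prod.ext_iff.1 ee).2
      rw [h8]
    unfold cG at h5
    rw [show j - 1 + 1 = j by omega] at h5
    have h6 : d.SG l = 2 ^ (g₂ 3 + sg) / 2 ^ g₂ l := by
      rw [hd]
      rfl
    have h7 := fl_near (by rw [h6]; positivity) h5
    rw [h6, one_div_div] at h7
    exact h7
  rw [← hd] at few ⊢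
  have f1 := few_ref d w hp (z := z) (e := eR d w) (e' := eC d w (g₂ 0 + q₁))
    (N := g₂ 3 + q + sg) (K := 2 ^ (11 * k + 39)) (A := fun l => 2 ^ g₂ l / 2 ^ (g₂ 3 + sg))
    (B := fun l => 2 ^ (11 * k + 36) / 2 ^ (g₂ l + q)) (fun l _ => by positivity)
    (fun ω ω' hω hω' _ ee => hgn ω ω' ee)
    (fun ω ω' hω hω' ez ee => hpn ω ω' (hB ω hω) (hB ω' hω') ez ee) (by
      have h7 : ∀ l, (2 : ℝ) ^ g₂ l / 2 ^ (g₂ 3 + sg) * (2 ^ (11 * k + 36) / 2 ^ (g₂ l + q)) =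
          2 ^ (11 * k + 36) / 2 ^ (g₂ 3 + q + sg) := by
        intro l
        simp only [pow_add]
        field_simp
      simp only [h7]
      rw [sum_const, card_range, nsmul_eq_mul]
      push_cast
      rw [show 11 * k + 39 = 3 + (11 * k + 36) by ring, pow_add (2 : ℝ) 3]
      have h8 : (2 : ℝ) ^ (g₂ 3 + q + sg) * (3 * (2 ^ (11 * k + 36) / 2 ^ (g₂ 3 + q + sg) +
          2 ^ (11 * k + 36) / 2 ^ (g₂ 3 + q + sg))) = 6 * 2 ^ (11 * k + 36) := by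
        field_simp
        ring
      rw [h8]
      exact mul_le_mul_of_nonneg_right (by norm_num) (by positivity))
  have f2 : CH p (fun ω => ⌊(2 : ℝ) ^ (g₂ 3 + q + sg) * nw d w (rfv p z
      (fun ω => (eR d w ω, eC d w (g₂ 0 + q₁) ω)) (fun ω l => d.P l (slam F w ω)) (z ω)
        (eR d w ω, eC d w (g₂ 0 + q₁) ω)) ω⌋)
      (fun ω => ((eR d w ω, eC d w (g₂ 0 + q₁) ω), z ω)) ≤
      E + (11 * k + 43 : ℕ) * Real.log 2 := by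
    refine f1.trans (add_le_add few ?_)
    have h9 := log_cells (11 * k + 39)
    push_cast at h9 ⊢
    linarith
  have f3 := few_win (F := F) (c := c) (r := 3) (D := D) (Ht := Ht) (hD := hD) (g := g)
    (g₁ := g₂) (W := W) (n := W - w₀) (w := w) (n₁ := w - w₀) (ψH := ψH) (ψH₁ := ψH₂)
    (SV := SV) (SE := SE) (SG := SG) (SV₁ := d.SV) (SE₁ := d.SE) (SG₁ := d.SG) hc hw hW hψ
    h₂.fr.depH hQ (by omega) (by omega) (by have := N.wB; omega) hp (z := z)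
    (e := fun ω => (eR d w ω, eC d w (g₂ 0 + q₁) ω)) (n₂ := g₂ 3 + q + sg) (n₃ := n₃)
    (N := 2 ^ (71 * x + 11 * k + 43))
    (M := 2 ^ (68 * x + (11 * k + 36) + 3) / 2 ^ (g₂ 3 + q + sg)) (by
      intro ω ω₀ hω hω₀ ez ee
      obtain ⟨a1, a2, a3, a4⟩ := hz ω ω₀ (hB ω hω) (hB ω₀ hω₀) ez
      refine ⟨a2.symm, a1.symm, a3, fun j hj => ?_⟩
      have e1 := (Prod.ext_iff.1 ee).1
      have e2 := (Prod.ext_iff.1 ee).2
      have h5 := ph_small N d (s := slam F w ω) (s₀ := slam F w ω₀) (Y := 11 * k + 36)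
        (fun l hl _ j => hgp l hl ω (hB ω hω) j) (by
          rw [hd]
          exact hC.c2 ω (hB ω hω)) (by
          rw [hd]
          exact hC.c3 ω (hB ω hω)) (hpn ω ω₀ (hB ω hω) (hB ω₀ hω₀) ez e1) (by
          have h6 : |d.e w 0 ω - d.e w 0 ω₀| ≤ 1 / 2 ^ (g₂ 0 + q₁) :=
            fl_near (by positivity) e2
          rw [Polynomial.coeff_sub]
          refine h6.trans (div_le_div_of_nonneg_right (one_le_pow₀ (by norm_num))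
            (by positivity))) hj
      rw [hd] at h5 ⊢
      exact h5) (by
      have h6 := dg_num hDx
      push_cast
      have h7 : (2 : ℝ) ^ (g₂ 3 + q + sg) * (((D : ℝ) + 1) * ((D + 3) ^ 2 *
          (2 ^ (68 * x + (11 * k + 36) + 3) / 2 ^ (g₂ 3 + q + sg)))) =
          (((D : ℝ) + 1) * (D + 3) ^ 2) * 2 ^ (68 * x + (11 * k + 36) + 3) := by
        field_simp
      rw [h7, show 71 * x + 11 * k + 43 = 3 * x + 4 + (68 * x + (11 * k + 36) + 3) by ring,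
        pow_add (2 : ℝ) (3 * x + 4)]
      exact mul_le_mul_of_nonneg_right h6 (by positivity)) h3 (e1 := E +
        (11 * k + 43 : ℕ) * Real.log 2) (by
      rw [hd] at f2 ⊢
      exact f2)
  refine f3.trans ?_
  have h9 := log_cells (71 * x + 11 * k + 43)
  push_cast at h9 ⊢
  linarith

end Pool.D2N
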