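import Pool.Agent.H90.D2.Hhb
import Pool.Agent.H73.D2.Tlr

/-!
# The hop cell: the own data at the window of the block

`BkN`: the numbers between the base window and the window of the block. `nG_blk`, `nE_blk`: the
coefficients of the label and the velocity of two lines with the same own data. `eL`: the own data
as a function of the line. `free_blk`: the own data are free. `tm_ev`: time is full.
-/

set_option autoImplicit false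

namespace Pool.D2N

open Finset Real MvPolynomial
open Pool.Agent.H49.Ent Pool.Agent.H32.Dense Pool.STK Pool.KA Pool.KSAT Pool.K2S Pool.PB Pool.S6C
open Pool.GEN Pool.CHT Pool.CHX Pool.LA91
open Pool.D2F Pool.D2Z Pool.D2F2
open Pool.D2R (dd hs co co_slam)
open Pool.X31 (nw)
open Pool.OWN68 (opl tw uw mid dirv natDegree_opl opl_jet uw_abs)

variable {m J : ℕ}

/-- **The numbers between the base window `w` and the window `W` of the block**. -/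
structure BkN (x s sg q q₀ q₁ w W : ℕ) (g₂ g : ℕ → ℕ) : Prop where
  x1 : 1 ≤ x
  wW : w ≤ W
  q0 : q ≤ q₀
  q01 : q₀ ≤ q₁
  up : ∀ l < 3, W + g₂ l ≤ g l + w + x
  upj : ∀ l < 3, ∀ j < l, g j + g₂ l ≤ g l + g₂ j + x
  d1 : ∀ l, 1 ≤ l → l ≤ 2 → g 3 + g₂ l + s ≤ g₂ 3 + g l + sg + (W - w) + x
  e1 : g 0 + w + 1 + s ≤ W + g₂ 0 + q₁ + x
  n3 : s + g 3 + 2 ≤ g₂ 3 + q + sg + 2 * (W - w)
  la : ∀ l < 3, g₂ l + q ≤ g l
  la' : ∀ l < 3, l ≠ 0 → g₂ l + q + W ≤ g l + w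

variable {F : Fam m J} {c : ℕ → Fin m} {D w₀ w W x s sg q q₀ q₁ k k₂ e₀ e₃ : ℕ}
    {g₂ g : ℕ → ℕ} {B : F.Ω → Prop}
    {Ht : LnT F → MvPolynomial (Option (Fin m)) ℝ}
    {ψ₂ ψ Sv : PtT F → ℕ → Option (Fin m) → ℝ} {ψH₂ ψH : LnT F → ℕ → Option (Fin m) → ℝ}
    {hD : ∀ s, (Ht s).totalDegree ≤ D}

/-- Same cells of the coefficients. -/
theorem cG_near {ω ω' : F.Ω} (ee : cG (hdt2 F c g₂ w (w - w₀) 3 D q₀ q sg ψH₂ Ht hD) w ω =
    cG (hdt2 F c g₂ w (w - w₀) 3 D q₀ q sg ψH₂ Ht hD) w ω') :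
    ∀ l < 3, ∀ j, |(gq F c g₂ w (w - w₀) ψH₂ Ht (slam F w ω) l).coeff (j + 1) -
      (gq F c g₂ w (w - w₀) ψH₂ Ht (slam F w ω') l).coeff (j + 1)| ≤
        1 / 2 ^ (g₂ 3 + sg) * 2 ^ g₂ l := by
  intro l hl j
  obtain ⟨d, hd⟩ : ∃ d, d = hdt2 F c g₂ w (w - w₀) 3 D q₀ q sg ψH₂ Ht hD := ⟨_, rfl⟩
  rw [← hd] at ee
  have e1 : ∀ s, gq F c g₂ w (w - w₀) ψH₂ Ht s l = d.gp l s := fun s => by
    rw [hd]
    rfl
  rw [e1, e1]
  rcases Nat.lt_or_ge j D with hj | hj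
  · have h5 : cG d w ω ⟨l, hl⟩ ⟨j, hj⟩ = cG d w ω' ⟨l, hl⟩ ⟨j, hj⟩ := by rw [ee]
    unfold cG at h5
    have h6 : d.SG l = 2 ^ (g₂ 3 + sg) / 2 ^ g₂ l := by
      rw [hd]
      rfl
    have h7 := fl_near (by rw [h6]; positivity) h5
    rw [h6, one_div_div] at h7
    rwa [div_mul_eq_mul_div, one_mul]
  · rw [Polynomial.coeff_eq_zero_of_natDegree_lt (lt_of_le_of_lt (d.gD l _) (by omega)),
      Polynomial.coeff_eq_zero_of_natDegree_lt (lt_of_le_of_lt (d.gD l _) (by omega)), sub_zero,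
      abs_zero]
    positivity

/-- **The coefficient of order two** in the direction of the first coordinate is determined by the
own data, or small. -/
def Cd2 (F : Fam m J) (c : ℕ → Fin m) (s x sg n w W : ℕ) (g₂ g : ℕ → ℕ)
    (ψH : LnT F → ℕ → Option (Fin m) → ℝ) (Ht : LnT F → MvPolynomial (Option (Fin m)) ℝ)
    (B : F.Ω → Prop) : Prop :=
  (g 3 + g₂ 0 + s ≤ g₂ 3 + g 0 + sg + 2 * (W - w) + x) ∨
    ∀ ω, B ω → |2 ^ g 3 / 2 ^ g 0 * (gq F c g W n ψH Ht (slam F W ω) 0).coeff 2| ≤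
      1 / 2 ^ (s + 230 * x)

/-- **The coefficients of the label** at the window of the block, same own data. -/
theorem nG_blk (N : BkN x s sg q q₀ q₁ w W g₂ g) (hc : Set.InjOn c (Set.Iio 3)) (hW : W ≤ J)
    (hw₀ : w₀ ≤ w) (hDx : ((D : ℝ) + 1) * 2 ^ D ≤ 2 ^ x)
    (h₂ : WFr F c 4 w k₂ e₃ g₂ B ψ₂ ψH₂ Sv) (h : WFr F c 4 W k e₀ g B ψ ψH Sv) (hk₂ : k₂ ≤ x)
    (hk : k ≤ x) (hQ : ∀ s, DepC c 3 (Ht s))
    (hd2 : Cd2 F c s x sg (W - w₀) w W g₂ g ψH Ht B) {ω ω' : F.Ω} (hω : B ω) (hω' : B ω')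
    (e1 : ψH (slam F W ω) = ψH (slam F W ω')) (e2 : ψH₂ (slam F w ω) = ψH₂ (slam F w ω'))
    (e3 : F.T1 W ω = F.T1 W ω')
    (ee : cG (hdt2 F c g₂ w (w - w₀) 3 D q₀ q sg ψH₂ Ht hD) w ω =
      cG (hdt2 F c g₂ w (w - w₀) 3 D q₀ q sg ψH₂ Ht hD) w ω') :
    ∀ l < 3, ∀ j, (j = 1 ∧ 1 ≤ l) ∨ (j = 2 ∧ l = 0) →
      |2 ^ g 3 / 2 ^ g l * (4 * ((gq F c g W (W - w₀) ψH Ht (slam F W ω) l).coeff j -
        (gq F c g W (W - w₀) ψH Ht (slam F W ω') l).coeff j))| ≤ 2 ^ (150 * x) / 2 ^ s := by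
  intro l hl j hj
  have hx := N.x1
  by_cases hsm : (j = 2 ∧ l = 0) ∧ ¬ (g 3 + g₂ 0 + s ≤ g₂ 3 + g 0 + sg + 2 * (W - w) + x)
  · obtain ⟨⟨rfl, rfl⟩, hn⟩ := hsm
    rcases hd2 with h0 | h0
    · exact absurd h0 hn
    · have a1 := h0 ω hω
      have a2 := h0 ω' hω'
      have a3 : (1 : ℝ) / 2 ^ (s + 230 * x) * 8 ≤ 2 ^ (150 * x) / 2 ^ s := by
        rw [one_div_mul_eq_div, div_le_div_iff₀ (by positivity) (by positivity)]
        calc (8 : ℝ) * 2 ^ s = 2 ^ (3 + s) := by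
              rw [pow_add]
              norm_num
          _ ≤ 2 ^ (150 * x + (s + 230 * x)) := two_le (by omega)
          _ = _ := by rw [pow_add]
      have e4 : 2 ^ g 3 / 2 ^ g 0 * (4 * ((gq F c g W (W - w₀) ψH Ht (slam F W ω) 0).coeff 2 -
          (gq F c g W (W - w₀) ψH Ht (slam F W ω') 0).coeff 2)) =
          4 * (2 ^ g 3 / 2 ^ g 0 * (gq F c g W (W - w₀) ψH Ht (slam F W ω) 0).coeff 2) -
          4 * (2 ^ g 3 / 2 ^ g 0 * (gq F c g W (W - w₀) ψH Ht (slam F W ω') 0).coeff 2) := by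
        ring
      rw [e4]
      refine (abs_sub _ _).trans ?_
      have e5 : ∀ y : ℝ, |4 * y| = 4 * |y| := fun y => by
        rw [abs_mul, abs_of_pos (by norm_num : (0 : ℝ) < 4)]
      rw [e5, e5]
      linarith
  have hd2' : j = 2 ∧ l = 0 → g 3 + g₂ 0 + s ≤ g₂ 3 + g 0 + sg + 2 * (W - w) + x := fun h => by
    by_contra hn
    exact hsm ⟨h, hn⟩
  clear hsm
  obtain ⟨i, rfl⟩ : ∃ i, j = i + 1 := ⟨j - 1, by omega⟩
  have hN := (nr_two (h₂.nr ω hω) (h.nr ω hω) hk₂ hk N.up N.upj).1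
  rw [h₂.fr.cls ω hω, h.fr.cls ω hω] at hN
  have h5 := gq_coeff_sub (g := g) (g₁ := g₂) (W := W) (n := W - w₀) (w := w) (n₁ := w - w₀)
    hc N.wW hW (ω := ω) (ω' := ω') (h.fr.depH _) (h₂.fr.depH _) (h₂.fr.depH _) hQ hD
    (by omega) (by omega) (by have := N.wW; omega) (by positivity) e1 e2 e3 hN
    (fun l hl j => cG_near (q₀ := q₀) (q := q) ee l hl j) hl i
  obtain ⟨Δ, hΔ⟩ : ∃ Δ : ℝ, Δ = (gq F c g W (W - w₀) ψH Ht (slam F W ω) l).coeff (i + 1) -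
    (gq F c g W (W - w₀) ψH Ht (slam F W ω') l).coeff (i + 1) := ⟨_, rfl⟩
  rw [← hΔ] at h5 ⊢
  have h2 : 3 * (((D : ℝ) + 1) * 2 ^ D * (1 + 2 ^ (12 * x + 8)) ^ 3) ≤ 2 ^ (66 * x) := by
    calc 3 * (((D : ℝ) + 1) * 2 ^ D * (1 + 2 ^ (12 * x + 8)) ^ 3) ≤
        2 ^ (2 * x) * (2 ^ x * 2 ^ (63 * x)) := by
          have h3 : (3 : ℝ) ≤ 2 ^ (2 * x) := by
            calc (3 : ℝ) ≤ 2 ^ 2 := by norm_num
              _ ≤ 2 ^ (2 * x) := two_le (by omega)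
          have h4 := pw3 x hx
          gcongr
      _ = 2 ^ (66 * x) := by
          rw [← pow_add, ← pow_add]
          congr 1
          ring
  have h6 : |Δ| ≤ 2 ^ (66 * x) * (1 / 2 ^ (g₂ 3 + sg)) *
      (2 ^ g₂ l / 2 ^ ((i + 1) * (W - w))) := by
    refine h5.trans ?_
    gcongr
  rw [abs_mul, abs_mul, abs_of_pos (by positivity : (0 : ℝ) < 2 ^ g 3 / 2 ^ g l),
    abs_of_pos (by norm_num : (0 : ℝ) < 4)]
  have h7 : (2 : ℝ) ^ g 3 / 2 ^ g l * (4 * (2 ^ (66 * x) * (1 / 2 ^ (g₂ 3 + sg)) *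
      (2 ^ g₂ l / 2 ^ ((i + 1) * (W - w))))) =
      2 ^ (g 3 + 2 + 66 * x + g₂ l) / 2 ^ (g l + (g₂ 3 + sg) + (i + 1) * (W - w)) := by
    rw [show (4 : ℝ) = 2 ^ 2 by norm_num]
    simp only [pow_add]
    field_simp
  refine (mul_le_mul_of_nonneg_left (mul_le_mul_of_nonneg_left h6 (by norm_num))
    (by positivity)).trans ?_
  rw [h7, div_le_div_iff₀ (by positivity) (by positivity), ← pow_add, ← pow_add]
  refine two_le ?_
  rcases hj with ⟨h8, h9⟩ | ⟨h8, h9⟩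
  · have h10 := N.d1 l h9 (by omega)
    obtain rfl : i = 0 := by omega
    omega
  · have h10 := hd2' ⟨h8, h9⟩
    subst h9
    obtain rfl : i = 1 := by omega
    omega

/-- **The velocity** at the window of the block, same own data. -/
theorem nE_blk (N : BkN x s sg q q₀ q₁ w W g₂ g) (hw : w ≤ J)
    (h₂ : WFr F c 4 w k₂ e₃ g₂ B ψ₂ ψH₂ Sv) (h : WFr F c 4 W k e₀ g B ψ ψH Sv)
    {ω ω' : F.Ω} (hω : B ω) (hω' : B ω')
    (e1 : ψ (ptr F J ω) = ψ (ptr F J ω')) (e2 : ψH₂ (slam F w ω) = ψH₂ (slam F w ω'))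
    (ee : eC (hdt2 F c g₂ w (w - w₀) 3 D q₀ q sg ψH₂ Ht hD) w (g₂ 0 + q₁) ω =
      eC (hdt2 F c g₂ w (w - w₀) 3 D q₀ q sg ψH₂ Ht hD) w (g₂ 0 + q₁) ω') :
    |Xn F c g W ψ ω 1 - Xn F c g W ψ ω' 1| ≤ 2 ^ (150 * x) / 2 ^ s := by
  have hx := N.x1
  obtain ⟨d, hd⟩ : ∃ d, d = hdt2 F c g₂ w (w - w₀) 3 D q₀ q sg ψH₂ Ht hD := ⟨_, rfl⟩
  rw [← hd] at ee
  have h6 : |d.e w 0 ω - d.e w 0 ω'| ≤ 1 / 2 ^ (g₂ 0 + q₁) := fl_near (by positivity) ee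
  have h7 : ∀ ν : F.Ω, d.e w 0 ν = 1 / 2 ^ (w + 1) * (bd F ν (some (c 0)) -
      cv (ψH₂ (slam F w ν) 0) (bd F ν)) := fun ν => by
    have h8 := fdat_e (F := F) (c := c) (g := g₂) (n := w - w₀) (r := 3) (D := D) (ψH := ψH₂)
      (Ht := Ht) (hD := hD) (SV := d.SV) (SE := d.SE) (SG := d.SG) hw 0 ν
    rw [if_pos (by norm_num : 0 < 3)] at h8
    rw [← h8, hd]
    rfl
  have hcv : ∀ χ : Option (Fin m) → ℝ, CvC c 0 χ → ∀ ν ν' : F.Ω, cv χ (bd F ν) = cv χ (bd F ν') :=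
    fun χ hχ ν ν' => cv_congr hχ rfl (fun j hj => absurd hj (by omega))
  have h9 : d.e w 0 ω - d.e w 0 ω' = 1 / 2 ^ (w + 1) *
      (bd F ω (some (c 0)) - bd F ω' (some (c 0))) := by
    rw [h7, h7, ← e2, hcv _ (h₂.fr.depH _ 0) ω ω']
    ring
  have h10 : Xn F c g W ψ ω 1 - Xn F c g W ψ ω' 1 = 2 ^ g 0 * (1 / 2 ^ W *
      (bd F ω (some (c 0)) - bd F ω' (some (c 0)))) := by
    unfold Xn
    rw [← e1, eta_smul, eta_smul]
    have f1 : ∀ V, eta c g W (ψ (ptr F J ω)) V 1 = 2 ^ g 0 * (V (some (c 0)) -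
        cv (ψ (ptr F J ω) 0) V) := fun V => rfl
    rw [f1, f1, hcv _ (h.fr.dep _ 0) ω ω']
    ring
  have h11 : Xn F c g W ψ ω 1 - Xn F c g W ψ ω' 1 =
      2 ^ (g 0 + w + 1) / 2 ^ W * (d.e w 0 ω - d.e w 0 ω') := by
    rw [h9, h10, pow_add, pow_add, pow_add]
    field_simp
  rw [h11, abs_mul, abs_of_pos (by positivity)]
  refine (mul_le_mul_of_nonneg_left h6 (by positivity)).trans ?_
  rw [mul_one_div, div_div, div_le_div_iff₀ (by positivity) (by positivity), ← pow_add,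
    ← pow_add, ← pow_add]
  have := N.e1
  exact two_le (by omega)

/-- **The own data, as a function of the line.** -/
noncomputable def eL {κ : Type} {r D : ℕ} (d : Dat F κ r D) (w W Q : ℕ) (s : LnT F) :
    (ℤ × (Fin r → Fin D → ℤ)) × ℤ :=
  ((⌊d.SE 0 * (d.P 0 (co (W - w) s)).coeff 1⌋,
    fun l j => ⌊d.SG l * (d.gp l (co (W - w) s)).coeff (j + 1)⌋),
    ⌊(2 : ℝ) ^ Q * (d.P 0 (co (W - w) s)).coeff 1⌋)

theorem eL_slam {κ : Type} {r D : ℕ} (d : Dat F κ r D) (hw : w ≤ W) (hW : W ≤ J) (Q : ℕ)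
    (ω : F.Ω) : eL d w W Q (slam F W ω) = (eR d w ω, eC d w Q ω) := by
  unfold eL eR eC cV cG Dat.e
  rw [co_slam F hw hW]

/-- Coarser cells of one number. -/
theorem fl_coarse {n n' : ℕ} (h : n ≤ n') {y y' : ℝ}
    (he : ⌊(2 : ℝ) ^ n' * y⌋ = ⌊(2 : ℝ) ^ n' * y'⌋) : ⌊(2 : ℝ) ^ n * y⌋ = ⌊(2 : ℝ) ^ n * y'⌋ := by
  obtain ⟨e, rfl⟩ := Nat.exists_eq_add_of_le h
  have h1 : ∀ z : ℝ, ⌊(2 : ℝ) ^ n * z⌋ = ⌊(2 : ℝ) ^ (n + e) * z⌋ / 2 ^ e := by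
    intro z
    have h2 : (2 : ℝ) ^ n * z = (2 : ℝ) ^ (n + e) * z / ((2 ^ e : ℕ) : ℝ) := by
      push_cast
      rw [pow_add]
      field_simp
    rw [h2, Int.floor_div_natCast]
    push_cast
    rfl
  rw [h1, h1, he]

/-- **Time is full** over the line. -/
theorem tm_ev {q : F.Ω → ℝ} (hq : IsLaw q) {w : ℕ} (hw : w ≤ J) {y : ℝ}
    (h : (J : ℝ) * Real.log 2 - y ≤ CH q F.T (fun ω => (F.l ω, F.Z ω))) :
    ((J - w : ℕ) : ℝ) * Real.log 2 - y ≤ CH q F.T (slam F w) := by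
  have h1 := CH_le_add hq.nonneg F.T (F.T1 w) (fun ω => (F.l ω, F.Z ω))
  have h2 : CH q (F.T1 w) (fun ω => (F.l ω, F.Z ω)) ≤ w * Real.log 2 := by
    have h3 := CH_le_card hq.nonneg hq.sum_one (F.T1 w) (fun ω => (F.l ω, F.Z ω))
      (fun _ => Finset.range (2 ^ w)) (fun ω _ => by
        rw [Finset.mem_range]
        unfold Fam.T1
        rw [Nat.div_lt_iff_lt_mul (by positivity), ← pow_add, show w + (J - w) = J by omega]
        exact F.tim ω)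
    refine h3.trans (le_of_eq ?_)
    simp only [card_range]
    push_cast
    rw [Real.log_pow]
    exact Ex_const hq.sum_one _
  have h4 : CH q F.T (fun ω => (F.T1 w ω, (F.l ω, F.Z ω))) ≤ CH q F.T (slam F w) :=
    CH_mono_cond hq.nonneg fun ω ω' _ _ h => by
      obtain ⟨a1, a2⟩ := Prod.mk.inj h
      obtain ⟨a3, a4⟩ := Prod.mk.inj a2
      exact Prod.ext a3 (Prod.ext a4 a1)
  rw [Nat.cast_sub hw]
  linarith

end Pool.D2N
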