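import Pool.Agent.H90.D2.Hhc
import Pool.Agent.H90.D2.Hcq
import Pool.Agent.H5.M3F.KerC

/-!
# The hop cell: one block

`HbG`: the geometry of one block. `few_cg`: the number of the block in the form of the end.
`fz_of`: the visible record. `hop_blk`: one block, class form.
-/

set_option autoImplicit false

namespace Pool.D2N

open Finset Real MvPolynomial
open Pool.Agent.H49.Ent Pool.Agent.H32.Dense Pool.STK Pool.KA Pool.KSAT Pool.K2S Pool.PB Pool.S6C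
open Pool.GEN Pool.CHT Pool.CHX Pool.LA91
open Pool.LBT (ThrOf)
open Pool.D2F Pool.D2Z Pool.D2F2
open Pool.D2R (dd hs co co_slam)
open Pool.X31 (nw)
open Pool.M3F (ExvY)
open Pool.OWN68 (opl tw uw mid dirv natDegree_opl opl_jet uw_abs)

variable {m J : ℕ}

/-- **The geometry of one block**: label window `w₀`, base window `w` of the number, window `W` of
the block, window `b` of the visible record, deep window `a'` of the label. -/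
structure HbG (F : Fam m J) (c : ℕ → Fin m) (D x e₀ sg w₀ w W b a' : ℕ)
    (g₁ g₂ g gb g' gT : ℕ → ℕ) (kG M v v' e p : ℕ) (U : ℝ) (B : F.Ω → Prop)
    (ψ₁ ψ₂ ψ ψ' Sv : PtT F → ℕ → Option (Fin m) → ℝ)
    (ψH₁ ψH₂ ψH ψH' : LnT F → ℕ → Option (Fin m) → ℝ)
    (Ga Gc G' : PtT F → ℕ → MvPolynomial (Option (Fin m)) ℝ)
    (Ha Hc H' : LnT F → ℕ → MvPolynomial (Option (Fin m)) ℝ)
    (T : PtT F → ℕ → MvPolynomial (Option (Fin m)) ℝ)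
    (TH : LnT F → ℕ → MvPolynomial (Option (Fin m)) ℝ)
    (Ht : LnT F → MvPolynomial (Option (Fin m)) ℝ) : Prop where
  inj : Set.InjOn c (Set.Iio 3)
  D2 : 2 ≤ D
  Dx : ((D : ℝ) + 1) * 2 ^ D ≤ 2 ^ x
  h₁ : WFr F c 4 w₀ x e₀ g₁ B ψ₁ ψH₁ Sv
  h₂ : WFr F c 4 w x e₀ g₂ B ψ₂ ψH₂ Sv
  hA : Blw F c W x e₀ g B ψ ψH Sv Ga Ha
  hb : Blw F c b x e₀ gb B ψ' ψH' Sv Gc Hc
  Dp : Dpw F c D w₀ a' v v' e x p g' gT U B G' H' T TH Ht Sv
  hQ : ∀ s, DepC c 3 (Ht s)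
  hM : ∀ ω, B ω → ∀ i < 3, ∀ j, |(gq F c g₁ w₀ 0 ψH₁ Ht (slam F w₀ ω) i).coeff (j + 1)| ≤
    2 ^ x / 2 ^ g₁ 3 * 2 ^ g₁ i
  hG : Gb F c g₂ g w (w - w₀) W kG 3 D sg M ψH₂ Ht Ga B

/-- **The coefficients of order at least two** in the direction of the first coordinate, at the base
window and at the window of the block. -/
structure CoH (F : Fam m J) (c : ℕ → Fin m) (s x sg w₀ w W : ℕ) (g₂ g : ℕ → ℕ)
    (ψH₂ ψH : LnT F → ℕ → Option (Fin m) → ℝ) (Ht : LnT F → MvPolynomial (Option (Fin m)) ℝ)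
    (B : F.Ω → Prop) : Prop where
  bw : Co0 F c sg x (w - w₀) w g₂ ψH₂ Ht B
  bW : Co0 F c s x (W - w₀) W g ψH Ht B
  d2 : Cd2 F c s x sg (W - w₀) w W g₂ g ψH Ht B

/-- The entropies depend only on the support. -/
theorem CH_sup {Ω S T : Type} [Fintype Ω] {p : Ω → ℝ} (hp : ∀ ω, 0 ≤ p ω) {X X' : Ω → S}
    {Z Z' : Ω → T} (h : ∀ ω, 0 < p ω → X ω = X' ω) (h' : ∀ ω, 0 < p ω → Z ω = Z' ω) :
    CH p X Z = CH p X' Z' :=
  CH_congr hp (fun ω ω' a b e => by rw [← h ω a, ← h ω' b]; exact (Prod.ext_iff.1 e).1)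
    (fun ω ω' a b e => by rw [h ω a, h ω' b]; exact (Prod.ext_iff.1 e).1)
    (fun ω ω' a b e => by rw [← h' ω a, ← h' ω' b]; exact e)
    (fun ω ω' a b e => by rw [h' ω a, h' ω' b]; exact e)

/-- The reference depends only on the support. -/
theorem rfv_sup {Ω ζ ε R : Type} [Fintype Ω] [Inhabited R] {p : Ω → ℝ} {z z' : Ω → ζ} {e : Ω → ε}
    (f : Ω → R) (h : ∀ ω, 0 < p ω → z ω = z' ω) : rfv p z e f = rfv p z' e f := by
  classical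
  funext y x
  have h1 : (fun ω => 0 < p ω ∧ z ω = y ∧ e ω = x) = (fun ω => 0 < p ω ∧ z' ω = y ∧ e ω = x) := by
    funext ω
    refine propext ⟨fun h2 => ⟨h2.1, (h ω h2.1).symm.trans h2.2.1, h2.2.2⟩,
      fun h2 => ⟨h2.1, (h ω h2.1).trans h2.2.1, h2.2.2⟩⟩
  unfold rfv
  simp only [h1]

section

variable {F : Fam m J} {c : ℕ → Fin m} {D x e₀ sg w₀ w W b a' : ℕ}
    {g₁ g₂ g gb g' gT : ℕ → ℕ} {kG M v v' e p : ℕ} {U : ℝ} {B : F.Ω → Prop}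
    {ψ₁ ψ₂ ψ ψ' Sv : PtT F → ℕ → Option (Fin m) → ℝ}
    {ψH₁ ψH₂ ψH ψH' : LnT F → ℕ → Option (Fin m) → ℝ}
    {Ga Gc G' : PtT F → ℕ → MvPolynomial (Option (Fin m)) ℝ}
    {Ha Hc H' : LnT F → ℕ → MvPolynomial (Option (Fin m)) ℝ}
    {T : PtT F → ℕ → MvPolynomial (Option (Fin m)) ℝ}
    {TH : LnT F → ℕ → MvPolynomial (Option (Fin m)) ℝ}
    {Ht : LnT F → MvPolynomial (Option (Fin m)) ℝ}
    {Va Vb : Type} {za : PtT F → Va} {zaH : LnT F → Va} {zb : PtT F → Vb} {zbH : LnT F → Vb}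

/-- A record knows the time in its window and `Z`. -/
theorem Rcd.tz (h : Rcd F B W za zaH) {ω ω' : F.Ω} (hω : B ω) (hω' : B ω')
    (e : za (ptr F J ω) = za (ptr F J ω')) : F.T1 W ω = F.T1 W ω' ∧ F.Z ω = F.Z ω' := by
  constructor
  · exact h.det (f := fun y => y.2.1 / 2 ^ (J - W)) (fH := fun s => s.2.2) (fun ω _ => rfl)
      hω hω' e
  · exact h.det (f := fun y => y.2.2) (fH := fun s => s.2.1) (fun ω _ => rfl) hω hω' e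

/-- A record knows what is closed at an earlier window. -/
theorem Rcd.det' (h : Rcd F B W za zaH) (hw : w ≤ W) (hW : W ≤ J) {S : Type} {f : PtT F → S}
    {fH : LnT F → S} (hf : ∀ ω, B ω → f (ptr F J ω) = fH (slam F w ω)) {ω ω' : F.Ω}
    (hω : B ω) (hω' : B ω') (e : za (ptr F J ω) = za (ptr F J ω')) :
    f (ptr F J ω) = f (ptr F J ω') :=
  h.det (f := f) (fH := fun s => fH (co (W - w) s)) (fun ω hω => by
    rw [hf ω hω, co_slam F hw hW]) hω hω' e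

/-- What the record of the block knows. -/
theorem HbG.kza (H : HbG F c D x e₀ sg w₀ w W b a' g₁ g₂ g gb g' gT kG M v v' e p U B ψ₁ ψ₂ ψ ψ'
    Sv ψH₁ ψH₂ ψH ψH' Ga Gc G' Ha Hc H' T TH Ht) (hw : w ≤ W) (hz : Rcd F B W za zaH)
    {ω ω' : F.Ω} (hω : B ω) (hω' : B ω') (e : za (ptr F J ω) = za (ptr F J ω')) :
    ψ (ptr F J ω) = ψ (ptr F J ω') ∧ ψH₂ (slam F w ω) = ψH₂ (slam F w ω') ∧
      F.T1 W ω = F.T1 W ω' ∧ ∀ l ≤ 3, Ga (ptr F J ω) l = Ga (ptr F J ω') l := by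
  refine ⟨hz.det H.hA.wf.fr.cls hω hω' e, ?_, (hz.tz hω hω' e).1, fun l hl =>
    hz.det (f := fun y => Ga y l) (fH := fun s => Ha s l) (fun ω hω => H.hA.cls ω hω l hl)
      hω hω' e⟩
  have h1 := hz.det' hw H.hA.aJ H.h₂.fr.cls hω hω' e
  rwa [H.h₂.fr.cls ω hω, H.h₂.fr.cls ω' hω'] at h1

/-- What the visible record knows. -/
theorem HbG.kzb (H : HbG F c D x e₀ sg w₀ w W b a' g₁ g₂ g gb g' gT kG M v v' e p U B ψ₁ ψ₂ ψ ψ'
    Sv ψH₁ ψH₂ ψH ψH' Ga Gc G' Ha Hc H' T TH Ht) (hWb : W ≤ b) (hza : Rcd F B W za zaH)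
    (hz : Rcd F B b zb zbH) {ω ω' : F.Ω} (hω : B ω) (hω' : B ω')
    (e : zb (ptr F J ω) = zb (ptr F J ω')) :
    ψ (ptr F J ω) = ψ (ptr F J ω') ∧ ψ' (ptr F J ω) = ψ' (ptr F J ω') ∧
      F.T1 b ω = F.T1 b ω' ∧ (∀ l ≤ 3, Gc (ptr F J ω) l = Gc (ptr F J ω') l) ∧
      za (ptr F J ω) = za (ptr F J ω') :=
  ⟨hz.det' hWb H.hb.aJ H.hA.wf.fr.cls hω hω' e, hz.det H.hb.wf.fr.cls hω hω' e,
    (hz.tz hω hω' e).1, fun l hl => hz.det (f := fun y => Gc y l) (fH := fun s => Hc s l)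
      (fun ω hω => H.hb.cls ω hω l hl) hω hω' e,
    hz.det' hWb H.hb.aJ hza.cls hω hω' e⟩

/-- **The number of the block**, in the form of the end. -/
theorem few_cg {q q₀ q₁ s : ℕ} (hD : ∀ s, (Ht s).totalDegree ≤ D)
    (H : HbG F c D x e₀ sg w₀ w W b a' g₁ g₂ g gb g' gT kG M v v' e p U B ψ₁ ψ₂ ψ ψ'
    Sv ψH₁ ψH₂ ψH ψH' Ga Gc G' Ha Hc H' T TH Ht)
    (N₂ : BsN x sg q q₁ w₀ w g₁ g₂) (N₃ : BkN x s sg q q₀ q₁ w W g₂ g)
    (hC : Co0 F c sg x (w - w₀) w g₂ ψH₂ Ht B)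
    (hz : Rcd F B W za zaH) {P : F.Ω → ℝ} (hp : IsLaw P) (hB : ∀ ω, 0 < P ω → B ω)
    {SV SE SG : ℕ → ℝ} {E : ℝ}
    (few : CH P (fun ω => ⌊(2 : ℝ) ^ (g₂ 3 + q + sg) *
      nw (hdt2 F c g₂ w (w - w₀) 3 D q₀ q sg ψH₂ Ht hD) w
        (rfv P (fun ω => za (ptr F J ω)) (eR (hdt2 F c g₂ w (w - w₀) 3 D q₀ q sg ψH₂ Ht hD) w)
          (fun ω l => (hdt2 F c g₂ w (w - w₀) 3 D q₀ q sg ψH₂ Ht hD).P l (slam F w ω))
          (za (ptr F J ω)) (eR (hdt2 F c g₂ w (w - w₀) 3 D q₀ q sg ψH₂ Ht hD) w ω)) ω⌋)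
      (fun ω => (eR (hdt2 F c g₂ w (w - w₀) 3 D q₀ q sg ψH₂ Ht hD) w ω, za (ptr F J ω))) ≤ E) :
    CH P (fun ω => ⌊(2 : ℝ) ^ (s + g 3 + 2) * nw (fdat F c g W (W - w₀) 3 D ψH Ht hD SV SE SG) W
      (rfv P (fun ω => zaH (slam F W ω))
        (fun ω => eL (hdt2 F c g₂ w (w - w₀) 3 D q₀ q sg ψH₂ Ht hD) w W (g₂ 0 + q₁) (slam F W ω))
        (fun ω l => (fdat F c g W (W - w₀) 3 D ψH Ht hD SV SE SG).P l (slam F W ω))
        (zaH (slam F W ω)) (eL (hdt2 F c g₂ w (w - w₀) 3 D q₀ q sg ψH₂ Ht hD) w W (g₂ 0 + q₁)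
          (slam F W ω))) ω⌋)
      (fun ω => (eL (hdt2 F c g₂ w (w - w₀) 3 D q₀ q sg ψH₂ Ht hD) w W (g₂ 0 + q₁) (slam F W ω),
        zaH (slam F W ω))) ≤
      E + (71 * x + 22 * kG + 90 : ℕ) * Real.log 2 := by
  have hW := H.hA.aJ
  have h1 := few_blk (ψH := ψH) (SV := SV) (SE := SE) (SG := SG) (n₃ := s + g 3 + 2) N₂ H.inj H.D2
    H.Dx N₃.q0 N₃.wW hW H.h₁ H.h₂ H.hA.wf.fr.depH le_rfl le_rfl H.hQ H.hM hC H.hG N₃.la N₃.la' hp hB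
    (z := fun ω => za (ptr F J ω)) (fun ω ω' hω hω' e => by
      obtain ⟨a1, a2, a3, a4⟩ := H.kza N₃.wW hz hω hω' e
      rw [H.hA.wf.fr.cls ω hω, H.hA.wf.fr.cls ω' hω'] at a1
      exact ⟨a2, a1, a3, a4⟩) (by have := N₃.n3; omega) few
  refine le_trans (le_of_eq ?_) h1
  have e1 : ∀ ω, eL (hdt2 F c g₂ w (w - w₀) 3 D q₀ q sg ψH₂ Ht hD) w W (g₂ 0 + q₁)
      (slam F W ω) = (eR (hdt2 F c g₂ w (w - w₀) 3 D q₀ q sg ψH₂ Ht hD) w ω,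
        eC (hdt2 F c g₂ w (w - w₀) 3 D q₀ q sg ψH₂ Ht hD) w (g₂ 0 + q₁) ω) := fun ω =>
    eL_slam _ N₃.wW hW _ ω
  simp only [e1]
  have e2 : ∀ ω, 0 < P ω → zaH (slam F W ω) = za (ptr F J ω) := fun ω hω => (hz.cls ω (hB ω hω)).symm
  refine CH_sup hp.nonneg (fun ω hω => ?_) (fun ω hω => ?_)
  · rw [rfv_sup (z := fun ω => zaH (slam F W ω)) (z' := fun ω => za (ptr F J ω)) _ e2, e2 ω hω]
  · rw [e2 ω hω]

/-- The digits of the time and of the position. -/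
noncomputable def uB {V : Type} (F : Fam m J) (c : ℕ → Fin m) (g : ℕ → ℕ) (W s : ℕ)
    (ψ : PtT F → ℕ → Option (Fin m) → ℝ) (P : F.Ω → ℝ) (z : LnT F → V) (ω : F.Ω) : ℤ × ℤ :=
  (⌊2 ^ s * tn F W ω⌋, ⌊2 ^ s * yr F c g W ψ P z ω⌋)

/-- The digits of the time and of the position are visible. -/
theorem HbG.uvis (H : HbG F c D x e₀ sg w₀ w W b a' g₁ g₂ g gb g' gT kG M v v' e p U B ψ₁ ψ₂ ψ ψ'
    Sv ψH₁ ψH₂ ψH ψH' Ga Gc G' Ha Hc H' T TH Ht) {s : ℕ} (hz : Rcd F B W za zaH) {P : F.Ω → ℝ}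
    (hB : ∀ ω, 0 < P ω → B ω) {ω ω' : F.Ω} (hω : 0 < P ω) (hω' : 0 < P ω')
    (e : ptr F J ω = ptr F J ω') : uB F c g W s ψ P zaH ω = uB F c g W s ψ P zaH ω' := by
  have hT : F.T ω = F.T ω' := (Prod.ext_iff.1 (Prod.ext_iff.1 e).2).1
  have hX : F.X J ω = F.X J ω' := (Prod.ext_iff.1 e).1
  have h1 : tn F W ω = tn F W ω' := by
    unfold tn
    unfold uw tw
    rw [hT]
  have h2 : yn F c g W ψ ω = yn F c g W ψ ω' := by
    rw [yn_eq H.hA.wf.fr.dep, yn_eq H.hA.wf.fr.dep, e, hT, hX]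
  have h3 : zaH (slam F W ω) = zaH (slam F W ω') := by
    rw [← hz.cls ω (hB ω hω), ← hz.cls ω' (hB ω' hω'), e]
  unfold uB yr
  rw [h1, h2, h3]

/-- The digits of the time and of the position are few bits over the later record. -/
theorem HbG.ufew (H : HbG F c D x e₀ sg w₀ w W b a' g₁ g₂ g gb g' gT kG M v v' e p U B ψ₁ ψ₂ ψ ψ'
    Sv ψH₁ ψH₂ ψH ψH' Ga Gc G' Ha Hc H' T TH Ht) {s Mg : ℕ}
    (N : HpN x s Mg w₀ W b a' g₁ g gb g') (hs : 1 ≤ s) (hWb : W + s ≤ b)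
    (h0 : g 0 + s ≤ gb 0 + x) (hJ : ∀ j < 3, e₀ + gb j ≤ J)
    (hz : Rcd F B W za zaH) (hzb : Rcd F B b zb zbH) {P : F.Ω → ℝ} (hp : IsLaw P)
    (hB : ∀ ω, 0 < P ω → B ω) :
    CH P (uB F c g W s ψ P zaH) (fun ω => zb (ptr F J ω)) ≤
      (127 * x + 198 : ℕ) * Real.log 2 := by
  have hbJ := H.hb.aJ
  have h1 : CH P (uB F c g W s ψ P zaH) (fun ω => zb (ptr F J ω)) ≤
      CH P (fun ω => ⌊2 ^ s * tn F W ω⌋) (fun ω => zb (ptr F J ω)) +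
      CH P (fun ω => ⌊2 ^ s * yr F c g W ψ P zaH ω⌋) (fun ω => zb (ptr F J ω)) :=
    CH_subadd hp.nonneg _ _ _
  have h2 : CH P (fun ω => ⌊2 ^ s * tn F W ω⌋) (fun ω => zb (ptr F J ω)) = 0 := by
    refine CH_eq_zero hp.nonneg fun ω ω' hω hω' e => ?_
    have h3 := (H.kzb (by omega) hz hzb (hB ω hω) (hB ω' hω') e).2.2.1
    beta_reduce
    rw [tn_floor hs (by omega), tn_floor hs (by omega), T1_le hWb hbJ h3,
      T1_le (show W ≤ b by omega) hbJ h3]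
  have h3 := CH_near hp (fun ω => 2 ^ s * yr F c g W ψ P zaH ω) (fun _ => 0)
    (fun ω => zb (ptr F J ω)) (fun y => rfv P (fun ω => zb (ptr F J ω)) (fun _ => ())
      (fun ω => 2 ^ s * yr F c g W ψ P zaH ω) y ()) (K := 2 ^ (127 * x + 194)) (by
      intro ω hω
      obtain ⟨ω₀, hω₀, e1, -, e2⟩ := rfv_spec (R := ℝ) (z := fun ω => zb (ptr F J ω))
        (e := fun _ : F.Ω => ()) hω
      have e2' := e2 (fun ω => 2 ^ s * yr F c g W ψ P zaH ω)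
      beta_reduce at e2' ⊢
      rw [zero_add, e2']
      obtain ⟨a1, a2, a3, a4, a5⟩ := H.kzb (by omega) hz hzb (hB ω₀ hω₀) (hB ω hω) e1
      have h4 := H.hA.ydig H.hb hJ (fun ω hω => (nr_two (H.hA.wf.nr ω hω) (H.hb.wf.nr ω hω)
        le_rfl le_rfl N.dn N.dnj).1) h0 (by omega) (hB ω₀ hω₀) (hB ω hω) a3 a4 a2 a1
      have h5 : zaH (slam F W ω) = zaH (slam F W ω₀) := by
        rw [← hz.cls ω (hB ω hω), ← hz.cls ω₀ (hB ω₀ hω₀), a5]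
      have h6 : 2 ^ s * yr F c g W ψ P zaH ω - 2 ^ s * yr F c g W ψ P zaH ω₀ =
          2 ^ s * yn F c g W ψ ω - 2 ^ s * yn F c g W ψ ω₀ := by
        unfold yr
        rw [h5]
        ring
      rw [h6]
      refine h4.trans ?_
      have h7 : Bz x + x = 127 * x + 193 := by
        unfold Bz Kf
        ring
      rw [h7]
      push_cast
      rw [pow_succ (2 : ℝ) (127 * x + 193)]
      have h8 : (2 : ℝ) ^ (13 * x + 8) ≤ 2 ^ (127 * x + 193) := two_le (by omega)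
      linarith)
  have h4 : CH P (fun _ => ⌊(0 : ℝ)⌋) (fun ω => zb (ptr F J ω)) = 0 :=
    CH_eq_zero hp.nonneg fun _ _ _ _ _ => rfl
  rw [h4] at h3
  have h5 := log_cells (127 * x + 194)
  have h6 : ((127 * x + 194 : ℕ) : ℝ) + 4 = ((127 * x + 198 : ℕ) : ℝ) := by
    push_cast
    ring
  rw [h6] at h5
  linarith

/-- **The visible record.** -/
theorem HbG.fz (H : HbG F c D x e₀ sg w₀ w W b a' g₁ g₂ g gb g' gT kG M v v' e p U B ψ₁ ψ₂ ψ ψ'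
    Sv ψH₁ ψH₂ ψH ψH' Ga Gc G' Ha Hc H' T TH Ht) {s : ℕ} (hWb : W ≤ b)
    (hz : Rcd F B W za zaH) (hzb : Rcd F B b zb zbH) {P : F.Ω → ℝ} (hp : IsLaw P)
    (hB : ∀ ω, 0 < P ω → B ω) :
    ∃ f : PtT F → Vb × (ℤ × ℤ), Det P (fun ω => f (ptr F J ω)) (fun ω => zaH (slam F W ω)) ∧
      Det P (fun ω => f (ptr F J ω)) (fun ω => (⌊2 ^ s * tn F W ω⌋,
        ⌊2 ^ s * yr F c g W ψ P zaH ω⌋)) ∧
      Det P (fun ω => f (ptr F J ω)) (Mn F c g W ψ ψ') ∧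
      ∀ (E : Type) (X : F.Ω → E), CH P X (fun ω => f (ptr F J ω)) =
        CH P X (fun ω => (uB F c g W s ψ P zaH ω, zb (ptr F J ω))) := by
  classical
  obtain ⟨φ, hφ⟩ : ∃ φ : PtT F → ℤ × ℤ, ∀ ω, 0 < P ω →
      φ (ptr F J ω) = uB F c g W s ψ P zaH ω := by
    refine ⟨fun y => if h : ∃ ω, 0 < P ω ∧ ptr F J ω = y then
      uB F c g W s ψ P zaH h.choose else default, fun ω hω => ?_⟩
    have h : ∃ ω', 0 < P ω' ∧ ptr F J ω' = ptr F J ω := ⟨ω, hω, rfl⟩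
    beta_reduce
    rw [dif_pos h]
    exact H.uvis hz hB h.choose_spec.1 hω h.choose_spec.2
  refine ⟨fun y => (zb y, φ y), fun ω ω' hω hω' e => ?_, fun ω ω' hω hω' e => ?_,
    fun ω ω' hω hω' e => ?_, fun E X => ?_⟩
  · have h1 := (H.kzb hWb hz hzb (hB ω hω) (hB ω' hω') (Prod.ext_iff.1 e).1).2.2.2.2
    beta_reduce
    rw [← hz.cls ω (hB ω hω), ← hz.cls ω' (hB ω' hω'), h1]
  · have h1 : φ (ptr F J ω) = φ (ptr F J ω') := (Prod.ext_iff.1 e).2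
    rw [hφ ω hω, hφ ω' hω'] at h1
    exact h1
  · obtain ⟨a1, a2, -⟩ := H.kzb hWb hz hzb (hB ω hω) (hB ω' hω') (Prod.ext_iff.1 e).1
    funext i j
    unfold Mn
    rw [a1, a2]
  · refine CH_congr hp.nonneg (fun ω ω' _ _ e => (Prod.ext_iff.1 e).1)
      (fun ω ω' _ _ e => (Prod.ext_iff.1 e).1) (fun ω ω' hω hω' e => ?_)
      (fun ω ω' hω hω' e => ?_)
    · have h1 : φ (ptr F J ω) = φ (ptr F J ω') := (Prod.ext_iff.1 e).2
      rw [hφ ω hω, hφ ω' hω'] at h1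
      exact Prod.ext h1 (Prod.ext_iff.1 e).1
    · have h1 : uB F c g W s ψ P zaH ω = uB F c g W s ψ P zaH ω' := (Prod.ext_iff.1 e).1
      rw [← hφ ω hω, ← hφ ω' hω'] at h1
      exact Prod.ext (Prod.ext_iff.1 e).2 h1

/-- **The own data are free** of the visible record. -/
theorem HbG.free (H : HbG F c D x e₀ sg w₀ w W b a' g₁ g₂ g gb g' gT kG M v v' e p U B ψ₁ ψ₂ ψ ψ'
    Sv ψH₁ ψH₂ ψH ψH' Ga Gc G' Ha Hc H' T TH Ht) (hD : ∀ s, (Ht s).totalDegree ≤ D)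
    {q q₀ q₁ s Mg : ℕ} (N : HpN x s Mg w₀ W b a' g₁ g gb g')
    (N₃ : BkN x s sg q q₀ q₁ w W g₂ g) (hs : 1 ≤ s) (hWb : W + s ≤ b)
    (h0 : g 0 + s ≤ gb 0 + x) (hJ : ∀ j < 3, e₀ + gb j ≤ J)
    (hz : Rcd F B W za zaH) (hzb : Rcd F B b zb zbH) {P : F.Ω → ℝ} (hp : IsLaw P)
    (hB : ∀ ω, 0 < P ω → B ω) {y y₁ : ℝ}
    (hT : ((J - W : ℕ) : ℝ) * Real.log 2 - y ≤ CH P F.T (slam F W))
    (free : CH P (fun ω => (eC (hdt2 F c g₂ w (w - w₀) 3 D q₀ q sg ψH₂ Ht hD) w (g₂ 0 + q₁) ω,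
        cG (hdt2 F c g₂ w (w - w₀) 3 D q₀ q sg ψH₂ Ht hD) w ω))
        (fun ω => (za (ptr F J ω), F.W ω)) ≤
      CH P (fun ω => (eC (hdt2 F c g₂ w (w - w₀) 3 D q₀ q sg ψH₂ Ht hD) w (g₂ 0 + q₁) ω,
        cG (hdt2 F c g₂ w (w - w₀) 3 D q₀ q sg ψH₂ Ht hD) w ω))
        (fun ω => (zb (ptr F J ω), F.W ω)) + y₁)
    {f : PtT F → Vb × (ℤ × ℤ)} (hf : ∀ (E : Type) (X : F.Ω → E),
      CH P X (fun ω => f (ptr F J ω)) =
        CH P X (fun ω => (uB F c g W s ψ P zaH ω, zb (ptr F J ω)))) :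
    CH P (fun ω => eL (hdt2 F c g₂ w (w - w₀) 3 D q₀ q sg ψH₂ Ht hD) w W (g₂ 0 + q₁)
        (slam F W ω)) (fun ω => zaH (slam F W ω)) ≤
      CH P (fun ω => eL (hdt2 F c g₂ w (w - w₀) 3 D q₀ q sg ψH₂ Ht hD) w W (g₂ 0 + q₁)
        (slam F W ω)) (fun ω => f (ptr F J ω)) +
        (y + y₁ + (127 * x + 198 : ℕ) * Real.log 2) := by
  have hW := H.hA.aJ
  obtain ⟨d, hd⟩ : ∃ d, d = hdt2 F c g₂ w (w - w₀) 3 D q₀ q sg ψH₂ Ht hD := ⟨_, rfl⟩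
  rw [← hd] at free ⊢
  have e1 : ∀ ω, eL d w W (g₂ 0 + q₁) (slam F W ω) = (eR d w ω, eC d w (g₂ 0 + q₁) ω) :=
    fun ω => eL_slam _ N₃.wW hW _ ω
  simp only [e1]
  rw [hf]
  have e2 : CH P (fun ω => (eR d w ω, eC d w (g₂ 0 + q₁) ω)) (fun ω => zaH (slam F W ω)) =
      CH P (fun ω => (eR d w ω, eC d w (g₂ 0 + q₁) ω)) (fun ω => za (ptr F J ω)) :=
    CH_sup hp.nonneg (fun _ _ => rfl) (fun ω hω => (hz.cls ω (hB ω hω)).symm)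
  rw [e2]
  have hcv : ∀ ω ω', eC d w (g₂ 0 + q₁) ω = eC d w (g₂ 0 + q₁) ω' → cV d w ω = cV d w ω' := by
    intro ω ω' e
    have h2 : d.SE 0 = (2 : ℝ) ^ (g₂ 0 + q₀) := by
      rw [hd]
      rfl
    unfold cV
    rw [h2]
    exact fl_coarse (by have := N₃.q01; omega) e
  have e3 : ∀ (S : Type) (Z : F.Ω → S),
      CH P (fun ω => (eR d w ω, eC d w (g₂ 0 + q₁) ω)) Z =
        CH P (fun ω => (eC d w (g₂ 0 + q₁) ω, cG d w ω)) Z := by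
    intro S Z
    refine CH_congr hp.nonneg (fun ω ω' _ _ e => ?_) (fun ω ω' _ _ e => ?_)
      (fun _ _ _ _ e => e) (fun _ _ _ _ e => e)
    · obtain ⟨h2, -⟩ := Prod.mk.inj e
      obtain ⟨h3, h4⟩ := Prod.mk.inj h2
      exact Prod.ext h4 (Prod.ext_iff.1 h3).2
    · obtain ⟨h2, -⟩ := Prod.mk.inj e
      obtain ⟨h3, h4⟩ := Prod.mk.inj h2
      exact Prod.ext (Prod.ext (hcv ω ω' h3) h4) h3
  rw [← e3, ← e3] at free
  have h5 := free_of hp (za := fun ω => za (ptr F J ω)) (zb := fun ω => zb (ptr F J ω))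
    (e := fun ω => (eR d w ω, eC d w (g₂ 0 + q₁) ω)) (u := uB F c g W s ψ P zaH) hT
    (fun ω ω' hω hω' e => (hz.tz (hB ω hω) (hB ω' hω') e).symm) (fun ω ω' hω hω' e => by
      refine Prod.ext ?_ ?_
      · have h6 := congrArg (eL d w W (g₂ 0 + q₁)) e
        rw [e1, e1] at h6
        exact h6
      · change za (ptr F J ω) = za (ptr F J ω')
        rw [hz.cls ω (hB ω hω), hz.cls ω' (hB ω' hω'), e]) free
    (H.ufew N hs hWb h0 hJ hz hzb hp hB)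
  exact h5

end

end Pool.D2N
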