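import Pool.Agent.H90.D2.Hhd

/-!
# The hop cell: one block, class form
-/

set_option autoImplicit false

namespace Pool.D2N

open Finset Real MvPolynomial
open Pool.Agent.H49.Ent Pool.Agent.H32.Dense Pool.STK Pool.KA Pool.KSAT Pool.K2S Pool.PB Pool.S6C
open Pool.GEN Pool.CHT Pool.CHX Pool.LA91
open Pool.LBT (ThrOf)
open Pool.D2F Pool.D2Z Pool.D2F2
open Pool.D2R (dd hs co co_slam)
open Pool.X31 (nw)
open Pool.M3F (ExvY)

variable {m J : ℕ}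

/-- A power of two against the exponential. -/
theorem pow_exp {n : ℕ} {y : ℝ} (h : (n : ℝ) ≤ y) : (2 : ℝ) ^ n ≤ Real.exp y := by
  have h1 : (2 : ℝ) ^ n ≤ Real.exp n := by
    have h2 : (2 : ℝ) ≤ Real.exp 1 := by
      have := Real.add_one_le_exp (1 : ℝ)
      linarith
    calc (2 : ℝ) ^ n ≤ Real.exp 1 ^ n := pow_le_pow_left₀ (by norm_num) h2 n
      _ = Real.exp n := by rw [← Real.exp_nat_mul, mul_one]
  exact h1.trans (Real.exp_le_exp.2 h)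

/-- Bits against digits. -/
theorem log2_le {n : ℕ} {y : ℝ} (h : (n : ℝ) ≤ y) : (n : ℝ) * Real.log 2 ≤ y := by
  have h1 : Real.log 2 ≤ 1 := by
    have := Real.log_two_lt_d9
    linarith
  have h2 : (n : ℝ) * Real.log 2 ≤ n * 1 := mul_le_mul_of_nonneg_left h1 (Nat.cast_nonneg n)
  linarith

/-- **One block of the hop cell.** -/
theorem hop_blk {σ ρ ε : ℝ} (hσ : 0 < σ) (hρ : 0 < ρ) (hε0 : 0 < ε) (hε : ε ≤ epH σ ρ) :
    ∀ {m D : ℕ} {θc : ℝ} {S : PCl m} {P : List (Fin m) × Fin m → ℝ → ℝ → ℝ}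
    (_ : ThrOf (chsys m θc) S P) (_ : TmH S) (c : ℕ → Fin m) (_ : Set.InjOn c (Set.Iio 4))
    (a : ℚ) (aR er c₁ cy : ℝ) (_ : 0 ≤ a) (_ : a < 1) (_ : aR ≤ a) (_ : er < θc * a)
    (_ : ∀ j < 4, bet P c j a a + σ ≤ 1) (_ : 0 < c₁)
    (_ : ExvY S aR (fun J F ω => F.X J ω (c 0)) cy),
    Bas S (fun J F A => ∀ B : F.Ω → Prop, Sub B A → c₁ * Pe F.p A ≤ Pe F.p B →
      (∀ G : F.Ω → Prop, Sub G B → Pe F.p B ≤ 2 ^ 40 * Pe F.p G → ρ * J ≤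
        CH (cond F.p G True) (fun ω => F.D ⌊σ / 10 ^ 7 * J⌋₊ ω (c 0)) (fun ω => ptr F J ω)) →
      ∀ (x e₀ sg w₀ w b a' : ℕ) (g₁ g₂ g gb g' gT : ℕ → ℕ) (kG M v v' e p : ℕ) (U : ℝ)
      (ψ₁ ψ₂ ψ ψ' Sv : PtT F → ℕ → Option (Fin m) → ℝ)
      (ψH₁ ψH₂ ψH ψH' : LnT F → ℕ → Option (Fin m) → ℝ)
      (Ga Gc G' : PtT F → ℕ → MvPolynomial (Option (Fin m)) ℝ)
      (Ha Hc H' : LnT F → ℕ → MvPolynomial (Option (Fin m)) ℝ)
      (T : PtT F → ℕ → MvPolynomial (Option (Fin m)) ℝ)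
      (TH : LnT F → ℕ → MvPolynomial (Option (Fin m)) ℝ)
      (Ht : LnT F → MvPolynomial (Option (Fin m)) ℝ) (hD : ∀ s, (Ht s).totalDegree ≤ D)
      (q q₀ q₁ s Mg : ℕ),
      HbG F c D x e₀ sg w₀ w ⌊aR * J⌋₊ b a' g₁ g₂ g gb g' gT kG M v v' e p U B ψ₁ ψ₂ ψ ψ'
        Sv ψH₁ ψH₂ ψH ψH' Ga Gc G' Ha Hc H' T TH Ht →
      HpN x s Mg w₀ ⌊aR * J⌋₊ b a' g₁ g gb g' → BsN x sg q q₁ w₀ w g₁ g₂ →
      BkN x s sg q q₀ q₁ w ⌊aR * J⌋₊ g₂ g →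
      CoH F c s x sg w₀ w ⌊aR * J⌋₊ g₂ g ψH₂ ψH Ht B →
      ⌊aR * J⌋₊ + s ≤ b → g 0 + s ≤ gb 0 + x → (∀ j < 3, e₀ + gb j ≤ J) →
      σ * J ≤ s → (∀ l < 3, s ≤ g l) → (∀ j < 4, e₀ + g j + (s + 3) ≤ J) →
      (∀ j < 4, bet P c j a a * J + ⌊aR * J⌋₊ ≤ g j + a * J + ε * J) →
      e₀ + σ * J ≤ er * J → ((2000 * (x + kG + 1) : ℕ) : ℝ) ≤ ε / 4 * J →
      ((J - g 0 : ℕ) : ℝ) * Real.log 2 ≤ cy * Real.log 2 * J + ε / 4 * J →
      ∀ (Va Vb : Type) (za : PtT F → Va) (zaH : LnT F → Va) (zb : PtT F → Vb)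
        (zbH : LnT F → Vb), Rcd F B ⌊aR * J⌋₊ za zaH → Rcd F B b zb zbH →
      CH (cond F.p B True) (fun ω => ⌊(2 : ℝ) ^ (g₂ 3 + q + sg) *
        nw (hdt2 F c g₂ w (w - w₀) 3 D q₀ q sg ψH₂ Ht hD) w
          (rfv (cond F.p B True) (fun ω => za (ptr F J ω))
            (eR (hdt2 F c g₂ w (w - w₀) 3 D q₀ q sg ψH₂ Ht hD) w)
            (fun ω l => (hdt2 F c g₂ w (w - w₀) 3 D q₀ q sg ψH₂ Ht hD).P l (slam F w ω))
            (za (ptr F J ω)) (eR (hdt2 F c g₂ w (w - w₀) 3 D q₀ q sg ψH₂ Ht hD) w ω)) ω⌋)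
        (fun ω => (eR (hdt2 F c g₂ w (w - w₀) 3 D q₀ q sg ψH₂ Ht hD) w ω,
          za (ptr F J ω))) ≤ ε / 4 * J →
      CH (cond F.p B True)
          (fun ω => (eC (hdt2 F c g₂ w (w - w₀) 3 D q₀ q sg ψH₂ Ht hD) w (g₂ 0 + q₁) ω,
          cG (hdt2 F c g₂ w (w - w₀) 3 D q₀ q sg ψH₂ Ht hD) w ω))
          (fun ω => (za (ptr F J ω), F.W ω)) ≤
        CH (cond F.p B True)
          (fun ω => (eC (hdt2 F c g₂ w (w - w₀) 3 D q₀ q sg ψH₂ Ht hD) w (g₂ 0 + q₁) ω,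
          cG (hdt2 F c g₂ w (w - w₀) 3 D q₀ q sg ψH₂ Ht hD) w ω))
          (fun ω => (zb (ptr F J ω), F.W ω)) + ε / 4 * J →
      False) := by
  intro m D θc S P hP hT c hc a aR er c₁ cy ha0 ha haR her hb hc₁ hex
  have hE := hop_end_q (D := D) hσ hρ hε0 hε hP hT c hc a er c₁ ha0 ha her hb hc₁
  have hTm := Pool.V1E.tmh_cond hT (show 0 < ε / 4 by positivity)
  refine Bas.mono 0 ((hE.and (bas_ev hTm hc₁)).and (bas_ev hex hc₁)) ?_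
  rintro J - F A ⟨⟨hE, hTm⟩, hex⟩ B hBA hcB act x e₀ sg w₀ w b a' g₁ g₂ g gb g' gT kG M v v' e p U
    ψ₁ ψ₂ ψ ψ' Sv ψH₁ ψH₂ ψH ψH' Ga Gc G' Ha Hc H' T TH Ht hD q q₀ q₁ s Mg H N N₂ N₃ C n1 n2 n3 n4
    n5 n6 n7 n8 n9 n10 Va Vb za zaH zb zbH hza hzb few free
  obtain ⟨W, hWdef⟩ : ∃ W, W = ⌊aR * J⌋₊ := ⟨_, rfl⟩
  rw [← hWdef] at H N N₃ C n1 n7 hza
  obtain ⟨Pr, hPr⟩ : ∃ Pr, Pr = cond F.p B True := ⟨_, rfl⟩
  obtain ⟨hB0, hTB⟩ := hTm B hBA hcB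
  have hYB := hex B hBA hcB Va za zaH (fun ω hω => by rw [← hWdef]; exact hza.cls ω hω)
  rw [← hWdef] at hYB
  have hp : IsLaw Pr := by
    rw [hPr]
    exact isLaw_cond F.isLaw hB0
  have hB : ∀ ω, 0 < Pr ω → B ω := fun ω hω => by
    rw [hPr] at hω
    exact of_eq_true ((cond_pos_iff F.isLaw.nonneg B True ω).1 hω).2
  rw [← hPr] at hTB hYB few free
  have hW := H.hA.aJ
  have hx := N.x1
  have hJ0 : (0 : ℝ) ≤ J := Nat.cast_nonneg J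
  have hεJ : 0 ≤ ε * J := by positivity
  have hT := tm_ev hp hW hTB
  -- numbers
  have sl : ∀ n : ℕ, n ≤ 2000 * (x + kG + 1) → (n : ℝ) ≤ ε / 4 * J := fun n hn =>
    le_trans (by exact_mod_cast hn) n9
  have hs1 : 1 ≤ s := by
    have h1 : (0 : ℝ) < ε / 4 * J := lt_of_lt_of_le (by positivity) n9
    have h2 : 0 < (J : ℝ) := by
      rcases hJ0.eq_or_lt with h | h
      · rw [← h, mul_zero] at h1
        exact absurd h1 (lt_irrefl _)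
      · exact h
    have h3 : (0 : ℝ) < s := lt_of_lt_of_le (by positivity) n4
    exact_mod_cast h3
  have hWb : W ≤ b := by omega
  obtain ⟨f, f1, f2, f3, f4⟩ := H.fz (s := s) hWb hza hzb hp hB
  -- the number
  have few' := few_cg (SV := fun _ => 0) (SE := fun _ => 0) (SG := fun _ => 0) hD H N₂ N₃ C.bw hza hp
    hB few
  -- the hypotheses of the cell
  have hreh : ReH F c g gb W (W - w₀) D b x x e₀ e₀ 4 s (s + 3) ψ ψ' ψH ψH' Ht B zaH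
      (eL (hdt2 F c g₂ w (w - w₀) 3 D q₀ q sg ψH₂ Ht hD) w W (g₂ 0 + q₁))
      (1 / 2 ^ (s + 200 * x)) (1 / 2 ^ (s + 200 * x)) (1 / 2 ^ (s + 230 * x))
      (2 ^ (12 * x + 8)) (2 ^ (150 * x)) (2 ^ (150 * x)) (2 ^ Bz x) := by
    have hze : ∀ ω ω', B ω → B ω' → zaH (slam F W ω) = zaH (slam F W ω') →
        za (ptr F J ω) = za (ptr F J ω') := fun ω ω' hω hω' e => by
      rw [hza.cls ω hω, hza.cls ω' hω', e]
    have hee : ∀ ω ω', eL (hdt2 F c g₂ w (w - w₀) 3 D q₀ q sg ψH₂ Ht hD) w W (g₂ 0 + q₁)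
        (slam F W ω) = eL (hdt2 F c g₂ w (w - w₀) 3 D q₀ q sg ψH₂ Ht hD) w W (g₂ 0 + q₁)
        (slam F W ω') → eR (hdt2 F c g₂ w (w - w₀) 3 D q₀ q sg ψH₂ Ht hD) w ω =
          eR (hdt2 F c g₂ w (w - w₀) 3 D q₀ q sg ψH₂ Ht hD) w ω' ∧
        eC (hdt2 F c g₂ w (w - w₀) 3 D q₀ q sg ψH₂ Ht hD) w (g₂ 0 + q₁) ω =
          eC (hdt2 F c g₂ w (w - w₀) 3 D q₀ q sg ψH₂ Ht hD) w (g₂ 0 + q₁) ω' :=
      fun ω ω' e => by
        rw [eL_slam _ N₃.wW hW, eL_slam _ N₃.wW hW] at e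
        exact Prod.mk.inj e
    refine reh_of N H.inj hW H.D2 H.Dx (one_le_pow₀ (by norm_num)) H.h₁ H.hA.wf H.hb.wf H.Dp
      le_rfl le_rfl le_rfl le_rfl H.hQ hD H.hM C.bW (fun j hj => n6 j (by omega))
      (fun ω ω' hω hω' e j h1 h3 => ?_) (fun ω ω' hω hω' e => ?_)
      (fun ω ω' hω hω' e ee => ?_) (fun ω ω' hω hω' e ee => ?_)
    · obtain ⟨a1, a2, a3, a4⟩ := H.kza N₃.wW hza hω hω' (hze ω ω' hω hω' e)
      exact H.hA.zy (fun j hj => by have := n6 j (by omega); omega) hω hω' a3 a4 a1 h3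
    · obtain ⟨a1, a2, a3, a4⟩ := H.kza N₃.wW hza hω hω' (hze ω ω' hω hω' e)
      exact ⟨a1, a3⟩
    · obtain ⟨a1, a2, a3, a4⟩ := H.kza N₃.wW hza hω hω' (hze ω ω' hω hω' e)
      exact nE_blk N₃ (N₃.wW.trans hW) H.h₂ H.hA.wf hω hω' a1 a2 (hee ω ω' ee).2
    · obtain ⟨a1, a2, a3, a4⟩ := H.kza N₃.wW hza hω hω' (hze ω ω' hω hω' e)
      rw [H.hA.wf.fr.cls ω hω, H.hA.wf.fr.cls ω' hω'] at a1
      exact nG_blk N₃ H.inj hW N₂.wB H.Dx H.h₂ H.hA.wf le_rfl le_rfl H.hQ C.d2 hω hω' a1 a2 a3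
        (Prod.ext_iff.1 (hee ω ω' ee).1).2
  have htg := tgh_of N hW H.hA.wf H.Dp le_rfl le_rfl
  -- the entropies
  have hfree := H.free hD N N₃ hs1 n1 n2 n3 hza hzb hp hB hT free f4
  have hY : ((J - g 0 : ℕ) : ℝ) * Real.log 2 - ε / 4 * J ≤
      CH Pr (fun ω => F.X J ω (c 0)) (fun ω => (F.T ω, zaH (slam F W ω))) := by
    have h1 : CH Pr (fun ω => F.X J ω (c 0)) (fun ω => (zaH (slam F W ω), F.W ω)) ≤
        CH Pr (fun ω => F.X J ω (c 0)) (fun ω => (F.T ω, zaH (slam F W ω))) :=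
      CH_mono_cond hp.nonneg fun ω ω' _ _ e => by
        obtain ⟨h2, h3⟩ := Prod.mk.inj e
        exact Prod.ext (Prod.ext_iff.1 h3).1 h2
    linarith
  have hfP := full_P hp hs1 (show W + s ≤ J from n1.trans H.hb.aJ) (by
    have := n6 0 (by norm_num)
    omega) H.hA.wf.fr.dep (z := zaH) (fun ω ω' hω hω' e => by
      obtain ⟨a1, a2, a3, a4⟩ := H.kza N₃.wW hza (hB ω hω) (hB ω' hω') (by
        rw [hza.cls ω (hB ω hω), hza.cls ω' (hB ω' hω'), e])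
      exact ⟨a1, a3⟩) hT hY
  have hfT := full_T hp hs1 (show W + s ≤ J from n1.trans H.hb.aJ)
    (yr F c g W ψ Pr zaH) hT
  have q1 := sl 2000 (by omega)
  have q2 := log2_le (sl (71 * x + 22 * kG + 90) (by omega))
  have q3 := log2_le (sl (127 * x + 198) (by omega))
  rw [hPr] at few' hfree hfP hfT f1 f2 f3
  refine hE (W - w₀) W b x x e₀ e₀ 4 s (s + 3) g gb ψ ψ' Sv ψH ψH' Ht B Va (Vb × (ℤ × ℤ)) _ zaH
    (eL (hdt2 F c g₂ w (w - w₀) 3 D q₀ q sg ψH₂ Ht hD) w W (g₂ 0 + q₁)) f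
    (1 / 2 ^ (s + 200 * x)) (1 / 2 ^ (s + 200 * x)) (1 / 2 ^ (s + 230 * x))
    (1 / 2 ^ (s + 200 * x)) (2 ^ (12 * x + 8)) (2 ^ (150 * x)) (2 ^ (150 * x)) (2 ^ Bz x)
    (fun _ => 0) (fun _ => 0) (fun _ => 0) hD hW ?_ n4 n5 (fun j hj => by
      have := n6 j hj
      omega) n7 n8 ?_ ?_ ?_ ?_ ?_ hBA hcB act hreh htg f1 f2 f3 ?_ ?_ ?_ ?_
  · rw [hWdef]
    exact Nat.floor_le_floor (mul_le_mul_of_nonneg_right haR hJ0)
  · have := sl x (by omega)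
    linarith
  · refine pow_exp ?_
    have := sl (150 * x) (by omega)
    linarith
  · refine pow_exp ?_
    have := sl (150 * x) (by omega)
    linarith
  · refine pow_exp ?_
    have := sl (Bz x) (by unfold Bz Kf; omega)
    linarith
  · rw [div_le_div_iff₀ (by positivity) (by positivity), one_mul, ← pow_add]
    exact two_le (by omega)
  · refine few'.trans ?_
    linarith
  · refine hfree.trans ?_
    refine add_le_add le_rfl ?_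
    linarith
  · linarith
  · linarith

end Pool.D2N
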