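import Pool.Agent.H90.D2.Hhe
import Pool.Agent.H28.D2.Gbs
import Pool.Agent.H28.D2.P8

/-!
# The hop cell: the number of one block

`siz_of`: the coefficients of the label are natural at the base window. `p8g_gen`: the structure
`P8G`, base window later than the window of the label. `free_sub`: freeness of a function.
`free_pig`: the pigeonhole over the blocks.
-/

set_option autoImplicit false

namespace Pool.D2N

open Finset Real MvPolynomial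
open Pool.Agent.H49.Ent Pool.Agent.H32.Dense Pool.STK Pool.KA Pool.KSAT Pool.K2S Pool.PB Pool.S6C
open Pool.GEN Pool.CHT Pool.CHX Pool.LA91
open Pool.LBT (ThrOf)
open Pool.D2F Pool.D2Z Pool.D2F2
open Pool.D2R (dd hs co co_slam)
open Pool.X31 (nw)
open Pool.M3F (ExvY)

variable {m J : ℕ}

section siz

variable {F : Fam m J} {c : ℕ → Fin m} {D w₀ W b a' x s Mg : ℕ} {g₁ g gb g' : ℕ → ℕ}
    {v v' e X p k₁ k k' e₂ e₀ e₁ : ℕ} {gT : ℕ → ℕ} {U : ℝ} {B : F.Ω → Prop}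
    {G : PtT F → ℕ → MvPolynomial (Option (Fin m)) ℝ}
    {H : LnT F → ℕ → MvPolynomial (Option (Fin m)) ℝ}
    {T : PtT F → ℕ → MvPolynomial (Option (Fin m)) ℝ}
    {TH : LnT F → ℕ → MvPolynomial (Option (Fin m)) ℝ}
    {Ht : LnT F → MvPolynomial (Option (Fin m)) ℝ}
    {ψ₁ ψ ψ' Sv : PtT F → ℕ → Option (Fin m) → ℝ} {ψH₁ ψH ψH' : LnT F → ℕ → Option (Fin m) → ℝ}

/-- **The coefficients of the label are natural.** -/
theorem siz_of (N : HpN x s Mg w₀ W b a' g₁ g gb g') (hc : Set.InjOn c (Set.Iio 3)) (hW : W ≤ J)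
    (hD2 : 2 ≤ D) (hDx : ((D : ℝ) + 1) * 2 ^ D ≤ 2 ^ x)
    (h₁ : WFr F c 4 w₀ k₁ e₂ g₁ B ψ₁ ψH₁ Sv) (h : WFr F c 4 W k e₀ g B ψ ψH Sv)
    (h' : WFr F c 4 b k' e₁ gb B ψ' ψH' Sv)
    (Dp : Dpw F c D w₀ a' v v' e X p g' gT U B G H T TH Ht Sv) (hk₁ : k₁ ≤ x) (hk : k ≤ x)
    (hk' : k' ≤ x) (hX : X ≤ x) (hQ : ∀ s, DepC c 3 (Ht s)) (hdeg : ∀ s, (Ht s).totalDegree ≤ D)
    (hM : ∀ ω, B ω → ∀ i < 3, ∀ j, |(gq F c g₁ w₀ 0 ψH₁ Ht (slam F w₀ ω) i).coeff (j + 1)| ≤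
      2 ^ x / 2 ^ g₁ 3 * 2 ^ g₁ i) (hC : Co0 F c s x (W - w₀) W g ψH Ht B)
    (hV : ∀ j < 3, e₀ + g j + (s + 3) ≤ J) :
    ∀ ω, B ω → ∀ l < 3, ∀ j, 1 ≤ j →
      |(gq F c g W (W - w₀) ψH Ht (slam F W ω) l).coeff j| ≤
        2 ^ (150 * x) * (2 ^ g l / 2 ^ g 3) := by
  classical
  obtain ⟨B₀, hB₀⟩ : ∃ B₀ : ℝ, B₀ = 1 + ∑ ω : F.Ω, ∑ ω' : F.Ω, ∑ j ∈ range 4,
      |eta c g W (ψ (ptr F J ω')) (hx F ω') j - eta c g W (ψ (ptr F J ω)) (hx F ω) j| := ⟨_, rfl⟩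
  have hB1 : 1 ≤ B₀ := by
    rw [hB₀]
    have : 0 ≤ ∑ ω : F.Ω, ∑ ω' : F.Ω, ∑ j ∈ range 4,
      |eta c g W (ψ (ptr F J ω')) (hx F ω') j - eta c g W (ψ (ptr F J ω)) (hx F ω) j| :=
      sum_nonneg fun _ _ => sum_nonneg fun _ _ => sum_nonneg fun _ _ => abs_nonneg _
    linarith
  have hx1 := N.x1
  have hr := reh_of (z := fun s => s) (ez := fun s => s) N hc hW hD2 hDx hB1 h₁ h h' Dp hk₁ hk hk'
    hX hQ hdeg hM hC hV (fun ω ω' hω hω' _ j h1 h3 => by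
      rw [hB₀]
      have a1 : |eta c g W (ψ (ptr F J ω')) (hx F ω') j -
          eta c g W (ψ (ptr F J ω)) (hx F ω) j| ≤ ∑ j ∈ range 4,
          |eta c g W (ψ (ptr F J ω')) (hx F ω') j - eta c g W (ψ (ptr F J ω)) (hx F ω) j| :=
        single_le_sum (f := fun j => |eta c g W (ψ (ptr F J ω')) (hx F ω') j -
          eta c g W (ψ (ptr F J ω)) (hx F ω) j|) (fun _ _ => abs_nonneg _)
          (mem_range.2 (by omega))
      have a2 := single_le_sum (f := fun ω' : F.Ω => ∑ j ∈ range 4,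
          |eta c g W (ψ (ptr F J ω')) (hx F ω') j - eta c g W (ψ (ptr F J ω)) (hx F ω) j|)
          (fun _ _ => sum_nonneg fun _ _ => abs_nonneg _) (mem_univ ω')
      have a3 := single_le_sum (f := fun ω : F.Ω => ∑ ω' : F.Ω, ∑ j ∈ range 4,
          |eta c g W (ψ (ptr F J ω')) (hx F ω') j - eta c g W (ψ (ptr F J ω)) (hx F ω) j|)
          (fun _ _ => sum_nonneg fun _ _ => sum_nonneg fun _ _ => abs_nonneg _) (mem_univ ω)
      beta_reduce at a2 a3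
      linarith)
    (fun ω ω' hω hω' e => ⟨by rw [h.fr.cls ω hω, h.fr.cls ω' hω', e], by rw [e]⟩)
    (fun ω ω' hω hω' e _ => by
      have e1 : bd F ω = bd F ω' := by
        have h5 : F.l ω = F.l ω' := (Prod.ext_iff.1 e).1
        have h6 : F.d ω = F.d ω' := (Prod.ext_iff.1 h5).2
        unfold bd
        rw [h6]
      unfold Xn
      rw [h.fr.cls ω hω, h.fr.cls ω' hω', e, e1, sub_self, abs_zero]
      positivity)
    (fun ω ω' hω hω' e _ l _ j _ => by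
      beta_reduce at e
      rw [e, sub_self, mul_zero, mul_zero, abs_zero]
      positivity)
  intro ω hω l hl j hj
  have q1 : (0 : ℝ) < 2 ^ g 3 / 2 ^ g l := by positivity
  have key : ∀ y : ℝ, |2 ^ g 3 / 2 ^ g l * y| ≤ 2 ^ (150 * x) →
      |y| ≤ 2 ^ (150 * x) * (2 ^ g l / 2 ^ g 3) := by
    intro y hy
    rw [abs_mul, abs_of_pos q1] at hy
    have e1 : |y| = (2 ^ g 3 / 2 ^ g l * |y|) * (2 ^ g l / 2 ^ g 3) := by
      field_simp
    rw [e1]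
    exact mul_le_mul_of_nonneg_right hy (by positivity)
  have d1 : (1 : ℝ) / 2 ^ (s + 230 * x) ≤ 2 ^ (150 * x) := by
    rw [div_le_iff₀ (by positivity), ← pow_add]
    exact one_le_pow₀ (by norm_num)
  refine key _ ?_
  by_cases h1 : j = 1 ∨ (j = 2 ∧ l = 0)
  · have h2 := hr.big ω hω l hl j h1
    rw [show 2 ^ g 3 / 2 ^ g l * (4 * (gq F c g W (W - w₀) ψH Ht (slam F W ω) l).coeff j) =
      4 * (2 ^ g 3 / 2 ^ g l * (gq F c g W (W - w₀) ψH Ht (slam F W ω) l).coeff j) by ring,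
      abs_mul, abs_of_pos (by norm_num : (0 : ℝ) < 4)] at h2
    have h3 := abs_nonneg (2 ^ g 3 / 2 ^ g l * (gq F c g W (W - w₀) ψH Ht (slam F W ω) l).coeff j)
    linarith
  · push Not at h1
    rcases Nat.eq_zero_or_pos l with h0 | h0
    · subst h0
      have h4 : j ≠ 2 := fun h5 => h1.2 h5 rfl
      exact (hr.sml0 ω hω j (by have := h1.1; omega)).trans d1
    · obtain ⟨i, rfl⟩ : ∃ i, l = i + 1 := ⟨l - 1, by omega⟩
      exact (hr.sml1 ω hω ⟨i, by omega⟩ j (by have := h1.1; omega)).trans d1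

end siz

/-- The frame in weights, with room. -/
theorem lip_one {F : Fam m J} {c : ℕ → Fin m} {W X e sg Q q₀ q : ℕ} {g : ℕ → ℕ} {B : F.Ω → Prop}
    {ψ : PtT F → ℕ → Option (Fin m) → ℝ} {ψH : LnT F → ℕ → Option (Fin m) → ℝ}
    (hfr : FrOK F c 4 W X e g B ψ ψH)
    (hq : q ≤ q₀) (h1 : q₀ ≤ Q) (h2 : q + sg ≤ Q) (J1 : ∀ l < 3, e + g l + Q ≤ J)
    (J2 : e + g 3 + (q + sg) ≤ J) :
    ∀ ω, B ω → ∀ l ≤ 3, ∀ j < l,
      2 ^ wts 3 g q₀ q sg l * |ψH (slam F W ω) l (some (c j))| ≤ ((1 : ℕ) : ℝ) * 2 ^ J := by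
  intro ω hω l hl j hj
  have a1 := hfr.lip ω hω l (by omega) j hj
  rw [hfr.cls ω hω] at a1
  refine (mul_le_mul_of_nonneg_left a1 (by positivity)).trans ?_
  push_cast
  rw [← pow_add, one_mul]
  refine pow_le_pow_right₀ (by norm_num) ?_
  have a2 : wts 3 g q₀ q sg l + nlp g j l + e ≤ J := by
    have a3 : g l ≤ (Finset.Icc j l).sup g :=
      Finset.le_sup (f := g) (Finset.mem_Icc.2 ⟨hj.le, le_rfl⟩)
    unfold nlp
    rcases Nat.lt_or_eq_of_le hl with h | h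
    · have a4 : wts 3 g q₀ q sg l ≤ g l + Q := by
        unfold wts
        rw [if_pos h]
        unfold uu D2F2.qv
        refine max_le ?_ (by omega)
        split_ifs <;> omega
      have a5 : (Finset.Icc j l).sup g ≤ J - Q - e := Finset.sup_le fun i hi => by
        have := (Finset.mem_Icc.1 hi).2
        have := J1 i (by omega)
        omega
      have := J1 l h
      omega
    · have a4 : wts 3 g q₀ q sg l = g 3 + (q + sg) := by
        unfold wts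
        rw [h, if_neg (lt_irrefl 3)]
      have a5 : (Finset.Icc j l).sup g ≤ J - (q + sg) - e := Finset.sup_le fun i hi => by
        have b1 := (Finset.mem_Icc.1 hi).2
        rcases Nat.lt_or_ge i 3 with h3 | h3
        · have := J1 i h3
          omega
        · have : i = 3 := by omega
          rw [this]
          omega
      rw [h] at a3 a4 a5 ⊢
      omega
  omega

/-- **The structure `P8G`**, base window `W` later than the window `w₀` of the label. -/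
theorem p8g_gen {F : Fam m J} {c : ℕ → Fin m}
    {D w₀ W o a b a₂ a' v v' e e₁ e' X K q₀ q sg Q Mo Ma Mb M' p : ℕ}
    {g go ga gb gd g' gT : ℕ → ℕ}
    {U : ℝ} {B : F.Ω → Prop} {ψ : PtT F → ℕ → Option (Fin m) → ℝ}
    {ψH : LnT F → ℕ → Option (Fin m) → ℝ} {Sv : PtT F → ℕ → Option (Fin m) → ℝ}
    {Go Ga G₁ G₂ G' T' : PtT F → ℕ → MvPolynomial (Option (Fin m)) ℝ}
    {Ho Ha H₁ H₂ H' TH' : LnT F → ℕ → MvPolynomial (Option (Fin m)) ℝ}
    {Ht : LnT F → MvPolynomial (Option (Fin m)) ℝ} {hD : ∀ s, (Ht s).totalDegree ≤ D}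
    (hw₀ : w₀ ≤ W)
    (hc : Set.InjOn c (Set.Iio 3)) (hfr : WFr F c 4 W X e' g B ψ ψH Sv)
    (ho : Cw F c D W o e X g go B Go Ho Sv) (ha : Cw F c D W a e X g ga B Ga Ha Sv)
    (hb : Cw F c D W b e X g gb B G₁ H₁ Sv) (hd : Cw F c D W a₂ e X g gd B G₂ H₂ Sv)
    (hpH : ∀ s, DepC c 3 (Ht s))
    (hdp : Dpw F c D w₀ a' v v' e₁ X p g' gT U B G' H' T' TH' Ht Sv)
    (hsz : ∀ ω, B ω → ∀ l < 3, ∀ j, 1 ≤ j →
      |(gq F c g W (W - w₀) ψH Ht (slam F W ω) l).coeff j| ≤ 2 ^ K * (2 ^ g l / 2 ^ g 3))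
    (Mo1 : ∀ j < 3, go j ≤ g j + Mo) (Mo2 : g 3 + sg + Mo ≤ go 3)
    (Ma1 : ∀ j < 3, ga j ≤ g j + Ma) (Ma2 : g 3 + sg + Ma ≤ ga 3)
    (Mb1 : ∀ j < 3, gb j ≤ g j + Mb) (Mb2 : g 3 + sg + Mb ≤ gb 3)
    (Md1 : ∀ j < 3, g' j ≤ g j + M') (Md2 : g 3 + sg + M' ≤ g' 3)
    (hq : q ≤ q₀) (Q1 : q₀ ≤ Q) (Q2 : q + sg ≤ Q) (J1 : ∀ l < 3, e' + g l + Q ≤ J)
    (J2 : e' + g 3 + (q + sg) ≤ J) (hK : 13 * (X + 1) ≤ K) :
    P8G F c 3 D W (W - w₀) o a b a₂ K q₀ q sg Mo Ma Mb 1 g go ga gb gd ψH ψ Ht hD Go Ga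
      G₁ G₂ H₂ B :=
  ⟨gb_sv hc hw₀ hfr ho hpH hdp Mo1 Mo2 Md1 Md2 hK, gb_sv hc hw₀ hfr ha hpH hdp Ma1 Ma2 Md1 Md2 hK,
    gb_sv hc hw₀ hfr hb hpH hdp Mb1 Mb2 Md1 Md2 hK, hd.gd hc hfr (by omega), hd.cl, hfr.fr.cls,
    fun ω hω V _ => ha.frm hfr (by omega) ω hω 3 le_rfl V, hsz, lip_one hfr.fr hq Q1 Q2 J1 J2⟩

/-! ### Freeness -/

/-- **Freeness of a function** of a free variable, later record finer. -/
theorem free_sub {Ω S S' T T' : Type} [Fintype Ω] {p : Ω → ℝ} (hp : ∀ ω, 0 ≤ p ω) {u : Ω → S}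
    {e : Ω → S'} {z : Ω → T} {z' : Ω → T'} (hz : Det p z' z) (he : Det p u e) {y : ℝ}
    (h : CH p u z ≤ CH p u z' + y) : CH p e z ≤ CH p e z' + y := by
  have e1 : ∀ (V : Type) (Z : Ω → V), CH p u Z = CH p e Z + CH p u (fun ω => (e ω, Z ω)) := by
    intro V Z
    rw [← CH_chain hp u e Z]
    exact CH_congr hp (fun ω ω' a b k => Prod.ext (Prod.ext_iff.1 k).1
      (he ω ω' a b (Prod.ext_iff.1 k).1)) (fun ω ω' _ _ k => (Prod.mk.inj (Prod.ext_iff.1 k).1).1)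
      (fun _ _ _ _ k => k) (fun _ _ _ _ k => k)
  have e2 := e1 T z
  have e3 := e1 T' z'
  have e4 : CH p u (fun ω => (e ω, z' ω)) ≤ CH p u (fun ω => (e ω, z ω)) :=
    CH_mono_cond hp fun ω ω' a b k => Prod.ext (Prod.ext_iff.1 k).1
      (hz ω ω' a b (Prod.ext_iff.1 k).2)
  linarith

/-- **The pigeonhole over the blocks.** -/
theorem free_pig {Ω S S' : Type} [Fintype Ω] {p : Ω → ℝ} (hp : ∀ ω, 0 ≤ p ω) {E : Ω → S}
    {G : Ω → S'} {n : ℕ} (hn : 0 < n) {T : ℕ → Type} (z : ∀ k, Ω → T k)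
    (hz : ∀ k, Det p (z (k + 1)) (z k)) {x BG : ℝ}
    (hE : CH p E (z 0) ≤ CH p E (z (2 * n - 1)) + x)
    (hG : CH p G (fun ω => (E ω, z 0 ω)) ≤ BG) :
    ∃ i < n, CH p (fun ω => (E ω, G ω)) (z (2 * i)) ≤
      CH p (fun ω => (E ω, G ω)) (z (2 * i + 1)) + (x + BG / n) := by
  have hzz : ∀ i j, i ≤ j → Det p (z j) (z i) := by
    intro i j hij
    induction j, hij using Nat.le_induction with
    | base => exact fun _ _ _ _ k => k
    | succ j _ ih => exact fun ω ω' a b k => ih ω ω' a b (hz j ω ω' a b k)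
  have cE : ∀ i j, i ≤ j → CH p E (z j) ≤ CH p E (z i) := fun i j hij =>
    CH_mono_cond hp (hzz i j hij)
  have cG : ∀ i j, i ≤ j → CH p G (fun ω => (E ω, z j ω)) ≤ CH p G (fun ω => (E ω, z i ω)) :=
    fun i j hij => CH_mono_cond hp fun ω ω' a b k => Prod.ext (Prod.ext_iff.1 k).1
      (hzz i j hij ω ω' a b (Prod.ext_iff.1 k).2)
  -- the telescoping sum
  have tel : ∀ k, ∑ i ∈ range k, (CH p G (fun ω => (E ω, z (2 * i) ω)) -
      CH p G (fun ω => (E ω, z (2 * i + 1) ω))) + CH p G (fun ω => (E ω, z (2 * k) ω)) ≤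
      CH p G (fun ω => (E ω, z 0 ω)) := by
    intro k
    induction k with
    | zero => simp
    | succ k ih =>
      rw [sum_range_succ]
      have h1 := cG (2 * k + 1) (2 * (k + 1)) (by omega)
      linarith
  have hn' : (0 : ℝ) < n := by exact_mod_cast hn
  obtain ⟨i, hi, hi2⟩ : ∃ i < n, CH p G (fun ω => (E ω, z (2 * i) ω)) -
      CH p G (fun ω => (E ω, z (2 * i + 1) ω)) ≤ BG / n := by
    by_contra hcon
    push Not at hcon
    have h1 : ∑ i ∈ range n, BG / n < ∑ i ∈ range n, (CH p G (fun ω => (E ω, z (2 * i) ω)) -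
        CH p G (fun ω => (E ω, z (2 * i + 1) ω))) :=
      sum_lt_sum_of_nonempty ⟨0, mem_range.2 hn⟩ fun i hi => hcon i (mem_range.1 hi)
    rw [sum_const, card_range, nsmul_eq_mul, mul_div_cancel₀ _ hn'.ne'] at h1
    have h2 := tel n
    have h3 := CH_nonneg hp G (fun ω => (E ω, z (2 * n) ω))
    linarith
  refine ⟨i, hi, ?_⟩
  have a1 : ∀ (V : Type) (Z : Ω → V), CH p (fun ω => (E ω, G ω)) Z =
      CH p E Z + CH p G (fun ω => (E ω, Z ω)) := by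
    intro V Z
    rw [← CH_chain hp G E Z]
    refine CH_congr hp ?_ ?_ (fun _ _ _ _ k => k) (fun _ _ _ _ k => k) <;>
    · intro ω ω' _ _ k
      simp only [Prod.mk.injEq] at k ⊢
      exact ⟨k.1.2, k.1.1⟩
  rw [a1, a1]
  have a2 := cE 0 (2 * i) (by omega)
  have a3 := cE (2 * i + 1) (2 * n - 1) (by omega)
  linarith

end Pool.D2N
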