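import Pool.Agent.H28.D2.P8b
import Pool.Agent.H28.D2.P8n

/-!
# The number of the hop is few given the own data

`p8_clu`: as `p8_cls`, with constants which do not depend on `c`.
-/

set_option autoImplicit false

namespace Pool.D2F2

open Finset Real MvPolynomial
open Pool.Agent.H49.Ent Pool.Agent.H32.Dense Pool.STK Pool.KA Pool.KSAT Pool.K2S Pool.PB Pool.GEN
open Pool.S6C Pool.LA91 Pool.CHT Pool.CHX Pool.M3F
open Pool.ALL (RateOf)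
open Pool.ISO (Clsd)
open Pool.D2R (dd hs co co_slam)
open Pool.D2F (cv CvC)
open Pool.D2Z (en)
open Pool.D2N (rfv rfv_spec)
open Pool.X31 (nw few_floor)

/-- **The number is few given the own data**, class form. -/
theorem p8_clu {m : ℕ} {r : ℕ} (hr0 : 0 < r)
    {D : ℕ} (hD2 : 2 ≤ D) {h ε : ℝ} (hh : 0 < h) (hh1 : h ≤ 1) (hε : 0 < ε) :
    ∃ η₀ : ℝ, 0 < η₀ ∧ ∃ c₀ : ℝ, 0 < c₀ ∧ ∀ {c : ℕ → Fin m}, (∀ l < r, c l ≠ c r) →
    (∀ j, j ≠ c r → ∃ l < r, c l = j) → ∀ {S : PCl m}, TmH S → ∀ {w μ η : ℝ}, 0 ≤ w →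
    0 < μ → w + μ ≤ 1 → 0 < η → η ≤ η₀ * μ → ∀ {rt : ℝ → ℝ}, RateOf S (c r) rt → ∀ {α β : ℝ},
    (∀ y₁ y₃ : ℝ, α ≤ y₁ → y₁ ≤ y₃ → y₃ ≤ β → rt y₃ - rt y₁ ≤ (1 - h) * (y₃ - y₁) + η) →
    ∀ {a a₂ : ℝ} {I : Finset (Fin m)}, (∀ i ∈ I, ∃ l < r, c l = i) → ∀ {xV cy : ℝ},
    ExvY S a₂ (fun J F ω (i : {x // x ∈ I}) => F.X J ω i) xV →
    ExvY S a (fun J F ω => F.X J ω (c 0)) cy → ∀ {c₁ : ℝ}, 0 < c₁ →
    Bas S (fun J F A => ∀ A₁ : F.Ω → Prop, Sub A₁ A → c₁ * Pe F.p A ≤ Pe F.p A₁ →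
      ∀ (n o b k q₀ q sg Q Mo Ma Mb E₀ : ℕ) (g go ga gb gd : ℕ → ℕ)
        (ψH : LnT F → ℕ → Option (Fin m) → ℝ) (zψ : PtT F → ℕ → Option (Fin m) → ℝ)
        (Ht : LnT F → MvPolynomial (Option (Fin m)) ℝ) (hD : ∀ s, (Ht s).totalDegree ≤ D)
        (Go Ga G₁ G₂ : PtT F → ℕ → MvPolynomial (Option (Fin m)) ℝ)
        (H₂ : LnT F → ℕ → MvPolynomial (Option (Fin m)) ℝ)
        (Vo Va Vb : Type) (zo : F.Ω → Vo) (za : PtT F → Va) (zaH : LnT F → Va) (zb : F.Ω → Vb),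
      P8G F c r D ⌊w * J⌋₊ n o ⌊a * J⌋₊ b ⌊a₂ * J⌋₊ k q₀ q sg Mo Ma Mb E₀ g go ga gb gd ψH zψ
        Ht hD Go Ga G₁ G₂ H₂ A₁ →
      P8L r ⌊w * J⌋₊ o ⌊a * J⌋₊ b J q₀ q sg Q g go ga gb gd →
      ⌊w * J⌋₊ ≤ ⌊a₂ * J⌋₊ → ⌊a₂ * J⌋₊ ≤ J →
      (k : ℝ) ≤ η * J → (E₀ : ℝ) ≤ 2 ^ (η * J) →
      (sg : ℝ) ≤ μ * J → μ * J ≤ g r + (q + sg) → α * J ≤ g r + (q + sg) - (μ * J + 1) →
      g r + (q + sg) ≤ β * J →
      ∑ l ∈ range r, ((J - gd l : ℕ) : ℝ) * Real.log 2 ≤ xV * Real.log 2 * J + η * J →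
      ((J - (g 0 + q₀) : ℕ) : ℝ) * Real.log 2 ≤ cy * Real.log 2 * J + η * J →
      KeyZ F ⌊w * J⌋₊ r ψH Go A₁ zo → KeyZ F ⌊w * J⌋₊ r ψH Ga A₁ (fun ω => za (ptr F J ω)) →
      KeyZ F ⌊w * J⌋₊ r ψH G₁ A₁ zb →
      (∀ ω, A₁ ω → za (ptr F J ω) = zaH (slam F ⌊a * J⌋₊ ω)) →
      (∀ ω ω', A₁ ω → A₁ ω' → za (ptr F J ω) = za (ptr F J ω') →
        F.Z ω = F.Z ω' ∧ F.T1 ⌊a * J⌋₊ ω = F.T1 ⌊a * J⌋₊ ω') →
      CH (cond F.p A₁ True) zo (fun ω => za (ptr F J ω)) ≤ η * J →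
      CH (cond F.p A₁ True) zo zb ≤ η * J →
      CH (cond F.p A₁ True) (fun ω => za (ptr F J ω)) zb ≤ η * J →
      CH (cond F.p A₁ True) (er (hdt2 F c g ⌊w * J⌋₊ n r D q₀ q sg ψH Ht hD) ⌊w * J⌋₊)
          (fun ω => (za (ptr F J ω), F.W ω)) ≤
        CH (cond F.p A₁ True) (er (hdt2 F c g ⌊w * J⌋₊ n r D q₀ q sg ψH Ht hD) ⌊w * J⌋₊)
          (fun ω => (zb ω, F.W ω)) + η * J →
      CH (cond F.p A₁ True) (er (hdt2 F c g ⌊w * J⌋₊ n r D q₀ q sg ψH Ht hD) ⌊w * J⌋₊)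
          (fun ω => (zo ω, F.W ω)) ≤
        CH (cond F.p A₁ True) (er (hdt2 F c g ⌊w * J⌋₊ n r D q₀ q sg ψH Ht hD) ⌊w * J⌋₊)
          (fun ω => (zb ω, F.W ω)) + η * J →
      (∀ B : F.Ω → Prop, Sub B A₁ → c₀ * Pe F.p A₁ ≤ Pe F.p B →
        ∑ l ∈ Finset.Ico 1 r, ((uu g q₀ q sg l - (g l + qv q₀ q l) : ℕ) : ℝ) * Real.log 2 -
            η * J ≤
          CH (cond F.p B True) (fun ω (l : Fin (r - 1)) =>
              Nfd (hdt2 F c g ⌊w * J⌋₊ n r D q₀ q sg ψH Ht hD) ⌊w * J⌋₊ (uu g q₀ q sg)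
                (fun l => g l + qv q₀ q l) (1 + l) ω)
            (fun ω => (zo ω, (F.W ω, (F.X J ω (c 0),
              cE (hdt2 F c g ⌊w * J⌋₊ n r D q₀ q sg ψH Ht hD) ⌊w * J⌋₊ ω))))) →
      CH (cond F.p A₁ True) (fun ω => ⌊(2 : ℝ) ^ (g r + q + sg) *
        nw (hdt2 F c g ⌊w * J⌋₊ n r D q₀ q sg ψH Ht hD) ⌊w * J⌋₊
          (rfv (cond F.p A₁ True) (fun ω => za (ptr F J ω))
            (er (hdt2 F c g ⌊w * J⌋₊ n r D q₀ q sg ψH Ht hD) ⌊w * J⌋₊)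
            (fun ω l => (hdt2 F c g ⌊w * J⌋₊ n r D q₀ q sg ψH Ht hD).P l (slam F ⌊w * J⌋₊ ω))
            (za (ptr F J ω)) (er (hdt2 F c g ⌊w * J⌋₊ n r D q₀ q sg ψH Ht hD) ⌊w * J⌋₊ ω)) ω⌋)
        (fun ω => (er (hdt2 F c g ⌊w * J⌋₊ n r D q₀ q sg ψH Ht hD) ⌊w * J⌋₊ ω,
          za (ptr F J ω))) ≤
      ε * μ * J) := by
  obtain ⟨δ₁, hδ₁, c₀, hc₀, N₀, hN₀, Hp⟩ := hop_nat D (by omega) hh hh1 (ε := ε / 4)
    (by positivity)
  obtain ⟨C, Hp⟩ := Hp r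
  have hl2 : 0 < Real.log 2 := Real.log_pos (by norm_num)
  -- the rate
  obtain ⟨T, hT⟩ : ∃ T : ℝ, T = ((r : ℝ) + 1) * (D + 5) * (C + 1) * (2 * r + 12 : ℕ) := ⟨_, rfl⟩
  obtain ⟨κ, hκ⟩ : ∃ κ : ℝ, κ = min δ₁ (min ε (c₀ * δ₁)) := ⟨_, rfl⟩
  have hκ0 : 0 < κ := by
    rw [hκ]
    exact lt_min hδ₁ (lt_min hε (by positivity))
  have hκ1 : κ ≤ δ₁ := by
    rw [hκ]
    exact min_le_left _ _
  have hκ2 : κ ≤ ε := by
    rw [hκ]
    exact (min_le_right _ _).trans (min_le_left _ _)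
  have hκ3 : κ ≤ c₀ * δ₁ := by
    rw [hκ]
    exact (min_le_right _ _).trans (min_le_right _ _)
  have hr' : (0 : ℝ) ≤ r := Nat.cast_nonneg r
  have hD' : (0 : ℝ) ≤ D := Nat.cast_nonneg D
  have hC' : (0 : ℝ) ≤ C := Nat.cast_nonneg C
  have hN1 : (1 : ℝ) ≤ (2 * r + 12 : ℕ) := by
    push_cast
    linarith
  have hT1 : 1 ≤ T := by
    rw [hT]
    have a1 : (1 : ℝ) ≤ (r : ℝ) + 1 := by linarith
    have a2 : (1 : ℝ) ≤ (D : ℝ) + 5 := by linarith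
    have a3 : (1 : ℝ) ≤ (C : ℝ) + 1 := by linarith
    exact one_le_mul_of_one_le_of_one_le (one_le_mul_of_one_le_of_one_le
      (one_le_mul_of_one_le_of_one_le a1 a2) a3) hN1
  refine ⟨κ / (10000 * T), by positivity, c₀, hc₀, ?_⟩
  intro c hcr hcc S hTm w μ η hw hμ hwμ hη hηκ rt hrt α β hrow a a₂ I hI xV cy hex hey c₁ hc₁
  obtain ⟨J₀, HJ⟩ := Hp hw hμ hwμ
  have hTη : 10000 * (T * η) ≤ κ * μ := by
    have h1 : 10000 * T * (κ / (10000 * T) * μ) = κ * μ := by field_simp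
    have h2 := mul_le_mul_of_nonneg_left hηκ (by positivity : 0 ≤ 10000 * T)
    rw [h1] at h2
    linarith
  have hηT : η ≤ T * η := le_mul_of_one_le_left hη.le hT1
  have k1 : κ * μ ≤ δ₁ * μ := mul_le_mul_of_nonneg_right hκ1 hμ.le
  have k2 : κ * μ ≤ ε * μ := mul_le_mul_of_nonneg_right hκ2 hμ.le
  have k3 : κ * μ ≤ c₀ * δ₁ * μ := mul_le_mul_of_nonneg_right hκ3 hμ.le
  have hδμ : 0 < δ₁ * μ := mul_pos hδ₁ hμ
  obtain ⟨e', he'⟩ : ∃ e' : ℝ, e' = δ₁ * μ := ⟨_, rfl⟩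
  obtain ⟨e, he⟩ : ∃ e : ℝ, e = e' / 16 := ⟨_, rfl⟩
  have he0 : 0 < e := by
    rw [he, he']
    positivity
  have hηe : η < e := by
    rw [he, he']
    linarith
  have hpos : Bas S (fun _ F A => 0 < Pe F.p A) :=
    ⟨1, one_pos, 0, fun J _ F A h => hTm.1 _ _ _ _ h⟩
  have b1 := nfg_cls2_w hrt hpos hηe hη.le hrow hcr hcc hI hex hc₀ hc₁ hh.le hh1
  have b2 := Pool.LBK.Bas.ev hey (mul_pos hc₀ hc₁)
  have b3 := tm_cls hTm (δ := min (δ₁ * μ) (ε / 4 * μ)) hc₁ (lt_min hδμ (by positivity))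
  -- the threshold
  obtain ⟨c₃, hc₃⟩ : ∃ c₃ : ℝ,
    c₃ = Real.log ((8 * (r + 1) * (D + 3) ^ 2 * (C + 1) : ℕ) : ℝ) + 1 := ⟨_, rfl⟩
  obtain ⟨J₁, hJ₁⟩ := exists_nat_ge (max (c₃ / η) (max (2 * Real.log 2 / (e' / 4))
    (18 * Real.log 2 / c₀ / (e / 4))))
  refine (((b1.and b2).and b3).and hpos).mono (max J₀ J₁) ?_
  rintro J hJ F A ⟨⟨⟨g1, g2⟩, g3⟩, hA⟩ A₁ hA₁ hPA n o b k q₀ q sg Q Mo Ma Mb E₀ g go ga gb gd ψH zψ
    Ht hD Go Ga G₁ G₂ H₂ Vo Va Vb zo za zaH zb HG HL hWa₂ ha₂J hk hE hsg hμn hαn hβn hsum hcy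
    ko ka kb hza hzT hoa hob hab hfa hfo hnv
  have hJ0 : J₀ ≤ J := (le_max_left _ _).trans hJ
  have hJ1 : (J₁ : ℝ) ≤ J := by exact_mod_cast (le_max_right _ _).trans hJ
  have hJr : (0 : ℝ) ≤ J := Nat.cast_nonneg J
  have j1 : c₃ ≤ η * J := by
    have h1 := ((le_max_left _ _).trans hJ₁).trans hJ1
    rw [div_le_iff₀ hη] at h1
    linarith
  have j2 : 2 * Real.log 2 ≤ e' / 4 * J := by
    have h1 := (((le_max_left _ _).trans (le_max_right _ _)).trans hJ₁).trans hJ1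
    rw [div_le_iff₀ (by rw [he']; positivity)] at h1
    linarith
  have j3 : 18 * Real.log 2 / c₀ ≤ e / 4 * J := by
    have h1 := (((le_max_right _ _).trans (le_max_right _ _)).trans hJ₁).trans hJ1
    rw [div_le_iff₀ (by positivity)] at h1
    linarith
  have hA₁0 : 0 < Pe F.p A₁ := lt_of_lt_of_le (mul_pos hc₁ hA) hPA
  obtain ⟨x, hx⟩ : ∃ x : ℝ, x = η * J := ⟨_, rfl⟩
  have hx0 : 0 ≤ x := by
    rw [hx]
    positivity
  -- the logarithms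
  obtain ⟨L, hL⟩ : ∃ L : ℝ, L = (2 * r + 12 : ℕ) * Real.log (Mc r D C k E₀) := ⟨_, rfl⟩
  have hL0 : 0 ≤ L := by
    rw [hL]
    exact mul_nonneg (Nat.cast_nonneg _) (Real.log_natCast_nonneg _)
  have hLx : L ≤ (2 * r + 12 : ℕ) * (3 * x) := by
    rw [hL]
    refine mul_le_mul_of_nonneg_left ?_ (Nat.cast_nonneg _)
    have h1 := lg_M (r := r) (D := D) (C := C) (k := k) (E₀ := E₀) (x := x) (by rw [hx]; exact hk)
      (by rw [hx]; exact hE) hx0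
    rw [← hx] at j1
    linarith
  obtain ⟨y, hy⟩ : ∃ y : ℝ, y = ((r : ℝ) + 1) * (D + 5) * (C + 1) * L := ⟨_, rfl⟩
  have hyx : y ≤ 3 * (T * x) := by
    rw [hy, hT]
    have h1 := mul_le_mul_of_nonneg_left hLx
      (by positivity : 0 ≤ ((r : ℝ) + 1) * (D + 5) * (C + 1))
    refine h1.trans (le_of_eq ?_)
    ring
  have p1 : 0 ≤ r * L := mul_nonneg hr' hL0
  have p2 : 0 ≤ D * L := mul_nonneg hD' hL0
  have p3 : 0 ≤ C * L := mul_nonneg hC' hL0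
  have p4 : 0 ≤ r * D * L := mul_nonneg (mul_nonneg hr' hD') hL0
  have p5 : 0 ≤ r * C * L := mul_nonneg (mul_nonneg hr' hC') hL0
  have p6 : 0 ≤ D * C * L := mul_nonneg (mul_nonneg hD' hC') hL0
  have p7 : 0 ≤ r * D * C * L := mul_nonneg (mul_nonneg (mul_nonneg hr' hD') hC') hL0
  have hye : y = r * D * C * L + r * D * L + 5 * (r * C * L) + 5 * (r * L) + D * C * L +
      D * L + 5 * (C * L) + 5 * L := by
    rw [hy]
    ring
  have y1 : L ≤ y := by linarith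
  have y2 : r * L ≤ y := by linarith
  have y3 : C * L ≤ y := by linarith
  have y4 : (3 * r + 7 + r * (D + 3)) * L ≤ 7 * y := by
    have e1 : (3 * r + 7 + r * (D + 3)) * L = 6 * (r * L) + 7 * L + r * D * L := by ring
    rw [e1]
    linarith
  have hTx : 10000 * (T * x) ≤ κ * μ * J := by
    rw [hx]
    have := mul_le_mul_of_nonneg_right hTη hJr
    linarith
  have hxT : x ≤ T * x := le_mul_of_one_le_left hx0 hT1
  have k1' : κ * μ * J ≤ δ₁ * μ * J := mul_le_mul_of_nonneg_right k1 hJr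
  have k2' : κ * μ * J ≤ ε * μ * J := mul_le_mul_of_nonneg_right k2 hJr
  have k3' : κ * μ * J ≤ c₀ * δ₁ * μ * J := mul_le_mul_of_nonneg_right k3 hJr
  have hlast : 3 * (T * x) ≤ e / 4 * J := by
    rw [he, he']
    have : 0 ≤ T * x := hx0.trans hxT
    nlinarith
  -- the logarithms of the constants
  have la : Real.log (2 * (2 * ((2 * r + 2) * 2 ^ k) ^ (r + 4) + 1 : ℕ) + 1) ≤ L := by
    rw [hL]
    exact lg_a
  have lb : Real.log (2 * (2 + r * E₀ : ℕ) + 1) ≤ L := by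
    rw [hL]
    exact lg_b
  have lc : Real.log (2 * (3 : ℕ) + 1) ≤ L := by
    rw [hL]
    exact lg_c
  have ld : Real.log (2 * (r * ((D + 1) * ((D + 2) * 2 ^ k)) + 2 : ℕ) + 1) ≤ L := by
    rw [hL]
    exact lg_d
  have le : Real.log (2 * ((2 * (((2 * r + 2) * 2 ^ k) ^ (2 * r + 7) * (1 + 1) *
      (D + 1) ^ 2) : ℕ) + 1) + 1) ≤ L := by
    rw [hL]
    exact lg_e
  have lf : Real.log (2 * (((2 * r + 2) * 2 ^ k) ^ (2 * r + 7) * (1 + 1) *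
      (D + 1) ^ 2 * (1 + r * (D + 1) ^ 2) + 1 : ℕ) + 1) ≤ L := by
    rw [hL]
    exact lg_f
  have lg : Real.log (2 * (Yk r k 1 + 1 : ℕ) + 1) ≤ L := by
    rw [hL]
    exact lg_g
  have lh : Real.log (C * ((((2 * r + 2) * 2 ^ k) ^ (2 * r + 7) * (1 + 1) *
      (D + 1) ^ 2 : ℕ) + 1)) ≤ L := by
    rw [hL]
    exact lg_h
  have li : Real.log (2 * (Kf r k : ℕ) + 1) ≤ L := by
    rw [hL]
    exact lg_i
  -- the time
  have tm := g3 A₁ hA₁ hPA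
  have tm1 : (J : ℝ) * Real.log 2 - δ₁ * μ * J ≤
      CH (cond F.p A₁ True) F.T (fun ω => (F.l ω, F.Z ω)) := by
    refine le_trans ?_ tm
    have := mul_le_mul_of_nonneg_right (min_le_left (δ₁ * μ) (ε / 4 * μ)) hJr
    linarith
  have tm2 : (J : ℝ) * Real.log 2 - ε / 4 * μ * J ≤
      CH (cond F.p A₁ True) F.T (fun ω => (F.l ω, F.Z ω)) := by
    refine le_trans ?_ tm
    have := mul_le_mul_of_nonneg_right (min_le_right (δ₁ * μ) (ε / 4 * μ)) hJr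
    linarith
  -- the rows
  have row := g1 A₁ hA₁ hPA g gd ⌊w * J⌋₊ k D (q + sg) (g r + q + sg) E₀ N₀
    (((2 * r + 2) * 2 ^ k) ^ (2 * r + 7) * (1 + 1) * (D + 1) ^ 2) ((D + 2) * 2 ^ k) ψH
    (hds2 F c g ⌊w * J⌋₊ n r D q₀ q sg ψH Ht hD) G₂ H₂ zψ gd (uu g q₀ q sg)
    (fun l => g l + qv q₀ q l) (wts r g q₀ q sg) μ e' HG.hd
    (hds2_fdv HG.ho.hW HG.ho.inj HG.ho.cvH)
    ((hds2_fdv HG.ho.hW HG.ho.inj HG.ho.cvH).frw HG.ho.inj HG.ho.cvH HG.lip)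
    hWa₂ ha₂J HG.zψ HG.cl (fun ω hω l hl j hj => by
      have h1 := hds2_lip HG.ha HG.row HG.siz (fun l _ => le_uu' (g := g) (q₀ := q₀) (q := q)
        (sg := sg) l) ω hω l hl j hj
      rw [← add_assoc] at h1
      exact h1)
    (fun l _ => le_rfl) HL.d1 (fun l _ => le_uu' l) (fun l hl => HL.uuJ hl)
    (fun l hl => by
      unfold wts
      rw [if_pos hl]) (fun l _ => le_uu l) (fun l _ => rfl)
    (by have := HL.J2; omega)
    (by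
      unfold wts
      rw [if_neg (lt_irrefl r)]
      omega)
    (by have := HL.d2; omega) (by omega) hμ.le (by push_cast; linarith) hN₀
    (by push_cast; linarith) (by push_cast; linarith) ?_ ?_ ?_ ?_
  · -- the end
    have few := HJ J hJ0 F A₁ hA₁0 (hds2 F c g ⌊w * J⌋₊ n r D q₀ q sg ψH Ht hD)
      ((HG.recA HL ka).shr _) hsg ?_ tm1 (by
        rw [he'] at row
        exact row)
    · have key := HG.few HL hD2 hA₁0 ka hza hzT (K := Kf r k) (by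
        unfold Kf
        push_cast
        exact le_of_eq (by ring)) few tm2
      refine key.trans ?_
      have : 0 ≤ ε * μ * J := by positivity
      linarith
    · refine (mul_le_mul_of_nonneg_left lh hC').trans ?_
      have : 0 ≤ δ₁ * μ * J := by positivity
      linarith
  · -- the sum of stage 1
    have : x ≤ e * J := by
      have h1 := mul_le_mul_of_nonneg_right hηe.le hJr
      rw [hx]
      exact h1
    linarith
  · refine (mul_le_mul_of_nonneg_left la hr').trans ?_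
    have : 0 ≤ e * J := by positivity
    linarith
  · have m1 := mul_le_mul_of_nonneg_left lb (by positivity : (0 : ℝ) ≤ 2 * r + 2)
    have m2 := mul_le_mul_of_nonneg_left lc hr'
    have m3 := mul_le_mul_of_nonneg_left le (by positivity : (0 : ℝ) ≤ r * (D + 3))
    have m4 : 4 * (e * J) = e' / 4 * J := by
      rw [he]
      ring
    have m5 : e / 4 * J = e' / 64 * J := by
      rw [he]
      ring
    have m6 : 0 ≤ e' * J := by
      rw [he']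
      positivity
    have m7 : (3 * r + 7 + r * (D + 3)) * L = (2 * r + 2) * L + L + (r * L + 2 * L +
      ((r * (D + 3)) * L + 2 * L)) := by ring
    linarith
  · intro B hBA hBc
    refine ⟨_, _, ((HG.recO HL ko).shr _).mono hBA, ?_⟩
    have hBA' : Sub B A := fun ω hω => hA₁ ω (hBA ω hω)
    have hBc' : c₀ * c₁ * Pe F.p A ≤ Pe F.p B := by
      refine le_trans ?_ hBc
      rw [mul_assoc]
      exact mul_le_mul_of_nonneg_left hPA hc₀.le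
    have hB0 : 0 < Pe F.p B := lt_of_lt_of_le (mul_pos hc₀ hA₁0) hBc
    have hB1 := g2 B hBA' hBc' Va za zaH fun ω hω => hza ω (hBA ω hω)
    have hB2 : cy * Real.log 2 * J ≤ CH (cond F.p B True) (fun ω => F.X J ω (c 0))
        (fun ω => (za (ptr F J ω), F.W ω)) := by
      refine hB1.trans (CH_mono_cond (isLaw_cond F.isLaw hB0).nonneg fun ω ω' hω hω' e => ?_)
      simp only [Prod.mk.injEq] at e ⊢
      rw [hza ω (hBA ω (of_cond_pos hω)), hza ω' (hBA ω' (of_cond_pos hω'))]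
      exact e
    have key := HG.vfd HL hr0 hA₁0 hBA hc₀ hBc ko ka kb (η := x) hx0
      (by rw [hx]; exact hoa) (by rw [hx]; exact hob) (by rw [hx]; exact hab)
      (by rw [hx]; exact hfa) (by rw [hx]; exact hfo) (by linarith)
      (by rw [hx]; exact hnv B hBA hBc)
    refine le_trans ?_ key
    have n1 := mul_le_mul_of_nonneg_left (add_le_add lb lg) hr'
    have n2 : (2 * x + Real.log 2) / c₀ = 2 * x / c₀ + Real.log 2 / c₀ := add_div _ _ _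
    have n3 : 2 * x / c₀ ≤ 2 / 10000 * (δ₁ * μ * J) := by
      rw [div_le_iff₀ hc₀]
      linarith
    have n4 : 18 * Real.log 2 / c₀ = 18 * (Real.log 2 / c₀) := by ring
    have n5 : e * J = δ₁ * μ * J / 16 := by
      rw [he, he']
      ring
    have n6 : e / 4 * J = δ₁ * μ * J / 64 := by
      rw [he, he']
      ring
    have n7 : r * (L + L) = 2 * (r * L) := by ring
    have n8 : 0 ≤ δ₁ * μ * J := by positivity
    rw [n2]
    rw [n4] at j3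
    linarith

end Pool.D2F2
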