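import Pool.Agent.H90.D2.Hhf
import Pool.Agent.H90.D2.P8u

/-!
# The hop cell: one block with its number

`HbN`: the numbers of one block. `hop_num`: the number of the block is few (`p8_clu`), so the block is
contradictory (`hop_blk`).
-/

set_option autoImplicit false

namespace Pool.D2N

open Finset Real MvPolynomial
open Pool.Agent.H49.Ent Pool.Agent.H32.Dense Pool.STK Pool.KA Pool.KSAT Pool.K2S Pool.PB Pool.S6C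
open Pool.GEN Pool.CHT Pool.CHX Pool.LA91
open Pool.LBT (ThrOf)
open Pool.ALL (RateOf)
open Pool.D2F Pool.D2Z Pool.D2F2
open Pool.D2R (dd hs co co_slam)
open Pool.X31 (nw)
open Pool.M3F (ExvY)

variable {m J : ℕ}

/-- **The numbers of one block**: label window `w₀`, base window `w`, windows `o`, `W` (block), `b`
(visible record), `a₂` (stage 1), `a'` (deep window of the label). -/
structure HbN (J x K e₀ s sg q q₀ q₁ Q Mg w₀ w o W b a₂ a' : ℕ)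
    (g₁ g₂ go g gb gd g' : ℕ → ℕ) : Prop where
  hp : HpN x s Mg w₀ W b a' g₁ g gb g'
  bs : BsN x sg q q₁ w₀ w g₁ g₂
  bk : BkN x s sg q q₀ q₁ w W g₂ g
  p8 : P8L 3 w o W b J q₀ q sg Q g₂ go g gb gd
  wo : w ≤ o
  oW : o ≤ W
  Wb : W + s ≤ b
  y0 : g 0 + s ≤ gb 0 + x
  sg3 : ∀ l < 3, s ≤ g l
  jg : ∀ j < 4, e₀ + g j + (s + 3) ≤ J
  jb : ∀ j < 3, e₀ + gb j ≤ J
  wa : w ≤ a₂
  aJ : a₂ ≤ J

/-- The constant of the number. -/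
noncomputable def nuH (r₀ : ℝ) : ℝ := epH (1 / 2) r₀

theorem nuH_pos {r₀ : ℝ} (h : 0 < r₀) : 0 < nuH r₀ := epH_pos (by norm_num) h

theorem epH_mul {r₀ μ : ℝ} (hμ : 0 < μ) : epH (μ / 2) (r₀ * μ) = nuH r₀ * μ := by
  unfold nuH epH
  rw [min_mul_of_nonneg _ _ hμ.le]
  congr 1 <;> ring

/-- **One block of the hop cell, with its number.** -/
theorem hop_num {m : ℕ} {D : ℕ} (hD2 : 2 ≤ D) {h r₀ : ℝ} (hh : 0 < h)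
    (hh1 : h ≤ 1) (hr₀ : 0 < r₀) :
    ∃ η₀ : ℝ, 0 < η₀ ∧ ∃ c₀ : ℝ, 0 < c₀ ∧ ∀ {c : ℕ → Fin m}, Set.InjOn c (Set.Iio 4) →
    (∀ j, j ≠ c 3 → ∃ l < 3, c l = j) → ∀ {θc : ℝ} {S : PCl m}
    {P : List (Fin m) × Fin m → ℝ → ℝ → ℝ}, ThrOf (chsys m θc) S P → TmH S →
    ∀ {w μ η : ℝ}, 0 ≤ w → 0 < μ → w + μ ≤ 1 → 0 < η → η ≤ η₀ * μ →
    ∀ {rt : ℝ → ℝ}, RateOf S (c 3) rt → ∀ {α β : ℝ},
    (∀ y₁ y₃ : ℝ, α ≤ y₁ → y₁ ≤ y₃ → y₃ ≤ β → rt y₃ - rt y₁ ≤ (1 - h) * (y₃ - y₁) + η) →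
    ∀ {aR a₂ : ℝ} {I : Finset (Fin m)}, (∀ i ∈ I, ∃ l < 3, c l = i) → ∀ {xV cy : ℝ},
    ExvY S a₂ (fun J F ω (i : {x // x ∈ I}) => F.X J ω i) xV →
    ExvY S aR (fun J F ω => F.X J ω (c 0)) cy →
    ∀ (a : ℚ) (er : ℝ), 0 ≤ a → a < 1 → aR ≤ a → er < θc * a →
    (∀ j < 4, bet P c j a a + μ / 2 ≤ 1) → ∀ {c₁ : ℝ}, 0 < c₁ →
    Bas S (fun J F A => ∀ B : F.Ω → Prop, Sub B A → c₁ * Pe F.p A ≤ Pe F.p B →
      (∀ G : F.Ω → Prop, Sub G B → Pe F.p B ≤ 2 ^ 40 * Pe F.p G → r₀ * μ * J ≤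
        CH (cond F.p G True) (fun ω => F.D ⌊μ / 2 / 10 ^ 7 * J⌋₊ ω (c 0)) (fun ω => ptr F J ω)) →
      ∀ (x K e₀ s sg q q₀ q₁ Q Mg Mo Ma Mb w₀ o b a' v v' e p : ℕ)
      (g₁ g₂ go g gb gd g' gT : ℕ → ℕ) (U : ℝ)
      (ψ₁ ψ₂ ψ ψ' Sv : PtT F → ℕ → Option (Fin m) → ℝ)
      (ψH₁ ψH₂ ψH ψH' : LnT F → ℕ → Option (Fin m) → ℝ)
      (Go Ga Gc Gd G' : PtT F → ℕ → MvPolynomial (Option (Fin m)) ℝ)
      (Ho Ha Hc Hd H' : LnT F → ℕ → MvPolynomial (Option (Fin m)) ℝ)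
      (T : PtT F → ℕ → MvPolynomial (Option (Fin m)) ℝ)
      (TH : LnT F → ℕ → MvPolynomial (Option (Fin m)) ℝ)
      (Ht : LnT F → MvPolynomial (Option (Fin m)) ℝ) (hD : ∀ s, (Ht s).totalDegree ≤ D),
      HbN J x K e₀ s sg q q₀ q₁ Q Mg w₀ ⌊w * J⌋₊ o ⌊aR * J⌋₊ b ⌊a₂ * J⌋₊ a' g₁ g₂ go g gb gd g' →
      CoH F c s x sg w₀ ⌊w * J⌋₊ ⌊aR * J⌋₊ g₂ g ψH₂ ψH Ht B →
      HbG F c D x e₀ sg w₀ ⌊w * J⌋₊ ⌊aR * J⌋₊ b a' g₁ g₂ g gb g' gT K Ma v v' e p U B ψ₁ ψ₂ ψ ψ'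
        Sv ψH₁ ψH₂ ψH ψH' Ga Gc G' Ha Hc H' T TH Ht →
      P8G F c 3 D ⌊w * J⌋₊ (⌊w * J⌋₊ - w₀) o ⌊aR * J⌋₊ b ⌊a₂ * J⌋₊ K q₀ q sg Mo Ma Mb 1 g₂ go
        g gb gd ψH₂ ψ₂ Ht hD Go Ga Gc Gd Hd B →
      -- sizes
      ((2000 * (x + K + 1) : ℕ) : ℝ) ≤ η * J → μ / 2 * J ≤ s → (sg : ℝ) ≤ μ * J →
      μ * J ≤ g₂ 3 + (q + sg) → α * J ≤ g₂ 3 + (q + sg) - (μ * J + 1) →
      g₂ 3 + (q + sg) ≤ β * J →
      (∀ j < 4, bet P c j a a * J + ⌊aR * J⌋₊ ≤ g j + a * J + η * J) →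
      e₀ + μ / 2 * J ≤ er * J →
      ∑ l ∈ range 3, ((J - gd l : ℕ) : ℝ) * Real.log 2 ≤ xV * Real.log 2 * J + η * J →
      ((J - (g₂ 0 + q₀) : ℕ) : ℝ) * Real.log 2 ≤ cy * Real.log 2 * J + η * J →
      -- the records
      ∀ (Vo Va Vb : Type) (zo : PtT F → Vo) (zoH : LnT F → Vo) (za : PtT F → Va)
        (zaH : LnT F → Va) (zb : PtT F → Vb) (zbH : LnT F → Vb), Rcd F B o zo zoH →
      (∀ ω, B ω → ∀ l ≤ 3, Go (ptr F J ω) l = Ho (slam F o ω) l) →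
      Rcd F B ⌊aR * J⌋₊ za zaH → Rcd F B b zb zbH →
      CH (cond F.p B True)
          (fun ω => (eC (hdt2 F c g₂ ⌊w * J⌋₊ (⌊w * J⌋₊ - w₀) 3 D q₀ q sg ψH₂ Ht hD) ⌊w * J⌋₊
            (g₂ 0 + q₁) ω,
          cG (hdt2 F c g₂ ⌊w * J⌋₊ (⌊w * J⌋₊ - w₀) 3 D q₀ q sg ψH₂ Ht hD) ⌊w * J⌋₊ ω))
          (fun ω => (zo (ptr F J ω), F.W ω)) ≤
        CH (cond F.p B True)
          (fun ω => (eC (hdt2 F c g₂ ⌊w * J⌋₊ (⌊w * J⌋₊ - w₀) 3 D q₀ q sg ψH₂ Ht hD) ⌊w * J⌋₊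
            (g₂ 0 + q₁) ω,
          cG (hdt2 F c g₂ ⌊w * J⌋₊ (⌊w * J⌋₊ - w₀) 3 D q₀ q sg ψH₂ Ht hD) ⌊w * J⌋₊ ω))
          (fun ω => (zb (ptr F J ω), F.W ω)) + η * J →
      (∀ B' : F.Ω → Prop, Sub B' B → c₀ * Pe F.p B ≤ Pe F.p B' →
        ∑ l ∈ Finset.Ico 1 3, ((uu g₂ q₀ q sg l - (g₂ l + D2F2.qv q₀ q l) : ℕ) : ℝ) * Real.log 2 -
            η * J ≤
          CH (cond F.p B' True) (fun ω (l : Fin (3 - 1)) =>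
              Nfd (hdt2 F c g₂ ⌊w * J⌋₊ (⌊w * J⌋₊ - w₀) 3 D q₀ q sg ψH₂ Ht hD) ⌊w * J⌋₊
                (uu g₂ q₀ q sg) (fun l => g₂ l + D2F2.qv q₀ q l) (1 + l) ω)
            (fun ω => (zo (ptr F J ω), (F.W ω, (F.X J ω (c 0),
              cE (hdt2 F c g₂ ⌊w * J⌋₊ (⌊w * J⌋₊ - w₀) 3 D q₀ q sg ψH₂ Ht hD) ⌊w * J⌋₊ ω))))) →
      False) := by
  have hν := nuH_pos hr₀
  obtain ⟨η₁, hη₁, c₀, hc₀, hp8⟩ := p8_clu (m := m) (r := 3) (by norm_num) hD2 hh hh1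
    (show 0 < nuH r₀ / 4 by positivity)
  refine ⟨min η₁ (nuH r₀ / 4), lt_min hη₁ (by positivity), c₀, hc₀, ?_⟩
  intro c hc hcc
  have hp8 := @hp8 c (fun l hl e => by
      have := hc (Set.mem_Iio.2 (show l < 4 by omega)) (Set.mem_Iio.2 (show 3 < 4 by norm_num)) e
      omega) hcc
  intro θc S P hP hT w μ η hw hμ hwμ hη hηle rt hrt α β hrow aR a₂ I hI xV cy hxV hcy a er ha0 ha1
    haR her hbet c₁ hc₁
  have hη1 : η ≤ η₁ * μ := hηle.trans (mul_le_mul_of_nonneg_right (min_le_left _ _) hμ.le)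
  have hη2 : η ≤ nuH r₀ / 4 * μ :=
    hηle.trans (mul_le_mul_of_nonneg_right (min_le_right _ _) hμ.le)
  have hE := hop_blk (σ := μ / 2) (ρ := r₀ * μ) (ε := nuH r₀ * μ) (by positivity) (by positivity)
    (by positivity) (epH_mul hμ).ge (D := D) hP hT c hc a aR er c₁ cy ha0 ha1 haR her hbet hc₁ hcy
  have hN := hp8 hT hw hμ hwμ hη hη1 hrt hrow hI hxV hcy hc₁
  have hTm := Pool.V1E.tmh_cond hT (show (0 : ℝ) < 1 by norm_num)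
  refine Bas.mono 0 ((hE.and hN).and (bas_ev hTm hc₁)) ?_
  rintro J - F A ⟨⟨hE, hN⟩, hTm⟩ B hBA hcB act x K e₀ s sg q q₀ q₁ Q Mg Mo Ma Mb w₀ o b a' v v' e p g₁ g₂
    go g gb gd g' gT U ψ₁ ψ₂ ψ ψ' Sv ψH₁ ψH₂ ψH ψH' Go Ga Gc Gd G' Ho Ha Hc Hd H' T TH Ht hD Nm C H HP
    n1 n2 n3 n4 n5 n6 n7 n8 n9 n10 Vo Va Vb zo zoH za zaH zb zbH hzo hgo hza hzb free hnv
  have hJ0 : (0 : ℝ) ≤ J := Nat.cast_nonneg J
  have hε4 : η * J ≤ nuH r₀ * μ / 4 * J := mul_le_mul_of_nonneg_right (by linarith) hJ0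
  have hεμ : nuH r₀ * μ / 4 * J = nuH r₀ / 4 * μ * J := by ring
  have hνJ : 0 ≤ nuH r₀ * μ * J := by positivity
  have hWJ := H.hA.aJ
  have hwW : ⌊w * J⌋₊ ≤ ⌊aR * J⌋₊ := Nm.bk.wW
  have hbJ := H.hb.aJ
  have hWb : ⌊aR * J⌋₊ ≤ b := by have := Nm.Wb; omega
  have hB0 := (hTm B hBA hcB).1
  have hp : IsLaw (cond F.p B True) := isLaw_cond F.isLaw hB0
  have hB : ∀ ω, 0 < cond F.p B True ω → B ω := fun ω hω =>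
    of_eq_true ((cond_pos_iff F.isLaw.nonneg B True ω).1 hω).2
  -- the records know the earlier ones
  have doa : ∀ ω ω', B ω → B ω' → za (ptr F J ω) = za (ptr F J ω') →
      zo (ptr F J ω) = zo (ptr F J ω') := fun ω ω' hω hω' e =>
    hza.det' Nm.oW hWJ hzo.cls hω hω' e
  have dab : ∀ ω ω', B ω → B ω' → zb (ptr F J ω) = zb (ptr F J ω') →
      za (ptr F J ω) = za (ptr F J ω') := fun ω ω' hω hω' e =>
    hzb.det' hWb hbJ hza.cls hω hω' e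
  have k2 : ∀ {V : Type} {z : PtT F → V} {zH : LnT F → V} {w' : ℕ}, Rcd F B w' z zH →
      ⌊w * J⌋₊ ≤ w' → w' ≤ J → ∀ ω ω', B ω → B ω' → z (ptr F J ω) = z (ptr F J ω') →
      ψH₂ (slam F ⌊w * J⌋₊ ω) = ψH₂ (slam F ⌊w * J⌋₊ ω') := by
    intro V z zH w' hz h1 h2 ω ω' hω hω' e
    have h3 := hz.det' h1 h2 H.h₂.fr.cls hω hω' e
    rwa [H.h₂.fr.cls ω hω, H.h₂.fr.cls ω' hω'] at h3
  have ko : KeyZ F ⌊w * J⌋₊ 3 ψH₂ Go B (fun ω => zo (ptr F J ω)) := fun ω ω' hω hω' e =>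
    ⟨k2 hzo Nm.wo (Nm.oW.trans hWJ) ω ω' hω hω' e, fun l hl =>
      hzo.det' (f := fun y => Go y l) (fH := fun s => Ho s l) le_rfl (Nm.oW.trans hWJ)
        (fun ω hω => hgo ω hω l hl) hω hω' e⟩
  have ka : KeyZ F ⌊w * J⌋₊ 3 ψH₂ Ga B (fun ω => za (ptr F J ω)) := fun ω ω' hω hω' e =>
    ⟨k2 hza hwW hWJ ω ω' hω hω' e, (H.kza hwW hza hω hω' e).2.2.2⟩
  have kb : KeyZ F ⌊w * J⌋₊ 3 ψH₂ Gc B (fun ω => zb (ptr F J ω)) := fun ω ω' hω hω' e =>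
    ⟨k2 hzb (hwW.trans hWb) hbJ ω ω' hω hω' e, (H.kzb hWb hza hzb hω hω' e).2.2.2.1⟩
  -- the own data are free
  obtain ⟨d, hd⟩ : ∃ d, d = hdt2 F c g₂ ⌊w * J⌋₊ (⌊w * J⌋₊ - w₀) 3 D q₀ q sg ψH₂ Ht hD := ⟨_, rfl⟩
  rw [← hd] at free
  have hcv : ∀ ω ω', eC d ⌊w * J⌋₊ (g₂ 0 + q₁) ω = eC d ⌊w * J⌋₊ (g₂ 0 + q₁) ω' →
      cV d ⌊w * J⌋₊ ω = cV d ⌊w * J⌋₊ ω' := by
    intro ω ω' e
    have h2 : d.SE 0 = (2 : ℝ) ^ (g₂ 0 + q₀) := by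
      rw [hd]
      rfl
    unfold cV
    rw [h2]
    exact fl_coarse (by have := Nm.bk.q01; omega) e
  have dW : ∀ {V V' : Type} {f : F.Ω → V} {f' : F.Ω → V'},
      (∀ ω ω', B ω → B ω' → f ω = f ω' → f' ω = f' ω') →
      Det (cond F.p B True) (fun ω => (f ω, F.W ω)) (fun ω => (f' ω, F.W ω)) :=
    fun h ω ω' hω hω' e => by
      obtain ⟨e1, e2⟩ := Prod.mk.inj e
      exact Prod.ext (h ω ω' (hB ω hω) (hB ω' hω') e1) e2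
  have der : Det (cond F.p B True) (fun ω => (eC d ⌊w * J⌋₊ (g₂ 0 + q₁) ω, cG d ⌊w * J⌋₊ ω))
      (eR d ⌊w * J⌋₊) := fun ω ω' _ _ e => by
    obtain ⟨e1, e2⟩ := Prod.mk.inj e
    exact Prod.ext (hcv ω ω' e1) e2
  have dob : ∀ ω ω', B ω → B ω' → zb (ptr F J ω) = zb (ptr F J ω') →
      zo (ptr F J ω) = zo (ptr F J ω') := fun ω ω' hω hω' e =>
    doa ω ω' hω hω' (dab ω ω' hω hω' e)
  have fo := free_sub hp.nonneg (dW dob) der free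
  have fa0 : CH (cond F.p B True) (fun ω => (eC d ⌊w * J⌋₊ (g₂ 0 + q₁) ω, cG d ⌊w * J⌋₊ ω))
      (fun ω => (za (ptr F J ω), F.W ω)) ≤
      CH (cond F.p B True) (fun ω => (eC d ⌊w * J⌋₊ (g₂ 0 + q₁) ω, cG d ⌊w * J⌋₊ ω))
      (fun ω => (zb (ptr F J ω), F.W ω)) + η * J :=
    (CH_mono_cond hp.nonneg (dW doa)).trans free
  have fa := free_sub hp.nonneg (dW dab) der fa0
  rw [hd] at fo fa fa0
  -- the number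
  have hηJ : 0 ≤ η * J := by positivity
  have n1' : (K : ℝ) ≤ η * J := by
    refine le_trans ?_ n1
    exact_mod_cast (show K ≤ 2000 * (x + K + 1) by omega)
  have hc0 : ∀ {V V' : Type} {f : F.Ω → V} {f' : F.Ω → V'},
      (∀ ω ω', B ω → B ω' → f ω = f ω' → f' ω = f' ω') →
      CH (cond F.p B True) f' f ≤ η * J := fun h => by
    rw [CH_eq_zero hp.nonneg fun ω ω' hω hω' e => h ω ω' (hB ω hω) (hB ω' hω') e]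
    exact hηJ
  have few := hN B hBA hcB (⌊w * J⌋₊ - w₀) o b K q₀ q sg Q Mo Ma Mb 1 g₂ go g gb gd ψH₂ ψ₂ Ht hD
    Go Ga Gc Gd Hd Vo Va Vb (fun ω => zo (ptr F J ω)) za zaH (fun ω => zb (ptr F J ω)) HP Nm.p8
    Nm.wa Nm.aJ n1' (by
      rw [Nat.cast_one]
      exact Real.one_le_rpow (by norm_num) hηJ) n3 (by exact_mod_cast n4) (by exact_mod_cast n5)
    (by exact_mod_cast n6) n9 n10 ko ka kb hza.cls (fun ω ω' hω hω' e =>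
      (hza.tz hω hω' e).symm) (hc0 doa) (hc0 dob) (hc0 dab) fa fo hnv
  refine hE B hBA hcB act x e₀ sg w₀ ⌊w * J⌋₊ b a' g₁ g₂ g gb g' gT K Ma v v' e p U ψ₁ ψ₂ ψ ψ' Sv
    ψH₁ ψH₂ ψH ψH' Ga Gc G' Ha Hc H' T TH Ht hD q q₀ q₁ s Mg H Nm.hp Nm.bs Nm.bk C Nm.Wb Nm.y0 Nm.jb
    n2 Nm.sg3 Nm.jg (fun j hj => ?_) n8 ?_ ?_ Va Vb za zaH zb zbH hza hzb ?_ ?_
  · have := n7 j hj
    linarith
  · linarith
  · have h1 : g₂ 0 + q₀ ≤ g 0 := by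
      have := Nm.p8.a1 0 (by norm_num)
      rwa [D2F2.qv_zero] at this
    have h2 : ((J - g 0 : ℕ) : ℝ) ≤ ((J - (g₂ 0 + q₀) : ℕ) : ℝ) := by
      exact_mod_cast (show J - g 0 ≤ J - (g₂ 0 + q₀) by omega)
    have h3 := mul_le_mul_of_nonneg_right h2 (Real.log_nonneg (show (1 : ℝ) ≤ 2 by norm_num))
    linarith
  · refine few.trans ?_
    linarith
  · refine fa0.trans ?_
    linarith

end Pool.D2N
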