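import Pool.Agent.H90.D2.Hhh
import Pool.Agent.H1.GEN.Clx
import Pool.Agent.H54.GN.NoLb

/-!
# The hop cell: the active coordinate

`act_lin`: few digits of the velocity of the active coordinate are not known to the point, with a
constant proportional to the number of digits.
-/

set_option autoImplicit false

namespace Pool.D2N

open Finset Real MvPolynomial
open Pool.Agent.H49.Ent Pool.Agent.H32.Dense Pool.STK Pool.KA Pool.KSAT Pool.K2S Pool.PB Pool.S6C
open Pool.GEN Pool.CHT Pool.CHX Pool.LA91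

variable {m J : ℕ}

/-- The rate of the active coordinate. -/
noncomputable def rAc (al : ℝ) : ℝ := al * Real.log 2 / (8 * 10 ^ 7)

theorem rAc_pos {al : ℝ} (h : 0 < al) : 0 < rAc al := by
  have := Real.log_pos (show (1 : ℝ) < 2 by norm_num)
  unfold rAc
  positivity

/-- **The active coordinate**: its first digits are not known to the point. -/
theorem act_lin {s : Fin m → ℝ} {d : ℕ → ℝ} {al : ℝ} {g₀ : ℝ → ℝ} {e : ℝ} {K₀ : ℕ}
    {N : ℚ → ℚ → ℝ} {S : PCl m} (hX : ClX s d al g₀ e K₀ N S) (hal : 0 < al) {k : Fin m}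
    (hk : (k : ℕ) = 0) {μ : ℝ} (hμ : 0 < μ) (hμ1 : μ ≤ 1)
    (hμg : μ ≤ g₀ (min (al / 2) (1 / 2))) {c₁ : ℝ} (hc₁ : 0 < c₁) :
    Bas S (fun J F A => ∀ G : F.Ω → Prop, Sub G A → c₁ * Pe F.p A ≤ Pe F.p G →
      rAc al * μ * J ≤ CH (cond F.p G True) (fun ω => F.D ⌊μ / 2 / 10 ^ 7 * J⌋₊ ω k)
        (fun ω => ptr F J ω)) := by
  have hl2 := Real.log_pos (show (1 : ℝ) < 2 by norm_num)
  have hy : 0 < μ / 2 / 10 ^ 7 := by positivity
  obtain ⟨g, hg1, hg2⟩ := exists_rat_btwn (show 3 / 4 * (μ / 2 / 10 ^ 7) < μ / 2 / 10 ^ 7 by linarith)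
  have hg0 : (0 : ℝ) < g := lt_trans (by positivity) hg1
  have hgq : (0 : ℚ) < g := by exact_mod_cast hg0
  have hy1 : μ / 2 / 10 ^ 7 ≤ μ := by
    rw [div_div]
    exact div_le_self hμ.le (by norm_num)
  have hg3 : (g : ℝ) ≤ 1 := by linarith
  have hgq1 : g ≤ 1 := by exact_mod_cast hg3
  have hε : 0 < min (al / 2) (1 / 2) := lt_min (by positivity) (by norm_num)
  have h1 := hX.actm _ hε g hgq (by linarith) 1
  have hN : al / 2 * g ≤ N 0 g := by
    by_contra hcon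
    push Not at hcon
    have h2 : ((range 1).filter fun i : ℕ => N (i * (g / (1 : ℕ))) ((i + 1) * (g / (1 : ℕ))) <
      (al - min (al / 2) (1 / 2)) * ((g : ℝ) / (1 : ℕ))).card = 1 := by
      rw [Finset.card_eq_one]
      refine ⟨0, ?_⟩
      ext i
      simp only [mem_filter, mem_range, Nat.lt_one_iff, mem_singleton, Nat.cast_one, div_one]
      constructor
      · exact fun h => h.1
      · rintro rfl
        refine ⟨rfl, ?_⟩
        norm_num
        refine hcon.trans_le (mul_le_mul_of_nonneg_right ?_ hg0.le)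
        have := min_le_left (al / 2) (1 / 2)
        linarith
    rw [h2] at h1
    have h3 := min_le_right (al / 2) (1 / 2 : ℝ)
    norm_num at h1
  have hB := hX.actb k hk 0 g le_rfl hgq.le hgq1 (al / 8 * g) (by positivity)
  have hPos : Bas S (fun _ F A => 0 < Pe F.p A) := ⟨1, one_pos, 0, fun J _ F A hA =>
    (Real.exp_pos _).trans_le (hX.mem 1 J F A hA).2.2.2.1⟩
  refine Bas.mono 0 (bas_ev (hB.and hPos) hc₁) ?_
  intro J _ F A hA G hGA hcG
  obtain ⟨hA, hp0⟩ := hA G hGA hcG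
  have hl := isLaw_cond F.isLaw hp0
  have hJ : (0 : ℝ) ≤ J := Nat.cast_nonneg J
  have e0 : rAc al * μ * J ≤ (N 0 g - al / 8 * g) * Real.log 2 * J := by
    refine mul_le_mul_of_nonneg_right ?_ hJ
    have h5 : al * (3 / 8) * (3 / 4 * (μ / 2 / 10 ^ 7)) ≤ N 0 g - al / 8 * g := by
      have := mul_le_mul_of_nonneg_left hg1.le (show 0 ≤ al * (3 / 8) by positivity)
      linarith
    refine le_trans ?_ (mul_le_mul_of_nonneg_right h5 hl2.le)
    unfold rAc
    have h6 : 0 ≤ al * μ * Real.log 2 := by positivity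
    have e1 : al * Real.log 2 / (8 * 10 ^ 7) * μ = al * μ * Real.log 2 * (1 / (8 * 10 ^ 7)) := by
      ring
    have e2 : al * (3 / 8) * (3 / 4 * (μ / 2 / 10 ^ 7)) * Real.log 2 =
        al * μ * Real.log 2 * (9 / (64 * 10 ^ 7)) := by
      ring
    rw [e1, e2]
    exact mul_le_mul_of_nonneg_left (by norm_num) h6
  refine e0.trans (hA.trans ?_)
  have e1 : CH (cond F.p G True) (fun ω => F.D ⌊((g : ℚ) : ℝ) * J⌋₊ ω k)
      (fun ω => (F.D ⌊((0 : ℚ) : ℝ) * J⌋₊ ω, (F.X J ω, F.W ω))) ≤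
      CH (cond F.p G True) (fun ω => F.D ⌊((g : ℚ) : ℝ) * J⌋₊ ω k)
      (fun ω => ptr F J ω) :=
    CH_mono_cond hl.nonneg fun ω ω' _ _ h => (Prod.ext_iff.mp h).2
  refine e1.trans (CH_mono_left hl.nonneg ?_)
  intro ω ω' _ _ h
  have h1 : ⌊((g : ℚ) : ℝ) * (J : ℝ)⌋₊ ≤ ⌊μ / 2 / 10 ^ 7 * (J : ℝ)⌋₊ :=
    Nat.floor_le_floor (mul_le_mul_of_nonneg_right hg2.le hJ)
  have h2 : F.D ⌊μ / 2 / 10 ^ 7 * (J : ℝ)⌋₊ ω k = F.D ⌊μ / 2 / 10 ^ 7 * (J : ℝ)⌋₊ ω' k :=
    (Prod.ext_iff.mp h).1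
  simp only
  rw [D_coarse F h1 k ω, D_coarse F h1 k ω', h2]

end Pool.D2N
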