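import Pool.Agent.H90.D2.Hia
import Pool.Agent.H90.D2.Hgq

/-!
# The hop cell: the geometry of all windows

`hf`, `hv`: the windows on one grid; the places `0` and `nd` are main windows. `WnD.deg`, `Dpw.deg`:
larger degrees. `hop_rec`: frames, balls, the label and its deep window, from finitely many windows
on one event.
-/

set_option autoImplicit false

namespace Pool.D2N

open Finset Real MvPolynomial
open Pool.Agent.H49.Ent Pool.Agent.H32.Dense Pool.STK Pool.KA Pool.KSAT Pool.K2S Pool.PB Pool.S6C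
open Pool.GEN Pool.CHT Pool.CHX Pool.LA91
open Pool.LBT (ThrOf)
open Pool.D2F Pool.D2Z Pool.D2F2
open Pool.D2R (dd hs co co_slam ROutB ROut1 Wins WinB winb_star)
open Pool.F5 (NatH)
open Pool.ISO (Clsd)

variable {m J : ℕ}

/-- The index of the window at the place `i` of the grid. -/
def hf (nd i : ℕ) : ℕ := if i = 0 then 0 else if i = nd then 1 else i + 2

/-- The places of the windows. -/
def hv (nd k : ℕ) : ℕ := if k = 0 then 0 else if k = 1 then nd else k - 2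

theorem hv_hf {nd : ℕ} (i : ℕ) : hv nd (hf nd i) = i := by
  unfold hf
  split_ifs with h1 h2
  · rw [h1]
    rfl
  · rw [h2]
    rfl
  · unfold hv
    rw [if_neg (by omega), if_neg (by omega)]
    omega

theorem hf_le {nd i n : ℕ} (h : i ≤ n) : hf nd i ≤ n + 2 := by
  unfold hf
  split_ifs <;> omega

theorem hf_zero (nd : ℕ) : hf nd 0 = 0 := rfl

theorem hf_nd {nd : ℕ} (h : nd ≠ 0) : hf nd nd = 1 := by
  unfold hf
  rw [if_neg h, if_pos rfl]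

theorem hv_le {nd k n : ℕ} (h : nd ≤ n) (hk : k ≤ n + 2) : hv nd k ≤ n := by
  unfold hv
  split_ifs <;> omega

/-- Larger degrees. -/
theorem WnD.deg {F : Fam m J} {c : ℕ → Fin m} {D D' a x e : ℕ} {g : ℕ → ℕ} {B : F.Ω → Prop}
    {ψ : PtT F → ℕ → Option (Fin m) → ℝ} {ψH : LnT F → ℕ → Option (Fin m) → ℝ}
    {Sv : PtT F → ℕ → Option (Fin m) → ℝ}
    {G : PtT F → ℕ → MvPolynomial (Option (Fin m)) ℝ}
    {H : LnT F → ℕ → MvPolynomial (Option (Fin m)) ℝ} (h : WnD F c D a x e g B ψ ψH Sv G H)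
    (hD : D ≤ D') : WnD F c D' a x e g B ψ ψH Sv G H :=
  ⟨h.bl, h.ch.mono le_rfl (fun _ => hD) le_rfl le_rfl, h.cl, h.vel⟩

/-- Larger degrees. -/
theorem Dpw.deg {F : Fam m J} {c : ℕ → Fin m} {D D' w a v v' e X p : ℕ} {g gT : ℕ → ℕ} {U : ℝ}
    {B : F.Ω → Prop} {G : PtT F → ℕ → MvPolynomial (Option (Fin m)) ℝ}
    {H : LnT F → ℕ → MvPolynomial (Option (Fin m)) ℝ}
    {T : PtT F → ℕ → MvPolynomial (Option (Fin m)) ℝ}
    {TH : LnT F → ℕ → MvPolynomial (Option (Fin m)) ℝ}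
    {Ht : LnT F → MvPolynomial (Option (Fin m)) ℝ}
    {Sv : PtT F → ℕ → Option (Fin m) → ℝ}
    (h : Dpw F c D w a v v' e X p g gT U B G H T TH Ht Sv) (hD : D ≤ D') :
    Dpw F c D' w a v v' e X p g gT U B G H T TH Ht Sv :=
  ⟨h.aJ, h.ch.mono le_rfl (fun _ => hD) le_rfl le_rfl, h.row, h.U0, h.Uk, h.vv, h.gv, h.rg, h.pr,
    h.dep, h.nr, h.nat⟩

/-- **The data of all windows** of the hop cell on one event: the windows `t + i δ q`, `i ≤ nd`. -/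
structure HopD (F : Fam m J) (c : ℕ → Fin m) (D nd x e₀ : ℕ) (win : ℕ → ℕ) (B : F.Ω → Prop)
    (g : ℕ → ℕ → ℕ) (ψ : ℕ → PtT F → ℕ → Option (Fin m) → ℝ)
    (ψH : ℕ → LnT F → ℕ → Option (Fin m) → ℝ) (Sv : PtT F → ℕ → Option (Fin m) → ℝ)
    (G : ℕ → PtT F → ℕ → MvPolynomial (Option (Fin m)) ℝ)
    (H : ℕ → LnT F → ℕ → MvPolynomial (Option (Fin m)) ℝ)
    (Ht : LnT F → MvPolynomial (Option (Fin m)) ℝ) : Prop where
  wn : ∀ i ≤ nd, WnD F c D (win i) x e₀ (g i) B (ψ i) (ψH i) Sv (G i) (H i)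
  hQ : ∀ s, DepC c 3 (Ht s)
  hD : ∀ s, (Ht s).totalDegree ≤ D
  hM : ∀ ω, B ω → ∀ i < 3, ∀ j, |(gq F c (g 0) (win 0) 0 (ψH 0) Ht (slam F (win 0) ω) i).coeff
    (j + 1)| ≤ 2 ^ x / 2 ^ g 0 3 * 2 ^ g 0 i
  dp : ∃ (v v' e' p : ℕ) (gT : ℕ → ℕ) (U : ℝ) (T : PtT F → ℕ → MvPolynomial (Option (Fin m)) ℝ)
    (TH : LnT F → ℕ → MvPolynomial (Option (Fin m)) ℝ),
    Dpw F c D (win 0) (win nd) v v' e' x p (g nd) gT U B (G nd) (H nd) T TH Ht Sv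

/-- The numbers of the grid: `Cg`, `Cs` the constants of the frames and of the stars, `υ₁`, `ζ₁`,
`y₁`, `ε₀` the losses, `1 / nd` the mesh, `j₁`, `n₀` two steps. -/
structure RcN (Cw CB κ y : ℝ) (Cg Cs : ℕ) (υ₁ ζ₁ y₁ ε₀ : ℝ) (nd j₁ n₀ : ℕ) : Prop where
  υ0 : 0 < υ₁
  ζ0 : 0 < ζ₁
  y0 : 0 < y₁
  ε0 : 0 < ε₀
  n0 : 0 < nd
  w1 : 1 ≤ Cw
  b1 : 1 ≤ CB
  g1 : (1 : ℝ) ≤ Cg
  s1 : (1 : ℝ) ≤ Cs
  k1 : 1 < κ
  gg : Cg * (ζ₁ + υ₁) ≤ y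
  gz : 16 * (Cg * ζ₁) ≤ υ₁
  υy : 2 * υ₁ ≤ y
  y8 : 8 * y ≤ 1
  wy : 8 * (Cw * y₁) ≤ ζ₁
  bs : 8 * (Cs * (CB * y₁)) ≤ ζ₁
  we : 8 * (Cw * ε₀) ≤ y₁
  e8 : 8 * ε₀ ≤ y₁
  se : 64 * (Cs * ε₀) ≤ ζ₁
  yz : 8 * y₁ ≤ ζ₁
  d1 : 16 * (Cs * ((κ + 1) * (1 / nd))) ≤ ζ₁
  j1 : Cg * ζ₁ + 4 * ε₀ ≤ (κ - 1) * (j₁ * (1 / nd))
  j2 : (κ - 1) * (j₁ * (1 / nd)) + Cg * ζ₁ + 4 * ε₀ ≤ υ₁
  m1 : Cg * (ζ₁ + υ₁) + 4 * ε₀ ≤ (κ - 1) * (n₀ * (1 / nd))
  jn : j₁ + n₀ ≤ nd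

/-- The numbers of the grid exist. -/
theorem rcn_ex {Cw CB κ y : ℝ} {Cg Cs : ℕ} (hCg : 1 ≤ Cg) (hCs : 1 ≤ Cs) (hCw : 1 ≤ Cw)
    (hCB : 1 ≤ CB) (hκ : 1 < κ) (hy : 0 < y) (hy1 : 8 * y ≤ 1) (hy2 : 8 * y ≤ κ - 1) (N₀ : ℕ) :
    ∃ (υ₁ ζ₁ y₁ ε₀ : ℝ) (nd j₁ n₀ : ℕ), N₀ ≤ nd ∧ RcN Cw CB κ y Cg Cs υ₁ ζ₁ y₁ ε₀ nd j₁ n₀ := by
  have hCgR : (1 : ℝ) ≤ Cg := by exact_mod_cast hCg
  have hCsR : (1 : ℝ) ≤ Cs := by exact_mod_cast hCs
  obtain ⟨β, hβ⟩ : ∃ β : ℝ, β = κ - 1 := ⟨_, rfl⟩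
  have hβ0 : 0 < β := by rw [hβ]; linarith
  rw [← hβ] at hy2
  obtain ⟨υ₁, hυ₁⟩ : ∃ υ₁ : ℝ, υ₁ = y / (2 * Cg) := ⟨_, rfl⟩
  have hυ0 : 0 < υ₁ := by rw [hυ₁]; positivity
  have hυy : Cg * υ₁ = y / 2 := by rw [hυ₁]; field_simp
  obtain ⟨ζ₁, hζ₁⟩ : ∃ ζ₁ : ℝ, ζ₁ = υ₁ / (16 * (Cg * Cs)) := ⟨_, rfl⟩
  have hζ0 : 0 < ζ₁ := by rw [hζ₁]; positivity
  have hζυ : 16 * (Cg * (Cs * ζ₁)) = υ₁ := by rw [hζ₁]; field_simp
  obtain ⟨y₁, hy₁⟩ : ∃ y₁ : ℝ, y₁ = ζ₁ / (8 * (Cs * (Cw * CB))) := ⟨_, rfl⟩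
  have hCw0 : 0 < Cw := by linarith
  have hCB0 : 0 < CB := by linarith
  have hy₁0 : 0 < y₁ := by rw [hy₁]; positivity
  have hy₁ζ : 8 * (Cs * (Cw * (CB * y₁))) = ζ₁ := by rw [hy₁]; field_simp
  obtain ⟨ε₀, hε₀⟩ : ∃ ε₀ : ℝ, ε₀ = y₁ / (8 * Cw) := ⟨_, rfl⟩
  have hε00 : 0 < ε₀ := by rw [hε₀]; positivity
  have hε₀y : 8 * (Cw * ε₀) = y₁ := by rw [hε₀]; field_simp
  -- comparisons
  have c1 : ζ₁ ≤ Cs * ζ₁ := le_mul_of_one_le_left hζ0.le hCsR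
  have c2 : Cs * ζ₁ ≤ Cg * (Cs * ζ₁) := le_mul_of_one_le_left (by positivity) hCgR
  have c3 : Cg * ζ₁ ≤ Cg * (Cs * ζ₁) := mul_le_mul_of_nonneg_left c1 (by positivity)
  have c4 : υ₁ ≤ Cg * υ₁ := le_mul_of_one_le_left hυ0.le hCgR
  have c5 : y₁ ≤ CB * y₁ := le_mul_of_one_le_left hy₁0.le hCB
  have c6 : CB * y₁ ≤ Cw * (CB * y₁) := le_mul_of_one_le_left (by positivity) hCw
  have c7 : Cw * (CB * y₁) ≤ Cs * (Cw * (CB * y₁)) := le_mul_of_one_le_left (by positivity) hCsR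
  have c8 : Cw * y₁ ≤ Cw * (CB * y₁) := mul_le_mul_of_nonneg_left c5 (by positivity)
  have c9 : ε₀ ≤ Cw * ε₀ := le_mul_of_one_le_left hε00.le hCw
  have c10 : Cs * (CB * y₁) ≤ Cs * (Cw * (CB * y₁)) := mul_le_mul_of_nonneg_left c6 (by positivity)
  have hgg : (Cg : ℝ) * (ζ₁ + υ₁) ≤ y := by
    rw [mul_add]
    linarith
  obtain ⟨nd, hnd⟩ : ∃ nd : ℕ, (N₀ : ℝ) + (16 * (Cs * (κ + 1)) / ζ₁ + 4 * β / υ₁ + 8) ≤ nd :=
    exists_nat_ge _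
  have hz1 : 0 < 16 * (Cs * (κ + 1)) / ζ₁ := by positivity
  have hz2 : 0 < 4 * β / υ₁ := by positivity
  have hN0 : (0 : ℝ) ≤ N₀ := Nat.cast_nonneg _
  have hndR : (0 : ℝ) < nd := by linarith
  have hnd0 : 0 < nd := by exact_mod_cast hndR
  have hNnd : N₀ ≤ nd := by
    have : (N₀ : ℝ) ≤ nd := by linarith
    exact_mod_cast this
  have d1 : 16 * (Cs * (κ + 1)) / nd ≤ ζ₁ := by
    rw [div_le_iff₀ hndR, mul_comm ζ₁, ← div_le_iff₀ hζ0]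
    linarith
  have d2 : 4 * β / nd ≤ υ₁ := by
    rw [div_le_iff₀ hndR, mul_comm υ₁, ← div_le_iff₀ hυ0]
    linarith
  have d3 : 8 / nd ≤ (1 : ℝ) := by
    rw [div_le_iff₀ hndR]
    linarith
  obtain ⟨δ, hδ⟩ : ∃ δ : ℝ, δ = 1 / nd := ⟨_, rfl⟩
  have hδ0 : 0 < δ := by rw [hδ]; positivity
  have hδn : δ * nd = 1 := by rw [hδ]; field_simp
  have d1 : 16 * (Cs * ((κ + 1) * δ)) ≤ ζ₁ := by
    have e : 16 * (Cs * ((κ + 1) * δ)) = 16 * (Cs * (κ + 1)) / nd := by rw [hδ]; ring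
    rw [e]
    exact d1
  have d2 : 4 * (β * δ) ≤ υ₁ := by
    have e : 4 * (β * δ) = 4 * β / nd := by rw [hδ]; ring
    rw [e]
    exact d2
  have d3 : 8 * δ ≤ 1 := by
    have e : 8 * δ = 8 / nd := by rw [hδ]; ring
    rw [e]
    exact d3
  -- the two steps
  have hstp : ∀ v : ℝ, 0 ≤ v → ∃ j : ℕ, v ≤ β * (j * δ) ∧ β * (j * δ) ≤ v + β * δ := by
    intro v hv
    refine ⟨⌈v / (β * δ)⌉₊, ?_, ?_⟩
    · have h1 := Nat.le_ceil (v / (β * δ))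
      rw [div_le_iff₀ (by positivity)] at h1
      linarith
    · have h1 := (Nat.ceil_lt_add_one (show 0 ≤ v / (β * δ) by positivity)).le
      have h2 := mul_le_mul_of_nonneg_right h1 (show 0 ≤ β * δ by positivity)
      rw [add_mul, div_mul_cancel₀ _ (by positivity)] at h2
      linarith
  obtain ⟨j₁, hj1, hj2⟩ := hstp (Cg * ζ₁ + 4 * ε₀) (by positivity)
  obtain ⟨n₀, hn1, hn2⟩ := hstp (Cg * (ζ₁ + υ₁) + 4 * ε₀) (by positivity)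
  have hjn : j₁ + n₀ ≤ nd := by
    have h1 : β * ((j₁ + n₀ : ℕ) * δ) ≤ β := by
      push_cast
      have h2 : β * ((j₁ + n₀ : ℝ) * δ) = β * (j₁ * δ) + β * (n₀ * δ) := by ring
      rw [h2]
      have h3 : 8 * (β * δ) ≤ β := by
        have := mul_le_mul_of_nonneg_left d3 hβ0.le
        linarith
      linarith
    have h2 : ((j₁ + n₀ : ℕ) : ℝ) * δ ≤ 1 := by
      by_contra hcon
      push Not at hcon
      have := mul_lt_mul_of_pos_left hcon hβ0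
      linarith
    have h3 : ((j₁ + n₀ : ℕ) : ℝ) ≤ nd := by
      rw [hδ, mul_one_div, div_le_one hndR] at h2
      exact h2
    exact_mod_cast h3
  have e1 : Cs * ε₀ ≤ Cs * (Cw * ε₀) := mul_le_mul_of_nonneg_left c9 (by linarith)
  have e2 : Cs * y₁ ≤ Cs * (Cw * (CB * y₁)) := mul_le_mul_of_nonneg_left (c5.trans c6) (by linarith)
  have e3 : Cs * (8 * (Cw * ε₀)) = Cs * y₁ := by rw [hε₀y]
  refine ⟨υ₁, ζ₁, y₁, ε₀, nd, j₁, n₀, hNnd, hυ0, hζ0, hy₁0, hε00, hnd0, hCw, hCB, hCgR, hCsR, hκ, hgg,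
    by linarith, by linarith, hy1, by linarith, by linarith, by linarith, by linarith, by linarith,
    by linarith, ?_, ?_, ?_, ?_, hjn⟩
  · rw [← hδ]
    exact d1
  · rw [← hδ, ← hβ]
    exact hj1
  · rw [← hδ, ← hβ]
    linarith
  · rw [← hδ, ← hβ]
    exact hn1

/-- The levels of all windows are nearly linear, there is room, there are rational windows nearby. -/
structure RcL {m : ℕ} (P : List (Fin m) × Fin m → ℝ → ℝ → ℝ) (θ : ℝ) (c : ℕ → Fin m)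
    (L : ℕ → ℝ → ℝ → ℝ) (Sl : ℕ → ℝ) (κ t q A' Eb e ε : ℝ) (nd : ℕ) : Prop where
  s0 : Sl 0 = 1
  s1 : Sl 1 = κ
  s2 : Sl 2 = κ
  s3 : Sl 3 = κ + 1
  q0 : 0 < q
  qt : q ≤ t
  Eb0 : 0 ≤ Eb
  Ee : Eb + q ≤ e
  ε0 : 0 ≤ ε
  A3 : 3 ≤ A'
  Aκ : κ + 2 ≤ A'
  At : t + A' * q < 1
  eθ : ∀ x : ℝ, t ≤ x → x ≤ t + A' * q → e < θ * x
  lv : ∀ l ≤ 3, ∀ i ≤ 2 * nd, |L l (t + i / nd * q) (t + i / nd * q) - L l t t -
    Sl l * (i / nd * q)| ≤ ε * q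
  lo : ∀ l ≤ 3, ∀ i ≤ 2 * nd, t + i / nd * q ≤ L l (t + i / nd * q) (t + i / nd * q) ∧
    L l (t + i / nd * q) (t + i / nd * q) + Eb + q ≤ 1
  rat : ∀ i ≤ 2 * nd, ∀ e' : ℝ, 0 < e' → ∃ W : ℚ, t + i / nd * q ≤ W ∧ (W : ℝ) ≤ t + A' * q ∧
    ∀ l ≤ 3, bet P c l W W ≤ L l (t + i / nd * q) (t + i / nd * q) + e'
  st : L 3 t t + 2 * A' * q - q / 4 ≤ L 3 (t + A' * q) t

section rec

variable {Cw CB κ y : ℝ} {Cg Cs : ℕ} {υ₁ ζ₁ y₁ ε₀ : ℝ} {nd j₁ n₀ : ℕ}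
  {P : List (Fin m) × Fin m → ℝ → ℝ → ℝ} {θ : ℝ} {c : ℕ → Fin m}
  {L : ℕ → ℝ → ℝ → ℝ} {Sl : ℕ → ℝ} {t q A' Eb e ε : ℝ}

theorem RcL.hlv
    (R : RcL P θ c L Sl κ t q A' Eb e ε nd) {l : ℕ} (hl : l ≤ 3) {i : ℕ} (hi : i ≤ 2 * nd) :
    L l t t + Sl l * (i / nd * q) - ε * q ≤
      L l (t + i / nd * q) (t + i / nd * q) ∧ L l (t + i / nd * q) (t + i / nd * q) ≤
      L l t t + Sl l * (i / nd * q) + ε * q := by
  have := abs_le.1 (R.lv l hl i hi)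
  constructor <;> linarith


/-- The conclusion of the frames. -/
def RcG (D : ℕ) (Cw CB Eb y₁ q A' t ε : ℝ) (Cg len nd : ℕ) (ζ₁ υ₁ κ₀ κ' : ℝ)
    (c : ℕ → Fin m) (L : ℕ → ℝ → ℝ → ℝ) : Stat m := fun J F A =>
  ∀ (z : ℕ → ℕ → ℕ) (κ : ℝ) (b : ℕ → ℕ → ℝ)
      (B : F.Ω → Prop) (gc gT g₀ : ℕ → ℕ → ℕ)
      (G : ℕ → PtT F → ℕ → MvPolynomial (Option (Fin m)) ℝ)
      (H : ℕ → LnT F → ℕ → MvPolynomial (Option (Fin m)) ℝ)
      (T : ℕ → PtT F → ℕ → MvPolynomial (Option (Fin m)) ℝ)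
      (TH : ℕ → LnT F → ℕ → MvPolynomial (Option (Fin m)) ℝ)
      (Gt : ℕ → PtT F → MvPolynomial (Option (Fin m)) ℝ)
      (Ht : ℕ → LnT F → MvPolynomial (Option (Fin m)) ℝ)
      (Sv : PtT F → ℕ → Option (Fin m) → ℝ) (B₁ : F.Ω → Prop),
      Wins F c 3 D D 1 0 (fun _ => True) Cw (t + A' * q) Eb (y₁ * q)
          (fun k => t + (hv nd k : ℝ) / nd * q) (fun _ => 3 * ε * q)
          (fun k => L 3 (t + A' * q) (t + (hv nd k : ℝ) / nd * q) - 2 * (Cw * (y₁ * q)))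
          (fun _ => y₁ * q) (fun _ => y₁ * q)
          (fun k l => L l (t + (hv nd k : ℝ) / nd * q) (t + (hv nd k : ℝ) / nd * q))
          (fun k l => L l (t + A' * q) (t + (hv nd k : ℝ) / nd * q)) b κ z B gc gT g₀ G H T TH
          Gt Ht →
      WinB F c 3 D D (2 * nd + 2) 0 CB (t + A' * q) Eb (y₁ * q)
          (fun k => t + (hv nd k : ℝ) / nd * q) (fun _ => y₁ * q) (fun _ => y₁ * q)
          (fun k l => L l (t + (hv nd k : ℝ) / nd * q) (t + (hv nd k : ℝ) / nd * q)) b κ z B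
          g₀ G H →
      κ ≤ κ' → Sub B A → Sub B₁ B → κ₀ * Pe F.p A ≤ Pe F.p B₁ → (∀ y l, CvC c l (Sv y l)) →
      (∀ ω, B₁ ω → ∀ i ≤ 2 * nd, Nc c (g₀ (hf nd i)) ⌊(t + i / nd * q) * J⌋₊ 4
        (2 ^ ⌊ζ₁ * q * J⌋₊) (Sv (ptr F J ω))
        (fun l => grd (G (hf nd i) (ptr F J ω) l) (bt F ω))) →
      ∃ (B' : F.Ω → Prop) (ψ : ℕ → PtT F → ℕ → Option (Fin m) → ℝ)
        (ψH : ℕ → LnT F → ℕ → Option (Fin m) → ℝ), Sub B' B₁ ∧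
        Pe F.p B₁ ≤ 2 * (Cg : ℝ) ^ len * Pe F.p B' ∧
        (∀ i ≤ nd, WFr F c 4 ⌊(t + i / nd * q) * J⌋₊ ⌊Cg * (ζ₁ * q + υ₁ * q) * J⌋₊
          (⌊(Eb + 2 * (y₁ * q)) * J⌋₊ + ⌊Cg * (ζ₁ * q + υ₁ * q) * J⌋₊) (g₀ (hf nd i)) B'
          (ψ (hf nd i)) (ψH (hf nd i)) Sv) ∧
        (∀ i ≤ nd, ∀ l ≤ 3, NatH F c ⌊(t + i / nd * q) * J⌋₊ (g₀ (hf nd i)) B' (G (hf nd i))
          ⌊Cg * (ζ₁ * q + υ₁ * q) * J⌋₊ l) ∧
        (∀ i ≤ nd, ROutB F c 3 ⌊(t + i / nd * q) * J⌋₊ ⌊Cg * (ζ₁ * q + υ₁ * q) * J⌋₊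
          (g₀ (hf nd i)) B' (G (hf nd i)) (H (hf nd i))) ∧
        (∀ ω, B' ω → ∀ i < 3, ∀ j, |(gq F c (g₀ (hf nd 0)) ⌊(t + ((0 : ℕ) : ℝ) / nd * q) * J⌋₊ 0
          (ψH (hf nd 0)) (Ht (hf nd 0)) (slam F ⌊(t + ((0 : ℕ) : ℝ) / nd * q) * J⌋₊ ω) i).coeff
          (j + 1)| ≤ 2 ^ ⌊Cg * (ζ₁ * q + υ₁ * q) * J⌋₊ / 2 ^ g₀ (hf nd 0) 3 *
            2 ^ g₀ (hf nd 0) i) ∧
        ∃ (v v' e p : ℕ) (U : ℝ), Dpw F c D ⌊(t + ((0 : ℕ) : ℝ) / nd * q) * J⌋₊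
          ⌊(t + (nd : ℝ) / nd * q) * J⌋₊ v v' e ⌊Cg * (ζ₁ * q + υ₁ * q) * J⌋₊ p
          (g₀ (hf nd nd)) (gT (hf nd nd)) U B' (G (hf nd nd)) (H (hf nd nd)) (T (hf nd nd))
          (TH (hf nd nd)) (Ht (hf nd 0)) Sv

end rec

/-- **The frames of all windows.** -/
theorem rec_geo (m D : ℕ) (hD : 1 ≤ D) : ∃ Cg : ℕ, 1 ≤ Cg ∧ ∀ {Cw CB κ y : ℝ} {Cs : ℕ}
    {υ₁ ζ₁ y₁ ε₀ : ℝ} {nd j₁ n₀ : ℕ} {P : List (Fin m) × Fin m → ℝ → ℝ → ℝ} {θ : ℝ}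
    {c : ℕ → Fin m} {L : ℕ → ℝ → ℝ → ℝ} {Sl : ℕ → ℝ} {t q A' Eb e ε : ℝ},
    RcN Cw CB κ y Cg Cs υ₁ ζ₁ y₁ ε₀ nd j₁ n₀ → RcL P θ c L Sl κ t q A' Eb e ε nd → ε ≤ ε₀ →
    ∀ {S : PCl m}, ThrOf (chsys m θ) S P → TmH S → Set.InjOn c (Set.Iio 4) →
    ∀ {κ₀ : ℝ}, 0 < κ₀ → ∃ (len : ℕ) (κ' : ℝ), 0 < κ' ∧
      Bas S (RcG D Cw CB Eb y₁ q A' t ε Cg len nd ζ₁ υ₁ κ₀ κ' c L) := by
  obtain ⟨Cg, hCg, hgeo⟩ := hop_geob m D hD
  have hCgR : (1 : ℝ) ≤ Cg := by exact_mod_cast hCg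
  refine ⟨Cg, hCg, ?_⟩
  intro Cw CB κ y Cs υ₁ ζ₁ y₁ ε₀ nd j₁ n₀ P θ c L Sl t q A' Eb e ε N R hεε S hP hT hc κ₀ hκ₀
  have hn0 := N.n0
  have hndR : (0 : ℝ) < nd := by exact_mod_cast hn0
  have hjn := N.jn
  obtain ⟨δ, hδ⟩ : ∃ δ : ℝ, δ = 1 / nd := ⟨_, rfl⟩
  have hδ0 : 0 < δ := by rw [hδ]; positivity
  have hj1 := N.j1
  have hj2 := N.j2
  have hn1 := N.m1
  obtain ⟨β, hβ⟩ : ∃ β : ℝ, β = κ - 1 := ⟨_, rfl⟩
  have hκ := N.k1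
  have hβ0 : 0 < β := by rw [hβ]; linarith
  rw [← hδ, ← hβ] at hj1 hj2 hn1
  obtain ⟨s0, s1, s2, s3, hq, hqt, hEb, hEe, hε, hA3, hAκ, hAt, hθ, hL, hlo, hW, hst⟩ := R
  have hζ0 := N.ζ0
  have hυ0 := N.υ0
  have hy₁0 := N.y0
  have hε00 := N.ε0
  have hgg := N.gg
  have hy1 := N.y8
  have n1 := N.wy
  have n2 := N.bs
  have n3 := N.we
  have n4 := N.e8
  have n5 := N.yz
  have n6 := N.υy
  have n7 := N.gz
  have hCw := N.w1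
  have hCB := N.b1
  have hCs := N.s1
  have n8 : CB * y₁ ≤ Cs * (CB * y₁) := le_mul_of_one_le_left (by positivity) hCs
  have n9 : ζ₁ ≤ Cg * ζ₁ := le_mul_of_one_le_left hζ0.le hCgR
  have n10 : y₁ ≤ Cw * y₁ := le_mul_of_one_le_left hy₁0.le hCw
  have mq : ∀ {a b : ℝ}, a ≤ b → a * q ≤ b * q := fun h => mul_le_mul_of_nonneg_right h hq.le
  have hζq : 0 < ζ₁ * q := by positivity
  have hpl : ∀ {i n : ℕ}, i ≤ n * nd → (i : ℝ) / nd ≤ n := fun {i n} h => by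
    rw [div_le_iff₀ hndR]
    exact_mod_cast h
  have hp0 : ∀ i : ℕ, 0 ≤ (i : ℝ) / nd * q := fun i => by positivity
  have hp2 : ∀ i ≤ 2 * nd, (i : ℝ) / nd * q ≤ 2 * q := fun i hi => by
    have := mq (hpl (n := 2) hi)
    push_cast at this
    exact this
  have hlv : ∀ l ≤ 3, ∀ i ≤ 2 * nd, L l t t + Sl l * (i / nd * q) - ε * q ≤
      L l (t + i / nd * q) (t + i / nd * q) ∧ L l (t + i / nd * q) (t + i / nd * q) ≤
      L l t t + Sl l * (i / nd * q) + ε * q := fun l hl i hi => by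
    have := abs_le.1 (hL l hl i hi)
    constructor <;> linarith
  have hdv : ∀ {i j : ℕ}, ((i + j : ℕ) : ℝ) / nd * q = i / nd * q + j * δ * q := fun {i j} => by
    push_cast
    rw [hδ]
    ring
  have hεq : ε * q ≤ ε₀ * q := mq hεε
  have hεq0 : 0 ≤ ε * q := by positivity
  have hL3m : ∀ {n k : ℕ}, k ∈ (List.range n).map (hf nd) ↔ ∃ i < n, hf nd i = k := fun {n k} => by
    simp [List.mem_map, List.mem_range]
  -- the rational windows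
  have hWex : ∀ i : ℕ, ∃ W : ℚ, i ≤ 2 * nd → t + i / nd * q ≤ W ∧ (W : ℝ) ≤ t + A' * q ∧
      ∀ l ≤ 3, bet P c l W W ≤ L l (t + i / nd * q) (t + i / nd * q) + ζ₁ * q := fun i => by
    by_cases hi : i ≤ 2 * nd
    · obtain ⟨W, hW⟩ := hW i hi (ζ₁ * q) hζq
      exact ⟨W, fun _ => hW⟩
    · exact ⟨0, fun h => absurd h hi⟩
  choose W hW' using hWex
  have hqζ : Cg * (ζ₁ * q + υ₁ * q) ≤ y * q := by
    have := mq hgg
    linarith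
  have hyq : y * q ≤ q / 8 := by
    have := mq (show y ≤ 1 / 8 by linarith)
    linarith
  obtain ⟨κ', hκ', hb⟩ := hgeo (R := fun _ => True) (Cw := Cw) (CB := CB) (a := t + A' * q)
    (Eb := Eb) (ηm := y₁ * q) (ζ := ζ₁ * q) (υ := υ₁ * q) (e := e) (h := ζ₁ * q) (κ₀ := κ₀)
    (o := fun k => t + (hv nd k : ℝ) / nd * q) (ε := fun _ => 3 * ε * q)
    (p' := fun k => L 3 (t + A' * q) (t + (hv nd k : ℝ) / nd * q) - 2 * (Cw * (y₁ * q)))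
    (η := fun _ => y₁ * q) (σ := fun _ => y₁ * q)
    (lv := fun k l => L l (t + (hv nd k : ℝ) / nd * q) (t + (hv nd k : ℝ) / nd * q))
    (be := fun k l => L l (t + A' * q) (t + (hv nd k : ℝ) / nd * q)) (Dr := D) (N₁ := 1)
    (N₂ := 2 * nd + 2) (M := 0) (k₀ := hf nd 0) (kd := hf nd nd) (fun k => W (hv nd k))
    ((List.range (2 * nd + 1)).map (hf nd)) ((List.range (nd + j₁ + n₀ + 1)).map (hf nd))
    ((List.range (nd + j₁ + 1)).map (hf nd)) ((List.range (nd + 1)).map (hf nd))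
    (fun k => hf nd (hv nd k + n₀)) (fun k => hf nd (hv nd k + j₁)) hP hT hc le_rfl
    (fun _ _ => trivial) hζq le_rfl (by positivity) hκ₀
    (by
      have h1 := mq (show Cw * y₁ ≤ ζ₁ by linarith)
      linarith)
    (by
      have h1 := mq (show CB * y₁ ≤ ζ₁ by linarith)
      linarith)
    (by linarith)
    (fun k hk => by
      obtain ⟨i, hi, rfl⟩ := hL3m.1 hk
      exact hf_le (by omega))
    (fun k hk => by
      obtain ⟨i, hi, rfl⟩ := hL3m.1 hk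
      rw [hv_hf]
      refine ⟨hL3m.2 ⟨i, by omega, rfl⟩, ?_, fun l hl => ?_⟩
      · have := hlo 0 (by norm_num) i (by omega)
        linarith
      · have := hlo l hl i (by omega)
        have := hp0 i
        constructor <;> linarith)
    (fun k hk => by
      obtain ⟨i, hi, rfl⟩ := hL3m.1 hk
      rw [hv_hf]
      obtain ⟨w1, w2, w3⟩ := hW' i (by omega)
      have h0 := hp0 i
      exact ⟨hL3m.2 ⟨i, by omega, rfl⟩, w1, by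
        have : (0 : ℝ) ≤ W i := by linarith
        exact_mod_cast this, by
        have : (W i : ℝ) < 1 := by linarith
        exact_mod_cast this, hθ _ (by linarith) w2⟩)
    (fun k hk l hl => by
      obtain ⟨i, hi, rfl⟩ := hL3m.1 hk
      beta_reduce
      rw [hv_hf]
      obtain ⟨w1, w2, w3⟩ := hW' i (by omega)
      have h1 := w3 l (by omega)
      have h2 := hlo l (by omega) i (by omega)
      have h3 : 2 * (ζ₁ * q) ≤ q := by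
        have := mq (show 2 * ζ₁ ≤ 1 by linarith)
        linarith
      exact ⟨by linarith, h1⟩)
    (fun k hk l h1 h2 => by
      obtain ⟨i, hi, rfl⟩ := hL3m.1 hk
      beta_reduce
      rw [hv_hf, hv_hf]
      refine ⟨hL3m.2 ⟨i + n₀, by omega, rfl⟩, ?_⟩
      have a1 := (hlv l (by omega) i (by omega)).2
      have a2 := (hlv l (by omega) (i + n₀) (by omega)).1
      rw [hdv] at a2 ⊢
      have e1 : Sl l = β + 1 := by
        rw [hβ]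
        interval_cases l
        · linarith
        · linarith
      rw [e1] at a1 a2
      have a3 := mq hn1
      linarith)
    (fun k hk => by
      obtain ⟨i, hi, rfl⟩ := hL3m.1 hk
      beta_reduce
      rw [hv_hf, hv_hf]
      refine ⟨hL3m.2 ⟨i, by omega, rfl⟩, hL3m.2 ⟨i + j₁, by omega, rfl⟩, ?_, ?_, fun l hl => ?_⟩
      · rw [hdv]
        have : 0 ≤ (j₁ : ℝ) * δ * q := by positivity
        linarith
      · have a1 := (hlv 0 (by omega) i (by omega)).2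
        have a2 := (hlv 0 (by omega) (i + j₁) (by omega)).1
        have a3 := (hlv 1 (by omega) i (by omega)).1
        have a4 := (hlv 1 (by omega) (i + j₁) (by omega)).2
        rw [hdv] at a2 a4 ⊢
        rw [s0] at a1 a2
        have e1 : Sl 1 = β + 1 := by rw [hβ]; linarith
        rw [e1] at a3 a4
        have a5 := mq hj2
        linarith
      · have a1 := (hlv 0 (by omega) i (by omega)).1
        have a2 := (hlv 0 (by omega) (i + j₁) (by omega)).2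
        have a3 := (hlv (l + 1) (by omega) i (by omega)).2
        have a4 := (hlv (l + 1) (by omega) (i + j₁) (by omega)).1
        rw [hdv] at a2 a4 ⊢
        rw [s0] at a1 a2
        have e1 : Sl (l + 1) = β + 1 := by
          rw [hβ]
          interval_cases l
          · show Sl 1 = _
            linarith
          · show Sl 2 = _
            linarith
        rw [e1] at a3 a4
        have a5 := mq hj1
        linarith)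
    (hL3m.2 ⟨0, by omega, rfl⟩) (by rw [hf_zero]; norm_num)
    (by
      beta_reduce
      rw [hv_hf]
      have e0 : t + ((0 : ℕ) : ℝ) / nd * q = t := by simp
      rw [e0]
      have h1 := mq (show Cw * y₁ ≤ 1 / 4 by linarith)
      have h2 := mq hA3
      linarith)
    (hL3m.2 ⟨nd, by omega, rfl⟩) (by rw [hf_nd (by omega)])
    (by
      beta_reduce
      rw [hv_hf, hv_hf]
      have e0 : t + ((0 : ℕ) : ℝ) / nd * q = t := by simp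
      rw [e0]
      have := hp0 nd
      linarith)
    (by
      beta_reduce
      rw [hv_hf, hv_hf]
      have e0 : t + ((0 : ℕ) : ℝ) / nd * q = t := by simp
      have e2 : (nd : ℝ) / nd * q = q := by field_simp
      have a1 := (hlv 3 le_rfl nd (by omega)).2
      rw [e2] at a1
      rw [e0, e2]
      rw [s3] at a1
      have h1 := mq (show Cw * y₁ ≤ 1 / 8 by linarith)
      have h2 := mq hAκ
      have h3 := mq (show ε₀ ≤ 1 / 8 by linarith)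
      linarith)
  refine ⟨((List.range (nd + j₁ + n₀ + 1)).map (hf nd)).length +
    ((List.range (nd + j₁ + 1)).map (hf nd)).length +
    2 * ((List.range (nd + 1)).map (hf nd)).length, κ', hκ', Bas.mono 0 hb ?_⟩
  intro J _ F A hJ z κ b B gc gT g₀ G H T TH Gt Ht Sv B₁ W1 W2 hκκ hBA hBB hPe hSv hNc
  obtain ⟨B', ψ, ψH, k1, k2, k3, k4, k5, k6, v, v', e', p, U, k7⟩ := hJ z κ b B gc gT g₀ G H T TH
    Gt Ht Sv B₁ W1 W2 hκκ hBA hBB hPe hSv (fun ω hω k hk => by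
      obtain ⟨i, hi, rfl⟩ := hL3m.1 hk
      rw [hv_hf]
      exact hNc ω hω i (by omega))
  refine ⟨B', ψ, ψH, k1, k2, fun i hi => ?_, fun i hi l hl => ?_, fun i hi => ?_, ?_, v, v', e', p,
    U, ?_⟩
  · have := k3 _ (hL3m.2 ⟨i, by omega, rfl⟩)
    rwa [hv_hf] at this
  · have := k4 _ (hL3m.2 ⟨i, by omega, rfl⟩) l hl
    rwa [hv_hf] at this
  · have := k5 _ (hL3m.2 ⟨i, by omega, rfl⟩)
    rwa [hv_hf] at this
  · rw [hv_hf] at k6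
    exact k6
  · rw [hv_hf, hv_hf] at k7
    exact k7

end Pool.D2N
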