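import Pool.Agent.H90.D2.Hib
import Pool.Agent.H23.D2.Bst

/-!
# The hop cell: the star and the geometry of all windows

`rec_star`: one visible star through all windows. `hop_rec`: everything on one event.
-/

set_option autoImplicit false

namespace Pool.D2N

open Finset Real MvPolynomial
open Pool.Agent.H49.Ent Pool.Agent.H32.Dense Pool.STK Pool.KA Pool.KSAT Pool.K2S Pool.PB Pool.S6C
open Pool.GEN Pool.CHT Pool.CHX Pool.LA91
open Pool.LBT (ThrOf)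
open Pool.D2F Pool.D2Z Pool.D2F2
open Pool.D2R (dd hs co co_slam ROutB ROut1 Wins WinB winb_star)
open Pool.F5 (NatH)
open Pool.ISO (Clsd)

/-- The lengths of the flights between neighbouring windows. -/
noncomputable def zg (nd : ℕ) (t q : ℝ) (J : ℕ) : ℕ → ℕ → ℕ := fun k _ =>
  ⌊(t + ((hv nd k + 1 : ℕ) : ℝ) / nd * q) * J⌋₊ - ⌊(t + (hv nd k : ℝ) / nd * q) * J⌋₊

/-- The flights are long, and short enough. -/
theorem zg_bd {nd : ℕ} (hnd : 0 < nd) {t q A' : ℝ} (hq : 0 < q) (ht : q ≤ t) (hA : 3 ≤ A') {J : ℕ}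
    (hJ : 2 * nd ≤ q * J) {k : ℕ} (hk : k ≤ 2 * nd + 2) (p : ℕ) :
    1 / (2 * nd) * q * J ≤ zg nd t q J k p ∧ zg nd t q J k p ≤
      ⌊(t + A' * q) * J⌋₊ - ⌊(t + (hv nd k : ℝ) / nd * q) * J⌋₊ := by
  have hndR : (0 : ℝ) < nd := by exact_mod_cast hnd
  have hvk : hv nd k ≤ 2 * nd := hv_le (by omega) hk
  have hJ0 : (0 : ℝ) ≤ J := Nat.cast_nonneg _
  have h5 : 0 ≤ q * J / nd := by positivity
  have h0 : 0 ≤ (t + (hv nd k : ℝ) / nd * q) * J := by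
    have : 0 ≤ (hv nd k : ℝ) / nd * q := by positivity
    have : 0 ≤ t + (hv nd k : ℝ) / nd * q := by linarith
    positivity
  have hsd : (t + ((hv nd k + 1 : ℕ) : ℝ) / nd * q) * J =
      (t + (hv nd k : ℝ) / nd * q) * J + q * J / nd := by
    push_cast
    ring
  have h1 : ⌊(t + (hv nd k : ℝ) / nd * q) * J⌋₊ ≤
      ⌊(t + ((hv nd k + 1 : ℕ) : ℝ) / nd * q) * J⌋₊ := Nat.floor_le_floor (by
    rw [hsd]
    linarith)
  unfold zg
  refine ⟨?_, ?_⟩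
  · rw [Nat.cast_sub h1]
    have h2 := Nat.floor_le h0
    have h3 := (Nat.lt_floor_add_one ((t + ((hv nd k + 1 : ℕ) : ℝ) / nd * q) * J)).le
    rw [hsd] at h3 ⊢
    have h4 : (2 : ℝ) ≤ q * J / nd := by
      rw [le_div_iff₀ hndR]
      exact hJ
    have h6 : 1 / (2 * (nd : ℝ)) * q * J = q * J / nd / 2 := by
      field_simp
    rw [h6]
    linarith
  · refine Nat.sub_le_sub_right (Nat.floor_le_floor (mul_le_mul_of_nonneg_right ?_ hJ0)) _
    have h7 : ((hv nd k + 1 : ℕ) : ℝ) / nd ≤ 3 := by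
      rw [div_le_iff₀ hndR]
      have : hv nd k + 1 ≤ 3 * nd := by omega
      exact_mod_cast this
    have := mul_le_mul_of_nonneg_right h7 hq.le
    have := mul_le_mul_of_nonneg_right hA hq.le
    linarith

/-- **One visible star** through all windows. -/
theorem rec_star (D : ℕ) : ∃ Cs : ℕ, 1 ≤ Cs ∧ ∀ {m : ℕ} {Cw CB κ y : ℝ} {Cg : ℕ}
    {υ₁ ζ₁ y₁ ε₀ : ℝ} {nd j₁ n₀ : ℕ} {P : List (Fin m) × Fin m → ℝ → ℝ → ℝ} {θ : ℝ}
    {c : ℕ → Fin m} {L : ℕ → ℝ → ℝ → ℝ} {Sl : ℕ → ℝ} {t q A' Eb e ε : ℝ},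
    RcN Cw CB κ y Cg Cs υ₁ ζ₁ y₁ ε₀ nd j₁ n₀ → RcL P θ c L Sl κ t q A' Eb e ε nd → ε ≤ ε₀ →
    Set.InjOn c (Set.Iio 4) → ∃ J₁ : ℕ, ∀ {J : ℕ}, J₁ ≤ J → ∀ {F : Fam m J} {κ' : ℝ}
    {b : ℕ → ℕ → ℝ} {B : F.Ω → Prop} {g₀ : ℕ → ℕ → ℕ}
    {G : ℕ → PtT F → ℕ → MvPolynomial (Option (Fin m)) ℝ}
    {H : ℕ → LnT F → ℕ → MvPolynomial (Option (Fin m)) ℝ},
    WinB F c 3 D D (2 * nd + 2) 0 CB (t + A' * q) Eb (y₁ * q)
      (fun k => t + (hv nd k : ℝ) / nd * q) (fun _ => y₁ * q) (fun _ => y₁ * q)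
      (fun k l => L l (t + (hv nd k : ℝ) / nd * q) (t + (hv nd k : ℝ) / nd * q)) b κ'
      (zg nd t q J) B g₀ G H →
    ∃ Sv : PtT F → ℕ → Option (Fin m) → ℝ, (∀ y l, CvC c l (Sv y l)) ∧ ∀ ω, B ω →
      ∀ i ≤ 2 * nd, Nc c (g₀ (hf nd i)) ⌊(t + i / nd * q) * J⌋₊ 4 (2 ^ ⌊ζ₁ * q * J⌋₊)
        (Sv (ptr F J ω)) (fun l => grd (G (hf nd i) (ptr F J ω) l) (bt F ω)) := by
  obtain ⟨Cs, hCs, hstar⟩ := winb_star D 3
  have hCsR : (1 : ℝ) ≤ Cs := by exact_mod_cast hCs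
  refine ⟨Cs, hCs, ?_⟩
  intro m Cw CB κ y Cg υ₁ ζ₁ y₁ ε₀ nd j₁ n₀ P θ c L Sl t q A' Eb e ε N R hεε hc
  have hn0 := N.n0
  have hndR : (0 : ℝ) < nd := by exact_mod_cast hn0
  have hn1R : (1 : ℝ) ≤ nd := by exact_mod_cast hn0
  obtain ⟨δ, hδ⟩ : ∃ δ : ℝ, δ = 1 / nd := ⟨_, rfl⟩
  have hδ0 : 0 < δ := by rw [hδ]; positivity
  have hd1 := N.d1
  have hκ := N.k1
  rw [← hδ] at hd1
  have hζ0 := N.ζ0
  have hυ0 := N.υ0
  have hy₁0 := N.y0
  have hε00 := N.ε0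
  have hy1 := N.y8
  have n2 := N.bs
  have n4 := N.e8
  have n5 := N.yz
  have n6 := N.υy
  have n7 := N.gz
  have hCB := N.b1
  have hse := N.se
  have n9 : ζ₁ ≤ Cg * ζ₁ := le_mul_of_one_le_left hζ0.le N.g1
  obtain ⟨s0, s1, s2, s3, hq, hqt, hEb, hEe, hε, hA3, hAκ, hAt, hθ, hL, hlo, hW, hst⟩ := R
  have mq : ∀ {a b : ℝ}, a ≤ b → a * q ≤ b * q := fun h => mul_le_mul_of_nonneg_right h hq.le
  have hlv : ∀ l ≤ 3, ∀ i ≤ 2 * nd, L l t t + Sl l * (i / nd * q) - ε * q ≤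
      L l (t + i / nd * q) (t + i / nd * q) ∧ L l (t + i / nd * q) (t + i / nd * q) ≤
      L l t t + Sl l * (i / nd * q) + ε * q := fun l hl i hi => by
    have := abs_le.1 (hL l hl i hi)
    constructor <;> linarith
  have hdv : ∀ {i j : ℕ}, ((i + j : ℕ) : ℝ) / nd * q = i / nd * q + j * δ * q := fun {i j} => by
    push_cast
    rw [hδ]
    ring
  have hεq : ε * q ≤ ε₀ * q := mq hεε
  have hCs0 : (0 : ℝ) < Cs := by linarith
  obtain ⟨J₁, hJ₁⟩ := exists_nat_ge ((2 * nd + 3 + 2) / (ζ₁ * q / (2 * Cs)))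
  refine ⟨J₁ + 1, ?_⟩
  intro J hJ F κ' b B g₀ G H W2
  have hJ0 : (0 : ℝ) < J := by
    have : 0 < J := by omega
    exact_mod_cast this
  have hJR : ((2 * nd + 3 + 2 : ℕ) : ℝ) ≤ ζ₁ * q * J / (2 * Cs) := by
    have h1 : (2 * nd + 3 + 2 : ℝ) / (ζ₁ * q / (2 * Cs)) ≤ J :=
      hJ₁.trans (by exact_mod_cast (show J₁ ≤ J by omega))
    rw [div_le_iff₀ (by positivity)] at h1
    push_cast
    refine h1.trans (le_of_eq ?_)
    ring
  push_cast at hJR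
  obtain ⟨Q, hQ⟩ : ∃ Q : ℝ, Q = q * J := ⟨_, rfl⟩
  have hQ0 : 0 < Q := by rw [hQ]; positivity
  have mJ : ∀ {a b : ℝ}, a ≤ b → a * J ≤ b * J := fun h => mul_le_mul_of_nonneg_right h hJ0.le
  have mQ : ∀ {a b : ℝ}, a ≤ b → a * Q ≤ b * Q := fun h => mul_le_mul_of_nonneg_right h hQ0.le
  have hZQ : 2 * nd + 3 + 2 ≤ ζ₁ * Q / (2 * Cs) := by
    rw [hQ, ← mul_assoc]
    exact hJR
  obtain ⟨Y, hY⟩ : ∃ Y : ℕ, Y = ⌊ζ₁ * Q / Cs⌋₊ := ⟨_, rfl⟩
  have hY1 : (Y : ℝ) ≤ ζ₁ * Q / Cs := by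
    rw [hY]
    exact Nat.floor_le (by positivity)
  have hY2 : ζ₁ * Q / (2 * Cs) ≤ Y := by
    have h1 := (Nat.lt_floor_add_one (ζ₁ * Q / Cs)).le
    rw [← hY] at h1
    have h2 : ζ₁ * Q / Cs = 2 * (ζ₁ * Q / (2 * Cs)) := by field_simp
    linarith
  have hYC : (Cs : ℝ) * Y ≤ ζ₁ * Q := by
    have := mul_le_mul_of_nonneg_left hY1 hCs0.le
    rwa [mul_div_cancel₀ _ hCs0.ne'] at this
  have hYn : 2 * nd + 3 ≤ Y := by
    have : ((2 * nd + 3 : ℕ) : ℝ) ≤ Y := by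
      push_cast
      linarith
    exact_mod_cast this
  have hεY : 4 * (ε₀ * q) * J ≤ Y := by
    have a5 : 2 * Cs * (4 * ε₀) ≤ ζ₁ := by linarith
    have a6 : 4 * (ε₀ * q) * J ≤ ζ₁ * Q / (2 * Cs) := by
      rw [le_div_iff₀ (by positivity), hQ]
      have := mul_le_mul_of_nonneg_right a5 (show 0 ≤ q * J by positivity)
      linarith
    linarith
  obtain ⟨Sv, hSv, hNc⟩ := hstar W2 (fun _ _ => True) (f := hf nd) (jj := fun _ => 0)
    (n := 2 * nd) (Y := Y) hc (fun k hk => hf_le hk) (fun k hk => by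
      refine ⟨le_rfl, ?_, ?_⟩
      · unfold zg
        rw [hv_hf, hv_hf]
      · beta_reduce
        rw [hv_hf, hv_hf, hdv, Nat.cast_one, one_mul]
        have : 0 ≤ δ * q := by positivity
        linarith)
    (by
      have h1 := mQ (show 2 * Cs * (CB * y₁) ≤ ζ₁ by linarith)
      have h2 : CB * (y₁ * q * J) ≤ ζ₁ * Q / (2 * Cs) := by
        rw [le_div_iff₀ (by positivity), hQ]
        rw [hQ] at h1
        linarith
      linarith)
    (by omega)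
    (by
      have h1 : ((2 * nd : ℕ) : ℝ) ≤ Y := by exact_mod_cast (show 2 * nd ≤ Y by omega)
      have h2 : (Y : ℝ) ≤ 2 ^ Y := by
        exact_mod_cast Nat.lt_two_pow_self.le
      linarith)
    (fun k hk l hl => by
      beta_reduce
      rw [hv_hf, hv_hf]
      have a1 := hlv l hl k (by omega)
      have a2 := hlv l hl (k + 1) (by omega)
      rw [hdv, Nat.cast_one, one_mul] at a2 ⊢
      have e1 : 0 ≤ Sl l ∧ Sl l ≤ κ + 1 := by
        interval_cases l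
        · rw [s0]; constructor <;> linarith
        · rw [s1]; constructor <;> linarith
        · rw [s2]; constructor <;> linarith
        · rw [s3]; constructor <;> linarith
      have a3 : Sl l * (δ * q) ≤ (κ + 1) * (δ * q) :=
        mul_le_mul_of_nonneg_right e1.2 (by positivity)
      have a4 : 0 ≤ Sl l * (δ * q) := mul_nonneg e1.1 (by positivity)
      have a5 : 2 * Cs * ((κ + 1) * δ + 2 * ε₀) ≤ ζ₁ := by linarith
      have a6 : ((κ + 1) * (δ * q) + 2 * (ε₀ * q)) * J ≤ ζ₁ * Q / (2 * Cs) := by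
        rw [le_div_iff₀ (by positivity), hQ]
        have := mul_le_mul_of_nonneg_right a5 (show 0 ≤ q * J by positivity)
        linarith
      constructor
      · have := mJ (show L l (t + (k / nd * q + δ * q))
            (t + (k / nd * q + δ * q)) - L l (t + k / nd * q) (t + k / nd * q) ≤
            (κ + 1) * (δ * q) + 2 * (ε₀ * q) by linarith [a1.1, a2.2])
        linarith
      · have := mJ (show L l (t + k / nd * q) (t + k / nd * q) -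
            L l (t + (k / nd * q + δ * q))
            (t + (k / nd * q + δ * q)) ≤
            (κ + 1) * (δ * q) + 2 * (ε₀ * q) by
          have : 0 ≤ (κ + 1) * (δ * q) := by positivity
          linarith [a1.2, a2.1])
        linarith)
    (fun k k' hkk hk' l hl _ => by
      beta_reduce
      rw [hv_hf, hv_hf]
      obtain ⟨j, rfl⟩ := Nat.exists_eq_add_of_le hkk
      have a1 := hlv l hl k (by omega)
      have a2 := hlv l hl (k + j) hk'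
      rw [hdv] at a2 ⊢
      have a4 : (j : ℝ) * δ * q ≤ Sl l * (j * δ * q) := by
        refine le_mul_of_one_le_left (by positivity) ?_
        interval_cases l
        · rw [s0]
        · rw [s1]; linarith
        · rw [s2]; linarith
        · rw [s3]; linarith
      have := mJ (show t + (k / nd * q + j * δ * q) - (t + k / nd * q) ≤
        L l (t + (k / nd * q + j * δ * q)) (t + (k / nd * q + j * δ * q)) -
          L l (t + k / nd * q) (t + k / nd * q) + 2 * (ε₀ * q) by linarith [a1.2, a2.1])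
      have a7 := hεY
      linarith)
    (fun _ _ _ _ _ _ h => absurd trivial h)
    (fun k k' hkk hk' l hl jj hjl _ => by
      beta_reduce
      rw [hv_hf, hv_hf]
      obtain ⟨j, rfl⟩ := Nat.exists_eq_add_of_le hkk
      have a1 := hlv l hl k (by omega)
      have a2 := hlv l hl (k + j) hk'
      have b1 := hlv jj (by omega) k (by omega)
      have b2 := hlv jj (by omega) (k + j) hk'
      rw [hdv] at a2 b2 ⊢
      have a4 : Sl jj * ((j : ℝ) * δ * q) ≤ Sl l * (j * δ * q) := by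
        refine mul_le_mul_of_nonneg_right ?_ (by positivity)
        interval_cases l
        · omega
        · interval_cases jj
          rw [s0, s1]
          linarith
        · interval_cases jj
          · rw [s0, s2]
            linarith
          · rw [s1, s2]
        · interval_cases jj
          · rw [s0, s3]
            linarith
          · rw [s1, s3]
            linarith
          · rw [s2, s3]
            linarith
      have := mJ (show L jj (t + (k / nd * q + j * δ * q)) (t + (k / nd * q + j * δ * q)) -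
          L jj (t + k / nd * q) (t + k / nd * q) ≤
        L l (t + (k / nd * q + j * δ * q)) (t + (k / nd * q + j * δ * q)) -
          L l (t + k / nd * q) (t + k / nd * q) + 4 * (ε₀ * q) by
        linarith [a1.2, a2.1, b1.1, b2.2])
      have a7 := hεY
      linarith)
    (fun _ _ _ _ _ _ _ _ h => absurd trivial h)
    (fun k hk l hl => by
      beta_reduce
      rw [hv_hf]
      have h1 := mJ (hlo l hl k (by omega)).2
      have h2 : ζ₁ * Q ≤ 1 * Q := mQ (by linarith)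
      rw [hQ] at h2 hYC
      linarith)
  refine ⟨Sv, hSv, fun ω hω i hi => ?_⟩
  have h1 := hNc ω hω i hi
  rw [hv_hf] at h1
  exact h1.mono (pow_le_pow_right₀ (by norm_num) (Nat.le_floor (by
    push_cast
    rw [hQ] at hYC
    linarith)))

/-- The windows of `RecQ.wins` on the grid. -/
def RcW {m : ℕ} (D : ℕ) (Cw CB Eb y₁ q A' t ε K₀ : ℝ) (nd : ℕ) (c : ℕ → Fin m)
    (L : ℕ → ℝ → ℝ → ℝ) (b : ℕ → ℕ → ℝ) (κ₀ : ℝ) : Stat m := fun J F A₀ =>
  ∀ z : ℕ → ℕ → ℕ, (∀ k ≤ 2 * nd + 2, ∀ p ≤ 0, 1 / (2 * nd) * q * J ≤ z k p ∧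
      z k p ≤ ⌊(t + A' * q) * J⌋₊ - ⌊(t + (hv nd k : ℝ) / nd * q) * J⌋₊) →
    ∃ (B : F.Ω → Prop) (gc gT g₀ : ℕ → ℕ → ℕ)
      (G : ℕ → PtT F → ℕ → MvPolynomial (Option (Fin m)) ℝ)
      (H : ℕ → LnT F → ℕ → MvPolynomial (Option (Fin m)) ℝ)
      (Th : ℕ → PtT F → ℕ → MvPolynomial (Option (Fin m)) ℝ)
      (TH : ℕ → LnT F → ℕ → MvPolynomial (Option (Fin m)) ℝ)
      (Gt : ℕ → PtT F → MvPolynomial (Option (Fin m)) ℝ)
      (Ht : ℕ → LnT F → MvPolynomial (Option (Fin m)) ℝ), Sub B A₀ ∧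
      Pe F.p A₀ ≤ K₀ * Pe F.p B ∧
      Wins F c 3 D D 1 0 (fun _ => True) Cw (t + A' * q) Eb (y₁ * q)
        (fun k => t + (hv nd k : ℝ) / nd * q) (fun _ => 3 * ε * q)
        (fun k => L 3 (t + A' * q) (t + (hv nd k : ℝ) / nd * q) - 2 * (Cw * (y₁ * q)))
        (fun _ => y₁ * q) (fun _ => y₁ * q)
        (fun k l => L l (t + (hv nd k : ℝ) / nd * q) (t + (hv nd k : ℝ) / nd * q))
        (fun k l => L l (t + A' * q) (t + (hv nd k : ℝ) / nd * q)) b κ₀ z B gc gT g₀ G H Th TH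
        Gt Ht ∧
      WinB F c 3 D D (2 * nd + 2) 0 CB (t + A' * q) Eb (y₁ * q)
        (fun k => t + (hv nd k : ℝ) / nd * q) (fun _ => y₁ * q) (fun _ => y₁ * q)
        (fun k l => L l (t + (hv nd k : ℝ) / nd * q) (t + (hv nd k : ℝ) / nd * q)) b κ₀ z B
        g₀ G H

/-- **The geometry of all windows.** `y`: the loss, in units of `q`. -/
theorem hop_rec (m D : ℕ) (hD : 1 ≤ D) {Cw CB κ y : ℝ} (hCw : 1 ≤ Cw) (hCB : 1 ≤ CB)
    (hκ : 1 < κ) (hy : 0 < y) (hy1 : 8 * y ≤ 1) (hy2 : 8 * y ≤ κ - 1) (N₀ : ℕ) :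
    ∃ (nd : ℕ) (y₁ ε₀ : ℝ), N₀ ≤ nd ∧ 0 < nd ∧ 0 < y₁ ∧ y₁ ≤ y ∧ 4 * (Cw * y₁) ≤ 1 ∧ 0 < ε₀ ∧
    4 * (Cw * ε₀) ≤ y₁ ∧ ∀ {S : PCl m} {P : List (Fin m) × Fin m → ℝ → ℝ → ℝ} {θ : ℝ}
    {c : ℕ → Fin m} {L : ℕ → ℝ → ℝ → ℝ} {Sl : ℕ → ℝ} {t q A' Eb e ε K₀ : ℝ} {b : ℕ → ℕ → ℝ},
    RcL P θ c L Sl κ t q A' Eb e ε nd → ε ≤ ε₀ → ThrOf (chsys m θ) S P → TmH S →
    Set.InjOn c (Set.Iio 4) → 0 < K₀ →
    (∀ κ₀ : ℝ, 0 < κ₀ → Bas S (RcW D Cw CB Eb y₁ q A' t ε K₀ nd c L b κ₀)) →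
    ∃ K₁ : ℝ, 0 < K₁ ∧ ∀ X₀ : ℕ, Bas S (fun J F A₀ => ∃ (B : F.Ω → Prop) (x e₀ : ℕ)
      (g : ℕ → ℕ → ℕ) (ψ : ℕ → PtT F → ℕ → Option (Fin m) → ℝ)
      (ψH : ℕ → LnT F → ℕ → Option (Fin m) → ℝ) (Sv : PtT F → ℕ → Option (Fin m) → ℝ)
      (G : ℕ → PtT F → ℕ → MvPolynomial (Option (Fin m)) ℝ)
      (H : ℕ → LnT F → ℕ → MvPolynomial (Option (Fin m)) ℝ)
      (Ht : LnT F → MvPolynomial (Option (Fin m)) ℝ), Sub B A₀ ∧ Pe F.p A₀ ≤ K₁ * Pe F.p B ∧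
      X₀ ≤ x ∧ (x : ℝ) ≤ y * q * J ∧ κ * (q * J / nd + 1) ≤ x ∧
      (e₀ : ℝ) ≤ (Eb + 2 * y * q) * J ∧
      (∀ i ≤ nd, ∀ l ≤ 3, 16 * |(g i l : ℝ) - (L l t t + Sl l * (i / nd * q)) * J| ≤ x) ∧
      HopD F c (D + 1) nd x e₀ (fun i => ⌊(t + i / nd * q) * J⌋₊) B g ψ ψH Sv G H Ht) := by
  obtain ⟨Cg, hCg, hgeo⟩ := rec_geo m D hD
  obtain ⟨Cs, hCs, hstar⟩ := rec_star D
  obtain ⟨υ₁, ζ₁, y₁, ε₀, nd, j₁, n₀, hNn, N⟩ := rcn_ex hCg hCs hCw hCB hκ hy hy1 hy2 N₀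
  have hn0 := N.n0
  have hndR : (0 : ℝ) < nd := by exact_mod_cast hn0
  have hCgR := N.g1
  have hζ0 := N.ζ0
  have hυ0 := N.υ0
  have hy₁0 := N.y0
  have hε00 := N.ε0
  have hgg := N.gg
  have n1 := N.wy
  have n3 := N.we
  have n4 := N.e8
  have n5 := N.yz
  have n6 := N.υy
  have n7 := N.gz
  have n9 : ζ₁ ≤ Cg * ζ₁ := le_mul_of_one_le_left hζ0.le hCgR
  refine ⟨nd, y₁, ε₀, hNn, hn0, hy₁0, by linarith, by linarith, hε00, by linarith, ?_⟩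
  intro S P θ c L Sl t q A' Eb e ε K₀ b R hεε hP hT hc hK₀ hcon
  have hq := R.q0
  obtain ⟨len, κ', hκ', hb⟩ := hgeo N R hεε hP hT hc (show 0 < 1 / K₀ by positivity)
  obtain ⟨J₁, hst⟩ := hstar N R hεε hc
  have hCg0 : (0 : ℝ) < Cg := by linarith
  refine ⟨K₀ * (2 * (Cg : ℝ) ^ len), by positivity, fun X₀ => ?_⟩
  obtain ⟨X, hX⟩ : ∃ X : ℝ, X = Cg * (ζ₁ * q + υ₁ * q) := ⟨_, rfl⟩
  have hX0 : 0 < X := by rw [hX]; positivity
  obtain ⟨J₂, hJ₂⟩ := exists_nat_ge ((2 * nd) / q + (X₀ + 2 + 4 * κ) / X)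
  refine Bas.mono (max J₁ (J₂ + 1)) ((hcon κ' hκ').and hb) ?_
  rintro J hJ F A ⟨hA, hB⟩
  have hJ1 : J₁ ≤ J := (le_max_left _ _).trans hJ
  have hJ0 : (0 : ℝ) < J := by
    have : 0 < J := by
      have := (le_max_right J₁ (J₂ + 1)).trans hJ
      omega
    exact_mod_cast this
  have hJ2 : (2 * nd) / q + (X₀ + 2 + 4 * κ) / X ≤ J := hJ₂.trans (by
    have := (le_max_right J₁ (J₂ + 1)).trans hJ
    exact_mod_cast (show J₂ ≤ J by omega))
  have d1 : 0 < (2 * nd) / q := by positivity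
  have d2 : 0 < (X₀ + 2 + 4 * κ) / X := by positivity
  have j1 : 2 * nd ≤ q * J := by
    have h1 : (2 * nd) / q ≤ J := by linarith
    rw [div_le_iff₀ hq] at h1
    linarith
  have j2 : X₀ + 2 + 4 * κ ≤ X * J := by
    have h1 : (X₀ + 2 + 4 * κ) / X ≤ J := by linarith
    rw [div_le_iff₀ hX0] at h1
    linarith
  obtain ⟨B, gc, gT, g₀, G, H, Th, TH, Gt, Ht, k1, k2, W1, W2⟩ := hA (zg nd t q J)
    (fun k hk p _ => zg_bd hn0 hq R.qt R.A3 j1 hk p)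
  obtain ⟨Sv, hSv, hNc⟩ := hst hJ1 W2
  obtain ⟨B', ψ, ψH, m1, m2, m3, m4, m5, m6, v, v', e', p, U, m7⟩ := hB _ _ _ B gc gT g₀ G H Th TH
    Gt Ht Sv B W1 W2 le_rfl k1 (fun _ h => h) (by
      rw [one_div, ← div_eq_inv_mul, div_le_iff₀ hK₀, mul_comm]
      exact k2) hSv hNc
  rw [← hX] at m3 m4 m5 m6 m7
  have hyq : X ≤ y * q := by
    rw [hX]
    have := mul_le_mul_of_nonneg_right hgg hq.le
    linarith
  have hζX : ζ₁ * q ≤ X := by
    rw [hX]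
    have h1 : ζ₁ * q ≤ Cg * (ζ₁ * q) := le_mul_of_one_le_left (by positivity) hCgR
    have h2 : 0 ≤ Cg * (υ₁ * q) := by positivity
    rw [mul_add]
    linarith
  have hxX : (⌊X * J⌋₊ : ℝ) ≤ X * J := Nat.floor_le (by positivity)
  have hXx := (Nat.lt_floor_add_one (X * J)).le
  have hX₀ : X₀ ≤ ⌊X * J⌋₊ := by
    have : (X₀ : ℝ) ≤ ⌊X * J⌋₊ := by linarith
    exact_mod_cast this
  have hEb := R.Eb0
  have hXζ : 17 * (ζ₁ * q) ≤ X := by
    rw [hX, ← add_mul]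
    have h1 : 17 * ζ₁ ≤ Cg * (ζ₁ + υ₁) := by
      have h2 : υ₁ ≤ Cg * υ₁ := le_mul_of_one_le_left hυ0.le hCgR
      rw [mul_add]
      linarith
    have := mul_le_mul_of_nonneg_right h1 hq.le
    linarith
  have hXζJ := mul_le_mul_of_nonneg_right hXζ hJ0.le
  have hlv : ∀ i ≤ nd, ∀ l ≤ 3,
      16 * |(g₀ (hf nd i) l : ℝ) - (L l t t + Sl l * (i / nd * q)) * J| ≤ ⌊X * J⌋₊ := by
    intro i hi l hl
    obtain ⟨-, -, a1, a2⟩ := W2.g_num (k := hf nd i) (l := l) (hf_le (by omega)) hl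
    simp only [hv_hf] at a1 a2
    obtain ⟨b1, b2⟩ := R.hlv (show l ≤ 3 from hl) (show i ≤ 2 * nd by omega)
    have b1 := mul_le_mul_of_nonneg_right b1 hJ0.le
    have b2 := mul_le_mul_of_nonneg_right b2 hJ0.le
    have c1 : (y₁ * q + ε * q) * J ≤ ζ₁ / 4 * q * J := by
      refine mul_le_mul_of_nonneg_right ?_ hJ0.le
      have h1 := mul_le_mul_of_nonneg_right (show y₁ + ε ≤ ζ₁ / 4 by linarith) hq.le
      linarith
    have hX₀R : (0 : ℝ) ≤ X₀ := Nat.cast_nonneg _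
    have hκ1 := N.k1
    have c2 : 16 * (ζ₁ / 4 * q * J) ≤ ⌊X * J⌋₊ := by linarith
    have c3 : |(g₀ (hf nd i) l : ℝ) - (L l t t + Sl l * (i / nd * q)) * J| ≤ ζ₁ / 4 * q * J := by
      rw [abs_le]
      constructor
      · linarith
      · have : 0 ≤ y₁ * q * J := by positivity
        linarith
    linarith
  have hmesh : κ * (q * J / nd + 1) ≤ ⌊X * J⌋₊ := by
    have hκ1 := N.k1
    have hd1 := N.d1
    have hX₀R : (0 : ℝ) ≤ X₀ := Nat.cast_nonneg _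
    have h1 : κ * (1 / nd) ≤ ζ₁ := by
      have h2 : κ * (1 / (nd : ℝ)) ≤ (κ + 1) * (1 / nd) :=
        mul_le_mul_of_nonneg_right (by linarith) (by positivity)
      have h3 : (κ + 1) * (1 / (nd : ℝ)) ≤ Cs * ((κ + 1) * (1 / nd)) :=
        le_mul_of_one_le_left (by positivity) N.s1
      have h4 : 0 ≤ (κ + 1) * (1 / (nd : ℝ)) := by positivity
      linarith
    have h2 := mul_le_mul_of_nonneg_right h1 (show 0 ≤ q * J by positivity)
    have h3 : κ * (q * J / nd + 1) = κ * (1 / nd) * (q * J) + κ := by ring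
    rw [h3]
    have h4 : ζ₁ * (q * J) = ζ₁ * q * J := by ring
    have h5 : 0 < ζ₁ * q * J := by positivity
    linarith
  refine ⟨B', ⌊X * J⌋₊, ⌊(Eb + 2 * (y₁ * q)) * J⌋₊ + ⌊X * J⌋₊, fun i => g₀ (hf nd i),
    fun i => ψ (hf nd i), fun i => ψH (hf nd i), Sv, fun i => G (hf nd i), fun i => H (hf nd i),
    Ht (hf nd 0), fun ω h => k1 ω (m1 ω h), ?_, hX₀, hxX.trans ?_, hmesh, ?_, hlv, ?_⟩
  · refine k2.trans ?_
    rw [mul_assoc]
    exact mul_le_mul_of_nonneg_left m2 hK₀.le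
  · exact mul_le_mul_of_nonneg_right hyq hJ0.le
  · push_cast
    have h1 : (⌊(Eb + 2 * (y₁ * q)) * J⌋₊ : ℝ) ≤ (Eb + 2 * (y₁ * q)) * J :=
      Nat.floor_le (by positivity)
    have h2 := mul_le_mul_of_nonneg_right (show Eb + 2 * (y₁ * q) + X ≤ Eb + 2 * y * q by
      have := mul_le_mul_of_nonneg_right (show 2 * y₁ ≤ y by linarith) hq.le
      linarith) hJ0.le
    linarith
  · have hev : ∀ i ≤ nd, _ := fun i hi => W2.ev (hf nd i) (hf_le (by omega))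
    simp only [hv_hf] at hev
    have hζJ : (2 : ℝ) ^ ⌊ζ₁ * q * J⌋₊ ≤ 2 ^ ⌊X * J⌋₊ := pow_le_pow_right₀ (by norm_num)
      (Nat.floor_le_floor (mul_le_mul_of_nonneg_right hζX hJ0.le))
    have hws := W1.evs (hf nd 0) (by rw [hf_zero]; norm_num)
    refine ⟨fun i hi => WnD.deg ⟨⟨m3 i hi, ?_, hc.mono ?_, (hev i hi).ball.depG,
      fun ω hω l hl => (hev i hi).cls ω (m1 ω hω) l (by omega), m4 i hi,
      fun ω hω l hl => (hev i hi).ball.pos ω (m1 ω hω) l (by omega), fun ω hω => ?_⟩,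
      ((hev i hi).ball.sub m1).mono le_rfl (fun _ => le_rfl) le_rfl ?_, (hev i hi).cls.sub m1,
      m5 i hi⟩ (Nat.le_succ D), hws.pH, fun s => (hws.dH s).trans (Nat.le_succ D), m6, v, v', e',
      p, _, U, _, _, m7.deg (Nat.le_succ D)⟩
    · have h1 : (i : ℝ) / nd ≤ 1 := by
        rw [div_le_one hndR]
        exact_mod_cast hi
      have h2 := mul_le_mul_of_nonneg_right h1 hq.le
      have h3 := mul_le_mul_of_nonneg_right R.A3 hq.le
      have h4 := R.At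
      have h5 : ⌊(t + i / nd * q) * J⌋₊ ≤ ⌊(J : ℝ)⌋₊ := Nat.floor_le_floor
        (mul_le_of_le_one_left hJ0.le (by linarith))
      rwa [Nat.floor_natCast] at h5
    · intro x hx
      rw [Set.mem_Iio] at hx ⊢
      omega
    · exact (hNc ω (m1 ω hω) i (by omega)).mono hζJ
    · refine (Nat.floor_le_floor (mul_le_mul_of_nonneg_right ?_ hJ0.le)).trans (Nat.le_add_right _ _)
      linarith

end Pool.D2N
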