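import Pool.Agent.H90.D2.Hid
import Pool.Agent.H23.D2.Rcd

/-!
# The hop cell: the record of the tie on the grid

`rcl_of`, `rcw_of`: the levels and the windows of a record, on the grid.
-/

set_option autoImplicit false

namespace Pool.D2N

open Finset Real MvPolynomial
open Pool.Agent.H49.Ent Pool.Agent.H32.Dense Pool.STK Pool.KA Pool.KSAT Pool.K2S Pool.PB Pool.S6C
open Pool.GEN Pool.CHT Pool.CHX Pool.LA91
open Pool.LBT (ThrOf)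
open Pool.ALL (RateOf)
open Pool.D2F Pool.D2Z Pool.D2F2
open Pool.D2R (dd hs co co_slam ROutB ROut1)
open Pool.PKG (RecG RecQ Kg kgL ofKd)

section one

variable {S : PCl 4} {al : ℝ} {g₀ : ℝ → ℝ} {P : List (Fin 4) × Fin 4 → ℝ → ℝ → ℝ} {θ : ℝ}
    {P₂ : ℕ → List (Fin 4) × Fin 4 → ℝ → ℝ → ℝ} {θ₂ Eb e₂ : ℕ → ℝ} {c : ℕ → Fin 4}
    {Pt : ℝ → ℝ → ℝ} {r : ℝ → ℝ} {h K₀ g : ℝ} {L T : ℕ → ℝ → ℝ → ℝ} {Sl : ℕ → ℝ} {G : Set ℝ}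
    {S₀ N : ℕ} {A V : ℕ → ℝ} {S₂ N' : ℕ} {V' : ℕ → ℝ} {K ε q t : ℝ}

/-- The record of the tie, as the record of the last coordinate. -/
theorem rq_of (R : RecG S al g₀ P θ P₂ θ₂ Eb e₂ c Pt r h K₀ g L T Sl
      (kgL [.one, .thin, .thin]) G S₀ N A V S₂ N' V' K ε q t) :
    RecQ S P (P₂ 3) θ (θ₂ 3) c 3 (L 3) L T Sl
      (fun l => List.getD [.one, .thin, .thin] l .one) S₀ N A V S₂ N' V' (Eb 3)
      (e₂ 3) K ε q t := by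
  refine R.recQ (by norm_num) (by norm_num) rfl fun l hl => ?_
  interval_cases l <;> rfl

/-- **The levels of a record** on the grid. -/
theorem rcl_of {κ A' : ℝ} {nd : ℕ} (R : RecG S al g₀ P θ P₂ θ₂ Eb e₂ c Pt r h K₀ g L T Sl
      (kgL [.one, .thin, .thin]) G S₀ N A V S₂ N' V' K ε q t) (s0 : Sl 0 = 1) (s1 : Sl 1 = κ)
    (s2 : Sl 2 = κ) (s3 : Sl 3 = κ + 1) (hA : 3 ≤ A') (hκA : κ + 2 ≤ A') (hAK : A' ≤ K)
    (hnd : 0 < nd) (hε : 0 ≤ ε) (hε8 : 8 * ε ≤ 1) (h0 : ∃ j < N, A j = A' ∧ V j = 0)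
    (hg : ∀ i ≤ 2 * nd, (∃ j < N, A j = A' ∧ V j = (i : ℝ) / nd) ∨
      ∃ j < N', V' j = (i : ℝ) / nd) :
    RcL (P₂ 3) (θ₂ 3) c L Sl κ t q A' (Eb 3) (e₂ 3) ε nd := by
  have RQ := rq_of R
  have hq := R.q0
  have hndR : (0 : ℝ) < nd := by exact_mod_cast hnd
  have hKq : A' * q ≤ K * q := mul_le_mul_of_nonneg_right hAK hq.le
  have hA3q : 3 * q ≤ A' * q := mul_le_mul_of_nonneg_right hA hq.le
  have ht0 := R.t0
  have ht1 := R.t1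
  have hEb := RQ.Eb0
  have hx2 : ∀ i ≤ 2 * nd, (0 : ℝ) ≤ (i : ℝ) / nd ∧ (i : ℝ) / nd ≤ 2 := fun i hi => by
    refine ⟨by positivity, ?_⟩
    rw [div_le_iff₀ hndR]
    exact_mod_cast hi
  have hxq : ∀ i ≤ 2 * nd, (0 : ℝ) ≤ (i : ℝ) / nd * q ∧ (i : ℝ) / nd * q ≤ 2 * q := fun i hi =>
    ⟨mul_nonneg (hx2 i hi).1 hq.le, mul_le_mul_of_nonneg_right (hx2 i hi).2 hq.le⟩
  have hab : ∀ i ≤ 2 * nd, |t + (i : ℝ) / nd * q - t| ≤ K * q := fun i hi => by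
    rw [add_sub_cancel_left, abs_of_nonneg (hxq i hi).1]
    linarith [(hxq i hi).2]
  refine ⟨s0, s1, s2, s3, hq, by linarith, hEb.le, by linarith [RQ.Ebe], hε, hA, hκA,
    by linarith, fun x hx1 hx2 => ?_, fun l hl i hi => ?_, fun l hl i hi => ⟨?_, ?_⟩,
    fun i hi e' he' => ?_, ?_⟩
  · refine RQ.e₂θ x ?_
    rw [abs_le]
    constructor <;> linarith
  · have := R.dL l (by omega) _ (hab i hi)
    rw [add_sub_cancel_left] at this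
    exact this
  · refine Pool.D2R.RecQ.lowL RQ ?_ ?_ ?_ l hl
    · rcases hg i hi with ⟨j, hj, h1, h2⟩ | h1
      · exact Or.inl ⟨j, hj, h2⟩
      · exact Or.inr h1
    · linarith [(hxq i hi).1]
    · linarith [(hxq i hi).2]
  · have := RQ.room l hl _ (hab i hi)
    linarith
  · exact Pool.D2R.RecQ.ratW RQ (by linarith [(hx2 i hi).2]) (hg i hi) he'
  · obtain ⟨j, hj, h1, h2⟩ := h0
    have h3 := (RQ.TL j hj 3 le_rfl).1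
    rw [h1, h2, zero_mul, add_zero] at h3
    have h4 := RQ.stp (t + A' * q) t (by linarith) (by linarith) (by linarith)
    have h5 := abs_le.1 (RQ.dT 3 le_rfl t (by
      rw [sub_self, abs_zero]
      linarith))
    rw [sub_self, mul_zero, sub_zero] at h5
    have h6 : 8 * (ε * q) ≤ q := by
      have := mul_le_mul_of_nonneg_right hε8 hq.le
      linarith
    rw [add_sub_cancel_left] at h4
    linarith [h5.1]

end one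

/-- **The windows of a record** on the grid. -/
theorem rcw_of (S₂ : ℕ) (hS₂ : 1 ≤ S₂) : ∃ D : ℕ, 1 ≤ D ∧ ∃ Cw CB : ℝ, 1 ≤ Cw ∧ 1 ≤ CB ∧
    ∀ {S : PCl 4} {al : ℝ} {g₀ : ℝ → ℝ} {P : List (Fin 4) × Fin 4 → ℝ → ℝ → ℝ} {θ : ℝ}
    {P₂ : ℕ → List (Fin 4) × Fin 4 → ℝ → ℝ → ℝ} {θ₂ Eb e₂ : ℕ → ℝ} {c : ℕ → Fin 4}
    {Pt : ℝ → ℝ → ℝ} {r : ℝ → ℝ} {h K₀ g : ℝ} {L T : ℕ → ℝ → ℝ → ℝ} {Sl : ℕ → ℝ} {G : Set ℝ}
    {S₀ N : ℕ} {A V : ℕ → ℝ} {N' : ℕ} {V' : ℕ → ℝ} {K ε q t : ℝ},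
    RecG S al g₀ P θ P₂ θ₂ Eb e₂ c Pt r h K₀ g L T Sl (kgL [.one, .thin, .thin]) G S₀ N A V S₂ N'
      V' K ε q t → S₀ ≤ S₂ → 0 ≤ ε → ∀ {A' y₁ : ℝ} {nd : ℕ}, 1 ≤ K → 0 < y₁ →
    4 * (Cw * y₁) ≤ 1 → 4 * (Cw * ε) ≤ y₁ → 0 < nd → 3 ≤ A' → A' ≤ K →
    (∃ j < N, A j = A' ∧ V j = 0) → (∃ j < N, A j = A' ∧ V j = 1) →
    (∀ k ≤ 2 * nd, ∃ j < N', V' j = (k : ℝ) / nd) →
    ∃ (K₁ : ℝ) (b : ℕ → ℕ → ℝ), 0 < K₁ ∧ ∀ κ₀ : ℝ, 0 < κ₀ →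
      Bas S (RcW D Cw CB (Eb 3) y₁ q A' t ε K₁ nd c L b κ₀) := by
  obtain ⟨D, hD, hw⟩ := Pool.D2R.RecQ.wins 4 3 S₂ (by norm_num) hS₂
  obtain ⟨Cw, CB, hCw, hCB, hw⟩ := hw D le_rfl
  refine ⟨D, hD, Cw, CB, hCw, hCB, ?_⟩
  intro S al g₀ P θ P₂ θ₂ Eb e₂ c Pt r h K₀ g L T Sl G S₀ N A V N' V' K ε q t R hS hε A' y₁ nd hK
    hy hCy hCε hnd hA hAK h0 h1 hg
  have RQ := rq_of R
  have hq := R.q0
  have hndR : (0 : ℝ) < nd := by exact_mod_cast hnd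
  obtain ⟨K₁, b, hK₁, hB⟩ := hw RQ hS hε A' y₁ (1 / (2 * nd)) 1 (2 * nd + 2) 0
    (fun k => (hv nd k : ℝ) / nd) (fun _ => True) hK hy hCy hCε (by positivity) (by omega) hAK
    (fun k hk => by
      interval_cases k
      · obtain ⟨j, hj, h2, h3⟩ := h0
        refine ⟨j, hj, h2, ?_⟩
        rw [h3]
        show (0 : ℝ) = ((0 : ℕ) : ℝ) / nd
        rw [Nat.cast_zero, zero_div]
      · obtain ⟨j, hj, h2, h3⟩ := h1
        refine ⟨j, hj, h2, ?_⟩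
        rw [h3]
        show (1 : ℝ) = (nd : ℝ) / nd
        rw [div_self hndR.ne'])
    (fun k hk => by
      have hvk : hv nd k ≤ 2 * nd := hv_le (by omega) hk
      have h2 : (0 : ℝ) ≤ (hv nd k : ℝ) / nd := by positivity
      have h3 : (hv nd k : ℝ) / nd ≤ 2 := by
        rw [div_le_iff₀ hndR]
        exact_mod_cast hvk
      constructor <;> linarith)
    (fun k _ hk => hg _ (hv_le (by omega) hk))
    (fun l hl _ => by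
      interval_cases l
      · exact Or.inl rfl
      · exact Or.inr rfl
      · exact Or.inr rfl)
  exact ⟨K₁, b, hK₁, fun κ₀ hκ₀ => hB κ₀ hκ₀⟩

end Pool.D2N
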