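import Pool.Agent.H88.D2.Mcw
import Pool.Agent.H88.D2.Mcx
import Pool.Agent.H66.D2.Mst

/-!
# The gradient of a place of the list along a fine chain

`grdTl`: 88's `grdT` (the proof is copied from `Pool.Agent.H88.D2.Mcw`) for any place `i` of the
record, in the direction of the place before it.
-/

set_option autoImplicit false

namespace Pool.TN

open Finset Real MvPolynomial
open Pool.Agent.H49.Ent Pool.Agent.H32.Dense Pool.STK Pool.KA Pool.KSAT Pool.K2S Pool.PB Pool.S6C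
open Pool.GEN Pool.CHT Pool.CHX Pool.ISO Pool.D2R Pool.D2Z Pool.D2F
open Pool.AVG57 (LbsE ClU)
open Pool.FLF (Fam.sub)
open Pool.D2T (sh sh_rt sh_deg)
open Pool.PB.Trl (rt rt_mem t_rt)
open Pool.BFL (Pb)
open Pool.PKG (RecQ Kd)

/-- **The gradient of the target along a fine chain** of the balls of the record: natural of the
ball `k₀` if it is the coarsest. -/
theorem grdTl (D r i : ℕ) (hi : 1 ≤ i) (hir : i ≤ r) : ∃ C : ℕ, 1 ≤ C ∧ ∀ {m : ℕ} {S : PCl m}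
    {P P₂ : List (Fin m) × Fin m → ℝ → ℝ → ℝ} {θ θ₂ : ℝ} {c : ℕ → Fin m} {Pt : ℝ → ℝ → ℝ}
    {L T : ℕ → ℝ → ℝ → ℝ} {Sl : ℕ → ℝ} {kd : ℕ → Kd} {S₀ N : ℕ} {A V : ℕ → ℝ} {S₂ N' : ℕ}
    {V' : ℕ → ℝ} {Eb e₂ K ε q t : ℝ}
    (_ : RecQ S P P₂ θ θ₂ c r Pt L T Sl kd S₀ N A V S₂ N' V' Eb e₂ K ε q t)
    {J Dr N₃ : ℕ} {F : Fam m J} {CB a Eb' y₁ κ : ℝ} {u : ℕ → ℝ} {b : ℕ → ℕ → ℝ} {z : ℕ → ℕ → ℕ}
    {B : F.Ω → Prop} {g₀ : ℕ → ℕ → ℕ} {G : ℕ → PtT F → ℕ → MvPolynomial (Option (Fin m)) ℝ}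
    {H : ℕ → LnT F → ℕ → MvPolynomial (Option (Fin m)) ℝ}
    (_ : WinB F c r D Dr N₃ N₃ CB a Eb' (y₁ * q) (fun k => t + u k * q) (fun _ => y₁ * q)
      (fun _ => y₁ * q) (fun k l => L l (t + u k * q) (t + u k * q)) b κ z B g₀ G H)
    {f : ℕ → ℕ} {n p k₀ Y : ℕ} {u₀ β y₂ : ℝ}, ChF u N₃ n p u₀ K f → k₀ ≤ N₃ → |u k₀| ≤ K →
    (∀ k < n, z (f k) (f (k + 1)) = ⌊(t + u (f (k + 1)) * q) * J⌋₊ -
      ⌊(t + u (f k) * q) * J⌋₊) → 0 ≤ ε → Y = ⌊y₂ * (q * J)⌋₊ → 4 * (CB * y₁) ≤ y₂ →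
    8 * y₁ ≤ y₂ → 16 * ε ≤ y₂ → 16 * β ≤ y₂ * p → 8 ≤ y₂ * (q * J) → (n : ℝ) ≤ 2 ^ Y →
    (∀ l ≤ r, |Sl l| ≤ β) →
    (∀ k < n, (Sl (i - 1) - Sl i) * (u (f k) - u k₀) ≤ 0) → ∀ ω, B ω →
    |grd (G (f n) (ptr F J ω) i) (bt F ω) (some (c (i - 1))) -
      grd (G (f 0) (ptr F J ω) i) (bt F ω) (some (c (i - 1)))| ≤
      2 ^ (C * Y) * (2 ^ g₀ k₀ (i - 1) / 2 ^ g₀ k₀ i) := by
  obtain ⟨C, hC, h⟩ := winb_tel D r
  refine ⟨C + 2, by omega, ?_⟩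
  intro m S P P₂ θ θ₂ c Pt L T Sl kd S₀ N A V S₂ N' V' Eb e₂ K ε q t R J Dr N₃ F CB a Eb' y₁ κ u b
    z B g₀ G H W f n p k₀ Y u₀ β y₂ ch hk₀ huk hz hε hY hy₁ hy₁' hεy hβ hy₂ hn hSl hslo ω hω
  have hq := R.q0
  have hJ : (0 : ℝ) ≤ J := Nat.cast_nonneg J
  obtain ⟨U, hU⟩ : ∃ U : ℝ, U = q * J := ⟨_, rfl⟩
  have hU0 : 0 ≤ U := by rw [hU]; positivity
  have hp : (0 : ℝ) < p := by exact_mod_cast ch.p1
  have hYl : y₂ * U - 1 ≤ Y := by
    rw [hY, hU]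
    linarith [Nat.lt_floor_add_one (y₂ * (q * J))]
  rw [← hU] at hy₂
  have hY7 : y₂ * U / 2 + 3 ≤ Y := by linarith
  have hβp : β / p ≤ y₂ / 16 := by
    rw [div_le_iff₀ hp]
    linarith
  have hβ0 : 0 ≤ β := (abs_nonneg _).trans (hSl i hir)
  have hβU : 2 * (β / p) * U ≤ y₂ * U / 8 := by
    have := mul_le_mul_of_nonneg_right hβp hU0
    linarith
  have hεU : 2 * ε * U ≤ y₂ * U / 8 := by
    have := mul_le_mul_of_nonneg_right hεy hU0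
    linarith
  have hy₁U : 2 * y₁ * U ≤ y₂ * U / 4 := by
    have := mul_le_mul_of_nonneg_right hy₁' hU0
    linarith
  have hβU0 : 0 ≤ β / p * U := by positivity
  have hlv : ∀ k ≤ n, ∀ k' ≤ n, ∀ l ≤ r, Sl l * ((u (f k) - u (f k')) * U) - 2 * ε * U ≤
      (L l (t + u (f k) * q) (t + u (f k) * q) - L l (t + u (f k') * q) (t + u (f k') * q)) * J ∧
      (L l (t + u (f k) * q) (t + u (f k) * q) - L l (t + u (f k') * q) (t + u (f k') * q)) * J ≤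
      Sl l * ((u (f k) - u (f k')) * U) + 2 * ε * U := by
    intro k hk k' hk' l hl
    rw [hU]
    exact RecQ.dLd R hl (ch.fK k hk) (ch.fK k' hk') J
  have hstepS : ∀ l ≤ r, |Sl l * (1 / p * U)| ≤ β / p * U := by
    intro l hl
    rw [abs_mul, abs_of_nonneg (show (0 : ℝ) ≤ 1 / p * U by positivity)]
    calc _ ≤ β * (1 / p * U) := mul_le_mul_of_nonneg_right (hSl l hl) (by positivity)
      _ = _ := by ring
  have hCBq : CB * (y₁ * q * J) ≤ Y := by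
    have h1 : CB * (y₁ * q * J) = CB * y₁ * U := by rw [hU]; ring
    have h2 := mul_le_mul_of_nonneg_right hy₁ hU0
    rw [h1]
    linarith
  have hnum : ∀ k ≤ N₃, ∀ l ≤ r, L l (t + u k * q) (t + u k * q) * J - y₁ * U ≤ g₀ k l ∧
      (g₀ k l : ℝ) ≤ L l (t + u k * q) (t + u k * q) * J := fun k hk l hl => by
    obtain ⟨h1, h2⟩ := W.sds k hk l hl
    refine ⟨?_, h2⟩
    have : (L l (t + u k * q) (t + u k * q) - y₁ * q) * J =
        L l (t + u k * q) (t + u k * q) * J - y₁ * U := by rw [hU]; ring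
    linarith
  have hmain := h W (f := f) (jj := fun k => f (k + 1)) (n := n) (i := i)
    (ρ := 2 ^ Y * (2 ^ g₀ k₀ (i - 1) / 2 ^ g₀ k₀ i)) R.inj hi hir ch.fN
    (fun k hk => ⟨ch.fN (k + 1) hk, hz k hk, by
      have h1 : u (f k) ≤ u (f (k + 1)) := by
        rw [← ch.le hk]
        have : (0 : ℝ) ≤ 1 / p := by positivity
        linarith
      have := mul_le_mul_of_nonneg_right h1 hq.le
      show t + u (f k) * q ≤ t + u (f (k + 1)) * q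
      linarith⟩) hCBq (by
      have : (3 : ℝ) ≤ Y := by linarith
      exact_mod_cast this)
    (fun k hk l hl => by
      have h1 := hlv (k + 1) hk k hk.le l (hl.trans hir)
      have h2 : u (f (k + 1)) - u (f k) = 1 / p := by rw [← ch.le hk]; ring
      rw [h2] at h1
      have h3 := abs_le.1 (hstepS l (hl.trans hir))
      constructor
      · linarith [h1.2, h3.2]
      · have h4 : (L l (t + u (f k) * q) (t + u (f k) * q) -
          L l (t + u (f (k + 1)) * q) (t + u (f (k + 1)) * q)) * J =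
          -((L l (t + u (f (k + 1)) * q) (t + u (f (k + 1)) * q) -
            L l (t + u (f k) * q) (t + u (f k) * q)) * J) := by ring
        rw [h4]
        linarith [h1.1, h3.1])
    (fun k hk => by
      rw [div_le_iff₀ (by positivity)]
      have e1 : (2 : ℝ) ^ Y * (2 ^ g₀ k₀ (i - 1) / 2 ^ g₀ k₀ i) * 2 ^ g₀ (f k) i =
          2 ^ (Y + g₀ k₀ (i - 1) + g₀ (f k) i) / 2 ^ g₀ k₀ i := by
        rw [pow_add, pow_add]
        ring
      rw [e1, le_div_iff₀ (by positivity), ← pow_add]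
      refine pow_le_pow_right₀ (by norm_num) ?_
      have h1 := (hnum (f k) (ch.fN k hk.le) (i - 1) (by omega)).2
      have h2 := (hnum (f k) (ch.fN k hk.le) i hir).1
      have h3 := (hnum k₀ hk₀ (i - 1) (by omega)).1
      have h4 := (hnum k₀ hk₀ i hir).2
      have h5 := (RecQ.dLd R (show i - 1 ≤ r by omega) (ch.fK k hk.le) huk J).2
      have h6 := (RecQ.dLd R hir (ch.fK k hk.le) huk J).1
      rw [← hU] at h5 h6
      have h7 := mul_le_mul_of_nonneg_right (hslo k hk) hU0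
      have h8 : ((g₀ (f k) (i - 1) + g₀ k₀ i : ℕ) : ℝ) ≤
          ((Y + g₀ k₀ (i - 1) + g₀ (f k) i : ℕ) : ℝ) := by
        push_cast
        have h9 : (Sl (i - 1) - Sl i) * (u (f k) - u k₀) * U =
          Sl (i - 1) * ((u (f k) - u k₀) * U) - Sl i * ((u (f k) - u k₀) * U) := by ring
        linarith
      exact_mod_cast h8) ω hω
  refine hmain.trans ?_
  have e2 : (2 : ℝ) ^ ((C + 2) * Y) = 2 ^ Y * (2 ^ (C * Y) * 2 ^ Y) := by
    rw [← pow_add, ← pow_add]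
    congr 1
    ring
  rw [e2]
  have p1 : (0 : ℝ) ≤ 2 ^ (C * Y) * (2 ^ Y * (2 ^ g₀ k₀ (i - 1) / 2 ^ g₀ k₀ i)) := by positivity
  calc _ ≤ 2 ^ Y * (2 ^ (C * Y) * (2 ^ Y * (2 ^ g₀ k₀ (i - 1) / 2 ^ g₀ k₀ i))) :=
        mul_le_mul_of_nonneg_right hn p1
    _ = _ := by ring

end Pool.TN
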