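import Pool.Agent.H90.D2.Mua

/-!
# The closed slope of the static place under a thin place, on one event

`chF_mk`: chains of windows of the record. `mu_evS`: the slope of the target in the direction of the
static place one, relative to the row, is closed at the ball.
-/

set_option autoImplicit false

namespace Pool.TN

open Finset Real MvPolynomial
open Pool.Agent.H49.Ent Pool.Agent.H32.Dense Pool.STK Pool.KA Pool.KSAT Pool.K2S Pool.PB Pool.S6C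
open Pool.GEN Pool.CHT Pool.CHX Pool.ISO Pool.D2R Pool.D2Z Pool.D2F
open Pool.AVG57 (LbsE ClU)
open Pool.FLF (Fam.sub)
open Pool.D2T (sh sh_rt sh_deg)
open Pool.PB.Trl (rt rt_mem t_rt)
open Pool.BFL (Pb)
open Pool.PKG (RecQ Kd)

/-- The chain of windows, with given first and last windows. -/
def fch (N₁ a n ia ib k : ℕ) : ℕ := if k = 0 then ia else if k = n then ib else N₁ + 1 + (a + k)

theorem fch_0 (N₁ a n ia ib : ℕ) : fch N₁ a n ia ib 0 = ia := rfl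

theorem fch_n {N₁ a n ia ib : ℕ} (hn : 1 ≤ n) : fch N₁ a n ia ib n = ib := by
  unfold fch
  rw [if_neg (by omega), if_pos rfl]

theorem fch_mid {N₁ a n ia ib k : ℕ} (h0 : k ≠ 0) (h1 : k ≠ n) :
    fch N₁ a n ia ib k = N₁ + 1 + (a + k) := by
  unfold fch
  rw [if_neg h0, if_neg h1]

/-- **Chains of windows.** -/
theorem chF_mk {u : ℕ → ℝ} {N₁ N₃ p X a n ia ib : ℕ} {K : ℝ} (hp : 1 ≤ p)
    (hN₃ : N₃ = N₁ + 1 + (X + 1) * p) (hu : ∀ k ≤ (X + 1) * p, u (N₁ + 1 + k) = -1 + k / p)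
    (hK1 : 1 ≤ K) (hK : (X : ℝ) ≤ K) (han : a + n ≤ (X + 1) * p) (hn : 1 ≤ n) (hia : ia ≤ N₃)
    (hib : ib ≤ N₃) (ua : u ia = -1 + a / p) (ub : u ib = -1 + ((a + n : ℕ) : ℝ) / p) :
    ChF u N₃ n p (-1 + a / p) K (fch N₁ a n ia ib) := by
  have hpR : (0 : ℝ) < p := by exact_mod_cast hp
  have hfu : ∀ k ≤ n, u (fch N₁ a n ia ib k) = -1 + a / p + k / p := by
    intro k hk
    rcases Nat.eq_zero_or_pos k with rfl | h0
    · rw [fch_0, ua, Nat.cast_zero, zero_div, add_zero]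
    · by_cases h1 : k = n
      · rw [h1, fch_n hn, ub]
        push_cast
        ring
      · rw [fch_mid (by omega) h1, hu _ (by omega)]
        push_cast
        ring
  refine ⟨hp, fun k hk => ?_, hfu, fun k hk => ?_⟩
  · rcases Nat.eq_zero_or_pos k with rfl | h0
    · rw [fch_0]
      exact hia
    · by_cases h1 : k = n
      · rw [h1, fch_n hn]
        exact hib
      · rw [fch_mid (by omega) h1]
        omega
  · rw [hfu k hk]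
    have h1 : (0 : ℝ) ≤ (a : ℝ) / p + k / p := by positivity
    have h2 : (a : ℝ) / p + k / p ≤ X + 1 := by
      rw [← add_div, div_le_iff₀ hpR]
      have h3 : ((a + k : ℕ) : ℝ) ≤ (((X + 1) * p : ℕ) : ℝ) := by
        exact_mod_cast (show a + k ≤ (X + 1) * p by omega)
      push_cast at h3
      exact h3
    rw [abs_le]
    constructor <;> linarith

/-- A part of a chain. -/
theorem ChF.sub {u : ℕ → ℝ} {N₃ n p : ℕ} {u₀ K : ℝ} {f : ℕ → ℕ} (h : ChF u N₃ n p u₀ K f)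
    {a n' : ℕ} (han : a + n' ≤ n) : ChF u N₃ n' p (u₀ + a / p) K (fun k => f (a + k)) := by
  refine ⟨h.p1, fun k hk => h.fN _ (by omega), fun k hk => ?_, fun k hk => h.fK _ (by omega)⟩
  rw [h.fu _ (by omega)]
  push_cast
  ring

/-- **The closed slope of the static place one at the ball on one event.** -/
theorem mu_evS (D : ℕ) : ∃ C : ℕ, 1 ≤ C ∧ ∀ {m : ℕ} {S : PCl m}
    {P P₂ : List (Fin m) × Fin m → ℝ → ℝ → ℝ} {θ θ₂ : ℝ} {c : ℕ → Fin m} {Pt : ℝ → ℝ → ℝ}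
    {L T : ℕ → ℝ → ℝ → ℝ} {Sl : ℕ → ℝ} {kd : ℕ → Kd} {S₀ N : ℕ} {A V : ℕ → ℝ} {S₂ N' : ℕ}
    {V' : ℕ → ℝ} {Eb e₂ K ε q t : ℝ}
    (_ : RecQ S P P₂ θ θ₂ c 3 Pt L T Sl kd S₀ N A V S₂ N' V' Eb e₂ K ε q t)
    {J Dr N₁ N₃ p X Y iK ix : ℕ} {F : Fam m J} {CB a Eb' y₁ κ : ℝ} {u : ℕ → ℝ} {b : ℕ → ℕ → ℝ}
    {z : ℕ → ℕ → ℕ} {B : F.Ω → Prop} {g₀ : ℕ → ℕ → ℕ}
    {G : ℕ → PtT F → ℕ → MvPolynomial (Option (Fin m)) ℝ}
    {H : ℕ → LnT F → ℕ → MvPolynomial (Option (Fin m)) ℝ}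
    (_ : WinB F c 3 D Dr N₃ N₃ CB a Eb' (y₁ * q) (fun k => t + u k * q) (fun _ => y₁ * q)
      (fun _ => y₁ * q) (fun k l => L l (t + u k * q) (t + u k * q)) b κ z B g₀ G H)
    {β y₂ κ₂ ξ Sm : ℝ}, 1 ≤ p → 2 ≤ X → N₃ = N₁ + 1 + (X + 1) * p → iK ≤ N₁ → ix ≤ N₁ →
    u iK = 1 → u ix = X →
    (∀ k ≤ (X + 1) * p, u (N₁ + 1 + k) = -1 + k / p) → (X : ℝ) ≤ K →
    (∀ k ≤ N₃, ∀ k' ≤ N₃, u k + 1 / p ≤ u k' → z k k' = ⌊(t + u k' * q) * J⌋₊ -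
      ⌊(t + u k * q) * J⌋₊) → 0 ≤ ε → Y = ⌊y₂ * (q * J)⌋₊ → 4 * (CB * y₁) ≤ y₂ →
    8 * y₁ ≤ y₂ → 16 * ε ≤ y₂ → 16 * β ≤ y₂ * p → 8 ≤ y₂ * (q * J) →
    (((X + 1) * p : ℕ) : ℝ) ≤ 2 ^ Y → (∀ l ≤ 3, |Sl l| ≤ β) → 0 ≤ Sm → (∀ l < 3, Sl l ≤ Sm) →
    Sm ≤ Sl 3 → 4 ≤ (Sl 3 - Sm) * (q * J) →
    0 ≤ κ₂ → 8 * κ₂ ≤ y₂ * (q * J) → 0 ≤ ξ → (Sl 3 - Sl 1) * 2 ≤ κ₂ * ξ →
    ((Sl 1 ≤ Sl 2 ∧ Sl 2 + Sl 3 - 2 * Sl 1 ≤ (Sl 3 - Sl 2) * X) ∨ Sl 2 ≤ Sl 1) →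
    ⌊t * J⌋₊ ≤ J → ∀ {W w₁ : ℕ}, W ≤ ⌊t * J⌋₊ → w₁ ≤ ⌊t * J⌋₊ →
    ∀ (Φ : LnT F → MvPolynomial (Option (Fin m)) ℝ) (mu : LnT F → Polynomial ℝ)
    (B' : F.Ω → Prop), Sub B' B → (∀ s, DepC c 3 (Φ s)) →
    (∀ ω, B' ω → |gnh F c 3 (g₀ (N₁ + 1)) (G (N₁ + 1)) (G ix) ω 1 -
      (mu (slam F W ω)).eval (rt F W ω)| ≤ (2 : ℝ) ^ (-(κ₂ * ⌊ξ * q * J⌋₊))) →
    (∀ ω, B' ω → |grd (G ix (ptr F J ω) 3) (bt F ω) (some (c 2)) -
      grd (Φ (slam F w₁ ω)) (bt F ω) (some (c 2))| ≤ 2 ^ Y * (2 ^ g₀ ix 2 / 2 ^ g₀ ix 3)) →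
    ∀ (Ξ : F.Ω → ℕ → Option (Fin m) → ℝ), (∀ ω l, CvC c l (Ξ ω l)) →
    (∀ ω, Ξ ω 2 = grd (G iK (ptr F J ω) 2) (bt F ω)) →
    ∀ ω, B' ω → |cv (grd (G iK (ptr F J ω) 3) (bt F ω) - grd (Φ (slam F w₁ ω)) (bt F ω))
        (ev c 3 (Ξ ω) 1) -
      (stC c ⌊t * J⌋₊ W W W ⌊(t + u (N₁ + 1) * q) * J⌋₊ w₁ (g₀ (N₁ + 1)) mu (fun _ => 0)
        (fun _ => 0) (H (N₁ + 1)) Φ (slam F ⌊t * J⌋₊ ω)).eval (rt F ⌊t * J⌋₊ ω)| ≤
      2 ^ (C * Y) * (2 ^ g₀ iK 1 / 2 ^ g₀ iK 3) := by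
  obtain ⟨Ca, hCa, hgA⟩ := grdA D 3
  obtain ⟨Ct, hCt, hgT⟩ := grdTl D 3 2 (by norm_num) (by norm_num)
  refine ⟨Ca + Ct + 4, by omega, ?_⟩
  intro m S P P₂ θ θ₂ c Pt L T Sl kd S₀ N A V S₂ N' V' Eb e₂ K ε q t R J Dr N₁ N₃ p X Y iK ix F CB a
    Eb' y₁ κ u b z B g₀ G H W' β y₂ κ₂ ξ Sm hp hX hN₃ hiK hix huK hux hu hXK hz hε hY hy₁ hy₁' hεy
    hβ hy₂ hn hSl hSm hSs hSb hτ hκ₂ hκJ hξ hkx hfar htJ W w₁ hW hw₁ Φ mu B' hB' hΦ hmu hN Ξ hΞ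
    hΞ2 ω hω
  have hq := R.q0
  have hJ : (0 : ℝ) ≤ J := Nat.cast_nonneg J
  obtain ⟨U, hU⟩ : ∃ U : ℝ, U = q * J := ⟨_, rfl⟩
  have hU0 : 0 ≤ U := by rw [hU]; positivity
  have hpR : (0 : ℝ) < p := by exact_mod_cast hp
  have hX2 : (2 : ℝ) ≤ X := by exact_mod_cast hX
  have hK1 : (1 : ℝ) ≤ K := by linarith
  have huw : u (N₁ + 1) = -1 := by
    have := hu 0 (Nat.zero_le _)
    rw [add_zero, Nat.cast_zero, zero_div, add_zero] at this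
    exact this
  have hXp : (X + 1) * p = 2 * p + (X - 1) * p := by
    rw [← add_mul]
    congr 1
    omega
  have hX1R : ((X - 1 : ℕ) : ℝ) = X - 1 := by
    rw [Nat.cast_sub (by omega)]
    norm_num
  have hXp1 : 1 ≤ (X - 1) * p := Nat.mul_pos (by omega) hp
  have hNK : iK ≤ N₃ := by omega
  have hNx : ix ≤ N₃ := by omega
  have hNw : N₁ + 1 ≤ N₃ := by omega
  -- the chain from the ball to the far window
  have ch1 : ChF u N₃ ((X - 1) * p) p (-1 + (2 * p : ℕ) / p) K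
      (fch N₁ (2 * p) ((X - 1) * p) iK ix) := by
    refine chF_mk hp hN₃ hu hK1 hXK (by omega) hXp1 hNK hNx ?_ ?_
    · rw [huK]
      push_cast
      field_simp
      norm_num
    · rw [hux, ← hXp]
      push_cast
      field_simp
      ring
  -- the chain from the closed charts to the ball
  have ch2 : ChF u N₃ (2 * p) p (-1 + (0 : ℕ) / p) K (fch N₁ 0 (2 * p) (N₁ + 1) iK) := by
    refine chF_mk hp hN₃ hu hK1 hXK (by omega) (by omega) hNw hNK ?_ ?_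
    · rw [huw, Nat.cast_zero, zero_div, add_zero]
    · rw [huK, zero_add]
      push_cast
      field_simp
      norm_num
  have hzf : ∀ {n : ℕ} {u₀ : ℝ} {f : ℕ → ℕ}, ChF u N₃ n p u₀ K f → ∀ k < n,
      z (f k) (f (k + 1)) = ⌊(t + u (f (k + 1)) * q) * J⌋₊ - ⌊(t + u (f k) * q) * J⌋₊ :=
    fun ch k hk => hz _ (ch.fN k hk.le) _ (ch.fN (k + 1) hk) (ch.le hk).le
  have hnle : ∀ {n : ℕ}, n ≤ (X + 1) * p → (n : ℝ) ≤ 2 ^ Y := fun h =>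
    le_trans (by exact_mod_cast h) hn
  have hnp : (((X - 1) * p : ℕ) : ℝ) / p = X - 1 := by
    push_cast
    rw [hX1R]
    field_simp
  obtain ⟨τ, hτd⟩ : ∃ τ : ℝ, τ = (Sl 3 - Sm) * (X - 1) := ⟨_, rfl⟩
  have hτ1 : Sl 3 - Sm ≤ τ := by
    rw [hτd]
    exact le_mul_of_one_le_right (by linarith) (by linarith)
  have hgr := hgA R W' (f := fch N₁ (2 * p) ((X - 1) * p) iK ix) (n := (X - 1) * p) (p := p)
    (ks := 0) (Y := Y) (u₀ := -1 + (2 * p : ℕ) / p) (β := β) (Sm := Sm) (qr := Sl 3 * (X - 1))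
    (ξ := 0) (τ := τ) (y₂ := y₂) ch1 (hzf ch1) hε hY hy₁ hεy hβ hy₂ (hnle (by omega)) hSl hSm hSb
    hSs (Nat.zero_le _) (by
      rw [hnp, hτd]
      exact le_of_eq (by ring)) (by rw [hnp, add_zero]) le_rfl
    (mul_nonneg (by linarith) (by linarith)) (by
      have hβ0 : 0 ≤ β := (abs_nonneg _).trans (hSl 3 le_rfl)
      rw [Nat.cast_zero, zero_div, mul_zero, zero_add]
      positivity) (by
      have := mul_le_mul_of_nonneg_right hτ1 hU0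
      rw [hU] at this
      linarith)
  have hUK : |gnh F c 3 (g₀ iK) (G iK) (G ix) ω 1| ≤ 2 ^ (Ca * Y) := by
    have h1 := hgr.bm ω (hB' ω hω) 1 (by norm_num) (Nat.zero_le _)
    have e1 : fch N₁ (2 * p) ((X - 1) * p) iK ix ((X - 1) * p) = ix := fch_n hXp1
    have e0 : fch N₁ (2 * p) ((X - 1) * p) iK ix 0 = iK := rfl
    beta_reduce at h1
    rw [e1, e0] at h1
    exact h1
  -- the numbers
  have hci : Set.InjOn c (Set.Iio 3) := R.inj.mono (Set.Iio_subset_Iio (by norm_num))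
  have hWe : ∀ k ≤ N₃, EvB F c 3 D Dr ⌊(t + u k * q) * J⌋₊ N₃ (z k)
      ⌊(Eb' + y₁ * q + y₁ * q) * J⌋₊ ⌊y₁ * q * J⌋₊ (fun l => ⌊b k l * J⌋₊) (g₀ k) κ B (G k)
      (H k) := fun k hk => W'.ev k hk
  have hww : ⌊(t + u (N₁ + 1) * q) * J⌋₊ ≤ ⌊t * J⌋₊ := by
    refine Nat.floor_le_floor (mul_le_mul_of_nonneg_right ?_ hJ)
    rw [huw]
    linarith
  have hdep : ∀ k ≤ N₃, ∀ y l, DepC c l (G k y l) := fun k hk y l => (hWe k hk).ball.depG y l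
  -- the gain
  have hYl : y₂ * U - 1 ≤ Y := by
    rw [hY, hU]
    linarith [Nat.lt_floor_add_one (y₂ * (q * J))]
  have hy₂' := hy₂
  rw [← hU] at hy₂ hκJ
  have hnum : ∀ k ≤ N₃, ∀ l ≤ 3, L l (t + u k * q) (t + u k * q) * J - y₁ * U ≤ g₀ k l ∧
      (g₀ k l : ℝ) ≤ L l (t + u k * q) (t + u k * q) * J := fun k hk l hl => by
    obtain ⟨h1, h2⟩ := W'.sds k hk l hl
    refine ⟨?_, h2⟩
    have : (L l (t + u k * q) (t + u k * q) - y₁ * q) * J =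
        L l (t + u k * q) (t + u k * q) * J - y₁ * U := by rw [hU]; ring
    linarith
  have hεU : 4 * ε * U ≤ y₂ * U / 4 := by
    have := mul_le_mul_of_nonneg_right hεy hU0
    linarith
  have hy₁U : 2 * y₁ * U ≤ y₂ * U / 4 := by
    have := mul_le_mul_of_nonneg_right hy₁' hU0
    linarith
  have hXf := Nat.lt_floor_add_one (ξ * U)
  have hXU : ξ * q * J = ξ * U := by rw [hU]; ring
  have hw1 : |u (N₁ + 1)| ≤ K := by
    rw [huw, abs_neg, abs_one]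
    exact hK1
  have huK' : |u iK| ≤ K := by
    rw [huK, abs_one]
    exact hK1
  have hux' : |u ix| ≤ K := by
    rw [hux, abs_of_nonneg (by linarith)]
    exact hXK
  have hg1 : (2 : ℝ) ^ g₀ (N₁ + 1) 1 / 2 ^ g₀ (N₁ + 1) 3 * 2 ^ (-(κ₂ * ⌊ξ * U⌋₊)) ≤
      2 ^ Y * (2 ^ g₀ iK 1 / 2 ^ g₀ iK 3) := by
    rw [← Real.rpow_natCast 2 (g₀ (N₁ + 1) 1), ← Real.rpow_natCast 2 (g₀ (N₁ + 1) 3),
      ← Real.rpow_natCast 2 (g₀ iK 1), ← Real.rpow_natCast 2 (g₀ iK 3),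
      ← Real.rpow_natCast 2 Y, ← Real.rpow_sub two_pos, ← Real.rpow_sub two_pos,
      ← Real.rpow_add two_pos, ← Real.rpow_add two_pos]
    refine Real.rpow_le_rpow_of_exponent_le one_le_two ?_
    have h1 := (hnum (N₁ + 1) hNw 1 (by norm_num)).2
    have h2 := (hnum (N₁ + 1) hNw 3 le_rfl).1
    have h3 := (hnum iK hNK 1 (by norm_num)).1
    have h4 := (hnum iK hNK 3 le_rfl).2
    have h5 := (RecQ.dLd R (show 1 ≤ 3 by norm_num) huK' hw1 J).1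
    have h6 := (RecQ.dLd R (le_refl 3) huK' hw1 J).2
    rw [← hU, huK, huw] at h5 h6
    rw [huw] at h1 h2
    rw [huK] at h3 h4
    have h7 : (1 - -1 : ℝ) * U = 2 * U := by ring
    rw [h7] at h5 h6
    have h8 := mul_le_mul_of_nonneg_right hkx hU0
    have h9 : κ₂ * (ξ * U - 1) ≤ κ₂ * (⌊ξ * U⌋₊ : ℝ) :=
      mul_le_mul_of_nonneg_left (by linarith) hκ₂
    linarith
  have hEB : ∃ nb : ℝ, 0 ≤ nb ∧ |grd (G iK (ptr F J ω) 2) (bt F ω) (some (c 1)) -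
      grd (G (N₁ + 1) (ptr F J ω) 2) (bt F ω) (some (c 1))| ≤ 2 ^ (Ct * Y) * nb ∧
      nb * (2 ^ g₀ ix 2 / 2 ^ g₀ ix 3) ≤ 2 ^ Y * (2 ^ g₀ iK 1 / 2 ^ g₀ iK 3) := by
    rcases hfar with ⟨h12, hfar⟩ | h12
    · refine ⟨2 ^ g₀ (N₁ + 1) 1 / 2 ^ g₀ (N₁ + 1) 2, by positivity, ?_, ?_⟩
      · have hEB := hgT R W' (f := fch N₁ 0 (2 * p) (N₁ + 1) iK) (n := 2 * p) (p := p)
          (k₀ := N₁ + 1) (Y := Y) (u₀ := -1 + (0 : ℕ) / p) (β := β) (y₂ := y₂) ch2 hNw (by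
          rw [huw, abs_neg, abs_one]
          exact hK1) (hzf ch2) hε hY hy₁ hy₁' hεy hβ hy₂' (hnle (by omega)) hSl (fun k hk => by
          rw [ch2.fu k hk.le, huw]
          have h1 : (0 : ℝ) ≤ k / p := by positivity
          have h2 : 0 ≤ (Sl 2 - Sl 1) * (k / p) := mul_nonneg (by linarith) h1
          show (Sl 1 - Sl 2) * (-1 + ((0 : ℕ) : ℝ) / p + k / p - -1) ≤ 0
          rw [Nat.cast_zero, zero_div]
          linarith) ω (hB' ω hω)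
        rw [fch_n (show 1 ≤ 2 * p by omega), fch_0] at hEB
        exact hEB
      · rw [← Real.rpow_natCast 2 (g₀ (N₁ + 1) 1), ← Real.rpow_natCast 2 (g₀ (N₁ + 1) 2),
          ← Real.rpow_natCast 2 (g₀ iK 1), ← Real.rpow_natCast 2 (g₀ iK 3),
          ← Real.rpow_natCast 2 (g₀ ix 2), ← Real.rpow_natCast 2 (g₀ ix 3),
          ← Real.rpow_natCast 2 Y, ← Real.rpow_sub two_pos, ← Real.rpow_sub two_pos,
          ← Real.rpow_sub two_pos, ← Real.rpow_add two_pos, ← Real.rpow_add two_pos]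
        refine Real.rpow_le_rpow_of_exponent_le one_le_two ?_
        have h1 := (hnum (N₁ + 1) hNw 1 (by norm_num)).2
        have h2 := (hnum (N₁ + 1) hNw 2 (by norm_num)).1
        have h3 := (hnum iK hNK 1 (by norm_num)).1
        have h4 := (hnum iK hNK 3 le_rfl).2
        have h5 := (hnum ix hNx 2 (by norm_num)).2
        have h6 := (hnum ix hNx 3 le_rfl).1
        have a1 := (RecQ.dLd R (show 1 ≤ 3 by norm_num) huK' hw1 J).1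
        have a2 := (RecQ.dLd R (show 2 ≤ 3 by norm_num) hux' hw1 J).2
        have a3 := (RecQ.dLd R (le_refl 3) hux' huK' J).1
        rw [← hU, huK, huw] at a1
        rw [← hU, hux, huw] at a2
        rw [← hU, hux, huK] at a3
        rw [huw] at h1 h2
        rw [huK] at h3 h4
        rw [hux] at h5 h6
        have h8 := mul_le_mul_of_nonneg_right hfar hU0
        have e1 : Sl 1 * ((1 - -1) * U) = 2 * (Sl 1 * U) := by ring
        have e2 : Sl 2 * ((X - -1) * U) = Sl 2 * X * U + Sl 2 * U := by ring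
        have e3 : Sl 3 * ((X - 1) * U) = Sl 3 * X * U - Sl 3 * U := by ring
        have e4 : (Sl 2 + Sl 3 - 2 * Sl 1) * U = Sl 2 * U + Sl 3 * U - 2 * (Sl 1 * U) := by ring
        have e5 : (Sl 3 - Sl 2) * X * U = Sl 3 * X * U - Sl 2 * X * U := by ring
        have e6 : ε * U * 2 = 2 * ε * U := by ring
        rw [e1] at a1
        rw [e2] at a2
        rw [e3] at a3
        rw [e4, e5] at h8
        linarith
    · refine ⟨2 ^ g₀ iK 1 / 2 ^ g₀ iK 2, by positivity, ?_, ?_⟩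
      · have hEB := hgT R W' (f := fch N₁ 0 (2 * p) (N₁ + 1) iK) (n := 2 * p) (p := p)
          (k₀ := iK) (Y := Y) (u₀ := -1 + (0 : ℕ) / p) (β := β) (y₂ := y₂) ch2 hNK (by
          rw [huK, abs_one]
          exact hK1) (hzf ch2) hε hY hy₁ hy₁' hεy hβ hy₂' (hnle (by omega)) hSl (fun k hk => by
          rw [ch2.fu k hk.le, huK]
          have h1 : (k : ℝ) / p ≤ 2 := by
            rw [div_le_iff₀ hpR]
            have : (k : ℝ) ≤ ((2 * p : ℕ) : ℝ) := by exact_mod_cast hk.le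
            push_cast at this
            exact this
          have h2 : 0 ≤ (Sl 1 - Sl 2) * (2 - k / p) := mul_nonneg (by linarith) (by linarith)
          show (Sl 1 - Sl 2) * (-1 + ((0 : ℕ) : ℝ) / p + k / p - 1) ≤ 0
          rw [Nat.cast_zero, zero_div]
          linarith) ω (hB' ω hω)
        rw [fch_n (show 1 ≤ 2 * p by omega), fch_0] at hEB
        exact hEB
      · rw [← Real.rpow_natCast 2 (g₀ iK 1), ← Real.rpow_natCast 2 (g₀ iK 2),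
          ← Real.rpow_natCast 2 (g₀ iK 3),
          ← Real.rpow_natCast 2 (g₀ ix 2), ← Real.rpow_natCast 2 (g₀ ix 3),
          ← Real.rpow_natCast 2 Y, ← Real.rpow_sub two_pos, ← Real.rpow_sub two_pos,
          ← Real.rpow_sub two_pos, ← Real.rpow_add two_pos, ← Real.rpow_add two_pos]
        refine Real.rpow_le_rpow_of_exponent_le one_le_two ?_
        have h2 := (hnum iK hNK 2 (by norm_num)).1
        have h4 := (hnum iK hNK 3 le_rfl).2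
        have h5 := (hnum ix hNx 2 (by norm_num)).2
        have h6 := (hnum ix hNx 3 le_rfl).1
        have a2 := (RecQ.dLd R (show 2 ≤ 3 by norm_num) hux' huK' J).2
        have a3 := (RecQ.dLd R (le_refl 3) hux' huK' J).1
        rw [← hU, hux, huK] at a2
        rw [← hU, hux, huK] at a3
        rw [huK] at h2 h4
        rw [hux] at h5 h6
        have h8 : 0 ≤ (Sl 3 - Sl 2) * ((X - 1) * U) := mul_nonneg
          (by linarith [hSs 2 (by norm_num)]) (mul_nonneg (by linarith) hU0)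
        have e3 : (Sl 3 - Sl 2) * ((X - 1) * U) = Sl 3 * ((X - 1) * U) - Sl 2 * ((X - 1) * U) := by
          ring
        have e6 : ε * U * 2 = 2 * ε * U := by ring
        rw [e3] at h8
        linarith
  obtain ⟨nb, hnb0, hEB, hg2⟩ := hEB
  have hmain := mu_st_pt hci (t := ⌊t * J⌋₊) (WA := W) (WB := W) (WC := W)
    (w := ⌊(t + u (N₁ + 1) * q) * J⌋₊) (w₁ := w₁) hW hW hW hww hw₁ htJ
    (γ := g₀ (N₁ + 1)) (γK := g₀ iK) (Gw := G (N₁ + 1)) (Gx := G ix) (GK := G iK)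
    (H := H (N₁ + 1)) (Φ := Φ) (hdep _ hNw) (hdep ix hNx) (hdep iK hNK) (ω := ω) (hΦ _)
    ((hWe (N₁ + 1) hNw).cls ω (hB' ω hω) 2 (by norm_num))
    ((hWe (N₁ + 1) hNw).cls ω (hB' ω hω) 3 (by norm_num)) (mA := mu) (mB := fun _ => 0)
    (mC := fun _ => 0) (EB := 2 ^ (Ct * Y) * nb) (EC := 0)
    (hmu ω hω) hUK (by
      rw [Polynomial.eval_zero, mul_zero, sub_zero]
      exact hEB) (by
      rw [Polynomial.eval_zero, mul_zero, abs_zero, zero_mul]) (hN ω hω) (hΞ ω) (hΞ2 ω)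
  refine hmain.trans ?_
  rw [hXU]
  have hY2 : (2 : ℝ) ≤ 2 ^ Y := by
    have h1 : 1 ≤ Y := by
      have : (1 : ℝ) ≤ Y := by linarith
      exact_mod_cast this
    calc (2 : ℝ) = 2 ^ 1 := (pow_one _).symm
      _ ≤ 2 ^ Y := pow_le_pow_right₀ (by norm_num) h1
  have hn0 : (0 : ℝ) ≤ 2 ^ g₀ iK 1 / 2 ^ g₀ iK 3 := by positivity
  have hpm : ∀ {x y : ℕ}, x ≤ y → (2 : ℝ) ^ x ≤ 2 ^ y := fun h =>
    pow_le_pow_right₀ (by norm_num) h
  obtain ⟨n0, hn0d⟩ : ∃ n0 : ℝ, n0 = 2 ^ g₀ iK 1 / 2 ^ g₀ iK 3 := ⟨_, rfl⟩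
  rw [← hn0d] at hg1 hg2 hn0 ⊢
  have t1 : (2 : ℝ) ^ Y * n0 ≤ 2 ^ ((Ca + Ct + 2) * Y) * n0 :=
    mul_le_mul_of_nonneg_right (hpm (by nlinarith)) hn0
  have t2 : n0 * 2 ^ (Ca * Y) ≤ 2 ^ ((Ca + Ct + 2) * Y) * n0 := by
    rw [mul_comm]
    exact mul_le_mul_of_nonneg_right (hpm (by nlinarith)) hn0
  have t3 : 2 ^ (Ct * Y) * nb *
      (2 ^ Y * (2 ^ g₀ ix 2 / 2 ^ g₀ ix 3)) ≤ 2 ^ ((Ca + Ct + 2) * Y) * n0 := by
    calc _ = (2 : ℝ) ^ (Ct * Y) * 2 ^ Y * (nb * (2 ^ g₀ ix 2 / 2 ^ g₀ ix 3)) := by ring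
      _ ≤ (2 : ℝ) ^ (Ct * Y) * 2 ^ Y * (2 ^ Y * n0) :=
          mul_le_mul_of_nonneg_left hg2 (by positivity)
      _ = 2 ^ ((Ct + 2) * Y) * n0 := by
          rw [show (Ct + 2) * Y = Ct * Y + Y + Y by ring, pow_add, pow_add]
          ring
      _ ≤ _ := mul_le_mul_of_nonneg_right (hpm (by nlinarith)) hn0
  have e9 : (2 : ℝ) ^ ((Ca + Ct + 4) * Y) = 2 ^ ((Ca + Ct + 2) * Y) * (2 ^ Y * 2 ^ Y) := by
    rw [← pow_add, ← pow_add]
    congr 1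
    ring
  have t4 : 2 ^ ((Ca + Ct + 2) * Y) * n0 * 4 ≤ 2 ^ ((Ca + Ct + 4) * Y) * n0 := by
    rw [e9]
    have h1 : (4 : ℝ) ≤ 2 ^ Y * 2 ^ Y := by
      have := mul_le_mul hY2 hY2 (by norm_num) (by positivity)
      linarith
    have h2 : 0 ≤ (2 : ℝ) ^ ((Ca + Ct + 2) * Y) * n0 := mul_nonneg (by positivity) hn0
    have h3 := mul_le_mul_of_nonneg_left h1 h2
    calc _ ≤ _ := h3
      _ = _ := by ring
  have hpos4 : 0 ≤ (2 : ℝ) ^ ((Ca + Ct + 2) * Y) * n0 := mul_nonneg (by positivity) hn0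
  linarith [hg1.trans t1]

end Pool.TN
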