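import Pool.Agent.H90.D2.Muc

/-!
# The event of the critical cell with a static place under a thin place

`cevms`: one event of windows with the closed slope of the target in the direction of the static place
one, relative to the row, from `CGs`.
-/

set_option autoImplicit false

namespace Pool.TN

open Finset Real MvPolynomial
open Pool.Agent.H49.Ent Pool.Agent.H32.Dense Pool.STK Pool.KA Pool.KSAT Pool.K2S Pool.PB Pool.S6C
open Pool.GEN Pool.CHT Pool.CHX Pool.ISO Pool.D2R Pool.D2Z Pool.D2F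
open Pool.AVG57 (LbsE ClU CGs)
open Pool.FLF (Fam.sub)
open Pool.D2T (sh sh_rt sh_deg)
open Pool.PB.Trl (rt rt_mem t_rt)
open Pool.BFL (Pb)
open Pool.PKG (RecQ Kd)
open Pool.TNW (jA)

open Pool.D2R in
/-- **The event of the critical cell, static place one under a thin place two.** `u it = 0`: the window
of the line, `u iK = 1`: the ball, `u ix = X`: the far window, `i₀`: the window of the static charts,
`i₁`: the window of the row; the windows `-1 + k / p` are additional. -/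
theorem cevms (m S₀ : ℕ) (hS₀ : 1 ≤ S₀) : ∃ D₀ : ℕ, 1 ≤ D₀ ∧
    ∀ Dc : ℕ, D₀ ≤ Dc → ∀ S₂ : ℕ, S₀ ≤ S₂ → ∃ D : ℕ, D₀ ≤ D ∧ ∀ Dr : ℕ, D ≤ Dr →
    ∀ (Sl : ℕ → ℝ) (y gp : ℝ), 0 < y → y ≤ 1 / 8 → 0 < gp → (∀ l, 1 ≤ l → l ≤ 2 → 1 < Sl l) →
    (Sl 0 < Sl 1 ∧ Sl 0 < Sl 2) →
    ∀ (X' X : ℕ) (Sm ξ' qr' μ' vj' κ₁ ξ qr μ vj κ₂ dW τ E yp : ℝ), 0 < yp →
    MuS 1 X' X Sl Sm ξ' qr' μ' vj' κ₁ ξ qr μ vj κ₂ dW τ E →
    ((Sl 1 ≤ Sl 2 ∧ Sl 2 + Sl 3 - 2 * Sl 1 ≤ (Sl 3 - Sl 2) * X) ∨ Sl 2 ≤ Sl 1) →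
    ∃ (n₀ p : ℕ) (s ε₀ y' : ℝ), 1 ≤ n₀ ∧ 1 ≤ p ∧ 0 < s ∧ (n₀ + 1) * s ≤ gp ∧ 0 < ε₀ ∧ 0 < y' ∧
    y' ≤ y ∧
    ∀ {S : PCl m} {P P₂ : List (Fin m) × Fin m → ℝ → ℝ → ℝ} {θ θ₂ : ℝ} {c : ℕ → Fin m}
    {Pt : ℝ → ℝ → ℝ} {L T : ℕ → ℝ → ℝ → ℝ} {kd : ℕ → Kd} {N : ℕ} {A V : ℕ → ℝ} {N' : ℕ}
    {V' : ℕ → ℝ} {Eb e₂ K ε q t : ℝ},
    RecQ S P P₂ θ θ₂ c 3 Pt L T Sl kd S₀ N A V S₂ N' V' Eb e₂ K ε q t → 0 ≤ ε →
    ε ≤ ε₀ → 2 ≤ K → ∀ (A' : ℝ) (N₁ it iK ix i₀ i₁ : ℕ) (u : ℕ → ℝ) (Sc : ℕ → Prop), A' ≤ K →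
    it ≤ N₁ → iK ≤ N₁ → ix ≤ N₁ → i₀ ≤ N₁ → i₁ ≤ N₁ → u it = 0 → u iK = 1 → u ix = X →
    u i₁ ≤ 0 → (Sl 3 - 1) * X - (Sl 3 - 2) * u i₁ + 1 ≤ A' →
    (∀ k ≤ N₁, -K + 1 ≤ u k ∧ u k + gp ≤ A') →
    (∀ k ≤ N₁, ∃ j < N, A j = A' ∧ V j = u k) →
    (∀ k ≤ (X + 1) * p, u (N₁ + 1 + k) = -1 + k / p) →
    (∀ k ≤ (X + 1) * p, ∃ j < N', V' j = -1 + k / p) →
    (∀ k ≤ N₁, ∀ j, 1 ≤ j → j ≤ n₀ → ∃ j' < N', V' j' = u k + j * s) →
    (∀ l < 3, Sc l ↔ l = 1) → kd 0 = .one → kd 1 = .sta → kd 2 = .thin →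
    ∀ (pl sl : ℕ → ℝ) (ι : ℝ) (k₁ : ℕ), (∀ l ≤ 3, pl l ≤ L l (t - q) (t - q) - yp * q ∧
      L l (t - q) (t - q) ≤ sl l) →
    CGs S c 1 Dc (t - q) (dW * q) (t + vj' * q) (t + X' * q) (t + vj * q) (t + X * q) pl sl
      (qr' * q) (ξ' * q) (qr * q) (ξ * q) (μ * q) κ₂ ι k₁ (1 / 2) →
    ∃ K₁ : ℝ, 0 < K₁ ∧ ∀ κ : ℝ, 0 < κ → Bas S (fun J F A₀ =>
      ∃ (M : ℕ) (z : ℕ → ℕ → ℕ) (B : F.Ω → Prop) (e h pp : ℕ → ℕ) (g gc gT g₀ : ℕ → ℕ → ℕ)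
        (G : ℕ → PtT F → ℕ → MvPolynomial (Option (Fin m)) ℝ)
        (H : ℕ → LnT F → ℕ → MvPolynomial (Option (Fin m)) ℝ)
        (Th : ℕ → PtT F → ℕ → MvPolynomial (Option (Fin m)) ℝ)
        (TH : ℕ → LnT F → ℕ → MvPolynomial (Option (Fin m)) ℝ)
        (Gt : ℕ → PtT F → MvPolynomial (Option (Fin m)) ℝ)
        (Ht : ℕ → LnT F → MvPolynomial (Option (Fin m)) ℝ)
        (mu : LnT F → Polynomial ℝ), Sub B A₀ ∧
        Pe F.p A₀ ≤ K₁ * Pe F.p B ∧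
        CEv F c 3 D Dr N₁ M ⌊(t + A' * q) * J⌋₊ ⌊y' * q * J⌋₊ Sc
          (fun k => ⌊(t + u k * q) * J⌋₊) e h pp z g gc gT g₀ κ B G H Th TH Gt Ht ∧
        (N₁ ≤ M ∧ ∀ k ≤ N₁, ∀ k' ≤ N₁, u k + 1 / p ≤ u k' →
          z k k' = ⌊(t + u k' * q) * J⌋₊ - ⌊(t + u k * q) * J⌋₊) ∧
        (∀ s, (mu s).natDegree ≤ 2 * (D + (2 * Dc + 2))) ∧
        (∀ ω, B ω → |jA c Sc (fun k => ⌊(t + u k * q) * J⌋₊) G TH Ht i₀ i₁ iK 1 ω -
          (mu (slam F ⌊(t + u it * q) * J⌋₊ ω)).eval (rt F ⌊(t + u it * q) * J⌋₊ ω)| ≤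
          2 ^ ⌊y * q * J⌋₊ * (2 ^ g₀ iK 1 / 2 ^ g₀ iK 3)) ∧
        ∀ k ≤ N₁, ((e k : ℝ) ≤ (Eb + y' * q) * J ∧ (h k : ℝ) ≤ y' * q * J) ∧
          (L 3 (t + A' * q) (t + u k * q) * J - y' * q * J ≤ pp k ∧
            (pp k : ℝ) ≤ L 3 (t + A' * q) (t + u k * q) * J) ∧
          (∀ l ≤ 3, |(g₀ k l : ℝ) - L l (t + u k * q) (t + u k * q) * J| ≤ y' * q * J ∧
            |(g k l : ℝ) - L l (t + u k * q) (t + u k * q) * J| ≤ y' * q * J) ∧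
          ∀ l < 3, Sc l → |(gT k l : ℝ) - L l (t + A' * q) (t + u k * q) * J| ≤
            y' * q * J) := by
  obtain ⟨D₀, hD₀, hcev⟩ := Pool.D2R.RecQ.cevx m 3 S₀ (by norm_num) le_rfl hS₀
  obtain ⟨Cl, hCl, hlbs⟩ := lbsE_of m D₀ 2
  refine ⟨D₀, hD₀, fun Dc hDc S₂ hSS => ?_⟩
  obtain ⟨D, hDD, hcev⟩ := hcev S₂ hSS
  refine ⟨D, hDD, fun Dr hDr => ?_⟩
  obtain ⟨CB, hCB, hcev⟩ := hcev Dr hDr
  obtain ⟨Cg, hCg, hgrd⟩ := grdA D 3
  obtain ⟨Ct, hCt, hgrt⟩ := grdTl D 3 3 (by norm_num) le_rfl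
  obtain ⟨Ca, hCa, hmuS⟩ := mu_evS D
  intro Sl y gp hy hy8 hgp hs1 hs3 X' X Sm ξ' qr' μ' vj' κ₁ ξ qr μ vj κ₂ dW τ Ef yp hyp MU hfar
  have MA := MU.A
  have MB := MU.B
  have hXX := MU.XX
  have hdf := MU.df
  have hkx := MU.kx
  norm_num only at hdf hkx
  have hX2 : 2 ≤ X := MB.X2
  have hX'2 : 2 ≤ X' := MA.X2
  have hSm0 := MB.Sm0
  have hsm : ∀ l < 3, Sl l ≤ Sm := fun l hl => MB.sm l (by omega)
  have hsb : Sm ≤ Sl 3 := MB.sb
  have hq1A : Sm * (X' + 1) + τ ≤ qr' := MA.q1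
  have hq2A : qr' + ξ' ≤ Sl 3 * (X' + 1) := MA.q2
  have hj2A : ξ' ≤ (Sl 3 - Sm) * (vj' + 1) := MA.j2
  have hq1B : Sm * (X + 1) + τ ≤ qr := MB.q1
  have hq2B : qr + ξ ≤ Sl 3 * (X + 1) := MB.q2
  have hj2B : ξ ≤ (Sl 3 - Sm) * (vj + 1) := MB.j2
  have hτ0 := MB.t0
  have hμ0 := MB.m0
  have hκ20 := MB.k0
  have hξ0 := MB.x0
  have hCgR : (1 : ℝ) ≤ Cg := by exact_mod_cast hCg
  have hCtR : (1 : ℝ) ≤ Ct := by exact_mod_cast hCt
  have hCaR : (1 : ℝ) ≤ Ca := by exact_mod_cast hCa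
  -- the constant of the gradients
  obtain ⟨Cu, hCu⟩ : ∃ Cu : ℕ, Cu = Cg + Ct + 2 := ⟨_, rfl⟩
  have hCuR : (Cu : ℝ) = Cg + Ct + 2 := by rw [hCu]; push_cast; ring
  obtain ⟨β, hβ⟩ : ∃ β : ℝ, β = 1 + ∑ l ∈ range 4, |Sl l| := ⟨_, rfl⟩
  have hβ1 : ∀ l ≤ 3, |Sl l| ≤ β := by
    intro l hl
    have := Finset.single_le_sum (f := fun l => |Sl l|) (fun _ _ => abs_nonneg _)
      (Finset.mem_range.2 (show l < 4 by omega))
    rw [hβ]
    linarith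
  have hβ0 : 0 < β := by
    rw [hβ]
    have : 0 ≤ ∑ l ∈ range 4, |Sl l| := Finset.sum_nonneg fun _ _ => abs_nonneg _
    linarith
  obtain ⟨y₂, hy₂⟩ : ∃ y₂ : ℝ, y₂ = min (y / (2 * (Ca + 1))) (min (μ / (2 * Cu)) (τ / 4)) :=
    ⟨_, rfl⟩
  have hCu0 : (0 : ℝ) < Cu := by linarith
  have hy₂0 : 0 < y₂ := by
    rw [hy₂]
    exact lt_min (by positivity) (lt_min (by positivity) (by positivity))
  have hy₂a : (Ca + 1) * y₂ ≤ y / 2 := by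
    have h1 : y₂ ≤ y / (2 * (Ca + 1)) := by rw [hy₂]; exact min_le_left _ _
    rw [le_div_iff₀ (by positivity)] at h1
    linarith
  have hy₂b : Cu * y₂ ≤ μ / 2 := by
    have h1 : y₂ ≤ μ / (2 * Cu) := by rw [hy₂]; exact (min_le_right _ _).trans (min_le_left _ _)
    rw [le_div_iff₀ (by positivity)] at h1
    linarith
  have hy₂c : 4 * y₂ ≤ τ := by
    have h1 : y₂ ≤ τ / 4 := by rw [hy₂]; exact (min_le_right _ _).trans (min_le_right _ _)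
    linarith
  have hy₂y : y₂ ≤ y := by
    have : y₂ ≤ (Ca + 1) * y₂ := le_mul_of_one_le_left hy₂0.le (by linarith)
    linarith
  obtain ⟨y', hy'⟩ : ∃ y' : ℝ, y' = min (y₂ / 8) yp := ⟨_, rfl⟩
  have hy'0 : 0 < y' := by
    rw [hy']
    exact lt_min (by positivity) hyp
  have hy'a : y' ≤ y₂ / 8 := by rw [hy']; exact min_le_left _ _
  have hy'b : y' ≤ yp := by rw [hy']; exact min_le_right _ _
  obtain ⟨n₀, s, ε₀, y₁, hn₀, hs, hns, hε₀, hy₁, hCBy, hcev⟩ :=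
    hcev Sl y' gp hy'0 (by linarith) hgp (fun l h1 h2 _ => hs1 l h1 h2) (fun _ => hs3)
  have hy₁y : y₁ ≤ y' := (le_mul_of_one_le_left hy₁.le hCB).trans hCBy
  obtain ⟨p, hp⟩ := exists_nat_ge (max (16 * β / y₂) (1 / gp))
  have hp1 : 16 * β ≤ y₂ * p := by
    have h1 := (le_max_left _ _).trans hp
    rw [div_le_iff₀ hy₂0] at h1
    linarith
  have hpR : (0 : ℝ) < p := by
    by_contra hcon
    have : y₂ * (p : ℝ) ≤ 0 := mul_nonpos_of_nonneg_of_nonpos hy₂0.le (not_lt.1 hcon)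
    linarith
  have hp0 : 1 ≤ p := by
    have : 0 < p := by exact_mod_cast hpR
    omega
  have hpg : 1 / (p : ℝ) ≤ gp := by
    have h1 := (le_max_right _ _).trans hp
    rw [div_le_iff₀ hgp] at h1
    rw [div_le_iff₀ hpR]
    linarith
  refine ⟨n₀, p, s, min ε₀ (min (y₂ / 16) (y' / 4)), y', hn₀, hp0, hs, hns,
    lt_min hε₀ (lt_min (by positivity) (by positivity)), hy'0, by linarith, ?_⟩
  intro S P P₂ θ θ₂ c Pt L T kd N A V N' V' Eb e₂ K ε q t R hε hεε hK A' N₁ it iK ix i₀ i₁ u Sc hAK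
    hit hiK hix hi₀ hi₁ hut huK hux hu1 hAfar hub hmn huc hxt hch hSc k0 k1 k2 pl sl ι k₁ hpl hG
  have hεa : ε ≤ ε₀ := hεε.trans (min_le_left _ _)
  have hεb : 16 * ε ≤ y₂ := by
    have := hεε.trans ((min_le_right _ _).trans (min_le_left _ _))
    linarith
  have hεc : ε ≤ y' / 4 := hεε.trans ((min_le_right _ _).trans (min_le_right _ _))
  have hq := R.q0
  have ht0 := R.t0
  have ht1 := R.t1
  have hXA : X + gp ≤ A' := by
    have := (hub ix hix).2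
    rwa [hux] at this
  obtain ⟨N₃, hN₃⟩ : ∃ N₃, N₃ = N₁ + 1 + (X + 1) * p := ⟨_, rfl⟩
  have hXR : (2 : ℝ) ≤ X := by exact_mod_cast hX2
  have hX'R : (2 : ℝ) ≤ X' := by exact_mod_cast hX'2
  have hXXR : (X' : ℝ) ≤ X := by exact_mod_cast hXX
  have hcs : ∀ k ≤ N₃, k ≤ N₁ ∨ ∃ j ≤ (X + 1) * p, k = N₁ + 1 + j := fun k hk => by
    rcases Nat.lt_or_ge N₁ k with h | h
    · exact Or.inr ⟨k - (N₁ + 1), by omega, by omega⟩
    · exact Or.inl h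
  have hchb : ∀ k ≤ (X + 1) * p, -1 ≤ (-1 + k / p : ℝ) ∧ (-1 + k / p : ℝ) ≤ X := fun k hk => by
    have h1 : (0 : ℝ) ≤ k / p := by positivity
    have h2 : (k : ℝ) / p ≤ X + 1 := by
      rw [div_le_iff₀ hpR]
      have : (k : ℝ) ≤ ((X + 1) * p : ℕ) := by exact_mod_cast hk
      push_cast at this
      exact this
    constructor <;> linarith
  have hvb : ∀ k ≤ N₃, -K + 1 ≤ u k ∧ u k + gp ≤ A' := by
    intro k hk
    rcases hcs k hk with h | ⟨j, hj, rfl⟩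
    · exact hub k h
    · rw [huc j hj]
      have := hchb j hj
      constructor <;> linarith
  obtain ⟨r', hr'⟩ : ∃ r' : ℝ, r' = 1 / p / 2 := ⟨_, rfl⟩
  have hr'0 : 0 < r' := by rw [hr']; positivity
  have hSc' : ∀ l < 3, ¬ Sc l → kd l = .one ∨ kd l = .thin := fun l hl hsc => by
    have : l = 0 ∨ l = 1 ∨ l = 2 := by omega
    rcases this with rfl | rfl | rfl
    · exact Or.inl k0
    · exact absurd ((hSc 1 hl).2 rfl) hsc
    · exact Or.inr k2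
  obtain ⟨K₁, hK₁, hcev⟩ := hcev R hε hεa (by linarith) A' r' N₁ N₃ N₃ u Sc hAK hr'0 (by omega)
    hvb hmn (fun k h1 h2 => by
      rcases hcs k h2 with h | ⟨j, hj, rfl⟩
      · omega
      · rw [huc j hj]
        exact hxt j hj) hch hSc'
  refine ⟨4 * K₁, by positivity, fun κ hκ => ?_⟩
  have hB1 := hcev (κ / 4) (by positivity)
  -- the times
  obtain ⟨d, hd⟩ : ∃ d : ℝ, d = 1 - t := ⟨_, rfl⟩
  have hKq : 2 * q ≤ K * q := mul_le_mul_of_nonneg_right hK hq.le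
  have hd0 : 0 < d := by rw [hd]; linarith
  have hd1 : d ≤ 1 := by rw [hd]; linarith
  have hL2 : 0 < Real.log 2 := Real.log_pos one_lt_two
  obtain ⟨ε₁, hε₁⟩ : ∃ ε₁ : ℝ, ε₁ = d * Real.log 2 / (2 * Cl) := ⟨_, rfl⟩
  have hCl0 : 0 < Cl := by linarith
  have hε₁0 : 0 < ε₁ := by rw [hε₁]; positivity
  have hε₁1 : Cl * ε₁ ≤ d * Real.log 2 / 2 := by
    rw [hε₁]
    exact le_of_eq (by field_simp)
  have htm := bas_ev (R.tmh.2 ε₁ hε₁0) (κ := 1 / K₁) (by positivity)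
  have hpos : Bas S (fun _ F A => 0 < Pe F.p A) := ⟨1, one_pos, 0, fun J _ F A hA =>
    R.tmh.1 1 J F A hA⟩
  have hGb := bas_ev (hG 1) (κ := 1 / (2 * K₁)) (by positivity)
  -- large J
  obtain ⟨n, hn⟩ : ∃ n, n = (X + 1) * p := ⟨_, rfl⟩
  have hyq : 0 < y₂ * q := mul_pos hy₂0 hq
  obtain ⟨J₁, hJ₁⟩ := exists_nat_ge ((8 + n + 8 * |κ₂|) / (y₂ * q))
  obtain ⟨J₂, hJ₂⟩ := exists_nat_ge (4 * (X + 1) / (τ * q))
  obtain ⟨J₃, hJ₃⟩ := exists_nat_ge (1 / (r' * q))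
  obtain ⟨J₄, hJ₄⟩ := exists_nat_ge (4 * Cl / (d * Real.log 2))
  obtain ⟨J₅, hJ₅⟩ := exists_nat_ge (2 / (y' * q))
  refine Bas.mono (max (max (max J₁ J₂) (max J₃ J₄)) J₅) (((hB1.and htm).and hpos).and hGb) ?_
  rintro J hJ F A₀ ⟨⟨⟨hA1, hA2⟩, hA0⟩, hA3'⟩
  have hJ0 : (0 : ℝ) ≤ J := Nat.cast_nonneg J
  have hJ' := (le_max_left _ _).trans hJ
  have hJe : 2 ≤ y' * (q * J) := by
    have h1 : (J₅ : ℝ) ≤ J := by exact_mod_cast (le_max_right _ _).trans hJ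
    have h2 := hJ₅.trans h1
    rw [div_le_iff₀ (mul_pos hy'0 hq)] at h2
    linarith
  have hJa : 8 + n + 8 * |κ₂| ≤ y₂ * (q * J) := by
    have h1 : (J₁ : ℝ) ≤ J := by
      exact_mod_cast ((le_max_left _ _).trans (le_max_left _ _)).trans hJ'
    have h2 := hJ₁.trans h1
    rw [div_le_iff₀ hyq] at h2
    linarith
  have hJb : 4 * (X + 1) ≤ τ * (q * J) := by
    have h1 : (J₂ : ℝ) ≤ J := by
      exact_mod_cast ((le_max_right _ _).trans (le_max_left _ _)).trans hJ'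
    have h2 := hJ₂.trans h1
    rw [div_le_iff₀ (mul_pos hτ0 hq)] at h2
    linarith
  have hJc : 1 ≤ r' * (q * J) := by
    have h1 : (J₃ : ℝ) ≤ J := by
      exact_mod_cast ((le_max_left _ _).trans (le_max_right _ _)).trans hJ'
    have h2 := hJ₃.trans h1
    rw [div_le_iff₀ (mul_pos hr'0 hq)] at h2
    linarith
  have hJd : 4 * Cl ≤ d * Real.log 2 * J := by
    have h1 : (J₄ : ℝ) ≤ J := by
      exact_mod_cast ((le_max_right _ _).trans (le_max_right _ _)).trans hJ'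
    have h2 := hJ₄.trans h1
    rw [div_le_iff₀ (by positivity)] at h2
    linarith
  have hκa : 0 ≤ |κ₂| := abs_nonneg _
  have hn0 : (0 : ℝ) ≤ n := Nat.cast_nonneg n
  obtain ⟨Y, hY⟩ : ∃ Y : ℕ, Y = ⌊y₂ * (q * J)⌋₊ := ⟨_, rfl⟩
  have hYl : y₂ * (q * J) - 1 ≤ Y := by
    rw [hY]
    linarith [Nat.lt_floor_add_one (y₂ * (q * J))]
  have hYu : (Y : ℝ) ≤ y₂ * (q * J) := by
    rw [hY]
    exact Nat.floor_le (by positivity)
  have hnY : (((X + 1) * p : ℕ) : ℝ) ≤ 2 ^ Y := by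
    rw [← hn]
    have h1 : n ≤ Y := by
      have : (n : ℝ) ≤ Y := by linarith
      exact_mod_cast this
    calc (n : ℝ) ≤ ((2 ^ n : ℕ) : ℝ) := by exact_mod_cast Nat.lt_two_pow_self.le
      _ = 2 ^ n := by push_cast; ring
      _ ≤ 2 ^ Y := pow_le_pow_right₀ (by norm_num) h1
  have hmulq : ∀ {x y : ℝ}, x ≤ y → x * q ≤ y * q := fun h => mul_le_mul_of_nonneg_right h hq.le
  have hmulJ : ∀ {x y : ℝ}, x ≤ y → x * (J : ℝ) ≤ y * J := fun h =>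
    mul_le_mul_of_nonneg_right h hJ0
  -- the radii
  obtain ⟨z, hz⟩ : ∃ z : ℕ → ℕ → ℕ, z = fun k k' => if u k + 1 / p ≤ u k' ∧ k' ≤ N₃ then
      ⌊(t + u k' * q) * J⌋₊ - ⌊(t + u k * q) * J⌋₊ else
      ⌊(t + A' * q) * J⌋₊ - ⌊(t + u k * q) * J⌋₊ := ⟨_, rfl⟩
  have hpos' : ∀ k ≤ N₃, 0 ≤ t + u k * q := fun k hk => by
    have := hmulq (show -K ≤ u k by linarith [(hvb k hk).1])
    linarith
  have hflo : ∀ x y : ℝ, 0 ≤ t + x * q → x + 1 / p ≤ y →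
      r' * q * J ≤ ((⌊(t + y * q) * J⌋₊ - ⌊(t + x * q) * J⌋₊ : ℕ) : ℝ) := by
    intro x y hx hxy
    have h1 : (⌊(t + x * q) * J⌋₊ : ℝ) ≤ (t + x * q) * J := Nat.floor_le (mul_nonneg hx hJ0)
    have h2 := (Nat.lt_floor_add_one ((t + y * q) * (J : ℝ))).le
    have hpp : (0 : ℝ) < 1 / p := by positivity
    have h3 : ⌊(t + x * q) * J⌋₊ ≤ ⌊(t + y * q) * J⌋₊ :=
      Nat.floor_le_floor (hmulJ (by linarith [hmulq (show x ≤ y by linarith)]))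
    rw [Nat.cast_sub h3]
    have h4 : (x + 1 / p) * q * J ≤ y * q * J := hmulJ (hmulq hxy)
    have h5 : 1 / (p : ℝ) = 2 * r' := by rw [hr']; ring
    rw [h5] at h4
    have h6 : (x + 2 * r') * q * J = x * q * J + 2 * (r' * (q * J)) := by ring
    have h7 : r' * q * J = r' * (q * J) := by ring
    rw [h6] at h4
    rw [h7]
    linarith
  have hz1 : ∀ k ≤ N₃, ∀ k' ≤ N₃, r' * q * J ≤ z k k' ∧
      z k k' ≤ ⌊(t + A' * q) * J⌋₊ - ⌊(t + u k * q) * J⌋₊ := by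
    intro k hk k' hk'
    rw [hz]
    beta_reduce
    split_ifs with h1
    · refine ⟨hflo _ _ (hpos' k hk) h1.1, Nat.sub_le_sub_right (Nat.floor_le_floor
        (hmulJ ?_)) _⟩
      have := hmulq (show u k' ≤ A' by linarith [(hvb k' hk').2])
      linarith
    · exact ⟨hflo _ _ (hpos' k hk) (by linarith [(hvb k hk).2]), le_rfl⟩
  have hz2 : ∀ k ≤ N₃, ∀ k' ≤ N₃, u k + 1 / p ≤ u k' → z k k' = ⌊(t + u k' * q) * J⌋₊ -
      ⌊(t + u k * q) * J⌋₊ := fun k _ k' hk' h => by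
    rw [hz]
    exact if_pos ⟨h, hk'⟩
  obtain ⟨B, e, h, pp, b, g, gc, gT, g₀, G, H, Th, TH, Gt, Ht, hBA, hBP, E, W, hE0, hnum⟩ :=
    hA1 z hz1
  have hpn := Pe_nonneg F.isLaw
  have hB0 : 0 < Pe F.p B := by
    by_contra hcon
    have h2 : Pe F.p B = 0 := le_antisymm (not_lt.1 hcon) (hpn _)
    rw [h2, mul_zero] at hBP
    linarith
  have hAJ : ⌊(t + A' * q) * J⌋₊ ≤ J := E.AJ
  have htJ : ⌊t * (J : ℝ)⌋₊ ≤ J := by
    have h1 : ⌊t * (J : ℝ)⌋₊ ≤ ⌊(1 : ℝ) * J⌋₊ := Nat.floor_le_floor (hmulJ (by linarith))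
    rwa [one_mul, Nat.floor_natCast] at h1
  have hut' : ⌊(t + u it * q) * (J : ℝ)⌋₊ = ⌊t * (J : ℝ)⌋₊ := by
    rw [hut, zero_mul, add_zero]
  have hCBy' : 4 * (CB * y₁) ≤ y₂ := by linarith
  have hy₁8 : 8 * y₁ ≤ y₂ := by linarith
  have hy₂8 : 8 ≤ y₂ * (q * J) := by linarith
  have hqJ : 0 ≤ q * (J : ℝ) := by positivity
  -- the row
  have hap := apN_of R hy'0 hεc hAK (N₁ := N₁) (v := u) (fun k hk =>
      ⟨by linarith [(hub k hk).1], by linarith [(hub k hk).2]⟩) hmn (Sc := Sc)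
      (fun l hl hl1 => by
        have : l = 1 := (hSc l hl).1 hl1
        rw [this]
        exact k1) hJe E hnum
  obtain ⟨U, hU⟩ : ∃ U : ℝ, U = q * J := ⟨_, rfl⟩
  have hwx : ∀ k ≤ N₁, u k ≤ X → ⌊(t + u k * q) * (J : ℝ)⌋₊ ≤ ⌊(t + u ix * q) * (J : ℝ)⌋₊ :=
    fun k hk h1 => Nat.floor_le_floor (hmulJ (by
      rw [hux]
      linarith [hmulq h1]))
  have hrow : ∀ ω, B ω → |grd (G ix (ptr F J ω) 3) (bt F ω) (some (c 2)) -
      grd (Ht i₁ (slam F ⌊(t + u i₁ * q) * J⌋₊ ω)) (bt F ω) (some (c 2))| ≤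
      2 ^ Y * (2 ^ g₀ ix 2 / 2 ^ g₀ ix 3) := by
    intro ω hω
    have c1 := hap.cl1
    have p1 := hap.pa i₁ hi₁
    have p2 := (hap.ga ix hix 3 le_rfl).2
    have p2' := (hap.ga ix hix 3 le_rfl).1
    have p3 := (hap.w1 ix hix).1
    have p4 := hap.A2
    have p5 := hap.lo ix hix 3 le_rfl
    have p6 := hap.wA ix hix
    have e0 : u ix * U = X * U := by rw [hux]
    rw [hux] at p2 p2' p5
    rw [← hU] at p1 p2 p2' p3 p4 p5 c1 hJe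
    have hU0 : 0 ≤ U := by rw [hU]; exact hqJ
    have hyU : y' * U ≤ U / 64 := by
      have := mul_le_mul_of_nonneg_right (show y' ≤ 1 / 64 by linarith) hU0
      linarith
    refine E.row2 hi₁ hix (hwx i₁ hi₁ (by linarith)) (fun h2 => absurd ((hSc 2 (by norm_num)).1 h2)
      (by norm_num)) ?_ ?_ ?_ hω
    · have h1 : ((3 * ⌊y' * q * J⌋₊ : ℕ) : ℝ) ≤ g₀ ix 3 := by
        push_cast
        have h2 := mul_le_mul_of_nonneg_right (show (4 : ℝ) ≤ K + X by linarith) hU0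
        linarith
      exact_mod_cast h1
    · have h1 : ((g₀ ix 3 + (⌊(t + A' * q) * J⌋₊ - ⌊(t + u ix * q) * J⌋₊) : ℕ) : ℝ) ≤ pp i₁ := by
        push_cast [Nat.cast_sub p6]
        have h2 := mul_le_mul_of_nonneg_right hAfar hU0
        have e1 : ((Sl 3 - 1) * X - (Sl 3 - 2) * u i₁ + 1) * U = Sl 3 * X * U - X * U -
          Sl 3 * u i₁ * U + 2 * (u i₁ * U) + U := by ring
        have e2 : 2 * (A' - u i₁) * U = 2 * (A' * U) - 2 * (u i₁ * U) := by ring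
        rw [e1] at h2
        rw [e2] at p1
        linarith
      exact_mod_cast h1
    · have h1 : ((6 * ⌊y' * q * J⌋₊ + 1 : ℕ) : ℝ) ≤ Y := by
        push_cast
        have h2 := mul_le_mul_of_nonneg_right hy'a hU0
        rw [← hU] at hYl hy₂8
        linarith
      exact_mod_cast h1
  -- the final bound
  have hnat : ∀ {x : ℝ}, x ≤ 2 ^ (Ca * Y) * (2 ^ g₀ iK 1 / 2 ^ g₀ iK 3) →
      x ≤ 2 ^ ⌊y * q * J⌋₊ * (2 ^ g₀ iK 1 / 2 ^ g₀ iK 3) := by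
    intro x hx
    refine hx.trans (mul_le_mul_of_nonneg_right ?_ (by positivity))
    refine pow_le_pow_right₀ (by norm_num) (Nat.le_floor ?_)
    push_cast
    have h2 : (Ca : ℝ) * Y ≤ Ca * (y₂ * (q * J)) := mul_le_mul_of_nonneg_left hYu (by linarith)
    have h3 := mul_le_mul_of_nonneg_right hy₂a hqJ
    have h4 : 0 ≤ y * (q * J) := by positivity
    have h5 : y * q * J = y * (q * J) := by ring
    have h6 : (Ca + 1) * y₂ * (q * J) = Ca * (y₂ * (q * J)) + y₂ * (q * J) := by ring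
    rw [h5]
    linarith
  have huw : u (N₁ + 1) = -1 := by
    have := huc 0 (Nat.zero_le _)
    rw [add_zero, Nat.cast_zero, zero_div, add_zero] at this
    exact this
  have hwq : t + u (N₁ + 1) * q = t - q := by rw [huw]; ring
  have hev := hE0 (N₁ + 1) (by omega) (by omega)
  beta_reduce at hev
  rw [hwq] at hev
  -- the coefficient bounds
  obtain ⟨r1, r2⟩ := rem_num (J := J) hCl hd1 hε₁1 hJd
  have hwJ : (⌊(t - q) * (J : ℝ)⌋₊ : ℝ) ≤ (t - q) * J := Nat.floor_le (by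
    have : 0 ≤ t - q := by linarith
    positivity)
  have hwJ' : ⌊(t - q) * (J : ℝ)⌋₊ ≤ J := le_trans (Nat.floor_le_floor (hmulJ (by linarith)))
    htJ
  obtain ⟨B₁, b1, b2, b3⟩ := hlbs (K := Dc) (E := 1) (p := pl) (s := sl) hB0 hev hDc hwJ'
    (θ := ε₁ * J) (by positivity) (hA2 B hBA (by
      rw [div_mul_eq_mul_div, one_mul, div_le_iff₀ hK₁]
      linarith) hB0) (by
      refine r1.trans (mul_le_mul_of_nonneg_right ?_ hL2.le)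
      rw [hd]
      linarith) r2 (fun l hl => by
      have h1 := (W.sds (N₁ + 1) (by omega) l hl).1
      rw [hwq] at h1
      refine Nat.floor_le_of_le (le_trans (hmulJ ?_) h1)
      have h2 := (hpl l hl).1
      have h3 := hmulq (show y₁ ≤ yp by linarith)
      linarith) (fun l hl => by
      have h1 := (W.sds (N₁ + 1) (by omega) l hl).2
      rw [hwq] at h1
      exact h1.trans (hmulJ (hpl l hl).2))
  have hB₁0 : 0 < Pe F.p B₁ := by linarith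
  -- the chain
  have hnpos : 1 ≤ n := by
    rw [hn]
    exact Nat.mul_pos (by omega) hp0
  obtain ⟨f, hf⟩ : ∃ f : ℕ → ℕ, f = fch N₁ 0 n (N₁ + 1) ix := ⟨_, rfl⟩
  have hf0 : f 0 = N₁ + 1 := by rw [hf]; rfl
  have hfn : f n = ix := by rw [hf]; exact fch_n hnpos
  have hnp : (n : ℝ) / p = X + 1 := by
    rw [hn]
    push_cast
    field_simp
  have ch : ChF u N₃ n p (-1) K f := by
    have h1 := chF_mk (u := u) (a := 0) (n := n) (ia := N₁ + 1) (ib := ix) hp0 hN₃ huc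
      (by linarith) (show (X : ℝ) ≤ K by linarith) (by omega) hnpos (by omega) (by omega) (by
      rw [huw, Nat.cast_zero, zero_div, add_zero]) (by
      rw [hux, zero_add, hnp]
      ring)
    rw [hf]
    have e1 : (-1 : ℝ) + (0 : ℕ) / p = -1 := by rw [Nat.cast_zero, zero_div, add_zero]
    rw [e1] at h1
    exact h1
  have hzf : ∀ {n' : ℕ} {u₀ : ℝ} {f' : ℕ → ℕ}, ChF u N₃ n' p u₀ K f' → ∀ k < n',
      z (f' k) (f' (k + 1)) = ⌊(t + u (f' (k + 1)) * q) * J⌋₊ - ⌊(t + u (f' k) * q) * J⌋₊ :=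
    fun ch k hk => hz2 _ (ch.fN k hk.le) _ (ch.fN (k + 1) hk) (ch.le hk).le
  obtain ⟨n', hn'⟩ : ∃ n', n' = (X' + 1) * p := ⟨_, rfl⟩
  have hn'n : n' ≤ n := by
    rw [hn', hn]
    exact Nat.mul_le_mul_right _ (by omega)
  have hn'p : (n' : ℝ) / p = X' + 1 := by
    rw [hn']
    push_cast
    field_simp
  have hnn2 : (n : ℝ) ≤ 2 ^ Y := by rw [hn]; exact hnY
  have hnn2' : (n' : ℝ) ≤ 2 ^ Y := le_trans (by exact_mod_cast hn'n) hnn2
  have hτJ : 4 ≤ τ * (q * J) := by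
    have : (4 : ℝ) ≤ 4 * (X + 1) := by linarith
    linarith
  -- one ball of the chain
  have hks : ∀ {x : ℝ} {ξ₀ : ℝ}, -1 ≤ x → ξ₀ ≤ (Sl 3 - Sm) * (x + 1) →
      ξ₀ ≤ (Sl 3 - Sm) * ((⌊(x + 1) * p⌋₊ : ℝ) / p) + 2 * (β / p) := by
    intro x ξ₀ hx hξ₀
    have hksl : (x + 1) * p - 1 ≤ (⌊(x + 1) * p⌋₊ : ℝ) := by
      linarith [Nat.lt_floor_add_one ((x + 1) * (p : ℝ))]
    have h1 : (x + 1) - 1 / p ≤ (⌊(x + 1) * p⌋₊ : ℝ) / p := by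
      rw [le_div_iff₀ hpR]
      have : (x + 1 - 1 / p) * p = (x + 1) * p - 1 := by field_simp
      linarith
    have h2 := mul_le_mul_of_nonneg_left h1 (show 0 ≤ Sl 3 - Sm by linarith)
    have h3 : (Sl 3 - Sm) * (x + 1 - 1 / p) = (Sl 3 - Sm) * (x + 1) -
      (Sl 3 - Sm) * (1 / p) := by ring
    have h4 : (Sl 3 - Sm) * (1 / p) ≤ β * (1 / p) :=
      mul_le_mul_of_nonneg_right (by
        have := (abs_le.1 (hβ1 3 le_rfl)).2
        linarith) (by positivity)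
    have h5 : β * (1 / p) = β / p := by ring
    have h6 : 0 ≤ β / p := by positivity
    linarith
  have hksn : ∀ {x : ℝ} {X₁ : ℕ}, -1 ≤ x → x ≤ X₁ → ⌊(x + 1) * p⌋₊ ≤ (X₁ + 1) * p := by
    intro x X₁ hx hxX
    have hksu : (⌊(x + 1) * p⌋₊ : ℝ) ≤ (x + 1) * p :=
      Nat.floor_le (mul_nonneg (by linarith) hpR.le)
    have h1 : (x + 1) * (p : ℝ) ≤ (X₁ + 1) * p := mul_le_mul_of_nonneg_right (by linarith) hpR.le
    have h2 : (⌊(x + 1) * p⌋₊ : ℝ) ≤ (((X₁ + 1) * p : ℕ) : ℝ) := by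
      push_cast
      linarith
    exact_mod_cast h2
  obtain ⟨ks, hks0⟩ : ∃ ks : ℕ, ks = ⌊(vj + 1) * p⌋₊ := ⟨_, rfl⟩
  obtain ⟨ks', hks'0⟩ : ∃ ks' : ℕ, ks' = ⌊(vj' + 1) * p⌋₊ := ⟨_, rfl⟩
  have hksn1 : ks ≤ n := by
    rw [hks0, hn]
    exact hksn MB.j0 MB.j1
  have hksn' : ks' ≤ n' := by
    rw [hks'0, hn']
    exact hksn MA.j0 MA.j1
  have hgrB := hgrd R W (f := f) (n := n) (p := p) (ks := ks) (Y := Y) (β := β) (Sm := Sm)
    (qr := qr) (ξ := ξ) (τ := τ) ch (hzf ch) hε hY hCBy' hεb hp1 hy₂8 hnn2 hβ1 hSm0 hsb hsm hksn1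
    (by rw [hnp]; exact hq1B) (by rw [hnp]; exact hq2B) hξ0 MB.x1 (by
      rw [hks0]
      exact hks MB.j0 hj2B) hτJ
  have ch' := ch.res hn'n
  have hgrA := hgrd R W (f := f) (n := n') (p := p) (ks := ks') (Y := Y) (β := β) (Sm := Sm)
    (qr := qr') (ξ := ξ') (τ := τ) ch' (hzf ch') hε hY hCBy' hεb hp1 hy₂8 hnn2' hβ1 hSm0 hsb hsm
    hksn' (by rw [hn'p]; exact hq1A) (by rw [hn'p]; exact hq2A) MA.x0 MA.x1 (by
      rw [hks'0]
      exact hks MA.j0 hj2A) hτJ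
  have hCgu : (2 : ℝ) ^ (Cg * Y) ≤ 2 ^ (Cu * Y) :=
    pow_le_pow_right₀ (by norm_num) (Nat.mul_le_mul_right _ (by omega))
  have hgrB' := grdE_sub (grdE_monoU hgrB hCgu) b1
  have hgrA' := grdE_sub (grdE_monoU hgrA hCgu) b1
  rw [hf0] at hgrB' hgrA'
  -- the difference of the gradients in the direction of the place two
  have hfpos : ∀ k ≤ n, f k ≤ N₃ := ch.fN
  have hci : Set.InjOn c (Set.Iio 3) := R.inj.mono (Set.Iio_subset_Iio (by norm_num))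
  have hdep : ∀ k ≤ N₃, ∀ y l, DepC c l (G k y l) := fun k hk y l => (W.ev k hk).ball.depG y l
  have ch2 := ch.sub (a := n') (n' := n - n') (by omega)
  have hufn' : u (f n') = X' := by
    rw [ch.fu n' hn'n, hn'p]
    ring
  have hdd : ∀ ω, B₁ ω → |gnh F c 3 (g₀ (N₁ + 1)) (G (f 0)) (G (f n)) ω 2 -
      gnh F c 3 (g₀ (N₁ + 1)) (G (f 0)) (G (f n')) ω 2| ≤ 2 ^ (Cu * Y) / 2 ^ ⌊ξ * q * J⌋₊ := by
    intro ω hω
    have h1 := hgrt R W (f := fun k => f (n' + k)) (n := n - n') (p := p) (k₀ := f n') (Y := Y)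
      (u₀ := -1 + (n' : ℕ) / p) (β := β) (y₂ := y₂) ch2 (hfpos n' hn'n) (ch.fK n' hn'n) (hzf ch2) hε
      hY hCBy' hy₁8 hεb hp1 hy₂8 (le_trans (by exact_mod_cast Nat.sub_le _ _) hnn2) hβ1
      (fun k hk => by
        show (Sl 2 - Sl 3) * (u (f (n' + k)) - u (f n')) ≤ 0
        rw [ch.fu (n' + k) (by omega), ch.fu n' hn'n]
        push_cast
        have h2 : (0 : ℝ) ≤ k / p := by positivity
        have h3 : 0 ≤ (Sl 3 - Sl 2) * (k / p) := mul_nonneg (by linarith [hsm 2 (by norm_num)]) h2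
        have e1 : (Sl 2 - Sl 3) * (-1 + ((n' : ℝ) + k) / p - (-1 + n' / p)) =
          -((Sl 3 - Sl 2) * (k / p)) := by ring
        rw [e1]
        linarith) ω (b1 ω hω)
    beta_reduce at h1
    rw [show n' + (n - n') = n by omega, add_zero] at h1
    have g1 := gnh_last (show 1 ≤ 3 by norm_num) hci (g₀ (N₁ + 1)) (hdep (f 0) (ch.fN 0 (by omega)))
      (hdep (f n) (ch.fN n le_rfl)) ω
    have g2 := gnh_last (show 1 ≤ 3 by norm_num) hci (g₀ (N₁ + 1)) (hdep (f 0) (ch.fN 0 (by omega)))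
      (hdep (f n') (ch.fN n' hn'n)) ω
    norm_num only at g1 g2 h1
    rw [g1, g2, ← mul_sub, abs_mul, abs_of_pos (by positivity)]
    have e2 : grd (G (f n) (ptr F J ω) 3) (bt F ω) (some (c 2)) -
        grd (G (f 0) (ptr F J ω) 3) (bt F ω) (some (c 2)) -
        (grd (G (f n') (ptr F J ω) 3) (bt F ω) (some (c 2)) -
          grd (G (f 0) (ptr F J ω) 3) (bt F ω) (some (c 2))) =
        grd (G (f n) (ptr F J ω) 3) (bt F ω) (some (c 2)) -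
          grd (G (f n') (ptr F J ω) 3) (bt F ω) (some (c 2)) := by ring
    rw [e2]
    refine (mul_le_mul_of_nonneg_left h1 (by positivity)).trans ?_
    rw [div_mul_eq_mul_div, div_le_div_iff₀ (by positivity) (by positivity), mul_div_assoc',
      mul_div_assoc', div_mul_eq_mul_div, div_le_iff₀ (by positivity), ← pow_add, ← pow_add,
      ← pow_add, ← pow_add, ← pow_add]
    refine pow_le_pow_right₀ (by norm_num) ?_
    -- the numbers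
    have hU0 : 0 ≤ U := by rw [hU]; exact hqJ
    have hnumW : ∀ k ≤ N₃, ∀ l ≤ 3, L l (t + u k * q) (t + u k * q) * J - y₁ * U ≤ g₀ k l ∧
        (g₀ k l : ℝ) ≤ L l (t + u k * q) (t + u k * q) * J := fun k hk l hl => by
      obtain ⟨h1, h2⟩ := W.sds k hk l hl
      refine ⟨?_, h2⟩
      have : (L l (t + u k * q) (t + u k * q) - y₁ * q) * J =
          L l (t + u k * q) (t + u k * q) * J - y₁ * U := by rw [hU]; ring
      linarith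
    have hNw : N₁ + 1 ≤ N₃ := by omega
    have l1 := (hnumW (N₁ + 1) hNw 3 le_rfl).2
    have l2 := (hnumW (N₁ + 1) hNw 2 (by norm_num)).1
    have l3 := (hnumW (f n') (hfpos n' hn'n) 2 (by norm_num)).2
    have l4 := (hnumW (f n') (hfpos n' hn'n) 3 le_rfl).1
    have hw1 : |u (N₁ + 1)| ≤ K := by
      rw [huw, abs_neg, abs_one]
      linarith
    have d1 := (RecQ.dLd R (show 2 ≤ 3 by norm_num) (ch.fK n' hn'n) hw1 J).2
    have d2 := (RecQ.dLd R (le_refl 3) (ch.fK n' hn'n) hw1 J).1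
    rw [← hU] at d1 d2
    rw [hufn'] at d1 d2 l3 l4
    rw [huw] at d1 d2 l1 l2
    have x1 : (⌊ξ * q * J⌋₊ : ℝ) ≤ ξ * U := by
      have : ξ * q * J = ξ * U := by rw [hU]; ring
      rw [this]
      exact Nat.floor_le (mul_nonneg hξ0 hU0)
    have x2 := mul_le_mul_of_nonneg_right hdf hU0
    have e3 : (Sl 3 - Sl 2) * (X' + 1) * U = Sl 3 * ((X' - -1) * U) - Sl 2 * ((X' - -1) * U) := by
      ring
    have e4 : (ξ + μ + τ) * U = ξ * U + μ * U + τ * U := by ring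
    rw [e3, e4] at x2
    have x3 : 0 ≤ μ * U := mul_nonneg hμ0.le hU0
    have x4 : 4 * (y₂ * U) ≤ τ * U := by
      have := mul_le_mul_of_nonneg_right hy₂c hU0
      linarith
    have x5 : y₁ * U ≤ y₂ * U / 8 := by
      have := mul_le_mul_of_nonneg_right hy₁8 hU0
      linarith
    have x6 : ε * U ≤ y₂ * U / 16 := by
      have := mul_le_mul_of_nonneg_right hεb hU0
      linarith
    have x7 : 0 ≤ y₂ * U := mul_nonneg hy₂0.le hU0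
    have x8 : (Ct * Y : ℝ) ≤ Cu * Y := mul_le_mul_of_nonneg_right (by linarith) (Nat.cast_nonneg _)
    have key : ((g₀ (N₁ + 1) 3 + (Ct * Y + g₀ (f n') 2) + ⌊ξ * q * J⌋₊ : ℕ) : ℝ) ≤
        ((Cu * Y + g₀ (N₁ + 1) 2 + g₀ (f n') 3 : ℕ) : ℝ) := by
      push_cast
      linarith
    have key' : g₀ (N₁ + 1) 3 + (Ct * Y + g₀ (f n') 2) + ⌊ξ * q * J⌋₊ ≤
        Cu * Y + g₀ (N₁ + 1) 2 + g₀ (f n') 3 := by exact_mod_cast key
    omega
  have hcl : ∀ (kk : ℕ) (x : ℝ), kk ≤ n → (kk : ℝ) / p ≤ x + 1 →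
      ClU F 4 kk ⌊(t + x * q) * J⌋₊ B₁ (fun k => G (f k)) := by
    intro kk x hkk hx k hk
    refine ⟨⌊(t + u (f k) * q) * J⌋₊, H (f k), Nat.floor_le_floor (hmulJ ?_), fun ω hω l hl =>
      (W.ev (f k) (ch.fN k (hk.trans hkk))).cls ω (b1 ω hω) l (by omega)⟩
    have h1 : u (f k) ≤ x := by
      rw [ch.fu k (hk.trans hkk)]
      have : (k : ℝ) / p ≤ kk / p := div_le_div_of_nonneg_right (by exact_mod_cast hk) hpR.le
      linarith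
    linarith [hmulq h1]
  have hflp : ∀ {x : ℝ}, -1 ≤ x → (⌊(x + 1) * p⌋₊ : ℝ) / p ≤ x + 1 := by
    intro x hx
    rw [div_le_iff₀ hpR]
    exact Nat.floor_le (mul_nonneg (by linarith) hpR.le)
  obtain ⟨Wm, w1, w2, mu, w3, -, w4⟩ := hA3' B₁ (fun ω hω => hBA ω (b1 ω hω)) (by
      rw [div_mul_eq_mul_div, one_mul, div_le_iff₀ (by positivity)]
      have h1 := mul_le_mul_of_nonneg_left b2 hK₁.le
      linarith) ks' n' ks n (g₀ (N₁ + 1)) (fun k => G (f k)) (H (N₁ + 1)) (2 ^ (Cu * Y)) (by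
      rw [hf0]
      exact b3) (hcl ks' vj' (by omega) (by
      rw [hks'0]
      exact hflp MA.j0)) (hcl n' X' hn'n (by rw [hn'p])) hksn' (hcl ks vj hksn1 (by
      rw [hks0]
      exact hflp MB.j0)) (hcl n X le_rfl (by rw [hnp])) hksn1 hgrA' hgrB' hdd (by
      rw [← Real.rpow_natCast]
      refine Real.rpow_le_rpow_of_exponent_le one_le_two ?_
      push_cast
      have h1 : (Cu : ℝ) * Y ≤ Cu * (y₂ * (q * J)) := mul_le_mul_of_nonneg_left hYu (by linarith)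
      have h2 := mul_le_mul_of_nonneg_right hy₂b hqJ
      have h4 : μ * q / 2 * J = μ * (q * J) / 2 := by ring
      rw [h4]
      linarith)
  have hgh := good_half F.isLaw hB₁0 w4
  obtain ⟨B₂, hB₂⟩ : ∃ B₂ : F.Ω → Prop, B₂ = fun ω => B₁ ω ∧
      |gnh F c (1 + 2) (g₀ (N₁ + 1)) (G (f 0)) (G (f n)) ω 1 -
        (mu (slam F Wm ω)).eval (rt F Wm ω)| ≤ (2 : ℝ) ^ (-(κ₂ * ⌊ξ * q * J⌋₊)) := ⟨_, rfl⟩
  have hP2 : Pe F.p B₁ / 2 ≤ Pe F.p B₂ := by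
    rw [hB₂]
    exact hgh
  have s1 : Sub B₂ B₁ := fun ω hω => by
    rw [hB₂] at hω
    exact hω.1
  have s2 : Sub B₂ B := fun ω hω => b1 ω (s1 ω hω)
  have hWt : Wm ≤ ⌊t * (J : ℝ)⌋₊ := by
    refine Nat.le_floor (w2.trans (hmulJ ?_))
    have := hmulq MB.d1
    linarith
  have hw₁t : ⌊(t + u i₁ * q) * (J : ℝ)⌋₊ ≤ ⌊t * (J : ℝ)⌋₊ := Nat.floor_le_floor (hmulJ (by
    have := hmulq hu1
    linarith))
  have hmuE := hmuS R W (N₁ := N₁) (X := X) (iK := iK) (ix := ix) (Sm := Sm) (W := Wm)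
    (w₁ := ⌊(t + u i₁ * q) * J⌋₊) hp0 hX2 hN₃ hiK hix huK hux huc
    (by linarith) hz2 hε hY hCBy' hy₁8 hεb hp1 hy₂8 hnY hβ1 hSm0 hsm hsb (by
      -- the gap of the slopes
      have h1 : τ ≤ (Sl 3 - Sm) * (X + 1) := by linarith
      have h2 := mul_le_mul_of_nonneg_right h1 hqJ
      have h3 : (Sl 3 - Sm) * (X + 1) * (q * J) = (Sl 3 - Sm) * (q * J) * (X + 1) := by ring
      rw [h3] at h2
      have h4 : (0 : ℝ) < X + 1 := by linarith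
      by_contra hcon
      have h5 := mul_lt_mul_of_pos_right (not_le.1 hcon) h4
      linarith) hκ20 (by
      have := le_abs_self κ₂
      linarith) hξ0 hkx hfar htJ hWt hw₁t (Ht i₁) mu B₂ s2 (fun s => (E.evs i₁ hi₁).pH s)
    (fun ω hω => by
      rw [hB₂] at hω
      have h1 := hω.2
      rw [hf0, hfn] at h1
      exact h1) (fun ω hω => hrow ω (s2 ω hω))
    (fun ω => mx Sc (kT (fun k => ⌊(t + u k * q) * (J : ℝ)⌋₊) TH ω i₀) (gG G ω iK))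
    (fun ω l => mx_cvc (fun l => cvc_grd ((E.evs i₀ hi₀).thin.depH _ _) _)
      (fun l => cvc_grd ((E.evs iK hiK).ball.depG _ _) _) l)
    (fun ω => by
      rw [mx_neg (fun h2 => absurd ((hSc 2 (by norm_num)).1 h2) (by norm_num))]
      rfl)
  refine ⟨N₃, z, B₂, e, h, pp, g, gc, gT, g₀, G, H, Th, TH, Gt, Ht,
    fun s => stC c ⌊t * J⌋₊ Wm Wm Wm ⌊(t + u (N₁ + 1) * q) * J⌋₊ ⌊(t + u i₁ * q) * J⌋₊
      (g₀ (N₁ + 1)) mu (fun _ => 0) (fun _ => 0) (H (N₁ + 1)) (Ht i₁) s,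
    fun ω hω => hBA ω (s2 ω hω), ?_, ?_,
    ⟨by omega, fun k hk k' hk' h9 => hz2 k (by omega) k' (by omega) h9⟩, ?_, ?_, hnum⟩
  · have h1 := mul_le_mul_of_nonneg_left (show Pe F.p B ≤ 4 * Pe F.p B₂ by linarith) hK₁.le
    linarith
  · exact E.sb (B' := B₂) (κ₁ := 1 / 4) (κ₂ := κ) s2 (by linarith) hκ.le (by linarith)
  · intro s
    exact stC_deg w3 (fun _ => by rw [Polynomial.natDegree_zero]; omega)
      (fun _ => by rw [Polynomial.natDegree_zero]; omega)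
      (fun s l => ((W.ev (N₁ + 1) (by omega)).ball.degH s l).trans le_rfl)
      (fun s => (E.evs i₁ hi₁).dH s) s
  · intro ω hω
    rw [hut']
    exact hnat (hmuE ω hω)

end Pool.TN
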