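import Pool.Agent.H90.D2.CaB

/-!
# D2, `(1,2,2;3)`, both rough: the numbers

The hypotheses of `c6_a` and `c6_b` on the thresholds, for powers of one number `V = 2 ^ v`.
-/

set_option autoImplicit false

namespace Pool.D2N

open Finset Real
open Pool.D2A Pool.D2JA

section num

variable {V : ℝ}

theorem pw_le (hV : 2 ≤ V) {m n : ℕ} (h : m ≤ n) : V ^ m ≤ V ^ n :=
  pow_le_pow_right₀ (by linarith) h

theorem ct_le (hV : 2 ≤ V) {c : ℝ} (n : ℕ) (h : c ≤ 2 ^ n) : c ≤ V ^ n :=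
  h.trans (pow_le_pow_left₀ (by norm_num) hV n)

theorem mp_le (hV : 2 ≤ V) {a b : ℝ} {m n : ℕ} (ha : a ≤ V ^ m) (hb : b ≤ V ^ n) (hb0 : 0 ≤ b) :
    a * b ≤ V ^ (m + n) := by
  rw [pow_add]
  exact mul_le_mul ha hb hb0 (by positivity)

theorem pp_le {a : ℝ} {m : ℕ} (ha0 : 0 ≤ a) (ha : a ≤ V ^ m) (n : ℕ) : a ^ n ≤ V ^ (m * n) := by
  rw [pow_mul]
  exact pow_le_pow_left₀ ha0 ha n

theorem sm_le (hV : 2 ≤ V) {a : ℝ} {m b c : ℕ} (ha : a ≤ V ^ m) (h : m + c ≤ b) :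
    a * (1 / V ^ b) ≤ 1 / V ^ c := by
  have hV0 : 0 < V := by linarith
  have h1 : a * (1 / V ^ b) ≤ V ^ m * (1 / V ^ b) :=
    mul_le_mul_of_nonneg_right ha (by positivity)
  refine h1.trans ?_
  rw [mul_one_div, div_le_div_iff₀ (by positivity) (by positivity), one_mul, ← pow_add]
  exact pw_le hV h

theorem iv_lt (hV : 2 ≤ V) {m n : ℕ} (h : m < n) : 1 / V ^ n < 1 / V ^ m := by
  have hV0 : 0 < V := by linarith
  exact one_div_lt_one_div_of_lt (by positivity) (pow_lt_pow_right₀ (by linarith) h)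

theorem iv_le (hV : 2 ≤ V) {m n : ℕ} (h : m ≤ n) : 1 / V ^ n ≤ 1 / V ^ m := by
  have hV0 : 0 < V := by linarith
  exact one_div_le_one_div_of_le (by positivity) (pw_le hV h)

theorem LL_le (hV : 2 ≤ V) : 16 * V ^ 6 ≤ V ^ 10 := by
  have := mp_le hV (ct_le hV (c := 16) 4 (by norm_num)) (le_refl (V ^ 6)) (by positivity)
  simpa using this

theorem LL3_le (hV : 2 ≤ V) : 3 + 2 * (16 * V ^ 6) ≤ V ^ 12 := by
  have h1 : (1 : ℝ) ≤ V ^ 6 := one_le_pow₀ (by linarith)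
  have h2 : 35 * V ^ 6 ≤ V ^ (6 + 6) :=
    mp_le hV (ct_le hV (c := 35) 6 (by norm_num)) (le_refl (V ^ 6)) (by positivity)
  have h3 : V ^ (6 + 6) = V ^ 12 := by norm_num
  linarith

/-- `((3 + 2 LL) 2 ^ k) ^ 3`. -/
theorem cube_le (hV : 2 ≤ V) {x : ℝ} (hx0 : 0 ≤ x) (hx : x ≤ V) :
    ((3 + 2 * (16 * V ^ 6)) * x) ^ 3 ≤ V ^ 39 := by
  have h1 : (3 + 2 * (16 * V ^ 6)) * x ≤ V ^ (12 + 1) :=
    mp_le hV (LL3_le hV) (by rwa [pow_one]) hx0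
  exact pp_le (by positivity) h1 3

/-- The output of [2a]. -/
theorem nA0 (hV : 2 ≤ V) {S : ℝ} (hS : 0 ≤ S) :
    80 * (16 * V ^ 6) ^ 4 * (1 / V ^ 56) / (1 / V ^ 8) * S ≤ S / V := by
  have hV0 : 0 < V := by linarith
  have h1 : 80 * (16 * V ^ 6) ^ 4 * (1 / V ^ 56) / (1 / V ^ 8) =
      80 * 16 ^ 4 * V ^ 32 * (1 / V ^ 56) := by
    field_simp
  have h2 : 80 * 16 ^ 4 * V ^ 32 ≤ V ^ (23 + 32) :=
    mp_le hV (ct_le hV 23 (by norm_num)) (le_refl _) (by positivity)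
  have h3 := sm_le hV h2 (c := 1) (b := 56) (by norm_num)
  rw [h1, div_eq_mul_one_div S V, mul_comm S]
  rw [pow_one] at h3
  exact mul_le_mul_of_nonneg_right h3 hS

/-- `h3` of `c6_a`. -/
theorem nA3 (hV : 2 ≤ V) {x : ℝ} (hx0 : 0 ≤ x) (hx : x ≤ V) :
    ((3 + 2 * (16 * V ^ 6)) * x) ^ 3 *
      (40960 * (16 * V ^ 6) ^ 12 * (1 / V ^ 280) / (1 / V ^ 8) ^ 6) < 1 / V ^ 56 := by
  have hV0 : 0 < V := by linarith
  have h1 : ((3 + 2 * (16 * V ^ 6)) * x) ^ 3 *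
      (40960 * (16 * V ^ 6) ^ 12 * (1 / V ^ 280) / (1 / V ^ 8) ^ 6) =
      (((3 + 2 * (16 * V ^ 6)) * x) ^ 3 * (40960 * (16 * V ^ 6) ^ 12 * V ^ 48)) *
        (1 / V ^ 280) := by
    field_simp
  have h2 : (16 * V ^ 6) ^ 12 ≤ V ^ (10 * 12) := pp_le (by positivity) (LL_le hV) 12
  have h3 : 40960 * (16 * V ^ 6) ^ 12 ≤ V ^ (16 + 10 * 12) :=
    mp_le hV (ct_le hV 16 (by norm_num)) h2 (by positivity)
  have h4 : 40960 * (16 * V ^ 6) ^ 12 * V ^ 48 ≤ V ^ (16 + 10 * 12 + 48) :=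
    mp_le hV h3 le_rfl (by positivity)
  have h5 := mp_le hV (cube_le hV hx0 hx) h4 (by positivity)
  rw [h1]
  exact lt_of_le_of_lt (sm_le hV h5 (c := 57) (by norm_num)) (iv_lt hV (by norm_num))

/-- The error of the reading. -/
theorem nAe (hV : 2 ≤ V) :
    eR (16 * V ^ 6) (1 / V ^ 8) (1 / V ^ 396) (1 / V ^ 424) ≤ 1 / V ^ 340 := by
  have hV0 : 0 < V := by linarith
  have h1 : eR (16 * V ^ 6) (1 / V ^ 8) (1 / V ^ 396) (1 / V ^ 424) =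
      (4 * (16 * V ^ 6) ^ 2 * (2 + 4 * (16 * V ^ 6) ^ 2 * V ^ 8)) * (1 / V ^ 396) +
      (4 * (16 * V ^ 6) ^ 2 * (16 * (16 * V ^ 6) ^ 4 * V ^ 16)) * (1 / V ^ 424) := by
    unfold eR eA
    field_simp
    ring
  have h2 : (16 * V ^ 6) ^ 2 ≤ V ^ (10 * 2) := pp_le (by positivity) (LL_le hV) 2
  have h3 : (4 : ℝ) * (16 * V ^ 6) ^ 2 ≤ V ^ (2 + 10 * 2) :=
    mp_le hV (ct_le hV 2 (by norm_num)) h2 (by positivity)
  have h4 : 4 * (16 * V ^ 6) ^ 2 * V ^ 8 ≤ V ^ (2 + 10 * 2 + 8) :=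
    mp_le hV h3 le_rfl (by positivity)
  have h5 : 2 + 4 * (16 * V ^ 6) ^ 2 * V ^ 8 ≤ V ^ 31 := by
    have h6 : (2 : ℝ) ≤ V ^ 30 := (by linarith : (2 : ℝ) ≤ V).trans (by
      have := pw_le hV (show 1 ≤ 30 by norm_num)
      rwa [pow_one] at this)
    have h7 : V ^ 31 = V ^ 30 * V := by ring
    have h8 : V ^ (2 + 10 * 2 + 8) = V ^ 30 := by norm_num
    have h9 : 0 < V ^ 30 := by positivity
    rw [h8] at h4
    rw [h7]
    nlinarith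
  have h6 : 4 * (16 * V ^ 6) ^ 2 * (2 + 4 * (16 * V ^ 6) ^ 2 * V ^ 8) ≤ V ^ (2 + 10 * 2 + 31) :=
    mp_le hV h3 h5 (by positivity)
  have h7 : (16 * V ^ 6) ^ 4 ≤ V ^ (10 * 4) := pp_le (by positivity) (LL_le hV) 4
  have h8 : (16 : ℝ) * (16 * V ^ 6) ^ 4 ≤ V ^ (4 + 10 * 4) :=
    mp_le hV (ct_le hV 4 (by norm_num)) h7 (by positivity)
  have h9 : 16 * (16 * V ^ 6) ^ 4 * V ^ 16 ≤ V ^ (4 + 10 * 4 + 16) :=
    mp_le hV h8 le_rfl (by positivity)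
  have h10 : 4 * (16 * V ^ 6) ^ 2 * (16 * (16 * V ^ 6) ^ 4 * V ^ 16) ≤
      V ^ (2 + 10 * 2 + (4 + 10 * 4 + 16)) := mp_le hV h3 h9 (by positivity)
  have h11 := sm_le hV h6 (b := 396) (c := 341) (by norm_num)
  have h12 := sm_le hV h10 (b := 424) (c := 341) (by norm_num)
  have h13 : 1 / V ^ 341 + 1 / V ^ 341 ≤ 1 / V ^ 340 := by
    have h14 : (1 : ℝ) / V ^ 341 = 1 / V ^ 340 * (1 / V) := by
      field_simp
    have h15 : 1 / V ≤ 1 / 2 := one_div_le_one_div_of_le (by norm_num) hV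
    have h16 : 0 < 1 / V ^ 340 := by positivity
    rw [h14]
    nlinarith
  rw [h1]
  linarith

/-- `h2` of `c6_a`. -/
theorem nA2 (hV : 2 ≤ V) {x G : ℝ} (hx0 : 0 ≤ x) (hx : x ≤ V) (hG : G = V ^ 334) :
    ((3 + 2 * (16 * V ^ 6)) * x) ^ 3 *
      (eR (16 * V ^ 6) (1 / V ^ 8) (1 / V ^ 396) (1 / V ^ 424) + 3 * (16 * V ^ 6) / G) <
      1 / V ^ 280 := by
  have hV0 : 0 < V := by linarith
  have h1 : eR (16 * V ^ 6) (1 / V ^ 8) (1 / V ^ 396) (1 / V ^ 424) + 3 * (16 * V ^ 6) / G ≤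
      (1 + 3 * (16 * V ^ 6)) * (1 / V ^ 334) := by
    have h2 := (nAe hV).trans (iv_le hV (show 334 ≤ 340 by norm_num))
    rw [hG]
    have h3 : 3 * (16 * V ^ 6) / V ^ 334 = 3 * (16 * V ^ 6) * (1 / V ^ 334) := by
      rw [mul_one_div]
    rw [h3]
    nlinarith
  have h4 : 1 + 3 * (16 * V ^ 6) ≤ V ^ 12 := by
    have h5 : (1 : ℝ) ≤ V ^ 6 := one_le_pow₀ (by linarith)
    have h6 : 49 * V ^ 6 ≤ V ^ (6 + 6) :=
      mp_le hV (ct_le hV (c := 49) 6 (by norm_num)) (le_refl (V ^ 6)) (by positivity)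
    have h7 : V ^ (6 + 6) = V ^ 12 := by norm_num
    linarith
  have h6 : ((3 + 2 * (16 * V ^ 6)) * x) ^ 3 * (1 + 3 * (16 * V ^ 6)) ≤ V ^ (39 + 12) :=
    mp_le hV (cube_le hV hx0 hx) h4 (by positivity)
  have h7 : ((3 + 2 * (16 * V ^ 6)) * x) ^ 3 *
      (eR (16 * V ^ 6) (1 / V ^ 8) (1 / V ^ 396) (1 / V ^ 424) + 3 * (16 * V ^ 6) / G) ≤
      ((3 + 2 * (16 * V ^ 6)) * x) ^ 3 * (1 + 3 * (16 * V ^ 6)) * (1 / V ^ 334) := by
    rw [mul_assoc]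
    exact mul_le_mul_of_nonneg_left h1 (by positivity)
  exact lt_of_le_of_lt (h7.trans (sm_le hV h6 (c := 281) (by norm_num))) (iv_lt hV (by norm_num))

/-- `h1` of `c6_a`. -/
theorem nA1 (hV : 2 ≤ V) {x : ℝ} (hx0 : 0 ≤ x) (hx : x ≤ V) :
    ((3 + 2 * (16 * V ^ 6)) * x) ^ 3 * (4 * (16 * V ^ 6) ^ 2 * (1 / V ^ 494) / (1 / V ^ 8)) <
      1 / V ^ 424 := by
  have hV0 : 0 < V := by linarith
  have h1 : ((3 + 2 * (16 * V ^ 6)) * x) ^ 3 *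
      (4 * (16 * V ^ 6) ^ 2 * (1 / V ^ 494) / (1 / V ^ 8)) =
      (((3 + 2 * (16 * V ^ 6)) * x) ^ 3 * (4 * (16 * V ^ 6) ^ 2 * V ^ 8)) * (1 / V ^ 494) := by
    field_simp
  have h2 : (16 * V ^ 6) ^ 2 ≤ V ^ (10 * 2) := pp_le (by positivity) (LL_le hV) 2
  have h3 : (4 : ℝ) * (16 * V ^ 6) ^ 2 ≤ V ^ (2 + 10 * 2) :=
    mp_le hV (ct_le hV 2 (by norm_num)) h2 (by positivity)
  have h4 : 4 * (16 * V ^ 6) ^ 2 * V ^ 8 ≤ V ^ (2 + 10 * 2 + 8) :=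
    mp_le hV h3 le_rfl (by positivity)
  have h5 := mp_le hV (cube_le hV hx0 hx) h4 (by positivity)
  rw [h1]
  exact lt_of_le_of_lt (sm_le hV h5 (c := 425) (by norm_num)) (iv_lt hV (by norm_num))

/-- `h11` of `c6_a`. -/
theorem nA11 (hV : 2 ≤ V) : 8 * (16 * V ^ 6) ^ 2 * (1 / V ^ 424) ≤ (1 / V ^ 8) ^ 2 := by
  have h2 : (16 * V ^ 6) ^ 2 ≤ V ^ (10 * 2) := pp_le (by positivity) (LL_le hV) 2
  have h3 : (8 : ℝ) * (16 * V ^ 6) ^ 2 ≤ V ^ (3 + 10 * 2) :=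
    mp_le hV (ct_le hV 3 (by norm_num)) h2 (by positivity)
  have h4 : (1 / V ^ 8) ^ 2 = 1 / V ^ 16 := by
    rw [div_pow, one_pow, ← pow_mul]
  rw [h4]
  exact sm_le hV h3 (by norm_num)

/-- `hδ` of `c6_a`. -/
theorem nAd (hV : 2 ≤ V) : 4 * (16 * V ^ 6) * (1 / V ^ 494) ≤ (1 / V ^ 8) ^ 2 := by
  have h3 : (4 : ℝ) * (16 * V ^ 6) ≤ V ^ (2 + 10) :=
    mp_le hV (ct_le hV 2 (by norm_num)) (LL_le hV) (by positivity)
  have h4 : (1 / V ^ 8) ^ 2 = 1 / V ^ 16 := by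
    rw [div_pow, one_pow, ← pow_mul]
  rw [h4]
  exact sm_le hV h3 (by norm_num)

/-- `hη` of `c6_a`. -/
theorem nAh (hV : 2 ≤ V) {L K x S : ℝ} (hL0 : 0 ≤ L) (hL : L ≤ V) (hK0 : 0 ≤ K) (hK : K ≤ V)
    (hx0 : 0 ≤ x) (hx : x ≤ V) (hS : V ^ 600 ≤ S) :
    1152 * L ^ 11 * K * x ^ 3 ≤ 1 / V ^ 396 * S := by
  have hV0 : 0 < V := by linarith
  have h1 : L ^ 11 ≤ V ^ (1 * 11) := pp_le hL0 (by rwa [pow_one]) 11
  have h2 : 1152 * L ^ 11 ≤ V ^ (11 + 1 * 11) :=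
    mp_le hV (ct_le hV 11 (by norm_num)) h1 (by positivity)
  have h3 : 1152 * L ^ 11 * K ≤ V ^ (11 + 1 * 11 + 1) :=
    mp_le hV h2 (by rwa [pow_one]) hK0
  have h4 : x ^ 3 ≤ V ^ (1 * 3) := pp_le hx0 (by rwa [pow_one]) 3
  have h5 : 1152 * L ^ 11 * K * x ^ 3 ≤ V ^ (11 + 1 * 11 + 1 + 1 * 3) :=
    mp_le hV h3 h4 (by positivity)
  refine h5.trans ?_
  have h6 : 1 / V ^ 396 * V ^ 600 ≤ 1 / V ^ 396 * S := mul_le_mul_of_nonneg_left hS (by positivity)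
  refine le_trans ?_ h6
  rw [one_div_mul_eq_div, le_div_iff₀ (by positivity), ← pow_add]
  exact pw_le hV (by norm_num)

/-- A logarithm. -/
theorem lg_le {s v g n : ℕ} {X : ℝ} (h0 : 0 < X) (h : X ≤ 2 ^ s * (1 / (2 ^ v) ^ n)) :
    ((n : ℝ) * v - g) * Real.log 2 ≤ ((s : ℝ) - g) * Real.log 2 - Real.log X := by
  have h1 : Real.log X ≤ Real.log (2 ^ s * (1 / (2 ^ v) ^ n)) := Real.log_le_log h0 h
  have h2 : Real.log (2 ^ s * (1 / (2 ^ v) ^ n) : ℝ) =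
      s * Real.log 2 - n * v * Real.log 2 := by
    rw [Real.log_mul (by positivity) (by positivity), Real.log_div (by norm_num) (by positivity),
      Real.log_one, Real.log_pow, Real.log_pow, Real.log_pow]
    ring
  rw [h2] at h1
  nlinarith

/-- `2 / V ^ (n + 1) ≤ 1 / V ^ n`. -/
theorem two_iv (hV : 2 ≤ V) (n : ℕ) : 1 / V ^ (n + 1) + 1 / V ^ (n + 1) ≤ 1 / V ^ n := by
  have hV0 : 0 < V := by linarith
  have h14 : (1 : ℝ) / V ^ (n + 1) = 1 / V ^ n * (1 / V) := by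
    rw [pow_succ]
    field_simp
  have h15 : 1 / V ≤ 1 / 2 := one_div_le_one_div_of_le (by norm_num) hV
  have h16 : 0 < 1 / V ^ n := by positivity
  rw [h14]
  nlinarith

/-- The argument of the logarithm in `c6_a`. -/
theorem nAl (hV : 2 ≤ V) {a S : ℝ} (ha : a ≤ V) (hS : V ^ 600 ≤ S) :
    2 * (2 * (S * eR (16 * V ^ 6) (1 / V ^ 8) (1 / V ^ 396) (1 / V ^ 424)) + 3 * a + 1) + 1 ≤
      S * (1 / V ^ 337) := by
  have hV0 : 0 < V := by linarith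
  have hS0 : 0 < S := lt_of_lt_of_le (by positivity) hS
  have h1 := nAe hV
  have h2 : S * eR (16 * V ^ 6) (1 / V ^ 8) (1 / V ^ 396) (1 / V ^ 424) ≤ S * (1 / V ^ 340) :=
    mul_le_mul_of_nonneg_left h1 hS0.le
  have h3 : (4 : ℝ) * (1 / V ^ 340) ≤ 1 / V ^ 338 := sm_le hV (m := 2)
    (ct_le hV 2 (by norm_num)) (by norm_num)
  have h4 : 6 * a + 3 ≤ S * (1 / V ^ 338) := by
    have h5 : 9 * V ≤ V ^ (4 + 1) :=
      mp_le hV (ct_le hV (c := 9) 4 (by norm_num)) (by rw [pow_one]) (by positivity)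
    have h6 : V ^ 600 * (1 / V ^ 338) ≤ S * (1 / V ^ 338) :=
      mul_le_mul_of_nonneg_right hS (by positivity)
    have h7 : V ^ (4 + 1) ≤ V ^ 600 * (1 / V ^ 338) := by
      rw [mul_one_div, le_div_iff₀ (by positivity), ← pow_add]
      exact pw_le hV (by norm_num)
    have h8 : 6 * a + 3 ≤ 9 * V := by linarith
    exact h8.trans (h5.trans (h7.trans h6))
  have h9 := two_iv hV 337
  have h10 : S * (1 / V ^ 338 + 1 / V ^ 338) ≤ S * (1 / V ^ 337) :=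
    mul_le_mul_of_nonneg_left h9 hS0.le
  have h11 : S * (4 * (1 / V ^ 340)) ≤ S * (1 / V ^ 338) := mul_le_mul_of_nonneg_left h3 hS0.le
  nlinarith

/-- The error of `c6_b`. -/
theorem nBk (hV : 2 ≤ V) {L K : ℝ} (hL1 : 1 ≤ L) (hL : L ≤ V) (hK0 : 0 ≤ K) (hK : K ≤ V) :
    KB L K (1 / V ^ 494) ≤ V ^ 513 := by
  have hV0 : 0 < V := by linarith
  have h1 : cK 4 (L ^ 2) (1 / V ^ 494) = 96 * L ^ 8 * V ^ 494 := by
    unfold cK
    have h2 : ((4 : ℕ).factorial : ℝ) = 24 := by norm_num [Nat.factorial]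
    rw [h2]
    push_cast
    field_simp
    ring
  have h3 : L ^ 8 ≤ V ^ (1 * 8) := pp_le (by linarith) (by rwa [pow_one]) 8
  have h4 : 96 * L ^ 8 ≤ V ^ (7 + 1 * 8) :=
    mp_le hV (ct_le hV 7 (by norm_num)) h3 (by positivity)
  have h5 : 96 * L ^ 8 * V ^ 494 ≤ V ^ (7 + 1 * 8 + 494) := mp_le hV h4 le_rfl (by positivity)
  have h6 : 2 * L ≤ V ^ (1 + 1) :=
    mp_le hV (ct_le hV 1 (by norm_num)) (by rwa [pow_one]) (by linarith)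
  have h7 : 2 * L * K ≤ V ^ (1 + 1 + 1) := mp_le hV h6 (by rwa [pow_one]) hK0
  have h8 := mp_le hV h5 h7 (by positivity)
  have h9 : V ^ (7 + 1 * 8 + 494 + (1 + 1 + 1)) = V ^ 512 := by norm_num
  have h10 : V ^ 513 = V ^ 512 * V := by ring
  have h11 : V ≤ V ^ 512 := by
    have := pw_le hV (show 1 ≤ 512 by norm_num)
    rwa [pow_one] at this
  have h12 : 0 < V ^ 512 := by positivity
  unfold KB
  rw [h1, h10]
  rw [h9] at h8
  nlinarith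

theorem L3_le (hV : 2 ≤ V) {L : ℝ} (hL : L ≤ V) : 3 + 2 * L ≤ V ^ 4 := by
  have h6 : 5 * V ≤ V ^ (3 + 1) :=
    mp_le hV (ct_le hV (c := 5) 3 (by norm_num)) (by rw [pow_one]) (by linarith)
  have h7 : V ^ (3 + 1) = V ^ 4 := by norm_num
  linarith

theorem L2_le (hV : 2 ≤ V) {L : ℝ} (hL : L ≤ V) : 1 + 2 * L ≤ V ^ 3 := by
  have h6 : 3 * V ≤ V ^ (2 + 1) :=
    mp_le hV (ct_le hV (c := 3) 2 (by norm_num)) (by rw [pow_one]) (by linarith)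
  have h7 : V ^ (2 + 1) = V ^ 3 := by norm_num
  linarith

theorem L1_le (hV : 2 ≤ V) {L : ℝ} (hL : L ≤ V) : 1 + L ≤ V ^ 2 := by
  have h6 : 2 * V ≤ V ^ (1 + 1) :=
    mp_le hV (ct_le hV (c := 2) 1 (by norm_num)) (by rw [pow_one]) (by linarith)
  have h7 : V ^ (1 + 1) = V ^ 2 := by norm_num
  linarith

/-- The error of the reading in `c6_b`. -/
theorem nBK (hV : 2 ≤ V) {L K : ℝ} (hL1 : 1 ≤ L) (hL : L ≤ V) (hK0 : 0 ≤ K) (hK : K ≤ V) :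
    KB L K (1 / V ^ 494) * (3 + 2 * L) * (1 + 2 * L) ≤ V ^ 520 := by
  have hV0 : 0 < V := by linarith
  have h1 := mp_le hV (nBk hV hL1 hL hK0 hK) (L3_le hV hL) (by linarith)
  exact mp_le hV h1 (L2_le hV hL) (by linarith)

/-- `hμ` of `c6_b`. -/
theorem nBm (hV : 2 ≤ V) {L K x a S G : ℝ} (hL1 : 1 ≤ L) (hL : L ≤ V) (hK0 : 0 ≤ K) (hK : K ≤ V)
    (hx0 : 0 ≤ x) (hx : x ≤ V) (ha0 : 0 ≤ a) (ha : a ≤ V) (hS : V ^ 600 ≤ S) (hG : G = V ^ 34) :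
    ((3 + 2 * L) * x) ^ 2 * (3 * a / G + KB L K (1 / V ^ 494) * (3 + 2 * L) * (1 + 2 * L) / S) <
      1 / V ^ 18 := by
  have hV0 : 0 < V := by linarith
  have hS0 : 0 < S := lt_of_lt_of_le (by positivity) hS
  have h1 : (3 + 2 * L) * x ≤ V ^ (4 + 1) := mp_le hV (L3_le hV hL) (by rwa [pow_one]) hx0
  have h2 : ((3 + 2 * L) * x) ^ 2 ≤ V ^ ((4 + 1) * 2) :=
    pp_le (mul_nonneg (by linarith) hx0) h1 2
  have h3 : 3 * a / G ≤ 1 / V ^ 31 := by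
    rw [hG, ← mul_one_div]
    exact sm_le hV (mp_le hV (ct_le hV (c := 3) 2 (by norm_num)) (n := 1) (by rwa [pow_one]) ha0)
      (by norm_num)
  have h4 : KB L K (1 / V ^ 494) * (3 + 2 * L) * (1 + 2 * L) / S ≤ 1 / V ^ 31 := by
    rw [div_le_div_iff₀ hS0 (by positivity), one_mul]
    refine le_trans (mp_le hV (nBK hV hL1 hL hK0 hK) le_rfl (by positivity)) (le_trans ?_ hS)
    exact pw_le hV (by norm_num)
  have h5 : 3 * a / G + KB L K (1 / V ^ 494) * (3 + 2 * L) * (1 + 2 * L) / S ≤ 1 / V ^ 30 := by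
    have := two_iv hV 30
    linarith
  have h6 : ((3 + 2 * L) * x) ^ 2 *
      (3 * a / G + KB L K (1 / V ^ 494) * (3 + 2 * L) * (1 + 2 * L) / S) ≤
      ((3 + 2 * L) * x) ^ 2 * (1 / V ^ 30) := mul_le_mul_of_nonneg_left h5 (by positivity)
  exact lt_of_le_of_lt (h6.trans (sm_le hV h2 (c := 20) (by norm_num))) (iv_lt hV (by norm_num))

/-- The argument of the logarithm in `c6_b`. -/
theorem nBl (hV : 2 ≤ V) {L K a S : ℝ} (hL1 : 1 ≤ L) (hL : L ≤ V) (hK0 : 0 ≤ K) (hK : K ≤ V)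
    (ha : a ≤ V) (hS : V ^ 600 ≤ S) :
    2 * (2 * (KB L K (1 / V ^ 494) * (3 + 2 * L) * (1 + 2 * L)) + 3 * a + 1) + 1 ≤
      S * (1 / V ^ 76) := by
  have hV0 : 0 < V := by linarith
  have h1 := nBK hV hL1 hL hK0 hK
  have h2 : V ^ 600 * (1 / V ^ 76) ≤ S * (1 / V ^ 76) :=
    mul_le_mul_of_nonneg_right hS (by positivity)
  have h3 : V ^ 524 ≤ V ^ 600 * (1 / V ^ 76) := by
    rw [mul_one_div, le_div_iff₀ (by positivity), ← pow_add]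
  have h4 : 13 * V ^ 520 ≤ V ^ (4 + 520) :=
    mp_le hV (ct_le hV (c := 13) 4 (by norm_num)) le_rfl (by positivity)
  have h5 : V ≤ V ^ 520 := by
    have := pw_le hV (show 1 ≤ 520 by norm_num)
    rwa [pow_one] at this
  have h6 : V ^ (4 + 520) = V ^ 524 := by norm_num
  have h7 : (1 : ℝ) ≤ V ^ 520 := one_le_pow₀ (by linarith)
  linarith

/-- The output of `c6_b`. -/
theorem nBo (hV : 2 ≤ V) {L K μ₁ : ℝ} {Aa s g : ℕ} (hL1 : 1 ≤ L) (hL : L ≤ V) (hK0 : 0 ≤ K)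
    (hK : K ≤ V) (ha : (Aa : ℝ) ≤ V) (hS : V ^ 600 ≤ 2 ^ s) (hG : (2 : ℝ) ^ g = V ^ 34)
    (hμ₁ : 1 / V ≤ μ₁) :
    thE Aa s g L L (KB L K (1 / V ^ 494)) (1 / V ^ 18) μ₁ (thI g L L (1 / V ^ 18)) ≤
      2 ^ s / V := by
  have hV0 : 0 < V := by linarith
  have hL0 : 0 ≤ L := by linarith
  have ha0 : (0 : ℝ) ≤ Aa := Nat.cast_nonneg _
  have hμ0 : 0 < μ₁ := lt_of_lt_of_le (by positivity) hμ₁
  have a2 := L2_le hV hL
  have a1 := L1_le hV hL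
  have h2L : 2 * L ≤ V ^ (1 + 1) :=
    mp_le hV (ct_le hV 1 (by norm_num)) (by rwa [pow_one]) hL0
  have hth : thI g L L (1 / V ^ 18) ≤ 1 / V ^ 11 := by
    unfold thI
    rw [hG]
    have h1 : (1 + 2 * L) * (1 + L) / V ^ 34 ≤ 1 / V ^ 12 := by
      rw [← mul_one_div]
      exact sm_le hV (mp_le hV a2 a1 (by linarith)) (by norm_num)
    have h2 : 2 * L * (1 / V ^ 18) * (1 + L) ^ 2 ≤ 1 / V ^ 12 := by
      have h3 : (1 + L) ^ 2 ≤ V ^ (2 * 2) := pp_le (by linarith) a1 2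
      have h4 := sm_le hV (mp_le hV h2L h3 (by positivity)) (b := 18) (c := 12) (by norm_num)
      refine le_trans (le_of_eq ?_) h4
      ring
    have := two_iv hV 11
    linarith
  have hg2 : (1 + 2 * L) / 2 ^ g ≤ 1 / V ^ 12 := by
    rw [hG, ← mul_one_div]
    exact sm_le hV a2 (by norm_num)
  have hg4 : 4 * L * (1 / V ^ 18) * (1 + L) ≤ 1 / V ^ 12 := by
    have h3 : 4 * L ≤ V ^ (2 + 1) :=
      mp_le hV (ct_le hV 2 (by norm_num)) (by rwa [pow_one]) hL0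
    have h4 := sm_le hV (mp_le hV h3 a1 (by linarith)) (b := 18) (c := 12) (by norm_num)
    refine le_trans (le_of_eq ?_) h4
    ring
  have hsum : thI g L L (1 / V ^ 18) + (1 + 2 * L) / 2 ^ g + 4 * L * (1 / V ^ 18) * (1 + L) ≤
      1 / V ^ 10 := by
    have e1 := two_iv hV 11
    have e2 := two_iv hV 10
    linarith
  have hth0 : 0 ≤ thI g L L (1 / V ^ 18) := by
    unfold thI
    positivity
  have hin : 2 * L * (thI g L L (1 / V ^ 18) + (1 + 2 * L) / 2 ^ g +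
      4 * L * (1 / V ^ 18) * (1 + L)) / μ₁ ≤ 1 / V ^ 7 := by
    have h1 : 2 * L * (thI g L L (1 / V ^ 18) + (1 + 2 * L) / 2 ^ g +
        4 * L * (1 / V ^ 18) * (1 + L)) ≤ 2 * L * (1 / V ^ 10) :=
      mul_le_mul_of_nonneg_left hsum (by positivity)
    have h2 : 2 * L * (1 / V ^ 10) ≤ 1 / V ^ 8 := sm_le hV h2L (by norm_num)
    rw [div_le_iff₀ hμ0]
    refine (h1.trans h2).trans ?_
    have h3 : (1 : ℝ) / V ^ 8 = 1 / V ^ 7 * (1 / V) := by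
      field_simp
    rw [h3]
    exact mul_le_mul_of_nonneg_left hμ₁ (by positivity)
  have hin2 : 2 * L * (thI g L L (1 / V ^ 18) + (1 + 2 * L) / 2 ^ g +
      4 * L * (1 / V ^ 18) * (1 + L)) / μ₁ + 1 / V ^ 18 ≤ 1 / V ^ 6 := by
    have e1 := two_iv hV 6
    have e2 := iv_le hV (show 7 ≤ 18 by norm_num)
    linarith
  have hin0 : 0 ≤ 2 * L * (thI g L L (1 / V ^ 18) + (1 + 2 * L) / 2 ^ g +
      4 * L * (1 / V ^ 18) * (1 + L)) / μ₁ + 1 / V ^ 18 := by positivity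
  have hm : Aa * (1 + L) * (2 * L * (thI g L L (1 / V ^ 18) + (1 + 2 * L) / 2 ^ g +
      4 * L * (1 / V ^ 18) * (1 + L)) / μ₁ + 1 / V ^ 18) ≤ 1 / V ^ 3 := by
    have h1 : (Aa : ℝ) * (1 + L) ≤ V ^ (1 + 2) :=
      mp_le hV (by rwa [pow_one]) a1 (by linarith)
    refine (mul_le_mul_of_nonneg_left hin2 (by positivity)).trans ?_
    exact sm_le hV h1 (by norm_num)
  have hm1 : 1 / V ^ 18 * (1 + 2 * (Aa : ℝ)) ≤ 1 / V ^ 3 := by
    rw [mul_comm]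
    exact sm_le hV (L2_le hV ha) (by norm_num)
  have hKB : 2 * KB L K (1 / V ^ 494) ≤ 2 ^ s * (1 / V ^ 3) := by
    have h1 : 2 * KB L K (1 / V ^ 494) ≤ V ^ (1 + 513) := by
      rw [pow_add, pow_one]
      exact mul_le_mul hV (nBk hV hL1 hL hK0 hK)
        (hK0.trans (KB_le hL1 hK0 (by positivity)).1) hV0.le
    refine h1.trans ?_
    rw [mul_one_div, le_div_iff₀ (by positivity), ← pow_add]
    exact (pw_le hV (by norm_num)).trans hS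
  unfold thE
  have hS0 : (0 : ℝ) < 2 ^ s := by positivity
  have e1 := two_iv hV 2
  have e2 := two_iv hV 1
  have h3 : 1 / V ^ 18 * (1 + 2 * (Aa : ℝ)) + Aa * (1 + L) * (2 * L *
      (thI g L L (1 / V ^ 18) + (1 + 2 * L) / 2 ^ g +
      4 * L * (1 / V ^ 18) * (1 + L)) / μ₁ + 1 / V ^ 18) + 1 / V ^ 3 ≤ 1 / V := by
    rw [pow_one] at e2
    have e3 := iv_le hV (show 2 ≤ 3 by norm_num)
    linarith
  have h4 := mul_le_mul_of_nonneg_left h3 hS0.le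
  rw [show (2 : ℝ) ^ s * (1 / V) = 2 ^ s / V from mul_one_div _ _] at h4
  refine le_trans ?_ h4
  exact (add_le_add le_rfl hKB).trans (le_of_eq (mul_add _ _ _).symm)

end num

end Pool.D2N
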