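import Pool.Agent.H90.D2.Both
import Pool.Agent.H66.D2.Join1
import Pool.Agent.H73.D2.Trn

/-!
# D2, `(1,2,2;3)`, both coordinates rough: the law of the pair with its copies

`PrD`: the structure of one finite law. `sd10`: five copies for each sample. `PrD.hP`, `PrD.hfull`,
`PrD.hb0`, `PrD.hI`, `PrD.hE`: the hypotheses of the joins. `PrD.cpn`: the relation of a copy.
`PrD.sepc`, `PrD.sepo`: the directions are separated. `PrD.tau`: the two times are separated.
-/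

set_option autoImplicit false

namespace Pool.D2N

open Finset Real
open Pool.Agent.H49.Ent Pool.Agent.H32.Dense Pool.STK
open Pool.K2S
open Pool.KM7 (P2 P2_isLaw P2_pos)
open Pool.D2A Pool.D2T

/-- Five copies for the first sample, five for the second one. -/
def sd10 (r : Fin 10) : Bool := decide (r.1 < 5)

/-- The copies of the first sample. -/
def ja (k : Fin 5) : Fin 10 := ⟨k.1, by omega⟩

/-- The copies of the second sample. -/
def jb (k : Fin 5) : Fin 10 := ⟨k.1 + 5, by omega⟩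

theorem ja_inj : Function.Injective ja := by
  intro a b h
  have := congrArg Fin.val h
  exact Fin.ext this

theorem jb_inj : Function.Injective jb := by
  intro a b h
  have h1 : a.1 + 5 = b.1 + 5 := congrArg Fin.val h
  exact Fin.ext (by omega)

theorem sd_ja (k : Fin 5) : sd10 (ja k) = true := by
  unfold sd10 ja
  simp

theorem sd_jb (k : Fin 5) : sd10 (jb k) = false := by
  unfold sd10 jb
  simp

variable {Ω σ ζ ζ' ε : Type} [Fintype Ω]

/-- The structure of one law. -/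
structure PrD (p : Ω → ℝ) (S : Ω → σ) (z : Ω → ζ) (z' : Ω → ζ') (e : Ω → ε) (E0 : ζ → ε → ℝ)
    (A0 T0 : ζ → ε → Fin 2 → ℝ) (b ek : Ω → ℤ) (P : Ω → Fin 2 → ℤ) (U : Ω → Fin 2 → Fin 2 → ℤ)
    (A s k K₀ : ℕ) (L K cE eF eH eP : ℝ) : Prop where
  isLaw : IsLaw p
  dz : Det p z' z
  dS : Det p S z
  dP : Det p z' P
  dU : Det p z' U
  de : Det p S e
  hA : 1 ≤ A
  hL : 1 ≤ L
  hK : 0 ≤ K
  hK₀ : 1 ≤ K₀
  hcE : 0 ≤ cE
  bP : ∀ ω, 0 < p ω → ∀ j, |P ω j| ≤ ((A * 2 ^ s : ℕ) : ℤ)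
  bU : ∀ ω, 0 < p ω → ∀ i j, |(U ω i j : ℝ)| ≤ L * 2 ^ s
  bE : ∀ ω, 0 < p ω → |E0 (z ω) (e ω)| ≤ L
  bA : ∀ ω, 0 < p ω → ∀ i, |A0 (z ω) (e ω) i| ≤ L
  bT : ∀ ω, 0 < p ω → ∀ i, |T0 (z ω) (e ω) i| ≤ L
  cell : ∀ ω, 0 < p ω → |2 ^ k * E0 (z ω) (e ω) - ek ω| ≤ 1
  num : ∀ ω, 0 < p ω → |(b ω : ℝ) - ∑ j, T0 (z ω) (e ω) j * P ω j -
    ∑ i, A0 (z ω) (e ω) i * ((U ω i 0 : ℝ) + E0 (z ω) (e ω) * U ω i 1)| ≤ K
  few : CH p b (fun ω => (e ω, z ω)) ≤ eH
  free : CH p e z ≤ CH p e z' + eF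
  fullP : 2 * (s * Real.log 2) - eP ≤ CH p P z
  fullT : s * Real.log 2 - eP ≤ CH p (fun ω => P ω 0) S
  rate : NoCov p ek z' K₀ cE
  mov : ∀ ω ω', 0 < p ω → 0 < p ω' → S ω = S ω' →
    |(P ω' 1 : ℝ) - P ω 1 - ((P ω' 0 : ℝ) - P ω 0) * E0 (z ω) (e ω)| ≤ K
  vel : ∀ ω ω', 0 < p ω → 0 < p ω' → S ω = S ω' → ∀ i,
    |((U ω' i 0 : ℝ) - U ω i 0) + E0 (z ω) (e ω) * ((U ω' i 1 : ℝ) - U ω i 1)| ≤ K
  rel : ∀ ω ω', 0 < p ω → 0 < p ω' → S ω = S ω' → ∀ j,
    |2 * ((P ω' 0 : ℝ) - P ω 0) * T0 (z ω) (e ω) j +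
      ∑ i, A0 (z ω) (e ω) i * ((U ω' i j : ℝ) - U ω i j)| ≤ K

/-- The data of the copies. -/
def Wc (e : Ω → ε) (b : Ω → ℤ) (w : (Ω × Ω) × (Fin 10 → Ω × Ω)) (r : Fin 10) :
    ε × ℤ := (e (cp sd10 r w), b (cp sd10 r w))

/-- The difference of the times. -/
def tq (P : Ω → Fin 2 → ℤ) (v : Ω × Ω) : ℤ := P v.2 0 - P v.1 0

variable {p : Ω → ℝ} {S : Ω → σ} {z : Ω → ζ} {z' : Ω → ζ'} {e : Ω → ε} {E0 : ζ → ε → ℝ}
  {A0 T0 : ζ → ε → Fin 2 → ℝ} {b ek : Ω → ℤ} {P : Ω → Fin 2 → ℤ} {U : Ω → Fin 2 → Fin 2 → ℤ}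
  {A s k K₀ : ℕ} {L K cE eF eH eP : ℝ}

namespace PrD

variable (D : PrD p S z z' e E0 A0 T0 b ek P U A s k K₀ L K cE eF eH eP)
include D

theorem hP {w : (Ω × Ω) × (Fin 10 → Ω × Ω)} (hw : 0 < PL p S z' sd10 w) (j : Fin 3) :
    |v3 (P w.1.1) (tq P w.1) j| ≤ ((2 * A * 2 ^ s : ℕ) : ℤ) := by
  obtain ⟨a1, a2, a3, a4⟩ := PL_pos D.isLaw S z' sd10 hw
  have h0 := D.bP _ a1 0
  have h1 := D.bP _ a1 1
  have h2 := D.bP _ a2 0
  have e1 : ((2 * A * 2 ^ s : ℕ) : ℤ) = 2 * ((A * 2 ^ s : ℕ) : ℤ) := by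
    push_cast
    ring
  have e2 : (0 : ℤ) ≤ ((A * 2 ^ s : ℕ) : ℤ) := Int.natCast_nonneg _
  rw [e1]
  unfold v3 tq
  split_ifs
  · linarith
  · linarith
  · have := abs_sub (P w.1.2 0) (P w.1.1 0)
    linarith

/-- The point is full given the own data. -/
theorem fulP : 2 * (s * Real.log 2) - (eP + eF) ≤ CH p P (fun ω => (e ω, z ω)) := by
  have h0 := D.isLaw.nonneg
  have h1 := Pool.KEND.info_symm h0 P e z
  have h2 : CH p e z' ≤ CH p e (fun ω => (P ω, z ω)) := by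
    refine CH_mono_cond h0 fun ω ω' a b h => ?_
    show (P ω, z ω) = (P ω', z ω')
    rw [D.dP ω ω' a b h, D.dz ω ω' a b h]
  linarith [D.free, D.fullP]

/-- **The point and the time are full** given the own data and the copies. -/
theorem hfull : 3 * (s * Real.log 2) - (2 * eP + eF + 10 * (eF + eH)) ≤
    CH (PL p S z' sd10) (fun w => v3 (P w.1.1) (tq P w.1))
      (fun w => ((z w.1.1, e w.1.1), (Wc e b w, z w.1.1))) := by
  have hp := D.isLaw
  have hq := (PL_isLaw hp S z' sd10).nonneg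
  have b1 := pair_budget hp D.dz D.dS sd10 e b D.free D.few
    (fun v => v3 (P v.1) (tq P v)) (fun v => (z v.1, e v.1))
  have c1 : CH (PL p S z' sd10) (fun w => v3 (P w.1.1) (tq P w.1))
      (fun w => ((z w.1.1, e w.1.1), z w.1.1)) = CH (PL p S z' sd10)
        (fun w => (tq P w.1, P w.1.1)) (fun w => (e w.1.1, z w.1.1)) := by
    refine CH_congr hq ?_ ?_ ?_ ?_
    · intro w w' _ _ h
      simp only [Prod.mk.injEq] at h ⊢
      obtain ⟨h1, h2, h3⟩ := h
      have k0 := congrFun h1 0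
      have k1 := congrFun h1 1
      have k2 := congrFun h1 2
      simp only [v3] at k0 k1 k2
      simp only [if_true, one_ne_zero, if_false] at k0 k1 k2
      refine ⟨by simpa using k2, ?_⟩
      funext j
      revert j
      exact Fin.forall_fin_two.mpr ⟨k0, k1⟩
    · intro w w' _ _ h
      simp only [Prod.mk.injEq] at h ⊢
      obtain ⟨⟨h1, h2⟩, h3, h4⟩ := h
      rw [h1, h2]
    · intro w w' _ _ h
      simp only [Prod.mk.injEq] at h ⊢
      exact ⟨h.1.2, h.2⟩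
    · intro w w' _ _ h
      simp only [Prod.mk.injEq] at h ⊢
      exact ⟨⟨h.2, h.1⟩, h.2⟩
  have c2 := CH_chain hq (fun w : (Ω × Ω) × (Fin 10 → Ω × Ω) => tq P w.1) (fun w => P w.1.1)
    (fun w => (e w.1.1, z w.1.1))
  have c3 : CH (PL p S z' sd10) (fun w => P w.1.1) (fun w => (e w.1.1, z w.1.1)) =
      CH p P (fun ω => (e ω, z ω)) := (PL_fst hp S z' sd10).CH P (fun ω => (e ω, z ω))
  have c4 : CH p (fun ω => P ω 0) S ≤ CH (PL p S z' sd10) (fun w => tq P w.1)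
      (fun w => (P w.1.1, (e w.1.1, z w.1.1))) := by
    rw [← PL_time hp S z' sd10 (fun ω => P ω 0)]
    have d1 : CH (PL p S z' sd10) (fun w => P w.1.2 0) (fun w => w.1.1) =
        CH (PL p S z' sd10) (fun w => tq P w.1) (fun w => w.1.1) := by
      refine CH_congr hq ?_ ?_ (fun _ _ _ _ h => h) (fun _ _ _ _ h => h)
      · intro w w' _ _ h
        simp only [Prod.mk.injEq] at h ⊢
        unfold tq
        rw [h.1, h.2]
      · intro w w' _ _ h
        simp only [Prod.mk.injEq] at h ⊢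
        have h1 := h.1
        unfold tq at h1
        rw [h.2] at h1
        linarith
    rw [d1]
    exact CH_mono_cond hq fun w w' _ _ h => by
      have h' : w.1.1 = w'.1.1 := h
      rw [h']
  have c5 := D.fulP
  have c6 := D.fullT
  push_cast at b1
  have b2 : CH (PL p S z' sd10) (fun w => v3 (P w.1.1) (tq P w.1))
      (fun w => ((z w.1.1, e w.1.1), (Wc e b w, z w.1.1))) = CH (PL p S z' sd10)
        (fun w => (fun v => v3 (P v.1) (tq P v)) w.1) (fun w => ((fun v : Ω × Ω =>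
          (z v.1, e v.1)) w.1, ((fun r => (e (cp sd10 r w), b (cp sd10 r w))), z w.1.1))) := rfl
  rw [b2]
  have b3 : CH (PL p S z' sd10) (fun w => (fun v => v3 (P v.1) (tq P v)) w.1)
      (fun w => ((fun v : Ω × Ω => (z v.1, e v.1)) w.1, z w.1.1)) = CH (PL p S z' sd10)
      (fun w => v3 (P w.1.1) (tq P w.1)) (fun w => ((z w.1.1, e w.1.1), z w.1.1)) := rfl
  rw [b3] at b1
  linarith

/-- The own number. -/
theorem hb0 : CH (PL p S z' sd10) (fun w => b w.1.1)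
    (fun w => ((z w.1.1, e w.1.1), (Wc e b w, z w.1.1))) ≤ eH := by
  have hp := D.isLaw
  have hq := (PL_isLaw hp S z' sd10).nonneg
  have h1 : CH (PL p S z' sd10) (fun w => b w.1.1) (fun w => (e w.1.1, z w.1.1)) =
      CH p b (fun ω => (e ω, z ω)) := (PL_fst hp S z' sd10).CH b (fun ω => (e ω, z ω))
  refine le_trans ?_ (h1.le.trans D.few)
  exact CH_mono_cond hq fun w w' _ _ h => by
    simp only [Prod.mk.injEq] at h ⊢
    exact ⟨h.1.2, h.1.1⟩

/-- **The copies contain few bits** about functions of the pair. -/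
theorem hI {χ : Type} (X : Ω × Ω → χ) : CH (PL p S z' sd10) (fun w => X w.1) (fun w => z w.1.1) -
    10 * (eF + eH) ≤ CH (PL p S z' sd10) (fun w => X w.1) (fun w => (Wc e b w, z w.1.1)) := by
  have hp := D.isLaw
  have hq := (PL_isLaw hp S z' sd10).nonneg
  have b1 := pair_budget hp D.dz D.dS sd10 e b D.free D.few X (fun _ => ())
  push_cast at b1
  have b2 : CH (PL p S z' sd10) (fun w => X w.1) (fun w => z w.1.1) ≤
      CH (PL p S z' sd10) (fun w => X w.1) (fun w => ((fun _ : Ω × Ω => ()) w.1, z w.1.1)) :=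
    CH_mono_cond hq fun w w' _ _ h => by
      have h' : z w.1.1 = z w'.1.1 := h
      simp only [Prod.mk.injEq]
      exact ⟨trivial, h'⟩
  have b3 : CH (PL p S z' sd10) (fun w => X w.1) (fun w => ((fun _ : Ω × Ω => ()) w.1,
      ((fun r => (e (cp sd10 r w), b (cp sd10 r w))), z w.1.1))) ≤
      CH (PL p S z' sd10) (fun w => X w.1) (fun w => (Wc e b w, z w.1.1)) :=
    CH_mono_cond hq fun w w' _ _ h => by
      simp only [Prod.mk.injEq, true_and] at h
      show (Wc e b w, z w.1.1) = (Wc e b w', z w'.1.1)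
      rw [Prod.mk.injEq]
      exact h
  linarith

/-- **The rate of the own direction** on the large events. -/
theorem hE {c : ℝ} (hc : 0 < c) (G : (Ω × Ω) × (Fin 10 → Ω × Ω) → Prop)
    (hG : c ≤ law (PL p S z' sd10) G True) :
    (1 - cE / c) * Real.log K₀ ≤
      CH (cond (PL p S z' sd10) G True) (fun w => ek w.1.1) (fun w => z w.1.1) := by
  have hp := D.isLaw
  have hq := PL_isLaw hp S z' sd10
  have h1 := ev_of_nocov hq (PL_fst hp S z' sd10) ek z' D.hK₀ D.hcE D.rate hc G hG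
  refine h1.trans ?_
  refine CH_mono_cond (cond_nonneg hq.nonneg G True) fun w w' a b h => ?_
  have a1 : 0 < PL p S z' sd10 w := by
    by_contra hcon
    have : PL p S z' sd10 w = 0 := le_antisymm (not_lt.mp hcon) (hq.nonneg w)
    unfold Pool.Agent.H49.Ent.cond at a
    rw [this] at a
    simp at a
  have b1 : 0 < PL p S z' sd10 w' := by
    by_contra hcon
    have : PL p S z' sd10 w' = 0 := le_antisymm (not_lt.mp hcon) (hq.nonneg w')
    unfold Pool.Agent.H49.Ent.cond at b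
    rw [this] at b
    simp at b
  exact D.dz _ _ (PL_pos hp S z' sd10 a1).1 (PL_pos hp S z' sd10 b1).1 h

/-- The records of a copy. -/
theorem cpz {w : (Ω × Ω) × (Fin 10 → Ω × Ω)} (hw : 0 < PL p S z' sd10 w) (r : Fin 10) :
    0 < p (cp sd10 r w) ∧ z (cp sd10 r w) = z w.1.1 ∧ z w.1.2 = z w.1.1 ∧
      P (cp sd10 r w) = P (sm sd10 r w.1) ∧ U (cp sd10 r w) = U (sm sd10 r w.1) ∧
      e w.1.2 = e w.1.1 := by
  obtain ⟨a1, a2, a3, a4⟩ := PL_pos D.isLaw S z' sd10 hw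
  have e3 : 0 < p (sm sd10 r w.1) := by
    unfold sm
    cases sd10 r
    · exact a2
    · exact a1
  have e2 : z w.1.2 = z w.1.1 := (D.dS _ _ a1 a2 a3).symm
  have e5 : z (sm sd10 r w.1) = z w.1.1 := by
    unfold sm
    cases sd10 r
    · exact e2
    · rfl
  exact ⟨(a4 r).1, by rw [← D.dz _ _ e3 (a4 r).1 (a4 r).2, e5], e2,
    (D.dP _ _ e3 (a4 r).1 (a4 r).2).symm, (D.dU _ _ e3 (a4 r).1 (a4 r).2).symm,
    (D.de _ _ a1 a2 a3).symm⟩

/-- **The relation of a copy.** -/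
theorem cpn {w : (Ω × Ω) × (Fin 10 → Ω × Ω)} (hw : 0 < PL p S z' sd10 w) (r : Fin 10) :
    |((Wc e b w r).2 : ℝ) -
      ∑ j, T0 (z w.1.1) (Wc e b w r).1 j * P (sm sd10 r w.1) j -
      ∑ i, A0 (z w.1.1) (Wc e b w r).1 i * ((U (sm sd10 r w.1) i 0 : ℝ) +
        E0 (z w.1.1) (Wc e b w r).1 * U (sm sd10 r w.1) i 1)| ≤ K := by
  obtain ⟨a1, a2, -, a4, a5, -⟩ := D.cpz hw r
  have h := D.num _ a1
  rw [a2, a4, a5] at h
  exact h

/-- The bounds of the data of a copy. -/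
theorem cpb {w : (Ω × Ω) × (Fin 10 → Ω × Ω)} (hw : 0 < PL p S z' sd10 w) (r : Fin 10) :
    |E0 (z w.1.1) (Wc e b w r).1| ≤ L ∧ (∀ i, |A0 (z w.1.1) (Wc e b w r).1 i| ≤ L) ∧
      (∀ i, |T0 (z w.1.1) (Wc e b w r).1 i| ≤ L) := by
  obtain ⟨a1, a2, -, a4, a5, -⟩ := D.cpz hw r
  have h1 := D.bE _ a1
  have h2 := D.bA _ a1
  have h3 := D.bT _ a1
  rw [a2] at h1 h2 h3
  exact ⟨h1, h2, h3⟩

/-- Near cells. -/
theorem near {ω ω' : Ω} (h : 0 < p ω) (h' : 0 < p ω') (hz : z ω = z ω')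
    (hE : |E0 (z ω) (e ω) - E0 (z ω) (e ω')| < 1 / 2 ^ k) :
    ek ω ∈ Finset.Icc (ek ω' - 2) (ek ω' + 2) := by
  have h1 := D.cell _ h
  have h2 := D.cell _ h'
  rw [← hz] at h2
  have h3 : |2 ^ k * E0 (z ω) (e ω) - 2 ^ k * E0 (z ω) (e ω')| < 1 := by
    rw [← mul_sub, abs_mul, abs_of_pos (by positivity : (0 : ℝ) < 2 ^ k)]
    rw [lt_div_iff₀ (by positivity)] at hE
    linarith
  have h4 : |(ek ω : ℝ) - ek ω'| < 3 := by
    rw [abs_lt] at h3 ⊢
    rw [abs_le] at h1 h2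
    constructor <;> linarith [h1.1, h1.2, h2.1, h2.2, h3.1, h3.2]
  have h5 : |ek ω - ek ω'| < 3 := by exact_mod_cast h4
  rw [abs_lt] at h5
  rw [Finset.mem_Icc]
  constructor <;> omega

/-- **The directions of the own sample and of a copy are separated.** -/
theorem sepo {c : ℝ} (hc : 0 < c)
    (hn : Real.log 2 / c + Real.log (5 : ℕ) < (1 - cE / c) * Real.log K₀) (r : Fin 10) :
    law (PL p S z' sd10) (fun w => |E0 (z w.1.1) (e (cp sd10 r w)) -
      E0 (z w.1.1) (e w.1.1)| < 1 / 2 ^ k) True < c := by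
  refine cop_sep D.isLaw S z' sd10 r ek D.hK₀ D.hcE D.rate hc _
    (fun x => Finset.Icc (ek x.1.1 - 2) (ek x.1.1 + 2)) ?_ hn
  intro w hw hG
  obtain ⟨a1, a2, -, -, -, -⟩ := D.cpz hw r
  refine ⟨?_, ?_⟩
  · refine D.near a1 (PL_pos D.isLaw S z' sd10 hw).1 a2 ?_
    rw [a2]
    exact hG
  · rw [Int.card_Icc]
    have : (ek w.1.1 + 2 + 1 - (ek w.1.1 - 2)).toNat = 5 := by omega
    exact this.le

/-- **The directions of two copies are separated.** -/
theorem sepc {c : ℝ} (hc : 0 < c)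
    (hn : Real.log 2 / c + Real.log (5 : ℕ) < (1 - cE / c) * Real.log K₀) {r r' : Fin 10}
    (hr : r' ≠ r) :
    law (PL p S z' sd10) (fun w => |E0 (z w.1.1) (e (cp sd10 r w)) -
      E0 (z w.1.1) (e (cp sd10 r' w))| < 1 / 2 ^ k) True < c := by
  refine cop_sep D.isLaw S z' sd10 r ek D.hK₀ D.hcE D.rate hc _
    (fun x => Finset.Icc (ek (x.2 ⟨r', hr⟩) - 2) (ek (x.2 ⟨r', hr⟩) + 2)) ?_ hn
  intro w hw hG
  obtain ⟨a1, a2, -, -, -, -⟩ := D.cpz hw r
  obtain ⟨b1, b2, -, -, -, -⟩ := D.cpz hw r'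
  refine ⟨?_, ?_⟩
  · refine D.near a1 b1 (a2.trans b2.symm) ?_
    rw [a2]
    exact hG
  · rw [Int.card_Icc]
    have : ∀ x : ℤ, (x + 2 + 1 - (x - 2)).toNat = 5 := fun x => by omega
    exact (this _).le

/-- **The two times are separated.** -/
theorem tau {g : ℕ} (hg : g ≤ s) :
    law (PL p S z' sd10) (fun w => |(tq P w.1 : ℝ)| < 2 ^ s / 2 ^ g) True *
      (g * Real.log 2 - Real.log 3) ≤ eP + Real.log (2 * A + 1) + Real.log 2 := by
  classical
  have hp := D.isLaw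
  have hq := PL_isLaw hp S z' sd10
  have hA : (1 : ℝ) ≤ A := by exact_mod_cast D.hA
  have h2s : (0 : ℝ) < 2 ^ s := by positivity
  have hfull : s * Real.log 2 - eP ≤ CH (PL p S z' sd10) (fun w => P w.1.2 0)
      (fun w => w.1.1) := by
    rw [PL_time hp S z' sd10 (fun ω => P ω 0)]
    exact D.fullT
  have hL : ∀ q' : (Ω × Ω) × (Fin 10 → Ω × Ω) → ℝ, IsLaw q' →
      (∀ w, 0 < q' w → 0 < PL p S z' sd10 w) →
      CH q' (fun w => P w.1.2 0) (fun w => w.1.1) ≤ s * Real.log 2 + Real.log (2 * A + 1) := by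
    intro q' hq' hs
    have h1 := Pool.D2P.CH_card hq' (fun w => P w.1.2 0) (fun w => w.1.1)
      (fun _ => Finset.Icc (-((A * 2 ^ s : ℕ) : ℤ)) ((A * 2 ^ s : ℕ) : ℤ)) (2 * (A * 2 ^ s) + 1)
      (fun w hw => by
        have h2 := D.bP _ (PL_pos hp S z' sd10 (hs w hw)).2.1 0
        rw [abs_le] at h2
        exact Finset.mem_Icc.2 h2)
      (fun w _ => by
        rw [Int.card_Icc]
        omega)
    refine h1.trans ?_
    have e1 : s * Real.log 2 + Real.log (2 * A + 1) = Real.log (2 ^ s * (2 * A + 1)) := by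
      rw [Real.log_mul (by positivity) (by positivity), Real.log_pow]
    rw [e1]
    refine Real.log_le_log (by positivity) ?_
    push_cast
    have : (1 : ℝ) ≤ 2 ^ s := one_le_pow₀ (by norm_num)
    nlinarith
  obtain ⟨G, hG⟩ : ∃ G : (Ω × Ω) × (Fin 10 → Ω × Ω) → Prop, G = fun w =>
    |(tq P w.1 : ℝ)| < 2 ^ s / 2 ^ g := ⟨_, rfl⟩
  have hM : 0 < law (PL p S z' sd10) G True →
      CH (cond (PL p S z' sd10) G True) (fun w => P w.1.2 0) (fun w => w.1.1) ≤
        Real.log 3 + ((s : ℝ) - g) * Real.log 2 := by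
    intro hG0
    have hcl : IsLaw (cond (PL p S z' sd10) G True) :=
      ⟨cond_nonneg hq.nonneg G True, sum_cond _ G hG0.ne'⟩
    have h1 := Pool.D2P.CH_card hcl (fun w => P w.1.2 0) (fun w => w.1.1)
      (fun x => Finset.Icc (P x 0 - (2 ^ (s - g) : ℤ)) (P x 0 + (2 ^ (s - g) : ℤ)))
      (2 * 2 ^ (s - g) + 1)
      (fun w hw => by
        have h2 : G w := by
          by_contra hcon
          unfold Pool.Agent.H49.Ent.cond at hw
          rw [if_neg (by simpa using hcon)] at hw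
          exact absurd hw (lt_irrefl _)
        rw [hG] at h2
        have h3 : (2 : ℝ) ^ s / 2 ^ g = 2 ^ (s - g) := by
          rw [div_eq_iff (by positivity), ← pow_add]
          congr 1
          omega
        rw [h3] at h2
        have h4 : |tq P w.1| < 2 ^ (s - g) := by exact_mod_cast h2
        unfold tq at h4
        rw [abs_lt] at h4
        rw [Finset.mem_Icc]
        constructor <;> linarith [h4.1, h4.2])
      (fun w _ => by
        rw [Int.card_Icc]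
        have : ∀ x y : ℤ, 0 ≤ y → (x + y + 1 - (x - y)).toNat = (2 * y + 1).toNat := fun x y _ => by
          congr 1
          ring
        rw [this _ _ (by positivity)]
        have e2 : (2 * (2 : ℤ) ^ (s - g) + 1).toNat = 2 * 2 ^ (s - g) + 1 := by
          have e3 : (2 * (2 : ℤ) ^ (s - g) + 1) = ((2 * 2 ^ (s - g) + 1 : ℕ) : ℤ) := by
            push_cast
            ring
          rw [e3, Int.toNat_natCast]
        exact e2.le)
    refine h1.trans ?_
    have e1 : Real.log 3 + ((s : ℝ) - g) * Real.log 2 = Real.log (3 * 2 ^ (s - g)) := by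
      rw [Real.log_mul (by norm_num) (by positivity), Real.log_pow, Nat.cast_sub hg]
    rw [e1]
    refine Real.log_le_log (by positivity) ?_
    push_cast
    have : (1 : ℝ) ≤ 2 ^ (s - g) := one_le_pow₀ (by norm_num)
    linarith
  have h5 := Pool.D2P.prob_small hq (fun w => P w.1.2 0) (fun w => w.1.1) G hL hM
    (e := eP + Real.log (2 * A + 1)) (by linarith)
  rw [← hG]
  have e3 : s * Real.log 2 + Real.log (2 * A + 1) - (Real.log 3 + ((s : ℝ) - g) * Real.log 2) =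
      (g * Real.log 2 - Real.log 3) + Real.log (2 * A + 1) := by ring
  rw [e3] at h5
  have h6 : 0 ≤ law (PL p S z' sd10) G True := law_nonneg hq.nonneg G True
  have h7 : 0 ≤ Real.log (2 * (A : ℝ) + 1) := Real.log_nonneg (by linarith)
  nlinarith [mul_nonneg h6 h7]

end PrD

end Pool.D2N
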